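import Pool.Agent.Lib.MP_bba6cc_lc.ATpl

/-!
# The connectives `⊕` and `1` as templates over a base with `[B] = L`
-/

namespace Pool.Agent.Lib.MP_bba6cc_lc

open Classical

variable {B : List BFun}

/-- templates in place of the holes of a template -/
def bindT : Tpl B → (ℕ → Tpl B) → Tpl B
  | .hole k, ρ => ρ k
  | .prpI, _ => .prpI
  | .nom i, _ => .nom i
  | .nomS, _ => .nomS
  | .var x, _ => .var x
  | .varS, _ => .varS
  | .app i args, ρ => .app i fun j => bindT (args j) ρ
  | .dia t, ρ => .dia (bindT t ρ)
  | .box t, ρ => .box (bindT t ρ)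
  | .down x t, ρ => .down x (bindT t ρ)
  | .downS t, ρ => .downS (bindT t ρ)
  | .atN i t, ρ => .atN i (bindT t ρ)
  | .atNS t, ρ => .atNS (bindT t ρ)
  | .atV x t, ρ => .atV x (bindT t ρ)
  | .atVS t, ρ => .atVS (bindT t ρ)

theorem fillA_bindT (t : Tpl B) (ρ : ℕ → Tpl B) (n : ℕ) (σ : ℕ → Fa B) :
    fillA (bindT t ρ) n σ = fillA t n fun k => fillA (ρ k) n σ := by
  induction t with
  | app i args ih =>
    simp only [bindT, fillA]
    congr 1
    funext j
    exact ih j
  | dia t ih => simp only [bindT, fillA, ih]
  | box t ih => simp only [bindT, fillA, ih]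
  | down x t ih => simp only [bindT, fillA, ih]
  | downS t ih => simp only [bindT, fillA, ih]
  | atN x t ih => simp only [bindT, fillA, ih]
  | atNS t ih => simp only [bindT, fillA, ih]
  | atV x t ih => simp only [bindT, fillA, ih]
  | atVS t ih => simp only [bindT, fillA, ih]
  | _ => rfl

theorem holesA_bindT (t : Tpl B) (ρ : ℕ → Tpl B) :
    holesA (bindT t ρ) = (holesA t).flatMap fun k => holesA (ρ k) := by
  induction t with
  | hole k => simp [bindT, holesA]
  | app i args ih =>
    simp only [bindT, holesA]
    rw [List.flatMap_assoc]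
    exact List.flatMap_congr fun j _ => ih j
  | dia t ih => simpa only [bindT, holesA] using ih
  | box t ih => simpa only [bindT, holesA] using ih
  | down x t ih => simpa only [bindT, holesA] using ih
  | downS t ih => simpa only [bindT, holesA] using ih
  | atN x t ih => simpa only [bindT, holesA] using ih
  | atNS t ih => simpa only [bindT, holesA] using ih
  | atV x t ih => simpa only [bindT, holesA] using ih
  | atVS t ih => simpa only [bindT, holesA] using ih
  | _ => rfl

/-- the connectives: `X` computes `⊕` and contains each of its two holes once; `T` is true -/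
structure Con (B : List BFun) where
  X : Tpl B
  T : Tpl B
  holes_X : (holesA X).Perm [0, 1]
  holes_T : holesA T = []
  holds_X : ∀ (M : Model) (n : ℕ) (σ : ℕ → Fa B) (g : ℕ → M.W) (w : M.W),
    HoldsA M (fillA X n σ) g w ↔ ¬ (HoldsA M (σ 0) g w ↔ HoldsA M (σ 1) g w)
  holds_T : ∀ (M : Model) (n : ℕ) (σ : ℕ → Fa B) (g : ℕ → M.W) (w : M.W),
    HoldsA M (fillA T n σ) g w

/-- a term with closed formulas in the places of the variables -/
def Tm.toT {k : ℕ} : Tm B k → Tpl B
  | .hole _ => .var 0
  | .app i args => .app i fun j => (args j).toT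

theorem holes_toT {k : ℕ} (t : Tm B k) : holesA t.toT = [] := by
  induction t with
  | hole i => rfl
  | app i args ih =>
    simp only [Tm.toT, holesA]
    rw [List.flatMap_eq_nil_iff]
    intro j _
    exact ih j

theorem holds_toT (M : Model) {k : ℕ} (t : Tm B k) (n : ℕ) (σ : ℕ → Fa B) (g : ℕ → M.W)
    (w : M.W) : HoldsA M (fillA t.toT n σ) g w ↔
      t.eval (fun _ => decide (HoldsA M (.var 0 : Fa B) g w)) = true := by
  induction t with
  | hole i => simp [Tm.toT, fillA, Tm.eval]
  | app i args ih =>
    have : (fun j => decide (HoldsA M (fillA ((args j).toT) n σ) g w)) =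
        (fun j => (args j).eval fun _ => decide (HoldsA M (.var 0 : Fa B) g w)) := by
      funext j
      rw [Bool.eq_iff_iff, decide_eq_true_iff]
      exact ih j
    show (B.get i).fn (fun j => decide (HoldsA M (fillA ((args j).toT) n σ) g w)) = true ↔ _
    rw [this]
    exact Iff.rfl

theorem exists_con (hB : CloneIsAffine B) : Nonempty (Con B) := by
  obtain ⟨T, hT⟩ := (hB 1 (by norm_num) (fun _ => true)).mpr
    ⟨1, fun _ => 0, fun x => by simp [toZ]⟩
  obtain ⟨Z, hZ⟩ := (hB 1 (by norm_num) (fun _ => false)).mpr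
    ⟨0, fun _ => 0, fun x => by simp [toZ]⟩
  set T' : Tpl B := T.toT with hT'
  set Z' : Tpl B := Z.toT with hZ'
  have hT'h : ∀ (M : Model) (n : ℕ) (σ : ℕ → Fa B) (g : ℕ → M.W) (w : M.W),
      HoldsA M (fillA T' n σ) g w := by
    intro M n σ g w
    rw [hT', holds_toT, hT]
  have hZ'h : ∀ (M : Model) (n : ℕ) (σ : ℕ → Fa B) (g : ℕ → M.W) (w : M.W),
      ¬ HoldsA M (fillA Z' n σ) g w := by
    intro M n σ g w
    rw [hZ', holds_toT, hZ]
    simp
  have hZ'n : holesA Z' = [] := holes_toT Z
  obtain ⟨f, c, d, i, j, hfd, hij, hi, hj⟩ := exists_two hB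
  -- the application of `f` to two formulas at the places `a`, `b`
  have key : ∀ (a b : Fin (B.get f).ar), a ≠ b → d a = 1 → d b = 1 →
      ∀ (L1 L2 L3 : List (Fin (B.get f).ar)),
      List.finRange (B.get f).ar = L1 ++ a :: (L2 ++ b :: L3) →
      ∃ X : Tpl B, holesA X = [0, 1] ∧
        (∀ (M : Model) (n : ℕ) (σ : ℕ → Fa B) (g : ℕ → M.W) (w : M.W),
          toZ (decide (HoldsA M (fillA X n σ) g w)) =
            c + toZ (decide (HoldsA M (σ 0) g w)) + toZ (decide (HoldsA M (σ 1) g w))) := by
    intro a b hab ha hb L1 L2 L3 hL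
    have hnd : (L1 ++ a :: (L2 ++ b :: L3)).Nodup := by rw [← hL]; exact List.nodup_finRange _
    have hn1 : ∀ k ∈ L1, k ≠ a ∧ k ≠ b := by
      intro k hk
      rw [List.nodup_append] at hnd
      exact ⟨hnd.2.2 k hk a (by simp), hnd.2.2 k hk b (by simp)⟩
    have hn2 : ∀ k ∈ L2, k ≠ a ∧ k ≠ b := by
      intro k hk
      rw [List.nodup_append, List.nodup_cons, List.nodup_append] at hnd
      refine ⟨?_, hnd.2.1.2.2.2 k hk b (by simp)⟩
      rintro rfl
      exact hnd.2.1.1 (by simp [hk])
    have hn3 : ∀ k ∈ L3, k ≠ a ∧ k ≠ b := by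
      intro k hk
      rw [List.nodup_append, List.nodup_cons, List.nodup_append, List.nodup_cons] at hnd
      refine ⟨?_, ?_⟩
      · rintro rfl
        exact hnd.2.1.1 (by simp [hk])
      · rintro rfl
        exact hnd.2.1.2.2.1.1 hk
    have hZc : ∀ (L : List (Fin (B.get f).ar)), (∀ k ∈ L, k ≠ a ∧ k ≠ b) →
        L.flatMap (fun k => holesA (if k = a then Tpl.hole 0 else if k = b then Tpl.hole 1
          else Z')) = [] := by
      intro L hL
      rw [List.flatMap_eq_nil_iff]
      intro k hk
      obtain ⟨h1, h2⟩ := hL k hk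
      rw [if_neg h1, if_neg h2, hZ'n]
    refine ⟨.app f fun k => if k = a then .hole 0 else if k = b then .hole 1 else Z', ?_, ?_⟩
    · simp only [holesA]
      rw [hL, List.flatMap_append, List.flatMap_cons, List.flatMap_append, List.flatMap_cons,
        hZc L1 hn1, hZc L2 hn2, hZc L3 hn3, if_pos rfl, if_neg hab.symm, if_pos rfl]
      rfl
    · intro M n σ g w
      have hfill : ∀ k, HoldsA M (fillA (if k = a then Tpl.hole 0 else if k = b then Tpl.hole 1
          else Z') n σ) g w ↔ (if k = a then HoldsA M (σ 0) g w else if k = b then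
            HoldsA M (σ 1) g w else False) := by
        intro k
        by_cases h1 : k = a
        · rw [if_pos h1, if_pos h1]
          rfl
        · rw [if_neg h1, if_neg h1]
          by_cases h2 : k = b
          · rw [if_pos h2, if_pos h2]
            rfl
          · rw [if_neg h2, if_neg h2]
            exact iff_of_false (hZ'h M n σ g w) id
      have h1 : (decide (HoldsA M (fillA (.app f fun k => if k = a then Tpl.hole 0 else if k = b
          then Tpl.hole 1 else Z') n σ) g w)) = (B.get f).fn (fun k => decide (if k = a then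
            HoldsA M (σ 0) g w else if k = b then HoldsA M (σ 1) g w else False)) := by
        rw [Bool.eq_iff_iff, decide_eq_true_iff]
        simp only [fillA, HoldsA, hfill]
      rw [h1, hfd]
      have : ∀ k, d k * toZ (decide (if k = a then HoldsA M (σ 0) g w else if k = b then
          HoldsA M (σ 1) g w else False)) =
          (if k = a then toZ (decide (HoldsA M (σ 0) g w)) else 0) +
          (if k = b then toZ (decide (HoldsA M (σ 1) g w)) else 0) := by
        intro k
        by_cases e1 : k = a
        · rw [e1, ha]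
          simp only [if_true, if_neg hab, one_mul, add_zero]
        · by_cases e2 : k = b
          · rw [e2, hb]
            simp only [if_true, if_neg hab.symm, one_mul, zero_add]
          · simp [if_neg e1, if_neg e2, toZ]
      simp only [this]
      rw [Finset.sum_add_distrib, Finset.sum_ite_eq', Finset.sum_ite_eq']
      simp [add_assoc]
  have key2 : ∃ X : Tpl B, holesA X = [0, 1] ∧
        (∀ (M : Model) (n : ℕ) (σ : ℕ → Fa B) (g : ℕ → M.W) (w : M.W),
          toZ (decide (HoldsA M (fillA X n σ) g w)) =
            c + toZ (decide (HoldsA M (σ 0) g w)) + toZ (decide (HoldsA M (σ 1) g w))) := by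
    obtain ⟨L1, L2, hL⟩ := List.append_of_mem (List.mem_finRange i)
    have hj' : j ∈ L1 ++ i :: L2 := by rw [← hL]; exact List.mem_finRange j
    rcases List.mem_append.mp hj' with h | h
    · obtain ⟨L3, L4, rfl⟩ := List.append_of_mem h
      exact key j i hij.symm hj hi L3 L4 L2 (by rw [hL]; simp)
    · rcases List.mem_cons.mp h with h | h
      · exact absurd h.symm hij
      · obtain ⟨L3, L4, rfl⟩ := List.append_of_mem h
        exact key i j hij hi hj L1 L3 L4 hL
  obtain ⟨X, hc, hh⟩ := key2
  rcases zmod2_cases c with h0 | h1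
  · refine ⟨⟨X, T', hc ▸ List.Perm.refl _, holes_toT T, ?_, hT'h⟩⟩
    intro M n σ g w
    apply fin_aux
    rw [hh, h0, zero_add]
  · refine ⟨⟨bindT X (fun k => if k = 0 then X else Z'), T', ?_, holes_toT T, ?_, hT'h⟩⟩
    · rw [holesA_bindT, hc]
      simp [hc, hZ'n]
    · intro M n σ g w
      apply fin_aux
      rw [fillA_bindT, hh]
      simp only [if_true, one_ne_zero, if_false]
      rw [hh, h1]
      have h3 : toZ (decide (HoldsA M (fillA Z' n σ) g w)) = 0 := by
        have := hZ'h M n σ g w
        simp [toZ, this]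
      rw [h3]
      have e : ∀ a b : ZMod 2, 1 + (1 + a + b) + 0 = a + b := by decide
      exact e _ _

end Pool.Agent.Lib.MP_bba6cc_lc
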