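import Pool.Agent.Lib.MP_bba6cc_lc.ATpl

/-!
# Translations given by templates run in polynomial time
-/

namespace Pool.Agent.Lib.MP_bba6cc_lc

open Pool.Agent Pool.Agent.MSR Pool.Agent.MSR.En N487b59b3 N68a2faeb N793a5b8e

/-- one template for every kind of symbols -/
structure Fam (B₁ B₂ : List BFun) where
  tP : Tpl B₂
  tN : Tpl B₂
  tV : Tpl B₂
  tA : Fin B₁.length → Tpl B₂
  tD : Tpl B₂
  tX : Tpl B₂
  tW : Tpl B₂
  tAN : Tpl B₂
  tAV : Tpl B₂

/-- all templates contain every hole at most once -/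
structure Fam.Ok {B₁ B₂ : List BFun} (Φ : Fam B₁ B₂) : Prop where
  tP : Lin Φ.tP 0
  tN : Lin Φ.tN 0
  tV : Lin Φ.tV 0
  tA : ∀ i, Lin (Φ.tA i) (B₁.get i).ar
  tD : Lin Φ.tD 1
  tX : Lin Φ.tX 1
  tW : Lin Φ.tW 1
  tAN : Lin Φ.tAN 1
  tAV : Lin Φ.tAV 1

variable {B₁ B₂ : List BFun} (Φ : Fam B₁ B₂)

/-- the translation -/
def tauA : Fa B₁ → Fa B₂
  | .prp p => fillA Φ.tP p fun _ => .prp 0
  | .nom i => fillA Φ.tN i fun _ => .prp 0
  | .var x => fillA Φ.tV x fun _ => .prp 0
  | .app i args => fillA (Φ.tA i) 0 fun k =>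
      if h : k < (B₁.get i).ar then tauA (args ⟨k, h⟩) else .prp 0
  | .dia φ => fillA Φ.tD 0 fun _ => tauA φ
  | .box φ => fillA Φ.tX 0 fun _ => tauA φ
  | .down x φ => fillA Φ.tW x fun _ => tauA φ
  | .atN i φ => fillA Φ.tAN i fun _ => tauA φ
  | .atV x φ => fillA Φ.tAV x fun _ => tauA φ

/-- the word of the translation -/
def wdA (φ : Fa B₁) : List Tok := tks (codeA (tauA Φ φ))

/-- replace the `k` top words by the word of the template -/
def opn (k : ℕ) (T : Tpl B₂) (n : BN) (st : HSt) : HSt :=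
  bif MSR.leb k st.1.length then
    (wrd T n (fun j => st.1.getD j []) :: st.1.drop k, st.2) else ([], false)

theorem opn_eq {k : ℕ} {T : Tpl B₂} (hT : ∀ j ∈ holesA T, j < k) (n : BN) (ws stk : List (List Tok))
    (o : Bool) (hw : ws.length = k) (σ : ℕ → List Tok)
    (hσ : ∀ j, (h : j < ws.length) → σ j = ws[j]) :
    opn k T n (ws ++ stk, o) = (wrd T n σ :: stk, o) := by
  unfold opn
  have h1 : MSR.leb k (ws ++ stk).length = true := by
    simp only [MSR.leb, decide_eq_true_eq, List.length_append]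
    omega
  simp only [h1, cond_true]
  subst hw
  rw [List.drop_left]
  congr 2
  apply wrd_congr
  intro j hj
  have hj' := hT j hj
  rw [hσ j hj', List.getD_eq_getElem?_getD, List.getElem?_append_left hj',
    List.getElem?_eq_getElem hj']
  rfl

/-- the symbols of Boolean functions -/
def opApp : List (Fin B₁.length) → BN → HSt → HSt
  | [], _, _ => ([], false)
  | i :: L, n, st => if n = ⟨i.val⟩ then opn (B₁.get i).ar (Φ.tA i) ⟨0⟩ st else opApp L n st

theorem opApp_eq (i : Fin B₁.length) (st : HSt) : ∀ L : List (Fin B₁.length), i ∈ L →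
    opApp Φ L ⟨i.val⟩ st = opn (B₁.get i).ar (Φ.tA i) ⟨0⟩ st := by
  intro L
  induction L with
  | nil => intro h; simp at h
  | cons j L ih =>
    intro h
    unfold opApp
    by_cases hj : (⟨i.val⟩ : BN) = ⟨j.val⟩
    · rw [if_pos hj]
      have : i = j := Fin.ext (congrArg BN.val hj)
      subst this
      rfl
    · rw [if_neg hj]
      apply ih
      rcases List.mem_cons.mp h with h | h
      · subst h
        exact absurd rfl hj
      · exact h

theorem opApp_cases (n : BN) (st : HSt) : ∀ L : List (Fin B₁.length),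
    (∃ i ∈ L, n = ⟨i.val⟩ ∧ opApp Φ L n st = opn (B₁.get i).ar (Φ.tA i) ⟨0⟩ st) ∨
      opApp Φ L n st = ([], false) := by
  intro L
  induction L with
  | nil => exact Or.inr rfl
  | cons j L ih =>
    unfold opApp
    by_cases hj : n = ⟨j.val⟩
    · rw [if_pos hj]
      exact Or.inl ⟨j, List.mem_cons_self, hj, rfl⟩
    · rw [if_neg hj]
      rcases ih with ⟨i, hi, h1, h2⟩ | h
      · exact Or.inl ⟨i, List.mem_cons_of_mem _ hi, h1, h2⟩
      · exact Or.inr h

/-- one symbol, from right to left -/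
def hstA (st : HSt) (t : Tok) : HSt :=
  if t.1 = ⟨0⟩ then opn 0 Φ.tP t.2 st
  else if t.1 = ⟨1⟩ then opn 0 Φ.tN t.2 st
  else if t.1 = ⟨2⟩ then opn 0 Φ.tV t.2 st
  else if t.1 = ⟨3⟩ then opApp Φ (List.finRange _) t.2 st
  else if t = (⟨4⟩, ⟨0⟩) then opn 1 Φ.tD ⟨0⟩ st
  else if t = (⟨5⟩, ⟨0⟩) then opn 1 Φ.tX ⟨0⟩ st
  else if t.1 = ⟨6⟩ then opn 1 Φ.tW t.2 st
  else if t.1 = ⟨7⟩ then opn 1 Φ.tAN t.2 st
  else if t.1 = ⟨8⟩ then opn 1 Φ.tAV t.2 st
  else ([], false)

def hrnA (s : List Tok) : HSt := s.reverse.foldl (hstA Φ) ([], true)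

/-- right to left -/
def hfdA (s : List Tok) (st : HSt) : HSt := s.foldr (fun t st => hstA Φ st t) st

theorem hfdA_append (s s' : List Tok) (st : HSt) :
    hfdA Φ (s ++ s') st = hfdA Φ s (hfdA Φ s' st) := by
  unfold hfdA
  rw [List.foldr_append]

theorem hrnA_eq (s : List Tok) : hrnA Φ s = hfdA Φ s ([], true) := by
  unfold hrnA hfdA
  rw [List.foldl_reverse]

variable {Φ}

theorem wdA_one (T : Tpl B₂) (n : ℕ) (φ : Fa B₂) (stk : List (List Tok)) (o : Bool) (hT : Lin T 1) :
    opn 1 T ⟨n⟩ (tks (codeA φ) :: stk, o) = (tks (codeA (fillA T n fun _ => φ)) :: stk, o) := by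
  have := opn_eq (k := 1) (T := T) hT.2 ⟨n⟩ [tks (codeA φ)] stk o rfl (fun _ => tks (codeA φ)) (by
    intro j h
    have : j = 0 := by simpa using h
    subst this
    rfl)
  rw [wrd_fill]
  exact this

theorem wdA_zero (T : Tpl B₂) (n : ℕ) (stk : List (List Tok)) (o : Bool) (hT : Lin T 0) :
    opn 0 T ⟨n⟩ (stk, o) = (tks (codeA (fillA T n fun _ => .prp 0)) :: stk, o) := by
  have := opn_eq (k := 0) (T := T) hT.2 ⟨n⟩ [] stk o rfl (fun _ => tks (codeA (.prp 0 : Fa B₂))) (by
    intro j h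
    simp at h)
  rw [wrd_fill]
  exact this

theorem hfdA_code (hΦ : Φ.Ok) (φ : Fa B₁) : ∀ (stk : List (List Tok)) (o : Bool),
    hfdA Φ (tks (codeA φ)) (stk, o) = (wdA Φ φ :: stk, o) := by
  induction φ with
  | prp p =>
    intro stk o
    show hstA Φ (stk, o) (tk (0, p)) = _
    have : hstA Φ (stk, o) (tk (0, p)) = opn 0 Φ.tP ⟨p⟩ (stk, o) := by simp [hstA, tk]
    rw [this, wdA_zero _ _ _ _ hΦ.tP]
    rfl
  | nom p =>
    intro stk o
    show hstA Φ (stk, o) (tk (1, p)) = _
    have : hstA Φ (stk, o) (tk (1, p)) = opn 0 Φ.tN ⟨p⟩ (stk, o) := by simp [hstA, tk]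
    rw [this, wdA_zero _ _ _ _ hΦ.tN]
    rfl
  | var p =>
    intro stk o
    show hstA Φ (stk, o) (tk (2, p)) = _
    have : hstA Φ (stk, o) (tk (2, p)) = opn 0 Φ.tV ⟨p⟩ (stk, o) := by simp [hstA, tk]
    rw [this, wdA_zero _ _ _ _ hΦ.tV]
    rfl
  | app i args ih =>
    intro stk o
    have h1 : tks (codeA (.app i args)) =
        tk (3, i.val) :: (List.finRange _).flatMap fun j => tks (codeA (args j)) := by
      rw [← tks_flatMap]
      rfl
    have h2 : ∀ (L : List (Fin (B₁.get i).ar)) (stk : List (List Tok)),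
        hfdA Φ (L.flatMap fun j => tks (codeA (args j))) (stk, o) =
          (L.map (fun j => wdA Φ (args j)) ++ stk, o) := by
      intro L
      induction L with
      | nil => intro stk; rfl
      | cons j L ihL =>
        intro stk
        rw [List.flatMap_cons, hfdA_append, ihL, ih j]
        rfl
    rw [h1]
    show hstA Φ (hfdA Φ ((List.finRange _).flatMap fun j => tks (codeA (args j))) (stk, o))
      (tk (3, i.val)) = _
    rw [h2]
    have h3 : ∀ st : HSt, hstA Φ st (tk (3, i.val)) = opApp Φ (List.finRange _) ⟨i.val⟩ st := by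
      intro st
      simp [hstA, tk]
    rw [h3, opApp_eq Φ i _ _ (List.mem_finRange i)]
    have h4 := opn_eq (k := (B₁.get i).ar) (T := Φ.tA i) (hΦ.tA i).2 ⟨0⟩
      ((List.finRange _).map fun j => wdA Φ (args j)) stk o (by simp)
      (fun k => tks (codeA (if h : k < (B₁.get i).ar then tauA Φ (args ⟨k, h⟩) else .prp 0))) (by
        intro j h
        have h' : j < (B₁.get i).ar := by simpa using h
        simp only [h', dif_pos, List.getElem_map, List.getElem_finRange]
        rfl)
    rw [h4, ← wrd_fill]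
    rfl
  | dia φ ih =>
    intro stk o
    show hstA Φ (hfdA Φ (tks (codeA φ)) (stk, o)) (tk (4, 0)) = _
    rw [ih]
    have : ∀ st : HSt, hstA Φ st (tk (4, 0)) = opn 1 Φ.tD ⟨0⟩ st := by intro st; simp [hstA, tk]
    rw [this]
    exact wdA_one Φ.tD 0 (tauA Φ φ) stk o hΦ.tD
  | box φ ih =>
    intro stk o
    show hstA Φ (hfdA Φ (tks (codeA φ)) (stk, o)) (tk (5, 0)) = _
    rw [ih]
    have : ∀ st : HSt, hstA Φ st (tk (5, 0)) = opn 1 Φ.tX ⟨0⟩ st := by intro st; simp [hstA, tk]
    rw [this]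
    exact wdA_one Φ.tX 0 (tauA Φ φ) stk o hΦ.tX
  | down x φ ih =>
    intro stk o
    show hstA Φ (hfdA Φ (tks (codeA φ)) (stk, o)) (tk (6, x)) = _
    rw [ih]
    have : ∀ st : HSt, hstA Φ st (tk (6, x)) = opn 1 Φ.tW ⟨x⟩ st := by intro st; simp [hstA, tk]
    rw [this]
    exact wdA_one Φ.tW x (tauA Φ φ) stk o hΦ.tW
  | atN x φ ih =>
    intro stk o
    show hstA Φ (hfdA Φ (tks (codeA φ)) (stk, o)) (tk (7, x)) = _
    rw [ih]
    have : ∀ st : HSt, hstA Φ st (tk (7, x)) = opn 1 Φ.tAN ⟨x⟩ st := by intro st; simp [hstA, tk]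
    rw [this]
    exact wdA_one Φ.tAN x (tauA Φ φ) stk o hΦ.tAN
  | atV x φ ih =>
    intro stk o
    show hstA Φ (hfdA Φ (tks (codeA φ)) (stk, o)) (tk (8, x)) = _
    rw [ih]
    have : ∀ st : HSt, hstA Φ st (tk (8, x)) = opn 1 Φ.tAV ⟨x⟩ st := by intro st; simp [hstA, tk]
    rw [this]
    exact wdA_one Φ.tAV x (tauA Φ φ) stk o hΦ.tAV

theorem opn_false (k : ℕ) (T : Tpl B₂) (n : BN) (st : HSt) (h : st.2 = false) :
    (opn k T n st).2 = false := by
  unfold opn
  cases MSR.leb k st.1.length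
  · rfl
  · exact h

theorem hstA_false (st : HSt) (t : Tok) (h : st.2 = false) : (hstA Φ st t).2 = false := by
  unfold hstA
  split_ifs
  any_goals exact opn_false _ _ _ _ h
  · rcases opApp_cases Φ t.2 st (List.finRange _) with ⟨i, _, _, h2⟩ | h2
    · rw [h2]; exact opn_false _ _ _ _ h
    · rw [h2]
  · rfl

theorem opn_true {k : ℕ} {T : Tpl B₂} {n : BN} {stk stk' : List (List Tok)}
    (h : opn k T n (stk, true) = (stk', true)) : k ≤ stk.length := by
  by_contra hc
  have : MSR.leb k stk.length = false := by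
    simp only [MSR.leb, decide_eq_false_iff_not]
    exact hc
  simp [opn, this] at h

/-- an accepted word is a sequence of codes -/
theorem hfdA_inv (hΦ : Φ.Ok) (s : List (ℕ × ℕ)) : ∀ stk, hfdA Φ (tks s) ([], true) = (stk, true) →
    ∃ as : List (Fa B₁), s = as.flatMap codeA ∧ stk = as.map (wdA Φ) := by
  induction s with
  | nil =>
    intro stk h
    refine ⟨[], rfl, ?_⟩
    have : (([], true) : HSt) = (stk, true) := h
    exact (Prod.mk.inj this).1.symm
  | cons t s ih =>
    intro stk h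
    obtain ⟨a, b⟩ := t
    change hstA Φ (hfdA Φ (tks s) ([], true)) (tk (a, b)) = (stk, true) at h
    rcases hst : hfdA Φ (tks s) ([], true) with ⟨stk1, o1⟩
    rw [hst] at h
    have ho : o1 = true := by
      by_contra ho
      rw [Bool.not_eq_true] at ho
      subst ho
      have h1 := hstA_false (Φ := Φ) (stk1, false) (tk (a, b)) rfl
      rw [h] at h1
      exact absurd h1 (by simp)
    subst ho
    obtain ⟨as, hs, hk⟩ := ih stk1 hst
    -- a formula `φ` whose word is `(a, b)` followed by the words of some of the `as`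
    suffices hsuf : ∃ (φ : Fa B₁) (bs : List (Fa B₁)),
        codeA φ ++ bs.flatMap codeA = (a, b) :: as.flatMap codeA by
      obtain ⟨φ, bs, hφ⟩ := hsuf
      refine ⟨φ :: bs, by rw [List.flatMap_cons, hφ, hs], ?_⟩
      have h1 : ∀ cs : List (Fa B₁), hfdA Φ (tks (cs.flatMap codeA)) ([], true) =
          (cs.map (wdA Φ), true) := by
        intro cs
        induction cs with
        | nil => rfl
        | cons c cs ihc =>
          rw [List.flatMap_cons, tks_append, hfdA_append, ihc, hfdA_code hΦ]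
          rfl
      have h2 : hfdA Φ (tks ((φ :: bs).flatMap codeA)) ([], true) = (stk, true) := by
        rw [List.flatMap_cons, hφ]
        change hstA Φ (hfdA Φ (tks (as.flatMap codeA)) ([], true)) (tk (a, b)) = _
        rw [← hs, hst, h]
      rw [h1] at h2
      exact ((Prod.mk.inj h2).1).symm
    have one : ∀ {T : Tpl B₂} {n : BN}, opn 1 T n (stk1, true) = (stk, true) →
        ∃ c cs, as = c :: cs := by
      intro T n h1
      have h2 := opn_true h1
      rw [hk, List.length_map] at h2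
      rcases as with _ | ⟨c, cs⟩
      · simp at h2
      · exact ⟨c, cs, rfl⟩
    unfold hstA at h
    simp only [tk, BN.mk.injEq, Prod.mk.injEq] at h
    split_ifs at h with h0 h1 h2 h3 h4 h5 h6 h7 h8
    · subst h0
      exact ⟨.prp b, as, rfl⟩
    · subst h1
      exact ⟨.nom b, as, rfl⟩
    · subst h2
      exact ⟨.var b, as, rfl⟩
    · subst h3
      rcases opApp_cases Φ ⟨b⟩ (stk1, true) (List.finRange _) with ⟨i, _, hb, h2⟩ | h2
      · rw [h2] at h
        have hlen := opn_true h
        rw [hk, List.length_map] at hlen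
        have hb' : b = i.val := congrArg BN.val hb
        subst hb'
        refine ⟨.app i fun j => as[j.val]'(by have := j.isLt; omega), as.drop (B₁.get i).ar, ?_⟩
        have h5 : (List.finRange (B₁.get i).ar).flatMap
            (fun j => codeA (as[j.val]'(by have := j.isLt; omega))) =
            (as.take (B₁.get i).ar).flatMap codeA := by
          have : as.take (B₁.get i).ar = (List.finRange (B₁.get i).ar).map
              (fun j => as[j.val]'(by have := j.isLt; omega)) := by
            apply List.ext_getElem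
            · rw [List.length_take, List.length_map, List.length_finRange]
              exact Nat.min_eq_left hlen
            · intro n h1 h2
              simp
          rw [this, List.flatMap_map]
        show (3, i.val) :: ((List.finRange (B₁.get i).ar).flatMap
            (fun j => codeA (as[j.val]'(by have := j.isLt; omega)))) ++
              (as.drop (B₁.get i).ar).flatMap codeA = _
        rw [h5, List.cons_append, ← List.flatMap_append, List.take_append_drop]
      · rw [h2] at h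
        simp at h
    · obtain ⟨rfl, rfl⟩ := h4
      obtain ⟨c, cs, rfl⟩ := one h
      exact ⟨.dia c, cs, rfl⟩
    · obtain ⟨rfl, rfl⟩ := h5
      obtain ⟨c, cs, rfl⟩ := one h
      exact ⟨.box c, cs, rfl⟩
    · subst h6
      obtain ⟨c, cs, rfl⟩ := one h
      exact ⟨.down b c, cs, rfl⟩
    · subst h7
      obtain ⟨c, cs, rfl⟩ := one h
      exact ⟨.atN b c, cs, rfl⟩
    · subst h8
      obtain ⟨c, cs, rfl⟩ := one h
      exact ⟨.atV b c, cs, rfl⟩
    · simp at h

theorem houtA_spec (hΦ : Φ.Ok) (f : List Tok → List Tok) (s : List (ℕ × ℕ)) :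
    (∃ a : Fa B₁, s = codeA a ∧ hout f (hrnA Φ (tks s)) = f (wdA Φ a)) ∨
      ((¬ ∃ a : Fa B₁, s = codeA a) ∧ hout f (hrnA Φ (tks s)) = []) := by
  by_cases h : ∃ a : Fa B₁, s = codeA a
  · obtain ⟨a, rfl⟩ := h
    left
    refine ⟨a, rfl, ?_⟩
    rw [hrnA_eq, hfdA_code hΦ]
    simp [hout, MSR.lcase]
  · right
    refine ⟨h, ?_⟩
    rcases hst : hrnA Φ (tks s) with ⟨stk, o⟩
    rcases stk with _ | ⟨w, r⟩
    · rfl
    · by_cases hr : o = true ∧ r = []
      · obtain ⟨rfl, rfl⟩ := hr
        rw [hrnA_eq] at hst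
        obtain ⟨as, hs, hk⟩ := hfdA_inv hΦ s _ hst
        exfalso
        obtain ⟨a, ha⟩ : ∃ a, as = [a] := by
          rcases as with _ | ⟨a, _ | ⟨b, r⟩⟩
          · simp at hk
          · exact ⟨a, rfl⟩
          · simp at hk
        subst ha
        exact h ⟨a, by simpa using hs⟩
      · have : (o && r.isEmpty) = false := by
          rcases o with _ | _
          · rfl
          · cases r with
            | nil => exact absurd ⟨rfl, rfl⟩ hr
            | cons _ _ => rfl
        simp [hout, MSR.lcase, this]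

/-! ### polynomial time -/

section

variable {α : Type} [En α]

theorem PT_opn (k : ℕ) (T : Tpl B₂) {n : α → BN} {st : α → HSt} (hn : PT n) (hst : PT st) :
    PT (fun a => opn k T (n a) (st a)) := by
  unfold opn
  apply PT.cond
  · exact PT.leb (PT.const k) (PT.length (PT.fst hst))
  · apply PT.pair _ (PT.snd hst)
    apply PT.cons _ (PT.drop (PT.const k) (PT.fst hst))
    exact PT_wrd T hn fun j => PT.getD (PT.const j) (PT.fst hst) (PT.const _)
  · exact PT.const _

theorem PT_opApp (L : List (Fin B₁.length)) {n : α → BN} {st : α → HSt} (hn : PT n)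
    (hst : PT st) : PT (fun a => opApp Φ L (n a) (st a)) := by
  induction L with
  | nil => exact PT.const _
  | cons i L ih =>
    unfold opApp
    exact PT.ite (PT.eq hn (PT.const _)) (PT_opn _ _ (PT.const _) hst) ih

theorem PT_hstA : PT (fun p : α × HSt × Tok => hstA Φ p.2.1 p.2.2) := by
  have hst : PT (fun p : α × HSt × Tok => p.2.1) := PT.fst (PT.snd PT.id')
  have ht : PT (fun p : α × HSt × Tok => p.2.2) := PT.snd (PT.snd PT.id')
  have hT : ∀ t : Tok, PT (fun p : α × HSt × Tok => decide (p.2.2 = t)) :=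
    fun t => PT.eq ht (PT.const t)
  unfold hstA
  apply PT.ite (PT.eq (PT.fst ht) (PT.const _)) (PT_opn _ _ (PT.snd ht) hst)
  apply PT.ite (PT.eq (PT.fst ht) (PT.const _)) (PT_opn _ _ (PT.snd ht) hst)
  apply PT.ite (PT.eq (PT.fst ht) (PT.const _)) (PT_opn _ _ (PT.snd ht) hst)
  apply PT.ite (PT.eq (PT.fst ht) (PT.const _)) (PT_opApp _ (PT.snd ht) hst)
  apply PT.ite (hT _) (PT_opn _ _ (PT.const _) hst)
  apply PT.ite (hT _) (PT_opn _ _ (PT.const _) hst)
  apply PT.ite (PT.eq (PT.fst ht) (PT.const _)) (PT_opn _ _ (PT.snd ht) hst)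
  apply PT.ite (PT.eq (PT.fst ht) (PT.const _)) (PT_opn _ _ (PT.snd ht) hst)
  apply PT.ite (PT.eq (PT.fst ht) (PT.const _)) (PT_opn _ _ (PT.snd ht) hst)
  exact PT.const _

theorem sum_getD_le (l : List (List Tok)) : ∀ k : ℕ, k ≤ l.length →
    2 * ∑ j ∈ Finset.range k, sz (l.getD j []) + sz (l.drop k) ≤ sz l := by
  induction l with
  | nil =>
    intro k hk
    have : k = 0 := by simpa using hk
    subst this
    simp
  | cons w l ih =>
    intro k hk
    cases k with
    | zero => simp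
    | succ k =>
      rw [Finset.sum_range_succ', sz_cons]
      have := ih k (by simpa using hk)
      simp only [List.getD_cons_succ, List.getD_cons_zero, List.drop_succ_cons]
      omega

theorem sz_opn {k : ℕ} {T : Tpl B₂} (hT : Lin T k) (n : BN) (st : HSt) :
    sz (opn k T n st) ≤ sz st + (4 * baseA T * (sz n + 1) + 2) := by
  obtain ⟨stk, o⟩ := st
  unfold opn
  cases h : MSR.leb k stk.length
  · simp only [cond_false, sz_pair, sz_nil, sz_bool]
    omega
  · simp only [cond_true, sz_pair, sz_cons]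
    have h1 : k ≤ stk.length := by simpa [MSR.leb] using h
    have h2 := sum_getD_le stk k h1
    have h3 := hT.sz_le n fun j => stk.getD j []
    have h4 : 4 * baseA T * (sz n + 1) = 4 * (baseA T * (sz n + 1)) := by ring
    rw [h4]
    omega

/-- a bound for the fixed parts -/
def baseF (Φ : Fam B₁ B₂) : ℕ :=
  baseA Φ.tP + baseA Φ.tN + baseA Φ.tV + ∑ i, baseA (Φ.tA i) + baseA Φ.tD + baseA Φ.tX +
    baseA Φ.tW + baseA Φ.tAN + baseA Φ.tAV

theorem sz_hstA (hΦ : Φ.Ok) (st : HSt) (t : Tok) :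
    sz (hstA Φ st t) ≤ sz st + (4 * baseF Φ * (sz t + 1) + 2) := by
  have et : sz t.2 ≤ sz t := by
    have : sz t = 2 * sz t.1 + 1 + sz t.2 := sz_pair t.1 t.2
    omega
  have e0 : sz (⟨0⟩ : BN) = 0 := rfl
  have key : ∀ (k : ℕ) (T : Tpl B₂) (n : BN), Lin T k → baseA T ≤ baseF Φ → sz n ≤ sz t →
      sz (opn k T n st) ≤ sz st + (4 * baseF Φ * (sz t + 1) + 2) := by
    intro k T n hT hb hn
    refine (sz_opn hT n st).trans ?_
    have : 4 * baseA T * (sz n + 1) ≤ 4 * baseF Φ * (sz t + 1) :=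
      Nat.mul_le_mul (by omega) (by omega)
    omega
  have hfalse : sz ((([], false) : HSt)) ≤ sz st + (4 * baseF Φ * (sz t + 1) + 2) := by
    obtain ⟨stk, o⟩ := st
    simp only [sz_pair, sz_nil, sz_bool]
    omega
  unfold hstA
  split_ifs
  · exact key 0 _ _ hΦ.tP (by unfold baseF; omega) et
  · exact key 0 _ _ hΦ.tN (by unfold baseF; omega) et
  · exact key 0 _ _ hΦ.tV (by unfold baseF; omega) et
  · rcases opApp_cases Φ t.2 st (List.finRange _) with ⟨i, _, _, h2⟩ | h2
    · rw [h2]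
      refine key _ _ _ (hΦ.tA i) ?_ (by omega)
      have : baseA (Φ.tA i) ≤ ∑ i, baseA (Φ.tA i) :=
        Finset.single_le_sum (f := fun i => baseA (Φ.tA i)) (fun _ _ => Nat.zero_le _)
          (Finset.mem_univ i)
      unfold baseF
      omega
    · rw [h2]
      exact hfalse
  · exact key 1 _ _ hΦ.tD (by unfold baseF; omega) (by omega)
  · exact key 1 _ _ hΦ.tX (by unfold baseF; omega) (by omega)
  · exact key 1 _ _ hΦ.tW (by unfold baseF; omega) et
  · exact key 1 _ _ hΦ.tAN (by unfold baseF; omega) et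
  · exact key 1 _ _ hΦ.tAV (by unfold baseF; omega) et
  · exact hfalse

theorem PT_hrnA (hΦ : Φ.Ok) {s : α → List Tok} (hs : PT s) : PT (fun a => hrnA Φ (s a)) := by
  unfold hrnA
  apply PT.foldl_add (g := fun _ => hstA Φ) (PT.reverse hs) (PT.const _) PT_hstA
  obtain ⟨d, hd⟩ := hs.bound
  refine ⟨fun n => 4 * baseF Φ * ((n + 2) ^ d + 1) + 2, ?_, ?_⟩
  · exact ((PB.const _).mul (((PB.id.add (PB.const 2)).pow d).add (PB.const 1))).add (PB.const 2)
  · intro a st t htm
    have ht : sz t ≤ (sz a + 2) ^ d :=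
      (Pool.Agent.Lib.MP_bba6cc_lc.sz_mem (List.mem_reverse.mp htm)).trans (hd a)
    have h1 := sz_hstA hΦ st t
    have h2 : 4 * baseF Φ * (sz t + 1) ≤ 4 * baseF Φ * ((sz a + 2) ^ d + 1) :=
      Nat.mul_le_mul le_rfl (by omega)
    show sz (hstA Φ st t) ≤ sz st + (4 * baseF Φ * ((sz a + 2) ^ d + 1) + 2)
    omega

theorem PT_houtA (hΦ : Φ.Ok) {f : List Tok → List Tok} (hf : PT (fun w : List Tok => f w))
    {s : α → List Tok} (hs : PT s) : PT (fun a => hout f (hrnA Φ (s a))) := by
  have hr : PT (fun a => hrnA Φ (s a)) := PT_hrnA hΦ hs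
  unfold hout
  apply PT.lcase (PT.fst hr) (PT.const _)
  apply PT.cond
  · exact PT.and (PT.snd (hr.comp (PT.fst PT.id'))) (PT.isEmpty (PT.snd (PT.snd PT.id')))
  · exact hf.comp (PT.fst (PT.snd PT.id'))
  · exact PT.const _

end

/-! ### the reduction -/

variable (Φ)

/-- the reduction with final template `T` -/
def hrdA (T : Tpl B₂) (s : List Bool) : List Bool :=
  bif validS s then enc (hout (fun w => wrd T ⟨0⟩ (fun _ => w)) (hrnA Φ (toksS s)))
  else enc ([] : List Tok)

variable {Φ}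

theorem isPolyTime_hrdA (hΦ : Φ.Ok) (T : Tpl B₂) : IsPolyTime (hrdA Φ T) := by
  apply isPolyTime_of_PT
  unfold hrdA
  apply PT.cond PT_validS
  · apply PT.encString
    apply PT_houtA hΦ _ PT_toksS
    exact PT_wrd T (PT.const _) fun _ => PT.id'
  · exact PT.const _

theorem codeA_ne_nil {B : List BFun} (φ : Fa B) : codeA φ ≠ [] := by
  cases φ <;> simp [codeA]

open Classical in
/-- a translation given by templates that preserves and reflects satisfiability is a reduction -/
theorem reducible_of_templates (hΦ : Φ.Ok) (T : Tpl B₂) (F : FrameClass)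
    (h : ∀ a : Fa B₁, SatInA F (fillA T 0 fun _ => tauA Φ a) ↔ SatInA F a) :
    ManyOneReducible (satProblemA B₁ F) (satProblemA B₂ F) := by
  refine ⟨hrdA Φ T, isPolyTime_hrdA hΦ T, fun s => ?_⟩
  have hnil : ¬ ∃ φ : Fa B₂,
      (enc ([] : List Tok) : List Bool) = bitEncode (codeA φ) ∧ SatInA F φ := by
    rintro ⟨φ, h1, _⟩
    have h2 : (enc ([] : List Tok) : List Bool) = bitEncode ([] : List (ℕ × ℕ)) :=
      enc_tks []
    rw [h2] at h1
    exact codeA_ne_nil φ (bitEncode_inj h1).symm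
  unfold satProblemA
  rw [Bool.eq_iff_iff, decide_eq_true_iff, decide_eq_true_iff]
  by_cases hv : validS s = true
  · obtain ⟨m, rfl⟩ := (validS_iff s).mp hv
    have e : hrdA Φ T (bitEncode m) =
        enc (hout (fun w => wrd T ⟨0⟩ (fun _ => w)) (hrnA Φ (tks m))) := by
      unfold hrdA
      rw [hv, toksS_bitEncode]
      rfl
    rw [e]
    rcases houtA_spec hΦ (fun w => wrd T ⟨0⟩ (fun _ => w)) m with ⟨a, rfl, h1⟩ | ⟨h1, h2⟩
    · rw [h1]
      have e2 : wrd T ⟨0⟩ (fun _ => wdA Φ a) = tks (codeA (fillA T 0 (fun _ => tauA Φ a))) :=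
        (wrd_fill T 0 _).symm
      rw [e2, enc_tks]
      constructor
      · rintro ⟨b, hb, hρ⟩
        have hab : a = b := codeA_injective (bitEncode_inj hb)
        subst hab
        exact ⟨_, rfl, (h a).mpr hρ⟩
      · rintro ⟨φ, hφ, hs⟩
        have := codeA_injective (bitEncode_inj hφ)
        refine ⟨a, rfl, (h a).mp ?_⟩
        rw [this]
        exact hs
    · rw [h2]
      constructor
      · rintro ⟨a, ha, _⟩
        exact absurd ⟨a, bitEncode_inj ha⟩ h1
      · intro h3
        exact absurd h3 hnil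
  · have e : hrdA Φ T s = enc ([] : List Tok) := by
      unfold hrdA
      rw [Bool.not_eq_true] at hv
      rw [hv]
      rfl
    rw [e]
    constructor
    · rintro ⟨a, rfl, _⟩
      exact absurd ((validS_iff _).mpr ⟨_, rfl⟩) hv
    · intro h3
      exact absurd h3 hnil

end Pool.Agent.Lib.MP_bba6cc_lc
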