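import Pool.Agent.Lib.MP_bba6cc_lc.ACon
import Pool.Agent.Lib.MP_bba6cc_lc.AMach

/-!
# From the full Boolean base to an affine base

The gadget `N(s, t) = @ᵢ ◇ ↓u.(t ⊕ ◇ (u ⊕ i ⊕ s))` and the translation of the formulas over
`{∧, ¬}` into formulas over an affine base.
-/

namespace Pool.Agent.Lib.MP_bba6cc_lc

open Classical N487b59b3 N68a2faeb N793a5b8e

/-- exclusive or of propositions -/
def Xo (p q : Prop) : Prop := ¬ (p ↔ q)

theorem Xo_congr {p q p' q' : Prop} (h1 : p ↔ p') (h2 : q ↔ q') : Xo p q ↔ Xo p' q' := by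
  unfold Xo
  rw [h1, h2]

variable {B : List BFun} (K : Con B)

/-- `a ⊕ b` -/
def xrT (a b : Tpl B) : Tpl B := bindT K.X fun k => if k = 0 then a else b

/-- `0` -/
def botT : Tpl B := xrT K K.T K.T

/-- the gadget -/
def gadT (s t : Tpl B) : Tpl B :=
  .atN 0 (.dia (.down 2 (xrT K t (.dia (xrT K (.var 2) (xrT K (.nom 0) s))))))

/-- `N(g, 1) ⊕ N(0, 1) ⊕ N(g, 0) ⊕ N(0, 0)` -/
def gateTA (g : Tpl B) : Tpl B :=
  xrT K (xrT K (gadT K g K.T) (gadT K (botT K) K.T))
    (xrT K (gadT K g (botT K)) (gadT K (botT K) (botT K)))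

/-- `a = N(1, 0) ⊕ N(0, 0)` -/
def bitTA : Tpl B := xrT K (gadT K K.T (botT K)) (gadT K (botT K) (botT K))

/-- `b = N(0, 1) ⊕ N(0, 0)` -/
def bitTB : Tpl B := xrT K (gadT K (botT K) K.T) (gadT K (botT K) (botT K))

/-- `N(s ⊕ b, t ⊕ a) ⊕ N(b, a)` -/
def andfT (s t : Tpl B) : Tpl B :=
  xrT K (gadT K (xrT K s (bitTB K)) (xrT K t (bitTA K))) (gadT K (bitTB K) (bitTA K))

/-- the templates of the translation -/
def famA : Fam boolBase B where
  tP := .prpI
  tN := .nomS
  tV := .varS
  tA := fun i => if i.val = 0 then .down 0 (andfT K (.atV 0 (.hole 0)) (.atV 0 (.hole 1)))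
    else xrT K K.T (.hole 0)
  tD := .dia (.hole 0)
  tX := .box (.hole 0)
  tW := .downS (.hole 0)
  tAN := .atNS (.hole 0)
  tAV := .atVS (.hole 0)

/-- the final template -/
def finA : Tpl B := .down 0 (gateTA K (.atV 0 (.hole 0)))

/-! ### holes -/

variable {K}

theorem holes_xrT (a b : Tpl B) : (holesA (xrT K a b)).Perm (holesA a ++ holesA b) := by
  unfold xrT
  rw [holesA_bindT]
  have h := K.holes_X.flatMap_right fun k => holesA (if k = 0 then a else b)
  simpa using h

theorem holes_botT : holesA (botT K) = [] := by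
  have h := holes_xrT (K := K) K.T K.T
  rw [K.holes_T] at h
  exact List.Perm.eq_nil h

theorem holes_gadT (s t : Tpl B) : (holesA (gadT K s t)).Perm (holesA t ++ holesA s) := by
  show (holesA (xrT K t (.dia (xrT K (.var 2) (xrT K (.nom 0) s))))).Perm _
  refine (holes_xrT _ _).trans (List.Perm.append_left _ ?_)
  show (holesA (xrT K (.var 2) (xrT K (.nom 0) s))).Perm _
  refine (holes_xrT _ _).trans ?_
  show ([] ++ holesA (xrT K (.nom 0) s)).Perm _
  exact holes_xrT _ _

theorem holes_bitTA : holesA (bitTA K) = [] := by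
  have h := holes_xrT (K := K) (gadT K K.T (botT K)) (gadT K (botT K) (botT K))
  have h1 := holes_gadT (K := K) K.T (botT K)
  have h2 := holes_gadT (K := K) (botT K) (botT K)
  rw [K.holes_T, holes_botT] at h1
  rw [holes_botT] at h2
  have e1 := h1.eq_nil
  have e2 := h2.eq_nil
  rw [e1, e2] at h
  exact h.eq_nil

theorem holes_bitTB : holesA (bitTB K) = [] := by
  have h := holes_xrT (K := K) (gadT K (botT K) K.T) (gadT K (botT K) (botT K))
  have h1 := holes_gadT (K := K) (botT K) K.T
  have h2 := holes_gadT (K := K) (botT K) (botT K)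
  rw [K.holes_T, holes_botT] at h1
  rw [holes_botT] at h2
  have e1 := h1.eq_nil
  have e2 := h2.eq_nil
  rw [e1, e2] at h
  exact h.eq_nil

theorem holes_andfT (s t : Tpl B) : (holesA (andfT K s t)).Perm (holesA t ++ holesA s) := by
  refine (holes_xrT _ _).trans ?_
  have h0 : holesA (gadT K (bitTB K) (bitTA K)) = [] := by
    have h := holes_gadT (K := K) (bitTB K) (bitTA K)
    rw [holes_bitTA, holes_bitTB] at h
    exact h.eq_nil
  rw [h0, List.append_nil]
  refine (holes_gadT _ _).trans ?_
  have h1 := holes_xrT (K := K) s (bitTB K)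
  have h2 := holes_xrT (K := K) t (bitTA K)
  rw [holes_bitTB, List.append_nil] at h1
  rw [holes_bitTA, List.append_nil] at h2
  exact h2.append h1

theorem famA_ok : (famA K).Ok := by
  have lin0 : ∀ t : Tpl B, holesA t = [] → Lin t 0 := by
    intro t h
    refine ⟨by rw [h]; exact List.nodup_nil, fun k hk => ?_⟩
    rw [h] at hk
    simp at hk
  have lin1 : ∀ t : Tpl B, holesA t = [0] → Lin t 1 := by
    intro t h
    refine ⟨by rw [h]; simp, fun k hk => ?_⟩
    rw [h] at hk
    simp at hk
    omega
  refine ⟨lin0 _ rfl, lin0 _ rfl, lin0 _ rfl, fun i => ?_, lin1 _ rfl, lin1 _ rfl, lin1 _ rfl,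
    lin1 _ rfl, lin1 _ rfl⟩
  obtain ⟨i, hi⟩ := i
  have hi2 : i = 0 ∨ i = 1 := by
    have : i < 2 := hi
    omega
  rcases hi2 with rfl | rfl
  · have hp : (holesA (Tpl.down 0 (andfT K (.atV 0 (.hole 0)) (.atV 0 (.hole 1))))).Perm [1, 0] :=
      holes_andfT _ _
    refine ⟨?_, ?_⟩
    · show (holesA (Tpl.down 0 (andfT K (.atV 0 (.hole 0)) (.atV 0 (.hole 1))))).Nodup
      rw [hp.nodup_iff]
      decide
    · intro k hk
      have hk' := hp.mem_iff.mp hk
      show k < 2
      simp at hk'
      omega
  · have hp : (holesA (xrT K K.T (.hole 0))).Perm [0] := by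
      have := holes_xrT (K := K) K.T (.hole 0)
      rw [K.holes_T] at this
      exact this
    refine ⟨?_, ?_⟩
    · show (holesA (xrT K K.T (.hole 0))).Nodup
      rw [hp.nodup_iff]
      decide
    · intro k hk
      have hk' := hp.mem_iff.mp hk
      show k < 1
      simp at hk'
      omega

/-! ### semantics of the gadgets -/

section

variable {M : Model} {n : ℕ} {σ : ℕ → Fa B} {g : ℕ → M.W}

theorem holds_xrT (a b : Tpl B) (g : ℕ → M.W) (w : M.W) :
    HoldsA M (fillA (xrT K a b) n σ) g w ↔
      Xo (HoldsA M (fillA a n σ) g w) (HoldsA M (fillA b n σ) g w) := by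
  unfold xrT Xo
  rw [fillA_bindT, K.holds_X]
  rfl

/-- `s` has the truth value `p` at all states, whatever the value of the variable `2` -/
def RigA (M : Model) (n : ℕ) (σ : ℕ → Fa B) (g : ℕ → M.W) (s : Tpl B) (p : Prop) : Prop :=
  ∀ u z, HoldsA M (fillA s n σ) (Function.update g 2 u) z ↔ p

/-- the Boolean function computed by the gadget -/
def nnA (M : Model) (p q : Prop) : Prop :=
  ∃ y, M.R (M.N 0) y ∧ Xo q (∃ z, M.R y z ∧ Xo (y = z) (Xo (M.N 0 = z) p))

theorem rigA_top : RigA M n σ g K.T True := fun _ _ => iff_true_intro (K.holds_T M n σ _ _)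

theorem rigA_xor {s t : Tpl B} {p q : Prop} (hs : RigA M n σ g s p) (ht : RigA M n σ g t q) :
    RigA M n σ g (xrT K s t) (Xo p q) := by
  intro u z
  rw [holds_xrT, hs, ht]

theorem rigA_bot : RigA M n σ g (botT K) False := by
  intro u z
  rw [botT, rigA_xor rigA_top rigA_top]
  simp [Xo]

theorem rigA_gad {s t : Tpl B} {p q : Prop} (hs : RigA M n σ g s p) (ht : RigA M n σ g t q) :
    RigA M n σ g (gadT K s t) (nnA M p q) := by
  intro u z
  unfold gadT nnA
  simp only [fillA, HoldsA, holds_xrT, Function.update_idem, Function.update_self]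
  have h1 : ∀ y, HoldsA M (fillA t n σ) (Function.update g 2 y) y ↔ q := fun y => ht y y
  have h2 : ∀ y z, HoldsA M (fillA s n σ) (Function.update g 2 y) z ↔ p := fun y z => hs y z
  simp only [h1, h2]

theorem rigA_at {φ : Tpl B} {p : Prop}
    (h : ∀ u, HoldsA M (fillA φ n σ) (Function.update g 2 u) (g 0) ↔ p) :
    RigA M n σ g (.atV 0 φ) p := by
  intro u z
  simp only [fillA, HoldsA]
  rw [Function.update_of_ne (by norm_num)]
  exact h u

/-- the gadget works: its mixed second difference is `1` -/
def GoodA (M : Model) : Prop :=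
  Xo (Xo (nnA M True True) (nnA M False True)) (Xo (nnA M True False) (nnA M False False))

/-- the function computed by `andfT` -/
def andSA (M : Model) (p q : Prop) : Prop :=
  Xo (nnA M (Xo p (Xo (nnA M False True) (nnA M False False)))
    (Xo q (Xo (nnA M True False) (nnA M False False))))
    (nnA M (Xo (nnA M False True) (nnA M False False)) (Xo (nnA M True False) (nnA M False False)))

theorem rigA_and {s t : Tpl B} {p q : Prop} (hs : RigA M n σ g s p) (ht : RigA M n σ g t q) :
    RigA M n σ g (andfT K s t) (andSA M p q) := by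
  have h1 := rigA_top (K := K) (M := M) (n := n) (σ := σ) (g := g)
  have h0 := rigA_bot (K := K) (M := M) (n := n) (σ := σ) (g := g)
  have ha := rigA_xor (K := K) (rigA_gad (K := K) h1 h0) (rigA_gad (K := K) h0 h0)
  have hb := rigA_xor (K := K) (rigA_gad (K := K) h0 h1) (rigA_gad (K := K) h0 h0)
  exact rigA_xor (rigA_gad (rigA_xor hs hb) (rigA_xor ht ha)) (rigA_gad hb ha)

theorem andSA_iff {M : Model} (hK : GoodA M) (p q : Prop) : andSA M p q ↔ p ∧ q := by
  unfold GoodA at hK
  unfold andSA
  by_cases hp : p <;> by_cases hq : q <;> by_cases h1 : nnA M True True <;>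
    by_cases h2 : nnA M True False <;> by_cases h3 : nnA M False True <;>
    by_cases h4 : nnA M False False <;> simp_all [Xo]

theorem rigA_gate {s : Tpl B} {p : Prop} (hs : RigA M n σ g s p) :
    RigA M n σ g (gateTA K s) (p ∧ GoodA M) := by
  have h1 := rigA_top (K := K) (M := M) (n := n) (σ := σ) (g := g)
  have h0 := rigA_bot (K := K) (M := M) (n := n) (σ := σ) (g := g)
  have h := rigA_xor (K := K) (rigA_xor (K := K) (rigA_gad (K := K) hs h1)
    (rigA_gad (K := K) h0 h1)) (rigA_xor (K := K) (rigA_gad (K := K) hs h0)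
    (rigA_gad (K := K) h0 h0))
  intro u z
  unfold gateTA
  rw [h u z]
  unfold GoodA
  by_cases hp : p
  · simp [hp]
  · simp [hp, Xo]

end

/-- the model with every second nominal -/
def shiftA (M : Model) : Model := ⟨M.W, M.R, M.V, fun n => M.N (2 * n + 1)⟩

theorem odd_ne_zero (n : ℕ) : 2 * n + 1 ≠ 0 := by omega

theorem odd_ne_two (n : ℕ) : 2 * n + 1 ≠ 2 := by omega

theorem update_odd {W : Type} (g : ℕ → W) (x : ℕ) (v : W) :
    (fun n => Function.update g (2 * x + 1) v (2 * n + 1)) =
      Function.update (fun n => g (2 * n + 1)) x v := by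
  funext n
  by_cases hn : n = x
  · subst hn
    simp
  · rw [Function.update_of_ne (by omega), Function.update_of_ne hn]

/-- the two applications -/
theorem tauA_and (args : Fin 2 → Fa boolBase) : tauA (famA K) (.app ⟨0, by decide⟩ args) =
    fillA (.down 0 (andfT K (.atV 0 (.hole 0)) (.atV 0 (.hole 1)))) 0
      fun k => if k = 0 then tauA (famA K) (args 0) else tauA (famA K) (args 1) := by
  show fillA (.down 0 (andfT K (.atV 0 (.hole 0)) (.atV 0 (.hole 1)))) 0
    (fun k => if h : k < 2 then tauA (famA K) (args ⟨k, h⟩) else .prp 0) = _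
  apply fillA_congr
  intro k hk
  have hp : (holesA (Tpl.down 0 (andfT K (.atV 0 (.hole 0)) (.atV 0 (.hole 1))))).Perm [1, 0] :=
    holes_andfT _ _
  have hk' := hp.mem_iff.mp hk
  simp at hk'
  rcases hk' with rfl | rfl
  · rfl
  · rfl

theorem tauA_not (args : Fin 1 → Fa boolBase) : tauA (famA K) (.app ⟨1, by decide⟩ args) =
    fillA (xrT K K.T (.hole 0)) 0 fun _ => tauA (famA K) (args 0) := by
  show fillA (xrT K K.T (.hole 0)) 0
    (fun k => if h : k < 1 then tauA (famA K) (args ⟨k, h⟩) else .prp 0) = _
  apply fillA_congr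
  intro k hk
  have hp : (holesA (xrT K K.T (.hole 0))).Perm [0] := by
    have := holes_xrT (K := K) K.T (.hole 0)
    rw [K.holes_T] at this
    exact this
  have hk' := hp.mem_iff.mp hk
  simp at hk'
  subst hk'
  rfl

theorem tauA_indep (M : Model) (φ : Fa boolBase) : ∀ (g g' : ℕ → M.W) (v : M.W),
    (∀ n, g (2 * n + 1) = g' (2 * n + 1)) →
      (HoldsA M (tauA (famA K) φ) g v ↔ HoldsA M (tauA (famA K) φ) g' v) := by
  induction φ with
  | prp p => intro g g' v h; rfl
  | nom i => intro g g' v h; rfl
  | var x =>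
    intro g g' v h
    show g (2 * x + 1) = v ↔ g' (2 * x + 1) = v
    rw [h]
  | app i args ih =>
    obtain ⟨i, hi⟩ := i
    have hi2 : i = 0 ∨ i = 1 := by
      have : i < 2 := hi
      omega
    rcases hi2 with rfl | rfl
    · change Fin 2 → Fa boolBase at args
      intro g g' v h
      have key : ∀ g : ℕ → M.W, HoldsA M (tauA (famA K) (.app ⟨0, by decide⟩ args)) g v ↔
          andSA M (HoldsA M (tauA (famA K) (args 0)) g v)
            (HoldsA M (tauA (famA K) (args 1)) g v) := by
        intro g
        rw [tauA_and]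
        set σ : ℕ → Fa B := fun k =>
          if k = 0 then tauA (famA K) (args 0) else tauA (famA K) (args 1) with hσ
        simp only [fillA, HoldsA]
        have h1 : RigA M 0 σ (Function.update g 0 v) (.atV 0 (.hole 0))
            (HoldsA M (tauA (famA K) (args 0)) g v) := by
          apply rigA_at
          intro u
          rw [Function.update_self]
          show HoldsA M (tauA (famA K) (args 0)) _ v ↔ _
          apply ih (0 : Fin 2)
          intro n
          rw [Function.update_of_ne (odd_ne_two n), Function.update_of_ne (odd_ne_zero n)]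
        have h2 : RigA M 0 σ (Function.update g 0 v) (.atV 0 (.hole 1))
            (HoldsA M (tauA (famA K) (args 1)) g v) := by
          apply rigA_at
          intro u
          rw [Function.update_self]
          show HoldsA M (tauA (famA K) (args 1)) _ v ↔ _
          apply ih (1 : Fin 2)
          intro n
          rw [Function.update_of_ne (odd_ne_two n), Function.update_of_ne (odd_ne_zero n)]
        have h3 := rigA_and (K := K) h1 h2 (Function.update g 0 v 2) v
        rwa [Function.update_eq_self] at h3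
      have e0 := ih (0 : Fin 2) g g' v h
      have e1 := ih (1 : Fin 2) g g' v h
      rw [key, key]
      exact iff_of_eq (congrArg₂ (andSA M) (propext e0) (propext e1))
    · change Fin 1 → Fa boolBase at args
      intro g g' v h
      rw [tauA_not, holds_xrT, holds_xrT]
      have e1 := iff_true_intro (K.holds_T M 0 (fun _ => tauA (famA K) (args 0)) g v)
      have e2 := iff_true_intro (K.holds_T M 0 (fun _ => tauA (famA K) (args 0)) g' v)
      have e3 : HoldsA M (fillA (.hole 0) 0 (fun _ => tauA (famA K) (args 0))) g v ↔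
        HoldsA M (fillA (.hole 0) 0 (fun _ => tauA (famA K) (args 0))) g' v := ih (0 : Fin 1) g g' v h
      rw [e1, e2, e3]
  | dia φ ih =>
    intro g g' v h
    exact exists_congr fun u => and_congr_right fun _ => ih g g' u h
  | box φ ih =>
    intro g g' v h
    exact forall_congr' fun u => forall_congr' fun _ => ih g g' u h
  | down x φ ih =>
    intro g g' v h
    apply ih
    intro n
    by_cases hn : n = x
    · subst hn
      simp
    · rw [Function.update_of_ne (by omega), Function.update_of_ne (by omega), h]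
  | atN i φ ih =>
    intro g g' v h
    exact ih g g' _ h
  | atV x φ ih =>
    intro g g' v h
    show HoldsA M (tauA (famA K) φ) g (g (2 * x + 1)) ↔ HoldsA M (tauA (famA K) φ) g' (g' (2 * x + 1))
    rw [h]
    exact ih g g' _ h

theorem tauA_good {M : Model} (hM : GoodA M) (φ : Fa boolBase) : ∀ (g : ℕ → M.W) (v : M.W),
    (HoldsA M (tauA (famA K) φ) g v ↔ HoldsA (shiftA M) φ (fun n => g (2 * n + 1)) v) := by
  induction φ with
  | prp p => intro g v; rfl
  | nom i => intro g v; rfl
  | var x => intro g v; rfl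
  | app i args ih =>
    obtain ⟨i, hi⟩ := i
    have hi2 : i = 0 ∨ i = 1 := by
      have : i < 2 := hi
      omega
    rcases hi2 with rfl | rfl
    · change Fin 2 → Fa boolBase at args
      intro g v
      rw [tauA_and]
      set σ : ℕ → Fa B := fun k =>
        if k = 0 then tauA (famA K) (args 0) else tauA (famA K) (args 1) with hσ
      have h1 : RigA M 0 σ (Function.update g 0 v) (.atV 0 (.hole 0))
          (HoldsA M (tauA (famA K) (args 0)) g v) := by
        apply rigA_at
        intro u
        rw [Function.update_self]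
        show HoldsA M (tauA (famA K) (args 0)) _ v ↔ _
        apply tauA_indep
        intro n
        rw [Function.update_of_ne (odd_ne_two n), Function.update_of_ne (odd_ne_zero n)]
      have h2 : RigA M 0 σ (Function.update g 0 v) (.atV 0 (.hole 1))
          (HoldsA M (tauA (famA K) (args 1)) g v) := by
        apply rigA_at
        intro u
        rw [Function.update_self]
        show HoldsA M (tauA (famA K) (args 1)) _ v ↔ _
        apply tauA_indep
        intro n
        rw [Function.update_of_ne (odd_ne_two n), Function.update_of_ne (odd_ne_zero n)]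
      have h3 := rigA_and (K := K) h1 h2 (Function.update g 0 v 2) v
      rw [Function.update_eq_self, andSA_iff hM] at h3
      have e0 := ih (0 : Fin 2) g v
      have e1 := ih (1 : Fin 2) g v
      have e4 : HoldsA (shiftA M) (.app ⟨0, by decide⟩ args : Fa boolBase)
          (fun n => g (2 * n + 1)) v ↔
          HoldsA (shiftA M) (args 0) (fun n => g (2 * n + 1)) v ∧
            HoldsA (shiftA M) (args 1) (fun n => g (2 * n + 1)) v := by
        show ((decide (HoldsA (shiftA M) (args 0) (fun n => g (2 * n + 1)) v)) &&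
          (decide (HoldsA (shiftA M) (args 1) (fun n => g (2 * n + 1)) v))) = true ↔ _
        rw [Bool.and_eq_true, decide_eq_true_iff, decide_eq_true_iff]
      rw [e4]
      refine Iff.trans h3 ?_
      exact and_congr e0 e1
    · change Fin 1 → Fa boolBase at args
      intro g v
      rw [tauA_not, holds_xrT]
      have e1 := iff_true_intro (K.holds_T M 0 (fun _ => tauA (famA K) (args 0)) g v)
      have e3 : HoldsA M (fillA (.hole 0) 0 (fun _ => tauA (famA K) (args 0))) g v ↔
        HoldsA (shiftA M) (args 0) (fun n => g (2 * n + 1)) v := ih (0 : Fin 1) g v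
      have e4 : HoldsA (shiftA M) (.app ⟨1, by decide⟩ args : Fa boolBase)
          (fun n => g (2 * n + 1)) v ↔
          ¬ HoldsA (shiftA M) (args 0) (fun n => g (2 * n + 1)) v := by
        show (!(decide (HoldsA (shiftA M) (args 0) (fun n => g (2 * n + 1)) v))) = true ↔ _
        rw [Bool.not_eq_true', decide_eq_false_iff_not]
      rw [e4, e1, e3]
      unfold Xo
      simp
  | dia φ ih =>
    intro g v
    exact exists_congr fun u => and_congr_right fun _ => ih g u
  | box φ ih =>
    intro g v
    exact forall_congr' fun u => forall_congr' fun _ => ih g u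
  | down x φ ih =>
    intro g v
    show HoldsA M (tauA (famA K) φ) (Function.update g (2 * x + 1) v) v ↔
      HoldsA (shiftA M) φ (Function.update (fun n => g (2 * n + 1)) x v) v
    rw [ih, update_odd]
    exact Iff.rfl
  | atN i φ ih =>
    intro g v
    exact ih g _
  | atV x φ ih =>
    intro g v
    exact ih g _

theorem finA_holds (M : Model) (φ : Fa boolBase) (g : ℕ → M.W) (w : M.W) :
    HoldsA M (fillA (finA K) 0 fun _ => tauA (famA K) φ) g w ↔
      HoldsA (shiftA M) φ (fun n => g (2 * n + 1)) w ∧ GoodA M := by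
  have h1 : RigA M 0 (fun _ => tauA (famA K) φ) (Function.update g 0 w) (.atV 0 (.hole 0))
      (HoldsA M (tauA (famA K) φ) g w) := by
    apply rigA_at
    intro u
    rw [Function.update_self]
    show HoldsA M (tauA (famA K) φ) _ w ↔ _
    apply tauA_indep
    intro n
    rw [Function.update_of_ne (odd_ne_two n), Function.update_of_ne (odd_ne_zero n)]
  have h2 := rigA_gate (K := K) h1 (Function.update g 0 w 2) w
  rw [Function.update_eq_self] at h2
  show HoldsA M (fillA (gateTA K (.atV 0 (.hole 0))) 0 fun _ => tauA (famA K) φ)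
    (Function.update g 0 w) w ↔ _
  rw [h2]
  constructor
  · rintro ⟨h3, h4⟩
    exact ⟨(tauA_good h4 φ g w).mp h3, h4⟩
  · rintro ⟨h3, h4⟩
    exact ⟨(tauA_good h4 φ g w).mpr h3, h4⟩

/-! ### adding a component to a model -/

/-- disjoint union of the frame of a model and a finite frame -/
def sumR {W : Type} {m : ℕ} (R : W → W → Prop) (S : Fin m → Fin m → Bool) :
    W ⊕ Fin m → W ⊕ Fin m → Prop
  | .inl a, .inl b => R a b
  | .inr a, .inr b => S a b = true
  | _, _ => False

/-- the disjoint union of a model with a finite frame; the nominals with even number name the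
points `c i` of the new component -/
def sumM (M : Model) {m : ℕ} (S : Fin m → Fin m → Bool) (c : ℕ → Fin m) : Model where
  W := M.W ⊕ Fin m
  R := sumR M.R S
  V := fun p => Sum.elim (M.V p) fun _ => False
  N := fun n => if n % 2 = 1 then .inl (M.N (n / 2)) else .inr (c n)

theorem sumM_mem {F : FrameClass} {M : Model} {m : ℕ} {S : Fin m → Fin m → Bool} {c : ℕ → Fin m}
    (h : F.Mem M.R) (hS : F.Mem fun a b => S a b = true) : F.Mem (sumM M S c).R := by
  cases F with
  | all => trivial
  | trans =>
    have h' : ∀ x y z, M.R x y → M.R y z → M.R x z := h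
    have hd : ∀ x y z, S x y = true → S y z = true → S x z = true := hS
    rintro (x | x) (y | y) (z | z) hxy hyz
    · exact h' x y z hxy hyz
    all_goals first | exact hxy.elim | exact hyz.elim | skip
    exact hd x y z hxy hyz
  | total =>
    have h' : ∀ x, ∃ y, M.R x y := h
    have hd : ∀ x, ∃ y, S x y = true := hS
    rintro (x | x)
    · obtain ⟨y, hy⟩ := h' x
      exact ⟨.inl y, hy⟩
    · obtain ⟨y, hy⟩ := hd x
      exact ⟨.inr y, hy⟩
  | er =>
    obtain ⟨h1, h2, h3⟩ := h
    obtain ⟨k1, k2, k3⟩ := hS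
    refine ⟨?_, ?_, ?_⟩
    · rintro (x | x)
      · exact h1 x
      · exact k1 x
    · rintro (x | x) (y | y) hxy
      · exact h2 x y hxy
      · exact hxy.elim
      · exact hxy.elim
      · exact k2 x y hxy
    · rintro (x | x) (y | y) (z | z) hxy hyz
      · exact h3 x y z hxy hyz
      all_goals first | exact hxy.elim | exact hyz.elim | skip
      exact k3 x y z hxy hyz

/-- truth in the old component -/
theorem sumM_holds {B' : List BFun} (M : Model) {m : ℕ} (S : Fin m → Fin m → Bool)
    (c : ℕ → Fin m) (φ : Fa B') : ∀ (g : ℕ → M.W) (v : M.W),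
    HoldsA (shiftA (sumM M S c)) φ (fun n => Sum.inl (g n)) (Sum.inl v) ↔ HoldsA M φ g v := by
  have hN : ∀ i, (shiftA (sumM M S c)).N i = Sum.inl (M.N i) := by
    intro i
    show (if (2 * i + 1) % 2 = 1 then (Sum.inl (M.N ((2 * i + 1) / 2)) : M.W ⊕ Fin m)
      else .inr (c (2 * i + 1))) = _
    rw [if_pos (by omega), show (2 * i + 1) / 2 = i by omega]
  induction φ with
  | prp p => intro g v; rfl
  | nom i =>
    intro g v
    show (shiftA (sumM M S c)).N i = Sum.inl v ↔ M.N i = v
    rw [hN]
    exact ⟨fun h => Sum.inl.inj h, fun h => congrArg Sum.inl h⟩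
  | var x =>
    intro g v
    exact ⟨fun h => Sum.inl.inj h, fun h => congrArg Sum.inl h⟩
  | app i args ih =>
    intro g v
    have : (fun j => decide (HoldsA (shiftA (sumM M S c)) (args j) (fun n => Sum.inl (g n))
        (Sum.inl v))) = fun j => decide (HoldsA M (args j) g v) := by
      funext j
      rw [Bool.eq_iff_iff, decide_eq_true_iff, decide_eq_true_iff]
      exact ih j g v
    show (B'.get i).fn _ = true ↔ (B'.get i).fn _ = true
    rw [this]
  | dia φ ih =>
    intro g v
    constructor
    · rintro ⟨u | u, hu, hu2⟩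
      · exact ⟨u, hu, (ih g u).mp hu2⟩
      · exact hu.elim
    · rintro ⟨u, hu, hu2⟩
      exact ⟨.inl u, hu, (ih g u).mpr hu2⟩
  | box φ ih =>
    intro g v
    constructor
    · intro h u hu
      exact (ih g u).mp (h (.inl u) hu)
    · rintro h (u | u) hu
      · exact (ih g u).mpr (h u hu)
      · exact hu.elim
  | down x φ ih =>
    intro g v
    have e : (Function.update (fun n => (Sum.inl (g n) : M.W ⊕ Fin m)) x (Sum.inl v)) =
        fun n => Sum.inl (Function.update g x v n) := by
      funext n
      by_cases hn : n = x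
      · subst hn
        simp
      · rw [Function.update_of_ne hn, Function.update_of_ne hn]
    have := ih (Function.update g x v) v
    exact (Iff.of_eq (congrArg (fun a => HoldsA (shiftA (sumM M S c)) φ a (Sum.inl v)) e)).trans
      this
  | atN i φ ih =>
    intro g v
    show HoldsA (shiftA (sumM M S c)) φ (fun n => Sum.inl (g n)) ((shiftA (sumM M S c)).N i) ↔ _
    rw [hN]
    exact ih g (M.N i)
  | atV x φ ih =>
    intro g v
    exact ih g (g x)

/-- the relation on the three states of the gadget -/
def gadRA (F : FrameClass) (a b : Fin 3) : Bool :=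
  match F with
  | .all => (a == 0 && b == 1) || (a == 0 && b == 2) || (a == 2 && b == 1)
  | .trans => (a == 0 && b == 1) || (a == 0 && b == 2) || (a == 2 && b == 1)
  | .total => (a == 0 && b == 1) || (a == 0 && b == 2) || (a == 1 && b == 1) ||
      (a == 2 && b == 2) || (a == 2 && b == 1)
  | .er => true

theorem gadRA_mem (F : FrameClass) : F.Mem fun a b => gadRA F a b = true := by
  cases F with
  | all => trivial
  | trans =>
    show ∀ x y z, gadRA .trans x y = true → gadRA .trans y z = true → gadRA .trans x z = true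
    decide
  | total =>
    show ∀ x, ∃ y, gadRA .total x y = true
    decide
  | er => exact ⟨fun _ => rfl, fun _ _ _ => rfl, fun _ _ _ _ _ => rfl⟩

theorem nnA_ext (F : FrameClass) (M : Model) (p q : Prop) :
    nnA (sumM M (gadRA F) fun _ => 0) p q ↔ ∃ y : Fin 3, gadRA F 0 y = true ∧
      Xo q (∃ z : Fin 3, gadRA F y z = true ∧ Xo (y = z) (Xo (0 = z) p)) := by
  have e : ∀ c z : Fin 3, (@Eq (sumM M (gadRA F) fun _ => 0).W (Sum.inr c) (Sum.inr z)) ↔ c = z :=
    fun c z => ⟨fun h => Sum.inr.inj h, fun h => congrArg Sum.inr h⟩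
  have inner : ∀ y : Fin 3, (∃ z : (sumM M (gadRA F) fun _ => 0).W,
      (sumM M (gadRA F) fun _ => 0).R (.inr y) z ∧
      Xo (@Eq (sumM M (gadRA F) fun _ => 0).W (Sum.inr y) z)
        (Xo ((sumM M (gadRA F) fun _ => 0).N 0 = z) p)) ↔
      ∃ z : Fin 3, gadRA F y z = true ∧ Xo (y = z) (Xo (0 = z) p) := by
    intro y
    constructor
    · rintro ⟨z | z, hz, hz2⟩
      · exact hz.elim
      · exact ⟨z, hz, (Xo_congr (e y z) (Xo_congr (e 0 z) Iff.rfl)).mp hz2⟩
    · rintro ⟨z, hz, hz2⟩
      exact ⟨.inr z, hz, (Xo_congr (e y z) (Xo_congr (e 0 z) Iff.rfl)).mpr hz2⟩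
  unfold nnA
  constructor
  · rintro ⟨y | y, hy, hy2⟩
    · exact hy.elim
    · exact ⟨y, hy, (Xo_congr Iff.rfl (inner y)).mp hy2⟩
  · rintro ⟨y, hy, hy2⟩
    exact ⟨.inr y, hy, (Xo_congr Iff.rfl (inner y)).mpr hy2⟩

/-- the function of the gadget, computed -/
def nbA (F : FrameClass) (p q : Bool) : Bool :=
  (List.finRange 3).any fun y => gadRA F 0 y && xor q ((List.finRange 3).any fun z =>
    gadRA F y z && xor (y == z) (xor (0 == z) p))

theorem Xo_bool (a b : Bool) : Xo (a = true) (b = true) ↔ xor a b = true := by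
  unfold Xo
  cases a <;> cases b <;> simp

theorem nnA_ext_bool (F : FrameClass) (M : Model) (p q : Bool) :
    nnA (sumM M (gadRA F) fun _ => 0) (p = true) (q = true) ↔ nbA F p q = true := by
  rw [nnA_ext, nbA, List.any_eq_true]
  have hz : ∀ y z : Fin 3, (gadRA F y z = true ∧ Xo (y = z) (Xo (0 = z) (p = true))) ↔
      (gadRA F y z && xor (y == z) (xor (0 == z) p)) = true := by
    intro y z
    rw [Bool.and_eq_true, ← Xo_bool, ← Xo_bool, beq_iff_eq, beq_iff_eq]
  have hy : ∀ y : Fin 3, (∃ z : Fin 3, gadRA F y z = true ∧ Xo (y = z) (Xo (0 = z) (p = true))) ↔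
      ((List.finRange 3).any fun z => gadRA F y z && xor (y == z) (xor (0 == z) p)) = true := by
    intro y
    rw [List.any_eq_true]
    constructor
    · rintro ⟨z, hz1⟩
      exact ⟨z, List.mem_finRange z, (hz y z).mp hz1⟩
    · rintro ⟨z, _, hz1⟩
      exact ⟨z, (hz y z).mpr hz1⟩
  constructor
  · rintro ⟨y, h1, h2⟩
    refine ⟨y, List.mem_finRange y, ?_⟩
    rw [Bool.and_eq_true, ← Xo_bool, ← hy y]
    exact ⟨h1, h2⟩
  · rintro ⟨y, _, h1⟩
    rw [Bool.and_eq_true, ← Xo_bool, ← hy y] at h1
    exact ⟨y, h1⟩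

theorem ext_goodA (F : FrameClass) (M : Model) : GoodA (sumM M (gadRA F) fun _ => 0) := by
  have h11 := nnA_ext_bool F M true true
  have h10 := nnA_ext_bool F M true false
  have h01 := nnA_ext_bool F M false true
  have h00 := nnA_ext_bool F M false false
  have hT : (true = true) = True := by simp
  have hF : (false = true) = False := by simp
  rw [hT] at h11 h10 h01
  rw [hF] at h10 h01 h00
  unfold GoodA
  rw [h11, h10, h01, h00, Xo_bool, Xo_bool, Xo_bool]
  cases F <;> decide

theorem finA_sat (F : FrameClass) (φ : Fa boolBase) :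
    SatInA F (fillA (finA K) 0 fun _ => tauA (famA K) φ) ↔ SatInA F φ := by
  constructor
  · rintro ⟨M, hF, g, w, hφ⟩
    rw [finA_holds] at hφ
    exact ⟨shiftA M, hF, fun n => g (2 * n + 1), w, hφ.1⟩
  · rintro ⟨M, hF, g, w, hφ⟩
    refine ⟨sumM M (gadRA F) fun _ => 0, sumM_mem hF (gadRA_mem F),
      fun n => Sum.inl (g (n / 2)), Sum.inl w, (finA_holds _ _ _ _).mpr ⟨?_, ext_goodA F M⟩⟩
    have e : (fun n => (Sum.inl (g ((2 * n + 1) / 2)) : M.W ⊕ Fin 3)) = fun n => Sum.inl (g n) := by
      funext n
      rw [show (2 * n + 1) / 2 = n by omega]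
    have h := (sumM_holds M (gadRA F) (fun _ => 0) φ g w).mpr hφ
    exact (Iff.of_eq (congrArg (fun a => HoldsA (shiftA (sumM M (gadRA F) fun _ => 0)) φ a
      (Sum.inl w)) e)).mpr h

/-- the full Boolean logic reduces to the logic over an affine base -/
theorem full_le_affine (hB : CloneIsAffine B) (F : FrameClass) :
    ManyOneReducible (satProblemA boolBase F) (satProblemA B F) := by
  obtain ⟨K⟩ := exists_con hB
  exact reducible_of_templates (famA_ok (K := K)) (finA K) F fun a => finA_sat F a

end Pool.Agent.Lib.MP_bba6cc_lc
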