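import Pool.Agent.Lib.MP_bba6cc_lc.Alg

/-!
# From bit strings to token lists; the language of satisfiable formulas is in `P`
-/

namespace Pool.Agent.Lib.MP_bba6cc_lc

open Pool.Agent Pool.Agent.MSR Pool.Agent.MSR.En N487b59b3 N68a2faeb

/-! ### canonical binary expansions -/

/-- canonical binary expansions: empty, or with last bit `1` -/
def canon (l : List Bool) : Bool := MSR.lcase l.reverse true (fun h _ => h)

theorem exists_posNum (l : List Bool) (h : l.getLast? = some true) :
    ∃ p : PosNum, Computability.encodePosNum p = l := by
  induction l with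
  | nil => simp at h
  | cons b l ih =>
    cases l with
    | nil =>
      simp only [List.getLast?_singleton, Option.some.injEq] at h
      subst h
      exact ⟨PosNum.one, rfl⟩
    | cons c l =>
      rw [List.getLast?_cons_cons] at h
      obtain ⟨p, hp⟩ := ih h
      cases b with
      | false => exact ⟨PosNum.bit0 p, by rw [Computability.encodePosNum, hp]⟩
      | true => exact ⟨PosNum.bit1 p, by rw [Computability.encodePosNum, hp]⟩

theorem canon_iff (l : List Bool) : canon l = true ↔ l = [] ∨ l.getLast? = some true := by
  unfold canon
  rw [← List.head?_reverse]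
  cases h : l.reverse with
  | nil =>
    have : l = [] := by simpa using h
    simp [MSR.lcase, this]
  | cons b m =>
    have : l ≠ [] := by rintro rfl; simp at h
    simp [MSR.lcase, this]

theorem exists_nat_of_canon (l : List Bool) (h : canon l = true) :
    ∃ n : ℕ, Computability.encodeNat n = l := by
  rcases (canon_iff l).mp h with h | h
  · exact ⟨0, by rw [h]; rfl⟩
  · obtain ⟨p, hp⟩ := exists_posNum l h
    refine ⟨(p : ℕ), ?_⟩
    unfold Computability.encodeNat
    rw [← hp]
    have : (((p : ℕ) : ℕ) : Num) = Num.pos p := by
      rw [PosNum.of_to_nat]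
    rw [this]
    rfl

theorem getLast_encodePosNum (p : PosNum) :
    (Computability.encodePosNum p).getLast? = some true := by
  induction p with
  | one => rfl
  | bit0 p ih =>
    rw [Computability.encodePosNum, List.getLast?_cons, ih]
    rfl
  | bit1 p ih =>
    rw [Computability.encodePosNum, List.getLast?_cons, ih]
    rfl

theorem canon_encodeNat (n : ℕ) : canon (Computability.encodeNat n) = true := by
  rw [canon_iff]
  unfold Computability.encodeNat
  cases h : (n : Num) with
  | zero => left; rfl
  | pos p => right; exact getLast_encodePosNum p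

theorem encode_decode {l : List Bool} (h : canon l = true) :
    Computability.encodeNat (Computability.decodeNat l) = l := by
  obtain ⟨n, rfl⟩ := exists_nat_of_canon l h
  rw [Computability.decode_encodeNat]

/-- the number of a binary expansion -/
def toBN (l : List Bool) : BN := ⟨if canon l = true then Computability.decodeNat l else 0⟩

theorem enc_toBN (l : List Bool) : enc (toBN l) = bif canon l then l else [] := by
  show Computability.encodeNat (toBN l).val = _
  unfold toBN
  by_cases h : canon l = true
  · simp only [h, if_true, cond_true]
    exact encode_decode h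
  · rw [Bool.not_eq_true] at h
    simp only [h, cond_false]
    rfl

/-! ### blocks -/

theorem delimit_eq (l : List Bool) : delimit l = l.flatMap (fun b => [true, b]) ++ [false] := by
  induction l with
  | nil => rfl
  | cons b l ih => simp [delimit, ih]

/-- state of the block decoder: awaiting a bit; current block (reversed); blocks (reversed) -/
abbrev BSt := Bool × List Bool × List (List Bool)

/-- one step of the block decoder -/
def bstep (s : BSt) (b : Bool) : BSt :=
  bif s.1 then (false, b :: s.2.1, s.2.2)
  else bif b then (true, s.2.1, s.2.2) else (false, [], s.2.1 :: s.2.2)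

/-- decoding of a list of blocks -/
def blocks (s : List Bool) : List (List Bool) :=
  ((s.foldl bstep (false, [], [])).2.2.map List.reverse).reverse

theorem bstep_delimit (l : List Bool) (c : List Bool) (d : List (List Bool)) :
    (delimit l).foldl bstep (false, c, d) = (false, [], (l.reverse ++ c) :: d) := by
  induction l generalizing c with
  | nil => rfl
  | cons b l ih =>
    show (delimit l).foldl bstep (bstep (bstep (false, c, d) true) b) = _
    have : bstep (bstep (false, c, d) true) b = (false, b :: c, d) := rfl
    rw [this, ih]
    simp

theorem blocks_encode (L : List (List Bool)) : blocks (L.flatMap delimit) = L := by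
  have key : ∀ (L : List (List Bool)) (d : List (List Bool)),
      (L.flatMap delimit).foldl bstep (false, [], d) = (false, [], (L.map List.reverse).reverse ++ d) := by
    intro L
    induction L with
    | nil => intro d; rfl
    | cons l L ih =>
      intro d
      rw [List.flatMap_cons, List.foldl_append, bstep_delimit, ih]
      simp
  unfold blocks
  rw [key]
  simp

/-- state of `und`: awaiting a bit; finished; block (reversed); rest (reversed) -/
abbrev USt := Bool × Bool × List Bool × List Bool

/-- one step -/
def ustep (s : USt) (b : Bool) : USt :=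
  bif s.2.1 then (s.1, s.2.1, s.2.2.1, b :: s.2.2.2)
  else bif s.1 then (false, false, b :: s.2.2.1, s.2.2.2)
  else bif b then (true, false, s.2.2.1, s.2.2.2) else (false, true, s.2.2.1, s.2.2.2)

/-- split off the first block -/
def und (s : List Bool) : List Bool × List Bool :=
  let r := s.foldl ustep (false, false, [], [])
  (r.2.2.1.reverse, r.2.2.2.reverse)

theorem und_delimit (l m : List Bool) : und (delimit l ++ m) = (l, m) := by
  have k1 : ∀ (l c : List Bool), (delimit l).foldl ustep (false, false, c, []) =
      (false, true, l.reverse ++ c, []) := by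
    intro l
    induction l with
    | nil => intro c; rfl
    | cons b l ih =>
      intro c
      show (delimit l).foldl ustep (ustep (ustep (false, false, c, []) true) b) = _
      have : ustep (ustep (false, false, c, []) true) b = (false, false, b :: c, []) := rfl
      rw [this, ih]
      simp
  have k2 : ∀ (m c d : List Bool), m.foldl ustep (false, true, c, d) =
      (false, true, c, m.reverse ++ d) := by
    intro m
    induction m with
    | nil => intro c d; rfl
    | cons b m ih =>
      intro c d
      show m.foldl ustep (ustep (false, true, c, d) b) = _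
      have : ustep (false, true, c, d) b = (false, true, c, b :: d) := rfl
      rw [this, ih]
      simp
  unfold und
  rw [List.foldl_append, k1, k2]
  simp

/-- a token given by two strings -/
abbrev Pr := List Bool × List Bool

def encP (t : Pr) : List Bool := delimit t.1 ++ t.2

def encPs (T : List Pr) : List Bool := T.flatMap (fun t => delimit (encP t))

def decPs (s : List Bool) : List Pr := (blocks s).map und

theorem decPs_encPs (T : List Pr) : decPs (encPs T) = T := by
  unfold decPs encPs
  have : T.flatMap (fun t => delimit (encP t)) = (T.map encP).flatMap delimit := by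
    rw [List.flatMap_map]
  rw [this, blocks_encode, List.map_map]
  have : und ∘ encP = id := by funext t; exact und_delimit _ _
  rw [this, List.map_id]

/-- the strings of a token -/
def strs (t : ℕ × ℕ) : Pr := (Computability.encodeNat t.1, Computability.encodeNat t.2)

theorem encPs_strs (s : List (ℕ × ℕ)) : encPs (s.map strs) = bitEncode s := by
  show _ = ((s.map bitEncode).map delimit).flatten
  unfold encPs
  rw [List.flatMap_map, List.map_map, ← List.flatMap_def]
  rfl

/-- the string is the code of a list of pairs of numbers -/
def validS (s : List Bool) : Bool :=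
  decide (encPs (decPs s) = s) && (decPs s).all (fun t => canon t.1 && canon t.2)

/-- the tokens of a string -/
def toksS (s : List Bool) : List Tok := (decPs s).map (fun t => (toBN t.1, toBN t.2))

theorem validS_iff (s : List Bool) : validS s = true ↔ ∃ m : List (ℕ × ℕ), s = bitEncode m := by
  unfold validS
  rw [Bool.and_eq_true, decide_eq_true_iff, List.all_eq_true]
  constructor
  · rintro ⟨h1, h2⟩
    have h3 : ∀ U : List Pr, (∀ t ∈ U, (canon t.1 && canon t.2) = true) →
        ∃ m : List (ℕ × ℕ), m.map strs = U := by
      intro U
      induction U with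
      | nil => intro _; exact ⟨[], rfl⟩
      | cons u U ih =>
        intro hU
        obtain ⟨m, hm⟩ := ih (fun v hv => hU v (List.mem_cons_of_mem _ hv))
        have hu := hU u List.mem_cons_self
        rw [Bool.and_eq_true] at hu
        obtain ⟨a, ha⟩ := exists_nat_of_canon _ hu.1
        obtain ⟨b, hb⟩ := exists_nat_of_canon _ hu.2
        refine ⟨(a, b) :: m, ?_⟩
        rw [List.map_cons, hm]
        congr 1
        unfold strs
        rw [ha, hb]
    obtain ⟨m, hm⟩ := h3 _ h2
    refine ⟨m, ?_⟩
    rw [← encPs_strs, hm, h1]
  · rintro ⟨m, rfl⟩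
    rw [← encPs_strs, decPs_encPs]
    refine ⟨rfl, ?_⟩
    intro t ht
    rw [List.mem_map] at ht
    obtain ⟨u, _, rfl⟩ := ht
    rw [Bool.and_eq_true]
    exact ⟨canon_encodeNat _, canon_encodeNat _⟩

theorem toBN_encodeNat (n : ℕ) : toBN (Computability.encodeNat n) = ⟨n⟩ := by
  unfold toBN
  rw [if_pos (canon_encodeNat n), Computability.decode_encodeNat]

theorem toksS_bitEncode (m : List (ℕ × ℕ)) : toksS (bitEncode m) = m.map tk := by
  unfold toksS
  rw [← encPs_strs, decPs_encPs, List.map_map]
  apply List.map_congr_left
  intro t _
  simp only [Function.comp, strs, toBN_encodeNat]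
  rfl

theorem bitEncode_inj {m m' : List (ℕ × ℕ)} (h : bitEncode m = bitEncode m') : m = m' := by
  rw [← encPs_strs, ← encPs_strs] at h
  have := congrArg decPs h
  rw [decPs_encPs, decPs_encPs] at this
  have hinj : Function.Injective strs := by
    intro a b hab
    unfold strs at hab
    rw [Prod.mk.injEq] at hab
    have h1 := congrArg Computability.decodeNat hab.1
    have h2 := congrArg Computability.decodeNat hab.2
    rw [Computability.decode_encodeNat, Computability.decode_encodeNat] at h1 h2
    exact Prod.ext h1 h2
  exact List.map_injective_iff.mpr hinj this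

/-! ### polynomial time -/

section PTs

variable {α : Type} [En α]

theorem PT_delimit {l : α → List Bool} (hl : PT l) : PT (fun a => delimit (l a)) := by
  have h1 : PT (fun p : α × Bool => [true, p.2]) := by fun_prop
  have : PT (fun a => (l a).flatMap (fun b => [true, b]) ++ [false]) :=
    PT.append (PT.flatMap hl h1) (PT.const _)
  exact this.of_eq (fun a => delimit_eq _)

theorem PT_encPs {T : α → List Pr} (hT : PT T) : PT (fun a => encPs (T a)) := by
  have h1 : PT (fun p : α × Pr => delimit (encP p.2)) :=
    PT_delimit (PT.append (PT_delimit (PT.fst (PT.snd PT.id'))) (PT.snd (PT.snd PT.id')))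
  exact PT.flatMap hT h1

theorem PT_blocks {s : α → List Bool} (hs : PT s) : PT (fun a => blocks (s a)) := by
  have h1 : PT (fun a => (s a).foldl bstep (false, [], [])) := by
    apply PT.foldl_add (g := fun _ => bstep) hs (PT.const _)
    · have : PT (fun p : α × BSt × Bool =>
          (bif p.2.1.1 then (false, p.2.2 :: p.2.1.2.1, p.2.1.2.2)
            else bif p.2.2 then (true, p.2.1.2.1, p.2.1.2.2)
              else (false, [], p.2.1.2.1 :: p.2.1.2.2) : BSt)) := by fun_prop
      exact this
    · refine ⟨fun _ => 10, PB.const 10, ?_⟩
      rintro a ⟨c, cur, done⟩ b _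
      cases c <;> cases b <;>
        simp only [bstep, cond_true, cond_false, sz_pair, sz_bool, sz_cons, sz_nil] <;> omega
  have h2 : PT (fun p : α × List Bool => p.2.reverse) := PT.reverse (PT.snd PT.id')
  exact PT.reverse (PT.map (PT.snd (PT.snd h1)) h2)

theorem PT_und {s : α → List Bool} (hs : PT s) : PT (fun a => und (s a)) := by
  have h1 : PT (fun a => (s a).foldl ustep (false, false, [], [])) := by
    apply PT.foldl_add (g := fun _ => ustep) hs (PT.const _)
    · have : PT (fun p : α × USt × Bool =>
          (bif p.2.1.2.1 then (p.2.1.1, p.2.1.2.1, p.2.1.2.2.1, p.2.2 :: p.2.1.2.2.2)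
            else bif p.2.1.1 then (false, false, p.2.2 :: p.2.1.2.2.1, p.2.1.2.2.2)
              else bif p.2.2 then (true, false, p.2.1.2.2.1, p.2.1.2.2.2)
                else (false, true, p.2.1.2.2.1, p.2.1.2.2.2) : USt)) := by fun_prop
      exact this
    · refine ⟨fun _ => 10, PB.const 10, ?_⟩
      rintro a ⟨c, e, cur, rest⟩ b _
      cases c <;> cases e <;> cases b <;>
        simp only [ustep, cond_true, cond_false, sz_pair, sz_bool, sz_cons, sz_nil] <;> omega
  exact PT.pair (PT.reverse (PT.fst (PT.snd (PT.snd h1)))) (PT.reverse (PT.snd (PT.snd (PT.snd h1))))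

theorem PT_decPs {s : α → List Bool} (hs : PT s) : PT (fun a => decPs (s a)) := by
  have h1 : PT (fun p : α × List Bool => und p.2) := PT_und (PT.snd PT.id')
  exact PT.map (PT_blocks hs) h1

theorem PT_canon {l : α → List Bool} (hl : PT l) : PT (fun a => canon (l a)) := by
  unfold canon
  exact PT.lcase (PT.reverse hl) (PT.const _) (PT.fst (PT.snd PT.id'))

theorem PT_toBN {l : α → List Bool} (hl : PT l) : PT (fun a => toBN (l a)) := by
  have : PT (fun a => (⟨bif canon (l a) then l a else []⟩ : Raw)) :=
    PT.toRaw (PT.cond (PT_canon hl) hl (PT.const []))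
  refine CT.congr this (fun _ => rfl) (fun a => ?_)
  exact enc_toBN (l a)

theorem PT_validS : PT validS := by
  unfold validS
  have hd : PT (fun s : List Bool => decPs s) := PT_decPs PT.id'
  apply PT.and
  · exact PT.eq (PT_encPs hd) PT.id'
  · apply PT.all hd
    exact PT.and (PT_canon (PT.fst (PT.snd PT.id'))) (PT_canon (PT.snd (PT.snd PT.id')))

theorem PT_toksS : PT toksS := by
  unfold toksS
  apply PT.map (PT_decPs PT.id')
  exact PT.pair (PT_toBN (PT.fst (PT.snd PT.id'))) (PT_toBN (PT.snd (PT.snd PT.id')))

end PTs

theorem enc_bits (l : List Bool) : (enc l : List Bool) = bitEncode l := rfl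

/-- the satisfiable formulas are recognised in polynomial time -/
theorem sat_mem_P {B : List BFun} (hB : ∀ f ∈ B, IsAffine f) (tot : Bool) :
    (fun s => validS s && alg tot (tabB B) (toksS s)) ∈ P := by
  show IsPolyTime _
  apply OfTM2.tm2_of_CT
  have h : PT (fun s : List Bool => validS s && alg tot (tabB B) (toksS s)) :=
    PT.and PT_validS (PT.alg tot (tabB B) PT_toksS)
  exact h.congr (fun _ => rfl) (fun _ => rfl)

theorem sat_lang {B : List BFun} (hB : ∀ f ∈ B, IsAffine f) (tot : Bool) (s : List Bool) :
    (validS s && alg tot (tabB B) (toksS s)) = true ↔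
      ∃ φ : Fm B, s = bitEncode (code φ) ∧ Sat tot φ := by
  rw [Bool.and_eq_true, validS_iff]
  constructor
  · rintro ⟨⟨m, rfl⟩, h⟩
    rw [toksS_bitEncode, alg_iff hB] at h
    obtain ⟨φ, h1, h2⟩ := h
    exact ⟨φ, by rw [h1], h2⟩
  · rintro ⟨φ, rfl, h2⟩
    refine ⟨⟨_, rfl⟩, ?_⟩
    rw [toksS_bitEncode, alg_iff hB]
    exact ⟨φ, rfl, h2⟩

end Pool.Agent.Lib.MP_bba6cc_lc
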