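import Pool.Agent.Lib.MP_bba6cc_lc.Hard
import Pool.Agent.Lib.MP_bba6cc_lc.Bits
import Pool.Prelude.Def_F_458e953d

/-!
# The reduction of TQBF to hybrid satisfiability runs in polynomial time
-/

namespace Pool.Agent.Lib.MP_bba6cc_lc

open Pool.Agent Pool.Agent.MSR Pool.Agent.MSR.En N487b59b3 N68a2faeb N793a5b8e

/-! ### binary expansions -/

theorem encodeNat_odd (n : ℕ) :
    Computability.encodeNat (2 * n + 1) = true :: Computability.encodeNat n := by
  unfold Computability.encodeNat
  cases h : (n : Num) with
  | zero =>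
    have h0 : n = 0 := by
      have := congrArg (fun m : Num => (m : ℕ)) h
      simpa using this
    subst h0
    rfl
  | pos p =>
    have hp : n = (p : ℕ) := by
      have := congrArg (fun m : Num => (m : ℕ)) h
      simpa using this
    have e : 2 * n + 1 = ((PosNum.bit1 p : PosNum) : ℕ) := by
      rw [hp, PosNum.cast_bit1]
      ring
    rw [e, PosNum.of_to_nat]
    rfl

theorem encodeNat_even {n : ℕ} (hn : n ≠ 0) :
    Computability.encodeNat (2 * n) = false :: Computability.encodeNat n := by
  unfold Computability.encodeNat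
  cases h : (n : Num) with
  | zero =>
    have h0 : n = 0 := by
      have := congrArg (fun m : Num => (m : ℕ)) h
      simpa using this
    exact absurd h0 hn
  | pos p =>
    have hp : n = (p : ℕ) := by
      have := congrArg (fun m : Num => (m : ℕ)) h
      simpa using this
    have e : 2 * n = ((PosNum.bit0 p : PosNum) : ℕ) := by
      rw [hp, PosNum.cast_bit0]
      ring
    rw [e, PosNum.of_to_nat]
    rfl

/-- `2 n + 1` -/
def od (x : BN) : BN := ⟨2 * x.val + 1⟩

section

variable {α : Type} [En α]

theorem enc_od (x : BN) : (enc (od x) : List Bool) = true :: enc x := encodeNat_odd _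

theorem PT.od {f : α → BN} (hf : PT f) : PT (fun a => od (f a)) := by
  have h1 : PT (fun a => (⟨enc (f a)⟩ : Raw)) := PT.rawEnc hf
  have h2 : PT (fun a => (⟨true :: (⟨enc (f a)⟩ : Raw).str⟩ : Raw)) := PT.rcons (PT.const true) h1
  exact CT.congr h2 (fun _ => rfl) (fun a => enc_od (f a))

theorem sz_od (x : BN) : sz (od x) = sz x + 1 := by
  show (enc (od x) : List Bool).length = (enc x : List Bool).length + 1
  rw [enc_od]
  rfl

end

/-! ### words of templates -/

variable {B : List BFun} (K : Conn B)

def tks (s : List (ℕ × ℕ)) : List Tok := s.map tk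

theorem tks_append (s t : List (ℕ × ℕ)) : tks (s ++ t) = tks s ++ tks t := List.map_append

/-- word of a template -/
def wrT : Tp → (ℕ → List Tok) → List Tok
  | .hole k, σ => σ k
  | .xr a b, σ => tks K.p ++ (wrT a σ ++ (tks K.m ++ (wrT b σ ++ tks K.q)))
  | .top, _ => tks (code K.T)
  | .v n, _ => [tk (2, n)]
  | .dia a, σ => tk (4, 0) :: wrT a σ
  | .down n a, σ => tk (6, n) :: wrT a σ

theorem wrT_fill (t : Tp) (σ : ℕ → Fm B) :
    tks (code (fill K t σ)) = wrT K t (fun k => tks (code (σ k))) := by
  induction t with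
  | hole k => rfl
  | xr a b iha ihb =>
    simp only [fill, wrT]
    rw [K.code_X, tks_append, tks_append, tks_append, tks_append, iha, ihb]
  | top => rfl
  | v n => rfl
  | dia a iha =>
    simp only [fill, wrT, ← iha]
    rfl
  | down n a iha =>
    simp only [fill, wrT, ← iha]
    rfl

/-- size of the fixed part -/
def baseT : Tp → ℕ
  | .hole _ => 0
  | .xr a b => sz (tks K.p) + (baseT a + (sz (tks K.m) + (baseT b + sz (tks K.q))))
  | .top => sz (tks (code K.T))
  | .v n => sz [tk (2, n)]
  | .dia a => sz [tk (4, 0)] + baseT a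
  | .down n a => sz [tk (6, n)] + baseT a

def holesT : Tp → List ℕ
  | .hole k => [k]
  | .xr a b => holesT a ++ holesT b
  | .top => []
  | .v _ => []
  | .dia a => holesT a
  | .down _ a => holesT a

theorem sz_wrT (t : Tp) (σ : ℕ → List Tok) :
    sz (wrT K t σ) = baseT K t + ((holesT t).map fun k => sz (σ k)).sum := by
  induction t with
  | hole k => simp [wrT, baseT, holesT]
  | xr a b iha ihb =>
    simp only [wrT, baseT, holesT, sz_append, iha, ihb, List.map_append, List.sum_append]
    omega
  | top => simp [wrT, baseT, holesT]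
  | v n => simp [wrT, baseT, holesT]
  | dia a iha =>
    have : wrT K (.dia a) σ = [tk (4, 0)] ++ wrT K a σ := rfl
    rw [this, sz_append, iha]
    simp only [baseT, holesT]
    omega
  | down n a iha =>
    have : wrT K (.down n a) σ = [tk (6, n)] ++ wrT K a σ := rfl
    rw [this, sz_append, iha]
    simp only [baseT, holesT]
    omega

theorem PT_wrT {α : Type} [En α] (t : Tp) {σ : α → ℕ → List Tok} (h : ∀ k, PT (fun a => σ a k)) :
    PT (fun a => wrT K t (σ a)) := by
  induction t with
  | hole k => exact h k
  | xr a b iha ihb =>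
    exact PT.append (PT.const _) (PT.append iha (PT.append (PT.const _)
      (PT.append ihb (PT.const _))))
  | top => exact PT.const _
  | v n => exact PT.const _
  | dia a iha => exact PT.cons (PT.const _) iha
  | down n a iha => exact PT.cons (PT.const _) iha

/-! ### the machine -/

/-- two words -/
def twoL (a b : List Tok) (k : ℕ) : List Tok := if k = 0 then a else b

abbrev HSt := List (List Tok) × Bool

/-- one symbol, from right to left -/
def hstep (st : HSt) (t : Tok) : HSt :=
  if t.1 = ⟨0⟩ then (wrT K varT (fun _ => [(⟨2⟩, od t.2)]) :: st.1, st.2)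
  else if t = (⟨1⟩, ⟨0⟩) then (tks (code K.T) :: st.1, st.2)
  else if t = (⟨2⟩, ⟨0⟩) then MSR.lcase st.1 ([], false)
    (fun a r => MSR.lcase r ([], false) (fun b r' => (wrT K andT (twoL a b) :: r', st.2)))
  else if t = (⟨3⟩, ⟨0⟩) then MSR.lcase st.1 ([], false)
    (fun a r => MSR.lcase r ([], false) (fun b r' => (wrT K xorT (twoL a b) :: r', st.2)))
  else if t.1 = ⟨4⟩ then MSR.lcase st.1 ([], false)
    (fun a r => (((⟨4⟩, ⟨0⟩) :: (⟨6⟩, od t.2) :: a) :: r, st.2))
  else ([], false)

def hrun (s : List Tok) : HSt := s.reverse.foldl (hstep K) ([], true)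

/-- the word of the translation -/
def wd (a : QF) : List Tok := tks (code (tau2 K a))

theorem wd_and (a b : QF) : wd K (.and a b) = wrT K andT (twoL (wd K a) (wd K b)) := by
  unfold wd
  simp only [tau2]
  rw [wrT_fill]
  congr 1
  funext k
  unfold two twoL
  split_ifs <;> rfl

theorem wd_xor (a b : QF) : wd K (.xor a b) = wrT K xorT (twoL (wd K a) (wd K b)) := by
  unfold wd
  simp only [tau2]
  rw [wrT_fill]
  congr 1
  funext k
  unfold two twoL
  split_ifs <;> rfl

theorem wd_var (n : ℕ) : wd K (.var n) = wrT K varT (fun _ => [(⟨2⟩, od ⟨n⟩)]) := by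
  unfold wd
  simp only [tau2]
  rw [wrT_fill]
  rfl

theorem wd_ex (n : ℕ) (a : QF) : wd K (.ex n a) = (⟨4⟩, ⟨0⟩) :: (⟨6⟩, od ⟨n⟩) :: wd K a := rfl

/-- right to left -/
def hfold (s : List Tok) (st : HSt) : HSt := s.foldr (fun t st => hstep K st t) st

theorem hfold_code (a : QF) : ∀ stk : List (List Tok), ∀ o : Bool,
    hfold K (tks a.code) (stk, o) = (wd K a :: stk, o) := by
  induction a with
  | var n =>
    intro stk o
    rw [wd_var]
    rfl
  | one =>
    intro stk o
    rfl
  | and a b iha ihb =>
    intro stk o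
    have h1 : tks (QF.and a b).code = tk (2, 0) :: (tks a.code ++ tks b.code) := by
      simp [tks, QF.code]
    rw [h1]
    show hstep K (hfold K (tks a.code ++ tks b.code) (stk, o)) (tk (2, 0)) = _
    have h2 : hfold K (tks a.code ++ tks b.code) (stk, o) =
        hfold K (tks a.code) (hfold K (tks b.code) (stk, o)) := by
      unfold hfold
      rw [List.foldr_append]
    rw [h2, ihb, iha, wd_and]
    simp [hstep, tk, MSR.lcase]
  | xor a b iha ihb =>
    intro stk o
    have h1 : tks (QF.xor a b).code = tk (3, 0) :: (tks a.code ++ tks b.code) := by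
      simp [tks, QF.code]
    rw [h1]
    show hstep K (hfold K (tks a.code ++ tks b.code) (stk, o)) (tk (3, 0)) = _
    have h2 : hfold K (tks a.code ++ tks b.code) (stk, o) =
        hfold K (tks a.code) (hfold K (tks b.code) (stk, o)) := by
      unfold hfold
      rw [List.foldr_append]
    rw [h2, ihb, iha, wd_xor]
    simp [hstep, tk, MSR.lcase]
  | ex n a iha =>
    intro stk o
    have h1 : tks (QF.ex n a).code = tk (4, n) :: tks a.code := rfl
    rw [h1]
    show hstep K (hfold K (tks a.code) (stk, o)) (tk (4, n)) = _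
    rw [iha, wd_ex]
    simp [hstep, tk, MSR.lcase]

theorem hfold_false (s : List Tok) : ∀ st : HSt, st.2 = false → (hfold K s st).2 = false := by
  have hs : ∀ (st : HSt) (t : Tok), st.2 = false → (hstep K st t).2 = false := by
    rintro ⟨stk, o⟩ t h
    simp only at h
    subst h
    unfold hstep
    split_ifs
    · rfl
    · rfl
    · rcases stk with _ | ⟨a, _ | ⟨b, r⟩⟩ <;> rfl
    · rcases stk with _ | ⟨a, _ | ⟨b, r⟩⟩ <;> rfl
    · rcases stk with _ | ⟨a, r⟩ <;> rfl
    · rfl
  induction s with
  | nil => intro st h; exact h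
  | cons t s ih =>
    intro st h
    exact hs _ t (ih st h)

/-- an accepted word is a sequence of codes -/
theorem hfold_inv (s : List (ℕ × ℕ)) : ∀ stk, hfold K (tks s) ([], true) = (stk, true) →
    ∃ as : List QF, s = as.flatMap QF.code ∧ stk = as.map (wd K) := by
  induction s with
  | nil =>
    intro stk h
    refine ⟨[], rfl, ?_⟩
    have : (([], true) : HSt) = (stk, true) := h
    exact (Prod.mk.inj this).1.symm
  | cons t s ih =>
    intro stk h
    obtain ⟨a, b⟩ := t
    change hstep K (hfold K (tks s) ([], true)) (tk (a, b)) = (stk, true) at h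
    rcases hst : hfold K (tks s) ([], true) with ⟨stk1, o1⟩
    rw [hst] at h
    have ho : o1 = true := by
      by_contra ho
      rw [Bool.not_eq_true] at ho
      subst ho
      have h1 := hfold_false K [tk (a, b)] (stk1, false) rfl
      change (hstep K (stk1, false) (tk (a, b))).2 = false at h1
      rw [h] at h1
      exact absurd h1 (by simp)
    subst ho
    obtain ⟨as, hs, hk⟩ := ih stk1 hst
    subst hk
    unfold hstep at h
    simp only [tk, BN.mk.injEq, Prod.mk.injEq] at h
    split_ifs at h with h1 h2 h3 h4 h5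
    · subst h1
      refine ⟨.var b :: as, ?_, ?_⟩
      · simp [QF.code, hs]
      · rw [Prod.mk.injEq] at h
        rw [← h.1, List.map_cons, wd_var]
    · obtain ⟨rfl, rfl⟩ := h2
      refine ⟨.one :: as, ?_, ?_⟩
      · simp [QF.code, hs]
      · rw [Prod.mk.injEq] at h
        rw [← h.1]
        rfl
    · obtain ⟨rfl, rfl⟩ := h3
      rcases as with _ | ⟨a, _ | ⟨b, r⟩⟩
      · simp [MSR.lcase] at h
      · simp [MSR.lcase] at h
      · refine ⟨.and a b :: r, ?_, ?_⟩
        · simp [QF.code, hs]
        · simp only [List.map_cons, MSR.lcase, Prod.mk.injEq] at h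
          rw [← h.1, List.map_cons, wd_and]
    · obtain ⟨rfl, rfl⟩ := h4
      rcases as with _ | ⟨a, _ | ⟨b, r⟩⟩
      · simp [MSR.lcase] at h
      · simp [MSR.lcase] at h
      · refine ⟨.xor a b :: r, ?_, ?_⟩
        · simp [QF.code, hs]
        · simp only [List.map_cons, MSR.lcase, Prod.mk.injEq] at h
          rw [← h.1, List.map_cons, wd_xor]
    · subst h5
      rcases as with _ | ⟨a, r⟩
      · simp [MSR.lcase] at h
      · refine ⟨.ex b a :: r, ?_, ?_⟩
        · simp [QF.code, hs]
        · simp only [List.map_cons, MSR.lcase, Prod.mk.injEq] at h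
          rw [← h.1, List.map_cons, wd_ex]
    · simp at h

theorem hrun_eq (s : List Tok) : hrun K s = hfold K s ([], true) := by
  unfold hrun hfold
  rw [List.foldl_reverse]

/-- the output word, empty if the input is not the word of a formula -/
def hout (f : List Tok → List Tok) (st : HSt) : List Tok :=
  MSR.lcase st.1 [] (fun w r => bif (st.2 && r.isEmpty) then f w else [])

theorem hout_spec (f : List Tok → List Tok) (s : List (ℕ × ℕ)) :
    (∃ a : QF, s = a.code ∧ hout f (hrun K (tks s)) = f (wd K a)) ∨
      ((¬ ∃ a : QF, s = a.code) ∧ hout f (hrun K (tks s)) = []) := by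
  by_cases h : ∃ a : QF, s = a.code
  · obtain ⟨a, rfl⟩ := h
    left
    refine ⟨a, rfl, ?_⟩
    rw [hrun_eq, hfold_code]
    simp [hout, MSR.lcase]
  · right
    refine ⟨h, ?_⟩
    rcases hst : hrun K (tks s) with ⟨stk, o⟩
    rcases stk with _ | ⟨w, r⟩
    · rfl
    · by_cases hr : o = true ∧ r = []
      · obtain ⟨rfl, rfl⟩ := hr
        rw [hrun_eq] at hst
        obtain ⟨as, hs, hk⟩ := hfold_inv K s _ hst
        exfalso
        obtain ⟨a, ha⟩ : ∃ a, as = [a] := by
          rcases as with _ | ⟨a, _ | ⟨b, r⟩⟩
          · simp at hk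
          · exact ⟨a, rfl⟩
          · simp at hk
        subst ha
        exact h ⟨a, by simpa using hs⟩
      · have : (o && r.isEmpty) = false := by
          rcases o with _ | _
          · rfl
          · cases r with
            | nil => exact absurd ⟨rfl, rfl⟩ hr
            | cons _ _ => rfl
        simp [hout, MSR.lcase, this]

/-! ### polynomial time -/

section

variable {α : Type} [En α]

theorem PT_hstep : PT (fun p : α × HSt × Tok => hstep K p.2.1 p.2.2) := by
  have hst : PT (fun p : α × HSt × Tok => p.2.1) := PT.fst (PT.snd PT.id')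
  have ht : PT (fun p : α × HSt × Tok => p.2.2) := PT.snd (PT.snd PT.id')
  unfold hstep
  have hT : ∀ t : Tok, PT (fun p : α × HSt × Tok => decide (p.2.2 = t)) :=
    fun t => PT.eq ht (PT.const t)
  apply PT.ite (PT.eq (PT.fst ht) (PT.const _))
  · apply PT.pair _ (PT.snd hst)
    apply PT.cons _ (PT.fst hst)
    exact PT_wrT K varT fun _ => PT.cons (PT.pair (PT.const _) (PT.od (PT.snd ht))) (PT.const _)
  apply PT.ite (hT _)
  · exact PT.pair (PT.cons (PT.const _) (PT.fst hst)) (PT.snd hst)
  apply PT.ite (hT _)
  · apply PT.lcase (PT.fst hst) (PT.const _)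
    apply PT.lcase (PT.snd (PT.snd PT.id')) (PT.const _)
    apply PT.pair _ (PT.snd (hst.comp (PT.fst (PT.fst PT.id'))))
    apply PT.cons _ (PT.snd (PT.snd PT.id'))
    apply PT_wrT K andT
    intro k
    unfold twoL
    by_cases hk : k = 0
    · simp only [hk, if_true]
      exact PT.fst (PT.snd (PT.fst PT.id'))
    · simp only [hk, if_false]
      exact PT.fst (PT.snd PT.id')
  apply PT.ite (hT _)
  · apply PT.lcase (PT.fst hst) (PT.const _)
    apply PT.lcase (PT.snd (PT.snd PT.id')) (PT.const _)
    apply PT.pair _ (PT.snd (hst.comp (PT.fst (PT.fst PT.id'))))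
    apply PT.cons _ (PT.snd (PT.snd PT.id'))
    apply PT_wrT K xorT
    intro k
    unfold twoL
    by_cases hk : k = 0
    · simp only [hk, if_true]
      exact PT.fst (PT.snd (PT.fst PT.id'))
    · simp only [hk, if_false]
      exact PT.fst (PT.snd PT.id')
  apply PT.ite (PT.eq (PT.fst ht) (PT.const _))
  · apply PT.lcase (PT.fst hst) (PT.const _)
    apply PT.pair _ (PT.snd (hst.comp (PT.fst PT.id')))
    apply PT.cons _ (PT.snd (PT.snd PT.id'))
    apply PT.cons (PT.const _)
    apply PT.cons _ (PT.fst (PT.snd PT.id'))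
    exact PT.pair (PT.const _) (PT.od (PT.snd (ht.comp (PT.fst PT.id'))))
  exact PT.const _

theorem sz_mem {β : Type} [En β] {l : List β} {x : β} (h : x ∈ l) : sz x ≤ sz l := by
  induction l with
  | nil => simp at h
  | cons y l ih =>
    rw [sz_cons]
    rcases List.mem_cons.mp h with rfl | h
    · omega
    · have := ih h; omega

theorem sz_hstep (st : HSt) (t : Tok) : sz (hstep K st t) ≤ sz st +
    (8 * (baseT K varT + baseT K andT + baseT K xorT + sz (tks (code K.T))) + 100 * sz t + 1000) := by
  obtain ⟨stk, o⟩ := st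
  have e2 : sz (⟨2⟩ : BN) = 2 := rfl
  have e4 : sz (⟨4⟩ : BN) = 3 := rfl
  have e6 : sz (⟨6⟩ : BN) = 3 := rfl
  have e0 : sz (⟨0⟩ : BN) = 0 := rfl
  have et : sz t.2 ≤ sz t := by
    have : sz t = 2 * sz t.1 + 1 + sz t.2 := sz_pair t.1 t.2
    omega
  unfold hstep
  split_ifs
  · have h1 := sz_wrT K varT (fun _ => [(⟨2⟩, od t.2)])
    simp only [holesT, varT, List.map_cons, List.map_nil, List.append_nil,
      List.sum_cons, List.sum_nil, sz_cons, sz_nil, sz_pair, sz_od, e2] at h1
    simp only [varT, sz_pair, sz_cons, h1]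
    omega
  · simp only [sz_pair, sz_cons]
    omega
  · rcases stk with _ | ⟨a, _ | ⟨b, r⟩⟩
    · simp only [MSR.lcase, sz_pair, sz_nil, sz_bool]; omega
    · simp only [MSR.lcase, sz_pair, sz_nil, sz_bool, sz_cons]; omega
    · have h1 := sz_wrT K andT (twoL a b)
      have e : ((holesT andT).map fun k => sz (twoL a b k)).sum = sz a + (sz b + 0) := rfl
      rw [e] at h1
      simp only [MSR.lcase, sz_pair, sz_cons, h1]
      omega
  · rcases stk with _ | ⟨a, _ | ⟨b, r⟩⟩
    · simp only [MSR.lcase, sz_pair, sz_nil, sz_bool]; omega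
    · simp only [MSR.lcase, sz_pair, sz_nil, sz_bool, sz_cons]; omega
    · have h1 := sz_wrT K xorT (twoL a b)
      have e : ((holesT xorT).map fun k => sz (twoL a b k)).sum = sz a + (sz b + 0) := rfl
      rw [e] at h1
      simp only [MSR.lcase, sz_pair, sz_cons, h1]
      omega
  · rcases stk with _ | ⟨a, r⟩
    · simp only [MSR.lcase, sz_pair, sz_nil, sz_bool]; omega
    · simp only [MSR.lcase, sz_pair, sz_cons, sz_od, e4, e6, e0]
      omega
  · simp only [sz_pair, sz_nil, sz_bool]
    omega

theorem PT_hrun {s : α → List Tok} (hs : PT s) : PT (fun a => hrun K (s a)) := by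
  unfold hrun
  apply PT.foldl_add (g := fun _ => hstep K) (PT.reverse hs) (PT.const _) (PT_hstep K)
  obtain ⟨d, hd⟩ := hs.bound
  obtain ⟨c, hc⟩ : ∃ c, 8 * (baseT K varT + baseT K andT + baseT K xorT +
    sz (tks (code K.T))) + 1000 = c := ⟨_, rfl⟩
  refine ⟨fun n => c + 100 * (n + 2) ^ d, ?_, ?_⟩
  · exact (PB.const c).add ((PB.const 100).mul ((PB.id.add (PB.const 2)).pow d))
  · intro a st t htm
    have ht : sz t ≤ (sz a + 2) ^ d := (sz_mem (List.mem_reverse.mp htm)).trans (hd a)
    have := sz_hstep K st t
    show sz (hstep K st t) ≤ sz st + (c + 100 * (sz a + 2) ^ d)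
    omega

theorem PT_hout {f : List Tok → List Tok} (hf : PT (fun w : List Tok => f w)) {s : α → List Tok}
    (hs : PT s) : PT (fun a => hout f (hrun K (s a))) := by
  have hr : PT (fun a => hrun K (s a)) := PT_hrun K hs
  unfold hout
  apply PT.lcase (PT.fst hr) (PT.const _)
  apply PT.cond
  · exact PT.and (PT.snd (hr.comp (PT.fst PT.id'))) (PT.isEmpty (PT.snd (PT.snd PT.id')))
  · exact hf.comp (PT.fst (PT.snd PT.id'))
  · exact PT.const _

end

/-! ### the reduction -/

/-- the reduction for the template `t` -/
def hred (t : Tp) (s : List Bool) : List Bool :=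
  bif validS s then enc (hout (fun w => wrT K t (fun _ => w)) (hrun K (toksS s))) else enc ([] : List Tok)

theorem isPolyTime_hred (t : Tp) : IsPolyTime (hred K t) := by
  apply isPolyTime_of_PT
  unfold hred
  apply PT.cond PT_validS
  · apply PT.encString
    apply PT_hout K _ PT_toksS
    exact PT_wrT K t fun _ => PT.id'
  · exact PT.const _

theorem enc_tks (s : List (ℕ × ℕ)) : (enc (tks s) : List Bool) = bitEncode s := enc_map_tk s

theorem code_ne_nil (φ : Fm B) : code φ ≠ [] := by
  cases φ <;> simp [code]

open Classical in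
/-- the reduction is correct -/
theorem hred_spec (F : FrameClass) (t : Tp)
    (h : ∀ a : QF, SatIn F (fill K t (fun _ => tau2 K a)) ↔ ∃ ρ, a.eval ρ = true) (s : List Bool) :
    TQBF s = satProblem B F (hred K t s) := by
  have hnil : ¬ ∃ φ : Fm B, (enc ([] : List Tok) : List Bool) = bitEncode (code φ) ∧ SatIn F φ := by
    rintro ⟨φ, h1, _⟩
    have h2 : (enc ([] : List Tok) : List Bool) = bitEncode ([] : List (ℕ × ℕ)) :=
      enc_tks []
    rw [h2] at h1
    exact code_ne_nil φ (bitEncode_inj h1).symm
  unfold TQBF satProblem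
  rw [Bool.eq_iff_iff, decide_eq_true_iff, decide_eq_true_iff]
  by_cases hv : validS s = true
  · obtain ⟨m, rfl⟩ := (validS_iff s).mp hv
    have e : hred K t (bitEncode m) =
        enc (hout (fun w => wrT K t (fun _ => w)) (hrun K (tks m))) := by
      unfold hred
      rw [hv, toksS_bitEncode]
      rfl
    rw [e]
    rcases hout_spec K (fun w => wrT K t (fun _ => w)) m with ⟨a, rfl, h1⟩ | ⟨h1, h2⟩
    · rw [h1]
      have e2 : wrT K t (fun _ => wd K a) = tks (code (fill K t (fun _ => tau2 K a))) :=
        (wrT_fill K t _).symm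
      rw [e2, enc_tks]
      constructor
      · rintro ⟨b, hb, hρ⟩
        have hab : a.code = b.code := bitEncode_inj hb
        refine ⟨_, rfl, ?_⟩
        have h3 := hfold_code K a [] true
        have h4 := hfold_code K b [] true
        rw [hab, h4] at h3
        have h5 : wd K b = wd K a := by
          have := (Prod.mk.inj h3).1
          exact (List.cons.inj this).1
        have h6 : fill K t (fun _ => tau2 K b) = fill K t (fun _ => tau2 K a) := by
          apply code_injective
          have h7 : tks (code (fill K t (fun _ => tau2 K b))) =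
              tks (code (fill K t (fun _ => tau2 K a))) := by
            rw [wrT_fill, wrT_fill]
            show wrT K t (fun _ => wd K b) = wrT K t (fun _ => wd K a)
            rw [h5]
          have hinj : Function.Injective tk := by
            intro x y hxy
            simp only [tk, Prod.mk.injEq, BN.mk.injEq] at hxy
            exact Prod.ext hxy.1 hxy.2
          exact List.map_injective_iff.mpr hinj h7
        rw [← h6]
        exact (h b).mpr hρ
      · rintro ⟨φ, hφ, hs⟩
        have := code_injective (bitEncode_inj hφ)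
        refine ⟨a, rfl, (h a).mp ?_⟩
        rw [this]
        exact hs
    · rw [h2]
      constructor
      · rintro ⟨a, ha, _⟩
        exact absurd ⟨a, bitEncode_inj ha⟩ h1
      · intro h3
        exact absurd h3 hnil
  · have e : hred K t s = enc ([] : List Tok) := by
      unfold hred
      rw [Bool.not_eq_true] at hv
      rw [hv]
      rfl
    rw [e]
    constructor
    · rintro ⟨a, rfl, _⟩
      exact absurd ((validS_iff _).mpr ⟨_, rfl⟩) hv
    · intro h3
      exact absurd h3 hnil

theorem hard_er (hB : CloneIsAffine B) : ManyOneReducible TQBF (satProblem B .er) := by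
  obtain ⟨K⟩ := exists_conn hB
  exact ⟨hred K finE, isPolyTime_hred K finE, hred_spec K .er finE (sat_er K)⟩

theorem hard_trans (hB : CloneIsAffine B) : ManyOneReducible TQBF (satProblem B .trans) := by
  obtain ⟨K⟩ := exists_conn hB
  exact ⟨hred K finT, isPolyTime_hred K finT, hred_spec K .trans finT (sat_trans K)⟩

end Pool.Agent.Lib.MP_bba6cc_lc
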