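import Pool.Agent.Lib.MP_bba6cc_lc.ADefs
import Pool.Agent.Lib.MP_bba6cc_lc.HardPT

/-!
# Templates: formulas with holes, their words, sizes, polynomial time
-/

namespace Pool.Agent.Lib.MP_bba6cc_lc

open Pool.Agent Pool.Agent.MSR Pool.Agent.MSR.En N487b59b3 N68a2faeb N793a5b8e

/-- templates: formulas with holes, and with symbols whose name is made from the name `n` of the
translated symbol (`n` for `prpI`, `2 n + 1` for the constructors with `S`) -/
inductive Tpl (B : List BFun) : Type
  | hole (k : ℕ)
  | prpI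
  | nom (i : ℕ)
  | nomS
  | var (x : ℕ)
  | varS
  | app (i : Fin B.length) (args : Fin (B.get i).ar → Tpl B)
  | dia (t : Tpl B)
  | box (t : Tpl B)
  | down (x : ℕ) (t : Tpl B)
  | downS (t : Tpl B)
  | atN (i : ℕ) (t : Tpl B)
  | atNS (t : Tpl B)
  | atV (x : ℕ) (t : Tpl B)
  | atVS (t : Tpl B)

variable {B : List BFun}

/-- filling the holes -/
def fillA : Tpl B → ℕ → (ℕ → Fa B) → Fa B
  | .hole k, _, σ => σ k
  | .prpI, n, _ => .prp n
  | .nom i, _, _ => .nom i
  | .nomS, n, _ => .nom (2 * n + 1)
  | .var x, _, _ => .var x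
  | .varS, n, _ => .var (2 * n + 1)
  | .app i args, n, σ => .app i fun j => fillA (args j) n σ
  | .dia t, n, σ => .dia (fillA t n σ)
  | .box t, n, σ => .box (fillA t n σ)
  | .down x t, n, σ => .down x (fillA t n σ)
  | .downS t, n, σ => .down (2 * n + 1) (fillA t n σ)
  | .atN i t, n, σ => .atN i (fillA t n σ)
  | .atNS t, n, σ => .atN (2 * n + 1) (fillA t n σ)
  | .atV x t, n, σ => .atV x (fillA t n σ)
  | .atVS t, n, σ => .atV (2 * n + 1) (fillA t n σ)

/-- the word of a template -/
def wrd : Tpl B → BN → (ℕ → List Tok) → List Tok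
  | .hole k, _, σ => σ k
  | .prpI, n, _ => [(⟨0⟩, n)]
  | .nom i, _, _ => [tk (1, i)]
  | .nomS, n, _ => [(⟨1⟩, od n)]
  | .var x, _, _ => [tk (2, x)]
  | .varS, n, _ => [(⟨2⟩, od n)]
  | .app i args, n, σ => tk (3, i.val) :: (List.finRange _).flatMap fun j => wrd (args j) n σ
  | .dia t, n, σ => tk (4, 0) :: wrd t n σ
  | .box t, n, σ => tk (5, 0) :: wrd t n σ
  | .down x t, n, σ => tk (6, x) :: wrd t n σ
  | .downS t, n, σ => (⟨6⟩, od n) :: wrd t n σ
  | .atN i t, n, σ => tk (7, i) :: wrd t n σ
  | .atNS t, n, σ => (⟨7⟩, od n) :: wrd t n σ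
  | .atV x t, n, σ => tk (8, x) :: wrd t n σ
  | .atVS t, n, σ => (⟨8⟩, od n) :: wrd t n σ

theorem tks_flatMap {ι : Type} (L : List ι) (f : ι → List (ℕ × ℕ)) :
    tks (L.flatMap f) = L.flatMap fun j => tks (f j) := by
  unfold tks
  rw [List.map_flatMap]

theorem wrd_fill (t : Tpl B) (n : ℕ) (σ : ℕ → Fa B) :
    tks (codeA (fillA t n σ)) = wrd t ⟨n⟩ fun k => tks (codeA (σ k)) := by
  induction t with
  | app i args ih =>
    show tks ((3, i.val) :: (List.finRange _).flatMap fun j => codeA (fillA (args j) n σ)) = _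
    show tk (3, i.val) :: tks ((List.finRange _).flatMap fun j => codeA (fillA (args j) n σ)) = _
    rw [tks_flatMap]
    simp only [wrd]
    congr 1
    exact List.flatMap_congr fun j _ => ih j
  | dia t ih => simp only [fillA, wrd, ← ih]; rfl
  | box t ih => simp only [fillA, wrd, ← ih]; rfl
  | down x t ih => simp only [fillA, wrd, ← ih]; rfl
  | downS t ih => simp only [fillA, wrd, ← ih]; rfl
  | atN x t ih => simp only [fillA, wrd, ← ih]; rfl
  | atNS t ih => simp only [fillA, wrd, ← ih]; rfl
  | atV x t ih => simp only [fillA, wrd, ← ih]; rfl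
  | atVS t ih => simp only [fillA, wrd, ← ih]; rfl
  | _ => rfl

/-- the holes of a template -/
def holesA : Tpl B → List ℕ
  | .hole k => [k]
  | .app _ args => (List.finRange _).flatMap fun j => holesA (args j)
  | .dia t => holesA t
  | .box t => holesA t
  | .down _ t => holesA t
  | .downS t => holesA t
  | .atN _ t => holesA t
  | .atNS t => holesA t
  | .atV _ t => holesA t
  | .atVS t => holesA t
  | _ => []

theorem wrd_congr (t : Tpl B) (n : BN) {σ σ' : ℕ → List Tok} (h : ∀ k ∈ holesA t, σ k = σ' k) :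
    wrd t n σ = wrd t n σ' := by
  induction t with
  | hole k => exact h k (by simp [holesA])
  | app i args ih =>
    simp only [wrd]
    congr 1
    apply List.flatMap_congr
    intro j hj
    apply ih j
    intro k hk
    apply h
    simp only [holesA, List.mem_flatMap]
    exact ⟨j, hj, hk⟩
  | dia t ih => simp only [wrd, ih h]
  | box t ih => simp only [wrd, ih h]
  | down x t ih => simp only [wrd, ih h]
  | downS t ih => simp only [wrd, ih h]
  | atN x t ih => simp only [wrd, ih h]
  | atNS t ih => simp only [wrd, ih h]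
  | atV x t ih => simp only [wrd, ih h]
  | atVS t ih => simp only [wrd, ih h]
  | _ => rfl

theorem fillA_congr (t : Tpl B) (n : ℕ) {σ σ' : ℕ → Fa B} (h : ∀ k ∈ holesA t, σ k = σ' k) :
    fillA t n σ = fillA t n σ' := by
  induction t with
  | hole k => exact h k (by simp [holesA])
  | app i args ih =>
    simp only [fillA]
    congr 1
    funext j
    apply ih j
    intro k hk
    apply h
    simp only [holesA, List.mem_flatMap]
    exact ⟨j, List.mem_finRange j, hk⟩
  | dia t ih => simp only [fillA, ih h]
  | box t ih => simp only [fillA, ih h]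
  | down x t ih => simp only [fillA, ih h]
  | downS t ih => simp only [fillA, ih h]
  | atN x t ih => simp only [fillA, ih h]
  | atNS t ih => simp only [fillA, ih h]
  | atV x t ih => simp only [fillA, ih h]
  | atVS t ih => simp only [fillA, ih h]
  | _ => rfl

/-- the size of the fixed part -/
def baseA : Tpl B → ℕ
  | .hole _ => 0
  | .prpI => 100
  | .nom i => sz [tk (1, i)]
  | .nomS => 100
  | .var x => sz [tk (2, x)]
  | .varS => 100
  | .app i args => sz [tk (3, i.val)] + ((List.finRange _).map fun j => baseA (args j)).sum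
  | .dia t => sz [tk (4, 0)] + baseA t
  | .box t => sz [tk (5, 0)] + baseA t
  | .down x t => sz [tk (6, x)] + baseA t
  | .downS t => 100 + baseA t
  | .atN x t => sz [tk (7, x)] + baseA t
  | .atNS t => 100 + baseA t
  | .atV x t => sz [tk (8, x)] + baseA t
  | .atVS t => 100 + baseA t

theorem sz_cons1 (x : Tok) (l : List Tok) : sz (x :: l) = sz [x] + sz l := by
  rw [sz_cons, sz_cons, sz_nil]

theorem sz_name (k : ℕ) (hk : sz (⟨k⟩ : BN) ≤ 4) (n : BN) :
    sz [((⟨k⟩, od n) : Tok)] ≤ 100 * (sz n + 1) := by
  rw [sz_cons, sz_pair, sz_od, sz_nil]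
  omega

theorem sz_wrd (t : Tpl B) (n : BN) (σ : ℕ → List Tok) :
    sz (wrd t n σ) ≤ baseA t * (sz n + 1) + ((holesA t).map fun k => sz (σ k)).sum := by
  have c0 : sz (⟨0⟩ : BN) ≤ 4 := by decide
  have c1 : sz (⟨1⟩ : BN) ≤ 4 := by decide
  have c2 : sz (⟨2⟩ : BN) ≤ 4 := by decide
  have c6 : sz (⟨6⟩ : BN) ≤ 4 := by decide
  have c7 : sz (⟨7⟩ : BN) ≤ 4 := by decide
  have c8 : sz (⟨8⟩ : BN) ≤ 4 := by decide
  have one : ∀ x : ℕ, x ≤ x * (sz n + 1) := fun x => Nat.le_mul_of_pos_right x (by omega)
  induction t with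
  | hole k => simp [wrd, baseA, holesA]
  | prpI =>
    simp only [wrd, baseA, holesA, List.map_nil, List.sum_nil]
    rw [sz_cons, sz_pair, sz_nil]
    omega
  | nom i =>
    simp only [wrd, baseA, holesA, List.map_nil, List.sum_nil]
    exact one _
  | nomS =>
    simp only [wrd, baseA, holesA, List.map_nil, List.sum_nil]
    exact sz_name 1 c1 n
  | var x =>
    simp only [wrd, baseA, holesA, List.map_nil, List.sum_nil]
    exact one _
  | varS =>
    simp only [wrd, baseA, holesA, List.map_nil, List.sum_nil]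
    exact sz_name 2 c2 n
  | app i args ih =>
    simp only [wrd, baseA, holesA]
    rw [sz_cons1, add_mul]
    have h1 := one (sz [tk (3, i.val)])
    have h2 : ∀ L : List (Fin (B.get i).ar),
        sz (L.flatMap fun j => wrd (args j) n σ) ≤
          (L.map fun j => baseA (args j)).sum * (sz n + 1) +
            ((L.flatMap fun j => holesA (args j)).map fun k => sz (σ k)).sum := by
      intro L
      induction L with
      | nil => simp [sz_nil]
      | cons j L ihL =>
        rw [List.flatMap_cons, sz_append, List.map_cons, List.sum_cons, List.flatMap_cons,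
          List.map_append, List.sum_append, add_mul]
        have := ih j
        omega
    have := h2 (List.finRange _)
    omega
  | dia t ih =>
    simp only [wrd, baseA, holesA]
    rw [sz_cons1, add_mul]
    have h1 := one (sz [tk (4, 0)])
    omega
  | box t ih =>
    simp only [wrd, baseA, holesA]
    rw [sz_cons1, add_mul]
    have h1 := one (sz [tk (5, 0)])
    omega
  | down x t ih =>
    simp only [wrd, baseA, holesA]
    rw [sz_cons1, add_mul]
    have h1 := one (sz [tk (6, x)])
    omega
  | downS t ih =>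
    simp only [wrd, baseA, holesA]
    rw [sz_cons1, add_mul]
    have h1 := sz_name 6 c6 n
    omega
  | atN x t ih =>
    simp only [wrd, baseA, holesA]
    rw [sz_cons1, add_mul]
    have h1 := one (sz [tk (7, x)])
    omega
  | atNS t ih =>
    simp only [wrd, baseA, holesA]
    rw [sz_cons1, add_mul]
    have h1 := sz_name 7 c7 n
    omega
  | atV x t ih =>
    simp only [wrd, baseA, holesA]
    rw [sz_cons1, add_mul]
    have h1 := one (sz [tk (8, x)])
    omega
  | atVS t ih =>
    simp only [wrd, baseA, holesA]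
    rw [sz_cons1, add_mul]
    have h1 := sz_name 8 c8 n
    omega

theorem PT_wrd {α : Type} [En α] (t : Tpl B) {n : α → BN} {σ : α → ℕ → List Tok} (hn : PT n)
    (h : ∀ k, PT (fun a => σ a k)) : PT (fun a => wrd t (n a) (σ a)) := by
  have ho : PT (fun a => od (n a)) := PT.od hn
  induction t with
  | hole k => exact h k
  | prpI => exact PT.cons (PT.pair (PT.const _) hn) (PT.const _)
  | nom i => exact PT.const _
  | nomS => exact PT.cons (PT.pair (PT.const _) ho) (PT.const _)
  | var x => exact PT.const _
  | varS => exact PT.cons (PT.pair (PT.const _) ho) (PT.const _)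
  | app i args ih =>
    exact PT.cons (PT.const _)
      (PT.flatMap_const (List.finRange _) (fun j a => wrd (args j) (n a) (σ a)) fun j _ => ih j)
  | dia t ih => exact PT.cons (PT.const _) ih
  | box t ih => exact PT.cons (PT.const _) ih
  | down x t ih => exact PT.cons (PT.const _) ih
  | downS t ih => exact PT.cons (PT.pair (PT.const _) ho) ih
  | atN x t ih => exact PT.cons (PT.const _) ih
  | atNS t ih => exact PT.cons (PT.pair (PT.const _) ho) ih
  | atV x t ih => exact PT.cons (PT.const _) ih
  | atVS t ih => exact PT.cons (PT.pair (PT.const _) ho) ih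

/-- every hole occurs at most once, and only holes below `m` occur -/
def Lin (t : Tpl B) (m : ℕ) : Prop := (holesA t).Nodup ∧ ∀ k ∈ holesA t, k < m

theorem Lin.sz_le {t : Tpl B} {m : ℕ} (h : Lin t m) (n : BN) (σ : ℕ → List Tok) :
    sz (wrd t n σ) ≤ baseA t * (sz n + 1) + ∑ k ∈ Finset.range m, sz (σ k) := by
  refine (sz_wrd t n σ).trans (Nat.add_le_add_left ?_ _)
  rw [← List.sum_toFinset _ h.1]
  apply Finset.sum_le_sum_of_subset
  intro k hk
  rw [List.mem_toFinset] at hk
  exact Finset.mem_range.mpr (h.2 k hk)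

end Pool.Agent.Lib.MP_bba6cc_lc
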