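import Pool.Agent.Lib.MP_bba6cc_lc.AGad

/-!
# From an arbitrary finite base to the full Boolean base

Truth values are the two points named by the nominals `0` and `2`; the translation of `φ` says
that `φ` has the truth value named by the state variable `2`.  Every subformula occurs once.
-/

namespace Pool.Agent.Lib.MP_bba6cc_lc

open Classical N487b59b3 N68a2faeb N793a5b8e

/-! ### Boolean combinations of templates -/

/-- conjunction -/
def andB (a b : Tpl boolBase) : Tpl boolBase :=
  .app ⟨0, by decide⟩ fun j => if j.val = 0 then a else b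

/-- negation -/
def notB (a : Tpl boolBase) : Tpl boolBase := .app ⟨1, by decide⟩ fun _ => a

/-- disjunction -/
def orB (a b : Tpl boolBase) : Tpl boolBase := notB (andB (notB a) (notB b))

/-- falsity -/
def botB : Tpl boolBase := andB (.var 0) (notB (.var 0))

/-- conjunction of a list -/
def andL : List (Tpl boolBase) → Tpl boolBase
  | [] => notB botB
  | a :: L => andB a (andL L)

/-- disjunction of a list -/
def orL : List (Tpl boolBase) → Tpl boolBase
  | [] => botB
  | a :: L => orB a (orL L)

theorem holes_andB (a b : Tpl boolBase) : holesA (andB a b) = holesA a ++ holesA b := by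
  have h : List.finRange 2 = [0, 1] := by decide
  show (List.finRange 2).flatMap (fun j : Fin 2 => holesA (if j.val = 0 then a else b)) = _
  rw [h]
  simp

theorem holes_notB (a : Tpl boolBase) : holesA (notB a) = holesA a := by
  have h : List.finRange 1 = [0] := by decide
  show (List.finRange 1).flatMap (fun _ : Fin 1 => holesA a) = _
  rw [h]
  simp

theorem holes_orB (a b : Tpl boolBase) : holesA (orB a b) = holesA a ++ holesA b := by
  rw [orB, holes_notB, holes_andB, holes_notB, holes_notB]

theorem holes_botB : holesA botB = [] := by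
  rw [botB, holes_andB, holes_notB]
  rfl

theorem holes_andL (L : List (Tpl boolBase)) : holesA (andL L) = L.flatMap holesA := by
  induction L with
  | nil => rw [andL, holes_notB, holes_botB]; rfl
  | cons a L ih => rw [andL, holes_andB, ih, List.flatMap_cons]

theorem holes_orL (L : List (Tpl boolBase)) : holesA (orL L) = L.flatMap holesA := by
  induction L with
  | nil => rw [orL, holes_botB]; rfl
  | cons a L ih => rw [orL, holes_orB, ih, List.flatMap_cons]

section

variable {M : Model} {n : ℕ} {σ : ℕ → Fa boolBase}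

theorem holds_andB (a b : Tpl boolBase) (g : ℕ → M.W) (w : M.W) :
    HoldsA M (fillA (andB a b) n σ) g w ↔
      HoldsA M (fillA a n σ) g w ∧ HoldsA M (fillA b n σ) g w := by
  show (decide (HoldsA M (fillA a n σ) g w) && decide (HoldsA M (fillA b n σ) g w)) = true ↔ _
  rw [Bool.and_eq_true, decide_eq_true_iff, decide_eq_true_iff]

theorem holds_notB (a : Tpl boolBase) (g : ℕ → M.W) (w : M.W) :
    HoldsA M (fillA (notB a) n σ) g w ↔ ¬ HoldsA M (fillA a n σ) g w := by
  show (!(decide (HoldsA M (fillA a n σ) g w))) = true ↔ _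
  rw [Bool.not_eq_true', decide_eq_false_iff_not]

theorem holds_orB (a b : Tpl boolBase) (g : ℕ → M.W) (w : M.W) :
    HoldsA M (fillA (orB a b) n σ) g w ↔
      HoldsA M (fillA a n σ) g w ∨ HoldsA M (fillA b n σ) g w := by
  rw [orB, holds_notB, holds_andB, holds_notB, holds_notB]
  tauto

theorem holds_botB (g : ℕ → M.W) (w : M.W) : ¬ HoldsA M (fillA botB n σ) g w := by
  rw [botB, holds_andB, holds_notB]
  tauto

theorem holds_andL (L : List (Tpl boolBase)) (g : ℕ → M.W) (w : M.W) :
    HoldsA M (fillA (andL L) n σ) g w ↔ ∀ t ∈ L, HoldsA M (fillA t n σ) g w := by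
  induction L with
  | nil =>
    rw [andL, holds_notB]
    exact iff_of_true (holds_botB g w) (by simp)
  | cons a L ih => rw [andL, holds_andB, ih, List.forall_mem_cons]

theorem holds_orL (L : List (Tpl boolBase)) (g : ℕ → M.W) (w : M.W) :
    HoldsA M (fillA (orL L) n σ) g w ↔ ∃ t ∈ L, HoldsA M (fillA t n σ) g w := by
  induction L with
  | nil =>
    rw [orL]
    exact iff_of_false (holds_botB g w) (by simp)
  | cons a L ih => rw [orL, holds_orB, ih, List.exists_mem_cons_iff]

end

/-! ### the templates -/

/-- the nominal of a truth value -/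
def bn (x : Bool) : ℕ := if x then 2 else 0

/-- the variable `v` names the truth value `x` -/
def bitT (v : ℕ) (x : Bool) : Tpl boolBase := .atV v (.nom (bn x))

/-- `a` has the truth value named by the variable `2` -/
def eqT (a : Tpl boolBase) : Tpl boolBase :=
  orB (andB a (bitT 2 true)) (andB (notB a) (bitT 2 false))

/-- quantification over `m` truth values, named by the variables `4, 6, …, 2 m + 2` -/
def nest : ℕ → Tpl boolBase → Tpl boolBase
  | 0, t => t
  | m + 1, t => .atN 0 (.dia (andB (orB (.nom 0) (.nom 2)) (.down (4 + 2 * m) (nest m t))))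

/-- the truth value named by `2` is the value of the function at the values named by `4, 6, …` -/
noncomputable def fnT (f : BFun) : Tpl boolBase :=
  orL ((Finset.univ : Finset (Fin f.ar → Bool)).toList.map fun x =>
    andB (bitT 2 (f.fn x)) (andL ((List.finRange f.ar).map fun j => bitT (4 + 2 * j.val) (x j))))

/-- the arguments have the truth values named by `4, 6, …` -/
def argT (k : ℕ) : Tpl boolBase :=
  andL ((List.finRange k).map fun j => .atV (4 + 2 * j.val) (.down 2 (.atV 0 (.hole j.val))))

/-- application of a Boolean function -/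
noncomputable def appT (f : BFun) : Tpl boolBase :=
  .down 0 (nest f.ar (.atV 0 (andB (fnT f) (argT f.ar))))

/-- some successor, if `2` names `x`; all successors, if `2` names the other truth value -/
def modT (x : Bool) : Tpl boolBase :=
  orB (andB (bitT 2 (!x)) (.box botB))
    (.down 0 (.dia (.down 4 (.atV 0 (.box (.down 6 (.atV 0 (.dia
      (andB (orB (andB (bitT 2 x) (.var 4)) (andB (bitT 2 (!x)) (.var 6))) (.hole 0))))))))))

/-- the templates of the translation -/
noncomputable def famB (B : List BFun) : Fam B boolBase where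
  tP := eqT .prpI
  tN := eqT .nomS
  tV := eqT .varS
  tA := fun i => appT (B.get i)
  tD := modT true
  tX := modT false
  tW := .downS (.hole 0)
  tAN := .atNS (.hole 0)
  tAV := .atVS (.hole 0)

/-- the two truth values differ and are seen from the first one -/
def setT : Tpl boolBase :=
  andB (.atN 0 (.dia (.nom 0))) (andB (.atN 0 (.dia (.nom 2))) (.atN 0 (notB (.nom 2))))

/-- the final template -/
def finB : Tpl boolBase := .down 0 (andB setT (.atN 2 (.down 2 (.atV 0 (.hole 0)))))

/-! ### holes -/

theorem holes_bitT (v : ℕ) (x : Bool) : holesA (bitT v x) = [] := rfl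

theorem holes_eqT {a : Tpl boolBase} (h : holesA a = []) : holesA (eqT a) = [] := by
  rw [eqT, holes_orB, holes_andB, holes_andB, holes_notB, holes_bitT, holes_bitT, h]
  rfl

theorem holes_nest (m : ℕ) (t : Tpl boolBase) : holesA (nest m t) = holesA t := by
  induction m with
  | zero => rfl
  | succ m ih =>
    show holesA (andB (orB (.nom 0) (.nom 2)) (.down (4 + 2 * m) (nest m t))) = _
    rw [holes_andB, holes_orB]
    exact ih

theorem holes_fnT (f : BFun) : holesA (fnT f) = [] := by
  rw [fnT, holes_orL, List.flatMap_map, List.flatMap_eq_nil_iff]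
  intro x _
  rw [holes_andB, holes_bitT, holes_andL, List.flatMap_map, List.nil_append,
    List.flatMap_eq_nil_iff]
  intro j _
  exact holes_bitT _ _

theorem holes_argT (k : ℕ) : holesA (argT k) = List.range k := by
  rw [argT, holes_andL, List.flatMap_map]
  have : (fun j : Fin k => holesA (.atV (4 + 2 * j.val) (.down 2 (.atV 0 (.hole j.val))) :
      Tpl boolBase)) = fun j : Fin k => [j.val] := rfl
  rw [this]
  have h2 : (List.finRange k).flatMap (fun j : Fin k => [j.val]) =
      (List.finRange k).map (fun j : Fin k => j.val) := by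
    induction List.finRange k with
    | nil => rfl
    | cons a L ih => rw [List.flatMap_cons, ih]; rfl
  rw [h2]
  exact List.map_coe_finRange_eq_range

theorem holes_appT (f : BFun) : holesA (appT f) = List.range f.ar := by
  show holesA (nest f.ar (.atV 0 (andB (fnT f) (argT f.ar)))) = _
  rw [holes_nest]
  show holesA (andB (fnT f) (argT f.ar)) = _
  rw [holes_andB, holes_fnT, holes_argT]
  rfl

theorem holes_modT (x : Bool) : holesA (modT x) = [0] := by
  rw [modT, holes_orB, holes_andB, holes_bitT]
  show [] ++ holesA botB ++ holesA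
      (andB (orB (andB (bitT 2 x) (.var 4)) (andB (bitT 2 (!x)) (.var 6))) (.hole 0)) = [0]
  rw [holes_botB, holes_andB, holes_orB, holes_andB, holes_andB, holes_bitT, holes_bitT]
  rfl

theorem famB_ok (B : List BFun) : (famB B).Ok := by
  have lin0 : ∀ t : Tpl boolBase, holesA t = [] → Lin t 0 := by
    intro t h
    refine ⟨by rw [h]; exact List.nodup_nil, fun k hk => ?_⟩
    rw [h] at hk
    simp at hk
  have lin1 : ∀ t : Tpl boolBase, holesA t = [0] → Lin t 1 := by
    intro t h
    refine ⟨by rw [h]; simp, fun k hk => ?_⟩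
    rw [h] at hk
    simp at hk
    omega
  refine ⟨lin0 _ (holes_eqT rfl), lin0 _ (holes_eqT rfl), lin0 _ (holes_eqT rfl), fun i => ?_,
    lin1 _ (holes_modT _), lin1 _ (holes_modT _), lin1 _ rfl, lin1 _ rfl, lin1 _ rfl⟩
  refine ⟨?_, ?_⟩
  · show (holesA (appT (B.get i))).Nodup
    rw [holes_appT]
    exact List.nodup_range
  · intro k hk
    change k ∈ holesA (appT (B.get i)) at hk
    rw [holes_appT] at hk
    exact List.mem_range.mp hk

/-! ### semantics -/

/-- the two truth values differ and are seen from the first one -/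
structure Setup (M : Model) : Prop where
  r0 : M.R (M.N 0) (M.N 0)
  r2 : M.R (M.N 0) (M.N 2)
  ne : M.N 0 ≠ M.N 2

section

variable {M : Model} {n : ℕ} {σ : ℕ → Fa boolBase}

theorem Setup.inj (hM : Setup M) (x y : Bool) : M.N (bn x) = M.N (bn y) ↔ x = y := by
  have h1 := hM.ne
  have h2 := hM.ne.symm
  cases x <;> cases y <;> simp [bn, h1, h2]

theorem holds_bitT (hM : Setup M) {v : ℕ} {x y : Bool} {g : ℕ → M.W} {w : M.W}
    (hv : g v = M.N (bn y)) : HoldsA M (fillA (bitT v x) n σ) g w ↔ x = y := by
  show M.N (bn x) = g v ↔ _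
  rw [hv, hM.inj]

theorem holds_eqT (hM : Setup M) {a : Tpl boolBase} {y : Bool} {g : ℕ → M.W} {w : M.W}
    (hv : g 2 = M.N (bn y)) :
    HoldsA M (fillA (eqT a) n σ) g w ↔ (HoldsA M (fillA a n σ) g w ↔ y = true) := by
  rw [eqT, holds_orB, holds_andB, holds_andB, holds_notB, holds_bitT hM hv, holds_bitT hM hv]
  cases y <;> simp

/-- the assignment with the truth values `y 0, y 1, …` -/
def updB (M : Model) (m : ℕ) (g : ℕ → M.W) (y : ℕ → Bool) : ℕ → M.W := fun v =>
  if 4 ≤ v ∧ v % 2 = 0 ∧ v < 4 + 2 * m then M.N (bn (y ((v - 4) / 2))) else g v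

theorem updB_bit (m : ℕ) (g : ℕ → M.W) (y : ℕ → Bool) (j : ℕ) (hj : j < m) :
    updB M m g y (4 + 2 * j) = M.N (bn (y j)) := by
  unfold updB
  rw [if_pos (by omega), show (4 + 2 * j - 4) / 2 = j by omega]

theorem updB_of (m : ℕ) (g : ℕ → M.W) (y : ℕ → Bool) (v : ℕ)
    (hv : ¬ (4 ≤ v ∧ v % 2 = 0 ∧ v < 4 + 2 * m)) : updB M m g y v = g v := by
  unfold updB
  rw [if_neg hv]

theorem exists_bit (hM : Setup M) (P : M.W → Prop) :
    (∃ s, M.R (M.N 0) s ∧ (M.N 0 = s ∨ M.N 2 = s) ∧ P s) ↔ ∃ x : Bool, P (M.N (bn x)) := by
  constructor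
  · rintro ⟨s, _, h2, h3⟩
    rcases h2 with rfl | rfl
    · exact ⟨false, h3⟩
    · exact ⟨true, h3⟩
  · rintro ⟨x, hx⟩
    cases x
    · exact ⟨M.N 0, hM.r0, Or.inl rfl, hx⟩
    · exact ⟨M.N 2, hM.r2, Or.inr rfl, hx⟩

theorem holds_nest (hM : Setup M) (t : Tpl boolBase) (m : ℕ) : ∀ (g : ℕ → M.W) (w : M.W),
    HoldsA M (fillA (nest m (.atV 0 t)) n σ) g w ↔
      ∃ y : ℕ → Bool, HoldsA M (fillA t n σ) (updB M m g y) (g 0) := by
  induction m with
  | zero =>
    intro g w
    have e : ∀ y, updB M 0 g y = g := by
      intro y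
      funext v
      exact updB_of 0 g y v (by omega)
    show HoldsA M (fillA t n σ) g (g 0) ↔ _
    constructor
    · intro h
      exact ⟨fun _ => false, by rw [e]; exact h⟩
    · rintro ⟨y, h⟩
      rw [e] at h
      exact h
  | succ m ih =>
    intro g w
    have h1 : HoldsA M (fillA (nest (m + 1) (.atV 0 t)) n σ) g w ↔
        ∃ s, M.R (M.N 0) s ∧ HoldsA M (fillA (andB (orB (.nom 0) (.nom 2))
          (.down (4 + 2 * m) (nest m (.atV 0 t)))) n σ) g s := Iff.rfl
    have h2 : ∀ s, HoldsA M (fillA (andB (orB (.nom 0) (.nom 2))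
          (.down (4 + 2 * m) (nest m (.atV 0 t)))) n σ) g s ↔
        (M.N 0 = s ∨ M.N 2 = s) ∧
          ∃ y : ℕ → Bool, HoldsA M (fillA t n σ) (updB M m (Function.update g (4 + 2 * m) s) y)
            (g 0) := by
      intro s
      rw [holds_andB, holds_orB]
      refine and_congr Iff.rfl ?_
      refine Iff.trans (ih (Function.update g (4 + 2 * m) s) s) ?_
      rw [Function.update_of_ne (by omega)]
    rw [h1]
    simp only [h2]
    rw [exists_bit hM fun s => ∃ y : ℕ → Bool,
      HoldsA M (fillA t n σ) (updB M m (Function.update g (4 + 2 * m) s) y) (g 0)]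
    have e : ∀ (x : Bool) (y : ℕ → Bool),
        updB M m (Function.update g (4 + 2 * m) (M.N (bn x))) y =
          updB M (m + 1) g (fun j => if j = m then x else y j) := by
      intro x y
      funext v
      by_cases h3 : 4 ≤ v ∧ v % 2 = 0 ∧ v < 4 + 2 * m
      · obtain ⟨j, rfl⟩ : ∃ j, v = 4 + 2 * j := ⟨(v - 4) / 2, by omega⟩
        rw [updB_bit m _ y j (by omega), updB_bit (m + 1) _ _ j (by omega),
          if_neg (by omega)]
      · rw [updB_of m _ y v h3]
        by_cases h4 : v = 4 + 2 * m
        · subst h4
          rw [Function.update_self, updB_bit (m + 1) _ _ m (by omega), if_pos rfl]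
        · rw [Function.update_of_ne h4, updB_of (m + 1) _ _ v (by omega)]
    constructor
    · rintro ⟨x, y, h⟩
      exact ⟨_, by rw [← e]; exact h⟩
    · rintro ⟨y, h⟩
      refine ⟨y m, y, ?_⟩
      rw [e]
      have e2 : (fun j => if j = m then y m else y j) = y := by
        funext j
        by_cases hj : j = m
        · rw [if_pos hj, hj]
        · rw [if_neg hj]
      rw [e2]
      exact h

theorem holds_fnT (hM : Setup M) (f : BFun) {g : ℕ → M.W} {w : M.W} {x : Bool} {y : ℕ → Bool}
    (h2 : g 2 = M.N (bn x)) (hy : ∀ j < f.ar, g (4 + 2 * j) = M.N (bn (y j))) :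
    HoldsA M (fillA (fnT f) n σ) g w ↔ x = f.fn fun j => y j.val := by
  rw [fnT, holds_orL]
  constructor
  · rintro ⟨t, ht, h⟩
    rw [List.mem_map] at ht
    obtain ⟨z, _, rfl⟩ := ht
    rw [holds_andB, holds_bitT hM h2, holds_andL] at h
    obtain ⟨h3, h4⟩ := h
    have h5 : z = fun j => y j.val := by
      funext j
      have h6 := h4 _ (List.mem_map.mpr ⟨j, List.mem_finRange j, rfl⟩)
      rw [holds_bitT hM (hy j.val j.isLt)] at h6
      exact h6
    rw [← h5, h3]
  · intro h
    refine ⟨_, List.mem_map.mpr ⟨fun j => y j.val, ?_, rfl⟩, ?_⟩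
    · rw [Finset.mem_toList]
      exact Finset.mem_univ _
    · rw [holds_andB, holds_bitT hM h2, holds_andL]
      refine ⟨h.symm, ?_⟩
      intro t ht
      rw [List.mem_map] at ht
      obtain ⟨j, _, rfl⟩ := ht
      rw [holds_bitT hM (hy j.val j.isLt)]

theorem holds_argT (k : ℕ) {g : ℕ → M.W} {w : M.W} :
    HoldsA M (fillA (argT k) n σ) g w ↔
      ∀ j < k, HoldsA M (σ j) (Function.update g 2 (g (4 + 2 * j))) (g 0) := by
  have key : ∀ j : ℕ, HoldsA M (fillA (.atV (4 + 2 * j) (.down 2 (.atV 0 (.hole j)))) n σ) g w ↔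
      HoldsA M (σ j) (Function.update g 2 (g (4 + 2 * j))) (g 0) := by
    intro j
    show HoldsA M (σ j) (Function.update g 2 (g (4 + 2 * j)))
      (Function.update g 2 (g (4 + 2 * j)) 0) ↔ _
    rw [Function.update_of_ne (by norm_num)]
  rw [argT, holds_andL]
  constructor
  · intro h j hj
    exact (key j).mp (h _ (List.mem_map.mpr ⟨⟨j, hj⟩, List.mem_finRange _, rfl⟩))
  · intro h t ht
    rw [List.mem_map] at ht
    obtain ⟨j, _, rfl⟩ := ht
    exact (key j.val).mpr (h j.val j.isLt)

/-- the modalities -/
theorem holds_modT (hM : Setup M) {x y : Bool} {g : ℕ → M.W} {w : M.W} (h2 : g 2 = M.N (bn y))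
    (P : M.W → Prop)
    (hP : ∀ v v' t, HoldsA M (σ 0) (Function.update (Function.update (Function.update g 0 w) 4 v)
      6 v') t ↔ (P t ↔ y = x)) :
    HoldsA M (fillA (modT x) n σ) g w ↔ ((∃ v, M.R w v ∧ P v) ↔ y = x) := by
  have hin : ∀ v v' t, HoldsA M (fillA
      (andB (orB (andB (bitT 2 x) (.var 4)) (andB (bitT 2 (!x)) (.var 6))) (.hole 0)) n σ)
      (Function.update (Function.update (Function.update g 0 w) 4 v) 6 v') t ↔
      ((x = y ∧ v = t ∨ (!x) = y ∧ v' = t) ∧ (P t ↔ y = x)) := by
    intro v v' t
    have hb : Function.update (Function.update (Function.update g 0 w) 4 v) 6 v' 2 =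
        M.N (bn y) := by
      rw [Function.update_of_ne (by norm_num), Function.update_of_ne (by norm_num),
        Function.update_of_ne (by norm_num), h2]
    rw [holds_andB, holds_orB, holds_andB, holds_andB, holds_bitT hM hb, holds_bitT hM hb]
    refine and_congr (or_congr (and_congr Iff.rfl ?_) (and_congr Iff.rfl ?_)) (hP v v' t)
    · show Function.update (Function.update (Function.update g 0 w) 4 v) 6 v' 4 = t ↔ _
      rw [Function.update_of_ne (by norm_num), Function.update_self]
    · show Function.update (Function.update (Function.update g 0 w) 4 v) 6 v' 6 = t ↔ _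
      rw [Function.update_self]
  have hmid : HoldsA M (fillA (.down 0 (.dia (.down 4 (.atV 0 (.box (.down 6 (.atV 0 (.dia
      (andB (orB (andB (bitT 2 x) (.var 4)) (andB (bitT 2 (!x)) (.var 6))) (.hole 0)))))))))) n σ)
      g w ↔ ∃ v, M.R w v ∧ ∀ v', M.R w v' → ∃ t, M.R w t ∧
        ((x = y ∧ v = t ∨ (!x) = y ∧ v' = t) ∧ (P t ↔ y = x)) := by
    show (∃ v, M.R w v ∧ ∀ v', M.R (Function.update (Function.update g 0 w) 4 v 0) v' →
      ∃ t, M.R (Function.update (Function.update (Function.update g 0 w) 4 v) 6 v' 0) t ∧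
      HoldsA M (fillA
      (andB (orB (andB (bitT 2 x) (.var 4)) (andB (bitT 2 (!x)) (.var 6))) (.hole 0)) n σ)
      (Function.update (Function.update (Function.update g 0 w) 4 v) 6 v') t) ↔ _
    have e1 : ∀ v, Function.update (Function.update g 0 w) 4 v 0 = w := by
      intro v
      rw [Function.update_of_ne (by norm_num), Function.update_self]
    have e2 : ∀ v v', Function.update (Function.update (Function.update g 0 w) 4 v) 6 v' 0 = w := by
      intro v v'
      rw [Function.update_of_ne (by norm_num), e1]
    simp only [e1, e2, hin]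
  have hbox : HoldsA M (fillA (andB (bitT 2 (!x)) (.box botB)) n σ) g w ↔
      (!x) = y ∧ ∀ v, ¬ M.R w v := by
    rw [holds_andB, holds_bitT hM h2]
    refine and_congr Iff.rfl ?_
    show (∀ v, M.R w v → HoldsA M (fillA botB n σ) g v) ↔ _
    exact forall_congr' fun v => ⟨fun h h' => holds_botB g v (h h'), fun h h' => absurd h' h⟩
  rw [modT, holds_orB, hbox, hmid]
  by_cases hxy : y = x
  · subst hxy
    have hne : ((!y) = y) ↔ False := by cases y <;> simp
    simp only [hne, false_and, false_or, or_false, true_and, iff_true]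
    constructor
    · rintro ⟨v, hv, h⟩
      obtain ⟨t, ht, h3, h4⟩ := h v hv
      exact ⟨t, ht, h4⟩
    · rintro ⟨v, hv, h⟩
      exact ⟨v, hv, fun v' _ => ⟨v, hv, rfl, h⟩⟩
  · have hne : (x = y) ↔ False := by
      constructor
      · intro h; exact hxy h.symm
      · exact False.elim
    have hne2 : ((!x) = y) ↔ True := by
      cases x <;> cases y <;> simp_all
    simp only [hne, hne2, hxy, false_and, false_or, true_and, iff_false]
    constructor
    · rintro (h | ⟨v, hv, h⟩)
      · rintro ⟨v, hv, _⟩
        exact h v hv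
      · rintro ⟨v', hv', h'⟩
        obtain ⟨t, ht, h3, h4⟩ := h v' hv'
        subst h3
        exact h4 h'
    · intro h
      by_cases hs : ∃ v, M.R w v
      · obtain ⟨v, hv⟩ := hs
        exact Or.inr ⟨v, hv, fun v' hv' => ⟨v', hv', rfl, fun h' => h ⟨v', hv', h'⟩⟩⟩
      · left
        intro v hv
        exact hs ⟨v, hv⟩

end

theorem tauB_holds {B : List BFun} {M : Model} (hM : Setup M) (φ : Fa B) :
    ∀ (g : ℕ → M.W) (w : M.W) (x : Bool), g 2 = M.N (bn x) →
      (HoldsA M (tauA (famB B) φ) g w ↔
        (HoldsA (shiftA M) φ (fun n => g (2 * n + 1)) w ↔ x = true)) := by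
  induction φ with
  | prp p => intro g w x h2; exact holds_eqT hM h2
  | nom i => intro g w x h2; exact holds_eqT hM h2
  | var y => intro g w x h2; exact holds_eqT hM h2
  | app i args ih =>
    intro g w x h2
    set σ : ℕ → Fa boolBase := fun k =>
      if h : k < (B.get i).ar then tauA (famB B) (args ⟨k, h⟩) else .prp 0 with hσ
    have hg : (Function.update g 0 w) 2 = M.N (bn x) := by
      rw [Function.update_of_ne (by norm_num), h2]
    show HoldsA M (fillA (nest (B.get i).ar (.atV 0 (andB (fnT (B.get i)) (argT (B.get i).ar))))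
      0 σ) (Function.update g 0 w) w ↔ _
    rw [holds_nest hM]
    have key : ∀ y : ℕ → Bool, HoldsA M (fillA (andB (fnT (B.get i)) (argT (B.get i).ar)) 0 σ)
        (updB M (B.get i).ar (Function.update g 0 w) y) (Function.update g 0 w 0) ↔
        (x = (B.get i).fn (fun j => y j.val) ∧ ∀ j : Fin (B.get i).ar,
          (HoldsA (shiftA M) (args j) (fun n => g (2 * n + 1)) w ↔ y j.val = true)) := by
      intro y
      have hb : updB M (B.get i).ar (Function.update g 0 w) y 2 = M.N (bn x) := by
        rw [updB_of _ _ _ _ (by omega), hg]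
      have h0 : updB M (B.get i).ar (Function.update g 0 w) y 0 = w := by
        rw [updB_of _ _ _ _ (by omega), Function.update_self]
      rw [holds_andB, holds_fnT hM (B.get i) hb (fun j hj => updB_bit _ _ _ j hj), holds_argT]
      refine and_congr Iff.rfl ?_
      have hj : ∀ j : Fin (B.get i).ar, HoldsA M (σ j.val) (Function.update
          (updB M (B.get i).ar (Function.update g 0 w) y) 2
          (updB M (B.get i).ar (Function.update g 0 w) y (4 + 2 * j.val)))
          (updB M (B.get i).ar (Function.update g 0 w) y 0) ↔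
          (HoldsA (shiftA M) (args j) (fun n => g (2 * n + 1)) w ↔ y j.val = true) := by
        intro j
        have hs : σ j.val = tauA (famB B) (args j) := by
          rw [hσ]
          simp only [j.isLt, dif_pos, Fin.eta]
        rw [hs, h0]
        have h3 := ih j (Function.update (updB M (B.get i).ar (Function.update g 0 w) y) 2
          (updB M (B.get i).ar (Function.update g 0 w) y (4 + 2 * j.val))) w (y j.val) (by
            rw [Function.update_self, updB_bit _ _ _ j.val j.isLt])
        rw [h3]
        have h4 : (fun n => Function.update (updB M (B.get i).ar (Function.update g 0 w) y) 2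
          (updB M (B.get i).ar (Function.update g 0 w) y (4 + 2 * j.val)) (2 * n + 1)) =
            fun n => g (2 * n + 1) := by
          funext n
          rw [Function.update_of_ne (by omega), updB_of _ _ _ _ (by omega),
            Function.update_of_ne (by omega)]
        rw [h4]
      constructor
      · intro h j
        exact (hj j).mp (h j.val j.isLt)
      · intro h j hj'
        exact (hj ⟨j, hj'⟩).mpr (h ⟨j, hj'⟩)
    simp only [key]
    have hfn : HoldsA (shiftA M) (.app i args) (fun n => g (2 * n + 1)) w ↔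
        (B.get i).fn (fun j => decide (HoldsA (shiftA M) (args j) (fun n => g (2 * n + 1)) w)) =
          true := Iff.rfl
    rw [hfn]
    constructor
    · rintro ⟨y, h3, h4⟩
      have h5 : (fun j => decide (HoldsA (shiftA M) (args j) (fun n => g (2 * n + 1)) w)) =
          fun j : Fin (B.get i).ar => y j.val := by
        funext j
        rw [Bool.eq_iff_iff, decide_eq_true_iff]
        exact h4 j
      rw [h5, ← h3]
    · intro h3
      refine ⟨fun k => if h : k < (B.get i).ar then
        decide (HoldsA (shiftA M) (args ⟨k, h⟩) (fun n => g (2 * n + 1)) w) else false, ?_, ?_⟩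
      · have h5 : (fun j : Fin (B.get i).ar => (if h : j.val < (B.get i).ar then
            decide (HoldsA (shiftA M) (args ⟨j.val, h⟩) (fun n => g (2 * n + 1)) w) else false)) =
            fun j => decide (HoldsA (shiftA M) (args j) (fun n => g (2 * n + 1)) w) := by
          funext j
          rw [dif_pos j.isLt]
        rw [h5, Bool.eq_iff_iff]
        exact h3.symm
      · intro j
        have h6 : (if h : j.val < (B.get i).ar then
            decide (HoldsA (shiftA M) (args ⟨j.val, h⟩) (fun n => g (2 * n + 1)) w) else false) =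
            decide (HoldsA (shiftA M) (args j) (fun n => g (2 * n + 1)) w) := dif_pos j.isLt
        exact ⟨fun h => h6.trans (decide_eq_true h), fun h => of_decide_eq_true (h6.symm.trans h)⟩
  | dia φ ih =>
    intro g w x h2
    have h := holds_modT (n := 0) (σ := fun _ => tauA (famB B) φ) hM (x := true) (y := x) (g := g)
      (w := w) h2 (fun t => HoldsA (shiftA M) φ (fun n => g (2 * n + 1)) t) (by
        intro v v' t
        rw [ih _ t x (by
          rw [Function.update_of_ne (by norm_num), Function.update_of_ne (by norm_num),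
            Function.update_of_ne (by norm_num), h2])]
        have h4 : (fun n => Function.update (Function.update (Function.update g 0 w) 4 v) 6 v'
            (2 * n + 1)) = fun n => g (2 * n + 1) := by
          funext n
          rw [Function.update_of_ne (by omega), Function.update_of_ne (by omega),
            Function.update_of_ne (by omega)]
        rw [h4])
    exact h
  | box φ ih =>
    intro g w x h2
    have h := holds_modT (n := 0) (σ := fun _ => tauA (famB B) φ) hM (x := false) (y := x)
      (g := g) (w := w) h2 (fun t => ¬ HoldsA (shiftA M) φ (fun n => g (2 * n + 1)) t) (by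
        intro v v' t
        rw [ih _ t x (by
          rw [Function.update_of_ne (by norm_num), Function.update_of_ne (by norm_num),
            Function.update_of_ne (by norm_num), h2])]
        have h4 : (fun n => Function.update (Function.update (Function.update g 0 w) 4 v) 6 v'
            (2 * n + 1)) = fun n => g (2 * n + 1) := by
          funext n
          rw [Function.update_of_ne (by omega), Function.update_of_ne (by omega),
            Function.update_of_ne (by omega)]
        rw [h4]
        cases x <;> simp)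
    refine Iff.trans h ?_
    have h5 : (∃ v, M.R w v ∧ ¬ HoldsA (shiftA M) φ (fun n => g (2 * n + 1)) v) ↔
        ¬ HoldsA (shiftA M) (.box φ) (fun n => g (2 * n + 1)) w := by
      have h6 : HoldsA (shiftA M) (.box φ) (fun n => g (2 * n + 1)) w ↔
        ∀ v, M.R w v → HoldsA (shiftA M) φ (fun n => g (2 * n + 1)) v := Iff.rfl
      rw [h6]
      push Not
      exact Iff.rfl
    rw [h5]
    cases x <;> simp
  | down y φ ih =>
    intro g w x h2
    have h3 := ih (Function.update g (2 * y + 1) w) w x (by
      rw [Function.update_of_ne (by omega), h2])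
    rw [update_odd] at h3
    exact h3
  | atN i φ ih =>
    intro g w x h2
    exact ih g _ x h2
  | atV y φ ih =>
    intro g w x h2
    exact ih g _ x h2

theorem finB_holds {B : List BFun} (M : Model) (φ : Fa B) (g : ℕ → M.W) (w : M.W) :
    HoldsA M (fillA finB 0 fun _ => tauA (famB B) φ) g w ↔
      HoldsA (shiftA M) φ (fun n => g (2 * n + 1)) w ∧ Setup M := by
  show HoldsA M (fillA (andB setT (.atN 2 (.down 2 (.atV 0 (.hole 0))))) 0
    fun _ => tauA (famB B) φ) (Function.update g 0 w) w ↔ _
  rw [holds_andB]
  have h1 : HoldsA M (fillA setT 0 fun _ => tauA (famB B) φ) (Function.update g 0 w) w ↔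
      Setup M := by
    rw [setT, holds_andB, holds_andB]
    have e1 : HoldsA M (fillA (.atN 0 (.dia (.nom 0))) 0 fun _ => tauA (famB B) φ)
        (Function.update g 0 w) w ↔ ∃ v, M.R (M.N 0) v ∧ M.N 0 = v := Iff.rfl
    have e2 : HoldsA M (fillA (.atN 0 (.dia (.nom 2))) 0 fun _ => tauA (famB B) φ)
        (Function.update g 0 w) w ↔ ∃ v, M.R (M.N 0) v ∧ M.N 2 = v := Iff.rfl
    have e3 : HoldsA M (fillA (.atN 0 (notB (.nom 2))) 0 fun _ => tauA (famB B) φ)
        (Function.update g 0 w) w ↔ ¬ M.N 2 = M.N 0 := holds_notB (.nom 2) _ (M.N 0)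
    rw [e1, e2, e3]
    constructor
    · rintro ⟨⟨v, h1, rfl⟩, ⟨v', h2, rfl⟩, h3⟩
      exact ⟨h1, h2, fun h => h3 h.symm⟩
    · intro h
      exact ⟨⟨_, h.r0, rfl⟩, ⟨_, h.r2, rfl⟩, fun h' => h.ne h'.symm⟩
  rw [h1]
  have key : Setup M → (HoldsA M (fillA (.atN 2 (.down 2 (.atV 0 (.hole 0)))) 0
      fun _ => tauA (famB B) φ) (Function.update g 0 w) w ↔
      HoldsA (shiftA M) φ (fun n => g (2 * n + 1)) w) := by
    intro hM
    show HoldsA M (tauA (famB B) φ) (Function.update (Function.update g 0 w) 2 (M.N 2))
      (Function.update (Function.update g 0 w) 2 (M.N 2) 0) ↔ _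
    rw [Function.update_of_ne (by norm_num), Function.update_self,
      tauB_holds hM φ _ w true (by rw [Function.update_self]; rfl)]
    have h4 : (fun n => Function.update (Function.update g 0 w) 2 (M.N 2) (2 * n + 1)) =
        fun n => g (2 * n + 1) := by
      funext n
      rw [Function.update_of_ne (by omega), Function.update_of_ne (by omega)]
    rw [h4]
    simp
  constructor
  · rintro ⟨h2, h3⟩
    exact ⟨(key h2).mp h3, h2⟩
  · rintro ⟨h2, h3⟩
    exact ⟨h3, (key h3).mpr h2⟩

/-- names of the two points -/
def cBt (n : ℕ) : Fin 2 := if n = 2 then 1 else 0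

theorem fullS_mem (F : FrameClass) : F.Mem fun _ _ : Fin 2 => (true : Bool) = true := by
  cases F with
  | all => trivial
  | trans => exact fun _ _ _ _ _ => rfl
  | total => exact fun _ => ⟨0, rfl⟩
  | er => exact ⟨fun _ => rfl, fun _ _ _ => rfl, fun _ _ _ _ _ => rfl⟩

theorem finB_sat {B : List BFun} (F : FrameClass) (φ : Fa B) :
    SatInA F (fillA finB 0 fun _ => tauA (famB B) φ) ↔ SatInA F φ := by
  constructor
  · rintro ⟨M, hF, g, w, hφ⟩
    rw [finB_holds] at hφ
    exact ⟨shiftA M, hF, fun n => g (2 * n + 1), w, hφ.1⟩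
  · rintro ⟨M, hF, g, w, hφ⟩
    refine ⟨sumM M (fun _ _ => true) cBt, sumM_mem hF (fullS_mem F),
      fun n => Sum.inl (g (n / 2)), Sum.inl w, (finB_holds _ _ _ _).mpr ⟨?_, ?_⟩⟩
    · have e : (fun n => (Sum.inl (g ((2 * n + 1) / 2)) : M.W ⊕ Fin 2)) =
          fun n => Sum.inl (g n) := by
        funext n
        rw [show (2 * n + 1) / 2 = n by omega]
      have h := (sumM_holds M (fun _ _ => true) cBt φ g w).mpr hφ
      exact (Iff.of_eq (congrArg (fun a => HoldsA (shiftA (sumM M (fun _ _ => true)
        cBt)) φ a (Sum.inl w)) e)).mpr h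
    · refine ⟨rfl, rfl, ?_⟩
      intro h
      have h' : (Sum.inr (0 : Fin 2) : M.W ⊕ Fin 2) = Sum.inr (1 : Fin 2) := h
      exact absurd (Sum.inr.inj h') (by decide)

/-- the logic over any finite base reduces to the full Boolean logic -/
theorem any_le_full (B : List BFun) (F : FrameClass) :
    ManyOneReducible (satProblemA B F) (satProblemA boolBase F) :=
  reducible_of_templates (famB_ok B) finB F fun a => finB_sat F a

end Pool.Agent.Lib.MP_bba6cc_lc
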