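import Pool.Agent.Lib.MP_bba6cc_lc.Ptm

/-!
# The decision algorithm runs in polynomial time: the size bound and the final statement
-/

namespace Pool.Agent.Lib.MP_bba6cc_lc

open Pool.Agent Pool.Agent.MSR Pool.Agent.MSR.En N487b59b3 N68a2faeb

variable {α β γ : Type} [En α] [En β] [En γ]

theorem sz_BN0 : sz (⟨0⟩ : BN) = 0 := rfl

theorem sz_trm (t : Trm) : sz t = sz (tau t) := rfl

theorem sz_tau (a : ℕ) (b : BN) (c : ℕ) : sz (a, b, c) = 2 * a + 1 + (2 * sz b + 1 + c) := by
  rw [sz_pair, sz_pair, sz_nat, sz_nat]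

theorem sz_one : sz Trm.one = 2 := by
  rw [sz_trm]; show sz ((0 : ℕ), (⟨0⟩ : BN), (0 : ℕ)) = 2
  rw [sz_tau, sz_BN0]

theorem sz_prp (x : BN) : sz (Trm.prp x.val) = 4 + 2 * sz x := by
  rw [sz_trm]; show sz ((1 : ℕ), (⟨x.val⟩ : BN), (0 : ℕ)) = _
  rw [sz_tau]
  show 2 * 1 + 1 + (2 * sz x + 1 + 0) = _
  omega

theorem sz_nom (x : BN) : sz (Trm.nm (.fix (2 * x.val))) ≤ 8 + 2 * sz x := by
  rw [sz_trm]
  have h1 : 2 * x.val % 2 = 0 := by omega
  have h2 : 2 * x.val / 2 = x.val := by omega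
  simp only [tau, h1, h2]
  rw [sz_tau]
  show 2 * (2 + 0) + 1 + (2 * sz x + 1 + 0) ≤ _
  omega

theorem sz_free (x : BN) : sz (Trm.nm (.fix (2 * x.val + 1))) ≤ 8 + 2 * sz x := by
  rw [sz_trm]
  have h1 : (2 * x.val + 1) % 2 = 1 := by omega
  have h2 : (2 * x.val + 1) / 2 = x.val := by omega
  simp only [tau, h1, h2]
  rw [sz_tau]
  show 2 * (2 + 1) + 1 + (2 * sz x + 1 + 0) ≤ _
  omega

theorem sz_lvl (j : ℕ) : sz (Trm.nm (.lvl j)) = 10 + j := by
  rw [sz_trm]; show sz ((4 : ℕ), (⟨0⟩ : BN), j) = _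
  rw [sz_tau, sz_BN0]; omega

theorem sz_dia (u : ℕ) : sz (Trm.dia u) = 12 + u := by
  rw [sz_trm]; show sz ((5 : ℕ), (⟨0⟩ : BN), u) = _
  rw [sz_tau, sz_BN0]; omega

/-- frames of bounded size -/
def FrOK (S k : ℕ) (fr : Frame) : Prop :=
  fr.1 ≤ k ∧ fr.2.2.1 ≤ k ∧ fr.2.2.2.length ≤ k ∧ ∀ e ∈ fr.2.2.2, sz e.1 ≤ S ∧ e.2 ≤ k

/-- outputs of bounded size -/
def OuOK (S k : ℕ) (e : ℕ × Trm) : Prop := e.1 ≤ k ∧ sz e.2 ≤ 12 + 2 * S + k

/-- states of bounded size -/
structure StOK (A S k : ℕ) (st : St) : Prop where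
  pos : st.1 = k
  len : st.2.1.length ≤ 1 + A * k
  fr : ∀ fr ∈ st.2.1, FrOK S k fr
  lenO : st.2.2.1.length ≤ 3 * k
  ou : ∀ e ∈ st.2.2.1, OuOK S k e

theorem FrOK.mono {S k : ℕ} {fr : Frame} (h : FrOK S k fr) : FrOK S (k + 1) fr := by
  obtain ⟨h1, h2, h3, h4⟩ := h
  refine ⟨by omega, by omega, by omega, fun e he => ?_⟩
  obtain ⟨h5, h6⟩ := h4 e he
  exact ⟨h5, by omega⟩

theorem OuOK.mono {S k : ℕ} {e : ℕ × Trm} (h : OuOK S k e) : OuOK S (k + 1) e := by
  obtain ⟨h1, h2⟩ := h
  exact ⟨by omega, by omega⟩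

variable {A S k : ℕ} {tab : Tab}

theorem entry_mem {tab : Tab} {x : BN} {e : BN × Bool × List Bool} {l : Tab}
    (h : entry tab x = e :: l) : e ∈ tab := by
  have : e ∈ entry tab x := by rw [h]; exact List.mem_cons_self
  exact (List.mem_filter.mp this).1

theorem newF_OK (hA : 1 ≤ A) (htab : ∀ e ∈ tab, e.2.2.length ≤ A) {fr : Frame} {t : Tok}
    (hf : FrOK S k fr) (ht : sz t.2 ≤ S) :
    (newF tab k fr t).length ≤ A ∧ ∀ g ∈ newF tab k fr t, FrOK S (k + 1) g := by
  have hfm := hf.mono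
  obtain ⟨h1, h2, h3, h4⟩ := hf
  obtain ⟨m1, m2, m3, m4⟩ := hfm
  unfold newF
  split
  · cases he : entry tab t.2 with
    | nil => simp [MSR.lcase]
    | cons e l =>
      simp only [MSR.lcase, List.length_map]
      refine ⟨htab e (entry_mem he), ?_⟩
      intro g hg
      rw [List.mem_map] at hg
      obtain ⟨c, _, rfl⟩ := hg
      exact ⟨m1, m2, m3, m4⟩
  split
  · refine ⟨by simpa using hA, ?_⟩
    intro g hg
    rw [List.mem_singleton] at hg
    subst hg
    exact ⟨le_refl _, by show fr.2.2.1 + 1 ≤ k + 1; omega, m3, m4⟩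
  split
  · refine ⟨by simpa using hA, ?_⟩
    intro g hg
    rw [List.mem_singleton] at hg
    subst hg
    exact ⟨le_refl _, by show fr.2.2.1 + 1 ≤ k + 1; omega, m3, m4⟩
  split
  · refine ⟨by simpa using hA, ?_⟩
    intro g hg
    rw [List.mem_singleton] at hg
    subst hg
    refine ⟨m1, m2, ?_, ?_⟩
    · show ((t.2, fr.2.2.1) :: fr.2.2.2).length ≤ k + 1
      rw [List.length_cons]; omega
    · intro e he
      rcases List.mem_cons.mp he with rfl | he
      · exact ⟨ht, m2⟩
      · exact m4 e he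
  · simp

theorem vtrm_OK {lev : ℕ} {env : List (BN × ℕ)} {x : BN} (hx : sz x ≤ S)
    (he : ∀ e ∈ env, sz e.1 ≤ S ∧ e.2 ≤ k) : sz (vtrm lev env x) ≤ 12 + 2 * S + k := by
  unfold vtrm
  cases h : env.filter (fun e => decide (e.1 = x)) with
  | nil =>
    simp only [MSR.lcase]
    have := sz_free x
    omega
  | cons e l =>
    simp only [MSR.lcase]
    have hm : e ∈ env := by
      have : e ∈ env.filter (fun e => decide (e.1 = x)) := by rw [h]; exact List.mem_cons_self
      exact (List.mem_filter.mp this).1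
    split
    · rw [sz_one]; omega
    · rw [sz_lvl]
      have := (he e hm).2
      omega

theorem mem_iff1 {δ : Type} {b : Bool} {l : List δ} {e : δ} (h : e ∈ iff1 b l) : e ∈ l := by
  cases b
  · simp [iff1] at h
  · simpa [iff1] using h

theorem length_iff1 {δ : Type} (b : Bool) (l : List δ) : (iff1 b l).length ≤ l.length := by
  cases b <;> simp [iff1]

theorem newO_OK {fr : Frame} {t : Tok} (hf : FrOK S k fr) (ht : sz t.2 ≤ S) :
    (newO tab k fr t).length ≤ 3 ∧ ∀ g ∈ newO tab k fr t, OuOK S (k + 1) g := by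
  obtain ⟨h1, h2, h3, h4⟩ := hf
  unfold newO
  split
  · refine ⟨(length_iff1 _ _).trans (by simp), ?_⟩
    intro g hg
    have hg := mem_iff1 hg
    rw [List.mem_singleton] at hg
    subst hg
    refine ⟨by show fr.1 ≤ k + 1; omega, ?_⟩
    show sz (Trm.prp t.2.val) ≤ _
    rw [sz_prp]; omega
  split
  · refine ⟨(length_iff1 _ _).trans (by simp), ?_⟩
    intro g hg
    have hg := mem_iff1 hg
    rw [List.mem_singleton] at hg
    subst hg
    refine ⟨by show fr.1 ≤ k + 1; omega, ?_⟩
    have := sz_nom t.2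
    show sz (Trm.nm (.fix (2 * t.2.val))) ≤ _
    omega
  split
  · refine ⟨(length_iff1 _ _).trans (by simp), ?_⟩
    intro g hg
    have hg := mem_iff1 hg
    rw [List.mem_singleton] at hg
    subst hg
    refine ⟨by show fr.1 ≤ k + 1; omega, ?_⟩
    have := vtrm_OK (lev := fr.2.2.1) ht h4
    show sz (vtrm fr.2.2.1 fr.2.2.2 t.2) ≤ _
    omega
  split
  · cases he : entry tab t.2 with
    | nil => simp [MSR.lcase]
    | cons e l =>
      simp only [MSR.lcase]
      refine ⟨(length_iff1 _ _).trans (by simp), ?_⟩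
      intro g hg
      have hg := mem_iff1 hg
      rw [List.mem_singleton] at hg
      subst hg
      refine ⟨by show fr.1 ≤ k + 1; omega, ?_⟩
      show sz Trm.one ≤ _
      rw [sz_one]; omega
  split
  · refine ⟨(length_iff1 _ _).trans (by simp), ?_⟩
    intro g hg
    have hg := mem_iff1 hg
    rw [List.mem_singleton] at hg
    subst hg
    refine ⟨by show fr.1 ≤ k + 1; omega, ?_⟩
    show sz (Trm.dia (k + 1)) ≤ _
    rw [sz_dia]; omega
  split
  · refine ⟨?_, ?_⟩
    · rw [List.length_append]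
      have := length_iff1 fr.2.1 [(fr.1, Trm.one), (fr.1, Trm.dia (k + 1))]
      simp only [List.length_cons, List.length_nil] at this ⊢
      omega
    · intro g hg
      rcases List.mem_append.mp hg with hg | hg
      · have hg := mem_iff1 hg
        rcases List.mem_cons.mp hg with rfl | hg
        · refine ⟨by show fr.1 ≤ k + 1; omega, ?_⟩
          show sz Trm.one ≤ _
          rw [sz_one]; omega
        · rw [List.mem_singleton] at hg
          subst hg
          refine ⟨by show fr.1 ≤ k + 1; omega, ?_⟩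
          show sz (Trm.dia (k + 1)) ≤ _
          rw [sz_dia]; omega
      · rw [List.mem_singleton] at hg
        subst hg
        refine ⟨by show k + 1 ≤ k + 1; omega, ?_⟩
        show sz Trm.one ≤ _
        rw [sz_one]; omega
  · simp

theorem step_OK (hA : 1 ≤ A) (htab : ∀ e ∈ tab, e.2.2.length ≤ A) {st : St} {t : Tok}
    (h : StOK A S k st) (ht : sz t.2 ≤ S) : StOK A S (k + 1) (step tab st t) := by
  obtain ⟨hp, hl, hf, hlo, ho⟩ := h
  obtain ⟨pos, stk, out, o⟩ := st
  simp only at hp hl hf hlo ho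
  subst hp
  cases stk with
  | nil =>
    refine ⟨rfl, by simp [step, MSR.lcase], by simp [step, MSR.lcase], ?_, ?_⟩
    · show out.length ≤ _
      omega
    · intro e he
      exact (ho e he).mono
  | cons fr stk =>
    rw [step_cons]
    obtain ⟨n1, n2⟩ := newF_OK hA htab (hf fr List.mem_cons_self) ht
    obtain ⟨n3, n4⟩ := newO_OK (tab := tab) (hf fr List.mem_cons_self) ht
    refine ⟨rfl, ?_, ?_, ?_, ?_⟩
    · show (newF tab pos fr t ++ stk).length ≤ _
      rw [List.length_append]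
      rw [List.length_cons] at hl
      have : A * (pos + 1) = A * pos + A := by ring
      omega
    · intro g hg
      rcases List.mem_append.mp hg with hg | hg
      · exact n2 g hg
      · exact (hf g (List.mem_cons_of_mem _ hg)).mono
    · show (out ++ newO tab pos fr t).length ≤ _
      rw [List.length_append]
      omega
    · intro e he
      rcases List.mem_append.mp he with he | he
      · exact (ho e he).mono
      · exact n4 e he

theorem run_OK (hA : 1 ≤ A) (htab : ∀ e ∈ tab, e.2.2.length ≤ A) (m : List Tok)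
    (hm : ∀ t ∈ m, sz t.2 ≤ S) : ∀ (k : ℕ) (st : St), StOK A S k st →
    StOK A S (k + m.length) (m.foldl (step tab) st) := by
  induction m with
  | nil => intro k st h; exact h
  | cons t m ih =>
    intro k st h
    rw [List.foldl_cons, List.length_cons]
    have := ih (fun t ht => hm t (List.mem_cons_of_mem _ ht)) (k + 1) _
      (step_OK hA htab h (hm t List.mem_cons_self))
    rwa [show k + (m.length + 1) = k + 1 + m.length by omega]

/-- the bound on the size of a state -/
def bigB (A S k : ℕ) : ℕ :=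
  2 * k + 1 + (2 * ((1 + A * k) * (2 * (2 * k + 1 + (2 * 1 + 1 + (2 * k + 1 +
    k * (2 * (2 * S + 1 + k) + 1)))) + 1)) + 1 +
    (2 * (3 * k * (2 * (2 * k + 1 + (12 + 2 * S + k)) + 1)) + 1 + 1))

theorem StOK.size {st : St} (h : StOK A S k st) : sz st ≤ bigB A S k := by
  obtain ⟨hp, hl, hf, hlo, ho⟩ := h
  obtain ⟨pos, stk, out, o⟩ := st
  simp only at hp hl hf hlo ho
  subst hp
  have h1 : ∀ fr ∈ stk, sz fr ≤ 2 * pos + 1 + (2 * 1 + 1 + (2 * pos + 1 +
    pos * (2 * (2 * S + 1 + pos) + 1))) := by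
    intro fr hfr
    obtain ⟨f1, f2, f3, f4⟩ := hf fr hfr
    obtain ⟨p, c, l, e⟩ := fr
    simp only at f1 f2 f3 f4
    rw [sz_pair, sz_pair, sz_pair, sz_nat, sz_nat, sz_bool]
    have : sz e ≤ e.length * (2 * (2 * S + 1 + pos) + 1) := by
      apply OfTM2.sz_list_le
      intro x hx
      obtain ⟨x1, x2⟩ := f4 x hx
      obtain ⟨a, b⟩ := x
      rw [sz_pair, sz_nat]
      simp only at x1 x2
      omega
    have h2 := Nat.mul_le_mul_right (2 * (2 * S + 1 + pos) + 1) f3
    omega
  have h2 : sz stk ≤ (1 + A * pos) * (2 * (2 * pos + 1 + (2 * 1 + 1 + (2 * pos + 1 +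
    pos * (2 * (2 * S + 1 + pos) + 1)))) + 1) :=
    (OfTM2.sz_list_le h1).trans (Nat.mul_le_mul_right _ hl)
  have h3 : sz out ≤ 3 * pos * (2 * (2 * pos + 1 + (12 + 2 * S + pos)) + 1) := by
    refine (OfTM2.sz_list_le (B := 2 * pos + 1 + (12 + 2 * S + pos)) ?_).trans
      (Nat.mul_le_mul_right _ hlo)
    intro e he
    obtain ⟨e1, e2⟩ := ho e he
    obtain ⟨p, t⟩ := e
    rw [sz_pair, sz_nat]
    simp only at e1 e2
    omega
  rw [sz_pair, sz_pair, sz_pair, sz_nat, sz_bool]
  unfold bigB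
  omega

theorem bigB_mono {A S S' k k' : ℕ} (h : S ≤ S') (h' : k ≤ k') : bigB A S k ≤ bigB A S' k' := by
  unfold bigB
  gcongr

theorem PB_bigB (A : ℕ) : PB (fun n => bigB A n n) := by
  unfold bigB
  have i := PB.id
  have c := PB.const
  exact (((c 2).mul i).add (c 1)).add ((((c 2).mul (((c 1).add ((c A).mul i)).mul
    (((c 2).mul ((((c 2).mul i).add (c 1)).add ((((c 2).mul (c 1)).add (c 1)).add
      ((((c 2).mul i).add (c 1)).add
      (i.mul (((c 2).mul ((((c 2).mul i).add (c 1)).add i)).add (c 1))))))).add (c 1)))).add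
      (c 1)).add ((((c 2).mul (((c 3).mul i).mul
      (((c 2).mul ((((c 2).mul i).add (c 1)).add (((c 12).add ((c 2).mul i)).add i))).add (c 1)))).add
      (c 1)).add (c 1)))

theorem exists_arity (tab : Tab) : ∃ A, 1 ≤ A ∧ ∀ e ∈ tab, e.2.2.length ≤ A := by
  induction tab with
  | nil => exact ⟨1, le_refl _, by simp⟩
  | cons e tab ih =>
    obtain ⟨A, h1, h2⟩ := ih
    refine ⟨A + e.2.2.length, by omega, ?_⟩
    intro e' he'
    rcases List.mem_cons.mp he' with rfl | he'
    · omega
    · have := h2 e' he'; omega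

theorem PT.run (tab : Tab) {s : α → List Tok} (hs : PT s) : PT (fun a => run tab (s a)) := by
  have h : PT (fun s : List Tok => MP_bba6cc_lc.run tab s) := by
    unfold MP_bba6cc_lc.run
    apply PT.foldl (g := fun _ => MP_bba6cc_lc.step tab) PT.id' (PT.const _)
    · exact PT.step tab (PT.fst (PT.snd PT.id')) (PT.snd (PT.snd PT.id'))
    · obtain ⟨A, hA, htab⟩ := exists_arity tab
      refine ⟨_, PB_bigB A, ?_⟩
      intro s k
      have hm : ∀ t ∈ s.take k, sz t.2 ≤ sz s := by
        intro t ht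
        have h1 := sz_mem (List.mem_of_mem_take ht)
        obtain ⟨a, b⟩ := t
        rw [sz_pair] at h1
        simp only
        omega
      have h0 : StOK A (sz s) 0 ((0, [(0, true, 0, [])], [], true) : St) := by
        refine ⟨rfl, by simp, ?_, by simp, by simp⟩
        intro fr hfr
        rw [List.mem_singleton] at hfr
        subst hfr
        exact ⟨le_refl _, le_refl _, le_refl _, by simp⟩
      have h1 := (run_OK hA htab (s.take k) hm 0 _ h0).size
      refine h1.trans (bigB_mono (le_refl _) ?_)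
      have h2 : (s.take k).length ≤ s.length := by simp
      have h3 := length_le_sz s
      omega
  exact h.comp hs

theorem PT.alg (tot : Bool) (tab : Tab) {s : α → List Tok} (hs : PT s) :
    PT (fun a => alg tot tab (s a)) := by
  unfold MP_bba6cc_lc.alg
  have hr := PT.run tab hs
  apply PT.and (PT.and (PT.snd (PT.snd (PT.snd hr))) (PT.isEmpty (PT.fst (PT.snd hr))))
  apply PT.not
  apply PT.memP
  · exact PT.pair (PT.const 0) (PT.succ (PT.length hs))
  · exact PT.table (PT.length hs) (PT.fst (PT.snd (PT.snd hr))) (PT.length hs)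

/-! ## the polynomial-time theorem -/

theorem enc_tk (t : ℕ × ℕ) : enc (tk t) = bitEncode t := by
  obtain ⟨a, b⟩ := t
  rfl

theorem enc_map_tk (s : List (ℕ × ℕ)) : enc (s.map tk) = bitEncode s := by
  show ((List.map enc (s.map tk)).map delimit).flatten = ((s.map bitEncode).map delimit).flatten
  congr 2
  rw [List.map_map]
  apply List.map_congr_left
  intro t _
  exact enc_tk t

/-- the codes of the satisfiable formulas are recognised in polynomial time -/
theorem isPolyTime_sat {B : List BFun} (hB : ∀ f ∈ B, IsAffine f) (tot : Bool) :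
    IsPolyTime (fun s : List (ℕ × ℕ) => (alg tot (tabB B) (s.map tk))) := by
  apply OfTM2.tm2_of_CT
  have h : PT (fun s : List Tok => alg tot (tabB B) s) := PT.alg tot (tabB B) PT.id'
  have h2 := CT.reindex (fun s : List (ℕ × ℕ) => s.map tk) h
  refine h2.congr (fun s => ?_) (fun s => ?_)
  · exact (enc_map_tk s).symm
  · rfl

end Pool.Agent.Lib.MP_bba6cc_lc
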