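import Pool.Agent.Lib.MP_bba6cc_lc.AtSem

/-!
# The base with conjunction generates all Boolean functions
-/

namespace Pool.Agent.Lib.MP_bba6cc_lc.At

open Pool.Agent.Lib.MP_bba6cc_lc

/-- substitution of terms -/
def tsub {B : List BFun} {k n : ℕ} : Tm B k → (Fin k → Tm B n) → Tm B n
  | .hole i, σ => σ i
  | .app i args, σ => .app i fun j => tsub (args j) σ

theorem eval_tsub {B : List BFun} {k n : ℕ} (t : Tm B k) (σ : Fin k → Tm B n)
    (x : Fin n → Bool) : (tsub t σ).eval x = t.eval fun i => (σ i).eval x := by
  induction t with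
  | hole i => rfl
  | app i args ih => simp only [tsub, Tm.eval, ih]

/-- terms over `B` as terms over `B ∪ {∧}` -/
def tlift {B : List BFun} {k : ℕ} : Tm B k → Tm (B ++ [conj]) k
  | .hole i => .hole i
  | .app i args => .app (inc i) fun j => tlift (args (Fin.cast (congrArg BFun.ar (get_inc i)) j))

theorem eval_tlift {B : List BFun} {k : ℕ} (t : Tm B k) (x : Fin k → Bool) :
    (tlift t).eval x = t.eval x := by
  induction t with
  | hole i => rfl
  | app i args ih =>
    simp only [tlift, Tm.eval, ih]
    exact fn_cast (get_inc i) fun j => (args j).eval x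

/-- `f` is a term function over `B ∪ {∧}` -/
def Rep (B : List BFun) {n : ℕ} (f : (Fin n → Bool) → Bool) : Prop :=
  ∃ t : Tm (B ++ [conj]) n, t.eval = f

variable {B : List BFun} {n : ℕ}

theorem rep_proj (i : Fin n) : Rep B fun x : Fin n → Bool => x i := ⟨.hole i, rfl⟩

theorem rep_and {f g : (Fin n → Bool) → Bool} (hf : Rep B f) (hg : Rep B g) :
    Rep B fun x => f x && g x := by
  obtain ⟨s, rfl⟩ := hf
  obtain ⟨t, rfl⟩ := hg
  have hi : ¬ (⟨B.length, by simp⟩ : Fin (B ++ [conj]).length).val < B.length := by simp
  refine ⟨.app ⟨B.length, by simp⟩ fun j => if j.val = 0 then s else t, ?_⟩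
  funext x
  simp only [Tm.eval]
  rw [← fn_cast (get_right hi).symm]
  rfl

theorem rep_sub {k : ℕ} (t : Tm B k) {f : Fin k → (Fin n → Bool) → Bool}
    (hf : ∀ i, Rep B (f i)) : Rep B fun x => t.eval fun i => f i x := by
  choose s hs using hf
  refine ⟨tsub (tlift t) s, ?_⟩
  funext x
  rw [eval_tsub, eval_tlift]
  simp only [hs]

theorem rep_xor (hB : CloneIsAffine B) {f g : (Fin n → Bool) → Bool} (hf : Rep B f)
    (hg : Rep B g) : Rep B fun x => xor (f x) (g x) := by
  have hx : IsAffine ⟨2, fun x : Fin 2 → Bool => xor (x 0) (x 1)⟩ := by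
    refine ⟨0, fun _ => 1, fun x => ?_⟩
    show toZ (xor (x 0) (x 1)) = 0 + ∑ j : Fin 2, 1 * toZ (x j)
    rw [toZ_xor', Fin.sum_univ_two]
    ring
  obtain ⟨t, ht⟩ := (hB 2 (by norm_num) _).mpr hx
  have := rep_sub t (f := ![f, g]) (by intro i; fin_cases i; exacts [hf, hg])
  rw [ht] at this
  exact this

theorem rep_const (hB : CloneIsAffine B) (hn : 0 < n) (b : Bool) :
    Rep B fun _ : Fin n → Bool => b := by
  have hx : IsAffine ⟨1, fun _ : Fin 1 → Bool => b⟩ := ⟨toZ b, fun _ => 0, fun x => by simp⟩
  obtain ⟨t, ht⟩ := (hB 1 (by norm_num) _).mpr hx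
  have := rep_sub t (f := fun _ => fun x : Fin n → Bool => x ⟨0, hn⟩) fun _ => rep_proj _
  rw [ht] at this
  exact this

theorem rep_delta (hB : CloneIsAffine B) (hn : 0 < n) (a : Fin n → Bool) (L : List (Fin n)) :
    Rep B fun x : Fin n → Bool => L.all fun i => xor (x i) (!(a i)) := by
  induction L with
  | nil => exact rep_const hB hn true
  | cons i L ih =>
    simp only [List.all_cons]
    exact rep_and (rep_xor hB (rep_proj i) (rep_const hB hn _)) ih

theorem all_delta (x a : Fin n → Bool) :
    ((List.finRange n).all fun i => xor (x i) (!(a i))) = decide (x = a) := by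
  rw [Bool.eq_iff_iff, decide_eq_true_iff, List.all_eq_true]
  constructor
  · intro h
    funext i
    have := h i (List.mem_finRange i)
    revert this
    cases x i <;> cases a i <;> decide
  · rintro rfl i _
    cases x i <;> rfl

theorem rep_sum (hB : CloneIsAffine B) (hn : 0 < n) (f : (Fin n → Bool) → Bool)
    (L : List (Fin n → Bool)) :
    Rep B fun x : Fin n → Bool => L.foldr (fun a acc => xor (f a && decide (x = a)) acc) false := by
  induction L with
  | nil => exact rep_const hB hn false
  | cons a L ih =>
    simp only [List.foldr_cons]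
    refine rep_xor hB (rep_and (rep_const hB hn (f a)) ?_) ih
    have := rep_delta hB hn a (List.finRange n)
    simp only [all_delta] at this
    exact this

theorem foldr_notMem (f : (Fin n → Bool) → Bool) (x : Fin n → Bool) (L : List (Fin n → Bool))
    (h : x ∉ L) : L.foldr (fun a acc => xor (f a && decide (x = a)) acc) false = false := by
  induction L with
  | nil => rfl
  | cons a L ih =>
    rw [List.foldr_cons, ih fun h1 => h (List.mem_cons_of_mem _ h1)]
    have : x ≠ a := fun h1 => h (by rw [h1]; exact List.mem_cons_self)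
    simp [this]

theorem foldr_mem (f : (Fin n → Bool) → Bool) (x : Fin n → Bool) (L : List (Fin n → Bool))
    (hL : L.Nodup) (h : x ∈ L) :
    L.foldr (fun a acc => xor (f a && decide (x = a)) acc) false = f x := by
  induction L with
  | nil => simp at h
  | cons a L ih =>
    rw [List.nodup_cons] at hL
    rw [List.foldr_cons]
    rcases List.mem_cons.mp h with rfl | h1
    · rw [foldr_notMem f x L hL.1]
      simp
    · rw [ih hL.2 h1]
      have : x ≠ a := by
        rintro rfl
        exact hL.1 h1
      simp [this]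

/-- If `[B] = L`, then `[B ∪ {∧}]` is the clone of all Boolean functions. -/
theorem full_base (hB : CloneIsAffine B) (hn : 0 < n) (f : (Fin n → Bool) → Bool) :
    ∃ t : Tm (B ++ [conj]) n, t.eval = f := by
  have h := rep_sum hB hn f (Finset.univ : Finset (Fin n → Bool)).toList
  have e : (fun x : Fin n → Bool => (Finset.univ : Finset (Fin n → Bool)).toList.foldr
      (fun a acc => xor (f a && decide (x = a)) acc) false) = f := by
    funext x
    exact foldr_mem f x _ (Finset.nodup_toList _) (by simp)
  rw [e] at h
  exact h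

end Pool.Agent.Lib.MP_bba6cc_lc.At
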