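import Pool.Agent.Lib.MP_bba6cc_lc.Qbf

/-!
# The connectives `⊕` and `1` over a base with `[B] = L`
-/

namespace Pool.Agent.Lib.MP_bba6cc_lc

open Classical

variable {B : List BFun}

/-- substitution of one formula for the variable of a unary term -/
def Tm.sub1 : Tm B 1 → Fm B → Fm B
  | .hole _, φ => φ
  | .app i args, φ => .app i fun j => (args j).sub1 φ

theorem holds_sub1 (M : Model) (t : Tm B 1) (φ : Fm B) (g : ℕ → M.W) (w : M.W) :
    Holds M (t.sub1 φ) g w ↔ t.eval (fun _ => decide (Holds M φ g w)) = true := by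
  induction t with
  | hole i => simp [Tm.sub1, Tm.eval]
  | app i args ih =>
    simp only [Tm.sub1, Tm.eval, Holds]
    have : (fun j => decide (Holds M ((args j).sub1 φ) g w)) =
        (fun j => (args j).eval fun _ => decide (Holds M φ g w)) := by
      funext j
      rw [Bool.eq_iff_iff, decide_eq_true_iff]
      exact ih j
    rw [this]

theorem zmod2_cases (a : ZMod 2) : a = 0 ∨ a = 1 := by
  revert a
  decide

theorem toZ_inj' {a b : Bool} (h : toZ a = toZ b) : a = b := by
  cases a <;> cases b <;> simp_all [toZ]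

theorem toZ_xor' (a b : Bool) : toZ (xor a b) = toZ a + toZ b := by
  cases a <;> cases b <;> decide

theorem affine_of_clone (hB : CloneIsAffine B) (i : Fin B.length) : IsAffine (B.get i) := by
  rcases Nat.eq_zero_or_pos (B.get i).ar with h0 | hn
  · have hE : IsEmpty (Fin (B.get i).ar) := by rw [h0]; exact Fin.isEmpty
    refine ⟨toZ ((B.get i).fn fun j => (hE.false j).elim), fun _ => 0, fun x => ?_⟩
    have : x = fun j => (hE.false j).elim := by
      funext j
      exact (hE.false j).elim
    rw [this]
    simp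
  · exact (hB _ hn (B.get i).fn).mp ⟨.app i fun j => .hole j, rfl⟩

/-- Some function of `B` depends on two of its arguments. -/
theorem exists_two (hB : CloneIsAffine B) :
    ∃ (f : Fin B.length) (c : ZMod 2) (d : Fin (B.get f).ar → ZMod 2) (i j : Fin (B.get f).ar),
      (∀ x, toZ ((B.get f).fn x) = c + ∑ i, d i * toZ (x i)) ∧ i ≠ j ∧ d i = 1 ∧ d j = 1 := by
  by_contra hcon
  have hun : ∀ f : Fin B.length, ∀ (c : ZMod 2) (d : Fin (B.get f).ar → ZMod 2),
      (∀ x, toZ ((B.get f).fn x) = c + ∑ i, d i * toZ (x i)) → ∀ i j, d i = 1 → d j = 1 → i = j := by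
    intro f c d h i j hi hj
    by_contra hij
    exact hcon ⟨f, c, d, i, j, h, hij, hi, hj⟩
  have hterm : ∀ (n : ℕ) (t : Tm B n), ∃ (c : ZMod 2) (e : Fin n → ZMod 2),
      (∀ i j, e i = 1 → e j = 1 → i = j) ∧ ∀ x, toZ (t.eval x) = c + ∑ i, e i * toZ (x i) := by
    intro n t
    induction t with
    | hole i =>
      refine ⟨0, Pi.single i 1, ?_, ?_⟩
      · intro a b ha hb
        have h1 : a = i := by
          by_contra h
          rw [Pi.single_eq_of_ne h] at ha
          exact absurd ha (by decide)
        have h2 : b = i := by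
          by_contra h
          rw [Pi.single_eq_of_ne h] at hb
          exact absurd hb (by decide)
        rw [h1, h2]
      · intro x
        simp only [Tm.eval, zero_add]
        rw [Finset.sum_eq_single i]
        · simp
        · intro b _ hb
          rw [Pi.single_eq_of_ne hb, zero_mul]
        · simp
    | app f args ih =>
      obtain ⟨c, d, hd⟩ := affine_of_clone hB f
      have hd1 := hun f c d hd
      by_cases hall : ∀ j, d j = 0
      · refine ⟨c, fun _ => 0, ?_, ?_⟩
        · intro i j hi
          exact absurd hi (by simp)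
        · intro x
          simp only [Tm.eval]
          rw [hd]
          simp [hall]
      · push Not at hall
        obtain ⟨j, hj⟩ := hall
        have hj1 : d j = 1 := (zmod2_cases (d j)).resolve_left hj
        obtain ⟨c', e, he, he2⟩ := ih j
        refine ⟨c + c', e, he, fun x => ?_⟩
        simp only [Tm.eval]
        rw [hd, Finset.sum_eq_single j, hj1, one_mul, he2, add_assoc]
        · intro b _ hb
          have : d b = 0 := by
            rcases zmod2_cases (d b) with h | h
            · exact h
            · exact absurd (hd1 b j h hj1) hb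
          rw [this, zero_mul]
        · simp
  have hxor : IsAffine ⟨2, fun x : Fin 2 → Bool => xor (x 0) (x 1)⟩ := by
    refine ⟨0, fun _ => 1, fun x => ?_⟩
    show toZ (xor (x 0) (x 1)) = 0 + ∑ j : Fin 2, 1 * toZ (x j)
    rw [toZ_xor', Fin.sum_univ_two]
    ring
  obtain ⟨t, ht⟩ := (hB 2 (by norm_num) _).mpr hxor
  obtain ⟨c, e, he, he2⟩ := hterm 2 t
  rw [ht] at he2
  have h00 := he2 ![false, false]
  have h10 := he2 ![true, false]
  have h01 := he2 ![false, true]
  simp [toZ, Fin.sum_univ_two] at h00 h10 h01
  have hc : c = 0 := h00.symm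
  rw [hc, zero_add] at h10 h01
  exact absurd (he 0 1 h10.symm h01.symm) (by decide)

/-- the connectives: `X` computes `⊕`, its word contains the words of its arguments once and in
their order; `T` is true -/
structure Conn (B : List BFun) where
  X : Fm B → Fm B → Fm B
  T : Fm B
  p : List (ℕ × ℕ)
  m : List (ℕ × ℕ)
  q : List (ℕ × ℕ)
  code_X : ∀ φ ψ, code (X φ ψ) = p ++ (code φ ++ (m ++ (code ψ ++ q)))
  holds_X : ∀ (M : Model) (φ ψ : Fm B) (g : ℕ → M.W) (w : M.W),
    Holds M (X φ ψ) g w ↔ ¬ (Holds M φ g w ↔ Holds M ψ g w)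
  holds_T : ∀ (M : Model) (g : ℕ → M.W) (w : M.W), Holds M T g w

theorem toZ_decide (p : Prop) : toZ (decide p) = if p then 1 else 0 := by
  by_cases h : p <;> simp [toZ, h]

theorem fin_aux0 : ∀ a b c : Bool, toZ a = toZ b + toZ c → a = xor b c := by decide

theorem fin_aux {P Q R : Prop} (h : toZ (decide P) = toZ (decide Q) + toZ (decide R)) :
    P ↔ ¬ (Q ↔ R) := by
  have h1 := fin_aux0 _ _ _ h
  by_cases hQ : Q
  · by_cases hR : R
    · rw [decide_eq_true hQ, decide_eq_true hR] at h1
      have : ¬ P := of_decide_eq_false h1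
      tauto
    · rw [decide_eq_true hQ, decide_eq_false hR] at h1
      have : P := of_decide_eq_true h1
      tauto
  · by_cases hR : R
    · rw [decide_eq_false hQ, decide_eq_true hR] at h1
      have : P := of_decide_eq_true h1
      tauto
    · rw [decide_eq_false hQ, decide_eq_false hR] at h1
      have : ¬ P := of_decide_eq_false h1
      tauto

theorem exists_conn (hB : CloneIsAffine B) : Nonempty (Conn B) := by
  obtain ⟨T, hT⟩ := (hB 1 (by norm_num) (fun _ => true)).mpr
    ⟨1, fun _ => 0, fun x => by simp [toZ]⟩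
  obtain ⟨Z, hZ⟩ := (hB 1 (by norm_num) (fun _ => false)).mpr
    ⟨0, fun _ => 0, fun x => by simp [toZ]⟩
  set T' : Fm B := T.sub1 (.var 0) with hT'
  set Z' : Fm B := Z.sub1 (.var 0) with hZ'
  have hT'h : ∀ (M : Model) (g : ℕ → M.W) (w : M.W), Holds M T' g w := by
    intro M g w
    rw [hT', holds_sub1, hT]
  have hZ'h : ∀ (M : Model) (g : ℕ → M.W) (w : M.W), ¬ Holds M Z' g w := by
    intro M g w
    rw [hZ', holds_sub1, hZ]
    simp
  obtain ⟨f, c, d, i, j, hfd, hij, hi, hj⟩ := exists_two hB
  -- the application of `f` to two formulas at the places `a`, `b`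
  have key : ∀ (a b : Fin (B.get f).ar), a ≠ b → d a = 1 → d b = 1 →
      ∀ (L1 L2 L3 : List (Fin (B.get f).ar)),
      List.finRange (B.get f).ar = L1 ++ a :: (L2 ++ b :: L3) →
      ∃ (X : Fm B → Fm B → Fm B) (p m q : List (ℕ × ℕ)),
        (∀ φ ψ, code (X φ ψ) = p ++ (code φ ++ (m ++ (code ψ ++ q)))) ∧
        (∀ (M : Model) (φ ψ : Fm B) (g : ℕ → M.W) (w : M.W),
          toZ (decide (Holds M (X φ ψ) g w)) =
            c + toZ (decide (Holds M φ g w)) + toZ (decide (Holds M ψ g w))) := by
    intro a b hab ha hb L1 L2 L3 hL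
    have hnd : (L1 ++ a :: (L2 ++ b :: L3)).Nodup := by rw [← hL]; exact List.nodup_finRange _
    have hn1 : ∀ k ∈ L1, k ≠ a ∧ k ≠ b := by
      intro k hk
      rw [List.nodup_append] at hnd
      exact ⟨hnd.2.2 k hk a (by simp), hnd.2.2 k hk b (by simp)⟩
    have hn2 : ∀ k ∈ L2, k ≠ a ∧ k ≠ b := by
      intro k hk
      rw [List.nodup_append, List.nodup_cons, List.nodup_append] at hnd
      refine ⟨?_, hnd.2.1.2.2.2 k hk b (by simp)⟩
      rintro rfl
      exact hnd.2.1.1 (by simp [hk])
    have hn3 : ∀ k ∈ L3, k ≠ a ∧ k ≠ b := by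
      intro k hk
      rw [List.nodup_append, List.nodup_cons, List.nodup_append, List.nodup_cons] at hnd
      refine ⟨?_, ?_⟩
      · rintro rfl
        exact hnd.2.1.1 (by simp [hk])
      · rintro rfl
        exact hnd.2.1.2.2.1.1 hk
    have hZc : ∀ (φ ψ : Fm B) (L : List (Fin (B.get f).ar)), (∀ k ∈ L, k ≠ a ∧ k ≠ b) →
        L.flatMap (fun k => code (if k = a then φ else if k = b then ψ else Z')) =
          L.flatMap (fun _ => code Z') := by
      intro φ ψ L hL
      induction L with
      | nil => rfl
      | cons k L ih =>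
        obtain ⟨h1, h2⟩ := hL k List.mem_cons_self
        rw [List.flatMap_cons, List.flatMap_cons, if_neg h1, if_neg h2,
          ih (fun k hk => hL k (List.mem_cons_of_mem _ hk))]
    refine ⟨fun φ ψ => .app f fun k => if k = a then φ else if k = b then ψ else Z',
      (3, f.val) :: L1.flatMap (fun _ => code Z'), L2.flatMap (fun _ => code Z'),
      L3.flatMap (fun _ => code Z'), ?_, ?_⟩
    · intro φ ψ
      simp only [code]
      rw [hL, List.flatMap_append, List.flatMap_cons, List.flatMap_append, List.flatMap_cons,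
        hZc φ ψ L1 hn1, hZc φ ψ L2 hn2, hZc φ ψ L3 hn3, if_pos rfl, if_neg hab.symm, if_pos rfl]
      simp
    · intro M φ ψ g w
      have h1 : (decide (Holds M (.app f fun k => if k = a then φ else if k = b then ψ else Z') g w))
          = (B.get f).fn (fun k => decide (Holds M (if k = a then φ else if k = b then ψ else Z') g w)) := by
        rw [Bool.eq_iff_iff, decide_eq_true_iff]
        simp only [Holds]
      rw [h1, hfd]
      have : ∀ k, d k * toZ (decide (Holds M (if k = a then φ else if k = b then ψ else Z') g w)) =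
          (if k = a then toZ (decide (Holds M φ g w)) else 0) +
          (if k = b then toZ (decide (Holds M ψ g w)) else 0) := by
        intro k
        by_cases h1 : k = a
        · subst h1
          rw [if_pos rfl, if_pos rfl, if_neg hab, ha]
          ring
        · rw [if_neg h1, if_neg h1]
          by_cases h2 : k = b
          · subst h2
            rw [if_pos rfl, if_pos rfl, hb]
            ring
          · rw [if_neg h2, if_neg h2]
            have := hZ'h M g w
            simp [toZ, this]
      simp only [this]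
      rw [Finset.sum_add_distrib, Finset.sum_ite_eq', Finset.sum_ite_eq']
      simp [add_assoc]
  have key2 : ∃ (X : Fm B → Fm B → Fm B) (p m q : List (ℕ × ℕ)),
        (∀ φ ψ, code (X φ ψ) = p ++ (code φ ++ (m ++ (code ψ ++ q)))) ∧
        (∀ (M : Model) (φ ψ : Fm B) (g : ℕ → M.W) (w : M.W),
          toZ (decide (Holds M (X φ ψ) g w)) =
            c + toZ (decide (Holds M φ g w)) + toZ (decide (Holds M ψ g w))) := by
    obtain ⟨L1, L2, hL⟩ := List.append_of_mem (List.mem_finRange i)
    have hj' : j ∈ L1 ++ i :: L2 := by rw [← hL]; exact List.mem_finRange j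
    rcases List.mem_append.mp hj' with h | h
    · obtain ⟨L3, L4, rfl⟩ := List.append_of_mem h
      exact key j i hij.symm hj hi L3 L4 L2 (by rw [hL]; simp)
    · rcases List.mem_cons.mp h with h | h
      · exact absurd h.symm hij
      · obtain ⟨L3, L4, rfl⟩ := List.append_of_mem h
        exact key i j hij hi hj L1 L3 L4 hL
  obtain ⟨X, p, m, q, hc, hh⟩ := key2
  have fin : ∀ (P Q R : Prop), toZ (decide P) = toZ (decide Q) + toZ (decide R) →
      (P ↔ ¬ (Q ↔ R)) := by
    intro P Q R h
    exact fin_aux h
  rcases zmod2_cases c with h0 | h1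
  · refine ⟨⟨X, T', p, m, q, hc, ?_, hT'h⟩⟩
    intro M φ ψ g w
    apply fin
    rw [hh, h0, zero_add]
  · refine ⟨⟨fun φ ψ => X (X φ ψ) Z', T', p ++ p, m, q ++ (m ++ (code Z' ++ q)), ?_, ?_, hT'h⟩⟩
    · intro φ ψ
      rw [hc, hc]
      simp
    · intro M φ ψ g w
      apply fin
      rw [hh, hh, h1]
      have h3 : toZ (decide (Holds M Z' g w)) = 0 := by
        have := hZ'h M g w
        simp [toZ, this]
      rw [h3]
      have e : ∀ a b : ZMod 2, 1 + (1 + a + b) + 0 = a + b := by decide
      exact e _ _

end Pool.Agent.Lib.MP_bba6cc_lc
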