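import Pool.Agent.Lib.MP_bba6cc_lc.AtDefs
import Pool.Agent.Lib.MP_bba6cc_lc.Conn

/-!
# The connectives `⊕` and `1` over a base with `[B] = L`, for the language with `@`
-/

namespace Pool.Agent.Lib.MP_bba6cc_lc

open Classical

variable {B : List BFun}

/-- substitution of one formula for the variable of a unary term -/
def Tm.subA : Tm B 1 → FmA B → FmA B
  | .hole _, φ => φ
  | .app i args, φ => .app i fun j => (args j).subA φ

theorem holds_subA (M : Model) (t : Tm B 1) (φ : FmA B) (g : ℕ → M.W) (w : M.W) :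
    HoldsA M (t.subA φ) g w ↔ t.eval (fun _ => decide (HoldsA M φ g w)) = true := by
  induction t with
  | hole i => simp [Tm.subA, Tm.eval]
  | app i args ih =>
    simp only [Tm.subA, Tm.eval, HoldsA]
    have : (fun j => decide (HoldsA M ((args j).subA φ) g w)) =
        (fun j => (args j).eval fun _ => decide (HoldsA M φ g w)) := by
      funext j
      rw [Bool.eq_iff_iff, decide_eq_true_iff]
      exact ih j
    rw [this]

/-- the connectives: `X` computes `⊕`, its word contains the words of its arguments once and in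
their order; `T` is true -/
structure ConnA (B : List BFun) where
  X : FmA B → FmA B → FmA B
  T : FmA B
  p : List (ℕ × ℕ)
  m : List (ℕ × ℕ)
  q : List (ℕ × ℕ)
  code_X : ∀ φ ψ, codeA (X φ ψ) = p ++ (codeA φ ++ (m ++ (codeA ψ ++ q)))
  holds_X : ∀ (M : Model) (φ ψ : FmA B) (g : ℕ → M.W) (w : M.W),
    HoldsA M (X φ ψ) g w ↔ ¬ (HoldsA M φ g w ↔ HoldsA M ψ g w)
  holds_T : ∀ (M : Model) (g : ℕ → M.W) (w : M.W), HoldsA M T g w

theorem exists_connA (hB : CloneIsAffine B) : Nonempty (ConnA B) := by
  obtain ⟨T, hT⟩ := (hB 1 (by norm_num) (fun _ => true)).mpr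
    ⟨1, fun _ => 0, fun x => by simp [toZ]⟩
  obtain ⟨Z, hZ⟩ := (hB 1 (by norm_num) (fun _ => false)).mpr
    ⟨0, fun _ => 0, fun x => by simp [toZ]⟩
  set T' : FmA B := T.subA (.var 0) with hT'
  set Z' : FmA B := Z.subA (.var 0) with hZ'
  have hT'h : ∀ (M : Model) (g : ℕ → M.W) (w : M.W), HoldsA M T' g w := by
    intro M g w
    rw [hT', holds_subA, hT]
  have hZ'h : ∀ (M : Model) (g : ℕ → M.W) (w : M.W), ¬ HoldsA M Z' g w := by
    intro M g w
    rw [hZ', holds_subA, hZ]
    simp
  obtain ⟨f, c, d, i, j, hfd, hij, hi, hj⟩ := exists_two hB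
  -- the application of `f` to two formulas at the places `a`, `b`
  have key : ∀ (a b : Fin (B.get f).ar), a ≠ b → d a = 1 → d b = 1 →
      ∀ (L1 L2 L3 : List (Fin (B.get f).ar)),
      List.finRange (B.get f).ar = L1 ++ a :: (L2 ++ b :: L3) →
      ∃ (X : FmA B → FmA B → FmA B) (p m q : List (ℕ × ℕ)),
        (∀ φ ψ, codeA (X φ ψ) = p ++ (codeA φ ++ (m ++ (codeA ψ ++ q)))) ∧
        (∀ (M : Model) (φ ψ : FmA B) (g : ℕ → M.W) (w : M.W),
          toZ (decide (HoldsA M (X φ ψ) g w)) =
            c + toZ (decide (HoldsA M φ g w)) + toZ (decide (HoldsA M ψ g w))) := by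
    intro a b hab ha hb L1 L2 L3 hL
    have hnd : (L1 ++ a :: (L2 ++ b :: L3)).Nodup := by rw [← hL]; exact List.nodup_finRange _
    have hn1 : ∀ k ∈ L1, k ≠ a ∧ k ≠ b := by
      intro k hk
      rw [List.nodup_append] at hnd
      exact ⟨hnd.2.2 k hk a (by simp), hnd.2.2 k hk b (by simp)⟩
    have hn2 : ∀ k ∈ L2, k ≠ a ∧ k ≠ b := by
      intro k hk
      rw [List.nodup_append, List.nodup_cons, List.nodup_append] at hnd
      refine ⟨?_, hnd.2.1.2.2.2 k hk b (by simp)⟩
      rintro rfl
      exact hnd.2.1.1 (by simp [hk])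
    have hn3 : ∀ k ∈ L3, k ≠ a ∧ k ≠ b := by
      intro k hk
      rw [List.nodup_append, List.nodup_cons, List.nodup_append, List.nodup_cons] at hnd
      refine ⟨?_, ?_⟩
      · rintro rfl
        exact hnd.2.1.1 (by simp [hk])
      · rintro rfl
        exact hnd.2.1.2.2.1.1 hk
    have hZc : ∀ (φ ψ : FmA B) (L : List (Fin (B.get f).ar)), (∀ k ∈ L, k ≠ a ∧ k ≠ b) →
        L.flatMap (fun k => codeA (if k = a then φ else if k = b then ψ else Z')) =
          L.flatMap (fun _ => codeA Z') := by
      intro φ ψ L hL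
      induction L with
      | nil => rfl
      | cons k L ih =>
        obtain ⟨h1, h2⟩ := hL k List.mem_cons_self
        rw [List.flatMap_cons, List.flatMap_cons, if_neg h1, if_neg h2,
          ih (fun k hk => hL k (List.mem_cons_of_mem _ hk))]
    refine ⟨fun φ ψ => .app f fun k => if k = a then φ else if k = b then ψ else Z',
      (3, f.val) :: L1.flatMap (fun _ => codeA Z'), L2.flatMap (fun _ => codeA Z'),
      L3.flatMap (fun _ => codeA Z'), ?_, ?_⟩
    · intro φ ψ
      simp only [codeA]
      rw [hL, List.flatMap_append, List.flatMap_cons, List.flatMap_append, List.flatMap_cons,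
        hZc φ ψ L1 hn1, hZc φ ψ L2 hn2, hZc φ ψ L3 hn3, if_pos rfl, if_neg hab.symm, if_pos rfl]
      simp
    · intro M φ ψ g w
      have h1 : (decide (HoldsA M (.app f fun k => if k = a then φ else if k = b then ψ else Z') g w))
          = (B.get f).fn (fun k => decide (HoldsA M (if k = a then φ else if k = b then ψ else Z') g w)) := by
        rw [Bool.eq_iff_iff, decide_eq_true_iff]
        simp only [HoldsA]
      rw [h1, hfd]
      have : ∀ k, d k * toZ (decide (HoldsA M (if k = a then φ else if k = b then ψ else Z') g w)) =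
          (if k = a then toZ (decide (HoldsA M φ g w)) else 0) +
          (if k = b then toZ (decide (HoldsA M ψ g w)) else 0) := by
        intro k
        by_cases h1 : k = a
        · subst h1
          rw [if_pos rfl, if_pos rfl, if_neg hab, ha]
          ring
        · rw [if_neg h1, if_neg h1]
          by_cases h2 : k = b
          · subst h2
            rw [if_pos rfl, if_pos rfl, hb]
            ring
          · rw [if_neg h2, if_neg h2]
            have := hZ'h M g w
            simp [toZ, this]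
      simp only [this]
      rw [Finset.sum_add_distrib, Finset.sum_ite_eq', Finset.sum_ite_eq']
      simp [add_assoc]
  have key2 : ∃ (X : FmA B → FmA B → FmA B) (p m q : List (ℕ × ℕ)),
        (∀ φ ψ, codeA (X φ ψ) = p ++ (codeA φ ++ (m ++ (codeA ψ ++ q)))) ∧
        (∀ (M : Model) (φ ψ : FmA B) (g : ℕ → M.W) (w : M.W),
          toZ (decide (HoldsA M (X φ ψ) g w)) =
            c + toZ (decide (HoldsA M φ g w)) + toZ (decide (HoldsA M ψ g w))) := by
    obtain ⟨L1, L2, hL⟩ := List.append_of_mem (List.mem_finRange i)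
    have hj' : j ∈ L1 ++ i :: L2 := by rw [← hL]; exact List.mem_finRange j
    rcases List.mem_append.mp hj' with h | h
    · obtain ⟨L3, L4, rfl⟩ := List.append_of_mem h
      exact key j i hij.symm hj hi L3 L4 L2 (by rw [hL]; simp)
    · rcases List.mem_cons.mp h with h | h
      · exact absurd h.symm hij
      · obtain ⟨L3, L4, rfl⟩ := List.append_of_mem h
        exact key i j hij hi hj L1 L3 L4 hL
  obtain ⟨X, p, m, q, hc, hh⟩ := key2
  have fin : ∀ (P Q R : Prop), toZ (decide P) = toZ (decide Q) + toZ (decide R) →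
      (P ↔ ¬ (Q ↔ R)) := by
    intro P Q R h
    exact fin_aux h
  rcases zmod2_cases c with h0 | h1
  · refine ⟨⟨X, T', p, m, q, hc, ?_, hT'h⟩⟩
    intro M φ ψ g w
    apply fin
    rw [hh, h0, zero_add]
  · refine ⟨⟨fun φ ψ => X (X φ ψ) Z', T', p ++ p, m, q ++ (m ++ (codeA Z' ++ q)), ?_, ?_, hT'h⟩⟩
    · intro φ ψ
      rw [hc, hc]
      simp
    · intro M φ ψ g w
      apply fin
      rw [hh, hh, h1]
      have h3 : toZ (decide (HoldsA M Z' g w)) = 0 := by
        have := hZ'h M g w
        simp [toZ, this]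
      rw [h3]
      have e : ∀ a b : ZMod 2, 1 + (1 + a + b) + 0 = a + b := by decide
      exact e _ _

end Pool.Agent.Lib.MP_bba6cc_lc
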