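import Pool.Agent.Lib.MP_bba6cc_lc.Qbf

/-!
# Hybrid formulas with the binder and satisfaction operators: definitions

The language `O₂ = {◇, □, ↓, @}` of the problem over a finite list `B` of Boolean functions:
atomic propositions, nominals, state variables, the functions of `B`, `◇`, `□`, the binder `↓x`
and the operators `@` for nominals and for state variables.
-/

namespace Pool.Agent.Lib.MP_bba6cc_lc

open Classical N487b59b3 N68a2faeb

/-- Formulas with `◇`, `□`, `↓`, `@` over the Boolean functions of the list `B`; atoms are the
atomic propositions `prp p`, the nominals `nom i` and the state variables `var x`. -/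
inductive FmA (B : List BFun) : Type
  | prp (p : ℕ)
  | nom (i : ℕ)
  | var (x : ℕ)
  | app (i : Fin B.length) (args : Fin (B.get i).ar → FmA B)
  | dia (φ : FmA B)
  | box (φ : FmA B)
  | down (x : ℕ) (φ : FmA B)
  | atNom (i : ℕ) (φ : FmA B)
  | atVar (x : ℕ) (φ : FmA B)

/-- Truth of a formula at a state under an assignment. -/
def HoldsA {B : List BFun} (M : Model) : FmA B → (ℕ → M.W) → M.W → Prop
  | .prp p, _, w => M.V p w
  | .nom i, _, w => M.N i = w
  | .var x, g, w => g x = w
  | .app i args, g, w => (B.get i).fn (fun j => decide (HoldsA M (args j) g w)) = true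
  | .dia φ, g, w => ∃ v, M.R w v ∧ HoldsA M φ g v
  | .box φ, g, w => ∀ v, M.R w v → HoldsA M φ g v
  | .down x φ, g, w => HoldsA M φ (Function.update g x w) w
  | .atNom i φ, g, _ => HoldsA M φ g (M.N i)
  | .atVar x φ, g, _ => HoldsA M φ g (g x)

/-- `φ` holds at some state, under some assignment, of some model whose frame is in the class. -/
def SatInA {B : List BFun} (F : FrameClass) (φ : FmA B) : Prop :=
  ∃ M : Model, F.Mem M.R ∧ ∃ g w, HoldsA M φ g w

/-- The word of a formula: prefix notation, one pair of numbers (kind, name) per symbol. -/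
def codeA {B : List BFun} : FmA B → List (ℕ × ℕ)
  | .prp p => [(0, p)]
  | .nom i => [(1, i)]
  | .var x => [(2, x)]
  | .app i args => (3, i.val) :: (List.finRange _).flatMap (fun j => codeA (args j))
  | .dia φ => (4, 0) :: codeA φ
  | .box φ => (5, 0) :: codeA φ
  | .down x φ => (6, x) :: codeA φ
  | .atNom i φ => (7, i) :: codeA φ
  | .atVar x φ => (8, x) :: codeA φ

/-- The decision problem `F-SAT({◇, □, ↓, @}, B)`: is the bit string the encoding of a formula
that is satisfiable over the class `F`? -/
noncomputable def satProblemA (B : List BFun) (F : FrameClass) : DecisionProblem :=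
  fun s => decide (∃ φ : FmA B, s = bitEncode (codeA φ) ∧ SatInA F φ)

/-- The binary conjunction. -/
def conj : BFun := ⟨2, fun x => x 0 && x 1⟩

/-- unique readability -/
theorem codeA_prefix {B : List BFun} (φ : FmA B) : ∀ (ψ : FmA B) (r s : List (ℕ × ℕ)),
    codeA φ ++ r = codeA ψ ++ s → φ = ψ ∧ r = s := by
  induction φ with
  | prp p =>
    intro ψ r s h
    cases ψ <;> simp_all [codeA]
  | nom p =>
    intro ψ r s h
    cases ψ <;> simp_all [codeA]
  | var p =>
    intro ψ r s h
    cases ψ <;> simp_all [codeA]
  | app i args ih =>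
    intro ψ r s h
    cases ψ with
    | app j brgs =>
      simp only [codeA, List.cons_append, List.cons.injEq, Prod.mk.injEq, true_and] at h
      obtain ⟨h1, h2⟩ := h
      have hij : i = j := Fin.ext h1
      subst hij
      have key : ∀ (l : List (Fin (B.get i).ar)) (r s : List (ℕ × ℕ)),
          l.flatMap (fun j => codeA (args j)) ++ r = l.flatMap (fun j => codeA (brgs j)) ++ s →
          (∀ j ∈ l, args j = brgs j) ∧ r = s := by
        intro l
        induction l with
        | nil => intro r s h; exact ⟨by simp, by simpa using h⟩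
        | cons a l ihl =>
          intro r s h
          rw [List.flatMap_cons, List.flatMap_cons, List.append_assoc, List.append_assoc] at h
          obtain ⟨e1, e2⟩ := ih a _ _ _ h
          obtain ⟨e3, e4⟩ := ihl _ _ e2
          refine ⟨?_, e4⟩
          intro b hb
          rcases List.mem_cons.mp hb with rfl | hb
          · exact e1
          · exact e3 b hb
      obtain ⟨e1, e2⟩ := key _ _ _ h2
      refine ⟨?_, e2⟩
      congr 1
      funext b
      exact e1 b (List.mem_finRange b)
    | _ => simp [codeA] at h
  | dia φ ih =>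
    intro ψ r s h
    cases ψ with
    | dia ψ =>
      simp only [codeA, List.cons_append, List.cons.injEq, true_and] at h
      obtain ⟨e1, e2⟩ := ih _ _ _ h
      exact ⟨by rw [e1], e2⟩
    | _ => simp [codeA] at h
  | box φ ih =>
    intro ψ r s h
    cases ψ with
    | box ψ =>
      simp only [codeA, List.cons_append, List.cons.injEq, true_and] at h
      obtain ⟨e1, e2⟩ := ih _ _ _ h
      exact ⟨by rw [e1], e2⟩
    | _ => simp [codeA] at h
  | down x φ ih =>
    intro ψ r s h
    cases ψ with
    | down y ψ =>
      simp only [codeA, List.cons_append, List.cons.injEq, Prod.mk.injEq, true_and] at h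
      obtain ⟨h1, h2⟩ := h
      obtain ⟨e1, e2⟩ := ih _ _ _ h2
      exact ⟨by rw [e1, h1], e2⟩
    | _ => simp [codeA] at h
  | atNom x φ ih =>
    intro ψ r s h
    cases ψ with
    | atNom y ψ =>
      simp only [codeA, List.cons_append, List.cons.injEq, Prod.mk.injEq, true_and] at h
      obtain ⟨h1, h2⟩ := h
      obtain ⟨e1, e2⟩ := ih _ _ _ h2
      exact ⟨by rw [e1, h1], e2⟩
    | _ => simp [codeA] at h
  | atVar x φ ih =>
    intro ψ r s h
    cases ψ with
    | atVar y ψ =>
      simp only [codeA, List.cons_append, List.cons.injEq, Prod.mk.injEq, true_and] at h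
      obtain ⟨h1, h2⟩ := h
      obtain ⟨e1, e2⟩ := ih _ _ _ h2
      exact ⟨by rw [e1, h1], e2⟩
    | _ => simp [codeA] at h

theorem codeA_injective {B : List BFun} : Function.Injective (codeA (B := B)) := by
  intro φ ψ h
  exact (codeA_prefix φ ψ [] [] (by rw [h])).1

theorem codeA_ne_nil {B : List BFun} (φ : FmA B) : codeA φ ≠ [] := by
  cases φ <;> simp [codeA]

end Pool.Agent.Lib.MP_bba6cc_lc
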