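import Pool.Agent.Lib.MP_bba6cc_lc.AtSem
import Pool.Agent.Lib.MP_bba6cc_lc.HardPT

/-!
# The translation of conjunctions runs in polynomial time

Both reductions between satisfiability over `B ∪ {∧}` and over `B`, for the language with `@`.
-/

namespace Pool.Agent.Lib.MP_bba6cc_lc.At

open Pool.Agent Pool.Agent.MSR Pool.Agent.MSR.En N487b59b3 N68a2faeb N793a5b8e

open Pool.Agent.Lib.MP_bba6cc_lc

variable {B : List BFun} (K : ConnA B)

/-! ### words of templates -/

/-- word of a template -/
def wrA : TpA → (ℕ → List Tok) → List Tok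
  | .hole k, σ => σ k
  | .xr a b, σ => tks K.p ++ (wrA a σ ++ (tks K.m ++ (wrA b σ ++ tks K.q)))
  | .top, _ => tks (codeA K.T)
  | .v n, _ => [tk (2, n)]
  | .nm n, _ => [tk (1, n)]
  | .dia a, σ => tk (4, 0) :: wrA a σ
  | .down n a, σ => tk (6, n) :: wrA a σ
  | .atN n a, σ => tk (7, n) :: wrA a σ
  | .atV n a, σ => tk (8, n) :: wrA a σ

theorem wrA_fill (t : TpA) (σ : ℕ → FmA B) :
    tks (codeA (fillA K t σ)) = wrA K t (fun k => tks (codeA (σ k))) := by
  induction t with
  | hole k => rfl
  | xr a b iha ihb =>
    simp only [fillA, wrA]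
    rw [K.code_X, tks_append, tks_append, tks_append, tks_append, iha, ihb]
  | top => rfl
  | v n => rfl
  | nm n => rfl
  | dia a iha =>
    simp only [fillA, wrA, ← iha]
    rfl
  | down n a iha =>
    simp only [fillA, wrA, ← iha]
    rfl
  | atN n a iha =>
    simp only [fillA, wrA, ← iha]
    rfl
  | atV n a iha =>
    simp only [fillA, wrA, ← iha]
    rfl

/-- size of the fixed part -/
def baseA : TpA → ℕ
  | .hole _ => 0
  | .xr a b => sz (tks K.p) + (baseA a + (sz (tks K.m) + (baseA b + sz (tks K.q))))
  | .top => sz (tks (codeA K.T))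
  | .v n => sz [tk (2, n)]
  | .nm n => sz [tk (1, n)]
  | .dia a => sz [tk (4, 0)] + baseA a
  | .down n a => sz [tk (6, n)] + baseA a
  | .atN n a => sz [tk (7, n)] + baseA a
  | .atV n a => sz [tk (8, n)] + baseA a

def holesA : TpA → List ℕ
  | .hole k => [k]
  | .xr a b => holesA a ++ holesA b
  | .top => []
  | .v _ => []
  | .nm _ => []
  | .dia a => holesA a
  | .down _ a => holesA a
  | .atN _ a => holesA a
  | .atV _ a => holesA a

theorem sz_consTok (t : Tok) (l : List Tok) : sz (t :: l) = sz [t] + sz l := by
  rw [show t :: l = [t] ++ l from rfl, sz_append]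

theorem sz_wrA (t : TpA) (σ : ℕ → List Tok) :
    sz (wrA K t σ) = baseA K t + ((holesA t).map fun k => sz (σ k)).sum := by
  induction t with
  | hole k => simp [wrA, baseA, holesA]
  | xr a b iha ihb =>
    simp only [wrA, baseA, holesA, sz_append, iha, ihb, List.map_append, List.sum_append]
    omega
  | top => simp [wrA, baseA, holesA]
  | v n => simp [wrA, baseA, holesA]
  | nm n => simp [wrA, baseA, holesA]
  | dia a iha =>
    simp only [wrA, baseA, holesA]
    rw [sz_consTok, iha]
    omega
  | down n a iha =>
    simp only [wrA, baseA, holesA]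
    rw [sz_consTok, iha]
    omega
  | atN n a iha =>
    simp only [wrA, baseA, holesA]
    rw [sz_consTok, iha]
    omega
  | atV n a iha =>
    simp only [wrA, baseA, holesA]
    rw [sz_consTok, iha]
    omega

theorem PT_wrA {α : Type} [En α] (t : TpA) {σ : α → ℕ → List Tok} (h : ∀ k, PT (fun a => σ a k)) :
    PT (fun a => wrA K t (σ a)) := by
  induction t with
  | hole k => exact h k
  | xr a b iha ihb =>
    exact PT.append (PT.const _) (PT.append iha (PT.append (PT.const _)
      (PT.append ihb (PT.const _))))
  | top => exact PT.const _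
  | v n => exact PT.const _
  | nm n => exact PT.const _
  | dia a iha => exact PT.cons (PT.const _) iha
  | down n a iha => exact PT.cons (PT.const _) iha
  | atN n a iha => exact PT.cons (PT.const _) iha
  | atV n a iha => exact PT.cons (PT.const _) iha

/-! ### gathering words -/

/-- put the first `k` words of the stack behind `acc` -/
def grab : ℕ → List Tok → List (List Tok) → Bool → HSt
  | 0, acc, stk, o => (acc :: stk, o)
  | k + 1, acc, stk, o => MSR.lcase stk ([], false) (fun a r => grab k (acc ++ a) r o)

theorem grab_append (l : List (List Tok)) : ∀ (acc : List Tok) (stk : List (List Tok)) (o : Bool),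
    grab l.length acc (l ++ stk) o = ((acc ++ l.flatten) :: stk, o) := by
  induction l with
  | nil => intro acc stk o; simp [grab]
  | cons a l ih =>
    intro acc stk o
    show grab l.length (acc ++ a) (l ++ stk) o = _
    rw [ih, List.flatten_cons, List.append_assoc]

theorem grab_inv (k : ℕ) : ∀ (acc : List Tok) (stk : List (List Tok)) (o : Bool)
    (st' : List (List Tok)), grab k acc stk o = (st', true) →
    o = true ∧ ∃ l r, stk = l ++ r ∧ l.length = k ∧ st' = (acc ++ l.flatten) :: r := by
  induction k with
  | zero =>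
    intro acc stk o st' h
    simp only [grab, Prod.mk.injEq] at h
    exact ⟨h.2, [], stk, rfl, rfl, by simp [← h.1]⟩
  | succ k ih =>
    intro acc stk o st' h
    rcases stk with _ | ⟨a, r⟩
    · simp [grab, MSR.lcase] at h
    · obtain ⟨h1, l, r', h2, h3, h4⟩ := ih (acc ++ a) r o st' h
      refine ⟨h1, a :: l, r', by rw [h2]; rfl, by rw [List.length_cons, h3], ?_⟩
      rw [h4, List.flatten_cons, List.append_assoc]

theorem grab_false (k : ℕ) : ∀ (acc : List Tok) (stk : List (List Tok)),
    (grab k acc stk false).2 = false := by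
  induction k with
  | zero => intro acc stk; rfl
  | succ k ih =>
    intro acc stk
    rcases stk with _ | ⟨a, r⟩
    · rfl
    · exact ih _ _

theorem sz_grab (k : ℕ) : ∀ (acc : List Tok) (stk : List (List Tok)) (o : Bool),
    sz (grab k acc stk o) ≤ 4 * sz acc + 2 * sz stk + 4 := by
  induction k with
  | zero =>
    intro acc stk o
    simp only [grab, sz_pair, sz_cons, sz_bool]
    omega
  | succ k ih =>
    intro acc stk o
    rcases stk with _ | ⟨a, r⟩
    · simp only [grab, MSR.lcase, sz_pair, sz_nil, sz_bool]
      omega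
    · have := ih (acc ++ a) r o
      simp only [grab, MSR.lcase]
      rw [sz_append] at this
      rw [sz_cons]
      omega

theorem PT_grab (k : ℕ) : ∀ {α : Type} [En α] {acc : α → List Tok} {stk : α → List (List Tok)}
    {o : α → Bool}, PT acc → PT stk → PT o → PT (fun a => grab k (acc a) (stk a) (o a)) := by
  induction k with
  | zero =>
    intro α _ acc stk o h1 h2 h3
    exact PT.pair (PT.cons h1 h2) h3
  | succ k ih =>
    intro α _ acc stk o h1 h2 h3
    show PT (fun a => MSR.lcase (stk a) ([], false) (fun w r => grab k (acc a ++ w) r (o a)))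
    apply PT.lcase h2 (PT.const _)
    apply ih
    · exact PT.append (h1.comp (PT.fst PT.id')) (PT.fst (PT.snd PT.id'))
    · exact PT.snd (PT.snd PT.id')
    · exact h3.comp (PT.fst PT.id')

/-! ### the machine -/

/-- arities -/
def arB (B : List BFun) (n : ℕ) : ℕ := if h : n < B.length then (B.get ⟨n, h⟩).ar else 0

/-- the symbols of `B` with a number less than `n` -/
def appS (B : List BFun) : ℕ → HSt → Tok → HSt
  | 0, _, _ => ([], false)
  | n + 1, st, t => if t = (⟨3⟩, ⟨n⟩) then grab (arB B n) [t] st.1 st.2 else appS B n st t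

/-- one symbol, from right to left -/
def astep (st : HSt) (t : Tok) : HSt :=
  if t.1 = ⟨0⟩ then ([t] :: st.1, st.2)
  else if t.1 = ⟨1⟩ then ([(⟨1⟩, od t.2)] :: st.1, st.2)
  else if t.1 = ⟨2⟩ then ([(⟨2⟩, od t.2)] :: st.1, st.2)
  else if t = (⟨4⟩, ⟨0⟩) then grab 1 [t] st.1 st.2
  else if t = (⟨5⟩, ⟨0⟩) then grab 1 [t] st.1 st.2
  else if t.1 = ⟨6⟩ then grab 1 [(⟨6⟩, od t.2)] st.1 st.2
  else if t.1 = ⟨7⟩ then grab 1 [(⟨7⟩, od t.2)] st.1 st.2
  else if t.1 = ⟨8⟩ then grab 1 [(⟨8⟩, od t.2)] st.1 st.2
  else if t = (⟨3⟩, ⟨B.length⟩) then MSR.lcase st.1 ([], false)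
    (fun a r => MSR.lcase r ([], false) (fun b r' => (wrA K conjT (twoL a b) :: r', st.2)))
  else appS B B.length st t

/-- the run of the machine -/
def arun (s : List Tok) : HSt := s.reverse.foldl (astep K) ([], true)

/-- right to left -/
def afold (s : List Tok) (st : HSt) : HSt := s.foldr (fun t st => astep K st t) st

theorem arun_eq (s : List Tok) : arun K s = afold K s ([], true) := by
  unfold arun afold
  rw [List.foldl_reverse]

theorem afold_append (s t : List Tok) (st : HSt) :
    afold K (s ++ t) st = afold K s (afold K t st) := by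
  unfold afold
  rw [List.foldr_append]

theorem appS_lt (st : HSt) (m n : ℕ) (h : m < n) :
    appS B n st (tk (3, m)) = grab (arB B m) [tk (3, m)] st.1 st.2 := by
  induction n with
  | zero => omega
  | succ n ih =>
    by_cases hm : m = n
    · subst hm
      simp only [appS]
      exact if_pos rfl
    · simp only [appS]
      rw [if_neg, ih (by omega)]
      intro h1
      simp only [tk, Prod.mk.injEq, BN.mk.injEq] at h1
      exact hm h1.2

theorem appS_ge (st : HSt) (m n : ℕ) (h : n ≤ m) : appS B n st (tk (3, m)) = ([], false) := by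
  induction n with
  | zero => rfl
  | succ n ih =>
    simp only [appS]
    rw [if_neg, ih (by omega)]
    intro h1
    simp only [tk, Prod.mk.injEq, BN.mk.injEq] at h1
    omega

theorem appS_ne (st : HSt) (a b n : ℕ) (h : a ≠ 3) : appS B n st (tk (a, b)) = ([], false) := by
  induction n with
  | zero => rfl
  | succ n ih =>
    simp only [appS]
    rw [if_neg, ih]
    intro h1
    simp only [tk, Prod.mk.injEq, BN.mk.injEq] at h1
    exact h h1.1

theorem appS_false (t : Tok) (n : ℕ) (stk : List (List Tok)) :
    (appS B n (stk, false) t).2 = false := by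
  induction n with
  | zero => rfl
  | succ n ih =>
    simp only [appS]
    split_ifs
    · exact grab_false _ _ _
    · exact ih

theorem astep_app (st : HSt) {m : ℕ} (h : m < B.length) :
    astep K st (tk (3, m)) = grab (arB B m) [tk (3, m)] st.1 st.2 := by
  have e : astep K st (tk (3, m)) = appS B B.length st (tk (3, m)) := by
    unfold astep
    have h1 : ¬ tk (3, m) = (⟨3⟩, ⟨B.length⟩) := by
      intro h1
      simp only [tk, Prod.mk.injEq, BN.mk.injEq, true_and] at h1
      omega
    rw [if_neg h1]
    simp [tk]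
  rw [e, appS_lt st m _ h]

theorem astep_conj (stk : List (List Tok)) (o : Bool) (a b : List Tok) :
    astep K (a :: b :: stk, o) (tk (3, B.length)) = (wrA K conjT (twoL a b) :: stk, o) := by
  unfold astep
  simp [tk, MSR.lcase]

/-- the word of the translation -/
def wdA (φ : FmA (B ++ [conj])) : List Tok := tks (codeA (trA K φ))

theorem map_cast {n m : ℕ} {α : Type} (e : n = m) (f : Fin m → α) :
    (List.finRange n).map (fun j => f (Fin.cast e j)) = (List.finRange m).map f := by
  subst e
  rfl

theorem tks_flatMap {α : Type} (L : List α) (f : α → List (ℕ × ℕ)) :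
    tks (L.flatMap f) = L.flatMap fun j => tks (f j) := by
  unfold tks
  rw [List.map_flatMap]

theorem wdA_app {i : Fin (B ++ [conj]).length} (h : i.val < B.length)
    (args : Fin ((B ++ [conj]).get i).ar → FmA (B ++ [conj])) :
    wdA K (.app i args) = tk (3, i.val) :: (List.finRange _).flatMap fun j => wdA K (args j) := by
  unfold wdA
  simp only [trA, dif_pos h, codeA]
  rw [flatMap_cast (congrArg BFun.ar (get_left h).symm) (fun j => codeA (trA K (args j)))]
  show tk (3, i.val) :: tks _ = _
  rw [tks_flatMap]

theorem wdA_conj {i : Fin (B ++ [conj]).length} (h : ¬ i.val < B.length)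
    (args : Fin ((B ++ [conj]).get i).ar → FmA (B ++ [conj])) :
    wdA K (.app i args) = wrA K conjT (twoL
      (wdA K (args (Fin.cast (congrArg BFun.ar (get_right h).symm) p0)))
      (wdA K (args (Fin.cast (congrArg BFun.ar (get_right h).symm) p1)))) := by
  unfold wdA
  simp only [trA, dif_neg h]
  rw [wrA_fill]
  congr 1
  funext k
  unfold twoA twoL
  split_ifs <;> rfl

theorem finRange_conj {i : Fin (B ++ [conj]).length} (h : ¬ i.val < B.length) {α : Type}
    (f : Fin ((B ++ [conj]).get i).ar → α) :
    (List.finRange _).map f = [f (Fin.cast (congrArg BFun.ar (get_right h).symm) p0),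
      f (Fin.cast (congrArg BFun.ar (get_right h).symm) p1)] := by
  rw [← map_cast (congrArg BFun.ar (get_right h).symm) f]
  rfl

theorem afold_flat {n : ℕ} (f : Fin n → FmA (B ++ [conj]))
    (ih : ∀ j, ∀ stk : List (List Tok), ∀ o : Bool,
      afold K (tks (codeA (f j))) (stk, o) = (wdA K (f j) :: stk, o))
    (L : List (Fin n)) : ∀ stk : List (List Tok), ∀ o : Bool,
      afold K (tks (L.flatMap fun j => codeA (f j))) (stk, o) =
        (L.map (fun j => wdA K (f j)) ++ stk, o) := by
  induction L with
  | nil => intro stk o; rfl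
  | cons a L ihL =>
    intro stk o
    rw [List.flatMap_cons, tks_append, afold_append, ihL, ih]
    rfl

theorem afold_cons (t : ℕ × ℕ) (s : List (ℕ × ℕ)) (st : HSt) :
    afold K (tks (t :: s)) st = astep K (afold K (tks s) st) (tk t) := rfl

theorem afold_code (φ : FmA (B ++ [conj])) : ∀ stk : List (List Tok), ∀ o : Bool,
    afold K (tks (codeA φ)) (stk, o) = (wdA K φ :: stk, o) := by
  induction φ with
  | prp p => intro stk o; rfl
  | nom i => intro stk o; rfl
  | var x => intro stk o; rfl
  | app i args ih =>
    intro stk o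
    simp only [codeA]
    rw [afold_cons, afold_flat K args ih]
    by_cases hi : i.val < B.length
    · rw [astep_app K _ hi]
      have e : arB B i.val = ((List.finRange ((B ++ [conj]).get i).ar).map
          (fun j => wdA K (args j))).length := by
        rw [List.length_map, List.length_finRange]
        unfold arB
        rw [dif_pos hi]
        exact congrArg BFun.ar (get_left hi).symm
      rw [e, grab_append, wdA_app K hi, ← List.flatMap_def]
      rfl
    · rw [finRange_conj hi, val_right hi]
      show astep K (_ :: _ :: stk, o) _ = _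
      rw [astep_conj, wdA_conj K hi]
  | dia φ ih =>
    intro stk o
    simp only [codeA]
    rw [afold_cons, ih]
    rfl
  | box φ ih =>
    intro stk o
    simp only [codeA]
    rw [afold_cons, ih]
    rfl
  | down x φ ih =>
    intro stk o
    simp only [codeA]
    rw [afold_cons, ih]
    rfl
  | atNom i φ ih =>
    intro stk o
    simp only [codeA]
    rw [afold_cons, ih]
    rfl
  | atVar x φ ih =>
    intro stk o
    simp only [codeA]
    rw [afold_cons, ih]
    rfl

theorem astep_false (st : HSt) (t : Tok) (h : st.2 = false) : (astep K st t).2 = false := by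
  obtain ⟨stk, o⟩ := st
  simp only at h
  subst h
  unfold astep
  split_ifs
  · rfl
  · rfl
  · rfl
  · exact grab_false _ _ _
  · exact grab_false _ _ _
  · exact grab_false _ _ _
  · exact grab_false _ _ _
  · exact grab_false _ _ _
  · rcases stk with _ | ⟨a, _ | ⟨b, r⟩⟩ <;> rfl
  · exact appS_false _ _ _

/-- the formula with given arguments -/
def mkApp (m : ℕ) (hm : m < B.length) (l : List (FmA (B ++ [conj]))) (hl : l.length = arB B m) :
    FmA (B ++ [conj]) :=
  .app (inc ⟨m, hm⟩) fun j => l.get (Fin.cast (by
    rw [hl]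
    unfold arB
    rw [dif_pos hm]
    exact congrArg BFun.ar (get_inc ⟨m, hm⟩)) j)

theorem flatMap_get {α β : Type} (l : List α) {n : ℕ} (e : n = l.length) (f : α → List β) :
    (List.finRange n).flatMap (fun j => f (l.get (Fin.cast e j))) = l.flatMap f := by
  rw [flatMap_cast e (fun j => f (l.get j))]
  rw [List.flatMap_def, List.flatMap_def]
  congr 1
  rw [← List.ofFn_eq_map]
  conv_rhs => rw [← List.ofFn_get l]
  rw [List.map_ofFn]
  rfl

theorem code_mkApp (m : ℕ) (hm : m < B.length) (l : List (FmA (B ++ [conj])))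
    (hl : l.length = arB B m) : codeA (mkApp m hm l hl) = (3, m) :: l.flatMap codeA := by
  unfold mkApp
  simp only [codeA]
  rw [flatMap_get l _ codeA]
  rfl

theorem wd_mkApp (m : ℕ) (hm : m < B.length) (l : List (FmA (B ++ [conj])))
    (hl : l.length = arB B m) : wdA K (mkApp m hm l hl) = tk (3, m) :: l.flatMap (wdA K) := by
  unfold mkApp
  rw [wdA_app K (i := inc ⟨m, hm⟩) hm, flatMap_get l _ (wdA K)]
  rfl

/-- the conjunction of two formulas -/
def mkConj (x y : FmA (B ++ [conj])) : FmA (B ++ [conj]) :=
  .app ⟨B.length, by simp⟩ fun j => if j.val = 0 then x else y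

theorem code_mkConj (x y : FmA (B ++ [conj])) :
    codeA (mkConj x y) = (3, B.length) :: (codeA x ++ codeA y) := by
  unfold mkConj
  simp only [codeA]
  have hi : ¬ (⟨B.length, by simp⟩ : Fin (B ++ [conj]).length).val < B.length := by simp
  rw [List.flatMap_def, finRange_conj hi]
  simp [p0, p1]

theorem wd_mkConj (x y : FmA (B ++ [conj])) :
    wdA K (mkConj x y) = wrA K conjT (twoL (wdA K x) (wdA K y)) := by
  unfold mkConj
  have hi : ¬ (⟨B.length, by simp⟩ : Fin (B ++ [conj]).length).val < B.length := by simp
  rw [wdA_conj K hi]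
  simp [p0, p1]

/-- an accepted word is a sequence of codes -/
theorem afold_inv (s : List (ℕ × ℕ)) : ∀ stk, afold K (tks s) ([], true) = (stk, true) →
    ∃ as : List (FmA (B ++ [conj])), s = as.flatMap codeA ∧ stk = as.map (wdA K) := by
  induction s with
  | nil =>
    intro stk h
    refine ⟨[], rfl, ?_⟩
    have : (([], true) : HSt) = (stk, true) := h
    exact (Prod.mk.inj this).1.symm
  | cons t s ih =>
    intro stk h
    rw [afold_cons] at h
    rcases hst : afold K (tks s) ([], true) with ⟨stk1, o1⟩
    rw [hst] at h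
    have ho : o1 = true := by
      by_contra ho
      rw [Bool.not_eq_true] at ho
      subst ho
      have h1 := astep_false K (stk1, false) (tk t) rfl
      rw [h] at h1
      exact absurd h1 (by simp)
    subst ho
    obtain ⟨as, hs, hk⟩ := ih stk1 hst
    subst hk
    -- one argument
    have one : ∀ (w : Tok) (F : FmA (B ++ [conj]) → FmA (B ++ [conj])),
        (∀ x, codeA (F x) = t :: codeA x) → (∀ x, wdA K (F x) = w :: wdA K x) →
        grab 1 [w] (as.map (wdA K)) true = (stk, true) →
        ∃ as' : List (FmA (B ++ [conj])), t :: s = as'.flatMap codeA ∧ stk = as'.map (wdA K) := by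
      intro w F h1 h2 h3
      rcases as with _ | ⟨x, r⟩
      · simp [grab, MSR.lcase] at h3
      · refine ⟨F x :: r, ?_, ?_⟩
        · rw [List.flatMap_cons, h1, hs, List.flatMap_cons]
          rfl
        · simp only [List.map_cons, grab, MSR.lcase, Prod.mk.injEq, and_true] at h3
          rw [← h3, List.map_cons, h2]
          rfl
    have zero : ∀ (w : List Tok) (x : FmA (B ++ [conj])), codeA x = [t] → wdA K x = w →
        w :: as.map (wdA K) = stk →
        ∃ as' : List (FmA (B ++ [conj])), t :: s = as'.flatMap codeA ∧ stk = as'.map (wdA K) := by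
      intro w x h1 h2 h3
      refine ⟨x :: as, ?_, ?_⟩
      · rw [List.flatMap_cons, h1, hs]
        rfl
      · rw [← h3, List.map_cons, h2]
    obtain ⟨a, b⟩ := t
    unfold astep at h
    split_ifs at h with c0 c1 c2 c4 c5 c6 c7 c8 c3
    · simp only [tk, BN.mk.injEq] at c0
      subst c0
      exact zero _ (.prp b) rfl rfl (Prod.mk.inj h).1
    · simp only [tk, BN.mk.injEq] at c1
      subst c1
      exact zero _ (.nom b) rfl rfl (Prod.mk.inj h).1
    · simp only [tk, BN.mk.injEq] at c2
      subst c2
      exact zero _ (.var b) rfl rfl (Prod.mk.inj h).1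
    · simp only [tk, BN.mk.injEq, Prod.mk.injEq] at c4
      obtain ⟨rfl, rfl⟩ := c4
      exact one _ .dia (fun _ => rfl) (fun _ => rfl) h
    · simp only [tk, BN.mk.injEq, Prod.mk.injEq] at c5
      obtain ⟨rfl, rfl⟩ := c5
      exact one _ .box (fun _ => rfl) (fun _ => rfl) h
    · simp only [tk, BN.mk.injEq] at c6
      subst c6
      exact one _ (.down b) (fun _ => rfl) (fun _ => rfl) h
    · simp only [tk, BN.mk.injEq] at c7
      subst c7
      exact one _ (.atNom b) (fun _ => rfl) (fun _ => rfl) h
    · simp only [tk, BN.mk.injEq] at c8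
      subst c8
      exact one _ (.atVar b) (fun _ => rfl) (fun _ => rfl) h
    · simp only [tk, BN.mk.injEq, Prod.mk.injEq] at c3
      obtain ⟨rfl, rfl⟩ := c3
      rcases as with _ | ⟨x, _ | ⟨y, r⟩⟩
      · simp [MSR.lcase] at h
      · simp [MSR.lcase] at h
      · refine ⟨mkConj x y :: r, ?_, ?_⟩
        · rw [List.flatMap_cons, code_mkConj, hs, List.flatMap_cons, List.flatMap_cons]
          simp
        · simp only [List.map_cons, MSR.lcase, Prod.mk.injEq, and_true] at h
          rw [← h, List.map_cons, wd_mkConj]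
    · by_cases ha : a = 3
      · subst ha
        by_cases hb : b < B.length
        · rw [appS_lt _ _ _ hb] at h
          obtain ⟨_, l, r, h1, h2, h3⟩ := grab_inv _ _ _ _ _ h
          obtain ⟨as1, as2, e1, e2, e3⟩ := List.map_eq_append_iff.mp h1
          have hl : as1.length = arB B b := by rw [← h2, ← e2, List.length_map]
          refine ⟨mkApp b hb as1 hl :: as2, ?_, ?_⟩
          · rw [List.flatMap_cons, code_mkApp, hs, e1, List.flatMap_append]
            rfl
          · rw [h3, List.map_cons, wd_mkApp, ← e2, ← e3, ← List.flatMap_def]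
            rfl
        · rw [appS_ge _ _ _ (by omega)] at h
          exact absurd (Prod.mk.inj h).2 (by simp)
      · rw [appS_ne _ _ _ _ ha] at h
        exact absurd (Prod.mk.inj h).2 (by simp)

theorem hout_aspec (f : List Tok → List Tok) (s : List (ℕ × ℕ)) :
    (∃ a : FmA (B ++ [conj]), s = codeA a ∧ hout f (arun K (tks s)) = f (wdA K a)) ∨
      ((¬ ∃ a : FmA (B ++ [conj]), s = codeA a) ∧ hout f (arun K (tks s)) = []) := by
  by_cases h : ∃ a : FmA (B ++ [conj]), s = codeA a
  · obtain ⟨a, rfl⟩ := h
    left
    refine ⟨a, rfl, ?_⟩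
    rw [arun_eq, afold_code]
    simp [hout, MSR.lcase]
  · right
    refine ⟨h, ?_⟩
    rcases hst : arun K (tks s) with ⟨stk, o⟩
    rcases stk with _ | ⟨w, r⟩
    · rfl
    · by_cases hr : o = true ∧ r = []
      · obtain ⟨rfl, rfl⟩ := hr
        rw [arun_eq] at hst
        obtain ⟨as, hs, hk⟩ := afold_inv K s _ hst
        exfalso
        obtain ⟨a, ha⟩ : ∃ a, as = [a] := by
          rcases as with _ | ⟨a, _ | ⟨b, r⟩⟩
          · simp at hk
          · exact ⟨a, rfl⟩
          · simp at hk
        subst ha
        exact h ⟨a, by simpa using hs⟩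
      · have : (o && r.isEmpty) = false := by
          rcases o with _ | _
          · rfl
          · cases r with
            | nil => exact absurd ⟨rfl, rfl⟩ hr
            | cons _ _ => rfl
        simp [hout, MSR.lcase, this]

/-! ### polynomial time -/

theorem PT_appS (n : ℕ) {α : Type} [En α] {st : α → HSt} {t : α → Tok} (hst : PT st)
    (ht : PT t) : PT (fun a => appS B n (st a) (t a)) := by
  induction n with
  | zero => exact PT.const _
  | succ n ih =>
    simp only [appS]
    apply PT.ite (PT.eq ht (PT.const _)) _ ih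
    exact PT_grab _ (PT.cons ht (PT.const _)) (PT.fst hst) (PT.snd hst)

section

variable {α : Type} [En α]

theorem PT_astep : PT (fun p : α × HSt × Tok => astep K p.2.1 p.2.2) := by
  have hst : PT (fun p : α × HSt × Tok => p.2.1) := PT.fst (PT.snd PT.id')
  have ht : PT (fun p : α × HSt × Tok => p.2.2) := PT.snd (PT.snd PT.id')
  have ho : ∀ c : BN, PT (fun p : α × HSt × Tok => [((c, od p.2.2.2) : Tok)]) := fun c =>
    PT.cons (PT.pair (PT.const _) (PT.od (PT.snd ht))) (PT.const _)
  unfold astep
  have hT : ∀ t : Tok, PT (fun p : α × HSt × Tok => decide (p.2.2 = t)) :=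
    fun t => PT.eq ht (PT.const t)
  apply PT.ite (PT.eq (PT.fst ht) (PT.const _))
  · exact PT.pair (PT.cons (PT.cons ht (PT.const _)) (PT.fst hst)) (PT.snd hst)
  apply PT.ite (PT.eq (PT.fst ht) (PT.const _))
  · exact PT.pair (PT.cons (ho _) (PT.fst hst)) (PT.snd hst)
  apply PT.ite (PT.eq (PT.fst ht) (PT.const _))
  · exact PT.pair (PT.cons (ho _) (PT.fst hst)) (PT.snd hst)
  apply PT.ite (hT _)
  · exact PT_grab _ (PT.cons ht (PT.const _)) (PT.fst hst) (PT.snd hst)
  apply PT.ite (hT _)
  · exact PT_grab _ (PT.cons ht (PT.const _)) (PT.fst hst) (PT.snd hst)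
  apply PT.ite (PT.eq (PT.fst ht) (PT.const _))
  · exact PT_grab _ (ho _) (PT.fst hst) (PT.snd hst)
  apply PT.ite (PT.eq (PT.fst ht) (PT.const _))
  · exact PT_grab _ (ho _) (PT.fst hst) (PT.snd hst)
  apply PT.ite (PT.eq (PT.fst ht) (PT.const _))
  · exact PT_grab _ (ho _) (PT.fst hst) (PT.snd hst)
  apply PT.ite (hT _)
  · apply PT.lcase (PT.fst hst) (PT.const _)
    apply PT.lcase (PT.snd (PT.snd PT.id')) (PT.const _)
    apply PT.pair _ (PT.snd (hst.comp (PT.fst (PT.fst PT.id'))))
    apply PT.cons _ (PT.snd (PT.snd PT.id'))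
    apply PT_wrA K conjT
    intro k
    unfold twoL
    by_cases hk : k = 0
    · simp only [hk, if_true]
      exact PT.fst (PT.snd (PT.fst PT.id'))
    · simp only [hk, if_false]
      exact PT.fst (PT.snd PT.id')
  exact PT_appS _ hst ht

end

theorem sz_appS (t : Tok) (stk : List (List Tok)) (o : Bool) (n : ℕ) :
    sz (appS B n (stk, o) t) ≤ 4 * sz [t] + 2 * sz stk + 4 := by
  induction n with
  | zero =>
    simp only [appS, sz_pair, sz_nil, sz_bool]
    omega
  | succ n ih =>
    simp only [appS]
    split_ifs
    · exact sz_grab _ _ _ _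
    · exact ih

theorem sz_astep (st : HSt) (t : Tok) :
    sz (astep K st t) ≤ sz st + (8 * baseA K conjT + 100 * sz t + 1000) := by
  obtain ⟨stk, o⟩ := st
  have e1 : sz (⟨1⟩ : BN) = 1 := rfl
  have e2 : sz (⟨2⟩ : BN) = 2 := rfl
  have e6 : sz (⟨6⟩ : BN) = 3 := rfl
  have e7 : sz (⟨7⟩ : BN) = 3 := rfl
  have e8 : sz (⟨8⟩ : BN) = 4 := rfl
  have et : sz t.2 ≤ sz t := by
    have : sz t = 2 * sz t.1 + 1 + sz t.2 := sz_pair t.1 t.2
    omega
  have est : sz ((stk, o) : HSt) = 2 * sz stk + 2 := by
    rw [sz_pair, sz_bool]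
  have e1t : sz [t] = 2 * sz t + 1 := by rw [sz_cons, sz_nil]
  have ho : ∀ c : BN, sz [((c, od t.2) : Tok)] = 2 * (2 * sz c + 1 + (sz t.2 + 1)) + 1 := by
    intro c
    rw [sz_cons, sz_nil, sz_pair, sz_od]
  unfold astep
  dsimp only
  split_ifs
  · rw [sz_pair, sz_cons, e1t, sz_bool, est]
    omega
  · rw [sz_pair, sz_cons, ho, sz_bool, est, e1]
    omega
  · rw [sz_pair, sz_cons, ho, sz_bool, est, e2]
    omega
  · have := sz_grab 1 [t] stk o
    omega
  · have := sz_grab 1 [t] stk o
    omega
  · have := sz_grab 1 [(⟨6⟩, od t.2)] stk o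
    rw [ho, e6] at this
    omega
  · have := sz_grab 1 [(⟨7⟩, od t.2)] stk o
    rw [ho, e7] at this
    omega
  · have := sz_grab 1 [(⟨8⟩, od t.2)] stk o
    rw [ho, e8] at this
    omega
  · rcases stk with _ | ⟨a, _ | ⟨b, r⟩⟩
    · simp only [MSR.lcase, sz_pair, sz_nil, sz_bool]; omega
    · simp only [MSR.lcase, sz_pair, sz_nil, sz_bool, sz_cons]; omega
    · have h1 := sz_wrA K conjT (twoL a b)
      have e : ((holesA conjT).map fun k => sz (twoL a b k)).sum = sz b + (sz a + 0) := rfl
      rw [e] at h1
      simp only [MSR.lcase, sz_pair, sz_cons, h1]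
      omega
  · have := sz_appS (B := B) t stk o B.length
    omega

section

variable {α : Type} [En α]

theorem PT_arun {s : α → List Tok} (hs : PT s) : PT (fun a => arun K (s a)) := by
  unfold arun
  apply PT.foldl_add (g := fun _ => astep K) (PT.reverse hs) (PT.const _) (PT_astep K)
  obtain ⟨d, hd⟩ := hs.bound
  obtain ⟨c, hc⟩ : ∃ c, 8 * baseA K conjT + 1000 = c := ⟨_, rfl⟩
  refine ⟨fun n => c + 100 * (n + 2) ^ d, ?_, ?_⟩
  · exact (PB.const c).add ((PB.const 100).mul ((PB.id.add (PB.const 2)).pow d))
  · intro a st t htm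
    have ht : sz t ≤ (sz a + 2) ^ d :=
      (Pool.Agent.Lib.MP_bba6cc_lc.sz_mem (List.mem_reverse.mp htm)).trans (hd a)
    have := sz_astep K st t
    show sz (astep K st t) ≤ sz st + (c + 100 * (sz a + 2) ^ d)
    omega

theorem PT_aout {f : List Tok → List Tok} (hf : PT (fun w : List Tok => f w)) {s : α → List Tok}
    (hs : PT s) : PT (fun a => hout f (arun K (s a))) := by
  have hr : PT (fun a => arun K (s a)) := PT_arun K hs
  unfold hout
  apply PT.lcase (PT.fst hr) (PT.const _)
  apply PT.cond
  · exact PT.and (PT.snd (hr.comp (PT.fst PT.id'))) (PT.isEmpty (PT.snd (PT.snd PT.id')))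
  · exact hf.comp (PT.fst (PT.snd PT.id'))
  · exact PT.const _

end

/-! ### the reductions -/

/-- the reduction from `B ∪ {∧}` to `B` -/
def ared (s : List Bool) : List Bool :=
  bif validS s then enc (hout (fun w => wrA K rootT (fun _ => w)) (arun K (toksS s)))
  else enc ([] : List Tok)

theorem isPolyTime_ared : IsPolyTime (ared K) := by
  apply isPolyTime_of_PT
  unfold ared
  apply PT.cond PT_validS
  · apply PT.encString
    apply PT_aout K _ PT_toksS
    exact PT_wrA K rootT fun _ => PT.id'
  · exact PT.const _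

theorem not_nil (F : FrameClass) : ¬ ∃ φ : FmA B,
    (enc ([] : List Tok) : List Bool) = bitEncode (codeA φ) ∧ SatInA F φ := by
  rintro ⟨φ, h1, _⟩
  have h2 : (enc ([] : List Tok) : List Bool) = bitEncode ([] : List (ℕ × ℕ)) := enc_tks []
  rw [h2] at h1
  exact codeA_ne_nil φ (bitEncode_inj h1).symm

open Classical in
theorem ared_spec (F : FrameClass) (s : List Bool) :
    satProblemA (B ++ [conj]) F s = satProblemA B F (ared K s) := by
  unfold satProblemA
  rw [Bool.eq_iff_iff, decide_eq_true_iff, decide_eq_true_iff]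
  by_cases hv : validS s = true
  · obtain ⟨m, rfl⟩ := (validS_iff s).mp hv
    have e : ared K (bitEncode m) =
        enc (hout (fun w => wrA K rootT (fun _ => w)) (arun K (tks m))) := by
      unfold ared
      rw [hv, toksS_bitEncode]
      rfl
    rw [e]
    rcases hout_aspec K (fun w => wrA K rootT (fun _ => w)) m with ⟨a, rfl, h1⟩ | ⟨h1, h2⟩
    · rw [h1]
      have e2 : wrA K rootT (fun _ => wdA K a) = tks (codeA (redA K a)) :=
        (wrA_fill K rootT _).symm
      rw [e2, enc_tks]
      constructor
      · rintro ⟨b, hb, hs⟩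
        have hab : a = b := codeA_injective (bitEncode_inj hb)
        subst hab
        exact ⟨_, rfl, (sat_red K a F).mp hs⟩
      · rintro ⟨φ, hφ, hs⟩
        have := codeA_injective (bitEncode_inj hφ)
        refine ⟨a, rfl, (sat_red K a F).mpr ?_⟩
        rw [this]
        exact hs
    · rw [h2]
      constructor
      · rintro ⟨a, ha, _⟩
        exact absurd ⟨a, bitEncode_inj ha⟩ h1
      · intro h3
        exact absurd h3 (not_nil F)
  · have e : ared K s = enc ([] : List Tok) := by
      unfold ared
      rw [Bool.not_eq_true] at hv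
      rw [hv]
      rfl
    rw [e]
    constructor
    · rintro ⟨a, rfl, _⟩
      exact absurd ((validS_iff _).mpr ⟨_, rfl⟩) hv
    · intro h3
      exact absurd h3 (not_nil F)

/-- the reduction from `B` to `B ∪ {∧}`: words with the new symbol are rejected -/
def bred (B : List BFun) (s : List Bool) : List Bool :=
  bif validS s then
    bif (toksS s).any (fun t => decide (t = (⟨3⟩, ⟨B.length⟩))) then enc ([] : List Tok)
    else enc (toksS s)
  else enc ([] : List Tok)

theorem isPolyTime_bred : IsPolyTime (bred B) := by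
  apply isPolyTime_of_PT
  unfold bred
  apply PT.cond PT_validS
  · apply PT.cond
    · apply PT.any PT_toksS
      exact PT.eq (PT.snd PT.id') (PT.const _)
    · exact PT.const _
    · exact PT.encString PT_toksS
  · exact PT.const _

open Classical in
theorem bred_spec (F : FrameClass) (s : List Bool) :
    satProblemA B F s = satProblemA (B ++ [conj]) F (bred B s) := by
  unfold satProblemA
  rw [Bool.eq_iff_iff, decide_eq_true_iff, decide_eq_true_iff]
  by_cases hv : validS s = true
  · obtain ⟨m, rfl⟩ := (validS_iff s).mp hv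
    by_cases hm : (3, B.length) ∈ m
    · have e : bred B (bitEncode m) = enc ([] : List Tok) := by
        unfold bred
        rw [hv, toksS_bitEncode]
        have : (m.map tk).any (fun t => decide (t = (⟨3⟩, ⟨B.length⟩))) = true := by
          rw [List.any_eq_true]
          exact ⟨tk (3, B.length), List.mem_map_of_mem hm, by simp [tk]⟩
        rw [this]
        rfl
      rw [e]
      constructor
      · rintro ⟨φ, h1, _⟩
        have := bitEncode_inj h1
        rw [this] at hm
        exact absurd hm (not_mem_code φ)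
      · intro h3
        exact absurd h3 (not_nil F)
    · have e : bred B (bitEncode m) = bitEncode m := by
        unfold bred
        rw [hv, toksS_bitEncode]
        have : (m.map tk).any (fun t => decide (t = (⟨3⟩, ⟨B.length⟩))) = false := by
          rw [List.any_eq_false]
          intro t ht
          obtain ⟨⟨a, b⟩, hab, rfl⟩ := List.mem_map.mp ht
          simp only [tk, Prod.mk.injEq, BN.mk.injEq, decide_eq_true_eq]
          rintro ⟨rfl, rfl⟩
          exact hm hab
        rw [this]
        exact enc_tks m
      rw [e]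
      constructor
      · rintro ⟨φ, h1, h2⟩
        exact ⟨liftA φ, by rw [code_lift]; exact h1, (sat_lift F φ).mpr h2⟩
      · rintro ⟨ψ, h1, h2⟩
        have h3 := bitEncode_inj h1
        rw [h3] at hm
        obtain ⟨φ, rfl⟩ := exists_lift ψ hm
        refine ⟨φ, ?_, (sat_lift F φ).mp h2⟩
        rw [h1, code_lift]
  · have e : bred B s = enc ([] : List Tok) := by
      unfold bred
      rw [Bool.not_eq_true] at hv
      rw [hv]
      rfl
    rw [e]
    constructor
    · rintro ⟨a, rfl, _⟩
      exact absurd ((validS_iff _).mpr ⟨_, rfl⟩) hv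
    · intro h3
      exact absurd h3 (not_nil F)

theorem conj_reduces (hB : CloneIsAffine B) (F : FrameClass) :
    ManyOneReducible (satProblemA (B ++ [conj]) F) (satProblemA B F) := by
  obtain ⟨K⟩ := exists_connA hB
  exact ⟨ared K, isPolyTime_ared K, ared_spec K F⟩

theorem reduces_conj (B : List BFun) (F : FrameClass) :
    ManyOneReducible (satProblemA B F) (satProblemA (B ++ [conj]) F) :=
  ⟨bred B, isPolyTime_bred, bred_spec F⟩

end Pool.Agent.Lib.MP_bba6cc_lc.At
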