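import Pool.Agent.Lib.MP_bba6cc_lc.AtConn

/-!
# Conjunction in the affine binder logic with `@`

A formula over `B ∪ {∧}` is translated into a formula over `B`, `[B] = L`, which is satisfiable
over the same frame class exactly when the given one is.
-/

namespace Pool.Agent.Lib.MP_bba6cc_lc.At

open Classical

open Pool.Agent.Lib.MP_bba6cc_lc

/-- formula templates -/
inductive TpA
  | hole (k : ℕ)
  | xr (a b : TpA)
  | top
  | v (n : ℕ)
  | nm (n : ℕ)
  | dia (a : TpA)
  | down (n : ℕ) (a : TpA)
  | atN (n : ℕ) (a : TpA)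
  | atV (n : ℕ) (a : TpA)

section Gadgets

variable {B : List BFun} (K : ConnA B)

/-- the formula of a template -/
def fillA : TpA → (ℕ → FmA B) → FmA B
  | .hole k, σ => σ k
  | .xr a b, σ => K.X (fillA a σ) (fillA b σ)
  | .top, _ => K.T
  | .v n, _ => .var n
  | .nm n, _ => .nom n
  | .dia a, σ => .dia (fillA a σ)
  | .down n a, σ => .down n (fillA a σ)
  | .atN n a, σ => .atNom n (fillA a σ)
  | .atV n a, σ => .atVar n (fillA a σ)

/-- the gadget `N(s, t) = @ᵢ◇↓u.(t ⊕ ◇(u ⊕ i ⊕ s))` -/
def gadA (s t : TpA) : TpA :=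
  .atN 0 (.dia (.down 2 (.xr t (.dia (.xr (.v 2) (.xr (.nm 0) s))))))

def botA : TpA := .xr .top .top

/-- the second difference of the gadget -/
def gateA (g : TpA) : TpA :=
  .xr (.xr (gadA g .top) (gadA botA .top)) (.xr (gadA g botA) (gadA botA botA))

def bit1 : TpA := .xr (gadA .top botA) (gadA botA botA)

def bit2 : TpA := .xr (gadA botA .top) (gadA botA botA)

def andA (s t : TpA) : TpA := .xr (gadA (.xr s bit2) (.xr t bit1)) (gadA bit2 bit1)

/-- the template of a conjunction -/
def conjT : TpA := .down 0 (andA (.atV 0 (.hole 0)) (.atV 0 (.hole 1)))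

/-- the template of the whole formula -/
def rootT : TpA := .down 0 (gateA (.atV 0 (.hole 0)))

/-- two arguments -/
def twoA (a b : FmA B) (k : ℕ) : FmA B := if k = 0 then a else b

variable {M : Model}

/-- the truth value of `s` is `P` at all states, independently of the variable `2` -/
def Rig (M : Model) (g : ℕ → M.W) (s : FmA B) (P : Prop) : Prop :=
  ∀ g' : ℕ → M.W, (∀ n, n ≠ 2 → g' n = g n) → ∀ z, (HoldsA M s g' z ↔ P)

/-- the truth value of the gadget -/
def nn (M : Model) (p q : Prop) : Prop :=
  ∃ y, M.R (M.N 0) y ∧ ¬ (q ↔ ∃ z, M.R y z ∧ ¬ (y = z ↔ ¬ (M.N 0 = z ↔ p)))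

theorem rig_T (g : ℕ → M.W) : Rig M g K.T True := fun g' _ z => by simp [K.holds_T]

theorem rig_X {g : ℕ → M.W} {s t : FmA B} {P Q : Prop} (hs : Rig M g s P) (ht : Rig M g t Q) :
    Rig M g (K.X s t) (¬ (P ↔ Q)) := by
  intro g' hg z
  rw [K.holds_X, hs g' hg z, ht g' hg z]

theorem rig_bot (g : ℕ → M.W) (σ : ℕ → FmA B) : Rig M g (fillA K botA σ) False := by
  have := rig_X K (rig_T K (M := M) g) (rig_T K (M := M) g)
  simpa [fillA, botA] using this

theorem rig_gad {g : ℕ → M.W} {s t : TpA} {σ : ℕ → FmA B} {S T : Prop}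
    (hs : Rig M g (fillA K s σ) S) (ht : Rig M g (fillA K t σ) T) :
    Rig M g (fillA K (gadA s t) σ) (nn M S T) := by
  intro g' hg z
  simp only [gadA, fillA, HoldsA]
  unfold nn
  apply exists_congr
  intro y
  apply and_congr_right
  intro _
  have h1 : ∀ n, n ≠ 2 → Function.update g' 2 y n = g n := by
    intro n hn
    rw [Function.update_of_ne hn, hg n hn]
  rw [K.holds_X, ht _ h1 y]
  simp only [HoldsA]
  apply not_congr
  apply iff_congr Iff.rfl
  apply exists_congr
  intro u
  apply and_congr_right
  intro _
  rw [K.holds_X, K.holds_X]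
  simp only [HoldsA]
  rw [hs _ h1 u, Function.update_self]

/-- The gadget works: its mixed second difference is `1`. -/
def Good (M : Model) : Prop :=
  ¬ (¬ (nn M True True ↔ nn M False True) ↔ ¬ (nn M True False ↔ nn M False False))

/-- the constants of the gadget -/
def c1 (M : Model) : Prop := ¬ (nn M True False ↔ nn M False False)
def c2 (M : Model) : Prop := ¬ (nn M False True ↔ nn M False False)

/-- The function computed by `andA`. -/
def andS (M : Model) (p q : Prop) : Prop :=
  ¬ (nn M (¬ (p ↔ c2 M)) (¬ (q ↔ c1 M)) ↔ nn M (c2 M) (c1 M))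

theorem rig_and {g : ℕ → M.W} {s t : TpA} {σ : ℕ → FmA B} {S T : Prop}
    (hs : Rig M g (fillA K s σ) S) (ht : Rig M g (fillA K t σ) T) :
    Rig M g (fillA K (andA s t) σ) (andS M S T) := by
  have h1 : Rig M g (fillA K .top σ) True := rig_T K g
  have h0 := rig_bot K g σ
  have ha : Rig M g (fillA K bit1 σ) (c1 M) := rig_X K (rig_gad K h1 h0) (rig_gad K h0 h0)
  have hb : Rig M g (fillA K bit2 σ) (c2 M) := rig_X K (rig_gad K h0 h1) (rig_gad K h0 h0)
  have hsb : Rig M g (fillA K (.xr s bit2) σ) (¬ (S ↔ c2 M)) := rig_X K hs hb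
  have hta : Rig M g (fillA K (.xr t bit1) σ) (¬ (T ↔ c1 M)) := rig_X K ht ha
  exact rig_X K (rig_gad K hsb hta) (rig_gad K hb ha)

theorem andS_iff (hM : Good M) (p q : Prop) : andS M p q ↔ p ∧ q := by
  unfold Good at hM
  unfold andS c1 c2
  by_cases hp : p <;> by_cases hq : q <;> by_cases h1 : nn M True True <;>
    by_cases h2 : nn M True False <;> by_cases h3 : nn M False True <;>
    by_cases h4 : nn M False False <;> simp_all

theorem rig_gate {g : ℕ → M.W} {s : TpA} {σ : ℕ → FmA B} {S : Prop}
    (hs : Rig M g (fillA K s σ) S) : Rig M g (fillA K (gateA s) σ) (S ∧ Good M) := by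
  have h1 : Rig M g (fillA K .top σ) True := rig_T K g
  have h0 := rig_bot K g σ
  have h := rig_X K (rig_X K (rig_gad K hs h1) (rig_gad K h0 h1))
    (rig_X K (rig_gad K hs h0) (rig_gad K h0 h0))
  intro g' hg z
  have h2 := h g' hg z
  unfold gateA
  simp only [fillA] at h2 ⊢
  rw [h2]
  unfold Good
  by_cases hp : S
  · simp [hp]
  · simp [hp]

/-- the truth of `s` depends only on the values of the odd variables -/
def Indep (M : Model) (s : FmA B) : Prop :=
  ∀ (g g' : ℕ → M.W) (v : M.W), (∀ n, g (2 * n + 1) = g' (2 * n + 1)) →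
    (HoldsA M s g v ↔ HoldsA M s g' v)

theorem rig_atV {g : ℕ → M.W} {σ : ℕ → FmA B} {k : ℕ} {v : M.W} (h : Indep M (σ k)) :
    Rig M (Function.update g 0 v) (fillA K (.atV 0 (.hole k)) σ) (HoldsA M (σ k) g v) := by
  intro g' hg z
  simp only [fillA, HoldsA]
  have h0 : g' 0 = v := by rw [hg 0 (by norm_num), Function.update_self]
  rw [h0]
  apply h
  intro n
  rw [hg _ (by omega), Function.update_of_ne (by omega)]

theorem holds_conj {a b : FmA B} (ha : Indep M a) (hb : Indep M b) (g : ℕ → M.W) (v : M.W) :
    HoldsA M (fillA K conjT (twoA a b)) g v ↔ andS M (HoldsA M a g v) (HoldsA M b g v) := by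
  have h1 : Rig M (Function.update g 0 v) (fillA K (.atV 0 (.hole 0)) (twoA a b))
      (HoldsA M a g v) := rig_atV K (σ := twoA a b) (k := 0) ha
  have h2 : Rig M (Function.update g 0 v) (fillA K (.atV 0 (.hole 1)) (twoA a b))
      (HoldsA M b g v) := rig_atV K (σ := twoA a b) (k := 1) hb
  have h3 := rig_and K h1 h2 (Function.update g 0 v) (fun _ _ => rfl) v
  unfold conjT
  simp only [fillA, HoldsA] at h3 ⊢
  exact h3

theorem holds_root {a : FmA B} (ha : Indep M a) (g : ℕ → M.W) (v : M.W) :
    HoldsA M (fillA K rootT (fun _ => a)) g v ↔ HoldsA M a g v ∧ Good M := by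
  have h1 : Rig M (Function.update g 0 v) (fillA K (.atV 0 (.hole 0)) (fun _ => a))
      (HoldsA M a g v) := rig_atV K (σ := fun _ => a) (k := 0) ha
  have h3 := rig_gate K h1 (Function.update g 0 v) (fun _ _ => rfl) v
  unfold rootT
  simp only [fillA, HoldsA] at h3 ⊢
  exact h3

end Gadgets

/-! ### The base with conjunction -/

section Base

variable {B : List BFun}

theorem get_left {i : Fin (B ++ [conj]).length} (h : i.val < B.length) :
    (B ++ [conj]).get i = B.get ⟨i.val, h⟩ := by
  simp only [List.get_eq_getElem]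
  exact List.getElem_append_left h

theorem val_right {i : Fin (B ++ [conj]).length} (h : ¬ i.val < B.length) :
    i.val = B.length := by
  have := i.isLt
  simp only [List.length_append, List.length_singleton] at this
  omega

theorem get_right {i : Fin (B ++ [conj]).length} (h : ¬ i.val < B.length) :
    (B ++ [conj]).get i = conj := by
  have h1 := val_right h
  simp only [List.get_eq_getElem]
  rw [List.getElem_append_right (by omega)]
  simp [h1]

theorem fn_cast {f f' : BFun} (e : f = f') (x : Fin f'.ar → Bool) :
    f.fn (fun j => x (Fin.cast (congrArg BFun.ar e) j)) = f'.fn x := by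
  subst e
  rfl

theorem flatMap_cast {n m : ℕ} {α : Type} (e : n = m) (f : Fin m → List α) :
    (List.finRange n).flatMap (fun j => f (Fin.cast e j)) = (List.finRange m).flatMap f := by
  subst e
  rfl

/-- the places of the conjunction -/
def p0 : Fin conj.ar := ⟨0, Nat.zero_lt_two⟩
def p1 : Fin conj.ar := ⟨1, Nat.one_lt_two⟩

variable (K : ConnA B)

/-- The translation of the subformulas; names are moved to odd numbers. -/
def trA : FmA (B ++ [conj]) → FmA B
  | .prp p => .prp p
  | .nom i => .nom (2 * i + 1)
  | .var x => .var (2 * x + 1)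
  | .app i args =>
    if h : i.val < B.length then
      .app ⟨i.val, h⟩ fun j => trA (args (Fin.cast (congrArg BFun.ar (get_left h).symm) j))
    else
      fillA K conjT (twoA (trA (args (Fin.cast (congrArg BFun.ar (get_right h).symm) p0)))
        (trA (args (Fin.cast (congrArg BFun.ar (get_right h).symm) p1))))
  | .dia φ => .dia (trA φ)
  | .box φ => .box (trA φ)
  | .down x φ => .down (2 * x + 1) (trA φ)
  | .atNom i φ => .atNom (2 * i + 1) (trA φ)
  | .atVar x φ => .atVar (2 * x + 1) (trA φ)

/-- The reduction on formulas. -/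
def redA (φ : FmA (B ++ [conj])) : FmA B := fillA K rootT fun _ => trA K φ

/-- The model without the even nominals. -/
def shift (M : Model) : Model := ⟨M.W, M.R, M.V, fun n => M.N (2 * n + 1)⟩

theorem tr_indep (M : Model) (φ : FmA (B ++ [conj])) : Indep M (trA K φ) := by
  induction φ with
  | prp p => intro g g' v h; rfl
  | nom i => intro g g' v h; rfl
  | var x => intro g g' v h; simp only [trA, HoldsA, h]
  | app i args ih =>
    intro g g' v h
    by_cases hi : i.val < B.length
    · simp only [trA, dif_pos hi, HoldsA]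
      have : ∀ j, decide (HoldsA M (trA K (args j)) g v) =
          decide (HoldsA M (trA K (args j)) g' v) := by
        intro j
        rw [Bool.eq_iff_iff, decide_eq_true_iff, decide_eq_true_iff]
        exact ih j g g' v h
      simp only [this]
    · simp only [trA, dif_neg hi]
      rw [holds_conj K (ih _) (ih _), holds_conj K (ih _) (ih _), ih _ g g' v h, ih _ g g' v h]
  | dia φ ih =>
    intro g g' v h
    simp only [trA, HoldsA]
    exact exists_congr fun u => and_congr_right fun _ => ih g g' u h
  | box φ ih =>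
    intro g g' v h
    simp only [trA, HoldsA]
    exact forall_congr' fun u => forall_congr' fun _ => ih g g' u h
  | down x φ ih =>
    intro g g' v h
    simp only [trA, HoldsA]
    apply ih
    intro n
    by_cases hn : n = x
    · subst hn
      simp
    · rw [Function.update_of_ne (by omega), Function.update_of_ne (by omega), h]
  | atNom i φ ih =>
    intro g g' v h
    simp only [trA, HoldsA]
    exact ih g g' _ h
  | atVar x φ ih =>
    intro g g' v h
    simp only [trA, HoldsA, h]
    exact ih g g' _ h

theorem tr_good {M : Model} (hM : Good M) (φ : FmA (B ++ [conj])) :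
    ∀ (g : ℕ → M.W) (v : M.W),
      (HoldsA M (trA K φ) g v ↔ HoldsA (shift M) φ (fun n => g (2 * n + 1)) v) := by
  induction φ with
  | prp p => intro g v; rfl
  | nom i => intro g v; rfl
  | var x => intro g v; rfl
  | app i args ih =>
    intro g v
    by_cases hi : i.val < B.length
    · simp only [trA, dif_pos hi, HoldsA]
      have h1 : ∀ j, decide (HoldsA M (trA K (args j)) g v) =
          decide (HoldsA (shift M) (args j) (fun n => g (2 * n + 1)) v) := by
        intro j
        rw [Bool.eq_iff_iff, decide_eq_true_iff, decide_eq_true_iff]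
        exact ih j g v
      simp only [h1]
      rw [fn_cast (get_left hi).symm
        (fun j => decide (HoldsA (shift M) (args j) (fun n => g (2 * n + 1)) v))]
    · simp only [trA, dif_neg hi, HoldsA]
      rw [holds_conj K (tr_indep K M _) (tr_indep K M _), andS_iff hM, ih, ih,
        ← fn_cast (get_right hi).symm
          (fun j => decide (HoldsA (shift M) (args j) (fun n => g (2 * n + 1)) v))]
      show _ ↔ (decide _ && decide _) = true
      rw [Bool.and_eq_true, decide_eq_true_iff, decide_eq_true_iff]
      rfl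
  | dia φ ih =>
    intro g v
    simp only [trA, HoldsA]
    exact exists_congr fun u => and_congr_right fun _ => ih g u
  | box φ ih =>
    intro g v
    simp only [trA, HoldsA]
    exact forall_congr' fun u => forall_congr' fun _ => ih g u
  | down x φ ih =>
    intro g v
    simp only [trA, HoldsA]
    rw [ih]
    have : (fun n => Function.update g (2 * x + 1) v (2 * n + 1)) =
        Function.update (fun n => g (2 * n + 1)) x v := by
      funext n
      by_cases hn : n = x
      · subst hn
        simp
      · rw [Function.update_of_ne (by omega), Function.update_of_ne hn]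
    rw [this]
    rfl
  | atNom i φ ih =>
    intro g v
    simp only [trA, HoldsA]
    exact ih g _
  | atVar x φ ih =>
    intro g v
    simp only [trA, HoldsA]
    exact ih g _

theorem red_holds (M : Model) (φ : FmA (B ++ [conj])) (g : ℕ → M.W) (w : M.W) :
    HoldsA M (redA K φ) g w ↔
      HoldsA (shift M) φ (fun n => g (2 * n + 1)) w ∧ Good M := by
  unfold redA
  rw [holds_root K (tr_indep K M φ)]
  constructor
  · rintro ⟨h3, h4⟩
    exact ⟨(tr_good K h4 φ g w).mp h3, h4⟩
  · rintro ⟨h3, h4⟩
    exact ⟨(tr_good K h4 φ g w).mpr h3, h4⟩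

end Base

/-! ### Adding the gadget to a model -/

/-- The relation on the three states of the gadget. -/
def gadR (F : FrameClass) (a b : Fin 3) : Bool :=
  match F with
  | .all => (a == 0 && b == 1) || (a == 0 && b == 2) || (a == 2 && b == 1)
  | .trans => (a == 0 && b == 1) || (a == 0 && b == 2) || (a == 2 && b == 1)
  | .total => (a == 0 && b == 1) || (a == 0 && b == 2) || (a == 1 && b == 1) ||
      (a == 2 && b == 2) || (a == 2 && b == 1)
  | .er => true

/-- The relation of the extended model. -/
def extR (F : FrameClass) (M : Model) : M.W ⊕ Fin 3 → M.W ⊕ Fin 3 → Prop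
  | .inl a, .inl b => M.R a b
  | .inr a, .inr b => gadR F a b = true
  | _, _ => False

/-- The disjoint union of a model with the gadget. -/
def ext (F : FrameClass) (M : Model) : Model where
  W := M.W ⊕ Fin 3
  R := extR F M
  V := fun p => Sum.elim (M.V p) fun _ => False
  N := fun n => if n % 2 = 1 then .inl (M.N (n / 2)) else .inr 0

theorem shift_N (F : FrameClass) (M : Model) (n : ℕ) :
    (shift (ext F M)).N n = Sum.inl (M.N n) := by
  show (if (2 * n + 1) % 2 = 1 then Sum.inl (M.N ((2 * n + 1) / 2)) else Sum.inr 0 :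
    M.W ⊕ Fin 3) = _
  rw [if_pos (by omega), show (2 * n + 1) / 2 = n by omega]

theorem ext_mem {F : FrameClass} {M : Model} (h : F.Mem M.R) : F.Mem (ext F M).R := by
  cases F with
  | all => trivial
  | trans =>
    have h' : ∀ x y z, M.R x y → M.R y z → M.R x z := h
    have hd : ∀ x y z, gadR .trans x y = true → gadR .trans y z = true →
        gadR .trans x z = true := by decide
    rintro (x | x) (y | y) (z | z) hxy hyz
    · exact h' x y z hxy hyz
    all_goals first | exact hxy.elim | exact hyz.elim | skip
    exact hd x y z hxy hyz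
  | total =>
    have h' : ∀ x, ∃ y, M.R x y := h
    have hd : ∀ x, ∃ y, gadR .total x y = true := by decide
    rintro (x | x)
    · obtain ⟨y, hy⟩ := h' x
      exact ⟨.inl y, hy⟩
    · obtain ⟨y, hy⟩ := hd x
      exact ⟨.inr y, hy⟩
  | er =>
    obtain ⟨h1, h2, h3⟩ := h
    refine ⟨?_, ?_, ?_⟩
    · rintro (x | x)
      · exact h1 x
      · rfl
    · rintro (x | x) (y | y) hxy
      · exact h2 x y hxy
      · exact hxy.elim
      · exact hxy.elim
      · rfl
    · rintro (x | x) (y | y) (z | z) hxy hyz
      · exact h3 x y z hxy hyz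
      all_goals first | exact hxy.elim | exact hyz.elim | rfl

theorem nn_ext (F : FrameClass) (M : Model) (p q : Prop) : nn (ext F M) p q ↔
    ∃ y : Fin 3, gadR F 0 y = true ∧
      ¬ (q ↔ ∃ z : Fin 3, gadR F y z = true ∧ ¬ (y = z ↔ ¬ ((0 : Fin 3) = z ↔ p))) := by
  have inner : ∀ y : Fin 3, (∃ z : (ext F M).W, (ext F M).R (.inr y) z ∧
      ¬ (Sum.inr y = z ↔ ¬ ((ext F M).N 0 = z ↔ p))) ↔
      ∃ z : Fin 3, gadR F y z = true ∧ ¬ (y = z ↔ ¬ ((0 : Fin 3) = z ↔ p)) := by
    intro y
    have hN : (ext F M).N 0 = Sum.inr 0 := rfl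
    have e1 : ∀ c z : Fin 3, ((Sum.inr c : M.W ⊕ Fin 3) = Sum.inr z) = (c = z) := by
      intro c z; simp
    constructor
    · rintro ⟨z | z, hz, hz2⟩
      · exact hz.elim
      · refine ⟨z, hz, ?_⟩
        rw [hN] at hz2
        rw [← e1 y, ← e1 0]
        exact hz2
    · rintro ⟨z, hz, hz2⟩
      refine ⟨.inr z, hz, ?_⟩
      rw [hN]
      rw [← e1 y, ← e1 0] at hz2
      exact hz2
  unfold nn
  constructor
  · rintro ⟨y | y, hy, hy2⟩
    · exact hy.elim
    · exact ⟨y, hy, (not_congr (iff_congr Iff.rfl (inner y))).mp hy2⟩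
  · rintro ⟨y, hy, hy2⟩
    exact ⟨.inr y, hy, (not_congr (iff_congr Iff.rfl (inner y))).mpr hy2⟩

/-- The function of the gadget, computed. -/
def nb (F : FrameClass) (p q : Bool) : Bool :=
  (List.finRange 3).any fun y => gadR F 0 y &&
    !(q == (List.finRange 3).any fun z => gadR F y z && !(decide (y = z) == !(decide (0 = z) == p)))

theorem nn_ext_bool (F : FrameClass) (M : Model) (p q : Bool) :
    nn (ext F M) (p = true) (q = true) ↔ nb F p q = true := by
  rw [nn_ext]
  cases F <;> cases p <;> cases q <;>
    simp [nb, gadR, Fin.exists_fin_succ, List.finRange_succ]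

theorem ext_good (F : FrameClass) (M : Model) : Good (ext F M) := by
  have h11 := nn_ext_bool F M true true
  have h10 := nn_ext_bool F M true false
  have h01 := nn_ext_bool F M false true
  have h00 := nn_ext_bool F M false false
  have hT : (true = true) = True := by simp
  have hF : (false = true) = False := by simp
  rw [hT] at h11 h10 h01
  rw [hF] at h10 h01 h00
  unfold Good
  rw [h11, h10, h01, h00]
  cases F <;> decide

theorem ext_holds {B : List BFun} (F : FrameClass) (M : Model) (φ : FmA B) :
    ∀ (g : ℕ → M.W) (v : M.W),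
    HoldsA (shift (ext F M)) φ (fun n => Sum.inl (g n)) (Sum.inl v) ↔ HoldsA M φ g v := by
  induction φ with
  | prp p => intro g v; rfl
  | nom i =>
    intro g v
    simp only [HoldsA]
    rw [shift_N]
    exact ⟨fun h => Sum.inl.inj h, fun h => congrArg Sum.inl h⟩
  | var x =>
    intro g v
    exact ⟨fun h => Sum.inl.inj h, fun h => congrArg Sum.inl h⟩
  | app i args ih =>
    intro g v
    simp only [HoldsA]
    have h1 : ∀ j, decide (HoldsA (shift (ext F M)) (args j) (fun n => Sum.inl (g n)) (Sum.inl v))
        = decide (HoldsA M (args j) g v) := by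
      intro j
      rw [Bool.eq_iff_iff, decide_eq_true_iff, decide_eq_true_iff]
      exact ih j g v
    simp only [h1]
  | dia φ ih =>
    intro g v
    simp only [HoldsA]
    constructor
    · rintro ⟨u | u, hu, hu2⟩
      · exact ⟨u, hu, (ih g u).mp hu2⟩
      · exact hu.elim
    · rintro ⟨u, hu, hu2⟩
      exact ⟨.inl u, hu, (ih g u).mpr hu2⟩
  | box φ ih =>
    intro g v
    simp only [HoldsA]
    constructor
    · intro h u hu
      exact (ih g u).mp (h (.inl u) hu)
    · rintro h (u | u) hu
      · exact (ih g u).mpr (h u hu)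
      · exact hu.elim
  | down x φ ih =>
    intro g v
    simp only [HoldsA]
    have e : (Function.update (fun n => (Sum.inl (g n) : M.W ⊕ Fin 3)) x (Sum.inl v)) =
        fun n => Sum.inl (Function.update g x v n) := by
      funext n
      by_cases hn : n = x
      · subst hn
        simp
      · rw [Function.update_of_ne hn, Function.update_of_ne hn]
    have := ih (Function.update g x v) v
    rw [← this]
    exact Iff.of_eq (congrArg (fun a => HoldsA (shift (ext F M)) φ a (Sum.inl v)) e)
  | atNom i φ ih =>
    intro g v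
    simp only [HoldsA]
    rw [shift_N]
    exact ih g (M.N i)
  | atVar x φ ih =>
    intro g v
    simp only [HoldsA]
    exact ih g (g x)

theorem sat_red {B : List BFun} (K : ConnA B) (φ : FmA (B ++ [conj])) (F : FrameClass) :
    SatInA F φ ↔ SatInA F (redA K φ) := by
  constructor
  · rintro ⟨M, hF, g, w, hφ⟩
    refine ⟨ext F M, ext_mem hF, fun n => Sum.inl (g (n / 2)), Sum.inl w, ?_⟩
    rw [red_holds]
    refine ⟨?_, ext_good F M⟩
    have e : (fun n => (Sum.inl (g ((2 * n + 1) / 2)) : M.W ⊕ Fin 3)) =
        fun n => Sum.inl (g n) := by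
      funext n
      rw [show (2 * n + 1) / 2 = n by omega]
    have h1 := (ext_holds F M φ g w).mpr hφ
    exact (Iff.of_eq (congrArg (fun a => HoldsA (shift (ext F M)) φ a (Sum.inl w)) e)).mpr h1
  · rintro ⟨M, hF, g, w, hφ⟩
    rw [red_holds] at hφ
    exact ⟨shift M, hF, fun n => g (2 * n + 1), w, hφ.1⟩

/-! ### The sublanguage without conjunction -/

section Lift

variable {B : List BFun}

/-- the place in the larger base -/
def inc (i : Fin B.length) : Fin (B ++ [conj]).length := ⟨i.val, by
  have := i.isLt
  simp only [List.length_append, List.length_singleton]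
  omega⟩

theorem get_inc (i : Fin B.length) : (B ++ [conj]).get (inc i) = B.get i :=
  get_left (i := inc i) i.isLt

/-- the inclusion of the languages -/
def liftA : FmA B → FmA (B ++ [conj])
  | .prp p => .prp p
  | .nom i => .nom i
  | .var x => .var x
  | .app i args => .app (inc i) fun j => liftA (args (Fin.cast (congrArg BFun.ar (get_inc i)) j))
  | .dia φ => .dia (liftA φ)
  | .box φ => .box (liftA φ)
  | .down x φ => .down x (liftA φ)
  | .atNom i φ => .atNom i (liftA φ)
  | .atVar x φ => .atVar x (liftA φ)

theorem holds_lift (M : Model) (φ : FmA B) : ∀ (g : ℕ → M.W) (w : M.W),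
    HoldsA M (liftA φ) g w ↔ HoldsA M φ g w := by
  induction φ with
  | prp p => intro g w; rfl
  | nom i => intro g w; rfl
  | var x => intro g w; rfl
  | app i args ih =>
    intro g w
    simp only [liftA, HoldsA]
    have h1 : ∀ j, decide (HoldsA M (liftA (args j)) g w) = decide (HoldsA M (args j) g w) := by
      intro j
      rw [Bool.eq_iff_iff, decide_eq_true_iff, decide_eq_true_iff]
      exact ih j g w
    simp only [h1]
    rw [fn_cast (get_inc i) (fun j => decide (HoldsA M (args j) g w))]
  | dia φ ih => intro g w; exact exists_congr fun u => and_congr_right fun _ => ih g u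
  | box φ ih => intro g w; exact forall_congr' fun u => forall_congr' fun _ => ih g u
  | down x φ ih => intro g w; exact ih _ _
  | atNom i φ ih => intro g w; exact ih _ _
  | atVar x φ ih => intro g w; exact ih _ _

theorem sat_lift (F : FrameClass) (φ : FmA B) : SatInA F (liftA φ) ↔ SatInA F φ := by
  unfold SatInA
  exact exists_congr fun M => and_congr_right fun _ => exists_congr fun g =>
    exists_congr fun w => holds_lift M φ g w

theorem code_lift (φ : FmA B) : codeA (liftA φ) = codeA φ := by
  induction φ with
  | prp p => rfl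
  | nom i => rfl
  | var x => rfl
  | app i args ih =>
    simp only [liftA, codeA, ih]
    rw [flatMap_cast (congrArg BFun.ar (get_inc i)) (fun j => codeA (args j))]
    rfl
  | dia φ ih => simp only [liftA, codeA, ih]
  | box φ ih => simp only [liftA, codeA, ih]
  | down x φ ih => simp only [liftA, codeA, ih]
  | atNom i φ ih => simp only [liftA, codeA, ih]
  | atVar x φ ih => simp only [liftA, codeA, ih]

theorem exists_lift (ψ : FmA (B ++ [conj])) (h : (3, B.length) ∉ codeA ψ) :
    ∃ φ : FmA B, liftA φ = ψ := by
  induction ψ with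
  | prp p => exact ⟨.prp p, rfl⟩
  | nom i => exact ⟨.nom i, rfl⟩
  | var x => exact ⟨.var x, rfl⟩
  | app i args ih =>
    by_cases hi : i.val < B.length
    · have h1 : ∀ j, ∃ φ : FmA B, liftA φ = args j := by
        intro j
        apply ih
        intro hj
        apply h
        simp only [codeA, List.mem_cons, List.mem_flatMap]
        exact Or.inr ⟨j, List.mem_finRange j, hj⟩
      choose φ hφ using h1
      refine ⟨.app ⟨i.val, hi⟩ fun j =>
        φ (Fin.cast (congrArg BFun.ar (get_left hi).symm) j), ?_⟩
      simp only [liftA, hφ]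
      rfl
    · exfalso
      apply h
      simp [codeA, val_right hi]
  | dia ψ ih =>
    obtain ⟨φ, rfl⟩ := ih fun h1 => h (by simp [codeA, h1])
    exact ⟨.dia φ, rfl⟩
  | box ψ ih =>
    obtain ⟨φ, rfl⟩ := ih fun h1 => h (by simp [codeA, h1])
    exact ⟨.box φ, rfl⟩
  | down x ψ ih =>
    obtain ⟨φ, rfl⟩ := ih fun h1 => h (by simp [codeA, h1])
    exact ⟨.down x φ, rfl⟩
  | atNom i ψ ih =>
    obtain ⟨φ, rfl⟩ := ih fun h1 => h (by simp [codeA, h1])
    exact ⟨.atNom i φ, rfl⟩
  | atVar x ψ ih =>
    obtain ⟨φ, rfl⟩ := ih fun h1 => h (by simp [codeA, h1])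
    exact ⟨.atVar x φ, rfl⟩

theorem not_mem_code (φ : FmA B) : (3, B.length) ∉ codeA φ := by
  induction φ with
  | prp p => simp [codeA]
  | nom i => simp [codeA]
  | var x => simp [codeA]
  | app i args ih =>
    have hi := i.isLt
    simp only [codeA, List.mem_cons, List.mem_flatMap, Prod.mk.injEq, true_and, not_or,
      not_exists, not_and]
    exact ⟨by omega, fun j _ => ih j⟩
  | dia φ ih => simp [codeA, ih]
  | box φ ih => simp [codeA, ih]
  | down x φ ih => simp [codeA, ih]
  | atNom i φ ih => simp [codeA, ih]
  | atVar x φ ih => simp [codeA, ih]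

end Lift

end Pool.Agent.Lib.MP_bba6cc_lc.At
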