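import Mathlib

/-!
# Hybrid formulas with the binder over a finite list of Boolean functions: definitions

The language `O₁ = {◇, □, ↓}` of the problem: atomic propositions, nominals, state variables, the
Boolean functions of a finite list `B`, `◇`, `□` and the binder `↓x`; no satisfaction operators.
-/

namespace Pool.Agent.Lib.MP_bba6cc_lc

open Classical

/-- A Boolean function with its arity. -/
structure BFun where
  /-- the arity -/
  ar : ℕ
  /-- the function -/
  fn : (Fin ar → Bool) → Bool

/-- Truth value as an element of `ZMod 2`. -/
def toZ (b : Bool) : ZMod 2 := if b then 1 else 0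

/-- Affine Boolean functions: `f x = c₀ ⊕ c₁ x₁ ⊕ … ⊕ cₙ xₙ`. -/
def IsAffine (f : BFun) : Prop :=
  ∃ (c₀ : ZMod 2) (c : Fin f.ar → ZMod 2), ∀ x, toZ (f.fn x) = c₀ + ∑ j, c j * toZ (x j)

/-- Formulas with `◇`, `□`, `↓` over the Boolean functions of the list `B`; atoms are the atomic
propositions `prp p`, the nominals `nom i` and the state variables `var x`. -/
inductive Fm (B : List BFun) : Type
  | prp (p : ℕ)
  | nom (i : ℕ)
  | var (x : ℕ)
  | app (i : Fin B.length) (args : Fin (B.get i).ar → Fm B)
  | dia (φ : Fm B)
  | box (φ : Fm B)
  | down (x : ℕ) (φ : Fm B)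

/-- Models; `N i` is the state named by the `i`-th nominal. -/
structure Model where
  /-- the states -/
  W : Type
  /-- the accessibility relation -/
  R : W → W → Prop
  /-- the valuation of the atomic propositions -/
  V : ℕ → W → Prop
  /-- the states named by the nominals -/
  N : ℕ → W

/-- Truth of a formula at a state under an assignment. -/
def Holds {B : List BFun} (M : Model) : Fm B → (ℕ → M.W) → M.W → Prop
  | .prp p, _, w => M.V p w
  | .nom i, _, w => M.N i = w
  | .var x, g, w => g x = w
  | .app i args, g, w => (B.get i).fn (fun j => decide (Holds M (args j) g w)) = true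
  | .dia φ, g, w => ∃ v, M.R w v ∧ Holds M φ g v
  | .box φ, g, w => ∀ v, M.R w v → Holds M φ g v
  | .down x φ, g, w => Holds M φ (Function.update g x w) w

/-- The four frame classes of the problem. -/
inductive FrameClass
  | all | trans | total | er

/-- The frame `(W, R)` belongs to the class. -/
def FrameClass.Mem (F : FrameClass) {W : Type} (R : W → W → Prop) : Prop :=
  match F with
  | .all => True
  | .trans => ∀ x y z, R x y → R y z → R x z
  | .total => ∀ x, ∃ y, R x y
  | .er => (∀ x, R x x) ∧ (∀ x y, R x y → R y x) ∧ (∀ x y z, R x y → R y z → R x z)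

/-- `φ` holds at some state, under some assignment, of some model whose frame is in the class. -/
def SatIn {B : List BFun} (F : FrameClass) (φ : Fm B) : Prop :=
  ∃ M : Model, F.Mem M.R ∧ ∃ g w, Holds M φ g w

/-- Satisfiability over all frames (`tot = false`) or over serial frames (`tot = true`). -/
def Sat {B : List BFun} (tot : Bool) (φ : Fm B) : Prop :=
  ∃ M : Model, (tot = true → ∀ w, ∃ v, M.R w v) ∧ ∃ g w, Holds M φ g w

/-- The word of a formula: prefix notation, one pair of numbers (kind, name) per symbol. -/
def code {B : List BFun} : Fm B → List (ℕ × ℕ)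
  | .prp p => [(0, p)]
  | .nom i => [(1, i)]
  | .var x => [(2, x)]
  | .app i args => (3, i.val) :: (List.finRange _).flatMap (fun j => code (args j))
  | .dia φ => (4, 0) :: code φ
  | .box φ => (5, 0) :: code φ
  | .down x φ => (6, x) :: code φ

/-- unique readability -/
theorem code_prefix {B : List BFun} (φ : Fm B) : ∀ (ψ : Fm B) (r s : List (ℕ × ℕ)),
    code φ ++ r = code ψ ++ s → φ = ψ ∧ r = s := by
  induction φ with
  | prp p =>
    intro ψ r s h
    cases ψ <;> simp_all [code]
  | nom p =>
    intro ψ r s h
    cases ψ <;> simp_all [code]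
  | var p =>
    intro ψ r s h
    cases ψ <;> simp_all [code]
  | app i args ih =>
    intro ψ r s h
    cases ψ with
    | app j brgs =>
      simp only [code, List.cons_append, List.cons.injEq, Prod.mk.injEq, true_and] at h
      obtain ⟨h1, h2⟩ := h
      have hij : i = j := Fin.ext h1
      subst hij
      have key : ∀ (l : List (Fin (B.get i).ar)) (r s : List (ℕ × ℕ)),
          l.flatMap (fun j => code (args j)) ++ r = l.flatMap (fun j => code (brgs j)) ++ s →
          (∀ j ∈ l, args j = brgs j) ∧ r = s := by
        intro l
        induction l with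
        | nil => intro r s h; exact ⟨by simp, by simpa using h⟩
        | cons a l ihl =>
          intro r s h
          rw [List.flatMap_cons, List.flatMap_cons, List.append_assoc, List.append_assoc] at h
          obtain ⟨e1, e2⟩ := ih a _ _ _ h
          obtain ⟨e3, e4⟩ := ihl _ _ e2
          refine ⟨?_, e4⟩
          intro b hb
          rcases List.mem_cons.mp hb with rfl | hb
          · exact e1
          · exact e3 b hb
      obtain ⟨e1, e2⟩ := key _ _ _ h2
      refine ⟨?_, e2⟩
      congr 1
      funext b
      exact e1 b (List.mem_finRange b)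
    | _ => simp [code] at h
  | dia φ ih =>
    intro ψ r s h
    cases ψ with
    | dia ψ =>
      simp only [code, List.cons_append, List.cons.injEq, true_and] at h
      obtain ⟨e1, e2⟩ := ih _ _ _ h
      exact ⟨by rw [e1], e2⟩
    | _ => simp [code] at h
  | box φ ih =>
    intro ψ r s h
    cases ψ with
    | box ψ =>
      simp only [code, List.cons_append, List.cons.injEq, true_and] at h
      obtain ⟨e1, e2⟩ := ih _ _ _ h
      exact ⟨by rw [e1], e2⟩
    | _ => simp [code] at h
  | down x φ ih =>
    intro ψ r s h
    cases ψ with
    | down y ψ =>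
      simp only [code, List.cons_append, List.cons.injEq, Prod.mk.injEq, true_and] at h
      obtain ⟨h1, h2⟩ := h
      obtain ⟨e1, e2⟩ := ih _ _ _ h2
      exact ⟨by rw [e1, h1], e2⟩
    | _ => simp [code] at h

theorem code_injective {B : List BFun} : Function.Injective (code (B := B)) := by
  intro φ ψ h
  exact (code_prefix φ ψ [] [] (by rw [h])).1

end Pool.Agent.Lib.MP_bba6cc_lc
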