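import Pool.Agent.Lib.MP_bba6cc_lc.Real
import Pool.Agent.Lib.MP_bba6cc_lc.Defs

/-!
# Hybrid formulas with the binder over affine connectives, and their XOR-lists
-/

namespace Pool.Agent.Lib.MP_bba6cc_lc

open Classical

/-- coefficients -/
def c0B (f : BFun) : Bool := f.fn (fun _ => false)
def cB (f : BFun) (j : Fin f.ar) : Bool := xor (f.fn (fun i => decide (i = j))) (f.fn (fun _ => false))

theorem toZ_xor (a b : Bool) : toZ (xor a b) = toZ a + toZ b := by
  revert a b; decide

theorem affine_eq {f : BFun} (h : IsAffine f) (x : Fin f.ar → Bool) :
    toZ (f.fn x) = toZ (c0B f) + ∑ j, toZ (cB f j) * toZ (x j) := by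
  obtain ⟨c₀, c, hc⟩ := h
  have h0 : toZ (c0B f) = c₀ := by
    rw [c0B, hc]
    simp [toZ]
  have hj : ∀ j, toZ (cB f j) = c j := by
    intro j
    rw [cB, toZ_xor]
    have := h0
    rw [c0B] at this
    rw [this, hc]
    have : ∑ i, c i * toZ (decide (i = j)) = c j := by
      rw [Finset.sum_eq_single j]
      · simp [toZ]
      · intro b _ hb
        simp [toZ, hb]
      · simp
    rw [this]
    have e : ∀ a b : ZMod 2, a + b + a = b := by decide
    exact e _ _
  rw [h0, hc]
  simp only [hj]

/-- first binding -/
def look (env : List (ℕ × ℕ)) (x : ℕ) : Option ℕ :=
  (env.find? (fun e => decide (e.1 = x))).map Prod.snd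

def varTrm (lev : ℕ) (env : List (ℕ × ℕ)) (x : ℕ) : Trm :=
  match look env x with
  | some j => if j = lev then .one else .nm (.lvl j)
  | none => .nm (.fix (2 * x + 1))

section comp

variable {B : List BFun}

/-- concatenation with running positions -/
def seqL {n : ℕ} {X : Type} (len : Fin n → ℕ) (f : Fin n → ℕ → List X) : List (Fin n) → ℕ → List X
  | [], _ => []
  | j :: js, p => f j p ++ seqL len f js (p + len j)

def iff1 {X : Type} (c : Bool) (l : List X) : List X := if c then l else []

/-- the XOR-terms of a formula, with the diamond to which they belong -/
def comp : Fm B → ℕ → Bool → ℕ → List (ℕ × ℕ) → ℕ → List (ℕ × Trm)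
  | .prp p, par, c, _, _, _ => iff1 c [(par, .prp p)]
  | .nom i, par, c, _, _, _ => iff1 c [(par, .nm (.fix (2 * i)))]
  | .var x, par, c, lev, env, _ => iff1 c [(par, varTrm lev env x)]
  | .app i args, par, c, lev, env, pos => iff1 (c && c0B (B.get i)) [(par, .one)] ++
      seqL (fun j => (code (args j)).length)
        (fun j p => comp (args j) par (c && cB (B.get i) j) lev env p) (List.finRange _) (pos + 1)
  | .dia φ, par, c, lev, env, pos => iff1 c [(par, .dia (pos + 1))] ++
      comp φ (pos + 1) true (lev + 1) env (pos + 1)
  | .box φ, par, c, lev, env, pos => iff1 c [(par, .one), (par, .dia (pos + 1))] ++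
      (pos + 1, .one) :: comp φ (pos + 1) true (lev + 1) env (pos + 1)
  | .down x φ, par, c, lev, env, pos => comp φ par c lev ((x, lev) :: env) (pos + 1)

theorem mem_seqL {n : ℕ} {X : Type} (len : Fin n → ℕ) (f : Fin n → ℕ → List X)
    (js : List (Fin n)) (p : ℕ) (x : X) (h : x ∈ seqL len f js p) :
    ∃ j ∈ js, ∃ q, p ≤ q ∧ q + len j ≤ p + (js.map len).sum ∧ x ∈ f j q := by
  induction js generalizing p with
  | nil => simp [seqL] at h
  | cons j js ih =>
    simp only [seqL, List.mem_append] at h
    rcases h with h | h
    · exact ⟨j, by simp, p, le_rfl, by simp, h⟩
    · obtain ⟨j', h1, q, h2, h3, h4⟩ := ih _ h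
      exact ⟨j', List.mem_cons_of_mem _ h1, q, by omega, by simp; omega, h4⟩

theorem code_app_length (i : Fin B.length) (args : Fin (B.get i).ar → Fm B) :
    (code (.app i args)).length = 1 + ((List.finRange _).map (fun j => (code (args j)).length)).sum := by
  simp [code, List.length_flatMap]
  omega

theorem comp_parent (φ : Fm B) : ∀ (par : ℕ) (c : Bool) (lev : ℕ) (env : List (ℕ × ℕ)) (pos : ℕ),
    ∀ e ∈ comp φ par c lev env pos, e.1 = par ∨ (pos < e.1 ∧ e.1 ≤ pos + (code φ).length) := by
  induction φ with
  | prp p => intro par c lev env pos e he; simp only [comp, iff1] at he; split at he <;> simp_all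
  | nom i => intro par c lev env pos e he; simp only [comp, iff1] at he; split at he <;> simp_all
  | var x => intro par c lev env pos e he; simp only [comp, iff1] at he; split at he <;> simp_all
  | app i args ih =>
    intro par c lev env pos e he
    simp only [comp, List.mem_append] at he
    rcases he with he | he
    · left
      simp only [iff1] at he
      split at he <;> simp_all
    · obtain ⟨j, _, q, h2, h3, h4⟩ := mem_seqL _ _ _ _ _ he
      rcases ih j par _ lev env q e h4 with h | ⟨h, h'⟩
      · exact Or.inl h
      · right
        rw [code_app_length]
        omega
  | dia φ ih =>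
    intro par c lev env pos e he
    simp only [comp, List.mem_append] at he
    rcases he with he | he
    · left
      simp only [iff1] at he
      split at he <;> simp_all
    · right
      simp only [code, List.length_cons]
      rcases ih _ _ _ _ _ e he with h | h <;> omega
  | box φ ih =>
    intro par c lev env pos e he
    simp only [comp, List.mem_append, List.mem_cons] at he
    rcases he with he | he | he
    · left
      simp only [iff1] at he
      split at he
      · simp at he
        rcases he with rfl | rfl <;> rfl
      · simp at he
    · right
      subst he
      simp only [code, List.length_cons]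
      omega
    · right
      simp only [code, List.length_cons]
      rcases ih _ _ _ _ _ e he with h | h <;> omega
  | down x φ ih =>
    intro par c lev env pos e he
    simp only [comp] at he
    rcases ih _ _ _ _ _ e he with h | h
    · exact Or.inl h
    · right
      simp only [code, List.length_cons]
      omega

/-- children of a diamond in an output list -/
def childs (out : List (ℕ × Trm)) (q : ℕ) : List Trm :=
  (out.filter (fun e => decide (e.1 = q))).map Prod.snd

theorem childs_append (l l' : List (ℕ × Trm)) (q : ℕ) :
    childs (l ++ l') q = childs l q ++ childs l' q := by
  simp [childs]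

theorem childs_nil_of {l : List (ℕ × Trm)} {q : ℕ} (h : ∀ e ∈ l, e.1 ≠ q) : childs l q = [] := by
  unfold childs
  rw [List.map_eq_nil_iff, List.filter_eq_nil_iff]
  intro e he
  simpa using h e he

theorem childs_cons_self (q : ℕ) (t : Trm) (l : List (ℕ × Trm)) :
    childs ((q, t) :: l) q = t :: childs l q := by
  simp [childs]

theorem childs_cons_ne {q q' : ℕ} (h : q' ≠ q) (t : Trm) (l : List (ℕ × Trm)) :
    childs ((q', t) :: l) q = childs l q := by
  simp [childs, h]

/-- modal depth -/
def mdep : Fm B → ℕ
  | .prp _ => 0
  | .nom _ => 0
  | .var _ => 0
  | .app _ args => Finset.univ.sup (fun j => mdep (args j))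
  | .dia φ => mdep φ + 1
  | .box φ => mdep φ + 1
  | .down _ φ => mdep φ

theorem mdep_le (φ : Fm B) : mdep φ ≤ (code φ).length := by
  induction φ with
  | prp p => simp [mdep]
  | nom i => simp [mdep]
  | var x => simp [mdep]
  | app i args ih =>
    simp only [mdep]
    apply Finset.sup_le
    intro j _
    refine (ih j).trans ?_
    rw [code_app_length]
    have : (code (args j)).length ≤
        ((List.finRange (B.get i).ar).map (fun j => (code (args j)).length)).sum :=
      List.le_sum_of_mem (List.mem_map.mpr ⟨j, List.mem_finRange j, rfl⟩)
    omega
  | dia φ ih => simp [mdep, code]; exact ih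
  | box φ ih => simp [mdep, code]; exact ih
  | down x φ ih => simp [mdep, code]; omega

/-- the model with fixed names of a model with an assignment -/
def toMd (M : Model) (g₀ : ℕ → M.W) : Md where
  W := M.W
  R := M.R
  V := M.V
  I c := if c % 2 = 0 then M.N (c / 2) else g₀ (c / 2)

structure EnvOK (M : Model) (g₀ : ℕ → M.W) (env : List (ℕ × ℕ)) (π : List M.W) (w : M.W)
    (g : ℕ → M.W) : Prop where
  some : ∀ x j, look env x = some j → j ≤ π.length ∧ (π ++ [w])[j]? = some (g x)
  none : ∀ x, look env x = none → g x = g₀ x

theorem look_cons (x lev y : ℕ) (env : List (ℕ × ℕ)) :
    look ((x, lev) :: env) y = if x = y then some lev else look env y := by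
  unfold look
  by_cases h : x = y
  · simp [h]
  · simp [h]

/-- semantic correctness of the translation -/
theorem comp_val {ch : ℕ → List Trm} (hB : ∀ i : Fin B.length, IsAffine (B.get i)) (M : Model)
    (g₀ : ℕ → M.W) (φ : Fm B) : ∀ (par : ℕ) (c : Bool) (lev : ℕ) (env : List (ℕ × ℕ)) (pos k : ℕ)
    (π : List M.W) (w : M.W) (g : ℕ → M.W), π.length = lev → EnvOK M g₀ env π w g → par ≤ pos →
    mdep φ ≤ k →
    (∀ q, pos < q → q ≤ pos + (code φ).length → ch q = childs (comp φ par c lev env pos) q) →
    val ch (Re (toMd M g₀)) k (π, w) (childs (comp φ par c lev env pos) par) =
      if c then ind (Holds M φ g w) else 0 := by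
  induction φ with
  | prp p =>
    intro par c lev env pos k π w g hπ henv hpar hk hch
    cases c with
    | false => simp [comp, iff1, childs, val_nil]
    | true =>
      simp only [comp, iff1, if_true, childs_cons_self]
      rw [val_cons]
      simp [childs, val_nil, tv, Holds, toMd]
  | nom i =>
    intro par c lev env pos k π w g hπ henv hpar hk hch
    cases c with
    | false => simp [comp, iff1, childs, val_nil]
    | true =>
      simp only [comp, iff1, if_true, childs_cons_self]
      rw [val_cons]
      simp only [childs, List.filter_nil, List.map_nil, val_nil, add_zero, tv, Holds]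
      apply ind_congr
      show (toMd M g₀).I (2 * i) = w ↔ _
      simp [toMd]
  | var x =>
    intro par c lev env pos k π w g hπ henv hpar hk hch
    cases c with
    | false => simp [comp, iff1, childs, val_nil]
    | true =>
      simp only [comp, iff1, if_true, childs_cons_self]
      rw [val_cons]
      simp only [childs, List.filter_nil, List.map_nil, val_nil, add_zero, Holds, varTrm]
      cases hl : look env x with
      | none =>
        simp only [tv]
        apply ind_congr
        show (toMd M g₀).I (2 * x + 1) = w ↔ _
        rw [henv.none x hl]
        have h1 : (2 * x + 1) % 2 = 1 := by omega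
        have h2 : (2 * x + 1) / 2 = x := by omega
        simp [toMd, h1, h2]
      | some j =>
        obtain ⟨h1, h2⟩ := henv.some x j hl
        by_cases hj : j = lev
        · simp only [hj, if_true, tv]
          rw [hj, ← hπ, List.getElem?_concat_length] at h2
          rw [ind_true (Option.some.inj h2).symm]
        · simp only [hj, if_false, tv]
          apply ind_congr
          show π[j]? = some w ↔ _
          rw [getl π w (by omega)] at h2
          rw [h2]
          simp
  | app i args ih =>
    intro par c lev env pos k π w g hπ henv hpar hk hch
    simp only [comp, childs_append]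
    rw [val_append]
    have hhead : val ch (Re (toMd M g₀)) k (π, w)
        (childs (iff1 (c && c0B (B.get i)) [(par, Trm.one)]) par) =
        if c then toZ (c0B (B.get i)) else 0 := by
      cases c with
      | false => simp [iff1, childs, val_nil]
      | true =>
        cases c0B (B.get i) with
        | false => simp [iff1, childs, val_nil, toZ]
        | true =>
          simp only [Bool.and_self, iff1, if_true, childs_cons_self]
          rw [val_cons]
          simp [childs, val_nil, tv, toZ]
    rw [hhead]
    -- the arguments
    have harg : ∀ (js : List (Fin (B.get i).ar)) (p : ℕ), par ≤ p → pos < p →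
        (∀ q, p < q → q ≤ p + (js.map (fun j => (code (args j)).length)).sum → ch q =
          childs (seqL (fun j => (code (args j)).length)
            (fun j p => comp (args j) par (c && cB (B.get i) j) lev env p) js p) q) →
        val ch (Re (toMd M g₀)) k (π, w) (childs (seqL (fun j => (code (args j)).length)
          (fun j p => comp (args j) par (c && cB (B.get i) j) lev env p) js p) par) =
        (js.map (fun j => if c then toZ (cB (B.get i) j) * ind (Holds M (args j) g w) else 0)).sum := by
      intro js
      induction js with
      | nil => intro p _ _ _; simp [seqL, childs, val_nil]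
      | cons j js ihj =>
        intro p hp hpp hq
        have hown : ∀ q, p < q → q ≤ p + (code (args j)).length →
            ch q = childs (comp (args j) par (c && cB (B.get i) j) lev env p) q := by
          intro q h1 h2
          rw [hq q h1 (by rw [List.map_cons, List.sum_cons]; omega)]
          simp only [seqL, childs_append]
          rw [childs_nil_of (l := seqL _ _ js _), List.append_nil]
          intro e he h
          obtain ⟨j', _, q', a, b, h4⟩ := mem_seqL _ _ _ _ _ he
          rcases comp_parent _ _ _ _ _ _ e h4 with h' | h'
          · omega
          · omega
        have hrest : ∀ q, p + (code (args j)).length < q →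
            q ≤ p + (code (args j)).length + (js.map (fun j => (code (args j)).length)).sum →
            ch q = childs (seqL (fun j => (code (args j)).length)
            (fun j p => comp (args j) par (c && cB (B.get i) j) lev env p) js
              (p + (code (args j)).length)) q := by
          intro q h1 h2
          rw [hq q (by omega) (by rw [List.map_cons, List.sum_cons]; omega)]
          simp only [seqL, childs_append]
          rw [childs_nil_of (l := comp _ _ _ _ _ _), List.nil_append]
          intro e he h
          rcases comp_parent _ _ _ _ _ _ e he with h' | h'
          · omega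
          · omega
        have h1 := ih j par (c && cB (B.get i) j) lev env p k π w g hπ henv hp
          (le_trans (Finset.le_sup (f := fun j => mdep (args j)) (Finset.mem_univ j)) hk) hown
        have h2 := ihj (p + (code (args j)).length) (by omega) (by omega) hrest
        simp only [seqL, childs_append]
        rw [val_append, h1, h2, List.map_cons, List.sum_cons]
        congr 1
        cases c with
        | false => simp
        | true =>
          cases cB (B.get i) j with
          | false => simp [toZ]
          | true => simp [toZ]
    have hq0 : ∀ q, pos + 1 < q →
        q ≤ pos + 1 + ((List.finRange (B.get i).ar).map (fun j => (code (args j)).length)).sum →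
        ch q = childs (seqL (fun j => (code (args j)).length)
            (fun j p => comp (args j) par (c && cB (B.get i) j) lev env p)
            (List.finRange _) (pos + 1)) q := by
      intro q h1 h2
      rw [hch q (by omega) (by rw [code_app_length]; omega)]
      simp only [comp, childs_append]
      rw [childs_nil_of (l := iff1 _ _), List.nil_append]
      intro e he h
      simp only [iff1] at he
      split at he
      · simp at he; rw [he] at h; simp at h; omega
      · simp at he
    rw [harg _ _ (by omega) (by omega) hq0]
    cases c with
    | false => simp
    | true =>
      simp only [if_true]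
      rw [← List.ofFn_eq_map, List.sum_ofFn]
      have := affine_eq (hB i) (fun j => decide (Holds M (args j) g w))
      have e : ind (Holds M (.app i args) g w) =
          toZ ((B.get i).fn (fun j => decide (Holds M (args j) g w))) := by
        simp only [Holds]
        cases h : (B.get i).fn (fun j => decide (Holds M (args j) g w)) with
        | false => simp [ind, toZ]
        | true => simp [ind, toZ]
      rw [e, this]
      congr 1
      apply Finset.sum_congr rfl
      intro j _
      congr 1
      unfold ind toZ
      by_cases hh : Holds M (args j) g w <;> simp [hh]
  | dia φ ih =>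
    intro par c lev env pos k π w g hπ henv hpar hk hch
    obtain ⟨k, rfl⟩ : ∃ k', k = k' + 1 := ⟨k - 1, by simp [mdep] at hk; omega⟩
    have hk' : mdep φ ≤ k := by simp [mdep] at hk; omega
    have hsub : ∀ q, pos < q → q ≤ pos + 1 + (code φ).length →
        ch q = childs (comp φ (pos + 1) true (lev + 1) env (pos + 1)) q := by
      intro q h1 h2
      rw [hch q h1 (by simp [code]; omega)]
      simp only [comp, childs_append]
      rw [childs_nil_of (l := iff1 _ _), List.nil_append]
      intro e he h
      simp only [iff1] at he
      split at he
      · simp at he; rw [he] at h; simp at h; omega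
      · simp at he
    have hchild : ∀ v, val ch (Re (toMd M g₀)) k (π ++ [w], v) (ch (pos + 1)) =
        ind (Holds M φ g v) := by
      intro v
      rw [hsub (pos + 1) (by omega) (by omega)]
      have := ih (pos + 1) true (lev + 1) env (pos + 1) k (π ++ [w]) v g (by simp [hπ]) ⟨?_, ?_⟩
        le_rfl hk' (fun q h1 h2 => hsub q (by omega) h2)
      · rw [this]; simp
      · intro x j hj
        obtain ⟨h1, h2⟩ := henv.some x j hj
        refine ⟨by simp; omega, ?_⟩
        rw [getl (π ++ [w]) v (by simp; omega)]
        exact h2
      · exact henv.none
    have hrest : childs (comp φ (pos + 1) true (lev + 1) env (pos + 1)) par = [] := by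
      apply childs_nil_of
      intro e he h
      rcases comp_parent _ _ _ _ _ _ e he with h' | h' <;> omega
    simp only [comp, childs_append, hrest, List.append_nil]
    cases c with
    | false => simp [iff1, childs, val_nil]
    | true =>
      simp only [iff1, if_true, childs_cons_self]
      rw [val_cons]
      simp only [childs, List.filter_nil, List.map_nil, val_nil, add_zero, tv, Holds]
      apply ind_congr
      constructor
      · rintro ⟨⟨π', v⟩, ⟨e1, e2⟩, h⟩
        have e1' : π' = π ++ [w] := e1
        subst e1'
        rw [hchild v] at h
        refine ⟨v, e2, ?_⟩
        by_contra hcon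
        rw [ind_false hcon] at h
        exact zero_ne_one h
      · rintro ⟨v, hv, h⟩
        exact ⟨(π ++ [w], v), ⟨rfl, hv⟩, by rw [hchild v, ind_true h]⟩
  | box φ ih =>
    intro par c lev env pos k π w g hπ henv hpar hk hch
    obtain ⟨k, rfl⟩ : ∃ k', k = k' + 1 := ⟨k - 1, by simp [mdep] at hk; omega⟩
    have hk' : mdep φ ≤ k := by simp [mdep] at hk; omega
    have hhead : ∀ q, pos < q → childs (iff1 c [(par, Trm.one), (par, Trm.dia (pos + 1))]) q = [] := by
      intro q hq
      apply childs_nil_of
      intro e he h
      simp only [iff1] at he
      split at he
      · simp at he; rcases he with rfl | rfl <;> simp at h <;> omega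
      · simp at he
    have hroot : ch (pos + 1) =
        .one :: childs (comp φ (pos + 1) true (lev + 1) env (pos + 1)) (pos + 1) := by
      rw [hch (pos + 1) (by omega) (by simp [code])]
      simp only [comp, childs_append]
      rw [hhead _ (by omega), List.nil_append, childs_cons_self]
    have hsub : ∀ q, pos + 1 < q → q ≤ pos + 1 + (code φ).length →
        ch q = childs (comp φ (pos + 1) true (lev + 1) env (pos + 1)) q := by
      intro q h1 h2
      rw [hch q (by omega) (by simp [code]; omega)]
      simp only [comp, childs_append]
      rw [hhead _ (by omega), List.nil_append, childs_cons_ne (by omega)]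
    have hchild : ∀ v, val ch (Re (toMd M g₀)) k (π ++ [w], v) (ch (pos + 1)) =
        1 + ind (Holds M φ g v) := by
      intro v
      rw [hroot, val_one_cons]
      have := ih (pos + 1) true (lev + 1) env (pos + 1) k (π ++ [w]) v g (by simp [hπ]) ⟨?_, ?_⟩
        le_rfl hk' (fun q h1 h2 => hsub q (by omega) h2)
      · rw [this]; simp
      · intro x j hj
        obtain ⟨h1, h2⟩ := henv.some x j hj
        refine ⟨by simp; omega, ?_⟩
        rw [getl (π ++ [w]) v (by simp; omega)]
        exact h2
      · exact henv.none
    have hrest : childs ((pos + 1, Trm.one) :: comp φ (pos + 1) true (lev + 1) env (pos + 1)) par = [] := by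
      apply childs_nil_of
      intro e he h
      rcases List.mem_cons.mp he with rfl | he
      · simp at h; omega
      · rcases comp_parent _ _ _ _ _ _ e he with h' | h' <;> omega
    simp only [comp, childs_append, hrest, List.append_nil]
    cases c with
    | false => simp [iff1, childs, val_nil]
    | true =>
      simp only [iff1, if_true, childs_cons_self]
      rw [val_cons, val_cons]
      simp only [childs, List.filter_nil, List.map_nil, val_nil, add_zero, tv, Holds]
      have e : dvl ch (Re (toMd M g₀)) (k + 1) (π, w) (pos + 1) ↔ ¬ ∀ v, M.R w v → Holds M φ g v := by
        push Not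
        constructor
        · rintro ⟨⟨π', v⟩, ⟨e1, e2⟩, h⟩
          have e1' : π' = π ++ [w] := e1
          subst e1'
          rw [hchild v] at h
          refine ⟨v, e2, ?_⟩
          intro hcon
          rw [ind_true hcon] at h
          exact absurd h (by decide)
        · rintro ⟨v, hv, h⟩
          exact ⟨(π ++ [w], v), ⟨rfl, hv⟩, by rw [hchild v, ind_false h, add_zero]⟩
      rw [ind_congr e]
      by_cases hh : ∀ v, M.R w v → Holds M φ g v
      · rw [ind_false (not_not_intro hh), ind_true hh, add_zero]
      · rw [ind_true hh, ind_false hh]
        decide
  | down x φ ih =>
    intro par c lev env pos k π w g hπ henv hpar hk hch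
    simp only [comp] at hch ⊢
    have hlen : (code (.down x φ : Fm B)).length = (code φ).length + 1 := by simp [code]
    have := ih par c lev ((x, lev) :: env) (pos + 1) k π w (Function.update g x w) hπ ⟨?_, ?_⟩
      (by omega) hk (fun q h1 h2 => hch q (by omega) (by omega))
    · rw [this]; simp only [Holds]
    · intro y j hj
      rw [look_cons] at hj
      by_cases h : x = y
      · rw [if_pos h] at hj
        have hj' : j = lev := (Option.some.inj hj).symm
        subst h
        subst hj'
        refine ⟨by omega, ?_⟩
        rw [← hπ, List.getElem?_concat_length]
        simp
      · rw [if_neg h] at hj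
        obtain ⟨h1, h2⟩ := henv.some y j hj
        refine ⟨h1, ?_⟩
        rw [h2]
        simp [Function.update, Ne.symm h]
    · intro y hy
      rw [look_cons] at hy
      by_cases h : x = y
      · rw [if_pos h] at hy; exact absurd hy (by simp)
      · rw [if_neg h] at hy
        have := henv.none y hy
        simp [Function.update, Ne.symm h, this]

/-- validity of the level names -/
theorem comp_ok {ch : ℕ → List Trm} (φ : Fm B) : ∀ (par : ℕ) (c : Bool) (lev : ℕ)
    (env : List (ℕ × ℕ)) (pos k : ℕ), (∀ x j, look env x = some j → j ≤ lev) → par ≤ pos →
    (∀ q, pos < q → q ≤ pos + (code φ).length → ch q = childs (comp φ par c lev env pos) q) →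
    ok ch k lev (childs (comp φ par c lev env pos) par) := by
  have hone : ∀ k m, ok ch k m [.one] := fun k m => ok_one ch (ok_nil ch)
  induction φ with
  | prp p =>
    intro par c lev env pos k henv hpar hch
    cases c with
    | false => simp only [comp, iff1, childs]; exact ok_nil ch
    | true =>
      simp only [comp, iff1, if_true, childs_cons_self]
      simp only [childs, List.filter_nil, List.map_nil]
      cases k <;> simp [ok]
  | nom i =>
    intro par c lev env pos k henv hpar hch
    cases c with
    | false => simp only [comp, iff1, childs]; exact ok_nil ch
    | true =>
      simp only [comp, iff1, if_true, childs_cons_self]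
      simp only [childs, List.filter_nil, List.map_nil]
      cases k <;> simp [ok]
  | var x =>
    intro par c lev env pos k henv hpar hch
    cases c with
    | false => simp only [comp, iff1, childs]; exact ok_nil ch
    | true =>
      simp only [comp, iff1, if_true, childs_cons_self]
      simp only [childs, List.filter_nil, List.map_nil, varTrm]
      cases hl : look env x with
      | none => cases k <;> simp [ok]
      | some j =>
        have := henv x j hl
        by_cases hj : j = lev
        · simp only [hj, if_true]; exact hone _ _
        · simp only [hj, if_false]
          cases k <;> simp [ok] <;> omega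
  | app i args ih =>
    intro par c lev env pos k henv hpar hch
    simp only [comp, childs_append]
    apply ok_append
    · by_cases h : (c && c0B (B.get i)) = true
      · simp only [iff1, h, if_true, childs_cons_self]
        simp only [childs, List.filter_nil, List.map_nil]
        exact hone _ _
      · simp only [iff1, h, childs]; exact ok_nil ch
    have harg : ∀ (js : List (Fin (B.get i).ar)) (p : ℕ), par ≤ p → pos < p →
        (∀ q, p < q → q ≤ p + (js.map (fun j => (code (args j)).length)).sum → ch q =
          childs (seqL (fun j => (code (args j)).length)
            (fun j p => comp (args j) par (c && cB (B.get i) j) lev env p) js p) q) →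
        ok ch k lev (childs (seqL (fun j => (code (args j)).length)
          (fun j p => comp (args j) par (c && cB (B.get i) j) lev env p) js p) par) := by
      intro js
      induction js with
      | nil => intro p _ _ _; simp only [seqL, childs]; exact ok_nil ch
      | cons j js ihj =>
        intro p hp hpp hq
        have hown : ∀ q, p < q → q ≤ p + (code (args j)).length →
            ch q = childs (comp (args j) par (c && cB (B.get i) j) lev env p) q := by
          intro q h1 h2
          rw [hq q h1 (by rw [List.map_cons, List.sum_cons]; omega)]
          simp only [seqL, childs_append]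
          rw [childs_nil_of (l := seqL _ _ js _), List.append_nil]
          intro e he h
          obtain ⟨j', _, q', a, b, h4⟩ := mem_seqL _ _ _ _ _ he
          rcases comp_parent _ _ _ _ _ _ e h4 with h' | h'
          · omega
          · omega
        have hrest : ∀ q, p + (code (args j)).length < q →
            q ≤ p + (code (args j)).length + (js.map (fun j => (code (args j)).length)).sum →
            ch q = childs (seqL (fun j => (code (args j)).length)
            (fun j p => comp (args j) par (c && cB (B.get i) j) lev env p) js
              (p + (code (args j)).length)) q := by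
          intro q h1 h2
          rw [hq q (by omega) (by rw [List.map_cons, List.sum_cons]; omega)]
          simp only [seqL, childs_append]
          rw [childs_nil_of (l := comp _ _ _ _ _ _), List.nil_append]
          intro e he h
          rcases comp_parent _ _ _ _ _ _ e he with h' | h'
          · omega
          · omega
        simp only [seqL, childs_append]
        exact ok_append ch (ih j par _ lev env p k henv hp hown)
          (ihj (p + (code (args j)).length) (by omega) (by omega) hrest)
    apply harg _ _ (by omega) (by omega)
    intro q h1 h2
    rw [hch q (by omega) (by rw [code_app_length]; omega)]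
    simp only [comp, childs_append]
    rw [childs_nil_of (l := iff1 _ _), List.nil_append]
    intro e he h
    simp only [iff1] at he
    split at he
    · simp at he; rw [he] at h; simp at h; omega
    · simp at he
  | dia φ ih =>
    intro par c lev env pos k henv hpar hch
    have hsub : ∀ q, pos < q → q ≤ pos + 1 + (code φ).length →
        ch q = childs (comp φ (pos + 1) true (lev + 1) env (pos + 1)) q := by
      intro q h1 h2
      rw [hch q h1 (by simp [code]; omega)]
      simp only [comp, childs_append]
      rw [childs_nil_of (l := iff1 _ _), List.nil_append]
      intro e he h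
      simp only [iff1] at he
      split at he
      · simp at he; rw [he] at h; simp at h; omega
      · simp at he
    have hrest : childs (comp φ (pos + 1) true (lev + 1) env (pos + 1)) par = [] := by
      apply childs_nil_of
      intro e he h
      rcases comp_parent _ _ _ _ _ _ e he with h' | h' <;> omega
    simp only [comp, childs_append, hrest, List.append_nil]
    cases c with
    | false => simp only [iff1, childs]; exact ok_nil ch
    | true =>
      simp only [iff1, if_true, childs_cons_self]
      simp only [childs, List.filter_nil, List.map_nil]
      cases k with
      | zero => simp [ok]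
      | succ k =>
        refine ⟨by simp, ?_⟩
        intro u hu
        have hu' : u = pos + 1 := by simpa using hu
        subst hu'
        rw [hsub (pos + 1) (by omega) (by omega)]
        exact ih (pos + 1) true (lev + 1) env (pos + 1) k
          (fun x j hj => by have := henv x j hj; omega) le_rfl (fun q h1 h2 => hsub q (by omega) h2)
  | box φ ih =>
    intro par c lev env pos k henv hpar hch
    have hhead : ∀ q, pos < q → childs (iff1 c [(par, Trm.one), (par, Trm.dia (pos + 1))]) q = [] := by
      intro q hq
      apply childs_nil_of
      intro e he h
      simp only [iff1] at he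
      split at he
      · simp at he; rcases he with rfl | rfl <;> simp at h <;> omega
      · simp at he
    have hroot : ch (pos + 1) =
        .one :: childs (comp φ (pos + 1) true (lev + 1) env (pos + 1)) (pos + 1) := by
      rw [hch (pos + 1) (by omega) (by simp [code])]
      simp only [comp, childs_append]
      rw [hhead _ (by omega), List.nil_append, childs_cons_self]
    have hsub : ∀ q, pos + 1 < q → q ≤ pos + 1 + (code φ).length →
        ch q = childs (comp φ (pos + 1) true (lev + 1) env (pos + 1)) q := by
      intro q h1 h2
      rw [hch q (by omega) (by simp [code]; omega)]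
      simp only [comp, childs_append]
      rw [hhead _ (by omega), List.nil_append, childs_cons_ne (by omega)]
    have hrest : childs ((pos + 1, Trm.one) :: comp φ (pos + 1) true (lev + 1) env (pos + 1)) par = [] := by
      apply childs_nil_of
      intro e he h
      rcases List.mem_cons.mp he with rfl | he
      · simp at h; omega
      · rcases comp_parent _ _ _ _ _ _ e he with h' | h' <;> omega
    simp only [comp, childs_append, hrest, List.append_nil]
    cases c with
    | false => simp only [iff1, childs]; exact ok_nil ch
    | true =>
      simp only [iff1, if_true, childs_cons_self]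
      simp only [childs, List.filter_nil, List.map_nil]
      cases k with
      | zero => simp [ok]
      | succ k =>
        refine ⟨by simp, ?_⟩
        intro u hu
        have hu' : u = pos + 1 := by simpa using hu
        subst hu'
        rw [hroot]
        apply ok_one
        exact ih (pos + 1) true (lev + 1) env (pos + 1) k
          (fun x j hj => by have := henv x j hj; omega) le_rfl (fun q h1 h2 => hsub q (by omega) h2)
  | down x φ ih =>
    intro par c lev env pos k henv hpar hch
    simp only [comp] at hch ⊢
    have hlen : (code (.down x φ : Fm B)).length = (code φ).length + 1 := by simp [code]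
    apply ih par c lev ((x, lev) :: env) (pos + 1) k ?_ (by omega)
      (fun q h1 h2 => hch q (by omega) (by omega))
    intro y j hj
    rw [look_cons] at hj
    by_cases h : x = y
    · rw [if_pos h] at hj
      have := Option.some.inj hj
      omega
    · rw [if_neg h] at hj
      exact henv y j hj

/-- the diamonds of a formula are positions in its word -/
theorem comp_dia (φ : Fm B) : ∀ (par : ℕ) (c : Bool) (lev : ℕ) (env : List (ℕ × ℕ)) (pos : ℕ),
    ∀ e ∈ comp φ par c lev env pos, ∀ u, e.2 = .dia u → u ≤ pos + (code φ).length := by
  induction φ with
  | prp p => intro par c lev env pos e he u hu; simp only [comp, iff1] at he; split at he <;> simp_all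
  | nom i => intro par c lev env pos e he u hu; simp only [comp, iff1] at he; split at he <;> simp_all
  | var x =>
    intro par c lev env pos e he u hu
    simp only [comp, iff1] at he
    split at he
    · simp at he
      subst he
      simp only [varTrm] at hu
      split at hu
      · split at hu <;> simp at hu
      · simp at hu
    · simp at he
  | app i args ih =>
    intro par c lev env pos e he u hu
    simp only [comp, List.mem_append] at he
    rcases he with he | he
    · simp only [iff1] at he
      split at he <;> simp_all
    · obtain ⟨j, _, q, h2, h3, h4⟩ := mem_seqL _ _ _ _ _ he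
      have := ih j par _ lev env q e h4 u hu
      rw [code_app_length]
      omega
  | dia φ ih =>
    intro par c lev env pos e he u hu
    simp only [comp, List.mem_append] at he
    rcases he with he | he
    · simp only [iff1] at he
      split at he
      · simp at he; subst he; simp at hu; subst hu; simp [code]
      · simp at he
    · have := ih _ _ _ _ _ e he u hu
      simp only [code, List.length_cons]
      omega
  | box φ ih =>
    intro par c lev env pos e he u hu
    simp only [comp, List.mem_append, List.mem_cons] at he
    rcases he with he | he | he
    · simp only [iff1] at he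
      split at he
      · simp at he
        rcases he with rfl | rfl
        · simp at hu
        · simp at hu; subst hu; simp [code]
      · simp at he
    · subst he; simp at hu
    · have := ih _ _ _ _ _ e he u hu
      simp only [code, List.length_cons]
      omega
  | down x φ ih =>
    intro par c lev env pos e he u hu
    simp only [comp] at he
    have := ih _ _ _ _ _ e he u hu
    simp only [code, List.length_cons]
    omega

/-- **Satisfiability is formal non-cancellation.** -/
theorem sat_iff (hB : ∀ i : Fin B.length, IsAffine (B.get i)) (tot : Bool) (φ : Fm B)
    (ch : ℕ → List Trm)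
    (hch : ∀ q, q ≤ (code φ).length → ch q = childs (comp φ 0 true 0 [] 0) q) :
    Sat tot φ ↔ z ch tot (code φ).length (ch 0) = false := by
  have h00 := hch 0 (Nat.zero_le _)
  have hq : ∀ q, 0 < q → q ≤ 0 + (code φ).length → ch q = childs (comp φ 0 true 0 [] 0) q :=
    fun q _ h => hch q (by omega)
  have hok : ok ch (code φ).length 0 (ch 0) := by
    rw [h00]
    exact comp_ok φ 0 true 0 [] 0 _ (by intro x j h; simp [look] at h) le_rfl hq
  have hval : ∀ (M : Model) (g : ℕ → M.W) (w : M.W),
      val ch (Re (toMd M g)) (code φ).length ([], w) (ch 0) = ind (Holds M φ g w) := by
    intro M g w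
    have := comp_val (ch := ch) hB M g φ 0 true 0 [] 0 (code φ).length [] w g rfl
      ⟨by intro x j h; simp [look] at h, fun x _ => rfl⟩ le_rfl (mdep_le φ) hq
    rw [if_pos rfl, ← h00] at this
    exact this
  rw [main tot _ _ hok]
  constructor
  · rintro ⟨M, hM, g, w, h⟩
    exact ⟨toMd M g, hM, w, by rw [hval, ind_true h]⟩
  · rintro ⟨⟨W, R, V, I⟩, hM, w, h⟩
    refine ⟨⟨W, R, V, fun i => I (2 * i)⟩, hM, fun x => I (2 * x + 1), w, ?_⟩
    have h1 := hval ⟨W, R, V, fun i => I (2 * i)⟩ (fun x => I (2 * x + 1)) w
    have h2 : ∀ I', I' = I → val ch (Re ⟨W, R, V, I'⟩) (code φ).length ([], w) (ch 0) = 1 := by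
      rintro _ rfl
      exact h
    have h3 := h2 (fun c => if c % 2 = 0 then I (2 * (c / 2)) else I (2 * (c / 2) + 1)) (by
      funext c
      by_cases hc : c % 2 = 0
      · rw [if_pos hc]; congr 1; omega
      · rw [if_neg hc]; congr 1; omega)
    by_contra hcon
    rw [ind_false hcon] at h1
    exact zero_ne_one (h1.symm.trans h3)

end comp

end Pool.Agent.Lib.MP_bba6cc_lc
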