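import Pool.Agent.Lib.MP_bba6cc_lc.Conn

/-!
# Quantified Boolean formulas as hybrid formulas over transitive frames and equivalence relations
-/

namespace Pool.Agent.Lib.MP_bba6cc_lc

open Classical

/-- formula templates -/
inductive Tp
  | hole (k : ℕ)
  | xr (a b : Tp)
  | top
  | v (n : ℕ)
  | dia (a : Tp)
  | down (n : ℕ) (a : Tp)

variable {B : List BFun} (K : Conn B)

/-- the formula of a template -/
def fill : Tp → (ℕ → Fm B) → Fm B
  | .hole k, σ => σ k
  | .xr a b, σ => K.X (fill a σ) (fill b σ)
  | .top, _ => K.T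
  | .v n, _ => .var n
  | .dia a, σ => .dia (fill a σ)
  | .down n a, σ => .down n (fill a σ)

/-- the gadget `N(s, t) = ◇↓y.(t ⊕ ◇(y ⊕ i ⊕ s))` -/
def nT (s t : Tp) : Tp := .dia (.down 2 (.xr t (.dia (.xr (.v 2) (.xr (.v 0) s)))))

def zT : Tp := .xr .top .top

/-- the second difference of the gadget -/
def gateT (g : Tp) : Tp := .xr (.xr (nT g .top) (nT zT .top)) (.xr (nT g zT) (nT zT zT))

/-- `D_i(h) = ◇h ⊕ ◇(h ⊕ i)` -/
def dT (h : Tp) : Tp := .xr (.dia h) (.dia (.xr h (.v 0)))

def negT (h : Tp) : Tp := .xr h .top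

def andT : Tp := .xr (nT (.hole 1) (.hole 0)) .top
def xorT : Tp := .xr (.hole 0) (.hole 1)
def varT : Tp := .dia (.xr (.hole 0) (.v 0))

/-- the formula for equivalence relations -/
def finE : Tp := .down 0 (gateT (.hole 0))

def thT : Tp := dT (negT (gateT (.hole 0)))

/-- the formula for transitive frames -/
def finT : Tp := .down 0 (.xr (dT (negT thT)) (dT .top))

/-- two arguments -/
def two (a b : Fm B) (k : ℕ) : Fm B := if k = 0 then a else b

/-- the translation -/
def tau2 : QF → Fm B
  | .var n => fill K varT (fun _ => .var (2 * n + 1))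
  | .one => K.T
  | .and a b => fill K andT (two (tau2 a) (tau2 b))
  | .xor a b => fill K xorT (two (tau2 a) (tau2 b))
  | .ex n a => .dia (.down (2 * n + 1) (tau2 a))

/-! ### semantics in a cluster -/

/-- `C` is closed and every point of `C` sees exactly `C` -/
def Clu (M : Model) (C : M.W → Prop) : Prop := ∀ v, C v → ∀ u, M.R v u ↔ C u

variable {M : Model} {C : M.W → Prop}

/-- the truth value of `s` on `C` is `P`, independently of the variable `2` -/
def Rig (M : Model) (C : M.W → Prop) (g : ℕ → M.W) (s : Fm B) (P : Prop) : Prop :=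
  ∀ g' : ℕ → M.W, (∀ n, n ≠ 2 → g' n = g n) → ∀ z, C z → (Holds M s g' z ↔ P)

/-- the truth value of the gadget -/
def NN (C : M.W → Prop) (i : M.W) (S T : Prop) : Prop :=
  ∃ y, C y ∧ ¬ (T ↔ ∃ z, C z ∧ ¬ (y = z ↔ ¬ (i = z ↔ S)))

theorem rig_T (g : ℕ → M.W) : Rig M C g K.T True := fun g' _ z _ => by
  simp [K.holds_T]

theorem rig_X {g : ℕ → M.W} {s t : Fm B} {P Q : Prop} (hs : Rig M C g s P) (ht : Rig M C g t Q) :
    Rig M C g (K.X s t) (¬ (P ↔ Q)) := by
  intro g' hg z hz
  rw [K.holds_X, hs g' hg z hz, ht g' hg z hz]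

theorem rig_z (g : ℕ → M.W) (σ : ℕ → Fm B) : Rig M C g (fill K zT σ) False := by
  have := rig_X K (rig_T K (M := M) (C := C) g) (rig_T K (M := M) (C := C) g)
  simpa [fill, zT] using this

theorem rig_N (hC : Clu M C) {g : ℕ → M.W} {s t : Tp} {σ : ℕ → Fm B} {S T : Prop}
    (hs : Rig M C g (fill K s σ) S) (ht : Rig M C g (fill K t σ) T) :
    Rig M C g (fill K (nT s t) σ) (NN C (g 0) S T) := by
  intro g' hg z hz
  simp only [nT, fill, Holds]
  unfold NN
  apply exists_congr
  intro y
  rw [hC z hz y]
  apply and_congr_right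
  intro hy
  have h1 : ∀ n, n ≠ 2 → Function.update g' 2 y n = g n := by
    intro n hn
    rw [Function.update_of_ne hn, hg n hn]
  rw [K.holds_X, ht _ h1 y hy]
  simp only [Holds]
  apply not_congr
  apply iff_congr Iff.rfl
  apply exists_congr
  intro u
  rw [hC y hy u]
  apply and_congr_right
  intro hu
  rw [K.holds_X, K.holds_X]
  simp only [Holds]
  rw [hs _ h1 u hu, Function.update_self, h1 0 (by norm_num)]

theorem rig_var (hC : Clu M C) {g : ℕ → M.W} (h0 : C (g 0)) (n : ℕ) (hn : n ≠ 2) :
    Rig M C g (fill K varT (fun _ => .var n)) (g n ≠ g 0) := by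
  intro g' hg z hz
  simp only [varT, fill, Holds]
  constructor
  · rintro ⟨u, hu, h⟩
    rw [K.holds_X] at h
    simp only [Holds] at h
    rw [hg n hn, hg 0 (by norm_num)] at h
    intro he
    rw [he] at h
    exact h Iff.rfl
  · intro h
    refine ⟨g 0, (hC z hz _).mpr h0, ?_⟩
    rw [K.holds_X]
    simp only [Holds]
    rw [hg n hn, hg 0 (by norm_num)]
    intro he
    exact h (he.mpr rfl)

theorem rig_ex (hC : Clu M C) {g : ℕ → M.W} {s : Fm B} {P : M.W → Prop} (n : ℕ) (hn : n ≠ 2)
    (h : ∀ x, C x → Rig M C (Function.update g n x) s (P x)) :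
    Rig M C g (.dia (.down n s)) (∃ x, C x ∧ P x) := by
  intro g' hg z hz
  simp only [Holds]
  apply exists_congr
  intro x
  rw [hC z hz x]
  apply and_congr_right
  intro hx
  apply h x hx _ _ x hx
  intro m hm
  by_cases hmn : m = n
  · subst hmn; simp
  · rw [Function.update_of_ne hmn, Function.update_of_ne hmn, hg m hm]

/-! ### the gadget -/

/-- at least three points -/
def Big (C : M.W → Prop) (i : M.W) : Prop := ∃ a b, C a ∧ C b ∧ a ≠ i ∧ b ≠ i ∧ a ≠ b

theorem NN_big {i : M.W} (hi : C i) (h : Big C i) (S T : Prop) : NN C i S T ↔ ¬ (S ∧ T) := by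
  obtain ⟨a, b, ha, hb, hai, hbi, hab⟩ := h
  -- the inner formula
  have inner : ∀ y, C y → ((∃ z, C z ∧ ¬ (y = z ↔ ¬ (i = z ↔ S))) ↔ (S ∨ y ≠ i)) := by
    intro y hy
    by_cases hS : S
    · simp only [hS, iff_true, true_or]
      by_cases hyi : y = i
      · exact ⟨i, hi, by simp [hyi]⟩
      · by_cases hya : y = a
        · refine ⟨b, hb, ?_⟩
          subst hya
          simp [hab, Ne.symm hbi]
        · refine ⟨a, ha, ?_⟩
          simp [hya, Ne.symm hai]
    · simp only [hS, iff_false, false_or, not_not]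
      constructor
      · rintro ⟨z, _, hz⟩ hyi
        rw [hyi] at hz
        exact hz Iff.rfl
      · intro hyi
        exact ⟨i, hi, by simp [hyi]⟩
  unfold NN
  constructor
  · rintro ⟨y, hy, h⟩ ⟨hS, hT⟩
    rw [inner y hy] at h
    simp [hS, hT] at h
  · intro h
    by_cases hT : T
    · have hS : ¬ S := fun hS => h ⟨hS, hT⟩
      refine ⟨i, hi, ?_⟩
      rw [inner i hi]
      simp [hS, hT]
    · refine ⟨a, ha, ?_⟩
      rw [inner a ha]
      simp [hT, hai]

theorem gate_small {i : M.W} (hi : C i) (h : ¬ Big C i) (P : Prop) :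
    ¬ (¬ (¬ (¬ (NN C i P True ↔ NN C i False True) ↔
      ¬ (NN C i P False ↔ NN C i False False)))) → False := by
  intro hh
  apply hh
  intro hh
  apply hh
  clear hh
  by_cases h1 : ∃ a, C a ∧ a ≠ i
  · obtain ⟨a, ha, hai⟩ := h1
    have hall : ∀ z, C z → z = i ∨ z = a := by
      intro z hz
      by_contra hcon
      push Not at hcon
      exact h ⟨z, a, hz, ha, hcon.1, hai, hcon.2⟩
    have N1 : ∀ S T : Prop, NN C i S T := by
      intro S T
      by_cases hT : T
      · by_cases hS : S
        · refine ⟨a, ha, ?_⟩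
          simp only [hT, hS, true_iff, iff_true]
          rintro ⟨z, hz, hzz⟩
          rcases hall z hz with rfl | rfl
          · simp [hai] at hzz
          · simp [Ne.symm hai] at hzz
        · refine ⟨i, hi, ?_⟩
          simp [hT, hS]
      · by_cases hS : S
        · refine ⟨i, hi, ?_⟩
          simp only [hT, hS, iff_true, false_iff, not_not]
          exact ⟨i, hi, by simp⟩
        · refine ⟨a, ha, ?_⟩
          simp only [hT, hS, iff_false, false_iff, not_not]
          exact ⟨i, hi, by simp [hai]⟩
    simp [N1]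
  · push Not at h1
    have N1 : ∀ S T : Prop, NN C i S T ↔ ¬ (T ↔ S) := by
      intro S T
      constructor
      · rintro ⟨y, hy, hh⟩
        have := h1 y hy
        subst this
        intro hTS
        apply hh
        rw [hTS]
        constructor
        · intro hS
          exact ⟨y, hi, by simp [hS]⟩
        · rintro ⟨z, hz, hzz⟩
          have := h1 z hz
          subst this
          simpa using hzz
      · intro hTS
        refine ⟨i, hi, ?_⟩
        intro hh
        apply hTS
        rw [hh]
        constructor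
        · rintro ⟨z, hz, hzz⟩
          have := h1 z hz
          subst this
          simpa using hzz
        · intro hS
          exact ⟨i, hi, by simp [hS]⟩
    simp only [N1]
    by_cases P <;> simp [*]

/-! ### rigidity and value of the translation -/

theorem tau2_rig (hC : Clu M C) (a : QF) : ∀ g : ℕ → M.W, C (g 0) →
    ∃ P, Rig M C g (tau2 K a) P := by
  induction a with
  | var n => exact fun g h0 => ⟨_, rig_var K hC h0 (2 * n + 1) (by omega)⟩
  | one => exact fun g _ => ⟨_, rig_T K g⟩
  | and a b iha ihb =>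
    intro g h0
    obtain ⟨P, hP⟩ := iha g h0
    obtain ⟨Q, hQ⟩ := ihb g h0
    exact ⟨_, rig_X K (rig_N K hC (s := .hole 1) (t := .hole 0) (σ := two (tau2 K a) (tau2 K b))
      hQ hP) (rig_T K g)⟩
  | xor a b iha ihb =>
    intro g h0
    obtain ⟨P, hP⟩ := iha g h0
    obtain ⟨Q, hQ⟩ := ihb g h0
    exact ⟨_, rig_X K hP hQ⟩
  | ex n a iha =>
    intro g h0
    have h : ∀ x, ∃ P, C x → Rig M C (Function.update g (2 * n + 1) x) (tau2 K a) P := by
      intro x
      obtain ⟨P, hP⟩ := iha (Function.update g (2 * n + 1) x) (by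
        rw [Function.update_of_ne (by omega)]
        exact h0)
      exact ⟨P, fun _ => hP⟩
    choose P hP using h
    exact ⟨_, rig_ex hC (2 * n + 1) (by omega) hP⟩

theorem Rig.congr {g : ℕ → M.W} {s : Fm B} {P Q : Prop} (h : Rig M C g s P) (hPQ : P ↔ Q) :
    Rig M C g s Q := fun g' hg z hz => (h g' hg z hz).trans hPQ

theorem tau2_big (hC : Clu M C) (a : QF) : ∀ g : ℕ → M.W, C (g 0) → Big C (g 0) →
    Rig M C g (tau2 K a) (a.eval (fun n => decide (g (2 * n + 1) ≠ g 0)) = true) := by
  induction a with
  | var n =>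
    intro g h0 _
    exact (rig_var K hC h0 (2 * n + 1) (by omega)).congr (by simp [QF.eval])
  | one =>
    intro g _ _
    exact (rig_T K g).congr (by simp [QF.eval])
  | and a b iha ihb =>
    intro g h0 hb
    refine (rig_X K (rig_N K hC (s := .hole 1) (t := .hole 0) (σ := two (tau2 K a) (tau2 K b))
      (ihb g h0 hb) (iha g h0 hb)) (rig_T K g)).congr ?_
    rw [NN_big h0 hb]
    simp only [QF.eval, Bool.and_eq_true]
    tauto
  | xor a b iha ihb =>
    intro g h0 hb
    refine (rig_X K (iha g h0 hb) (ihb g h0 hb)).congr ?_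
    simp only [QF.eval]
    cases a.eval fun n => decide (g (2 * n + 1) ≠ g 0) <;>
      cases b.eval fun n => decide (g (2 * n + 1) ≠ g 0) <;> simp
  | ex n a iha =>
    intro g h0 hb
    have e0 : ∀ x, Function.update g (2 * n + 1) x 0 = g 0 := fun x => by
      rw [Function.update_of_ne (by omega)]
    have h : ∀ x, C x → Rig M C (Function.update g (2 * n + 1) x) (tau2 K a)
        (a.eval (Function.update (fun m => decide (g (2 * m + 1) ≠ g 0)) n
          (decide (x ≠ g 0))) = true) := by
      intro x _
      have := iha (Function.update g (2 * n + 1) x) (by rw [e0]; exact h0) (by rw [e0]; exact hb)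
      refine this.congr ?_
      have e1 : (fun m => decide (Function.update g (2 * n + 1) x (2 * m + 1) ≠
          Function.update g (2 * n + 1) x 0)) =
          Function.update (fun m => decide (g (2 * m + 1) ≠ g 0)) n (decide (x ≠ g 0)) := by
        funext m
        rw [e0]
        by_cases hm : m = n
        · subst hm
          rw [Function.update_self, Function.update_self]
        · rw [Function.update_of_ne (by omega), Function.update_of_ne hm]
      rw [e1]
    refine (rig_ex hC (2 * n + 1) (by omega) h).congr ?_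
    simp only [QF.eval, Bool.or_eq_true]
    constructor
    · rintro ⟨x, _, hx⟩
      by_cases hxi : x = g 0
      · right
        simpa [hxi] using hx
      · left
        simpa [hxi] using hx
    · rintro (h1 | h1)
      · obtain ⟨u, _, hu, _, hui, _, _⟩ := hb
        exact ⟨u, hu, by simpa [hui] using h1⟩
      · exact ⟨g 0, h0, by simpa using h1⟩

theorem gate_rig (hC : Clu M C) {g : ℕ → M.W} (h0 : C (g 0)) {s : Tp} {σ : ℕ → Fm B} {P : Prop}
    (hs : Rig M C g (fill K s σ) P) :
    Rig M C g (fill K (gateT s) σ) (Big C (g 0) ∧ P) := by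
  have hT : Rig M C g (fill K .top σ) True := rig_T K g
  have hZ : Rig M C g (fill K zT σ) False := rig_z K g σ
  refine (rig_X K (rig_X K (rig_N K hC hs hT) (rig_N K hC hZ hT))
    (rig_X K (rig_N K hC hs hZ) (rig_N K hC hZ hZ))).congr ?_
  by_cases hb : Big C (g 0)
  · simp only [NN_big h0 hb]
    by_cases hP : P <;> simp [hP, hb]
  · have := gate_small h0 hb P
    constructor
    · intro h
      exact absurd (not_not.mpr h) (fun h' => this h')
    · rintro ⟨h, _⟩
      exact absurd h hb

/-! ### equivalence relations -/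

/-- a model with three points -/
theorem exists_three : ∃ (M : Model) (o a b : M.W), (∀ x y, M.R x y) ∧ a ≠ o ∧ b ≠ o ∧ a ≠ b :=
  ⟨⟨Fin 3, fun _ _ => True, fun _ _ => True, fun _ => 0⟩, (0 : Fin 3), (1 : Fin 3), (2 : Fin 3),
    fun _ _ => trivial, by decide, by decide, by decide⟩

/-- the gate in the model with three points -/
theorem three_gate (a : QF) (ρ : ℕ → Bool) (hρ : a.eval ρ = true) :
    ∃ (M : Model) (g : ℕ → M.W), (∀ x y, M.R x y) ∧ (∃ u, u ≠ g 0) ∧
      ∀ u, Holds M (fill K (gateT (.hole 0)) (fun _ => tau2 K a)) g u := by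
  obtain ⟨M, o, p, q, hR, hpo, hqo, hpq⟩ := exists_three
  have hC : Clu M (fun _ => True) := fun _ _ _ => iff_of_true (hR _ _) trivial
  set g : ℕ → M.W := fun n => if n % 2 = 1 ∧ ρ (n / 2) = true then p else o with hg
  have g0 : g 0 = o := by simp [hg]
  have hb : Big (fun _ : M.W => True) (g 0) := by
    rw [g0]
    exact ⟨p, q, trivial, trivial, hpo, hqo, hpq⟩
  have h1 := tau2_big K hC a g trivial hb
  have e1 : (fun n => decide (g (2 * n + 1) ≠ g 0)) = ρ := by
    funext n
    rw [g0]
    have h2 : (2 * n + 1) % 2 = 1 := by omega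
    have h3 : (2 * n + 1) / 2 = n := by omega
    simp only [hg, h2, h3, true_and]
    cases ρ n with
    | true => simp [hpo]
    | false => simp
  rw [e1] at h1
  refine ⟨M, g, hR, ⟨p, by rw [g0]; exact hpo⟩, fun u => ?_⟩
  exact (gate_rig K hC trivial (s := .hole 0) (σ := fun _ => tau2 K a) h1 g
    (fun _ _ => rfl) u trivial).mpr ⟨hb, hρ⟩

theorem update_self_eq {W : Type} (g : ℕ → W) : Function.update g 0 (g 0) = g :=
  Function.update_eq_self 0 g

theorem sat_er (a : QF) :
    SatIn .er (fill K finE (fun _ => tau2 K a)) ↔ ∃ ρ, a.eval ρ = true := by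
  constructor
  · rintro ⟨M, ⟨h1, h2, h3⟩, g, w, h⟩
    have hC : Clu M (fun v => M.R w v) := fun v hv u =>
      ⟨fun hu => h3 _ _ _ hv hu, fun hu => h3 _ _ _ (h2 _ _ hv) hu⟩
    have h0 : M.R w (Function.update g 0 w 0) := by
      rw [Function.update_self]
      exact h1 w
    simp only [finE, fill, Holds] at h
    obtain ⟨P, hP⟩ := tau2_rig K hC a (Function.update g 0 w) h0
    have := (gate_rig K hC h0 (s := .hole 0) (σ := fun _ => tau2 K a) hP
      (Function.update g 0 w) (fun _ _ => rfl) w (h1 w)).mp h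
    have hb := tau2_big K hC a (Function.update g 0 w) h0 this.1
    exact ⟨_, (gate_rig K hC h0 (s := .hole 0) (σ := fun _ => tau2 K a) hb
      (Function.update g 0 w) (fun _ _ => rfl) w (h1 w)).mp h |>.2⟩
  · rintro ⟨ρ, hρ⟩
    obtain ⟨M, g, hR, _, hg⟩ := three_gate K a ρ hρ
    refine ⟨M, ⟨fun _ => hR _ _, fun _ _ _ => hR _ _, fun _ _ _ _ _ => hR _ _⟩, g, g 0, ?_⟩
    simp only [finE, fill, Holds]
    rw [update_self_eq]
    exact hg _

/-! ### transitive frames -/

theorem holds_dT (M : Model) (h : Tp) (σ : ℕ → Fm B) (g : ℕ → M.W) (v : M.W) :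
    Holds M (fill K (dT h) σ) g v ↔
      M.R v (g 0) ∧ ∀ u, M.R v u → u ≠ g 0 → ¬ Holds M (fill K h σ) g u := by
  simp only [dT, fill]
  rw [K.holds_X]
  simp only [Holds]
  by_cases h0 : M.R v (g 0)
  · simp only [h0, true_and]
    by_cases hH : ∃ u, M.R v u ∧ u ≠ g 0 ∧ Holds M (fill K h σ) g u
    · obtain ⟨u, hu, hu0, huh⟩ := hH
      have e1 : ∃ u, M.R v u ∧ Holds M (fill K h σ) g u := ⟨u, hu, huh⟩
      have e2 : ∃ u, M.R v u ∧ Holds M (K.X (fill K h σ) (.var 0)) g u := by
        refine ⟨u, hu, ?_⟩
        rw [K.holds_X]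
        simp only [Holds]
        intro hh
        exact hu0 (hh.mp huh).symm
      constructor
      · intro hh
        exact absurd (iff_of_true e1 e2) hh
      · intro hh
        exact absurd huh (hh u hu hu0)
    · push Not at hH
      have e3 : ∀ u, M.R v u → u ≠ g 0 → ¬ Holds M (fill K h σ) g u := hH
      refine iff_of_true ?_ e3
      have e1 : (∃ u, M.R v u ∧ Holds M (fill K h σ) g u) ↔ Holds M (fill K h σ) g (g 0) := by
        constructor
        · rintro ⟨u, hu, huh⟩
          by_cases hu0 : u = g 0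
          · rwa [hu0] at huh
          · exact absurd huh (e3 u hu hu0)
        · intro hh
          exact ⟨_, h0, hh⟩
      have e2 : (∃ u, M.R v u ∧ Holds M (K.X (fill K h σ) (.var 0)) g u) ↔
          ¬ Holds M (fill K h σ) g (g 0) := by
        constructor
        · rintro ⟨u, hu, huh⟩
          rw [K.holds_X] at huh
          simp only [Holds] at huh
          by_cases hu0 : u = g 0
          · rw [hu0] at huh
            intro hh
            exact huh (iff_of_true hh rfl)
          · exact absurd (iff_of_false (e3 u hu hu0) (fun hh => hu0 hh.symm)) huh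
        · intro hh
          refine ⟨_, h0, ?_⟩
          rw [K.holds_X]
          simp only [Holds]
          intro hh2
          exact hh (hh2.mpr trivial)
      rw [e1, e2]
      tauto
  · simp only [h0, false_and, iff_false, not_not]
    apply exists_congr
    intro u
    apply and_congr_right
    intro hu
    rw [K.holds_X]
    simp only [Holds]
    have hu0 : g 0 ≠ u := fun hh => h0 (hh ▸ hu)
    simp [hu0]

theorem holds_negT (M : Model) (h : Tp) (σ : ℕ → Fm B) (g : ℕ → M.W) (v : M.W) :
    Holds M (fill K (negT h) σ) g v ↔ ¬ Holds M (fill K h σ) g v := by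
  simp only [negT, fill]
  rw [K.holds_X]
  simp [K.holds_T]

theorem sat_trans (a : QF) :
    SatIn .trans (fill K finT (fun _ => tau2 K a)) ↔ ∃ ρ, a.eval ρ = true := by
  constructor
  · rintro ⟨M, htr, g0, w, h⟩
    simp only [finT] at h
    change Holds M (.down 0 (K.X (fill K (dT (negT thT)) _) (fill K (dT .top) _))) g0 w at h
    simp only [Holds] at h
    set g := Function.update g0 0 w with hg
    have gw : g 0 = w := by rw [hg, Function.update_self]
    rw [K.holds_X, holds_dT, holds_dT, gw] at h
    have hww : M.R w w := by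
      by_contra hww
      simp [hww] at h
    simp only [hww, true_and] at h
    have htop : ¬ ∀ u, M.R w u → u ≠ w → ¬ Holds M (fill K .top (fun _ => tau2 K a)) g u := by
      intro ht
      apply h
      refine iff_of_true ?_ ht
      intro u hu huw
      exact absurd (K.holds_T M g u) (ht u hu huw)
    have hth : ∀ u, M.R w u → u ≠ w → Holds M (fill K thT (fun _ => tau2 K a)) g u := by
      by_contra hcon
      apply h
      refine iff_of_false ?_ htop
      intro h'
      apply hcon
      intro u hu huw
      have := h' u hu huw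
      rw [holds_negT] at this
      exact not_not.mp this
    push Not at htop
    obtain ⟨u, hu, huw, _⟩ := htop
    have hback : ∀ u, M.R w u → M.R u w := by
      intro u hu
      by_cases huw : u = w
      · rw [huw]; exact hww
      · have := hth u hu huw
        rw [thT, holds_dT, gw] at this
        exact this.1
    have hC : Clu M (fun v => M.R w v) := fun v hv x =>
      ⟨fun hx => htr _ _ _ hv hx, fun hx => htr _ _ _ (hback v hv) hx⟩
    have h0 : M.R w (g 0) := by rw [gw]; exact hww
    have hgate : Holds M (fill K (gateT (.hole 0)) (fun _ => tau2 K a)) g u := by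
      have := hth u hu huw
      rw [thT, holds_dT, gw] at this
      have h2 := this.2 u (htr _ _ _ (hback u hu) hu) huw
      rw [holds_negT] at h2
      exact not_not.mp h2
    obtain ⟨P, hP⟩ := tau2_rig K hC a g h0
    have h1 := (gate_rig K hC h0 (s := .hole 0) (σ := fun _ => tau2 K a) hP
      g (fun _ _ => rfl) u hu).mp hgate
    have hb := tau2_big K hC a g h0 h1.1
    exact ⟨_, ((gate_rig K hC h0 (s := .hole 0) (σ := fun _ => tau2 K a) hb
      g (fun _ _ => rfl) u hu).mp hgate).2⟩
  · rintro ⟨ρ, hρ⟩
    obtain ⟨M, g, hR, ⟨p, hp⟩, hgate⟩ := three_gate K a ρ hρ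
    refine ⟨M, fun _ _ _ _ _ => hR _ _, g, g 0, ?_⟩
    have hth : ∀ u : M.W, Holds M (fill K thT (fun _ => tau2 K a)) g u := by
      intro u
      rw [thT, holds_dT]
      refine ⟨hR _ _, fun v _ _ => ?_⟩
      rw [holds_negT]
      exact not_not.mpr (hgate v)
    simp only [finT]
    change Holds M (.down 0 (K.X (fill K (dT (negT thT)) _) (fill K (dT .top) _))) g _
    simp only [Holds]
    rw [update_self_eq, K.holds_X, holds_dT, holds_dT]
    intro hh
    have h2 : M.R (g 0) (g 0) ∧ ∀ u, M.R (g 0) u → u ≠ g 0 →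
        ¬ Holds M (fill K (negT thT) (fun _ => tau2 K a)) g u := by
      refine ⟨hR _ _, fun u _ _ => ?_⟩
      rw [holds_negT]
      exact not_not.mpr (hth u)
    exact (hh.mp h2).2 p (hR _ _) hp (K.holds_T M g _)

end Pool.Agent.Lib.MP_bba6cc_lc
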