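import Pool.Agent.Lib.MP_bba6cc_lc.Form
import Pool.Agent.Lib.MP_1ce42f_lc.OfTM2

/-!
# The decision algorithm: a stack machine and a table
-/

namespace Pool.Agent.Lib.MP_bba6cc_lc

open Pool.Agent

/-- numbers written in binary -/
structure BN where
  val : ℕ
  deriving DecidableEq

abbrev Tok := BN × BN
abbrev Frame := ℕ × Bool × ℕ × List (BN × ℕ)
abbrev Out := List (ℕ × Trm)
abbrev St := ℕ × List Frame × Out × Bool
abbrev Tab := List (BN × Bool × List Bool)

def tk (t : ℕ × ℕ) : Tok := (⟨t.1⟩, ⟨t.2⟩)

/-- the table of coefficients -/
def tabB (B : List BFun) : Tab :=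
  (List.finRange B.length).map (fun i => (⟨i.val⟩, c0B (B.get i), List.ofFn (cB (B.get i))))

def entry (tab : Tab) (x : BN) : Tab := tab.filter (fun e => decide (e.1 = x))

def vtrm (lev : ℕ) (env : List (BN × ℕ)) (x : BN) : Trm :=
  MSR.lcase (env.filter (fun e => decide (e.1 = x))) (.nm (.fix (2 * x.val + 1)))
    (fun e _ => if e.2 = lev then .one else .nm (.lvl e.2))

/-- new frames -/
def newF (tab : Tab) (pos : ℕ) (fr : Frame) (t : Tok) : List Frame :=
  if t.1 = ⟨3⟩ then MSR.lcase (entry tab t.2) []
    (fun e _ => e.2.2.map (fun cj => (fr.1, fr.2.1 && cj, fr.2.2.1, fr.2.2.2)))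
  else if t.1 = ⟨4⟩ then [(pos + 1, true, fr.2.2.1 + 1, fr.2.2.2)]
  else if t.1 = ⟨5⟩ then [(pos + 1, true, fr.2.2.1 + 1, fr.2.2.2)]
  else if t.1 = ⟨6⟩ then [(fr.1, fr.2.1, fr.2.2.1, (t.2, fr.2.2.1) :: fr.2.2.2)]
  else []

/-- new outputs -/
def newO (tab : Tab) (pos : ℕ) (fr : Frame) (t : Tok) : Out :=
  if t.1 = ⟨0⟩ then iff1 fr.2.1 [(fr.1, .prp t.2.val)]
  else if t.1 = ⟨1⟩ then iff1 fr.2.1 [(fr.1, .nm (.fix (2 * t.2.val)))]
  else if t.1 = ⟨2⟩ then iff1 fr.2.1 [(fr.1, vtrm fr.2.2.1 fr.2.2.2 t.2)]
  else if t.1 = ⟨3⟩ then MSR.lcase (entry tab t.2) []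
    (fun e _ => iff1 (fr.2.1 && e.2.1) [(fr.1, .one)])
  else if t.1 = ⟨4⟩ then iff1 fr.2.1 [(fr.1, .dia (pos + 1))]
  else if t.1 = ⟨5⟩ then iff1 fr.2.1 [(fr.1, .one), (fr.1, .dia (pos + 1))] ++ [(pos + 1, .one)]
  else []

/-- is the token legal -/
def good (tab : Tab) (t : Tok) : Bool :=
  if t.1 = ⟨0⟩ then true
  else if t.1 = ⟨1⟩ then true
  else if t.1 = ⟨2⟩ then true
  else if t.1 = ⟨3⟩ then !(entry tab t.2).isEmpty
  else if t.1 = ⟨4⟩ then decide (t.2 = ⟨0⟩)
  else if t.1 = ⟨5⟩ then decide (t.2 = ⟨0⟩)
  else if t.1 = ⟨6⟩ then true
  else false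

def step (tab : Tab) (st : St) (t : Tok) : St :=
  MSR.lcase st.2.1 (st.1 + 1, [], st.2.2.1, false)
    (fun fr stk => (st.1 + 1, newF tab st.1 fr t ++ stk, st.2.2.1 ++ newO tab st.1 fr t,
      st.2.2.2 && good tab t))

def run (tab : Tab) (s : List Tok) : St := s.foldl (step tab) (0, [(0, true, 0, [])], [], true)

section

variable {B : List BFun}

theorem step_cons (tab : Tab) (pos : ℕ) (fr : Frame) (stk : List Frame) (out : Out) (o : Bool)
    (t : Tok) : step tab (pos, fr :: stk, out, o) t =
      (pos + 1, newF tab pos fr t ++ stk, out ++ newO tab pos fr t, o && good tab t) := rfl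

def unB (env : List (BN × ℕ)) : List (ℕ × ℕ) := env.map (fun e => (e.1.val, e.2))

theorem vtrm_eq (lev : ℕ) (env : List (BN × ℕ)) (x : ℕ) :
    vtrm lev env ⟨x⟩ = varTrm lev (unB env) x := by
  unfold vtrm varTrm look unB
  induction env with
  | nil => rfl
  | cons e env ih =>
    obtain ⟨⟨n⟩, j⟩ := e
    by_cases h : n = x
    · subst h
      simp [MSR.lcase]
    · rw [List.filter_cons_of_neg (by simpa using h)]
      rw [ih]
      simp [h]

theorem entry_val (i : Fin B.length) :
    entry (tabB B) ⟨i.val⟩ = [(⟨i.val⟩, c0B (B.get i), List.ofFn (cB (B.get i)))] := by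
  unfold entry tabB
  rw [List.filter_map]
  have : (List.finRange B.length).filter ((fun e : BN × Bool × List Bool => decide (e.1 = ⟨i.val⟩)) ∘
      (fun i : Fin B.length => ((⟨i.val⟩ : BN), c0B (B.get i), List.ofFn (cB (B.get i))))) = [i] := by
    have h1 : ((fun e : BN × Bool × List Bool => decide (e.1 = ⟨i.val⟩)) ∘
      (fun i : Fin B.length => ((⟨i.val⟩ : BN), c0B (B.get i), List.ofFn (cB (B.get i))))) =
      (fun j => decide (j = i)) := by
      funext j
      simp [Fin.ext_iff]
    rw [h1]
    have := List.filter_beq (l := List.finRange B.length) i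
    have h2 : (List.finRange B.length).count i = 1 :=
      List.count_eq_one_of_mem (List.nodup_finRange _) (List.mem_finRange i)
    have h3 : (fun j => decide (j = i)) = (fun x : Fin B.length => x == i) := by
      funext j; rw [Bool.eq_iff_iff]; simp
    rw [h3, this, h2]
    rfl
  rw [this]
  rfl

theorem entry_none {x : ℕ} (h : B.length ≤ x) : entry (tabB B) ⟨x⟩ = [] := by
  unfold entry
  rw [List.filter_eq_nil_iff]
  intro e he
  simp only [tabB, List.mem_map] at he
  obtain ⟨i, _, rfl⟩ := he
  simp
  omega

/-- the machine computes the translation -/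
theorem run_code (φ : Fm B) : ∀ (par : ℕ) (c : Bool) (lev : ℕ) (env : List (BN × ℕ)) (pos : ℕ)
    (stk : List Frame) (out : Out) (o : Bool),
    ((code φ).map tk).foldl (step (tabB B)) (pos, (par, c, lev, env) :: stk, out, o) =
      (pos + (code φ).length, stk, out ++ comp φ par c lev (unB env) pos, o) := by
  induction φ with
  | prp p =>
    intro par c lev env pos stk out o
    simp [code, tk, step_cons, newF, newO, good, comp]
  | nom i =>
    intro par c lev env pos stk out o
    simp [code, tk, step_cons, newF, newO, good, comp]
  | var x =>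
    intro par c lev env pos stk out o
    simp [code, tk, step_cons, newF, newO, good, comp, vtrm_eq]
  | app i args ih =>
    intro par c lev env pos stk out o
    have hargs : ∀ (js : List (Fin (B.get i).ar)) (p : ℕ) (out : Out),
        ((js.flatMap (fun j => code (args j))).map tk).foldl (step (tabB B))
          (p, js.map (fun j => ((par, c && cB (B.get i) j, lev, env) : Frame)) ++ stk, out, o) =
        (p + (js.map (fun j => (code (args j)).length)).sum, stk,
          out ++ seqL (fun j => (code (args j)).length)
        (fun j p => comp (args j) par (c && cB (B.get i) j) lev (unB env) p) js p, o) := by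
      intro js
      induction js with
      | nil => intro p out; simp [seqL]
      | cons j js ihj =>
        intro p out
        rw [List.flatMap_cons, List.map_append, List.foldl_append, List.map_cons, List.cons_append,
          ih j, ihj]
        simp only [seqL, List.map_cons, List.sum_cons, List.append_assoc, Nat.add_assoc]
    have e1 : (code (.app i args)).map tk = tk (3, i.val) ::
        ((List.finRange _).flatMap (fun j => code (args j))).map tk := rfl
    rw [e1, List.foldl_cons, step_cons]
    have e2 : newF (tabB B) pos (par, c, lev, env) (tk (3, i.val)) =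
        (List.finRange _).map (fun j => ((par, c && cB (B.get i) j, lev, env) : Frame)) := by
      simp only [newF, tk, if_true, entry_val, MSR.lcase, List.ofFn_eq_map, List.map_map]
      rfl
    have e3 : newO (tabB B) pos (par, c, lev, env) (tk (3, i.val)) =
        iff1 (c && c0B (B.get i)) [(par, .one)] := by
      simp [newO, tk, entry_val, MSR.lcase]
    have e4 : good (tabB B) (tk (3, i.val)) = true := by
      simp [good, tk, entry_val]
    rw [e2, e3, e4, Bool.and_true, hargs, code_app_length]
    simp only [comp, List.append_assoc, Nat.add_assoc]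
  | dia φ ih =>
    intro par c lev env pos stk out o
    have e1 : (code (.dia φ)).map tk = tk (4, 0) :: (code φ).map tk := rfl
    rw [e1, List.foldl_cons, step_cons]
    have e2 : newF (tabB B) pos (par, c, lev, env) (tk (4, 0)) = [(pos + 1, true, lev + 1, env)] := by
      simp [newF, tk]
    have e3 : newO (tabB B) pos (par, c, lev, env) (tk (4, 0)) =
        iff1 c [(par, .dia (pos + 1))] := by
      simp [newO, tk]
    have e4 : good (tabB B) (tk (4, 0)) = true := by
      simp [good, tk]
    rw [e2, e3, e4, Bool.and_true, List.singleton_append, ih]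
    simp only [comp, code, List.length_cons, List.append_assoc]
    congr 1
    omega
  | box φ ih =>
    intro par c lev env pos stk out o
    have e1 : (code (.box φ)).map tk = tk (5, 0) :: (code φ).map tk := rfl
    rw [e1, List.foldl_cons, step_cons]
    have e2 : newF (tabB B) pos (par, c, lev, env) (tk (5, 0)) = [(pos + 1, true, lev + 1, env)] := by
      simp [newF, tk]
    have e3 : newO (tabB B) pos (par, c, lev, env) (tk (5, 0)) =
        iff1 c [(par, .one), (par, .dia (pos + 1))] ++ [(pos + 1, .one)] := by
      simp [newO, tk]
    have e4 : good (tabB B) (tk (5, 0)) = true := by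
      simp [good, tk]
    rw [e2, e3, e4, Bool.and_true, List.singleton_append, ih]
    simp only [comp, code, List.length_cons, List.append_assoc, List.singleton_append]
    congr 1
    omega
  | down x φ ih =>
    intro par c lev env pos stk out o
    have e1 : (code (.down x φ)).map tk = tk (6, x) :: (code φ).map tk := rfl
    rw [e1, List.foldl_cons, step_cons]
    have e2 : newF (tabB B) pos (par, c, lev, env) (tk (6, x)) =
        [(par, c, lev, (⟨x⟩, lev) :: env)] := by
      simp [newF, tk]
    have e3 : newO (tabB B) pos (par, c, lev, env) (tk (6, x)) = [] := by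
      simp [newO, tk]
    have e4 : good (tabB B) (tk (6, x)) = true := by
      simp [good, tk]
    rw [e2, e3, e4, Bool.and_true, List.singleton_append, List.append_nil, ih]
    simp only [comp, code, List.length_cons]
    rw [show pos + 1 + (code φ).length = pos + ((code φ).length + 1) by omega]
    rfl

/-- once illegal, always illegal -/
theorem run_false (tab : Tab) (s : List Tok) : ∀ (st : St), st.2.2.2 = false →
    (s.foldl (step tab) st).2.2.2 = false := by
  induction s with
  | nil => intro st h; exact h
  | cons t s ih =>
    intro st h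
    rw [List.foldl_cons]
    apply ih
    obtain ⟨pos, stk, out, o⟩ := st
    cases stk with
    | nil => rfl
    | cons fr stk => rw [step_cons]; simp at h; simp [h]

/-- a word accepted by the machine is a sequence of codes of formulas -/
theorem run_inv (s : List (ℕ × ℕ)) : ∀ (pos : ℕ) (stk : List Frame) (out : Out) (o : Bool),
    ((s.map tk).foldl (step (tabB B)) (pos, stk, out, o)).2.2.2 = true →
    ((s.map tk).foldl (step (tabB B)) (pos, stk, out, o)).2.1 = [] →
    ∃ φs : List (Fm B), φs.length = stk.length ∧ s = φs.flatMap code := by
  induction s with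
  | nil =>
    intro pos stk out o h1 h2
    simp at h2
    subst h2
    exact ⟨[], rfl, rfl⟩
  | cons t s ih =>
    intro pos stk out o h1 h2
    rw [List.map_cons, List.foldl_cons] at h1 h2
    cases stk with
    | nil =>
      exfalso
      have := run_false (tabB B) (s.map tk) (step (tabB B) (pos, [], out, o) (tk t)) rfl
      rw [this] at h1
      exact absurd h1 (by simp)
    | cons fr stk =>
      rw [step_cons] at h1 h2
      have hg : good (tabB B) (tk t) = true := by
        by_contra hg
        rw [Bool.not_eq_true] at hg
        have := run_false (tabB B) (s.map tk) (pos + 1, newF (tabB B) pos fr (tk t) ++ stk,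
          out ++ newO (tabB B) pos fr (tk t), o && good (tabB B) (tk t)) (by simp [hg])
        rw [this] at h1
        exact absurd h1 (by simp)
      obtain ⟨φs, hlen, hs⟩ := ih _ _ _ _ h1 h2
      rw [List.length_append] at hlen
      obtain ⟨a, b⟩ := t
      -- build a formula from the first ones
      have hbuild : ∀ (m : ℕ) (ψ : Fm B) , (newF (tabB B) pos fr (tk (a, b))).length = m →
          code ψ = (a, b) :: (φs.take m).flatMap code →
          ∃ φs' : List (Fm B), φs'.length = (fr :: stk).length ∧ (a, b) :: s = φs'.flatMap code := by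
        intro m ψ hm hψ
        refine ⟨ψ :: φs.drop m, ?_, ?_⟩
        · simp; omega
        · rw [List.flatMap_cons, hψ, List.cons_append, ← List.flatMap_append,
            List.take_append_drop, hs]
      simp only [good, tk, BN.mk.injEq] at hg
      split at hg
      · rename_i h; subst h
        exact hbuild 0 (.prp b) (by simp [newF, tk]) (by simp [code])
      split at hg
      · rename_i h; subst h
        exact hbuild 0 (.nom b) (by simp [newF, tk]) (by simp [code])
      split at hg
      · rename_i h; subst h
        exact hbuild 0 (.var b) (by simp [newF, tk]) (by simp [code])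
      split at hg
      · rename_i h; subst h
        have hb : b < B.length := by
          by_contra hb
          rw [entry_none (by omega)] at hg
          simp at hg
        have hm : (newF (tabB B) pos fr (tk (3, b))).length = (B.get ⟨b, hb⟩).ar := by
          have := entry_val (B := B) ⟨b, hb⟩
          simp only at this
          simp only [newF, tk, if_true, this, MSR.lcase, List.length_map, List.length_ofFn]
        have hle : (B.get ⟨b, hb⟩).ar ≤ φs.length := by rw [hlen, hm]; omega
        refine hbuild _ (.app ⟨b, hb⟩ (fun j => φs[j.val]'(by omega))) hm ?_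
        simp only [code]
        congr 1
        have : (φs.take (B.get ⟨b, hb⟩).ar) =
            (List.finRange _).map (fun j : Fin (B.get ⟨b, hb⟩).ar => φs[j.val]'(by omega)) := by
          apply List.ext_getElem
          · simp; omega
          · intro n h1 h2
            simp
        rw [this, List.flatMap_map]
      split at hg
      · rename_i h; subst h
        have hb : b = 0 := by simpa using hg
        subst hb
        have hm : (newF (tabB B) pos fr (tk (4, 0))).length = 1 := by simp [newF, tk]
        have hle : 1 ≤ φs.length := by rw [hlen, hm]; omega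
        obtain ⟨ψ, φs', rfl⟩ : ∃ ψ φs', φs = ψ :: φs' := by
          cases φs with
          | nil => simp at hle
          | cons ψ φs' => exact ⟨ψ, φs', rfl⟩
        exact hbuild 1 (.dia ψ) hm (by simp [code])
      split at hg
      · rename_i h; subst h
        have hb : b = 0 := by simpa using hg
        subst hb
        have hm : (newF (tabB B) pos fr (tk (5, 0))).length = 1 := by simp [newF, tk]
        have hle : 1 ≤ φs.length := by rw [hlen, hm]; omega
        obtain ⟨ψ, φs', rfl⟩ : ∃ ψ φs', φs = ψ :: φs' := by
          cases φs with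
          | nil => simp at hle
          | cons ψ φs' => exact ⟨ψ, φs', rfl⟩
        exact hbuild 1 (.box ψ) hm (by simp [code])
      split at hg
      · rename_i h; subst h
        have hm : (newF (tabB B) pos fr (tk (6, b))).length = 1 := by simp [newF, tk]
        have hle : 1 ≤ φs.length := by rw [hlen, hm]; omega
        obtain ⟨ψ, φs', rfl⟩ : ∃ ψ φs', φs = ψ :: φs' := by
          cases φs with
          | nil => simp at hle
          | cons ψ φs' => exact ⟨ψ, φs', rfl⟩
        exact hbuild 1 (.down b ψ) hm (by simp [code])
      · exact absurd hg (by simp)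

/-- the machine recognises codes -/
theorem run_iff (s : List (ℕ × ℕ)) :
    ((run (tabB B) (s.map tk)).2.2.2 = true ∧ (run (tabB B) (s.map tk)).2.1 = []) ↔
      ∃ φ : Fm B, code φ = s := by
  constructor
  · rintro ⟨h1, h2⟩
    obtain ⟨φs, hl, hs⟩ := run_inv s _ _ _ _ h1 h2
    obtain ⟨φ, rfl⟩ := List.length_eq_one_iff.mp (by simpa using hl)
    exact ⟨φ, by rw [hs]; simp⟩
  · rintro ⟨φ, rfl⟩
    unfold run
    rw [run_code]
    simp

theorem run_out (φ : Fm B) : (run (tabB B) ((code φ).map tk)).2.2.1 = comp φ 0 true 0 [] 0 := by
  unfold run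
  rw [run_code]
  simp [unB]

/-! ## the table -/

/-- children with two extra identifiers `N + 1` (empty) and `N + 2` (the list `[1]`) -/
def chX (N : ℕ) (out : Out) (u : ℕ) : List Trm := childs (out ++ [(N + 2, .one)]) u

def test (tot : Bool) (N : ℕ) (T : List (ℕ × ℕ)) (L : List Trm) : Bool :=
  atomsOK L &&
    evenb (L.count .one + (dias L).countP (fun w => tot && decide ((N + 2, w) ∈ T))) &&
    (dias L).all (fun w => decide ((w, N + 1) ∈ T) || (tot && decide ((N + 2, w) ∈ T)) ||
      evenb ((dias L).countP (fun v => decide ((w, v) ∈ T))))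

def prod (N : ℕ) : List (ℕ × ℕ) := (List.range (N + 3)).product (List.range (N + 3))

def T0 (N : ℕ) (out : Out) : List (ℕ × ℕ) :=
  (prod N).filter (fun p => atomsOK (chX N out p.1 ++ chX N out p.2) &&
    evenb ((chX N out p.1 ++ chX N out p.2).count .one))

def T1 (tot : Bool) (N : ℕ) (out : Out) (T : List (ℕ × ℕ)) : List (ℕ × ℕ) :=
  (prod N).filter (fun p => test tot N T (chX N out p.1 ++ chX N out p.2))

def table (tot : Bool) (N : ℕ) (out : Out) (k : ℕ) : List (ℕ × ℕ) :=
  (T1 tot N out)^[k] (T0 N out)

theorem table_spec (tot : Bool) (N : ℕ) (out : Out) (h1 : ∀ e ∈ out, e.1 ≤ N)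
    (h2 : ∀ e ∈ out, ∀ u, e.2 = .dia u → u ≤ N) (k : ℕ) : ∀ u v, u < N + 3 → v < N + 3 →
    ((u, v) ∈ table tot N out k ↔ z (chX N out) tot k (chX N out u ++ chX N out v) = true) := by
  have hdia : ∀ u, ∀ w ∈ dias (chX N out u), w ≤ N := by
    intro u w hw
    rw [mem_dias] at hw
    simp only [chX, childs, List.mem_map, List.mem_filter, List.mem_append,
      List.mem_singleton] at hw
    obtain ⟨e, ⟨he | he, _⟩, h⟩ := hw
    · exact h2 e he w h
    · subst he; simp at h
  have hd2 : ∀ L M : List Trm, dias (L ++ M) = dias L ++ dias M := by
    intro L M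
    induction L with
    | nil => rfl
    | cons t L ih => cases t <;> simp [dias, ih]
  have hnil : chX N out (N + 1) = [] := by
    apply childs_nil_of
    intro e he h
    rcases List.mem_append.mp he with he | he
    · have := h1 e he; omega
    · simp at he; subst he; simp at h
  have hone : chX N out (N + 2) = [.one] := by
    unfold chX
    rw [childs_append, childs_nil_of, List.nil_append, childs_cons_self]
    · rfl
    · intro e he h
      have := h1 e he; omega
  have hprod : ∀ u v, u < N + 3 → v < N + 3 → (u, v) ∈ prod N := by
    intro u v hu hv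
    unfold prod
    rw [List.pair_mem_product]
    simp [hu, hv]
  induction k with
  | zero =>
    intro u v hu hv
    simp only [table, Function.iterate_zero, id_eq, T0, List.mem_filter, z, hprod u v hu hv,
      true_and]
  | succ k ih =>
    intro u v hu hv
    have e : table tot N out (k + 1) = T1 tot N out (table tot N out k) := by
      simp only [table, Function.iterate_succ_apply']
    rw [e]
    simp only [T1, List.mem_filter, hprod u v hu hv, true_and]
    have hL : ∀ w ∈ dias (chX N out u ++ chX N out v), w ≤ N := by
      intro w hw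
      rw [hd2] at hw
      rcases List.mem_append.mp hw with h | h
      · exact hdia u w h
      · exact hdia v w h
    have ha : ∀ w ∈ dias (chX N out u ++ chX N out v),
        (decide ((N + 2, w) ∈ table tot N out k) : Bool) =
          z (chX N out) tot k (.one :: chX N out w) := by
      intro w hw
      have := ih (N + 2) w (by omega) (by have := hL w hw; omega)
      rw [hone] at this
      rw [Bool.eq_iff_iff, decide_eq_true_iff, this]
      rfl
    have hb : ∀ w ∈ dias (chX N out u ++ chX N out v),
        (decide ((w, N + 1) ∈ table tot N out k) : Bool) =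
          z (chX N out) tot k (chX N out w) := by
      intro w hw
      have := ih w (N + 1) (by have := hL w hw; omega) (by omega)
      rw [hnil, List.append_nil] at this
      rw [Bool.eq_iff_iff, decide_eq_true_iff, this]
    have hc : ∀ w ∈ dias (chX N out u ++ chX N out v), ∀ w' ∈ dias (chX N out u ++ chX N out v),
        (decide ((w, w') ∈ table tot N out k) : Bool) =
          z (chX N out) tot k (chX N out w ++ chX N out w') := by
      intro w hw w' hw'
      have := ih w w' (by have := hL w hw; omega) (by have := hL w' hw'; omega)
      rw [Bool.eq_iff_iff, decide_eq_true_iff, this]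
    have key : test tot N (table tot N out k) (chX N out u ++ chX N out v) =
        z (chX N out) tot (k + 1) (chX N out u ++ chX N out v) := by
      simp only [test, z]
      congr 1
      · congr 2
        congr 1
        apply List.countP_congr
        intro w hw
        rw [ha w hw]
      · rw [Bool.eq_iff_iff, List.all_eq_true, List.all_eq_true]
        apply forall_congr'
        intro w
        apply imp_congr_right
        intro hw
        rw [ha w hw, hb w hw]
        have : (dias (chX N out u ++ chX N out v)).countP
            (fun v => decide ((w, v) ∈ table tot N out k)) =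
            (dias (chX N out u ++ chX N out v)).countP
            (fun w' => z (chX N out) tot k (chX N out w ++ chX N out w')) := by
          apply List.countP_congr
          intro w' hw'
          rw [hc w hw w' hw']
        rw [this]
    rw [key]

/-- the decision algorithm -/
def alg (tot : Bool) (tab : Tab) (s : List Tok) : Bool :=
  (run tab s).2.2.2 && (run tab s).2.1.isEmpty &&
    !(decide ((0, s.length + 1) ∈ table tot s.length (run tab s).2.2.1 s.length))

theorem alg_iff (hB : ∀ f ∈ B, IsAffine f) (tot : Bool) (s : List (ℕ × ℕ)) :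
    alg tot (tabB B) (s.map tk) = true ↔ ∃ φ : Fm B, code φ = s ∧ Sat tot φ := by
  have hB' : ∀ i : Fin B.length, IsAffine (B.get i) := fun i => hB _ (List.get_mem B i)
  have main : ∀ φ : Fm B, code φ = s →
      ((!(decide ((0, (s.map tk).length + 1) ∈ table tot (s.map tk).length
        (run (tabB B) (s.map tk)).2.2.1 (s.map tk).length))) = true ↔ Sat tot φ) := by
    rintro φ rfl
    rw [run_out, List.length_map]
    set N := (code φ).length with hN
    set out := comp φ 0 true 0 [] 0 with hout
    have h1 : ∀ e ∈ out, e.1 ≤ N := by
      intro e he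
      rcases comp_parent _ _ _ _ _ _ e he with h | h
      · omega
      · omega
    have h2 : ∀ e ∈ out, ∀ u, e.2 = .dia u → u ≤ N := by
      intro e he u hu
      have := comp_dia _ _ _ _ _ _ e he u hu
      omega
    have hch : ∀ q, q ≤ N → chX N out q = childs out q := by
      intro q hq
      unfold chX
      rw [childs_append, childs_cons_ne (by omega)]
      simp [childs]
    have hnil : chX N out (N + 1) = [] := by
      apply childs_nil_of
      intro e he h
      rcases List.mem_append.mp he with he | he
      · have := h1 e he; omega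
      · simp at he; subst he; simp at h
    have := table_spec tot N out h1 h2 N 0 (N + 1) (by omega) (by omega)
    rw [hnil, List.append_nil] at this
    rw [sat_iff hB' tot φ (chX N out) hch]
    rw [Bool.not_eq_true', decide_eq_false_iff_not, this, Bool.not_eq_true]
  constructor
  · intro h
    simp only [alg, Bool.and_eq_true] at h
    obtain ⟨⟨h1, h2⟩, h3⟩ := h
    obtain ⟨φ, hφ⟩ := (run_iff s).mp ⟨h1, List.isEmpty_iff.mp h2⟩
    exact ⟨φ, hφ, (main φ hφ).mp h3⟩
  · rintro ⟨φ, hφ, hs⟩
    obtain ⟨h1, h2⟩ := (run_iff s).mpr ⟨φ, hφ⟩
    simp only [alg, Bool.and_eq_true]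
    exact ⟨⟨h1, List.isEmpty_iff.mpr h2⟩, (main φ hφ).mpr hs⟩

end

end Pool.Agent.Lib.MP_bba6cc_lc
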