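import Pool.Agent.Lib.MP_bba6cc_lc.Pseudo

/-!
# Pseudo-models of least weight do not depend on what happens after a return
-/

namespace Pool.Agent.Lib.MP_bba6cc_lc

open Classical

/-- trees with one hole, all nodes above the hole being fresh -/
inductive Cx
  | hole
  | step (pr : ℕ → Bool) (l : List T) (c : Cx) (r : List T)

namespace Cx

def plug : Cx → T → T
  | hole, t => t
  | step pr l c r, t => .nd .fresh pr (l ++ c.plug t :: r)

def len : Cx → ℕ
  | hole => 0
  | step _ _ c _ => c.len + 1

def comp : Cx → Cx → Cx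
  | hole, d => d
  | step pr l c r, d => step pr l (c.comp d) r

theorem plug_comp (c d : Cx) (t : T) : (c.comp d).plug t = c.plug (d.plug t) := by
  induction c with
  | hole => rfl
  | step pr l c r ih => simp [comp, plug, ih]

theorem len_comp (c d : Cx) : (c.comp d).len = c.len + d.len := by
  induction c with
  | hole => simp [comp, len]
  | step pr l c r ih => simp [comp, len, ih]; omega

end Cx

variable {ch : ℕ → List Trm}

theorem ok_of_mem {k m : ℕ} {g : List Trm} (h : ∀ t ∈ g, ∃ M, ok ch k m M ∧ t ∈ M) :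
    ok ch k m g := by
  cases k with
  | zero =>
    intro j hj
    obtain ⟨M, hM, ht⟩ := h _ hj
    exact hM j ht
  | succ k =>
    refine ⟨?_, ?_⟩
    · intro j hj
      obtain ⟨M, hM, ht⟩ := h _ hj
      exact hM.1 j ht
    · intro u hu
      obtain ⟨M, hM, ht⟩ := h _ hu
      exact hM.2 u ht

theorem val_cons (F : Fr) (k : ℕ) (x : F.X) (t : Trm) (L : List Trm) :
    val ch F k x (t :: L) = tv (F.pr x) (F.nv x) (dvl ch F k x) t + val ch F k x L := by
  simp [val_eq, sv]

/-- the value is affine in the type of one child -/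
theorem one_step (k m : ℕ) (pr : ℕ → Bool) (l r : List T) (L : List Trm) :
    ∃ (α : ZMod 2) (g : List Trm), (∀ t ∈ g, ∃ u, Trm.dia u ∈ L ∧ t ∈ ch u) ∧
      ∀ s, val ch Ps (k + 1) (D m, .nd .fresh pr (l ++ s :: r)) L =
        α + val ch Ps k (D (m + 1), s) g := by
  induction L with
  | nil => exact ⟨0, [], by simp, fun s => by simp [val_nil]⟩
  | cons t L ih =>
    obtain ⟨α, g, hg, hv⟩ := ih
    have hg' : ∀ t' ∈ g, ∃ u, Trm.dia u ∈ t :: L ∧ t' ∈ ch u := by
      intro t' ht'
      obtain ⟨u, hu, h⟩ := hg t' ht'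
      exact ⟨u, List.mem_cons_of_mem _ hu, h⟩
    cases t with
    | one =>
      refine ⟨1 + α, g, hg', fun s => ?_⟩
      rw [val_cons, hv]; simp only [tv]; ring
    | prp p =>
      refine ⟨ind (pr p = true) + α, g, hg', fun s => ?_⟩
      rw [val_cons, hv]; simp only [tv, T.nd_pr]; ring
    | nm a =>
      refine ⟨ind (Ps.nv (D m, .nd .fresh pr []) a) + α, g, hg', fun s => ?_⟩
      rw [val_cons, hv, ← add_assoc]
      rfl
    | dia u =>
      have hd : ∀ s, dvl ch Ps (k + 1) (D m, .nd .fresh pr (l ++ s :: r)) u ↔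
          ((∃ y ∈ l ++ r, val ch Ps k (D (m + 1), y) (ch u) = 1) ∨
            val ch Ps k (D (m + 1), s) (ch u) = 1) := by
        intro s
        have hD : D m ++ [newid (D m) .fresh] = D (m + 1) := by rw [D_succ, newid_fresh]
        constructor
        · rintro ⟨⟨Γ, y⟩, ⟨h1, h2⟩, h3⟩
          have h1' : Γ = D (m + 1) := by rw [← hD]; exact h1
          subst h1'
          simp only [T.nd_kids, List.mem_append, List.mem_cons] at h2
          rcases h2 with h | rfl | h
          · left; exact ⟨y, by simp [h], h3⟩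
          · right; exact h3
          · left; exact ⟨y, by simp [h], h3⟩
        · rintro (⟨y, hy, h⟩ | h)
          · refine ⟨(D (m + 1), y), ⟨hD.symm, ?_⟩, h⟩
            simp only [T.nd_kids, List.mem_append, List.mem_cons] at hy ⊢
            tauto
          · exact ⟨(D (m + 1), s), ⟨hD.symm, by simp [T.nd_kids]⟩, h⟩
      by_cases ho : ∃ y ∈ l ++ r, val ch Ps k (D (m + 1), y) (ch u) = 1
      · refine ⟨1 + α, g, hg', fun s => ?_⟩
        rw [val_cons, hv]
        simp only [tv]
        rw [ind_true ((hd s).mpr (Or.inl ho))]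
        ring
      · refine ⟨α, ch u ++ g, ?_, fun s => ?_⟩
        · intro t' ht'
          rcases List.mem_append.mp ht' with h | h
          · exact ⟨u, by simp, h⟩
          · exact hg' t' h
        · rw [val_cons, hv, val_append]
          simp only [tv]
          have : ind (dvl ch Ps (k + 1) (D m, .nd .fresh pr (l ++ s :: r)) u) =
              val ch Ps k (D (m + 1), s) (ch u) := by
            rcases z2 (val ch Ps k (D (m + 1), s) (ch u)) with h0 | h1
            · rw [h0]
              apply ind_false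
              rw [hd s]
              rintro (h | h)
              · exact ho h
              · rw [h0] at h; exact zero_ne_one h
            · rw [h1]
              exact ind_true ((hd s).mpr (Or.inr h1))
          rw [this]
          ring

theorem affine (c : Cx) : ∀ (k m : ℕ) (L : List Trm), ok ch (k + c.len) m L →
    ∃ (α : ZMod 2) (g : List Trm), ok ch k (m + c.len) g ∧
      ∀ t, val ch Ps (k + c.len) (D m, c.plug t) L = α + val ch Ps k (D (m + c.len), t) g := by
  induction c with
  | hole =>
    intro k m L hL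
    exact ⟨0, L, hL, fun t => by simp [Cx.plug, Cx.len]⟩
  | step pr l c r ih =>
    intro k m L hL
    obtain ⟨α, g, hg, hv⟩ := one_step (ch := ch) (k + c.len) m pr l r L
    have hokg : ok ch (k + c.len) (m + 1) g := by
      apply ok_of_mem
      intro t ht
      obtain ⟨u, hu, h⟩ := hg t ht
      exact ⟨ch u, hL.2 u hu, h⟩
    obtain ⟨β, g', hg', hv'⟩ := ih k (m + 1) g hokg
    have hm : m + 1 + c.len = m + (c.len + 1) := by omega
    rw [hm] at hg' hv'
    refine ⟨α + β, g', hg', fun t => ?_⟩
    have := hv (c.plug t)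
    rw [hv' t] at this
    rw [add_assoc]
    exact this

/-- weight of a tree -/
def mt : ℕ → T → Multiset ℕ
  | 0, t => if t.tag = .fresh then 0 else {0}
  | k + 1, t => if t.tag = .fresh then (t.kids.map (mt k)).sum else {k + 1}

theorem mt_ret {k : ℕ} {t : T} (h : t.tag ≠ .fresh) : mt k t = {k} := by
  cases k <;> simp [mt, h]

theorem mt_le (k : ℕ) (t : T) : ∀ a ∈ mt k t, a ≤ k := by
  induction k generalizing t with
  | zero =>
    intro a ha
    by_cases h : t.tag = .fresh
    · simp [mt, h] at ha
    · simp [mt, h] at ha; omega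
  | succ k ih =>
    intro a ha
    by_cases h : t.tag = .fresh
    · simp only [mt, h, if_true] at ha
      have : ∀ l : List T, a ∈ (l.map (mt k)).sum → a ≤ k := by
        intro l
        induction l with
        | nil => intro h; simp at h
        | cons y l ihl =>
          intro h
          rw [List.map_cons, List.sum_cons, Multiset.mem_add] at h
          rcases h with h | h
          · exact ih y a h
          · exact ihl h
      have := this _ ha
      omega
    · rw [mt_ret h] at ha
      simp at ha; omega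

theorem mt_lt {k : ℕ} {t : T} (h : t.tag = .fresh) : ∀ a ∈ mt k t, a < k := by
  cases k with
  | zero => intro a ha; simp [mt, h] at ha
  | succ k =>
    intro a ha
    simp only [mt, h, if_true] at ha
    have : ∀ l : List T, a ∈ (l.map (mt k)).sum → a ≤ k := by
      intro l
      induction l with
      | nil => intro h; simp at h
      | cons y l ihl =>
        intro h
        rw [List.map_cons, List.sum_cons, Multiset.mem_add] at h
        rcases h with h | h
        · exact mt_le k y a h
        · exact ihl h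
    have := this _ ha
    omega

theorem mt_plug (c : Cx) (k : ℕ) : ∃ X, ∀ t, mt (k + c.len) (c.plug t) = X + mt k t := by
  induction c with
  | hole => exact ⟨0, fun t => by simp [Cx.plug, Cx.len]⟩
  | step pr l c r ih =>
    obtain ⟨X, hX⟩ := ih
    refine ⟨(l.map (mt (k + c.len))).sum + (r.map (mt (k + c.len))).sum + X, fun t => ?_⟩
    have : mt (k + (Cx.step pr l c r).len) ((Cx.step pr l c r).plug t) =
        ((l ++ c.plug t :: r).map (mt (k + c.len))).sum := by
      show mt (k + c.len + 1) (.nd .fresh pr (l ++ c.plug t :: r)) = _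
      simp [mt, T.nd_tag, T.nd_kids]
    rw [this, List.map_append, List.sum_append, List.map_cons, List.sum_cons, hX]
    abel

theorem WF_plug {tot : Bool} (c : Cx) : ∀ {k m : ℕ} {t : T}, WF tot (k + c.len) m (c.plug t) →
    WF tot k (m + c.len) t ∧ ∀ s, WF tot k (m + c.len) s → WF tot (k + c.len) m (c.plug s) := by
  induction c with
  | hole => intro k m t h; exact ⟨h, fun s hs => hs⟩
  | step pr l c r ih =>
    intro k m t h
    have hm : m + 1 + c.len = m + (c.len + 1) := by omega
    obtain ⟨h1, h2, h3⟩ := (h : WF tot (k + c.len + 1) m (.nd .fresh pr (l ++ c.plug t :: r)))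
    obtain ⟨h4, h5⟩ := ih (h3 (c.plug t) (by simp [T.nd_kids, Cx.plug]))
    rw [hm] at h4 h5
    refine ⟨h4, fun s hs => ?_⟩
    show WF tot (k + c.len + 1) m (.nd .fresh pr (l ++ c.plug s :: r))
    refine ⟨h1, fun _ => by simp [T.nd_kids], ?_⟩
    intro y hy
    simp only [T.nd_kids, List.mem_append, List.mem_cons] at hy
    rcases hy with h | rfl | h
    · exact h3 y (by simp [T.nd_kids, Cx.plug, h])
    · exact h5 s hs
    · exact h3 y (by simp [T.nd_kids, Cx.plug, h])

theorem plug_tag (c : Cx) (t : T) : (c = .hole ∧ (c.plug t).tag = t.tag) ∨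
    ∀ s, (c.plug s).tag = .fresh := by
  cases c with
  | hole => left; exact ⟨rfl, rfl⟩
  | step pr l c r => right; intro s; rfl

/-- trees of least weight with value one -/
def Good (ch : ℕ → List Trm) (tot : Bool) (n : ℕ) (L : List Trm) (μ : Multiset ℕ) (τ : T) : Prop :=
  WF tot n 0 τ ∧ τ.tag = .fresh ∧ val ch Ps n (D 0, τ) L = 1 ∧ mt n τ = μ

section

variable {tot : Bool} {n : ℕ} {L : List Trm} {μ : Multiset ℕ}

theorem val_fresh_filter {k m : ℕ} {t : T} (ht : t.tag = .fresh) {g : List Trm}
    (hg : ok ch k m g) : val ch Ps k (D m, t) g = val ch Ps k (D m, t) (g.filter notnm) := by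
  rw [val_filter]
  have : ((g.filter (fun t => !notnm t)).map
      (tv (Ps.pr (D m, t)) (Ps.nv (D m, t)) (dvl ch Ps k (D m, t)))).sum = 0 := by
    apply List.sum_eq_zero
    intro v hv
    obtain ⟨s, hs, rfl⟩ := List.mem_map.mp hv
    rw [List.mem_filter] at hs
    cases s with
    | one => simp [notnm] at hs
    | prp p => simp [notnm] at hs
    | dia u => simp [notnm] at hs
    | nm b =>
      apply ind_false
      have hb := ok_nmOK hg b hs.1
      rw [nv_iff hb, ht, newid_fresh]
      intro h
      cases b with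
      | lvl j => simp only [nmOK] at hb; simp at h; omega
      | fix c => simp at h
  rw [this, add_zero]

theorem val_tag_filter {k : ℕ} {Γ : List Nm} {t t' : T} (ht : t'.tag = t.tag) (g : List Trm) :
    ((g.filter (fun t => !notnm t)).map
      (tv (Ps.pr (Γ, t')) (Ps.nv (Γ, t')) (dvl ch Ps k (Γ, t')))).sum =
    ((g.filter (fun t => !notnm t)).map
      (tv (Ps.pr (Γ, t)) (Ps.nv (Γ, t)) (dvl ch Ps k (Γ, t)))).sum := by
  congr 1
  apply List.map_congr_left
  intro s hs
  rw [List.mem_filter] at hs
  cases s with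
  | one => simp [notnm] at hs
  | prp p => simp [notnm] at hs
  | dia u => simp [notnm] at hs
  | nm b =>
    apply ind_congr
    cases b with
    | lvl j =>
      show Γ[j]? = some (newid Γ t'.tag) ↔ Γ[j]? = some (newid Γ t.tag)
      rw [ht]
    | fix c =>
      show newid Γ t'.tag = .fix c ↔ newid Γ t.tag = .fix c
      rw [ht]

theorem change (hL : ok ch n 0 L)
    (hmin : ∀ τ, WF tot n 0 τ → τ.tag = .fresh → val ch Ps n (D 0, τ) L = 1 →
      ¬ Multiset.IsDershowitzMannaLT (mt n τ) μ)
    (c : Cx) (k : ℕ) (hk : k + c.len = n) {t t' : T} (ht : t.tag ≠ .fresh) (ht' : t'.tag = t.tag)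
    (hwf : WF tot k c.len t') (hgood : Good ch tot n L μ (c.plug t)) :
    Good ch tot n L μ (c.plug t') := by
  subst hk
  obtain ⟨h1, h2, h3, h4⟩ := hgood
  obtain ⟨hw1, hw2⟩ := WF_plug c h1
  rw [Nat.zero_add] at hw1 hw2
  have htag : ∀ s, (c.plug s).tag = .fresh := by
    rcases plug_tag c t with h | h
    · exact absurd (h.2.symm.trans h2) ht
    · exact h
  obtain ⟨X, hX⟩ := mt_plug c k
  refine ⟨hw2 t' hwf, htag t', ?_, ?_⟩
  swap
  · rw [hX, mt_ret (by rw [ht']; exact ht), ← mt_ret ht, ← hX]
    exact h4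
  obtain ⟨α, g, hg, hv⟩ := affine (ch := ch) c k 0 L hL
  rw [Nat.zero_add] at hg hv
  obtain ⟨hS, hC⟩ := snd_cmp ch tot k
  rw [hv] at h3 ⊢
  -- the list without names plus the constant
  obtain ⟨g2, hg2, hno, hval⟩ : ∃ g2, ok ch k c.len g2 ∧ (∀ a, Trm.nm a ∉ g2) ∧
      ∀ s, val ch Ps k (D c.len, s) g2 = α + val ch Ps k (D c.len, s) (g.filter notnm) := by
    have hgf : ok ch k c.len (g.filter notnm) :=
      ok_subset ch hg (fun t ht => (List.mem_filter.mp ht).1)
    have hno : ∀ a, Trm.nm a ∉ g.filter notnm := by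
      intro a ha
      have := (List.mem_filter.mp ha).2
      simp [notnm] at this
    rcases z2 α with h0 | h1
    · exact ⟨g.filter notnm, hgf, hno, fun s => by rw [h0, zero_add]⟩
    · refine ⟨.one :: g.filter notnm, ok_one ch hgf, ?_, fun s => by rw [h1, val_one_cons]⟩
      intro a ha
      rcases List.mem_cons.mp ha with h | h
      · exact absurd h (by simp)
      · exact hno a h
  by_cases hz : z ch tot k g2 = true
  · have e1 := hS _ _ hg2 hz Ps (D c.len, t) (fun h => hw1.live h _)
    have e2 := hS _ _ hg2 hz Ps (D c.len, t') (fun h => hwf.live h _)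
    rw [hval] at e1 e2
    rw [val_filter] at h3 ⊢
    rw [val_tag_filter ht', ← add_assoc, e2]
    rw [← add_assoc, e1] at h3
    exact h3
  · exfalso
    rw [Bool.not_eq_true] at hz
    obtain ⟨y, hy, hyf, hyv⟩ := hC _ _ hg2 hz
    have hyf' := hyf hno
    rw [hval, ← val_fresh_filter hyf' hg, ← hv] at hyv
    refine hmin _ (hw2 y hy) (htag y) hyv ?_
    rw [← h4, hX, hX, mt_ret ht]
    refine ⟨X, mt k y, {k}, by simp, rfl, rfl, ?_⟩
    intro a ha
    exact ⟨k, by simp, mt_lt hyf' a ha⟩

/-- same tree up to what happens below returns -/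
def Sim : ℕ → T → T → Prop
  | 0, t, t' => t'.tag = t.tag ∧ (t.tag = .fresh → t'.pr = t.pr)
  | k + 1, t, t' => t'.tag = t.tag ∧
      (t.tag = .fresh → t'.pr = t.pr ∧ List.Forall₂ (Sim k) t.kids t'.kids)

theorem Sim.tag {k : ℕ} {t t' : T} (h : Sim k t t') : t'.tag = t.tag := by
  cases k <;> exact h.1

theorem sim_good (hL : ok ch n 0 L)
    (hmin : ∀ τ, WF tot n 0 τ → τ.tag = .fresh → val ch Ps n (D 0, τ) L = 1 →
      ¬ Multiset.IsDershowitzMannaLT (mt n τ) μ) (k : ℕ) :
    ∀ (c : Cx), k + c.len = n → ∀ {s s' : T}, Sim k s s' → WF tot k c.len s' →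
      Good ch tot n L μ (c.plug s) → Good ch tot n L μ (c.plug s') := by
  induction k with
  | zero =>
    intro c hc s s' hs hwf hgood
    by_cases hf : s.tag = .fresh
    swap
    · exact change hL hmin c 0 hc hf hs.tag hwf hgood
    obtain ⟨h1, h2, h3, h4⟩ := hgood
    have hs' : s'.tag = s.tag := hs.1
    have hpr : s'.pr = s.pr := hs.2 hf
    subst hc
    obtain ⟨hw1, hw2⟩ := WF_plug c h1
    obtain ⟨X, hX⟩ := mt_plug c 0
    obtain ⟨α, g, hg, hv⟩ := affine (ch := ch) c 0 0 L hL
    have he : ∀ g, val ch Ps 0 (D (0 + c.len), s') g = val ch Ps 0 (D (0 + c.len), s) g := by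
      intro g
      simp only [val, sv]
      congr 1
      apply List.map_congr_left
      intro t _
      cases t with
      | one => rfl
      | prp p => simp only [tv]; rw [hpr]
      | nm b =>
        apply ind_congr
        cases b with
        | lvl j =>
          show (D (0 + c.len))[j]? = some (newid _ s'.tag) ↔ (D (0 + c.len))[j]? = some (newid _ s.tag)
          rw [hs']
        | fix i =>
          show newid _ s'.tag = .fix i ↔ newid _ s.tag = .fix i
          rw [hs']
      | dia u => rfl
    refine ⟨hw2 s' (by rw [Nat.zero_add]; exact hwf), ?_, ?_, ?_⟩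
    · rcases plug_tag c s with h | h
      · rw [h.1] at h2 ⊢
        exact hs'.trans h2
      · exact h s'
    · rw [hv, he, ← hv]; exact h3
    · rw [hX]
      have : mt 0 s' = mt 0 s := by simp [mt, hs']
      rw [this, ← hX]; exact h4
  | succ k ih =>
    intro c hc s s' hs hwf hgood
    by_cases hf : s.tag = .fresh
    swap
    · exact change hL hmin c (k + 1) hc hf hs.tag hwf hgood
    obtain ⟨h1, h2⟩ := hs
    obtain ⟨hpr, hk⟩ := h2 hf
    obtain ⟨a, pr, K, rfl⟩ := s.exists_nd
    obtain ⟨a', pr', K', rfl⟩ := s'.exists_nd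
    simp only [T.nd_tag] at hf h1
    simp only [T.nd_pr] at hpr
    simp only [T.nd_kids] at hk
    subst hf h1 hpr
    have key : ∀ (R R' : List T), List.Forall₂ (Sim k) R R' → ∀ left : List T,
        (∀ y ∈ R', WF tot k (c.len + 1) y) →
        Good ch tot n L μ (c.plug (.nd .fresh pr' (left ++ R))) →
        Good ch tot n L μ (c.plug (.nd .fresh pr' (left ++ R'))) := by
      intro R R' hR
      induction hR with
      | nil => intro left _ h; exact h
      | @cons a b R R' hab hR ihR =>
        intro left hw hg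
        have e1 : (c.comp (.step pr' left .hole R)).plug a =
            c.plug (.nd .fresh pr' (left ++ a :: R)) := by
          rw [Cx.plug_comp]; rfl
        have e2 : (c.comp (.step pr' left .hole R)).plug b =
            c.plug (.nd .fresh pr' (left ++ b :: R)) := by
          rw [Cx.plug_comp]; rfl
        have hlen : (c.comp (.step pr' left .hole R)).len = c.len + 1 := by
          rw [Cx.len_comp]; rfl
        rw [← e1] at hg
        have := ih (c.comp (.step pr' left .hole R)) (by rw [hlen]; omega) hab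
          (by rw [hlen]; exact hw b (by simp)) hg
        rw [e2] at this
        have e3 : left ++ b :: R = (left ++ [b]) ++ R := by simp
        have e4 : left ++ b :: R' = (left ++ [b]) ++ R' := by simp
        rw [e3] at this
        rw [e4]
        exact ihR (left ++ [b]) (fun y hy => hw y (List.mem_cons_of_mem _ hy)) this
    have := key K K' hk [] (fun y hy => hwf.2.2 y (by rwa [T.nd_kids])) (by simpa using hgood)
    simpa using this

/-- the minimal pseudo-model -/
theorem exists_robust (hL : ok ch n 0 L) (h : ∃ τ, WF tot n 0 τ ∧ τ.tag = .fresh ∧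
    val ch Ps n (D 0, τ) L = 1) :
    ∃ τ, WF tot n 0 τ ∧ τ.tag = .fresh ∧
      ∀ τ', Sim n τ τ' → WF tot n 0 τ' → val ch Ps n (D 0, τ') L = 1 := by
  set S : Set (Multiset ℕ) := {μ | ∃ τ, WF tot n 0 τ ∧ τ.tag = .fresh ∧
    val ch Ps n (D 0, τ) L = 1 ∧ mt n τ = μ} with hS
  have hne : S.Nonempty := by
    obtain ⟨τ, h1, h2, h3⟩ := h
    exact ⟨mt n τ, τ, h1, h2, h3, rfl⟩
  obtain ⟨μ, hμ, hmin⟩ := (Multiset.wellFounded_isDershowitzMannaLT (α := ℕ)).has_min S hne
  obtain ⟨τ, h1, h2, h3, h4⟩ := hμ
  refine ⟨τ, h1, h2, ?_⟩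
  intro τ' hs hw
  have hm : ∀ τ, WF tot n 0 τ → τ.tag = .fresh → val ch Ps n (D 0, τ) L = 1 →
      ¬ Multiset.IsDershowitzMannaLT (mt n τ) μ :=
    fun τ a b c => hmin _ ⟨τ, a, b, c, rfl⟩
  exact (sim_good hL hm n .hole rfl hs hw ⟨h1, h2, h3, h4⟩).2.2.1

end

end Pool.Agent.Lib.MP_bba6cc_lc
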