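import Pool.Agent.Lib.MP_bba6cc_lc.Sem

/-!
# Pseudo-models and completeness of the cancellation test
-/

namespace Pool.Agent.Lib.MP_bba6cc_lc

open Classical

/-- a node of a pseudo-model is fresh, a return to the path point of level `j`, or a fixed name -/
inductive Tg
  | fresh
  | back (j : ℕ)
  | fx (c : ℕ)
  deriving DecidableEq

inductive T
  | mk (tag : Tg) (pr : ℕ → Bool) (n : ℕ) (kids : Fin n → T)

def T.tag : T → Tg | .mk t _ _ _ => t
def T.pr : T → ℕ → Bool | .mk _ p _ _ => p
def T.kids : T → List T | .mk _ _ _ k => List.ofFn k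
def T.nd (tag : Tg) (pr : ℕ → Bool) (l : List T) : T := .mk tag pr l.length l.get

@[simp] theorem T.nd_tag (a : Tg) (p : ℕ → Bool) (l : List T) : (T.nd a p l).tag = a := rfl
@[simp] theorem T.nd_pr (a : Tg) (p : ℕ → Bool) (l : List T) : (T.nd a p l).pr = p := rfl
@[simp] theorem T.nd_kids (a : Tg) (p : ℕ → Bool) (l : List T) : (T.nd a p l).kids = l := by
  simp [T.nd, T.kids]

theorem T.exists_nd (t : T) : ∃ a p l, t = T.nd a p l := by
  obtain ⟨a, p, n, k⟩ := t
  have : ∀ (l : List T) (hl : l.length = n) (_ : ∀ i : Fin l.length, l.get i = k (Fin.cast hl i)),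
      T.mk a p n k = T.mk a p l.length l.get := by
    intro l hl h
    subst hl
    congr 1
    funext i
    exact (h i).symm
  exact ⟨a, p, List.ofFn k, this _ List.length_ofFn (fun i => by simp; rfl)⟩

def newid (Γ : List Nm) : Tg → Nm
  | .fresh => .lvl Γ.length
  | .back j => Γ.getD j (.lvl Γ.length)
  | .fx c => .fix c

/-- the frame of all pseudo-models -/
abbrev Ps : Fr where
  X := List Nm × T
  pr x p := x.2.pr p = true
  nv x a := match a with
    | .lvl j => x.1[j]? = some (newid x.1 x.2.tag)
    | .fix c => newid x.1 x.2.tag = .fix c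
  nx x y := y.1 = x.1 ++ [newid x.1 x.2.tag] ∧ y.2 ∈ x.2.kids

def D (m : ℕ) : List Nm := (List.range m).map .lvl

theorem D_succ (m : ℕ) : D (m + 1) = D m ++ [.lvl m] := by
  simp [D, List.range_succ]

theorem D_length (m : ℕ) : (D m).length = m := by simp [D]

theorem D_get (m j : ℕ) : (D m)[j]? = if j < m then some (.lvl j) else none := by
  unfold D
  by_cases h : j < m
  · rw [if_pos h]; simp [h]
  · rw [if_neg h]; simp; omega

def tagOK (m : ℕ) : Tg → Prop
  | .back j => j < m
  | _ => True

def WF (tot : Bool) : ℕ → ℕ → T → Prop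
  | 0, m, t => tagOK m t.tag
  | k + 1, m, t => tagOK m t.tag ∧ (tot = true → t.kids ≠ []) ∧ ∀ y ∈ t.kids, WF tot k (m + 1) y

theorem WF.tagOK {tot : Bool} {k m : ℕ} {t : T} (h : WF tot k m t) : tagOK m t.tag := by
  cases k with
  | zero => exact h
  | succ k => exact h.1

theorem WF.live {tot : Bool} {k m : ℕ} {t : T} (h : WF tot k m t) (ht : tot = true)
    (Γ : List Nm) : Live Ps k (Γ, t) := by
  induction k generalizing m t Γ with
  | zero => trivial
  | succ k ih =>
    obtain ⟨-, h2, h3⟩ := h
    refine ⟨?_, ?_⟩
    · obtain ⟨y, hy⟩ := List.exists_mem_of_ne_nil _ (h2 ht)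
      exact ⟨(Γ ++ [newid Γ t.tag], y), rfl, hy⟩
    · rintro ⟨Γ', y⟩ ⟨-, hy⟩
      exact ih (h3 y hy) Γ'

/-- default tree -/
def full : ℕ → Tg → T
  | 0, a => .nd a (fun _ => false) []
  | k + 1, a => .nd a (fun _ => false) [full k .fresh]

theorem full_tag (k : ℕ) (a : Tg) : (full k a).tag = a := by cases k <;> rfl

theorem full_pr (k : ℕ) (a : Tg) (p : ℕ) : (full k a).pr p = false := by cases k <;> rfl

theorem full_WF (tot : Bool) (k m : ℕ) (a : Tg) (h : tagOK m a) : WF tot k m (full k a) := by
  induction k generalizing m a with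
  | zero => exact h
  | succ k ih =>
    refine ⟨h, by simp [full, T.nd_kids], ?_⟩
    intro y hy
    simp only [full, T.nd_kids, List.mem_singleton] at hy
    subst hy
    exact ih (m + 1) .fresh trivial

variable (ch : ℕ → List Trm)

/-- condition on a diamond in the cancellation test -/
def cond (tot : Bool) (k : ℕ) (L : List Trm) (u : ℕ) : Bool :=
  z ch tot k (ch u) || (tot && z ch tot k (.one :: ch u)) ||
        evenb ((dias L).countP (fun v => z ch tot k (ch u ++ ch v)))

/-- soundness at level `k` -/
def Snd (tot : Bool) (k : ℕ) : Prop := ∀ m L, ok ch k m L → z ch tot k L = true →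
  ∀ (F : Fr) (x : F.X), (tot = true → Live F k x) → val ch F k x L = 0

/-- completeness at level `k` -/
def Cmp (tot : Bool) (k : ℕ) : Prop := ∀ m L, ok ch k m L → z ch tot k L = false →
  ∃ t, WF tot k m t ∧ ((∀ a, Trm.nm a ∉ L) → t.tag = .fresh) ∧ val ch Ps k (D m, t) L = 1

/-- the semantic key of a list at level `k` -/
noncomputable def key (tot : Bool) (k m : ℕ) (L : List Trm) : {t : T // WF tot k m t} → ZMod 2 :=
  fun t => val ch Ps k (D m, t.1) L

variable {ch}

theorem key_eq_iff {tot : Bool} {k m : ℕ} (hS : Snd ch tot k) (hC : Cmp ch tot k) {L M : List Trm}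
    (hL : ok ch k m L) (hM : ok ch k m M) :
    key ch tot k m L = key ch tot k m M ↔ z ch tot k (L ++ M) = true := by
  constructor
  · intro h
    by_contra hz
    rw [Bool.not_eq_true] at hz
    obtain ⟨t, ht, -, hv⟩ := hC m _ (ok_append ch hL hM) hz
    have := congrFun h ⟨t, ht⟩
    simp only [key] at this
    rw [val_append, this, z2self] at hv
    exact zero_ne_one hv
  · intro h
    funext t
    have := hS m _ (ok_append ch hL hM) h Ps (D m, t.1) (fun htt => t.2.live htt _)
    rw [val_append] at this
    simp only [key]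
    have h2 := z2self (val ch Ps k (D m, t.1) M)
    rw [← h2] at this
    exact add_right_cancel this

theorem val_eq_of_z {tot : Bool} {k m : ℕ} (hS : Snd ch tot k) {L M : List Trm}
    (hL : ok ch k m L) (hM : ok ch k m M) (hz : z ch tot k (L ++ M) = true)
    (F : Fr) (x : F.X) (hx : tot = true → Live F k x) : val ch F k x L = val ch F k x M := by
  have := hS m _ (ok_append ch hL hM) hz F x hx
  rw [val_append] at this
  have h2 := z2self (val ch F k x M)
  rw [← h2] at this
  exact add_right_cancel this

/-- main computation of the diamond part -/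
theorem dia_sum {tot : Bool} {k m : ℕ} (hS : Snd ch tot k) (hC : Cmp ch tot k) {L : List Trm}
    (hL : ok ch (k + 1) m L) (hc : ∀ u ∈ dias L, cond ch tot k L u = true)
    (F : Fr) (x : F.X) (hx : tot = true → Live F (k + 1) x) :
    ((dias L).map (fun u => ind (∃ y, F.nx x y ∧ val ch F k y (ch u) = 1))).sum =
      ((dias L).countP (fun u => tot && z ch tot k (.one :: ch u)) : ZMod 2) := by
  set dv : ℕ → Prop := fun u => ∃ y, F.nx x y ∧ val ch F k y (ch u) = 1 with hdv
  have hok : ∀ u ∈ dias L, ok ch k (m + 1) (ch u) := fun u hu => hL.2 u (mem_dias.mp hu)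
  have hlv : ∀ y, F.nx x y → (tot = true → Live F k y) := fun y hy ht => (hx ht).2 y hy
  -- congruence
  have hcg : ∀ u ∈ dias L, ∀ v ∈ dias L, key ch tot k (m + 1) (ch u) = key ch tot k (m + 1) (ch v) →
      (dv u → dv v) := by
    intro u hu v hv hk
    rw [key_eq_iff hS hC (hok u hu) (hok v hv)] at hk
    rintro ⟨y, hy, h1⟩
    refine ⟨y, hy, ?_⟩
    rw [← val_eq_of_z hS (hok u hu) (hok v hv) hk F y (hlv y hy)]
    exact h1
  set K : ℕ → ({t : T // WF tot k (m + 1) t} → ZMod 2) := fun u => key ch tot k (m + 1) (ch u) with hK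
  -- functions on keys
  set g : ({t : T // WF tot k (m + 1) t} → ZMod 2) → ZMod 2 :=
    fun κ => ind (∃ u ∈ dias L, K u = κ ∧ dv u) with hg
  have hgK : ∀ u ∈ dias L, ind (dv u) = g (K u) := by
    intro u hu
    apply ind_congr
    constructor
    · intro h; exact ⟨u, hu, rfl, h⟩
    · rintro ⟨v, hv, hk, hd⟩
      exact hcg v hv u hu hk hd
  have hone : ∀ u ∈ dias L, (tot && z ch tot k (.one :: ch u)) = true → dv u := by
    intro u hu h
    simp only [Bool.and_eq_true] at h
    obtain ⟨y, hy⟩ := (hx h.1).1
    refine ⟨y, hy, ?_⟩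
    have := hS (m + 1) _ (ok_one ch (hok u hu)) h.2 F y (hlv y hy)
    rw [val_one_cons] at this
    rcases z2 (val ch F k y (ch u)) with h0 | h1
    · rw [h0] at this; exact absurd this (by decide)
    · exact h1
  have honeK : ∀ u ∈ dias L, (tot && z ch tot k (.one :: ch u)) = true ↔
      (tot = true ∧ K u = fun _ => 1) := by
    intro u hu
    simp only [Bool.and_eq_true]
    constructor
    · rintro ⟨h1, h2⟩
      refine ⟨h1, ?_⟩
      funext t
      have := hS (m + 1) _ (ok_one ch (hok u hu)) h2 Ps (D (m + 1), t.1) (fun htt => t.2.live htt _)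
      rw [val_one_cons] at this
      rcases z2 (val ch Ps k (D (m + 1), t.1) (ch u)) with h0 | h1
      · rw [h0] at this; exact absurd this (by decide)
      · exact h1
    · rintro ⟨h1, h2⟩
      refine ⟨h1, ?_⟩
      by_contra hz
      rw [Bool.not_eq_true] at hz
      obtain ⟨t, ht, -, hv⟩ := hC (m + 1) _ (ok_one ch (hok u hu)) hz
      have := congrFun h2 ⟨t, ht⟩
      simp only [hK, key] at this
      rw [val_one_cons, this] at hv
      exact absurd hv (by decide)
  set g1 : ({t : T // WF tot k (m + 1) t} → ZMod 2) → ZMod 2 :=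
    fun κ => ind (tot = true ∧ κ = fun _ => 1) with hg1
  have h1 : ((dias L).map (fun u => ind (dv u))).sum =
      (((dias L).map K).map (fun κ => g κ + g1 κ)).sum + (((dias L).map K).map g1).sum := by
    have e1 : (dias L).map (fun u => ind (dv u)) = (dias L).map (fun u => g (K u)) :=
      List.map_congr_left hgK
    rw [e1, List.map_map, List.map_map]
    rw [← List.sum_map_add]
    congr 1
    apply List.map_congr_left
    intro u _
    simp only [Function.comp]
    rw [add_assoc, z2self, add_zero]
  rw [h1]
  have h2 : (((dias L).map K).map g1).sum =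
      ((dias L).countP (fun u => tot && z ch tot k (.one :: ch u)) : ZMod 2) := by
    rw [List.map_map]
    have : ∀ l : List ℕ, (∀ u ∈ l, u ∈ dias L) → (l.map (g1 ∘ K)).sum =
        ((l.countP (fun u => tot && z ch tot k (.one :: ch u)) : ℕ) : ZMod 2) := by
      intro l
      induction l with
      | nil => intro _; simp
      | cons u l ih =>
        intro hl
        rw [List.map_cons, List.sum_cons, ih (fun v hv => hl v (List.mem_cons_of_mem _ hv)),
          List.countP_cons]
        by_cases hu : (tot && z ch tot k (.one :: ch u)) = true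
        · have h3 := (honeK u (hl u (by simp))).mp hu
          have : (g1 ∘ K) u = 1 := ind_true h3
          rw [this, if_pos hu]
          push_cast
          ring
        · have h3 := mt (honeK u (hl u (by simp))).mpr hu
          have : (g1 ∘ K) u = 0 := ind_false h3
          rw [this, if_neg hu]
          push_cast
          ring
    exact this _ (fun u hu => hu)
  rw [h2]
  have h3 : (((dias L).map K).map (fun κ => g κ + g1 κ)).sum = 0 := by
    apply sum_even
    intro κ hκ
    obtain ⟨u, hu, rfl⟩ := List.mem_map.mp hκ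
    have hcu := hc u hu
    simp only [cond, Bool.or_eq_true] at hcu
    rcases hcu with (h0 | h1) | h2
    · left
      have hnd : ¬ dv u := by
        rintro ⟨y, hy, h1⟩
        rw [hS (m + 1) _ (hok u hu) h0 F y (hlv y hy)] at h1
        exact zero_ne_one h1
      have hn1 : ¬ (tot = true ∧ K u = fun _ => 1) := by
        rintro ⟨ht, h1⟩
        exact hnd (hone u hu ((honeK u hu).mpr ⟨ht, h1⟩))
      rw [← hgK u hu, ind_false hnd]
      simp only [hg1]
      rw [ind_false hn1, add_zero]
    · left
      rw [← hgK u hu, ind_true (hone u hu h1)]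
      simp only [hg1]
      rw [ind_true ((honeK u hu).mp h1)]
      decide
    · right
      rw [evenb_iff] at h2
      have hcount : ((dias L).map K).count (K u) =
          (dias L).countP (fun v => z ch tot k (ch u ++ ch v)) := by
        rw [List.count_eq_countP, List.countP_map]
        apply List.countP_congr
        intro v hv
        simp only [Function.comp, beq_iff_eq]
        rw [show (K v = K u) ↔ (K u = K v) from eq_comm]
        exact key_eq_iff hS hC (hok u hu) (hok v hv)
      rw [hcount]
      exact h2
  rw [h3, zero_add]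

theorem snd_zero (tot : Bool) : Snd ch tot 0 := by
  intro m L _ hz F x _
  simp only [z, Bool.and_eq_true] at hz
  rw [val_eq, sv_split, atoms_sum hz.1, evenb_cast hz.2]
  have : ((dias L).map (fun u => ind (dvl ch F 0 x u))).sum = 0 := by
    apply List.sum_eq_zero
    intro a ha
    obtain ⟨u, _, rfl⟩ := List.mem_map.mp ha
    exact ind_false (by simp [dvl])
  rw [this]
  ring

theorem snd_succ {tot : Bool} {k : ℕ} (hS : Snd ch tot k) (hC : Cmp ch tot k) :
    Snd ch tot (k + 1) := by
  intro m L hL hz F x hx
  simp only [z, Bool.and_eq_true, List.all_eq_true] at hz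
  obtain ⟨⟨h1, h2⟩, h3⟩ := hz
  rw [val_eq, sv_split, atoms_sum h1]
  have := dia_sum hS hC hL (fun u hu => h3 u hu) F x hx
  simp only [dvl]
  rw [this]
  have e := evenb_cast h2
  cases tot with
  | false => simpa using e
  | true =>
    rw [add_zero]
    simpa using e

/-! ## completeness -/

def notnm : Trm → Bool
  | .nm _ => false
  | _ => true

/-- the non-atomic part of the test -/
def rst (ch : ℕ → List Trm) (tot : Bool) : ℕ → ℕ → List ℕ → Bool
  | 0, n, _ => evenb n
  | k + 1, n, d => evenb (n + d.countP (fun u => tot && z ch tot k (.one :: ch u))) &&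
      d.all (fun u => z ch tot k (ch u) || (tot && z ch tot k (.one :: ch u)) ||
        evenb (d.countP (fun v => z ch tot k (ch u ++ ch v))))

theorem z_eq (tot : Bool) (k : ℕ) (L : List Trm) :
    z ch tot k L = (atomsOK L && rst ch tot k (L.count .one) (dias L)) := by
  cases k with
  | zero => rfl
  | succ k => simp only [z, rst, Bool.and_assoc]

theorem dias_filter (L : List Trm) : dias (L.filter notnm) = dias L := by
  induction L with
  | nil => rfl
  | cons t L ih =>
    cases t with
    | one => rw [List.filter_cons_of_pos rfl]; simpa [dias] using ih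
    | prp p => rw [List.filter_cons_of_pos rfl]; simpa [dias] using ih
    | nm a => rw [List.filter_cons_of_neg (by simp [notnm])]; simpa [dias] using ih
    | dia u => rw [List.filter_cons_of_pos rfl]; simpa [dias] using ih

theorem z_of_filter {tot : Bool} {k : ℕ} {L : List Trm} (h : z ch tot k (L.filter notnm) = true)
    (h2 : ∀ a, Trm.nm a ∈ L → evenb (L.count (.nm a)) = true) : z ch tot k L = true := by
  rw [z_eq, dias_filter, List.count_filter rfl, Bool.and_eq_true] at h
  rw [z_eq, Bool.and_eq_true]
  refine ⟨?_, h.2⟩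
  have h1 := h.1
  rw [atomsOK, List.all_eq_true] at h1 ⊢
  intro t ht
  cases t with
  | one => rfl
  | prp p =>
    have := h1 (.prp p) (List.mem_filter.mpr ⟨ht, rfl⟩)
    rw [List.count_filter rfl] at this
    exact this
  | nm a => simp [isAtom, h2 a ht]
  | dia u => rfl

theorem val_filter (F : Fr) (k : ℕ) (x : F.X) (L : List Trm) :
    val ch F k x L = val ch F k x (L.filter notnm) +
      ((L.filter (fun t => !notnm t)).map (tv (F.pr x) (F.nv x) (dvl ch F k x))).sum := by
  rw [val_eq, val_eq]
  unfold sv
  induction L with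
  | nil => simp
  | cons t L ih =>
    rw [List.map_cons, List.sum_cons, ih]
    by_cases ht : notnm t = true
    · rw [List.filter_cons_of_pos ht, List.filter_cons_of_neg (by simp [ht])]
      simp only [List.map_cons, List.sum_cons]
      ring
    · rw [List.filter_cons_of_neg ht, List.filter_cons_of_pos (by simpa using ht)]
      simp only [List.map_cons, List.sum_cons]
      ring

def tagOf : Nm → Tg
  | .lvl j => .back j
  | .fix c => .fx c

def nmOK (m : ℕ) : Nm → Prop
  | .lvl j => j < m
  | .fix _ => True

theorem newid_tagOf {m : ℕ} {a : Nm} (h : nmOK m a) : newid (D m) (tagOf a) = a := by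
  cases a with
  | lvl j =>
    simp only [nmOK] at h
    simp only [tagOf, newid, List.getD_eq_getElem?_getD]
    rw [D_get, if_pos h]
    rfl
  | fix c => rfl

theorem newid_fresh (m : ℕ) : newid (D m) .fresh = .lvl m := by
  simp [newid, D_length]

theorem nv_iff {m : ℕ} {t : T} {b : Nm} (h : nmOK m b) :
    Ps.nv (D m, t) b ↔ newid (D m) t.tag = b := by
  cases b with
  | lvl j =>
    simp only [nmOK] at h
    show (D m)[j]? = some (newid (D m) t.tag) ↔ _
    rw [D_get, if_pos h]
    simp only [Option.some.injEq]
    exact eq_comm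
  | fix c => exact Iff.rfl

theorem sum_nm (L : List Trm) (a : Nm) (pr : ℕ → Prop) (nv : Nm → Prop) (dv : ℕ → Prop)
    (h : ∀ b, Trm.nm b ∈ L → (nv b ↔ a = b)) :
    ((L.filter (fun t => !notnm t)).map (tv pr nv dv)).sum = ((L.count (.nm a) : ℕ) : ZMod 2) := by
  induction L with
  | nil => simp
  | cons t L ih =>
    have ih' := ih (fun b hb => h b (List.mem_cons_of_mem _ hb))
    cases t with
    | one => rw [List.filter_cons_of_neg (by simp [notnm]), List.count_cons_of_ne (by simp)]; exact ih'
    | prp p => rw [List.filter_cons_of_neg (by simp [notnm]), List.count_cons_of_ne (by simp)]; exact ih'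
    | dia u => rw [List.filter_cons_of_neg (by simp [notnm]), List.count_cons_of_ne (by simp)]; exact ih'
    | nm b =>
      rw [List.filter_cons_of_pos (by simp [notnm]), List.map_cons, List.sum_cons, ih']
      simp only [tv]
      by_cases hab : a = b
      · subst hab
        rw [ind_true ((h a (by simp)).mpr rfl), List.count_cons_self]
        push_cast; ring
      · rw [ind_false (fun hh => hab ((h b (by simp)).mp hh)), List.count_cons_of_ne (by simpa using Ne.symm hab)]
        ring

theorem ok_nmOK {k m : ℕ} {L : List Trm} (h : ok ch k m L) : ∀ a, Trm.nm a ∈ L → nmOK m a := by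
  intro a ha
  cases a with
  | lvl j => exact ok_lvl ch h j ha
  | fix c => trivial

/-- completeness for lists without names -/
def CmpA (ch : ℕ → List Trm) (tot : Bool) (k : ℕ) : Prop := ∀ m L, ok ch k m L →
  (∀ a, Trm.nm a ∉ L) → z ch tot k L = false →
  ∃ t, WF tot k m t ∧ t.tag = .fresh ∧ val ch Ps k (D m, t) L = 1

theorem cmp_of_cmpA {tot : Bool} {k : ℕ} (hS : Snd ch tot k) (hA : CmpA ch tot k) :
    Cmp ch tot k := by
  intro m L hL hz
  have hL' : ok ch k m (L.filter notnm) := ok_subset ch hL (fun t ht => (List.mem_filter.mp ht).1)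
  have hno : ∀ a, Trm.nm a ∉ L.filter notnm := by
    intro a ha
    have := (List.mem_filter.mp ha).2
    simp [notnm] at this
  by_cases hz' : z ch tot k (L.filter notnm) = true
  · -- a name occurs an odd number of times
    have : ∃ a, Trm.nm a ∈ L ∧ evenb (L.count (.nm a)) = false := by
      by_contra hcon
      push Not at hcon
      have := z_of_filter hz' (fun a ha => by
        have := hcon a ha
        simpa using this)
      rw [this] at hz
      exact absurd hz (by simp)
    obtain ⟨a, ha, hodd⟩ := this
    have hwf : WF tot k m (full k (tagOf a)) := by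
      apply full_WF
      have := ok_nmOK hL a ha
      cases a <;> exact this
    refine ⟨full k (tagOf a), hwf, fun h => absurd ha (h a), ?_⟩
    rw [val_filter, hS m _ hL' hz' Ps _ (fun ht => hwf.live ht _)]
    rw [sum_nm L a, evenb_cast' hodd, zero_add]
    intro b hb
    rw [nv_iff (ok_nmOK hL b hb), full_tag, newid_tagOf (ok_nmOK hL a ha)]
  · rw [Bool.not_eq_true] at hz'
    obtain ⟨t, ht, hf, hv⟩ := hA m _ hL' hno hz'
    refine ⟨t, ht, fun _ => hf, ?_⟩
    rw [val_filter, hv]
    have : ((L.filter (fun t => !notnm t)).map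
        (tv (Ps.pr (D m, t)) (Ps.nv (D m, t)) (dvl ch Ps k (D m, t)))).sum = 0 := by
      apply List.sum_eq_zero
      intro v hv
      obtain ⟨s, hs, rfl⟩ := List.mem_map.mp hv
      rw [List.mem_filter] at hs
      cases s with
      | one => simp [notnm] at hs
      | prp p => simp [notnm] at hs
      | dia u => simp [notnm] at hs
      | nm b =>
        apply ind_false
        have hb := ok_nmOK hL b hs.1
        rw [nv_iff hb, hf, newid_fresh]
        intro h
        cases b with
        | lvl j => simp only [nmOK] at hb; simp at h; omega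
        | fix c => simp at h
    rw [this, add_zero]

theorem sum_prp (L : List Trm) (hno : ∀ a, Trm.nm a ∉ L) (q : ℕ) (pr : ℕ → Prop)
    (hpr : ∀ p, pr p ↔ p = q) (nv : Nm → Prop) (dv : ℕ → Prop) :
    ((L.filter isAtom).map (tv pr nv dv)).sum = ((L.count (.prp q) : ℕ) : ZMod 2) := by
  induction L with
  | nil => simp
  | cons t L ih =>
    have ih' := ih (fun b hb => hno b (List.mem_cons_of_mem _ hb))
    cases t with
    | one => rw [List.filter_cons_of_neg (by simp [isAtom]), List.count_cons_of_ne (by simp)]; exact ih'
    | dia u => rw [List.filter_cons_of_neg (by simp [isAtom]), List.count_cons_of_ne (by simp)]; exact ih'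
    | nm b => exact absurd (by simp) (hno b)
    | prp p =>
      rw [List.filter_cons_of_pos rfl, List.map_cons, List.sum_cons, ih']
      simp only [tv]
      by_cases h : p = q
      · subst h
        rw [ind_true ((hpr p).mpr rfl), List.count_cons_self]
        push_cast; ring
      · rw [ind_false (fun hh => h ((hpr p).mp hh)), List.count_cons_of_ne (by simpa using h)]
        ring

theorem sum_prp0 (L : List Trm) (hno : ∀ a, Trm.nm a ∉ L) (pr : ℕ → Prop)
    (hpr : ∀ p, ¬ pr p) (nv : Nm → Prop) (dv : ℕ → Prop) :
    ((L.filter isAtom).map (tv pr nv dv)).sum = 0 := by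
  apply List.sum_eq_zero
  intro v hv
  obtain ⟨s, hs, rfl⟩ := List.mem_map.mp hv
  rw [List.mem_filter] at hs
  cases s with
  | one => simp [isAtom] at hs
  | dia u => simp [isAtom] at hs
  | nm b => exact absurd hs.1 (hno b)
  | prp p => exact ind_false (hpr p)

theorem dvl_congr (k : ℕ) (Γ : List Nm) (a : Tg) (pr pr' : ℕ → Bool) (K : List T) :
    dvl ch Ps k (Γ, .nd a pr K) = dvl ch Ps k (Γ, .nd a pr' K) := by
  cases k <;> rfl

/-- the propositional case -/
theorem cmp_prp {tot : Bool} {k m : ℕ} {L : List Trm} (hno : ∀ a, Trm.nm a ∉ L)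
    (h : atomsOK L = false) : ∃ t, WF tot k m t ∧ t.tag = .fresh ∧ val ch Ps k (D m, t) L = 1 := by
  have : ∃ p, evenb (L.count (.prp p)) = false := by
    rw [atomsOK, List.all_eq_false] at h
    obtain ⟨t, ht, h⟩ := h
    cases t with
    | one => simp [isAtom] at h
    | dia u => simp [isAtom] at h
    | nm b => exact absurd ht (hno b)
    | prp p => exact ⟨p, by simpa [isAtom] using h⟩
  obtain ⟨p, hp⟩ := this
  set K := (full k .fresh).kids with hK
  have hwf : ∀ pr : ℕ → Bool, WF tot k m (.nd .fresh pr K) := by
    intro pr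
    have := full_WF tot k m .fresh trivial
    cases k with
    | zero => exact this
    | succ k => exact this
  have hsum : val ch Ps k (D m, .nd .fresh (fun _ => false) K) L +
      val ch Ps k (D m, .nd .fresh (fun q => q == p) K) L = 1 := by
    rw [val_eq, val_eq, sv_split, sv_split]
    rw [sum_prp0 L hno _ (by simp [T.nd_pr])]
    rw [sum_prp L hno p _ (by simp [T.nd_pr])]
    rw [evenb_cast' hp]
    rw [dvl_congr k (D m) .fresh (fun _ => false) (fun q => q == p) K]
    have e : ∀ a b : ZMod 2, a + 0 + b + (a + 1 + b) = 1 := by decide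
    exact e _ _
  rcases z2 (val ch Ps k (D m, .nd .fresh (fun _ => false) K) L) with h0 | h1
  · rw [h0, zero_add] at hsum
    exact ⟨_, hwf _, rfl, hsum⟩
  · exact ⟨_, hwf _, rfl, h1⟩

theorem cmpA_zero (tot : Bool) : CmpA ch tot 0 := by
  intro m L hL hno hz
  by_cases ha : atomsOK L = true
  · simp only [z, ha, Bool.true_and] at hz
    refine ⟨full 0 .fresh, full_WF _ _ _ _ trivial, rfl, ?_⟩
    rw [val_eq, sv_split, atoms_sum ha, evenb_cast' hz]
    have : ((dias L).map (fun u => ind (dvl ch Ps 0 (D m, full 0 .fresh) u))).sum = 0 := by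
      apply List.sum_eq_zero
      intro a ha
      obtain ⟨u, _, rfl⟩ := List.mem_map.mp ha
      exact ind_false (by simp [dvl])
    rw [this]
    ring
  · exact cmp_prp hno (by simpa using ha)

theorem count_key {tot : Bool} {k m : ℕ} (hS : Snd ch tot k) (hC : Cmp ch tot k) {L : List Trm}
    (hL : ok ch (k + 1) m L) {u : ℕ} (hu : u ∈ dias L) :
    ((dias L).map (fun v => key ch tot k (m + 1) (ch v))).count (key ch tot k (m + 1) (ch u)) =
      (dias L).countP (fun v => z ch tot k (ch u ++ ch v)) := by
  have hok : ∀ u ∈ dias L, ok ch k (m + 1) (ch u) := fun u hu => hL.2 u (mem_dias.mp hu)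
  rw [List.count_eq_countP, List.countP_map]
  apply List.countP_congr
  intro v hv
  simp only [Function.comp, beq_iff_eq]
  rw [show (key ch tot k (m + 1) (ch v) = key ch tot k (m + 1) (ch u)) ↔
    (key ch tot k (m + 1) (ch u) = key ch tot k (m + 1) (ch v)) from eq_comm]
  exact key_eq_iff hS hC (hok u hu) (hok v hv)

theorem cmpA_succ {tot : Bool} {k : ℕ} (hS : Snd ch tot k) (hC : Cmp ch tot k) :
    CmpA ch tot (k + 1) := by
  intro m L hL hno hz
  by_cases ha : atomsOK L = true
  swap
  · exact cmp_prp hno (by simpa using ha)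
  have hok : ∀ u ∈ dias L, ok ch k (m + 1) (ch u) := fun u hu => hL.2 u (mem_dias.mp hu)
  by_cases hall : ∀ u ∈ dias L, cond ch tot k L u = true
  · have hodd : evenb (L.count .one + (dias L).countP (fun u => tot && z ch tot k (.one :: ch u)))
        = false := by
      by_contra hcon
      rw [Bool.not_eq_false] at hcon
      have : z ch tot (k + 1) L = true := by
        simp only [z, Bool.and_eq_true, List.all_eq_true]
        exact ⟨⟨ha, hcon⟩, fun u hu => hall u hu⟩
      rw [this] at hz
      exact absurd hz (by simp)
    have hwf := full_WF tot (k + 1) m .fresh trivial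
    refine ⟨full (k + 1) .fresh, hwf, rfl, ?_⟩
    rw [val_eq, sv_split, atoms_sum ha]
    have := dia_sum hS hC hL hall Ps (D m, full (k + 1) .fresh) (fun ht => hwf.live ht _)
    simp only [dvl]
    rw [this]
    have e := evenb_cast' hodd
    rw [add_zero]
    push_cast at e
    exact e
  · push Not at hall
    obtain ⟨u0, hu0, hc0⟩ := hall
    set W := {t : T // WF tot k (m + 1) t} with hW
    set K : ℕ → (W → ZMod 2) := fun u => key ch tot k (m + 1) (ch u) with hK
    set 𝓚 : Finset (W → ZMod 2) :=
      (((dias L).filter (fun u => !cond ch tot k L u)).map K).toFinset with h𝓚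
    have hmem : ∀ κ, κ ∈ 𝓚 ↔ ∃ u ∈ dias L, cond ch tot k L u = false ∧ K u = κ := by
      intro κ
      rw [h𝓚, List.mem_toFinset, List.mem_map]
      constructor
      · rintro ⟨u, hu, h⟩
        rw [List.mem_filter] at hu
        exact ⟨u, hu.1, by simpa using hu.2, h⟩
      · rintro ⟨u, hu, h1, h2⟩
        exact ⟨u, List.mem_filter.mpr ⟨hu, by simp [h1]⟩, h2⟩
    have hne : 𝓚.Nonempty := ⟨K u0, (hmem _).mpr ⟨u0, hu0, by simpa using hc0, rfl⟩⟩
    obtain ⟨κ0, hκ0⟩ := 𝓚.exists_maximalFor (fun κ : W → ZMod 2 => {t : W | κ t = 0}) hne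
    obtain ⟨u1, hu1, hc1, hK1⟩ := (hmem _).mp hκ0.1
    simp only [cond, Bool.or_eq_false_iff] at hc1
    obtain ⟨⟨hz1, hz1'⟩, hodd⟩ := hc1
    -- a list separating
    have hlist : ∀ ks : List (W → ZMod 2), (∀ κ ∈ ks, κ ∈ 𝓚) → ∃ l : List W,
        (∀ t ∈ l, κ0 t = 0) ∧ ∀ κ ∈ ks, κ ≠ κ0 → ∃ t ∈ l, κ t = 1 := by
      intro ks
      induction ks with
      | nil => intro _; exact ⟨[], by simp, by simp⟩
      | cons κ ks ih =>
        intro hks
        obtain ⟨l, h1, h2⟩ := ih (fun κ hκ => hks κ (List.mem_cons_of_mem _ hκ))
        by_cases hκ : κ = κ0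
        · refine ⟨l, h1, ?_⟩
          intro κ' hκ' hne'
          rcases List.mem_cons.mp hκ' with rfl | h
          · exact absurd hκ hne'
          · exact h2 κ' h hne'
        · have hex : ∃ t, κ0 t = 0 ∧ κ t = 1 := by
            by_contra hcon
            push Not at hcon
            have hsub : {t : W | κ0 t = 0} ⊆ {t : W | κ t = 0} := by
              intro t ht
              exact (z2ne _).mp (hcon t ht)
            have := hκ0.2 (hks κ (by simp)) hsub
            apply hκ
            funext t
            rcases z2 (κ0 t) with h | h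
            · rw [h]; exact hsub h
            · rw [h]
              rw [← z2ne']
              intro h'
              have := this h'
              change κ0 t = 0 at this
              rw [this] at h
              exact zero_ne_one h
          obtain ⟨t, ht0, ht1⟩ := hex
          refine ⟨t :: l, ?_, ?_⟩
          · intro s hs
            rcases List.mem_cons.mp hs with rfl | h
            · exact ht0
            · exact h1 s h
          · intro κ' hκ' hne'
            rcases List.mem_cons.mp hκ' with rfl | h
            · exact ⟨t, by simp, ht1⟩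
            · obtain ⟨s, hs, hs1⟩ := h2 κ' h hne'
              exact ⟨s, List.mem_cons_of_mem _ hs, hs1⟩
    have hlist' : ∃ l : List W, (∀ t ∈ l, κ0 t = 0) ∧ (∀ κ ∈ 𝓚, κ ≠ κ0 → ∃ t ∈ l, κ t = 1) ∧
        (tot = true → l ≠ []) := by
      obtain ⟨l, h1, h2⟩ := hlist 𝓚.toList (fun κ hκ => by simpa using hκ)
      by_cases ht : tot = true
      · have hz2 : z ch tot k (.one :: ch u1) = false := by simpa [ht] using hz1'
        obtain ⟨t, htw, -, hv⟩ := hC (m + 1) _ (ok_one ch (hok u1 hu1)) hz2
        have h0 : κ0 ⟨t, htw⟩ = 0 := by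
          rw [← hK1]
          simp only [hK, key]
          rw [val_one_cons] at hv
          rcases z2 (val ch Ps k (D (m + 1), t) (ch u1)) with h | h
          · exact h
          · rw [h] at hv; exact absurd hv (by decide)
        refine ⟨⟨t, htw⟩ :: l, ?_, ?_, fun _ => by simp⟩
        · intro s hs
          rcases List.mem_cons.mp hs with rfl | h
          · exact h0
          · exact h1 s h
        · intro κ hκ hne'
          obtain ⟨s, hs, hs1⟩ := h2 κ (by simpa using hκ) hne'
          exact ⟨s, List.mem_cons_of_mem _ hs, hs1⟩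
      · exact ⟨l, h1, fun κ hκ => h2 κ (by simpa using hκ), fun h => absurd h ht⟩
    obtain ⟨l, hl0, hl1, hlt⟩ := hlist'
    obtain ⟨ts, hts⟩ : ∃ t, κ0 t = 1 := by
      obtain ⟨t, htw, -, hv⟩ := hC (m + 1) _ (hok u1 hu1) hz1
      exact ⟨⟨t, htw⟩, by rw [← hK1]; exact hv⟩
    -- the two trees
    have hwf : ∀ l' : List W, (tot = true → l' ≠ []) →
        WF tot (k + 1) m (.nd .fresh (fun _ => false) (l'.map Subtype.val)) := by
      intro l' hl'
      refine ⟨trivial, ?_, ?_⟩
      · intro ht h
        exact hl' ht (List.map_eq_nil_iff.mp (by rwa [T.nd_kids] at h))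
      · intro y hy
        simp only [T.nd_kids, List.mem_map] at hy
        obtain ⟨s, _, rfl⟩ := hy
        exact s.2
    have hdv : ∀ (l' : List W) (u : ℕ), dvl ch Ps (k + 1)
        (D m, .nd .fresh (fun _ => false) (l'.map Subtype.val)) u ↔ ∃ s ∈ l', K u s = 1 := by
      intro l' u
      simp only [dvl]
      constructor
      · rintro ⟨⟨Γ, y⟩, ⟨h1, h2⟩, h3⟩
        simp only [T.nd_kids, List.mem_map] at h2
        obtain ⟨s, hs, rfl⟩ := h2
        refine ⟨s, hs, ?_⟩
        simp only [hK, key]
        have : Γ = D (m + 1) := by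
          rw [D_succ, ← newid_fresh m]
          exact h1
        rw [← this]
        exact h3
      · rintro ⟨s, hs, h1⟩
        refine ⟨(D (m + 1), s.1), ⟨?_, ?_⟩, h1⟩
        · show D (m + 1) = D m ++ [newid (D m) .fresh]
          rw [D_succ, newid_fresh]
        · simp only [T.nd_kids, List.mem_map]
          exact ⟨s, hs, rfl⟩
    have hlt' : tot = true → l ++ [ts] ≠ [] := fun _ => by simp
    set t0 : T := .nd .fresh (fun _ => false) (l.map Subtype.val) with ht0
    set t1 : T := .nd .fresh (fun _ => false) ((l ++ [ts]).map Subtype.val) with ht1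
    have hsum : val ch Ps (k + 1) (D m, t0) L + val ch Ps (k + 1) (D m, t1) L = 1 := by
      rw [val_eq, val_eq, sv_split, sv_split, atoms_sum ha, atoms_sum ha]
      have e : ∀ a b c : ZMod 2, a + 0 + b + (a + 0 + c) = b + c := by decide
      rw [e]
      set g : (W → ZMod 2) → ZMod 2 := fun κ => ind (∃ s ∈ l, κ s = 1) + ind (∃ s ∈ l ++ [ts], κ s = 1)
        with hg
      have e1 : ((dias L).map (fun u => ind (dvl ch Ps (k + 1) (D m, t0) u))).sum +
          ((dias L).map (fun u => ind (dvl ch Ps (k + 1) (D m, t1) u))).sum =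
          (((dias L).map K).map (fun κ => g κ + ind (κ = κ0))).sum +
          (((dias L).map K).map (fun κ => ind (κ = κ0))).sum := by
        rw [List.map_map, List.map_map, ← List.sum_map_add, ← List.sum_map_add]
        congr 1
        apply List.map_congr_left
        intro u _
        simp only [Function.comp, hg]
        rw [ind_congr (hdv l u), ind_congr (hdv (l ++ [ts]) u)]
        rw [add_assoc _ (ind (K u = κ0)), z2self, add_zero]
      rw [e1]
      have e2 : (((dias L).map K).map (fun κ => ind (κ = κ0))).sum =
          ((((dias L).map K).count κ0 : ℕ) : ZMod 2) := by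
        generalize (dias L).map K = ks
        induction ks with
        | nil => simp
        | cons κ ks ih =>
          rw [List.map_cons, List.sum_cons, ih]
          by_cases h : κ = κ0
          · subst h
            rw [ind_true rfl, List.count_cons_self]; push_cast; ring
          · rw [ind_false h, List.count_cons_of_ne h]; ring
      have e3 : ((((dias L).map K).count κ0 : ℕ) : ZMod 2) = 1 := by
        rw [← hK1]
        have := count_key hS hC hL hu1
        rw [this]
        exact evenb_cast' hodd
      rw [e2, e3]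
      have e4 : (((dias L).map K).map (fun κ => g κ + ind (κ = κ0))).sum = 0 := by
        apply sum_even
        intro κ hκ
        obtain ⟨u, hu, rfl⟩ := List.mem_map.mp hκ
        by_cases hk0 : K u = κ0
        · left
          simp only [hg]
          rw [hk0, ind_true rfl]
          rw [ind_false (p := ∃ s ∈ l, κ0 s = 1), ind_true (p := ∃ s ∈ l ++ [ts], κ0 s = 1)]
          · decide
          · exact ⟨ts, by simp, hts⟩
          · rintro ⟨s, hs, h1⟩
            rw [hl0 s hs] at h1
            exact zero_ne_one h1
        · simp only [hg]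
          rw [ind_false hk0]
          by_cases hcu : cond ch tot k L u = true
          · simp only [cond, Bool.or_eq_true] at hcu
            rcases hcu with (h0 | h1) | h2
            · left
              have hz0 : ∀ s, K u s = 0 := by
                intro s
                exact hS (m + 1) _ (hok u hu) h0 Ps _ (fun ht => s.2.live ht _)
              rw [ind_false, ind_false]
              · decide
              · rintro ⟨s, _, h⟩; rw [hz0 s] at h; exact zero_ne_one h
              · rintro ⟨s, _, h⟩; rw [hz0 s] at h; exact zero_ne_one h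
            · left
              simp only [Bool.and_eq_true] at h1
              have hz1 : ∀ s, K u s = 1 := by
                intro s
                have := hS (m + 1) _ (ok_one ch (hok u hu)) h1.2 Ps (D (m + 1), s.1)
                  (fun ht => s.2.live ht _)
                rw [val_one_cons] at this
                simp only [hK, key]
                rcases z2 (val ch Ps k (D (m + 1), s.1) (ch u)) with h | h
                · rw [h] at this; exact absurd this (by decide)
                · exact h
              obtain ⟨s, hs⟩ := List.exists_mem_of_ne_nil _ (hlt h1.1)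
              rw [ind_true, ind_true]
              · decide
              · exact ⟨s, by simp [hs], hz1 s⟩
              · exact ⟨s, hs, hz1 s⟩
            · right
              have := count_key hS hC hL hu
              rw [this]
              exact (evenb_iff _).mp h2
          · left
            obtain ⟨s, hs, h1⟩ := hl1 (K u) ((hmem _).mpr ⟨u, hu, by simpa using hcu, rfl⟩) hk0
            rw [ind_true, ind_true]
            · decide
            · exact ⟨s, by simp [hs], h1⟩
            · exact ⟨s, hs, h1⟩
      rw [e4, zero_add]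
    rcases z2 (val ch Ps (k + 1) (D m, t0) L) with h0 | h1
    · rw [h0, zero_add] at hsum
      exact ⟨t1, hwf _ hlt', rfl, hsum⟩
    · exact ⟨t0, hwf _ hlt, rfl, h1⟩

/-- the cancellation test is sound and complete for pseudo-models -/
theorem snd_cmp (ch : ℕ → List Trm) (tot : Bool) (k : ℕ) : Snd ch tot k ∧ Cmp ch tot k := by
  induction k with
  | zero => exact ⟨snd_zero tot, cmp_of_cmpA (snd_zero tot) (cmpA_zero tot)⟩
  | succ k ih =>
    have h := snd_succ ih.1 ih.2
    exact ⟨h, cmp_of_cmpA h (cmpA_succ ih.1 ih.2)⟩

end Pool.Agent.Lib.MP_bba6cc_lc
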