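import Pool.Agent.Lib.MP_bba6cc_lc.Mach

/-!
# The decision algorithm runs in polynomial time
-/

namespace Pool.Agent.Lib.MP_bba6cc_lc

open Pool.Agent Pool.Agent.MSR Pool.Agent.MSR.En N487b59b3 N68a2faeb

variable {α β γ : Type} [En α] [En β] [En γ]

instance : En BN := ⟨fun b => Computability.encodeNat b.val⟩

/-- the tuple of a term -/
def tau : Trm → ℕ × BN × ℕ
  | .one => (0, ⟨0⟩, 0)
  | .prp p => (1, ⟨p⟩, 0)
  | .nm (.fix c) => (2 + c % 2, ⟨c / 2⟩, 0)
  | .nm (.lvl j) => (4, ⟨0⟩, j)
  | .dia u => (5, ⟨0⟩, u)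

theorem tau_inj : Function.Injective tau := by
  intro a b h
  rcases a with _ | p | (j | c) | u <;> rcases b with _ | p' | (j' | c') | u' <;>
    simp only [tau, Prod.mk.injEq, BN.mk.injEq] at h <;> first | rfl | (exfalso; omega) | skip
  · rw [h.2.1]
  · rw [h.2.2]
  · have : c = c' := by omega
    rw [this]
  · rw [h.2.2]

instance : En Trm := ⟨fun t => enc (tau t)⟩

theorem PT.tau' {f : α → Trm} (hf : PT f) : PT (fun a => tau (f a)) := hf
theorem PT.ofTau {f : α → Trm} (hf : PT (fun a => tau (f a))) : PT f := hf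

instance : EqPT Bool where
  eq := by
    have : PT (fun p : Bool × Bool => bif p.1 then p.2 else !p.2) :=
      PT.cond (PT.fst PT.id') (PT.snd PT.id') (PT.not (PT.snd PT.id'))
    refine this.of_eq (fun p => ?_)
    obtain ⟨a, b⟩ := p
    cases a <;> cases b <;> rfl

instance eqList [DecidableEq β] [EqPT β] : EqPT (List β) where
  eq := by
    set S : List β × Bool → β → List β × Bool := fun c x =>
      MSR.lcase c.1 ([], false) (fun h t => (t, c.2 && decide (h = x))) with hS
    have h1 : PT (fun p : List β × List β => p.1.foldl S (p.2, true)) := by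
      apply PT.foldl_add (g := fun _ => S) (PT.fst PT.id') (PT.pair (PT.snd PT.id') (PT.const _))
      · apply PT.lcase (PT.fst (PT.fst (PT.snd PT.id'))) (PT.const _)
        apply PT.pair (PT.snd (PT.snd PT.id'))
        apply PT.and
        · exact PT.snd (PT.fst (PT.snd (PT.fst PT.id')))
        · exact PT.eq (PT.fst (PT.snd PT.id')) (PT.snd (PT.snd (PT.fst PT.id')))
      · refine ⟨fun _ => 0, PB.const 0, ?_⟩
        intro p c b _
        obtain ⟨l, o⟩ := c
        cases l with
        | nil => simp [hS, MSR.lcase, sz_pair, sz_bool]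
        | cons h t =>
          simp only [hS, MSR.lcase, sz_pair, sz_bool, sz_cons]
          omega
    have h2 : PT (fun p : List β × List β => (p.1.foldl S (p.2, true)).2 &&
        (p.1.foldl S (p.2, true)).1.isEmpty) := PT.and (PT.snd h1) (PT.isEmpty (PT.fst h1))
    refine h2.of_eq (fun p => ?_)
    obtain ⟨l, m⟩ := p
    have hf : ∀ (l m : List β), (l.foldl S (m, false)).2 = false := by
      intro l
      induction l with
      | nil => intro m; rfl
      | cons x l ih =>
        intro m
        cases m with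
        | nil => exact ih []
        | cons h t => exact ih t
    have key : ∀ (l m : List β), ((l.foldl S (m, true)).2 && (l.foldl S (m, true)).1.isEmpty) =
        decide (l = m) := by
      intro l
      induction l with
      | nil => intro m; cases m <;> rfl
      | cons x l ih =>
        intro m
        cases m with
        | nil =>
          rw [List.foldl_cons]
          show ((l.foldl S ([], false)).2 && _) = _
          rw [hf]; rfl
        | cons h t =>
          rw [List.foldl_cons]
          show ((l.foldl S (t, true && decide (h = x))).2 &&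
            (l.foldl S (t, true && decide (h = x))).1.isEmpty) = _
          by_cases hx : h = x
          · subst hx
            simp only [decide_true, Bool.and_self]
            rw [ih t]
            simp
          · simp only [hx, decide_false, Bool.and_false]
            rw [hf]
            simp [Ne.symm hx]
    exact (key l m).symm

instance : DecidableEq Raw := fun a b =>
  decidable_of_iff (a.str = b.str) (by cases a; cases b; simp)

instance : EqPT Raw where
  eq := by
    have : PT (fun p : Raw × Raw => decide (p.1.str = p.2.str)) :=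
      PT.eq (PT.ofRaw (PT.fst PT.id')) (PT.ofRaw (PT.snd PT.id'))
    refine this.of_eq (fun p => ?_)
    rw [Bool.eq_iff_iff, decide_eq_true_iff, decide_eq_true_iff]
    obtain ⟨⟨a⟩, ⟨b⟩⟩ := p
    simp

instance : EqPT BN where
  eq := by
    have h1 : PT (fun p : BN × BN => (⟨Computability.encodeNat p.1.val⟩ : Raw)) :=
      (PT.fst PT.id' : PT (fun p : BN × BN => p.1))
    have h2 : PT (fun p : BN × BN => (⟨Computability.encodeNat p.2.val⟩ : Raw)) :=
      (PT.snd PT.id' : PT (fun p : BN × BN => p.2))
    refine (PT.eq h1 h2).of_eq (fun p => ?_)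
    rw [Bool.eq_iff_iff, decide_eq_true_iff, decide_eq_true_iff]
    obtain ⟨⟨a⟩, ⟨b⟩⟩ := p
    simp only [BN.mk.injEq, Raw.mk.injEq]
    constructor
    · intro h; rw [h]
    · intro h
      have := congrArg Computability.decodeNat h
      rwa [Computability.decode_encodeNat, Computability.decode_encodeNat] at this

instance : EqPT Trm where
  eq := by
    have h1 : PT (fun p : Trm × Trm => tau p.1) := PT.tau' (PT.fst PT.id')
    have h2 : PT (fun p : Trm × Trm => tau p.2) := PT.tau' (PT.snd PT.id')
    refine (PT.eq h1 h2).of_eq (fun p => ?_)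
    rw [Bool.eq_iff_iff, decide_eq_true_iff, decide_eq_true_iff]
    exact tau_inj.eq_iff.symm

/-! ## lists of terms -/

theorem PT.evenb {n : α → ℕ} (hn : PT n) : PT (fun a => evenb (n a)) := by
  have : PT (fun a => (fun b : Bool => !b)^[n a] true) := by
    apply PT.iter (g := fun _ b => !b) hn (PT.const true)
    · exact PT.not (PT.snd PT.id')
    · exact ⟨fun _ => 1, PB.const 1, fun a k _ => by rw [sz_bool]⟩
  refine this.of_eq (fun a => ?_)
  generalize n a = m
  induction m with
  | zero => rfl
  | succ m ih =>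
    rw [Function.iterate_succ_apply', ← ih]
    unfold MP_bba6cc_lc.evenb
    rcases Nat.mod_two_eq_zero_or_one m with h | h
    · have : (m + 1) % 2 = 1 := by omega
      simp [h, this]
    · have : (m + 1) % 2 = 0 := by omega
      simp [h, this]

theorem PT.count [DecidableEq β] [EqPT β] {l : α → List β} {x : α → β} (hl : PT l) (hx : PT x) :
    PT (fun a => (l a).count (x a)) := by
  have : PT (fun a => ((l a).filter (fun y => decide (y = x a))).length) := by
    apply PT.length
    apply PT.filter hl
    exact PT.eq (PT.snd PT.id') (hx.comp (PT.fst PT.id'))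
  refine this.of_eq (fun a => ?_)
  rw [List.count_eq_length_filter]
  congr 2

theorem PT.countP {l : α → List β} {p : α → β → Bool} (hl : PT l)
    (hp : PT (fun q : α × β => p q.1 q.2)) : PT (fun a => (l a).countP (p a)) := by
  have : PT (fun a => ((l a).filter (p a)).length) := PT.length (PT.filter hl hp)
  exact this.of_eq (fun a => List.countP_eq_length_filter)

theorem PT.all {l : α → List β} {p : α → β → Bool} (hl : PT l)
    (hp : PT (fun q : α × β => p q.1 q.2)) : PT (fun a => (l a).all (p a)) := by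
  have : PT (fun a => !((l a).any (fun b => !(p a b)))) := PT.not (PT.any hl (PT.not hp))
  refine this.of_eq (fun a => ?_)
  generalize l a = m
  induction m with
  | nil => rfl
  | cons b m ih =>
    rw [List.all_cons, List.any_cons, ih]
    cases p a b <;> simp

theorem PT.isAtom {f : α → Trm} (hf : PT f) : PT (fun a => isAtom (f a)) := by
  have : PT (fun a => !(decide ((tau (f a)).1 = 0)) && !(decide ((tau (f a)).1 = 5))) :=
    PT.and (PT.not (PT.eq (PT.fst (PT.tau' hf)) (PT.const 0)))
      (PT.not (PT.eq (PT.fst (PT.tau' hf)) (PT.const 5)))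
  refine this.of_eq (fun a => ?_)
  rcases f a with _ | p | (j | c) | u
  · rfl
  · rfl
  · rfl
  · have h1 : (2 + c % 2 = 0) = False := by simp
    have h2 : (2 + c % 2 = 5) = False := by simp; omega
    simp only [tau, MP_bba6cc_lc.isAtom, h1, h2]
    rfl
  · rfl

theorem PT.dias {L : α → List Trm} (hL : PT L) : PT (fun a => dias (L a)) := by
  have : PT (fun a => ((L a).filter (fun t => decide ((tau t).1 = 5))).map
      (fun t => (tau t).2.2)) := by
    apply PT.map
    · apply PT.filter hL
      exact PT.eq (PT.fst (PT.tau' (PT.snd PT.id'))) (PT.const 5)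
    · exact PT.snd (PT.snd (PT.tau' (PT.snd PT.id')))
  refine this.of_eq (fun a => ?_)
  generalize L a = l
  induction l with
  | nil => rfl
  | cons t l ih =>
    rcases t with _ | p | (j | c) | u
    · simpa [MP_bba6cc_lc.dias, tau] using ih
    · simpa [MP_bba6cc_lc.dias, tau] using ih
    · simpa [MP_bba6cc_lc.dias, tau] using ih
    · have h2 : ¬ (2 + c % 2 = 5) := by omega
      rw [List.filter_cons_of_neg (by
        show ¬ decide (2 + c % 2 = 5) = true
        rw [decide_eq_true_iff]; exact h2)]
      simpa [MP_bba6cc_lc.dias, tau] using ih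
    · simpa [MP_bba6cc_lc.dias, tau] using ih

theorem PT.atomsOK {L : α → List Trm} (hL : PT L) : PT (fun a => atomsOK (L a)) := by
  unfold MP_bba6cc_lc.atomsOK
  apply PT.all hL
  apply PT.or
  · exact PT.not (PT.isAtom (PT.snd PT.id'))
  · exact PT.evenb (PT.count (hL.comp (PT.fst PT.id')) (PT.snd PT.id'))

theorem PT.memP {x : α → ℕ × ℕ} {l : α → List (ℕ × ℕ)} (hx : PT x) (hl : PT l) :
    PT (fun a => decide (x a ∈ l a)) := by
  refine (PT.mem hx hl).of_eq (fun a => ?_)
  exact @decide_eq_decide _ _ (_) (_) |>.mpr Iff.rfl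

theorem PT.childs {out : α → Out} {q : α → ℕ} (ho : PT out) (hq : PT q) :
    PT (fun a => childs (out a) (q a)) := by
  unfold MP_bba6cc_lc.childs
  apply PT.map
  · apply PT.filter ho
    exact PT.eq (PT.fst (PT.snd PT.id')) (hq.comp (PT.fst PT.id'))
  · exact PT.snd (PT.snd PT.id')

theorem PT.chX {N : α → ℕ} {out : α → Out} {q : α → ℕ} (hN : PT N) (ho : PT out) (hq : PT q) :
    PT (fun a => chX (N a) (out a) (q a)) := by
  unfold MP_bba6cc_lc.chX
  apply PT.childs _ hq
  apply PT.append ho
  apply PT.cons _ (PT.const [])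
  exact PT.pair (PT.succ (PT.succ hN)) (PT.const _)

theorem PT.test {tot : Bool} {N : α → ℕ} {T : α → List (ℕ × ℕ)} {L : α → List Trm} (hN : PT N)
    (hT : PT T) (hL : PT L) : PT (fun a => test tot (N a) (T a) (L a)) := by
  unfold MP_bba6cc_lc.test
  have hD : PT (fun a => MP_bba6cc_lc.dias (L a)) := PT.dias hL
  have f1 : ∀ {δ : Type} [En δ] {f : α → δ}, PT f → PT (fun q : α × ℕ => f q.1) :=
    fun h => h.comp (PT.fst PT.id')
  have hmem : PT (fun q : α × ℕ => decide ((N q.1 + 2, q.2) ∈ T q.1)) :=
    PT.memP (PT.pair (PT.succ (PT.succ (f1 hN))) (PT.snd PT.id')) (f1 hT)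
  apply PT.and (PT.and (PT.atomsOK hL) _)
  · apply PT.all hD
    apply PT.or (PT.or _ _)
    · apply PT.evenb
      apply PT.countP (f1 hD)
      exact PT.memP (PT.pair (PT.snd (PT.fst PT.id')) (PT.snd PT.id'))
        (hT.comp (PT.fst (PT.fst PT.id')))
    · exact PT.memP (PT.pair (PT.snd PT.id') (PT.succ (f1 hN))) (f1 hT)
    · exact PT.and (PT.const tot) hmem
  · apply PT.evenb
    apply PT.add (PT.count hL (PT.const _))
    apply PT.countP hD
    exact PT.and (PT.const tot) hmem

theorem PT.prod {N : α → ℕ} (hN : PT N) : PT (fun a => prod (N a)) := by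
  unfold MP_bba6cc_lc.prod
  have : PT (fun a => List.range (N a + 3)) := PT.range (PT.succ (PT.succ (PT.succ hN)))
  exact PT.product this this

theorem sz_filter_le (l : List β) (p : β → Bool) : sz (l.filter p) ≤ sz l := by
  induction l with
  | nil => simp
  | cons b l ih =>
    by_cases h : p b = true
    · rw [List.filter_cons_of_pos h, sz_cons, sz_cons]; omega
    · rw [List.filter_cons_of_neg h, sz_cons]; omega

theorem PT.table {tot : Bool} {N k : α → ℕ} {out : α → Out} (hN : PT N) (ho : PT out)
    (hk : PT k) : PT (fun a => table tot (N a) (out a) (k a)) := by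
  unfold MP_bba6cc_lc.table
  have hp : PT (fun a => MP_bba6cc_lc.prod (N a)) := PT.prod hN
  obtain ⟨d, hd⟩ := hp.bound
  have g1 : ∀ {δ : Type} [En δ] {f : α → δ}, PT f → PT (fun q : α × (ℕ × ℕ) => f q.1) :=
    fun h => h.comp (PT.fst PT.id')
  apply PT.iter hk
  · unfold T0
    apply PT.filter hp
    have hc : PT (fun q : α × (ℕ × ℕ) => MP_bba6cc_lc.chX (N q.1) (out q.1) q.2.1 ++
        MP_bba6cc_lc.chX (N q.1) (out q.1) q.2.2) :=
      PT.append (PT.chX (g1 hN) (g1 ho) (PT.fst (PT.snd PT.id')))
        (PT.chX (g1 hN) (g1 ho) (PT.snd (PT.snd PT.id')))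
    exact PT.and (PT.atomsOK hc) (PT.evenb (PT.count hc (PT.const _)))
  · unfold T1
    have g2 : ∀ {δ : Type} [En δ] {f : α → δ}, PT f →
        PT (fun q : (α × List (ℕ × ℕ)) × (ℕ × ℕ) => f q.1.1) :=
      fun h => h.comp (PT.fst (PT.fst PT.id'))
    apply PT.filter (hp.comp (PT.fst PT.id'))
    apply PT.test (g2 hN) (PT.snd (PT.fst PT.id'))
    exact PT.append (PT.chX (g2 hN) (g2 ho) (PT.fst (PT.snd PT.id')))
        (PT.chX (g2 hN) (g2 ho) (PT.snd (PT.snd PT.id')))
  · refine ⟨fun n => (n + 2) ^ d, (PB.id.add (PB.const 2)).pow d, ?_⟩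
    intro a k _
    cases k with
    | zero => exact (sz_filter_le _ _).trans (hd a)
    | succ k =>
      rw [Function.iterate_succ_apply']
      exact (sz_filter_le _ _).trans (hd a)

/-! ## the machine -/

theorem PT.iff1 {c : α → Bool} {l : α → List β} (hc : PT c) (hl : PT l) :
    PT (fun a => iff1 (c a) (l a)) := by
  refine (PT.cond hc hl (PT.const [])).of_eq (fun a => ?_)
  unfold MP_bba6cc_lc.iff1
  cases c a <;> rfl

theorem PT.mkprp {x : α → BN} (hx : PT x) : PT (fun a => Trm.prp (x a).val) := by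
  apply PT.ofTau
  exact PT.pair (PT.const 1) (PT.pair hx (PT.const 0))

theorem PT.mknom {x : α → BN} (hx : PT x) : PT (fun a => Trm.nm (.fix (2 * (x a).val))) := by
  apply PT.ofTau
  refine (PT.pair (PT.const 2) (PT.pair hx (PT.const 0))).of_eq (fun a => ?_)
  have h1 : 2 * (x a).val % 2 = 0 := by omega
  have h2 : 2 * (x a).val / 2 = (x a).val := by omega
  simp only [tau, h1, h2]

theorem PT.mkfree {x : α → BN} (hx : PT x) : PT (fun a => Trm.nm (.fix (2 * (x a).val + 1))) := by
  apply PT.ofTau
  refine (PT.pair (PT.const 3) (PT.pair hx (PT.const 0))).of_eq (fun a => ?_)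
  have h1 : (2 * (x a).val + 1) % 2 = 1 := by omega
  have h2 : (2 * (x a).val + 1) / 2 = (x a).val := by omega
  simp only [tau, h1, h2]

theorem PT.mklvl {x : α → ℕ} (hx : PT x) : PT (fun a => Trm.nm (.lvl (x a))) := by
  apply PT.ofTau
  exact PT.pair (PT.const 4) (PT.pair (PT.const _) hx)

theorem PT.mkdia {x : α → ℕ} (hx : PT x) : PT (fun a => Trm.dia (x a)) := by
  apply PT.ofTau
  exact PT.pair (PT.const 5) (PT.pair (PT.const _) hx)

theorem PT.vtrm {lev : α → ℕ} {env : α → List (BN × ℕ)} {x : α → BN} (hl : PT lev) (he : PT env)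
    (hx : PT x) : PT (fun a => vtrm (lev a) (env a) (x a)) := by
  unfold MP_bba6cc_lc.vtrm
  apply PT.lcase
  · apply PT.filter he
    exact PT.eq (PT.fst (PT.snd PT.id')) (hx.comp (PT.fst PT.id'))
  · exact PT.mkfree hx
  · apply PT.ite
    · exact PT.eq (PT.snd (PT.fst (PT.snd PT.id'))) (hl.comp (PT.fst PT.id'))
    · exact PT.const _
    · exact PT.mklvl (PT.snd (PT.fst (PT.snd PT.id')))

section machine

variable (tab : Tab)

theorem PT.entry {x : α → BN} (hx : PT x) : PT (fun a => entry tab (x a)) := by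
  unfold MP_bba6cc_lc.entry
  apply PT.filter (PT.const _)
  exact PT.eq (PT.fst (PT.snd PT.id')) (hx.comp (PT.fst PT.id'))

theorem PT.newF {pos : α → ℕ} {fr : α → Frame} {t : α → Tok} (hp : PT pos) (hf : PT fr)
    (ht : PT t) : PT (fun a => newF tab (pos a) (fr a) (t a)) := by
  unfold MP_bba6cc_lc.newF
  have hk : ∀ n : BN, PT (fun a => decide ((t a).1 = n)) := fun n => PT.eq (PT.fst ht) (PT.const n)
  have h1 := PT.fst hf
  have h2 := PT.fst (PT.snd hf)
  have h3 := PT.fst (PT.snd (PT.snd hf))
  have h4 := PT.snd (PT.snd (PT.snd hf))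
  apply PT.ite (hk _)
  · apply PT.lcase (PT.entry tab (PT.snd ht)) (PT.const _)
    apply PT.map (PT.snd (PT.snd (PT.fst (PT.snd PT.id'))))
    have g : ∀ {δ : Type} [En δ] {f : α → δ}, PT f →
        PT (fun q : (α × (BN × Bool × List Bool) × List (BN × Bool × List Bool)) × Bool => f q.1.1) :=
      fun h => h.comp (PT.fst (PT.fst PT.id'))
    exact PT.pair (g h1) (PT.pair (PT.and (g h2) (PT.snd PT.id')) (PT.pair (g h3) (g h4)))
  apply PT.ite (hk _)
  · exact PT.cons (PT.pair (PT.succ hp) (PT.pair (PT.const _) (PT.pair (PT.succ h3) h4))) (PT.const _)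
  apply PT.ite (hk _)
  · exact PT.cons (PT.pair (PT.succ hp) (PT.pair (PT.const _) (PT.pair (PT.succ h3) h4))) (PT.const _)
  apply PT.ite (hk _)
  · exact PT.cons (PT.pair h1 (PT.pair h2 (PT.pair h3 (PT.cons (PT.pair (PT.snd ht) h3) h4))))
      (PT.const _)
  exact PT.const _

theorem PT.newO {pos : α → ℕ} {fr : α → Frame} {t : α → Tok} (hp : PT pos) (hf : PT fr)
    (ht : PT t) : PT (fun a => newO tab (pos a) (fr a) (t a)) := by
  unfold MP_bba6cc_lc.newO
  have hk : ∀ n : BN, PT (fun a => decide ((t a).1 = n)) := fun n => PT.eq (PT.fst ht) (PT.const n)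
  have h1 := PT.fst hf
  have h2 := PT.fst (PT.snd hf)
  have h3 := PT.fst (PT.snd (PT.snd hf))
  have h4 := PT.snd (PT.snd (PT.snd hf))
  have ht2 := PT.snd ht
  apply PT.ite (hk _)
  · exact PT.iff1 h2 (PT.cons (PT.pair h1 (PT.mkprp ht2)) (PT.const _))
  apply PT.ite (hk _)
  · exact PT.iff1 h2 (PT.cons (PT.pair h1 (PT.mknom ht2)) (PT.const _))
  apply PT.ite (hk _)
  · exact PT.iff1 h2 (PT.cons (PT.pair h1 (PT.vtrm h3 h4 ht2)) (PT.const _))
  apply PT.ite (hk _)
  · apply PT.lcase (PT.entry tab ht2) (PT.const _)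
    have g : ∀ {δ : Type} [En δ] {f : α → δ}, PT f →
        PT (fun q : α × (BN × Bool × List Bool) × List (BN × Bool × List Bool) => f q.1) :=
      fun h => h.comp (PT.fst PT.id')
    apply PT.iff1
    · exact PT.and (g h2) (PT.fst (PT.snd (PT.fst (PT.snd PT.id'))))
    · exact PT.cons (PT.pair (g h1) (PT.const _)) (PT.const _)
  apply PT.ite (hk _)
  · exact PT.iff1 h2 (PT.cons (PT.pair h1 (PT.mkdia (PT.succ hp))) (PT.const _))
  apply PT.ite (hk _)
  · apply PT.append
    · exact PT.iff1 h2 (PT.cons (PT.pair h1 (PT.const _))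
        (PT.cons (PT.pair h1 (PT.mkdia (PT.succ hp))) (PT.const _)))
    · exact PT.cons (PT.pair (PT.succ hp) (PT.const _)) (PT.const _)
  exact PT.const _

theorem PT.good {t : α → Tok} (ht : PT t) : PT (fun a => good tab (t a)) := by
  unfold MP_bba6cc_lc.good
  have hk : ∀ n : BN, PT (fun a => decide ((t a).1 = n)) := fun n => PT.eq (PT.fst ht) (PT.const n)
  have ht2 := PT.snd ht
  apply PT.ite (hk _) (PT.const _)
  apply PT.ite (hk _) (PT.const _)
  apply PT.ite (hk _) (PT.const _)
  apply PT.ite (hk _) (PT.not (PT.isEmpty (PT.entry tab ht2)))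
  apply PT.ite (hk _) (PT.eq ht2 (PT.const _))
  apply PT.ite (hk _) (PT.eq ht2 (PT.const _))
  exact PT.ite (hk _) (PT.const _) (PT.const _)

theorem PT.step {st : α → St} {t : α → Tok} (hs : PT st) (ht : PT t) :
    PT (fun a => step tab (st a) (t a)) := by
  unfold MP_bba6cc_lc.step
  have h1 := PT.fst hs
  have h2 := PT.fst (PT.snd hs)
  have h3 := PT.fst (PT.snd (PT.snd hs))
  have h4 := PT.snd (PT.snd (PT.snd hs))
  apply PT.lcase h2
  · exact PT.pair (PT.succ h1) (PT.pair (PT.const _) (PT.pair h3 (PT.const _)))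
  · have g : ∀ {δ : Type} [En δ] {f : α → δ}, PT f →
        PT (fun q : α × Frame × List Frame => f q.1) := fun h => h.comp (PT.fst PT.id')
    have hfr : PT (fun q : α × Frame × List Frame => q.2.1) := PT.fst (PT.snd PT.id')
    exact PT.pair (PT.succ (g h1)) (PT.pair
      (PT.append (PT.newF tab (g h1) hfr (g ht)) (PT.snd (PT.snd PT.id')))
      (PT.pair (PT.append (g h3) (PT.newO tab (g h1) hfr (g ht)))
        (PT.and (g h4) (PT.good tab (g ht)))))

end machine

end Pool.Agent.Lib.MP_bba6cc_lc
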