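import Pool.Agent.Lib.MP_bba6cc_lc.TDefs
import Pool.Agent.Lib.MP_bba6cc_lc.Form

/-!
# Quantified Boolean formulas for satisfiability over transitive frames and equivalence relations
-/

namespace Pool.Agent.Lib.MP_bba6cc_lc

variable {B : List BFun}

/-- names of the variables: kind `k < 9`, two indices, a name -/
def vnum (k a b name : ℕ) : ℕ := 2 ^ (9 * Nat.pair a b + k) * (2 * name + 1)

/-- proposition `p` at the point `j` of the structure `s` -/
def vV (s j p : ℕ) : ℕ := vnum 0 s j p
/-- nominal `i` at the point `j` of the structure `s` -/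
def vN (s j i : ℕ) : ℕ := vnum 1 s j i
/-- free variable `x` at the point `j` of the structure `s` -/
def vF (s j x : ℕ) : ℕ := vnum 2 s j x
/-- later diamond `pos` of the structure `s` -/
def vZ (s pos : ℕ) : ℕ := vnum 3 s pos 0
/-- point `j` of the structure `s` -/
def vD (s j : ℕ) : ℕ := vnum 4 s j 0
/-- reflexivity of the structure `s` -/
def vR (s : ℕ) : ℕ := vnum 5 s 0 0
/-- the named cluster `k` is visible from the structure `s` -/
def vI (s k : ℕ) : ℕ := vnum 6 s k 0
/-- the point of level `l` is `j` -/
def vC (l j : ℕ) : ℕ := vnum 7 l j 0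
/-- the request of round `t` is `pos` -/
def vP (t pos : ℕ) : ℕ := vnum 8 t pos 0

def qz : QF := .xor .one .one
def qnot (a : QF) : QF := .xor .one a
def qor (a b : QF) : QF := qnot (.and (qnot a) (qnot b))
def qimp (a b : QF) : QF := qnot (.and a (qnot b))
def qands (L : List QF) : QF := L.foldr .and .one
def qxors (L : List QF) : QF := L.foldr .xor qz
def qexs (L : List ℕ) (q : QF) : QF := L.foldr .ex q

/-- `⊕_{j < M} f j ∧ g j` -/
def qdot (M : ℕ) (f g : ℕ → ℕ) : QF :=
  qxors ((List.range M).map fun j => .and (.var (f j)) (.var (g j)))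

/-- at most one of the variables `f a`, `a ∈ I`, is true -/
def qam1 {ι : Type} [DecidableEq ι] (I : List ι) (f : ι → ℕ) : QF :=
  qands (((I.product I).filter fun p => decide (p.1 ≠ p.2)).map fun p =>
    qnot (.and (.var (f p.1)) (.var (f p.2))))

/-- the level `l` denotes a point of the structure `s` -/
def qOH (M s l : ℕ) : QF := .and (qdot M (vC l) (vD s)) (qam1 (List.range M) (vC l))

/-- constant -/
def qc (b : Bool) : QF := if b then .one else qz

/-- `c₀ ⊕ c₁ f(j₁) ⊕ … ⊕ cₙ f(jₙ)` -/
def qaff {n : ℕ} (c0 : Bool) (c : Fin n → Bool) (f : Fin n → QF) : QF :=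
  (List.finRange n).foldl (fun q j => .xor q (.and (qc (c j)) (f j))) (qc c0)

/-- translation of a formula, evaluated at the point of level `lev` of the structure `s`;
`nmd = false` for structures without named points; the environment gives the level of a bound
variable or `none` = dead -/
def tr (M s : ℕ) (nmd : Bool) : Fm B → ℕ → List (ℕ × Option ℕ) → ℕ → QF
  | .prp p, lev, _, _ => qdot M (vC lev) (fun j => vV s j p)
  | .nom i, lev, _, _ => if nmd then qdot M (vC lev) (fun j => vN s j i) else qz
  | .var x, lev, env, _ => match lk env x with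
    | some (some l) => qdot M (vC lev) (vC l)
    | some none => qz
    | none => if nmd then qdot M (vC lev) (fun j => vF s j x) else qz
  | .app i args, lev, env, pos => qaff (c0B (B.get i)) (cB (B.get i))
      (fun j => tr M s nmd (args j) lev env (pos + 1 + offs args j))
  | .dia φ, lev, env, pos => qor (.var (vZ s pos)) (.and (.var (vR s))
      (qexs ((List.range M).map (vC (lev + 1)))
        (.and (qOH M s (lev + 1)) (tr M s nmd φ (lev + 1) env (pos + 1)))))
  | .box φ, lev, env, pos => .and (qnot (.var (vZ s pos))) (qnot (.and (.var (vR s))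
      (qexs ((List.range M).map (vC (lev + 1)))
        (.and (qOH M s (lev + 1)) (qnot (tr M s nmd φ (lev + 1) env (pos + 1)))))))
  | .down x φ, lev, env, pos => tr M s nmd φ lev ((x, some lev) :: env) (pos + 1)

/-- the structure given by an assignment -/
def decS (s : ℕ) (M : ℕ) (nmd : Bool) (ρ : ℕ → Bool) : Clus ℕ where
  D := fun j => j < M ∧ ρ (vD s j) = true
  V := fun p j => ρ (vV s j p) = true
  nm := fun i j => nmd = true ∧ ρ (vN s j i) = true
  fv := fun x j => nmd = true ∧ ρ (vF s j x) = true
  Z := fun pos => ρ (vZ s pos) = true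
  refl := ρ (vR s) = true

/-- `Eh` -/
def qE (M s : ℕ) (nmd : Bool) (e : Ent B) : QF :=
  qexs ((List.range M).map (vC 0)) (.and (qOH M s 0)
    (.xor (qc e.neg) (tr M s nmd e.body 0 (dead ℕ e.bs) (e.pos + 1))))

/-- `Later` -/
def qLater (φ : Fm B) (M s s' : ℕ) (nmd : Bool) : QF :=
  qands ((ents φ [] 0).map fun e => .and (qimp (.var (vZ s' e.pos)) (.var (vZ s e.pos)))
    (qimp (qE M s' nmd e) (.var (vZ s e.pos))))

/-- `VisOK` for the structure `s` -/
def qVis (φ : Fm B) (M K s : ℕ) : QF :=
  qands ((List.range (K + 1)).map fun k => qimp (.var (vI s k)) (.and (qLater φ M s k true)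
    (qands ((List.range (K + 1)).map fun l => qimp (.var (vI k l)) (.var (vI s l))))))

/-- the propositions of a formula -/
def prps (φ : Fm B) : List ℕ := ((code φ).filter fun t => decide (t.1 = 0)).map fun t => t.2

/-- the variables which describe the structure `s` -/
def svars (φ : Fm B) (M K s : ℕ) : List ℕ :=
  ((List.range M).flatMap fun j => vD s j :: (prps φ).map fun p => vV s j p) ++
    ((List.range (flen φ)).map fun pos => vZ s pos) ++ (vR s :: (List.range (K + 1)).map (vI s))

/-- `⊕_{e} P_t(e.pos) ∧ f e` -/
def qsel (φ : Fm B) (t : ℕ) (f : Ent B → QF) : QF :=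
  qxors ((ents φ [] 0).map fun e => .and (.var (vP t e.pos)) (f e))

/-- a visible named cluster answers the request of round `t` -/
def qNom (φ : Fm B) (M K t s : ℕ) : QF :=
  qnot (qands ((List.range (K + 1)).map fun k =>
    qnot (.and (.var (vI s k)) (qsel φ t fun e => qE M k true e))))

/-- the structure `s'` answers the request of round `t` at the structure `s`; `q` is the rest -/
def qAns (φ : Fm B) (M K t s s' : ℕ) (q : QF) : QF :=
  qexs (svars φ M K s') (qands [qLater φ M s s' false,
    qands ((List.range (K + 1)).map fun k => qimp (.var (vI s' k)) (.var (vI s k))),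
    qVis φ M K s', qsel φ t fun e => qE M s' false e, q])

/-- `Surv t` for the structure `s`; the answer of the round `t + 1` is the structure `K + 1 + t` -/
def qSurv (φ : Fm B) (M K : ℕ) : ℕ → ℕ → QF
  | 0, _ => .one
  | t + 1, s => qnot (qexs ((ents φ [] 0).map fun e => vP t e.pos)
      (qands [qam1 ((ents φ [] 0).map fun e => e.pos) (vP t), qsel φ t fun e => .var (vZ s e.pos),
        qnot (qor (qNom φ M K t s) (qAns φ M K t s (K + 1 + t) (qSurv φ M K t (K + 1 + t))))]))

/-- every name is at most at one place -/
def qNames (φ : Fm B) (M K : ℕ) : QF :=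
  qands ((code φ).map fun t =>
    if t.1 = 1 then qam1 ((List.range (K + 1)).product (List.range M)) (fun p => vN p.1 p.2 t.2)
    else if t.1 = 2 then
      qam1 ((List.range (K + 1)).product (List.range M)) (fun p => vF p.1 p.2 t.2)
    else .one)

/-- the formula holds at the point of level `0` of the structure `0` -/
def qStart (φ : Fm B) (M : ℕ) : QF := .and (qOH M 0 0) (tr M 0 true φ 0 [] 0)

/-- satisfiability over transitive frames -/
def qTrans (φ : Fm B) (M K T : ℕ) : QF :=
  .and (qands ((List.range (K + 1)).map fun k => .and (qVis φ M K k)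
    (.and (qnot (.var (vI k k))) (qSurv φ M K T k)))) (.and (qNames φ M K) (qStart φ M))

/-- satisfiability over equivalence relations -/
def qEr (φ : Fm B) (M : ℕ) : QF :=
  .and (qands ((ents φ [] 0).map fun e => qnot (.var (vZ 0 e.pos))))
    (.and (.var (vR 0)) (.and (qNames φ M 0) (qStart φ M)))

end Pool.Agent.Lib.MP_bba6cc_lc
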