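import Pool.Agent.Lib.MP_bba6cc_lc.Defs
import Pool.Prelude.Def_F_458e953d

/-!
# Quantified Boolean formulas, terms over `B` and clones: definitions
-/

namespace Pool.Agent.Lib.MP_bba6cc_lc

open Classical N487b59b3 N68a2faeb

/-- Quantified Boolean formulas over the connectives `1, ∧, ⊕` and the quantifier `∃`. -/
inductive QF : Type
  | var (n : ℕ)
  | one
  | and (a b : QF)
  | xor (a b : QF)
  | ex (n : ℕ) (a : QF)

/-- The truth value of a quantified Boolean formula under an assignment of its variables. -/
def QF.eval : QF → (ℕ → Bool) → Bool
  | .var n, ρ => ρ n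
  | .one, _ => true
  | .and a b, ρ => a.eval ρ && b.eval ρ
  | .xor a b, ρ => Bool.xor (a.eval ρ) (b.eval ρ)
  | .ex n a, ρ => a.eval (Function.update ρ n true) || a.eval (Function.update ρ n false)

/-- The word of a quantified Boolean formula: prefix notation, one pair of numbers per symbol. -/
def QF.code : QF → List (ℕ × ℕ)
  | .var n => [(0, n)]
  | .one => [(1, 0)]
  | .and a b => (2, 0) :: (a.code ++ b.code)
  | .xor a b => (3, 0) :: (a.code ++ b.code)
  | .ex n a => (4, n) :: a.code

/-- The decision problem `TQBF` (free variables are read as existentially quantified): is the bit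
string the encoding of a quantified Boolean formula that is true under some assignment of its
free variables? -/
noncomputable def TQBF : DecisionProblem :=
  fun s => decide (∃ a : QF, s = bitEncode a.code ∧ ∃ ρ, a.eval ρ = true)

/-- Terms over the functions of `B` in the variables `0, …, k - 1`. -/
inductive Tm (B : List BFun) (k : ℕ) : Type
  | hole (i : Fin k) : Tm B k
  | app (i : Fin B.length) (args : Fin (B.get i).ar → Tm B k) : Tm B k

/-- The Boolean function computed by a term. -/
def Tm.eval {B : List BFun} {k : ℕ} : Tm B k → (Fin k → Bool) → Bool
  | .hole i, x => x i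
  | .app i args, x => (B.get i).fn fun j => (args j).eval x

/-- `[B] = L`: the functions of positive arity that are computed by terms over `B` are exactly the
affine ones. -/
def CloneIsAffine (B : List BFun) : Prop :=
  ∀ n : ℕ, 0 < n → ∀ f : (Fin n → Bool) → Bool, (∃ t : Tm B n, t.eval = f) ↔ IsAffine ⟨n, f⟩

/-- The decision problem `F-SAT({◇, □, ↓}, B)`: is the bit string the encoding of a formula that
is satisfiable over the class `F`? -/
noncomputable def satProblem (B : List BFun) (F : FrameClass) : DecisionProblem :=
  fun s => decide (∃ φ : Fm B, s = bitEncode (code φ) ∧ SatIn F φ)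

end Pool.Agent.Lib.MP_bba6cc_lc
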