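import Pool.Agent.Lib.MP_bba6cc_lc.Min

/-!
# From pseudo-models to models
-/

namespace Pool.Agent.Lib.MP_bba6cc_lc

open Classical

/-- models with fixed names -/
structure Md where
  W : Type
  R : W → W → Prop
  V : ℕ → W → Prop
  I : ℕ → W

/-- the frame of paths in a model -/
abbrev Re (M : Md) : Fr where
  X := List M.W × M.W
  pr x p := M.V p x.2
  nv x a := match a with
    | .lvl j => x.1[j]? = some x.2
    | .fix c => M.I c = x.2
  nx x y := y.1 = x.1 ++ [x.2] ∧ M.R x.2 y.2

abbrev UW : Type := List T ⊕ ℕ

def pt (u : T) (st : List T) : UW :=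
  match u.tag with
  | .fresh => .inl (u :: st)
  | .back j => .inl (st.drop (st.length - (j + 1)))
  | .fx c => .inr c

def kidsOf : UW → List T
  | .inl (t :: _) => t.kids
  | _ => []

def stackOf : UW → List T
  | .inl s => s
  | _ => []

def succs (tot : Bool) (w : UW) : List UW :=
  (kidsOf w).map (fun u => pt u (stackOf w)) ++
    (if tot && (kidsOf w).isEmpty then [w] else [])

theorem succs_ne (tot : Bool) (ht : tot = true) (w : UW) : succs tot w ≠ [] := by
  unfold succs
  cases h : kidsOf w with
  | nil => simp [ht]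
  | cons a l => simp

/-- the universal model -/
abbrev U (tot : Bool) : Md where
  W := UW
  R w y := y ∈ succs tot w
  V p w := match w with
    | .inl (t :: _) => t.pr p = true
    | _ => False
  I c := .inr c

/-- same equality pattern -/
structure Rl (M : Md) (Γ : List Nm) (π : List M.W) : Prop where
  len : Γ.length = π.length
  eq : ∀ (i j : ℕ), i < Γ.length → j < Γ.length → (Γ[i]? = Γ[j]? ↔ π[i]? = π[j]?)
  fixc : ∀ (i c : ℕ), Γ[i]? = some (Nm.fix c) ↔ π[i]? = some (M.I c)
  lvlc : ∀ (i j : ℕ), Γ[i]? = some (Nm.lvl j) → j ≤ i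

theorem getl {α : Type*} (l : List α) (x : α) {a : ℕ} (h : a < l.length) :
    (l ++ [x])[a]? = l[a]? := List.getElem?_append_left h

theorem getc {α : Type*} (l : List α) (x : α) {a : ℕ} (h : a = l.length) :
    (l ++ [x])[a]? = some x := by
  subst h; exact List.getElem?_concat_length ..

theorem Rl.snoc' {M : Md} {Γ : List Nm} {π : List M.W} (h : Rl M Γ π) {i : Nm} {y : M.W}
    (h1 : ∀ j, j < Γ.length → (Γ[j]? = some i ↔ π[j]? = some y))
    (h2 : ∀ c, i = .fix c ↔ y = M.I c) (h3 : ∀ j, i = .lvl j → j ≤ Γ.length) :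
    Rl M (Γ ++ [i]) (π ++ [y]) := by
  have hl := h.len
  refine ⟨by simp [hl], ?_, ?_, ?_⟩
  · intro a b ha hb
    simp only [List.length_append, List.length_cons, List.length_nil, zero_add] at ha hb
    by_cases ha' : a < Γ.length
    · by_cases hb' : b < Γ.length
      · rw [getl Γ i ha', getl Γ i hb', getl π y (by omega), getl π y (by omega)]
        exact h.eq a b ha' hb'
      · rw [getl Γ i ha', getc Γ i (by omega), getl π y (by omega), getc π y (by omega)]
        exact h1 a ha'
    · by_cases hb' : b < Γ.length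
      · rw [getl Γ i hb', getc Γ i (show a = Γ.length by omega),
          getl π y (show b < π.length by omega), getc π y (show a = π.length by omega)]
        have := h1 b hb'
        constructor
        · intro h; exact (this.mp h.symm).symm
        · intro h; exact (this.mpr h.symm).symm
      · rw [getc Γ i (by omega), getc Γ i (by omega), getc π y (by omega), getc π y (by omega)]
        simp
  · intro a c
    by_cases ha' : a < Γ.length
    · rw [getl Γ i ha', getl π y (by omega)]
      exact h.fixc a c
    · by_cases ha : a = Γ.length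
      · rw [getc Γ i ha, getc π y (by omega)]
        simp only [Option.some.injEq]
        exact h2 c
      · rw [List.getElem?_eq_none (by simp; omega), List.getElem?_eq_none (by simp; omega)]
        simp
  · intro a j ha
    by_cases ha' : a < Γ.length
    · rw [getl Γ i ha'] at ha
      exact h.lvlc a j ha
    · by_cases hb : a = Γ.length
      · subst hb
        rw [getc Γ i rfl] at ha
        exact h3 j (by simpa using ha)
      · rw [List.getElem?_eq_none (by simp; omega)] at ha
        exact absurd ha (by simp)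

theorem Rl.back {M : Md} {Γ : List Nm} {π : List M.W} (h : Rl M Γ π) {j : ℕ} (hj : j < Γ.length)
    {y : M.W} (hy : π[j]? = some y) : Rl M (Γ ++ [newid Γ (.back j)]) (π ++ [y]) := by
  have hid : Γ[j]? = some (newid Γ (.back j)) := by
    simp only [newid, List.getD_eq_getElem?_getD]
    rw [List.getElem?_eq_getElem hj]
    rfl
  apply h.snoc'
  · intro i hi
    rw [← hid, ← hy]
    exact h.eq i j hi hj
  · intro c
    have := h.fixc j c
    rw [hid, hy] at this
    simpa using this
  · intro i hi
    rw [hi] at hid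
    have := h.lvlc j i hid
    omega

theorem Rl.fx {M : Md} (hI : Function.Injective M.I) {Γ : List Nm} {π : List M.W} (h : Rl M Γ π)
    (c : ℕ) : Rl M (Γ ++ [newid Γ (.fx c)]) (π ++ [M.I c]) := by
  apply h.snoc'
  · intro i _
    exact h.fixc i c
  · intro c'
    simp only [newid, Nm.fix.injEq]
    exact hI.eq_iff.symm
  · intro i hi
    simp [newid] at hi

theorem Rl.fresh {M : Md} {Γ : List Nm} {π : List M.W} (h : Rl M Γ π) {y : M.W}
    (hy : ∀ j : ℕ, π[j]? ≠ some y) (hc : ∀ c, y ≠ M.I c) :
    Rl M (Γ ++ [newid Γ .fresh]) (π ++ [y]) := by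
  apply h.snoc'
  · intro i hi
    constructor
    · intro h'
      have := h.lvlc i _ h'
      omega
    · intro h'
      exact absurd h' (hy i)
  · intro c
    simp only [newid]
    constructor
    · intro h; simp at h
    · intro h; exact absurd h (hc c)
  · intro i hi
    simp only [newid, Nm.lvl.injEq] at hi
    omega

/-- from an equality pattern to the names -/
theorem Rl.names {M : Md} {Γ : List Nm} {π : List M.W} {t : T} {w : M.W}
    (h : Rl M (Γ ++ [newid Γ t.tag]) (π ++ [w])) : ∀ a, Ps.nv (Γ, t) a ↔ (Re M).nv (π, w) a := by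
  have hl : Γ.length = π.length := by simpa using h.len
  intro a
  cases a with
  | lvl j =>
    show Γ[j]? = some (newid Γ t.tag) ↔ π[j]? = some w
    by_cases hj : j < Γ.length
    · have := h.eq j Γ.length (by simp; omega) (by simp)
      rw [getl Γ _ hj, getl π _ (by omega), getc Γ _ rfl, getc π _ (by omega)] at this
      exact this
    · rw [List.getElem?_eq_none (by omega), List.getElem?_eq_none (by omega)]
      simp
  | fix c =>
    show newid Γ t.tag = .fix c ↔ M.I c = w
    have := h.fixc Γ.length c
    rw [getc Γ _ rfl, getc π _ (by omega)] at this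
    simp only [Option.some.injEq] at this
    rw [this]
    exact eq_comm

/-- lists of choices -/
theorem exists_list {α β : Type*} (l : List α) (P : α → β → Prop) (h : ∀ a ∈ l, ∃ b, P a b) :
    ∃ l' : List β, (∀ a ∈ l, ∃ b ∈ l', P a b) ∧ (∀ b ∈ l', ∃ a ∈ l, P a b) ∧
      (l ≠ [] → l' ≠ []) := by
  induction l with
  | nil => exact ⟨[], by simp, by simp, by simp⟩
  | cons a l ih =>
    obtain ⟨l', h1, h2, _⟩ := ih (fun a ha => h a (List.mem_cons_of_mem _ ha))
    obtain ⟨b, hb⟩ := h a (by simp)
    refine ⟨b :: l', ?_, ?_, by simp⟩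
    · intro a' ha'
      rcases List.mem_cons.mp ha' with rfl | h
      · exact ⟨b, by simp, hb⟩
      · obtain ⟨b', hb', hp⟩ := h1 a' h
        exact ⟨b', List.mem_cons_of_mem _ hb', hp⟩
    · intro b' hb'
      rcases List.mem_cons.mp hb' with rfl | h
      · exact ⟨a, by simp, hb⟩
      · obtain ⟨a', ha', hp⟩ := h2 b' h
        exact ⟨a', List.mem_cons_of_mem _ ha', hp⟩

theorem exists_forall₂ {α β : Type*} (l : List α) (P Q : α → β → Prop)
    (h : ∀ a ∈ l, ∃ b, P a b ∧ Q a b) :
    ∃ l' : List β, List.Forall₂ P l l' ∧ (∀ a ∈ l, ∃ b ∈ l', Q a b) ∧ (∀ b ∈ l', ∃ a ∈ l, Q a b) ∧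
      (l ≠ [] → l' ≠ []) := by
  induction l with
  | nil => exact ⟨[], by simp, by simp, by simp, by simp⟩
  | cons a l ih =>
    obtain ⟨l', h0, h1, h2, _⟩ := ih (fun a ha => h a (List.mem_cons_of_mem _ ha))
    obtain ⟨b, hb, hq⟩ := h a (by simp)
    refine ⟨b :: l', List.Forall₂.cons hb h0, ?_, ?_, by simp⟩
    · intro a' ha'
      rcases List.mem_cons.mp ha' with rfl | h
      · exact ⟨b, by simp, hq⟩
      · obtain ⟨b', hb', hp⟩ := h1 a' h
        exact ⟨b', List.mem_cons_of_mem _ hb', hp⟩
    · intro b' hb'
      rcases List.mem_cons.mp hb' with rfl | h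
      · exact ⟨a, by simp, hq⟩
      · obtain ⟨a', ha', hp⟩ := h2 b' h
        exact ⟨a', List.mem_cons_of_mem _ ha', hp⟩

/-- unravelling a point of the universal model, with a prescribed tag -/
theorem exists_unr (tot : Bool) (k : ℕ) : ∀ (Γ : List Nm) (π : List UW) (w : UW) (a : Tg),
    Rl (U tot) (Γ ++ [newid Γ a]) (π ++ [w]) → tagOK Γ.length a →
    ∃ t, t.tag = a ∧ WF tot k Γ.length t ∧ Bis Ps (Re (U tot)) k (Γ, t) (π, w) := by
  have hI : Function.Injective (U tot).I := fun a b h => Sum.inr.inj h
  induction k with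
  | zero =>
    intro Γ π w a h ha
    refine ⟨.nd a (fun p => decide ((U tot).V p w)) [], rfl, ha, ?_, ?_⟩
    · intro p
      show decide ((U tot).V p w) = true ↔ _
      simp only [decide_eq_true_eq]
    · exact Rl.names (t := .nd a (fun p => decide ((U tot).V p w)) []) h
  | succ k ih =>
    intro Γ π w a h ha
    have hchoice : ∀ y ∈ succs tot w, ∃ t, WF tot k (Γ.length + 1) t ∧
        Bis Ps (Re (U tot)) k (Γ ++ [newid Γ a], t) (π ++ [w], y) := by
      intro y _
      have hlen : (Γ ++ [newid Γ a]).length = Γ.length + 1 := by simp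
      by_cases h1 : ∃ j : ℕ, (π ++ [w])[j]? = some y
      · obtain ⟨j, hj⟩ := h1
        have hj' : j < (Γ ++ [newid Γ a]).length := by
          rw [h.len]
          exact (List.getElem?_eq_some_iff.mp hj).1
        obtain ⟨t, _, h2, h3⟩ := ih (Γ ++ [newid Γ a]) (π ++ [w]) y (.back j) (h.back hj' hj) hj'
        rw [hlen] at h2
        exact ⟨t, h2, h3⟩
      · by_cases h2 : ∃ c, y = (U tot).I c
        · obtain ⟨c, rfl⟩ := h2
          obtain ⟨t, _, h2, h3⟩ := ih (Γ ++ [newid Γ a]) (π ++ [w]) _ (.fx c) (h.fx hI c) trivial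
          rw [hlen] at h2
          exact ⟨t, h2, h3⟩
        · push Not at h1 h2
          obtain ⟨t, _, h2, h3⟩ := ih (Γ ++ [newid Γ a]) (π ++ [w]) y .fresh (h.fresh h1 h2) trivial
          rw [hlen] at h2
          exact ⟨t, h2, h3⟩
    obtain ⟨l', h1, h2, h3⟩ := exists_list (succs tot w)
      (fun y t => WF tot k (Γ.length + 1) t ∧
        Bis Ps (Re (U tot)) k (Γ ++ [newid Γ a], t) (π ++ [w], y)) hchoice
    refine ⟨.nd a (fun p => decide ((U tot).V p w)) l', rfl, ⟨ha, ?_, ?_⟩, ⟨?_, ?_⟩, ?_, ?_⟩
    · intro ht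
      rw [T.nd_kids]
      exact h3 (succs_ne tot ht w)
    · intro t ht
      rw [T.nd_kids] at ht
      obtain ⟨y, _, hw, _⟩ := h2 t ht
      exact hw
    · intro p
      show decide ((U tot).V p w) = true ↔ _
      simp only [decide_eq_true_eq]
    · exact Rl.names (t := .nd a (fun p => decide ((U tot).V p w)) l') h
    · rintro ⟨Γ', t⟩ ⟨e1, e2⟩
      have e2' : t ∈ l' := by
        rw [← T.nd_kids a (fun p => decide ((U tot).V p w)) l']; exact e2
      obtain ⟨y, hy, _, hb⟩ := h2 t e2'
      have e1' : Γ' = Γ ++ [newid Γ a] := e1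
      subst e1'
      exact ⟨(π ++ [w], y), ⟨rfl, hy⟩, hb⟩
    · rintro ⟨π', y⟩ ⟨e1, e2⟩
      obtain ⟨t, ht, _, hb⟩ := h1 y e2
      have e1' : π' = π ++ [w] := e1
      subst e1'
      exact ⟨(Γ ++ [newid Γ a], t), ⟨rfl, by
        show t ∈ (T.nd _ _ l').kids
        rw [T.nd_kids]; exact ht⟩, hb⟩

/-- the path of a stack -/
def pathOf : List T → List UW
  | [] => []
  | t :: S => pathOf S ++ [.inl (t :: S)]

theorem pathOf_length (S : List T) : (pathOf S).length = S.length := by
  induction S with
  | nil => rfl
  | cons t S ih => simp [pathOf, ih]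

theorem pathOf_get (S : List T) : ∀ j, j < S.length →
    (pathOf S)[j]? = some (.inl (S.drop (S.length - (j + 1)))) := by
  induction S with
  | nil => intro j hj; simp at hj
  | cons t S ih =>
    intro j hj
    simp only [List.length_cons] at hj
    by_cases h : j < S.length
    · simp only [pathOf]
      rw [List.getElem?_append_left (by rw [pathOf_length]; exact h), ih j h]
      have : (t :: S).length - (j + 1) = (S.length - (j + 1)) + 1 := by simp; omega
      rw [this, List.drop_succ_cons]
    · have hj' : j = S.length := by omega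
      subst hj'
      simp only [pathOf, List.length_cons, Nat.sub_self, List.drop_zero]
      rw [← pathOf_length S, List.getElem?_concat_length]

theorem pathOf_mem {S : List T} {w : UW} (h : w ∈ pathOf S) : ∃ s : List T, w = .inl s ∧
    s.length ≤ S.length := by
  induction S with
  | nil => simp [pathOf] at h
  | cons t S ih =>
    simp only [pathOf, List.mem_append, List.mem_singleton] at h
    rcases h with h | h
    · obtain ⟨s, h1, h2⟩ := ih h
      exact ⟨s, h1, by simp; omega⟩
    · exact ⟨t :: S, h, le_rfl⟩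

theorem Rl_path (tot : Bool) (S : List T) : Rl (U tot) (D S.length) (pathOf S) := by
  induction S with
  | nil =>
    refine ⟨rfl, ?_, ?_, ?_⟩
    · intro i j hi; simp [D] at hi
    · intro i c; simp [D, pathOf]
    · intro i j h; simp [D] at h
  | cons t S ih =>
    have := ih.fresh (y := (.inl (t :: S) : UW)) (by
      intro j hj
      have hm : (.inl (t :: S) : UW) ∈ pathOf S := List.mem_of_getElem? hj
      obtain ⟨s, h1, h2⟩ := pathOf_mem hm
      have : t :: S = s := Sum.inl.inj h1
      rw [← this] at h2
      simp at h2) (by intro c h; exact absurd h (by simp))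
    rw [newid_fresh, ← D_succ] at this
    exact this

/-- replacing the private subtrees of a pseudo-model by the real ones -/
theorem exists_star (tot : Bool) (k : ℕ) : ∀ (u : T) (S : List T), WF tot k S.length u →
    ∃ u', Sim k u u' ∧ WF tot k S.length u' ∧
      Bis Ps (Re (U tot)) k (D S.length, u') (pathOf S, pt u S) := by
  have hI : Function.Injective (U tot).I := fun a b h => Sum.inr.inj h
  have hret : ∀ (k : ℕ) (u : T) (S : List T), WF tot k S.length u → u.tag ≠ .fresh →
      ∃ u', Sim k u u' ∧ WF tot k S.length u' ∧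
      Bis Ps (Re (U tot)) k (D S.length, u') (pathOf S, pt u S) := by
    intro k u S hw hf
    have hRl : Rl (U tot) (D S.length ++ [newid (D S.length) u.tag]) (pathOf S ++ [pt u S]) := by
      cases htag : u.tag with
      | fresh => exact absurd htag hf
      | back j =>
        have hj : j < S.length := by
          have := hw.tagOK
          rw [htag] at this
          exact this
        have e : pt u S = .inl (S.drop (S.length - (j + 1))) := by
          simp only [pt, htag]
        rw [e]
        exact (Rl_path tot S).back (by rw [D_length]; exact hj) (pathOf_get S j hj)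
      | fx c =>
        have e : pt u S = .inr c := by simp only [pt, htag]
        rw [e]
        exact (Rl_path tot S).fx hI c
    obtain ⟨t, h1, h2, h3⟩ := exists_unr tot k (D S.length) (pathOf S) (pt u S) u.tag hRl
      (by rw [D_length]; exact hw.tagOK)
    rw [D_length] at h2
    refine ⟨t, ?_, h2, h3⟩
    cases k with
    | zero => exact ⟨h1, fun h => absurd h hf⟩
    | succ k => exact ⟨h1, fun h => absurd h hf⟩
  induction k with
  | zero =>
    intro u S hw
    by_cases hf : u.tag = .fresh
    swap
    · exact hret 0 u S hw hf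
    refine ⟨u, ⟨rfl, fun _ => rfl⟩, hw, ?_, ?_⟩
    · intro p
      simp only [pt, hf]
    · apply Rl.names
      rw [hf, newid_fresh, ← D_succ]
      have := Rl_path tot (u :: S)
      simp only [pt, hf]
      exact this
  | succ k ih =>
    intro u S hw
    by_cases hf : u.tag = .fresh
    swap
    · exact hret (k + 1) u S hw hf
    have hpt : pt u S = .inl (u :: S) := by simp only [pt, hf]
    obtain ⟨l', h0, h1, h2, h3⟩ := exists_forall₂ u.kids (Sim k)
      (fun y y' => WF tot k (S.length + 1) y' ∧
        Bis Ps (Re (U tot)) k (D (S.length + 1), y') (pathOf (u :: S), pt y (u :: S)))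
      (fun y hy => by
        obtain ⟨y', a, b, c⟩ := ih y (u :: S) (hw.2.2 y hy)
        exact ⟨y', a, b, c⟩)
    have hD : D S.length ++ [newid (D S.length) .fresh] = D (S.length + 1) := by
      rw [newid_fresh, D_succ]
    have hsucc : ∀ y, y ∈ succs tot (.inl (u :: S)) ↔ ∃ v ∈ u.kids, y = pt v (u :: S) := by
      intro y
      have he : (tot && u.kids.isEmpty) = false := by
        cases htot : tot with
        | false => rfl
        | true =>
          have := hw.2.1 htot
          simp [this]
      simp only [succs, kidsOf, stackOf, he, Bool.false_eq_true, if_false, List.append_nil,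
        List.mem_map]
      constructor
      · rintro ⟨v, hv, rfl⟩; exact ⟨v, hv, rfl⟩
      · rintro ⟨v, hv, rfl⟩; exact ⟨v, hv, rfl⟩
    refine ⟨.nd .fresh u.pr l', ⟨hf.symm, fun _ => ⟨rfl, by rw [T.nd_kids]; exact h0⟩⟩,
      ⟨trivial, ?_, ?_⟩, ⟨?_, ?_⟩, ?_, ?_⟩
    · intro ht
      rw [T.nd_kids]
      exact h3 (hw.2.1 ht)
    · intro y hy
      rw [T.nd_kids] at hy
      obtain ⟨_, _, h, _⟩ := h2 y hy
      exact h
    · intro p
      rw [hpt]
      exact Iff.rfl
    · rw [hpt]
      apply Rl.names
      show Rl (U tot) (D S.length ++ [newid (D S.length) .fresh]) _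
      rw [hD]
      exact Rl_path tot (u :: S)
    · rintro ⟨Γ', y'⟩ ⟨e1, e2⟩
      have e2' : y' ∈ l' := by
        rw [← T.nd_kids .fresh u.pr l']; exact e2
      obtain ⟨y, hy, _, hb⟩ := h2 y' e2'
      have e1' : Γ' = D (S.length + 1) := by rw [← hD]; exact e1
      subst e1'
      refine ⟨(pathOf (u :: S), pt y (u :: S)), ⟨?_, ?_⟩, hb⟩
      · rw [hpt]; rfl
      · rw [hpt]; exact (hsucc _).mpr ⟨y, hy, rfl⟩
    · rintro ⟨π', y⟩ ⟨e1, e2⟩
      rw [hpt] at e1 e2
      obtain ⟨v, hv, rfl⟩ := (hsucc _).mp e2
      obtain ⟨y', hy', _, hb⟩ := h1 v hv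
      have e1' : π' = pathOf (u :: S) := e1
      subst e1'
      exact ⟨(D (S.length + 1), y'), ⟨hD.symm, by
        show y' ∈ (T.nd _ _ l').kids
        rw [T.nd_kids]; exact hy'⟩, hb⟩

theorem U_live (tot : Bool) (ht : tot = true) (k : ℕ) : ∀ x, Live (Re (U tot)) k x := by
  induction k with
  | zero => intro x; trivial
  | succ k ih =>
    rintro ⟨π, w⟩
    refine ⟨?_, fun y _ => ih y⟩
    obtain ⟨y, hy⟩ := List.exists_mem_of_ne_nil _ (succs_ne tot ht w)
    exact ⟨(π ++ [w], y), rfl, hy⟩

variable {ch : ℕ → List Trm}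

theorem live_of_serial {M : Md} (h : ∀ w, ∃ y, M.R w y) (k : ℕ) : ∀ x, Live (Re M) k x := by
  induction k with
  | zero => intro x; trivial
  | succ k ih =>
    rintro ⟨π, w⟩
    refine ⟨?_, fun y _ => ih y⟩
    obtain ⟨y, hy⟩ := h w
    exact ⟨(π ++ [w], y), rfl, hy⟩

/-- **Main theorem on XOR-lists**: a list is satisfiable in a model iff it does not cancel
formally. -/
theorem main (tot : Bool) (n : ℕ) (L : List Trm) (hL : ok ch n 0 L) :
    z ch tot n L = false ↔
      ∃ M : Md, (tot = true → ∀ w, ∃ y, M.R w y) ∧ ∃ w, val ch (Re M) n ([], w) L = 1 := by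
  obtain ⟨hS, hC⟩ := snd_cmp ch tot n
  constructor
  · intro hz
    refine ⟨U tot, fun ht w => List.exists_mem_of_ne_nil _ (succs_ne tot ht w), ?_⟩
    have hL' : ok ch n 0 (L.filter notnm) := ok_subset ch hL (fun t ht => (List.mem_filter.mp ht).1)
    have hno : ∀ a, Trm.nm a ∉ L.filter notnm := by
      intro a ha
      have := (List.mem_filter.mp ha).2
      simp [notnm] at this
    by_cases hz' : z ch tot n (L.filter notnm) = true
    · -- the root carries a fixed name
      have : ∃ a, Trm.nm a ∈ L ∧ evenb (L.count (.nm a)) = false := by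
        by_contra hcon
        push Not at hcon
        have := z_of_filter hz' (fun a ha => by
          have := hcon a ha
          simpa using this)
        rw [this] at hz
        exact absurd hz (by simp)
      obtain ⟨a, ha, hodd⟩ := this
      cases a with
      | lvl j => exact absurd (ok_lvl ch hL j ha) (by omega)
      | fix c =>
        refine ⟨.inr c, ?_⟩
        rw [val_filter, hS 0 _ hL' hz' (Re (U tot)) _ (fun ht => U_live tot ht n _)]
        rw [sum_nm L (.fix c), evenb_cast' hodd, zero_add]
        intro b hb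
        cases b with
        | lvl j => exact absurd (ok_lvl ch hL j hb) (by omega)
        | fix c' =>
          show (.inr c' : UW) = .inr c ↔ _
          simp only [Sum.inr.injEq, Nm.fix.injEq]
          exact eq_comm
    · rw [Bool.not_eq_true] at hz'
      obtain ⟨t, ht, hf, hv⟩ := hC 0 _ hL' hz'
      have hft := hf hno
      rw [← val_fresh_filter hft hL] at hv
      obtain ⟨τ, h1, h2, h3⟩ := exists_robust (ch := ch) hL ⟨t, ht, hft, hv⟩
      obtain ⟨τ', hs, hw, hb⟩ := exists_star tot n τ [] h1
      refine ⟨pt τ [], ?_⟩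
      have := h3 τ' hs hw
      have e := hb.val_eq ch L
      rw [← this]
      exact e.symm
  · rintro ⟨M, hM, w, hw⟩
    by_contra hz
    rw [Bool.not_eq_false] at hz
    rw [hS 0 L hL hz (Re M) ([], w) (fun ht => live_of_serial (hM ht) n _)] at hw
    exact zero_ne_one hw

end Pool.Agent.Lib.MP_bba6cc_lc
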