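import Mathlib

/-!
# XOR-lists over `1`, propositions, names and diamonds; frames; formal cancellation test
-/

namespace Pool.Agent.Lib.MP_bba6cc_lc

open Classical

/-- names: the point of level `j` of the current path, or a fixed name -/
inductive Nm
  | lvl (j : ℕ)
  | fix (c : ℕ)
  deriving DecidableEq

/-- the terms of an XOR-list; `dia u` stands for the diamond with body `ch u` -/
inductive Trm
  | one
  | prp (p : ℕ)
  | nm (a : Nm)
  | dia (u : ℕ)
  deriving DecidableEq

/-- a general notion of frame with local information -/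
structure Fr where
  X : Type
  pr : X → ℕ → Prop
  nv : X → Nm → Prop
  nx : X → X → Prop

/-- indicator in `ZMod 2` -/
noncomputable def ind (p : Prop) : ZMod 2 := if p then 1 else 0

theorem ind_true {p : Prop} (h : p) : ind p = 1 := if_pos h
theorem ind_false {p : Prop} (h : ¬ p) : ind p = 0 := if_neg h
theorem ind_congr {p q : Prop} (h : p ↔ q) : ind p = ind q := by unfold ind; simp [h]

theorem z2 (x : ZMod 2) : x = 0 ∨ x = 1 := by
  revert x; decide

theorem z2ne (x : ZMod 2) : x ≠ 1 ↔ x = 0 := by
  revert x; decide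

theorem z2ne' (x : ZMod 2) : x ≠ 0 ↔ x = 1 := by
  revert x; decide

theorem z2self (x : ZMod 2) : x + x = 0 := by
  revert x; decide

noncomputable def tv (pr : ℕ → Prop) (nv : Nm → Prop) (dv : ℕ → Prop) : Trm → ZMod 2
  | .one => 1
  | .prp p => ind (pr p)
  | .nm a => ind (nv a)
  | .dia u => ind (dv u)

noncomputable def sv (pr : ℕ → Prop) (nv : Nm → Prop) (dv : ℕ → Prop) (L : List Trm) : ZMod 2 :=
  (L.map (tv pr nv dv)).sum

variable (ch : ℕ → List Trm)

/-- value of an XOR-list at a state of a frame, with fuel `k` for the nesting of diamonds -/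
noncomputable def val (F : Fr) : ℕ → F.X → List Trm → ZMod 2
  | 0, x, L => sv (F.pr x) (F.nv x) (fun _ => False) L
  | k + 1, x, L => sv (F.pr x) (F.nv x) (fun u => ∃ y, F.nx x y ∧ val F k y (ch u) = 1) L

/-- the truth of diamonds at fuel `k` -/
def dvl (F : Fr) : ℕ → F.X → ℕ → Prop
  | 0, _, _ => False
  | k + 1, x, u => ∃ y, F.nx x y ∧ val ch F k y (ch u) = 1

theorem val_eq (F : Fr) (k : ℕ) (x : F.X) (L : List Trm) :
    val ch F k x L = sv (F.pr x) (F.nv x) (dvl ch F k x) L := by
  cases k <;> rfl

theorem val_append (F : Fr) (k : ℕ) (x : F.X) (L M : List Trm) :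
    val ch F k x (L ++ M) = val ch F k x L + val ch F k x M := by
  simp [val_eq, sv]

theorem val_one_cons (F : Fr) (k : ℕ) (x : F.X) (L : List Trm) :
    val ch F k x (.one :: L) = 1 + val ch F k x L := by
  simp [val_eq, sv, tv]

theorem val_nil (F : Fr) (k : ℕ) (x : F.X) : val ch F k x [] = 0 := by
  simp [val_eq, sv]

/-- states all of whose descendants below depth `k` have a successor -/
def Live (F : Fr) : ℕ → F.X → Prop
  | 0, _ => True
  | k + 1, x => (∃ y, F.nx x y) ∧ ∀ y, F.nx x y → Live F k y

/-- the diamonds of a list -/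
def dias : List Trm → List ℕ
  | [] => []
  | .dia u :: L => u :: dias L
  | _ :: L => dias L

def isAtom : Trm → Bool
  | .prp _ => true
  | .nm _ => true
  | _ => false

def evenb (n : ℕ) : Bool := n % 2 == 0

theorem evenb_iff (n : ℕ) : evenb n = true ↔ Even n := by
  simp [evenb, Nat.even_iff]

theorem evenb_cast {n : ℕ} (h : evenb n = true) : ((n : ℕ) : ZMod 2) = 0 := by
  rw [evenb_iff] at h
  exact (ZMod.natCast_eq_zero_iff_even).mpr h

theorem evenb_cast' {n : ℕ} (h : evenb n = false) : ((n : ℕ) : ZMod 2) = 1 := by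
  have : ¬ Even n := by rw [← evenb_iff]; simp [h]
  rw [Nat.not_even_iff_odd] at this
  exact (ZMod.natCast_eq_one_iff_odd).mpr this

/-- atoms occur an even number of times -/
def atomsOK (L : List Trm) : Bool := L.all (fun t => !isAtom t || evenb (L.count t))

/-- formal cancellation test (`tot`: over serial frames) -/
def z (tot : Bool) : ℕ → List Trm → Bool
  | 0, L => atomsOK L && evenb (L.count .one)
  | k + 1, L => atomsOK L &&
      evenb (L.count .one + (dias L).countP (fun u => tot && z tot k (.one :: ch u))) &&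
      (dias L).all (fun u => z tot k (ch u) || (tot && z tot k (.one :: ch u)) ||
        evenb ((dias L).countP (fun v => z tot k (ch u ++ ch v))))

/-- decomposition of the value of a list -/
theorem sv_split (pr : ℕ → Prop) (nv : Nm → Prop) (dv : ℕ → Prop) (L : List Trm) :
    sv pr nv dv L = (L.count .one : ZMod 2) + ((L.filter isAtom).map (tv pr nv dv)).sum +
      ((dias L).map (fun u => ind (dv u))).sum := by
  induction L with
  | nil => simp [sv, dias]
  | cons t L ih =>
    have hc : sv pr nv dv (t :: L) = tv pr nv dv t + sv pr nv dv L := by simp [sv]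
    rw [hc, ih]
    cases t with
    | one =>
      have h1 : (Trm.one :: L).filter isAtom = L.filter isAtom :=
        List.filter_cons_of_neg (by simp [isAtom])
      rw [h1, List.count_cons_self]
      simp only [tv, dias]
      push_cast
      ring
    | prp p =>
      have h1 : (Trm.prp p :: L).filter isAtom = Trm.prp p :: L.filter isAtom :=
        List.filter_cons_of_pos rfl
      rw [h1, List.count_cons_of_ne (by simp), List.map_cons, List.sum_cons]
      simp only [dias]
      ring
    | nm a =>
      have h1 : (Trm.nm a :: L).filter isAtom = Trm.nm a :: L.filter isAtom :=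
        List.filter_cons_of_pos rfl
      rw [h1, List.count_cons_of_ne (by simp), List.map_cons, List.sum_cons]
      simp only [dias]
      ring
    | dia u =>
      have h1 : (Trm.dia u :: L).filter isAtom = L.filter isAtom :=
        List.filter_cons_of_neg (by simp [isAtom])
      rw [h1, List.count_cons_of_ne (by simp)]
      simp only [tv, dias, List.map_cons, List.sum_cons]
      ring

theorem mem_dias {L : List Trm} {u : ℕ} : u ∈ dias L ↔ Trm.dia u ∈ L := by
  induction L with
  | nil => simp [dias]
  | cons t L ih =>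
    cases t <;> simp [dias, ih]

/-- sum lemma: if every value with `g ≠ 0` occurs an even number of times, the sum is zero -/
theorem sum_even {β : Type*} [DecidableEq β] (l : List β) (g : β → ZMod 2)
    (h : ∀ v ∈ l, g v = 0 ∨ Even (l.count v)) : (l.map g).sum = 0 := by
  rw [Finset.sum_list_map_count]
  apply Finset.sum_eq_zero
  intro v hv
  rcases h v (by simpa using hv) with h0 | he
  · simp [h0]
  · obtain ⟨r, hr⟩ := he
    rw [nsmul_eq_mul, hr]
    push_cast
    rw [← two_mul]
    have : (2 : ZMod 2) = 0 := rfl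
    rw [this]; ring

theorem atoms_sum {L : List Trm} (h : atomsOK L = true) (pr : ℕ → Prop) (nv : Nm → Prop)
    (dv : ℕ → Prop) : ((L.filter isAtom).map (tv pr nv dv)).sum = 0 := by
  apply sum_even
  intro v hv
  right
  rw [List.mem_filter] at hv
  rw [List.count_filter hv.2]
  rw [atomsOK, List.all_eq_true] at h
  have := h v hv.1
  simp only [hv.2, Bool.not_true, Bool.false_or] at this
  exact (evenb_iff _).mp this

/-- validity of level names -/
def ok : ℕ → ℕ → List Trm → Prop
  | 0, m, L => ∀ j, Trm.nm (.lvl j) ∈ L → j < m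
  | k + 1, m, L => (∀ j, Trm.nm (.lvl j) ∈ L → j < m) ∧ ∀ u, Trm.dia u ∈ L → ok k (m + 1) (ch u)

theorem ok_lvl {k m : ℕ} {L : List Trm} (h : ok ch k m L) : ∀ j, Trm.nm (.lvl j) ∈ L → j < m := by
  cases k with
  | zero => exact h
  | succ k => exact h.1

theorem ok_append {k m : ℕ} {L M : List Trm} (h : ok ch k m L) (h' : ok ch k m M) :
    ok ch k m (L ++ M) := by
  cases k with
  | zero => intro j hj; rcases List.mem_append.mp hj with a | a; exacts [h j a, h' j a]
  | succ k =>
    refine ⟨?_, ?_⟩
    · intro j hj; rcases List.mem_append.mp hj with a | a; exacts [h.1 j a, h'.1 j a]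
    · intro u hu; rcases List.mem_append.mp hu with a | a; exacts [h.2 u a, h'.2 u a]

theorem ok_one {k m : ℕ} {L : List Trm} (h : ok ch k m L) : ok ch k m (.one :: L) := by
  cases k with
  | zero => intro j hj; simp at hj; exact h j hj
  | succ k =>
    refine ⟨?_, ?_⟩
    · intro j hj; simp at hj; exact h.1 j hj
    · intro u hu; simp at hu; exact h.2 u hu

theorem ok_subset {k m : ℕ} {L M : List Trm} (h : ok ch k m L) (hs : ∀ t ∈ M, t ∈ L) :
    ok ch k m M := by
  cases k with
  | zero => exact fun j hj => h j (hs _ hj)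
  | succ k => exact ⟨fun j hj => h.1 j (hs _ hj), fun u hu => h.2 u (hs _ hu)⟩

theorem ok_nil {k m : ℕ} : ok ch k m [] := by
  cases k with
  | zero => intro j hj; simp at hj
  | succ k => exact ⟨fun j hj => by simp at hj, fun u hu => by simp at hu⟩

/-! ## bisimulation up to depth `k` -/

def Bis (F G : Fr) : ℕ → F.X → G.X → Prop
  | 0, x, y => (∀ p, F.pr x p ↔ G.pr y p) ∧ (∀ a, F.nv x a ↔ G.nv y a)
  | k + 1, x, y => ((∀ p, F.pr x p ↔ G.pr y p) ∧ (∀ a, F.nv x a ↔ G.nv y a)) ∧
      (∀ x', F.nx x x' → ∃ y', G.nx y y' ∧ Bis F G k x' y') ∧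
      (∀ y', G.nx y y' → ∃ x', F.nx x x' ∧ Bis F G k x' y')

theorem Bis.val_eq {F G : Fr} {k : ℕ} {x : F.X} {y : G.X} (h : Bis F G k x y) (L : List Trm) :
    val ch F k x L = val ch G k y L := by
  induction k generalizing x y L with
  | zero =>
    obtain ⟨h1, h2⟩ := h
    simp only [val, sv]
    congr 1
    apply List.map_congr_left
    intro t _
    cases t with
    | one => rfl
    | prp p => exact ind_congr (h1 p)
    | nm a => exact ind_congr (h2 a)
    | dia u => rfl
  | succ k ih =>
    obtain ⟨⟨h1, h2⟩, h3, h4⟩ := h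
    simp only [val, sv]
    congr 1
    apply List.map_congr_left
    intro t _
    cases t with
    | one => rfl
    | prp p => exact ind_congr (h1 p)
    | nm a => exact ind_congr (h2 a)
    | dia u =>
      apply ind_congr
      constructor
      · rintro ⟨x', hx, hv⟩
        obtain ⟨y', hy, hb⟩ := h3 x' hx
        exact ⟨y', hy, by rw [← ih hb]; exact hv⟩
      · rintro ⟨y', hy, hv⟩
        obtain ⟨x', hx, hb⟩ := h4 y' hy
        exact ⟨x', hx, by rw [ih hb]; exact hv⟩

end Pool.Agent.Lib.MP_bba6cc_lc
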