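import Pool.Agent.Lib.MP_bba6cc_lc.TDefs2

/-!
# Occurrences and subformulas
-/

namespace Pool.Agent.Lib.MP_bba6cc_lc

open Classical

variable {B : List BFun}

/-! ## Row A0: occurrences, subformulas (easy inductions) -/

theorem A0_flen_app (i : Fin B.length) (args : Fin (B.get i).ar → Fm B) :
    flen (.app i args) = 1 + ∑ j, flen (args j) := by
  unfold flen
  rw [code, List.length_cons, List.length_flatMap]
  rw [← List.sum_ofFn, List.ofFn_eq_map]
  omega

theorem A0_offs_add {n : ℕ} (args : Fin n → Fm B) (j : Fin n) :
    offs args j + flen (args j) ≤ ∑ k, flen (args k) := by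
  unfold offs flen
  have h1 : ∑ k : Fin n, (if k < j then (code (args k)).length else 0) + (code (args j)).length =
      ∑ k : Fin n, ((if k < j then (code (args k)).length else 0) +
        (if k = j then (code (args k)).length else 0)) := by
    rw [Finset.sum_add_distrib]
    congr 1
    simp
  rw [h1]
  refine Finset.sum_le_sum fun k _ => ?_
  by_cases h : k < j
  · have : k ≠ j := h.ne
    simp [h, this]
  · by_cases h' : k = j
    · simp [h']
    · simp [h, h']

theorem A0_offs_lt {n : ℕ} (args : Fin n → Fm B) {j k : Fin n} (h : j < k) :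
    offs args j + flen (args j) ≤ offs args k := by
  unfold offs flen
  have h1 : ∑ l : Fin n, (if l < j then (code (args l)).length else 0) + (code (args j)).length =
      ∑ l : Fin n, ((if l < j then (code (args l)).length else 0) +
        (if l = j then (code (args l)).length else 0)) := by
    rw [Finset.sum_add_distrib]
    congr 1
    simp
  rw [h1]
  refine Finset.sum_le_sum fun l _ => ?_
  by_cases hl : l < j
  · have : l ≠ j := hl.ne
    have h3 : l < k := hl.trans h
    simp [hl, this, h3]
  · by_cases h' : l = j
    · subst h'
      simp [h]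
    · simp [hl, h']

theorem ents_pos (φ : Fm B) (bs : List ℕ) (pos : ℕ) : ∀ e ∈ ents φ bs pos,
    pos ≤ e.pos ∧ e.pos < pos + flen φ := by
  induction φ generalizing bs pos with
  | prp p => intro e he; simp [ents] at he
  | nom p => intro e he; simp [ents] at he
  | var p => intro e he; simp [ents] at he
  | app i args ih =>
    intro e he
    rw [ents, List.mem_flatMap] at he
    obtain ⟨j, -, hj⟩ := he
    obtain ⟨h1, h2⟩ := ih j bs _ e hj
    have h3 := A0_offs_add args j
    rw [A0_flen_app]
    omega
  | dia ψ ih =>
    intro e he
    have hf : flen (.dia ψ) = flen ψ + 1 := by simp [flen, code]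
    rw [ents, List.mem_cons] at he
    rcases he with rfl | he
    · simp only
      omega
    · obtain ⟨h1, h2⟩ := ih bs _ e he
      omega
  | box ψ ih =>
    intro e he
    have hf : flen (.box ψ) = flen ψ + 1 := by simp [flen, code]
    rw [ents, List.mem_cons] at he
    rcases he with rfl | he
    · simp only
      omega
    · obtain ⟨h1, h2⟩ := ih bs _ e he
      omega
  | down x ψ ih =>
    intro e he
    have hf : flen (.down x ψ) = flen ψ + 1 := by simp [flen, code]
    rw [ents] at he
    obtain ⟨h1, h2⟩ := ih _ _ e he
    omega

/-- an occurrence is determined by its position -/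
theorem ents_inj (φ : Fm B) (bs : List ℕ) (pos : ℕ) : ∀ e ∈ ents φ bs pos, ∀ e' ∈ ents φ bs pos,
    e.pos = e'.pos → e = e' := by
  induction φ generalizing bs pos with
  | prp p => intro e he; simp [ents] at he
  | nom p => intro e he; simp [ents] at he
  | var p => intro e he; simp [ents] at he
  | app i args ih =>
    intro e he e' he' hp
    rw [ents, List.mem_flatMap] at he he'
    obtain ⟨j, -, hj⟩ := he
    obtain ⟨j', -, hj'⟩ := he'
    obtain ⟨h1, h2⟩ := ents_pos _ _ _ e hj
    obtain ⟨h3, h4⟩ := ents_pos _ _ _ e' hj'
    rcases lt_trichotomy j j' with h | h | h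
    · have := A0_offs_lt args h
      omega
    · subst h
      exact ih j bs _ e hj e' hj' hp
    · have := A0_offs_lt args h
      omega
  | dia ψ ih =>
    intro e he e' he' hp
    rw [ents, List.mem_cons] at he he'
    rcases he with rfl | he <;> rcases he' with rfl | he'
    · rfl
    · have := (ents_pos _ _ _ e' he').1
      simp only at hp
      omega
    · have := (ents_pos _ _ _ e he).1
      simp only at hp
      omega
    · exact ih bs _ e he e' he' hp
  | box ψ ih =>
    intro e he e' he' hp
    rw [ents, List.mem_cons] at he he'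
    rcases he with rfl | he <;> rcases he' with rfl | he'
    · rfl
    · have := (ents_pos _ _ _ e' he').1
      simp only at hp
      omega
    · have := (ents_pos _ _ _ e he).1
      simp only at hp
      omega
    · exact ih bs _ e he e' he' hp
  | down x ψ ih =>
    intro e he e' he' hp
    rw [ents] at he he'
    exact ih _ _ e he e' he' hp

theorem fsubs_self (φ : Fm B) : φ ∈ fsubs φ := by
  cases φ <;> simp [fsubs]

/-- the occurrences in the body of an occurrence -/
theorem ents_body (φ : Fm B) (bs : List ℕ) (pos : ℕ) : ∀ e ∈ ents φ bs pos,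
    e.body ∈ fsubs φ ∧ ∀ e' ∈ ents e.body e.bs (e.pos + 1), e' ∈ ents φ bs pos := by
  induction φ generalizing bs pos with
  | prp p => intro e he; simp [ents] at he
  | nom p => intro e he; simp [ents] at he
  | var p => intro e he; simp [ents] at he
  | app i args ih =>
    intro e he
    rw [ents, List.mem_flatMap] at he
    obtain ⟨j, hj0, hj⟩ := he
    obtain ⟨h1, h2⟩ := ih j bs _ e hj
    refine ⟨?_, ?_⟩
    · rw [fsubs]
      exact List.mem_cons_of_mem _ (List.mem_flatMap.2 ⟨j, hj0, h1⟩)
    · intro e' he'
      rw [ents, List.mem_flatMap]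
      exact ⟨j, hj0, h2 e' he'⟩
  | dia ψ ih =>
    intro e he
    rw [ents, List.mem_cons] at he
    rcases he with rfl | he
    · refine ⟨?_, ?_⟩
      · rw [fsubs]
        exact List.mem_cons_of_mem _ (fsubs_self ψ)
      · intro e' he'
        rw [ents]
        exact List.mem_cons_of_mem _ he'
    · obtain ⟨h1, h2⟩ := ih bs _ e he
      refine ⟨?_, ?_⟩
      · rw [fsubs]
        exact List.mem_cons_of_mem _ h1
      · intro e' he'
        rw [ents]
        exact List.mem_cons_of_mem _ (h2 e' he')
  | box ψ ih =>
    intro e he
    rw [ents, List.mem_cons] at he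
    rcases he with rfl | he
    · refine ⟨?_, ?_⟩
      · rw [fsubs]
        exact List.mem_cons_of_mem _ (fsubs_self ψ)
      · intro e' he'
        rw [ents]
        exact List.mem_cons_of_mem _ he'
    · obtain ⟨h1, h2⟩ := ih bs _ e he
      refine ⟨?_, ?_⟩
      · rw [fsubs]
        exact List.mem_cons_of_mem _ h1
      · intro e' he'
        rw [ents]
        exact List.mem_cons_of_mem _ (h2 e' he')
  | down x ψ ih =>
    intro e he
    rw [ents] at he
    obtain ⟨h1, h2⟩ := ih _ _ e he
    refine ⟨?_, ?_⟩
    · rw [fsubs]
      exact List.mem_cons_of_mem _ h1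
    · intro e' he'
      rw [ents]
      exact h2 e' he'

/-- the positions do not depend on the bound variables -/
theorem ents_bs (φ : Fm B) (bs bs' : List ℕ) (pos : ℕ) :
    (ents φ bs pos).map (fun e => e.pos) = (ents φ bs' pos).map (fun e => e.pos) := by
  induction φ generalizing bs bs' pos with
  | prp p => simp [ents]
  | nom p => simp [ents]
  | var p => simp [ents]
  | app i args ih =>
    rw [ents, ents, List.map_flatMap, List.map_flatMap]
    congr 1
    funext j
    exact ih j bs bs' _
  | dia ψ ih =>
    rw [ents, ents, List.map_cons, List.map_cons, ih bs bs' (pos + 1)]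
  | box ψ ih =>
    rw [ents, ents, List.map_cons, List.map_cons, ih bs bs' (pos + 1)]
  | down x ψ ih =>
    rw [ents, ents]
    exact ih _ _ _

theorem ents_length (φ : Fm B) (bs : List ℕ) (pos : ℕ) : (ents φ bs pos).length ≤ flen φ := by
  induction φ generalizing bs pos with
  | prp p => simp [ents]
  | nom p => simp [ents]
  | var p => simp [ents]
  | app i args ih =>
    rw [A0_flen_app, ents, List.length_flatMap]
    rw [← List.ofFn_eq_map, List.sum_ofFn]
    have : ∑ j, (ents (args j) bs (pos + 1 + offs args j)).length ≤ ∑ j, flen (args j) :=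
      Finset.sum_le_sum fun j _ => ih j bs _
    omega
  | dia ψ ih =>
    have hf : flen (.dia ψ) = flen ψ + 1 := by simp [flen, code]
    rw [ents, List.length_cons, hf]
    have := ih bs (pos + 1)
    omega
  | box ψ ih =>
    have hf : flen (.box ψ) = flen ψ + 1 := by simp [flen, code]
    rw [ents, List.length_cons, hf]
    have := ih bs (pos + 1)
    omega
  | down x ψ ih =>
    have hf : flen (.down x ψ) = flen ψ + 1 := by simp [flen, code]
    rw [ents, hf]
    have := ih (x :: bs) (pos + 1)
    omega

theorem fsubs_length (φ : Fm B) : (fsubs φ).length = flen φ := by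
  induction φ with
  | prp p => simp [fsubs, flen, code]
  | nom p => simp [fsubs, flen, code]
  | var p => simp [fsubs, flen, code]
  | app i args ih =>
    rw [A0_flen_app, fsubs, List.length_cons, List.length_flatMap, ← List.ofFn_eq_map,
      List.sum_ofFn]
    have : ∑ j, (fsubs (args j)).length = ∑ j, flen (args j) :=
      Finset.sum_congr rfl fun j _ => ih j
    omega
  | dia ψ ih =>
    have hf : flen (.dia ψ) = flen ψ + 1 := by simp [flen, code]
    rw [fsubs, List.length_cons, hf, ih]
  | box ψ ih =>
    have hf : flen (.box ψ) = flen ψ + 1 := by simp [flen, code]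
    rw [fsubs, List.length_cons, hf, ih]
  | down x ψ ih =>
    have hf : flen (.down x ψ) = flen ψ + 1 := by simp [flen, code]
    rw [fsubs, List.length_cons, hf, ih]

theorem fsubs_trans (φ ψ χ : Fm B) (h : ψ ∈ fsubs φ) (h' : χ ∈ fsubs ψ) : χ ∈ fsubs φ := by
  induction φ with
  | prp p =>
    simp only [fsubs, List.mem_singleton] at h
    subst h
    exact h'
  | nom p =>
    simp only [fsubs, List.mem_singleton] at h
    subst h
    exact h'
  | var p =>
    simp only [fsubs, List.mem_singleton] at h
    subst h
    exact h'
  | app i args ih =>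
    rw [fsubs, List.mem_cons, List.mem_flatMap] at h
    rcases h with rfl | ⟨j, hj0, hj⟩
    · exact h'
    · rw [fsubs]
      exact List.mem_cons_of_mem _ (List.mem_flatMap.2 ⟨j, hj0, ih j hj⟩)
  | dia ξ ih =>
    rw [fsubs, List.mem_cons] at h
    rcases h with rfl | h
    · exact h'
    · rw [fsubs]
      exact List.mem_cons_of_mem _ (ih h)
  | box ξ ih =>
    rw [fsubs, List.mem_cons] at h
    rcases h with rfl | h
    · exact h'
    · rw [fsubs]
      exact List.mem_cons_of_mem _ (ih h)
  | down x ξ ih =>
    rw [fsubs, List.mem_cons] at h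
    rcases h with rfl | h
    · exact h'
    · rw [fsubs]
      exact List.mem_cons_of_mem _ (ih h)

theorem code_fsubs (φ ψ : Fm B) (h : ψ ∈ fsubs φ) : ∀ t ∈ code ψ, t ∈ code φ := by
  induction φ with
  | prp p =>
    simp only [fsubs, List.mem_singleton] at h
    subst h
    exact fun t ht => ht
  | nom p =>
    simp only [fsubs, List.mem_singleton] at h
    subst h
    exact fun t ht => ht
  | var p =>
    simp only [fsubs, List.mem_singleton] at h
    subst h
    exact fun t ht => ht
  | app i args ih =>
    rw [fsubs, List.mem_cons, List.mem_flatMap] at h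
    rcases h with rfl | ⟨j, hj0, hj⟩
    · exact fun t ht => ht
    · intro t ht
      rw [code]
      exact List.mem_cons_of_mem _ (List.mem_flatMap.2 ⟨j, hj0, ih j hj t ht⟩)
  | dia ξ ih =>
    rw [fsubs, List.mem_cons] at h
    rcases h with rfl | h
    · exact fun t ht => ht
    · intro t ht
      rw [code]
      exact List.mem_cons_of_mem _ (ih h t ht)
  | box ξ ih =>
    rw [fsubs, List.mem_cons] at h
    rcases h with rfl | h
    · exact fun t ht => ht
    · intro t ht
      rw [code]
      exact List.mem_cons_of_mem _ (ih h t ht)
  | down x ξ ih =>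
    rw [fsubs, List.mem_cons] at h
    rcases h with rfl | h
    · exact fun t ht => ht
    · intro t ht
      rw [code]
      exact List.mem_cons_of_mem _ (ih h t ht)

end Pool.Agent.Lib.MP_bba6cc_lc
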