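import Pool.Agent.Lib.MP_bba6cc_lc.TDefs2

/-!
# Truth in a cluster: pull back and congruence
-/

namespace Pool.Agent.Lib.MP_bba6cc_lc
open Classical
variable {B : List BFun}

theorem A1_lk_map {W : Type} (e : ℕ → W) (x : ℕ) : ∀ env : List (ℕ × Option ℕ),
    lk (env.map fun p => (p.1, p.2.map e)) x = (lk env x).map (Option.map e)
  | [] => rfl
  | p :: env => by
    have ih := A1_lk_map e x env
    unfold lk at ih ⊢
    by_cases h : p.1 = x
    · simp [h]
    · simp only [List.map_cons, List.find?_cons, h, decide_false]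
      exact ih

theorem A1_lk_mem {W : Type} {env : List (ℕ × Option W)} {x : ℕ} {o : Option W}
    (h : lk env x = some o) : ∃ p ∈ env, p.2 = o := by
  unfold lk at h
  rw [Option.map_eq_some_iff] at h
  obtain ⟨p, hp, ho⟩ := h
  exact ⟨p, List.mem_of_find?_eq_some hp, ho⟩

/-- pull back along an enumeration -/
theorem Val_pull {W : Type} (S : Clus W) (e : ℕ → W) (m : ℕ)
    (hinj : ∀ i < m, ∀ j < m, e i = e j → i = j) (hD : ∀ c, S.D c ↔ ∃ j < m, e j = c) (ψ : Fm B) :
    ∀ (env : List (ℕ × Option ℕ)) (j pos : ℕ), j < m →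
      (∀ p ∈ env, ∀ a, p.2 = some a → a < m) →
      (Val (S.pull e m) ψ env j pos ↔
        Val S ψ (env.map fun p => (p.1, p.2.map e)) (e j) pos) := by
  induction ψ with
  | prp p => intro env j pos hj henv; exact Iff.rfl
  | nom i =>
    intro env j pos hj henv
    exact ⟨fun h => h.2, fun h => ⟨hj, h⟩⟩
  | var x =>
    intro env j pos hj henv
    simp only [Val, A1_lk_map]
    cases hl : lk env x with
    | none => exact ⟨fun h => h.2, fun h => ⟨hj, h⟩⟩
    | some o =>
      cases o with
      | none => exact Iff.rfl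
      | some d =>
        obtain ⟨p, hp, hpo⟩ := A1_lk_mem hl
        have hd : d < m := henv p hp d hpo
        exact ⟨fun h => congrArg e h, fun h => hinj d hd j hj h⟩
  | app i args ih =>
    intro env j pos hj henv
    simp only [Val]
    have : (fun k => decide (Val (S.pull e m) (args k) env j (pos + 1 + offs args k))) =
        fun k => decide (Val S (args k) (env.map fun p => (p.1, p.2.map e)) (e j)
          (pos + 1 + offs args k)) := by
      funext k
      rw [decide_eq_decide]
      exact ih k env j _ hj henv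
    rw [this]
  | dia φ ih =>
    intro env j pos hj henv
    simp only [Val]
    refine or_congr Iff.rfl (and_congr Iff.rfl ?_)
    constructor
    · rintro ⟨d, hd, hv⟩
      exact ⟨e d, (hD _).2 ⟨d, hd, rfl⟩, (ih env d (pos + 1) hd henv).1 hv⟩
    · rintro ⟨c, hc, hv⟩
      obtain ⟨d, hd, rfl⟩ := (hD _).1 hc
      exact ⟨d, hd, (ih env d (pos + 1) hd henv).2 hv⟩
  | box φ ih =>
    intro env j pos hj henv
    simp only [Val]
    refine and_congr Iff.rfl (imp_congr Iff.rfl ?_)
    constructor
    · intro h c hc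
      obtain ⟨d, hd, rfl⟩ := (hD _).1 hc
      exact (ih env d (pos + 1) hd henv).1 (h d hd)
    · intro h d hd
      exact (ih env d (pos + 1) hd henv).2 (h (e d) ((hD _).2 ⟨d, hd, rfl⟩))
  | down x φ ih =>
    intro env j pos hj henv
    simp only [Val]
    have h := ih ((x, some j) :: env) j (pos + 1) hj (by
      intro p hp a ha
      rcases List.mem_cons.mp hp with rfl | hp
      · simp only [Option.some.injEq] at ha
        rw [← ha]; exact hj
      · exact henv p hp a ha)
    simpa using h

theorem A1_congr_aux {W : Type} (S S' : Clus W) (ψ : Fm B) (hD : ∀ c, S.D c ↔ S'.D c)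
    (hV : ∀ p, (0, p) ∈ code ψ → ∀ c, S.D c → (S.V p c ↔ S'.V p c))
    (hn : ∀ i, (1, i) ∈ code ψ → ∀ c, S.D c → (S.nm i c ↔ S'.nm i c))
    (hf : ∀ x, (2, x) ∈ code ψ → ∀ c, S.D c → (S.fv x c ↔ S'.fv x c))
    (hr : S.refl ↔ S'.refl) :
    ∀ (bs : List ℕ) (env : List (ℕ × Option W)) (c : W) (pos : ℕ), S.D c →
      (∀ e ∈ ents ψ bs pos, (S.Z e.pos ↔ S'.Z e.pos)) →
      (Val S ψ env c pos ↔ Val S' ψ env c pos) := by
  induction ψ with
  | prp p =>
    intro bs env c pos hc hZ
    exact hV p (by simp [code]) c hc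
  | nom i =>
    intro bs env c pos hc hZ
    exact hn i (by simp [code]) c hc
  | var x =>
    intro bs env c pos hc hZ
    simp only [Val]
    cases hl : lk env x with
    | none => exact hf x (by simp [code]) c hc
    | some o => cases o <;> exact Iff.rfl
  | app i args ih =>
    intro bs env c pos hc hZ
    have hcode : ∀ k, ∀ t ∈ code (args k), t ∈ code (Fm.app i args) := by
      intro k t ht
      simp only [code, List.mem_cons, List.mem_flatMap]
      exact Or.inr ⟨k, List.mem_finRange k, ht⟩
    simp only [Val]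
    have : (fun k => decide (Val S (args k) env c (pos + 1 + offs args k))) =
        fun k => decide (Val S' (args k) env c (pos + 1 + offs args k)) := by
      funext k
      rw [decide_eq_decide]
      refine ih k (fun p hp => hV p (hcode k _ hp)) (fun p hp => hn p (hcode k _ hp))
        (fun p hp => hf p (hcode k _ hp)) bs env c _ hc ?_
      intro e he
      apply hZ
      simp only [ents, List.mem_flatMap]
      exact ⟨k, List.mem_finRange k, he⟩
    rw [this]
  | dia φ ih =>
    intro bs env c pos hc hZ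
    have hcode : ∀ t ∈ code φ, t ∈ code (Fm.dia φ) := by
      intro t ht
      simp only [code, List.mem_cons]
      exact Or.inr ht
    have h0 : S.Z pos ↔ S'.Z pos := hZ ⟨pos, bs, false, φ⟩ (by simp [ents])
    have h1 : ∀ d, S.D d → (Val S φ env d (pos + 1) ↔ Val S' φ env d (pos + 1)) := by
      intro d hd
      refine ih (fun p hp => hV p (hcode _ hp)) (fun p hp => hn p (hcode _ hp))
        (fun p hp => hf p (hcode _ hp)) bs env d _ hd ?_
      intro e he
      exact hZ e (by simp only [ents, List.mem_cons]; exact Or.inr he)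
    simp only [Val]
    refine or_congr h0 (and_congr hr ?_)
    constructor
    · rintro ⟨d, hd, hv⟩
      exact ⟨d, (hD d).1 hd, (h1 d hd).1 hv⟩
    · rintro ⟨d, hd, hv⟩
      have hd' := (hD d).2 hd
      exact ⟨d, hd', (h1 d hd').2 hv⟩
  | box φ ih =>
    intro bs env c pos hc hZ
    have hcode : ∀ t ∈ code φ, t ∈ code (Fm.box φ) := by
      intro t ht
      simp only [code, List.mem_cons]
      exact Or.inr ht
    have h0 : S.Z pos ↔ S'.Z pos := hZ ⟨pos, bs, true, φ⟩ (by simp [ents])
    have h1 : ∀ d, S.D d → (Val S φ env d (pos + 1) ↔ Val S' φ env d (pos + 1)) := by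
      intro d hd
      refine ih (fun p hp => hV p (hcode _ hp)) (fun p hp => hn p (hcode _ hp))
        (fun p hp => hf p (hcode _ hp)) bs env d _ hd ?_
      intro e he
      exact hZ e (by simp only [ents, List.mem_cons]; exact Or.inr he)
    simp only [Val]
    refine and_congr (not_congr h0) (imp_congr hr ?_)
    constructor
    · intro h d hd
      have hd' := (hD d).2 hd
      exact (h1 d hd').1 (h d hd')
    · intro h d hd
      exact (h1 d hd).2 (h d ((hD d).1 hd))
  | down x φ ih =>
    intro bs env c pos hc hZ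
    have hcode : ∀ t ∈ code φ, t ∈ code (Fm.down x φ) := by
      intro t ht
      simp only [code, List.mem_cons]
      exact Or.inr ht
    simp only [Val]
    exact ih (fun p hp => hV p (hcode _ hp)) (fun p hp => hn p (hcode _ hp))
      (fun p hp => hf p (hcode _ hp)) (x :: bs) _ c _ hc hZ

/-- `Val` depends only on the data which occur -/
theorem Val_congr {W : Type} (S S' : Clus W) (ψ : Fm B) (hD : ∀ c, S.D c ↔ S'.D c)
    (hV : ∀ p, (0, p) ∈ code ψ → ∀ c, S.D c → (S.V p c ↔ S'.V p c))
    (hn : ∀ i, (1, i) ∈ code ψ → ∀ c, S.D c → (S.nm i c ↔ S'.nm i c))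
    (hf : ∀ x, (2, x) ∈ code ψ → ∀ c, S.D c → (S.fv x c ↔ S'.fv x c))
    (hr : S.refl ↔ S'.refl) :
    ∀ (env : List (ℕ × Option W)) (c : W) (pos : ℕ), S.D c →
      (∀ e ∈ ents ψ [] pos, (S.Z e.pos ↔ S'.Z e.pos)) →
      (Val S ψ env c pos ↔ Val S' ψ env c pos) :=
  A1_congr_aux S S' ψ hD hV hn hf hr []

end Pool.Agent.Lib.MP_bba6cc_lc
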