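import Pool.Agent.Lib.MP_bba6cc_lc.TDefs2

/-!
# Selection of points
-/

namespace Pool.Agent.Lib.MP_bba6cc_lc

open Classical

/-- selection for a finite family of predicates -/
theorem A2a_aux {W ι : Type} (D : W → Prop) (P : ι → W → Prop) (n : ℕ) :
    ∀ (m : ℕ) (I : Finset ι) (E0 : Finset W), I.card = m → (∀ c ∈ E0, D c) →
      ∃ E : Finset W, E0 ⊆ E ∧ (∀ c ∈ E, D c) ∧ E.card ≤ E0.card + m * n ∧
        ∀ i ∈ I, (∀ c, D c → c ∉ E → ¬ P i c) ∨
          ∃ R : Finset W, (∀ c ∈ R, D c ∧ c ∉ E ∧ P i c) ∧ R.card = n + 1 := by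
  intro m
  induction m with
  | zero =>
    intro I E0 hI hE
    refine ⟨E0, Finset.Subset.refl _, hE, by simp, fun i hi => ?_⟩
    rw [Finset.card_eq_zero.1 hI] at hi
    exact absurd hi (Finset.notMem_empty i)
  | succ m ih =>
    intro I E0 hI hE
    by_cases hall : ∀ i ∈ I, ∃ R : Finset W, (∀ c ∈ R, D c ∧ c ∉ E0 ∧ P i c) ∧ R.card = n + 1
    · exact ⟨E0, Finset.Subset.refl _, hE, Nat.le_add_right _ _, fun i hi => Or.inr (hall i hi)⟩
    push Not at hall
    obtain ⟨i, hi, hR⟩ := hall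
    -- the class `i` is finite with at most `n` elements
    have hfin : {c | D c ∧ c ∉ E0 ∧ P i c}.Finite := by
      by_contra hinf
      obtain ⟨R, hR1, hR2⟩ := Set.Infinite.exists_subset_card_eq hinf (n + 1)
      exact hR R (fun c hc => hR1 hc) hR2
    have hcard : hfin.toFinset.card ≤ n := by
      by_contra hlt
      obtain ⟨R, hR1, hR2⟩ := Finset.exists_subset_card_eq (show n + 1 ≤ hfin.toFinset.card by omega)
      refine hR R (fun c hc => ?_) hR2
      have := hR1 hc
      simpa using this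
    obtain ⟨E, h1, h2, h3, h4⟩ := ih (I.erase i) (E0 ∪ hfin.toFinset)
      (by rw [Finset.card_erase_of_mem hi, hI]; rfl) (by
        intro c hc
        rcases Finset.mem_union.1 hc with hc | hc
        · exact hE c hc
        · exact ((Set.Finite.mem_toFinset hfin).1 hc).1)
    refine ⟨E, (Finset.subset_union_left).trans h1, h2, ?_, fun j hj => ?_⟩
    · have h5 := Finset.card_union_le E0 hfin.toFinset
      have h6 : (m + 1) * n = m * n + n := by ring
      omega
    · by_cases hji : j = i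
      · subst hji
        left
        intro c hc hcE hP
        apply hcE
        apply h1
        by_cases hc0 : c ∈ E0
        · exact Finset.mem_union_left _ hc0
        · exact Finset.mem_union_right _ ((Set.Finite.mem_toFinset hfin).2 ⟨hc, hc0, hP⟩)
      · exact h4 j (Finset.mem_erase.2 ⟨hji, hj⟩)

theorem small_select {W : Type} (D : W → Prop) (F : List (W → ZMod 2)) (n : ℕ) (base : Finset W)
    (hb : ∀ c ∈ base, D c) :
    ∃ E R' : Finset W, base ⊆ E ∧ (∀ c ∈ E, D c) ∧ (∀ c ∈ R', D c ∧ c ∉ E) ∧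
      E.card ≤ base.card + 2 * F.length * n ∧ R'.card ≤ 2 * F.length * (n + 1) ∧
      ∀ f ∈ F, ∀ b : ZMod 2, (∀ c, D c → c ∉ E → f c ≠ b) ∨
        n + 1 ≤ (R'.filter fun c => f c = b).card := by
  have hcard : (Finset.univ : Finset (Fin F.length × ZMod 2)).card = 2 * F.length := by
    rw [Finset.card_univ, Fintype.card_prod, Fintype.card_fin, ZMod.card]
    ring
  obtain ⟨E, h1, h2, h3, h4⟩ := A2a_aux D
    (fun (i : Fin F.length × ZMod 2) c => F.get i.1 c = i.2) n (2 * F.length) Finset.univ base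
    hcard hb
  set Rf : Fin F.length × ZMod 2 → Finset W := fun i =>
    if h : ∃ R : Finset W, (∀ c ∈ R, D c ∧ c ∉ E ∧ F.get i.1 c = i.2) ∧ R.card = n + 1
    then h.choose else ∅ with hRf
  have hRf1 : ∀ i, ∀ c ∈ Rf i, D c ∧ c ∉ E ∧ F.get i.1 c = i.2 := by
    intro i c hc
    by_cases h : ∃ R : Finset W, (∀ c ∈ R, D c ∧ c ∉ E ∧ F.get i.1 c = i.2) ∧ R.card = n + 1
    · simp only [hRf, dif_pos h] at hc
      exact h.choose_spec.1 c hc
    · simp only [hRf, dif_neg h] at hc
      exact absurd hc (Finset.notMem_empty c)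
  have hRf2 : ∀ i, (Rf i).card ≤ n + 1 := by
    intro i
    by_cases h : ∃ R : Finset W, (∀ c ∈ R, D c ∧ c ∉ E ∧ F.get i.1 c = i.2) ∧ R.card = n + 1
    · simp only [hRf, dif_pos h]
      exact h.choose_spec.2.le
    · simp only [hRf, dif_neg h, Finset.card_empty]
      exact Nat.zero_le _
  refine ⟨E, Finset.univ.biUnion Rf, h1, h2, ?_, h3, ?_, ?_⟩
  · intro c hc
    obtain ⟨i, -, hi⟩ := Finset.mem_biUnion.1 hc
    exact ⟨(hRf1 i c hi).1, (hRf1 i c hi).2.1⟩
  · refine Finset.card_biUnion_le.trans ((Finset.sum_le_card_nsmul _ _ _ fun i _ => hRf2 i).trans ?_)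
    rw [hcard, smul_eq_mul]
  · intro f hf b
    obtain ⟨k, hk, rfl⟩ := List.getElem_of_mem hf
    rcases h4 (⟨k, hk⟩, b) (Finset.mem_univ _) with h | h
    · left
      intro c hc hcE
      exact h c hc hcE
    · right
      have h5 : (Rf (⟨k, hk⟩, b)).card = n + 1 := by
        simp only [hRf, dif_pos h]
        exact h.choose_spec.2
      rw [← h5]
      refine Finset.card_le_card fun c hc => ?_
      rw [Finset.mem_filter]
      exact ⟨Finset.mem_biUnion.2 ⟨_, Finset.mem_univ _, hc⟩, (hRf1 _ c hc).2.2⟩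

end Pool.Agent.Lib.MP_bba6cc_lc
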