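import Pool.Agent.Lib.MP_bba6cc_lc.TA0
import Pool.Agent.Lib.MP_bba6cc_lc.TA1
import Pool.Agent.Lib.MP_bba6cc_lc.TA2a
import Pool.Agent.Lib.MP_bba6cc_lc.Form

/-!
# Small clusters
-/

namespace Pool.Agent.Lib.MP_bba6cc_lc

open Classical

variable {B : List BFun}

/-- mod 2 sum of the top level propositions -/
noncomputable def A2b_lin : Fm B → (ℕ → Prop) → ZMod 2
  | .prp p, v => toZ (decide (v p))
  | .nom _, _ => 0
  | .var _, _ => 0
  | .app i args, v => ∑ j, toZ (cB (B.get i) j) * A2b_lin (args j) v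
  | .dia _, _ => 0
  | .box _, _ => 0
  | .down _ ψ, v => A2b_lin ψ v

/-- matching of points -/
def A2b_Match {W : Type} (D : W → Prop) (E R' : Finset W) (c c' : W) : Prop :=
  (c ∈ E ∧ c' = c) ∨ ((D c ∧ c ∉ E) ∧ c' ∈ R')

theorem A2b_fresh {W : Type} {T : Finset W} {L : Finset (W × W)} (g : W × W → W)
    (h : L.card + 1 ≤ T.card) : ∃ d ∈ T, ∀ q ∈ L, g q ≠ d := by
  have h1 : (L.image g).card < T.card := lt_of_le_of_lt Finset.card_image_le (by omega)
  obtain ⟨d, hd, hd'⟩ := Finset.exists_mem_notMem_of_card_lt_card h1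
  refine ⟨d, hd, fun q hq hqd => hd' ?_⟩
  rw [← hqd]
  exact Finset.mem_image_of_mem g hq

theorem A2b_zz : ∀ x y z : ZMod 2, x + 0 = y → x + 1 = z → ∀ b, y = b ∨ z = b := by decide

theorem A2b_z2 : ∀ x : ZMod 2, x = 0 ∨ x = 1 := by decide

/-- the combinatorial heart of the invariance under `◇` and `□` -/
theorem A2b_back {W : Type} (D : W → Prop) (E R' : Finset W) (hE : ∀ c ∈ E, D c)
    (hR' : ∀ c ∈ R', D c ∧ c ∉ E) (n : ℕ) (f : W → ZMod 2)
    (hcl : ∀ b : ZMod 2, (∀ c, D c → c ∉ E → f c ≠ b) ∨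
      n + 1 ≤ (R'.filter fun c => f c = b).card)
    (h1 : (∀ c, D c → c ∈ E) ∨ n + 1 ≤ R'.card) (L : Finset (W × W)) (hL : L.card ≤ n)
    (hM : ∀ q ∈ L, A2b_Match D E R' q.1 q.2)
    (hinj : ∀ q ∈ L, ∀ q' ∈ L, (q.1 = q'.1 ↔ q.2 = q'.2)) (P P' : W → ZMod 2)
    (hP : ∀ d d', A2b_Match D E R' d d' → (∀ q ∈ L, (q.1 = d ↔ q.2 = d')) →
      P d + f d = P' d' + f d') (b : ZMod 2) :
    (∃ d, D d ∧ P d = b) ↔ (∃ d', (d' ∈ E ∨ d' ∈ R') ∧ P' d' = b) := by
  -- fresh pairs match
  have hfr : ∀ d d', (D d ∧ d ∉ E) → d' ∈ R' → (∀ q ∈ L, q.1 ≠ d) → (∀ q ∈ L, q.2 ≠ d') →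
      P d + f d = P' d' + f d' := by
    intro d d' hd hd' h2 h3
    exact hP d d' (Or.inr ⟨hd, hd'⟩) fun q hq => iff_of_false (h2 q hq) (h3 q hq)
  by_cases hA : (∃ c, (D c ∧ c ∉ E) ∧ f c = 0) ∧ (∃ c, (D c ∧ c ∉ E) ∧ f c = 1)
  · -- case A
    obtain ⟨⟨c0, hc0, hf0⟩, c1, hc1, hf1⟩ := hA
    have hc : ∀ b : ZMod 2, n + 1 ≤ (R'.filter fun c => f c = b).card := by
      intro b
      rcases hcl b with h | h
      · exfalso
        rcases A2b_z2 b with hb | hb
        · exact h c0 hc0.1 hc0.2 (hf0.trans hb.symm)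
        · exact h c1 hc1.1 hc1.2 (hf1.trans hb.symm)
      · exact h
    constructor
    · intro _
      obtain ⟨d, hd, hdf⟩ := A2b_fresh (T := R'.filter fun c => f c = 0) (L := L) Prod.fst
        (le_trans (by omega) (hc 0))
      obtain ⟨e0, he0, he0f⟩ := A2b_fresh (T := R'.filter fun c => f c = 0) (L := L) Prod.snd
        (le_trans (by omega) (hc 0))
      obtain ⟨e1, he1, he1f⟩ := A2b_fresh (T := R'.filter fun c => f c = 1) (L := L) Prod.snd
        (le_trans (by omega) (hc 1))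
      rw [Finset.mem_filter] at hd he0 he1
      have g0 := hfr d e0 (hR' d hd.1) he0.1 hdf he0f
      have g1 := hfr d e1 (hR' d hd.1) he1.1 hdf he1f
      rw [hd.2, he0.2] at g0
      rw [hd.2, he1.2] at g1
      have key : ∀ x y z : ZMod 2, x + 0 = y + 0 → x + 0 = z + 1 → ∀ b, y = b ∨ z = b := by
        decide
      rcases key _ _ _ g0 g1 b with h | h
      · exact ⟨e0, Or.inr he0.1, h⟩
      · exact ⟨e1, Or.inr he1.1, h⟩
    · intro _
      obtain ⟨d, hd, hdf⟩ := A2b_fresh (T := R'.filter fun c => f c = 0) (L := L) Prod.snd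
        (le_trans (by omega) (hc 0))
      obtain ⟨e0, he0, he0f⟩ := A2b_fresh (T := R'.filter fun c => f c = 0) (L := L) Prod.fst
        (le_trans (by omega) (hc 0))
      obtain ⟨e1, he1, he1f⟩ := A2b_fresh (T := R'.filter fun c => f c = 1) (L := L) Prod.fst
        (le_trans (by omega) (hc 1))
      rw [Finset.mem_filter] at hd he0 he1
      have g0 := hfr e0 d (hR' e0 he0.1) hd.1 he0f hdf
      have g1 := hfr e1 d (hR' e1 he1.1) hd.1 he1f hdf
      rw [hd.2, he0.2] at g0
      rw [hd.2, he1.2] at g1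
      have key : ∀ x y z : ZMod 2, y + 0 = x + 0 → z + 1 = x + 0 → ∀ b, y = b ∨ z = b := by
        decide
      rcases key _ _ _ g0 g1 b with h | h
      · exact ⟨e0, (hR' e0 he0.1).1, h⟩
      · exact ⟨e1, (hR' e1 he1.1).1, h⟩
  · -- case B
    have hconst : ∀ c d, (D c ∧ c ∉ E) → (D d ∧ d ∉ E) → f c = f d := by
      intro c d hc hd
      rcases A2b_z2 (f c) with h | h <;> rcases A2b_z2 (f d) with h' | h'
      · rw [h, h']
      · exact absurd ⟨⟨c, hc, h⟩, d, hd, h'⟩ hA
      · exact absurd ⟨⟨d, hd, h'⟩, c, hc, h⟩ hA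
      · rw [h, h']
    have hPP : ∀ d d', A2b_Match D E R' d d' → (∀ q ∈ L, (q.1 = d ↔ q.2 = d')) →
        P d = P' d' := by
      intro d d' h2 h3
      have h4 := hP d d' h2 h3
      have h5 : f d = f d' := by
        rcases h2 with ⟨_, h2⟩ | ⟨h2, h2'⟩
        · rw [h2]
        · exact hconst _ _ h2 (hR' _ h2')
      rw [h5] at h4
      exact add_right_cancel h4
    have hdiag : ∀ d ∈ E, ∀ q ∈ L, (q.1 = d ↔ q.2 = d) := by
      intro d hd q hq
      rcases hM q hq with ⟨_, h2⟩ | ⟨h2, h2'⟩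
      · rw [h2]
      · constructor
        · intro h; exact absurd hd (h ▸ h2.2)
        · intro h; exact absurd hd (h ▸ (hR' _ h2').2)
    constructor
    · rintro ⟨d, hd, hPd⟩
      by_cases hdE : d ∈ E
      · refine ⟨d, Or.inl hdE, ?_⟩
        rw [← hPP d d (Or.inl ⟨hdE, rfl⟩) (hdiag d hdE)]
        exact hPd
      · by_cases hv : ∃ q ∈ L, q.1 = d
        · obtain ⟨q, hq, hqd⟩ := hv
          have hm := hM q hq
          rw [hqd] at hm
          have hq2 : q.2 ∈ R' := by
            rcases hm with ⟨h2, _⟩ | ⟨_, h2⟩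
            · exact absurd h2 hdE
            · exact h2
          refine ⟨q.2, Or.inr hq2, ?_⟩
          rw [← hPP d q.2 hm (fun q' hq' => by rw [← hqd]; exact hinj q' hq' q hq)]
          exact hPd
        · push Not at hv
          have hcard : n + 1 ≤ R'.card := by
            rcases h1 with h1 | h1
            · exact absurd (h1 d hd) hdE
            · exact h1
          obtain ⟨d', hd', hfd'⟩ := A2b_fresh (T := R') (L := L) Prod.snd
            (le_trans (by omega) hcard)
          refine ⟨d', Or.inr hd', ?_⟩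
          rw [← hPP d d' (Or.inr ⟨⟨hd, hdE⟩, hd'⟩)
            (fun q hq => iff_of_false (hv q hq) (hfd' q hq))]
          exact hPd
    · rintro ⟨d', hd', hPd'⟩
      by_cases hdE : d' ∈ E
      · refine ⟨d', hE _ hdE, ?_⟩
        rw [hPP d' d' (Or.inl ⟨hdE, rfl⟩) (hdiag d' hdE)]
        exact hPd'
      · have hdR : d' ∈ R' := hd'.resolve_left hdE
        by_cases hv : ∃ q ∈ L, q.2 = d'
        · obtain ⟨q, hq, hqd⟩ := hv
          have hm := hM q hq
          rw [hqd] at hm
          have hq2 : D q.1 ∧ q.1 ∉ E := by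
            rcases hm with ⟨h2, h3⟩ | ⟨h2, _⟩
            · exact absurd (h3 ▸ h2) hdE
            · exact h2
          refine ⟨q.1, hq2.1, ?_⟩
          rw [hPP q.1 d' hm (fun q' hq' => by rw [← hqd]; exact hinj q' hq' q hq)]
          exact hPd'
        · push Not at hv
          have hcard : n + 1 ≤ R'.card := by
            rcases h1 with h1 | h1
            · exact absurd (h1 d' (hR' d' hdR).1) hdE
            · exact h1
          obtain ⟨d, hd, hfd⟩ := A2b_fresh (T := R') (L := L) Prod.fst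
            (le_trans (by omega) hcard)
          refine ⟨d, (hR' d hd).1, ?_⟩
          rw [hPP d d' (Or.inr ⟨hR' d hd, hdR⟩)
            (fun q hq => iff_of_false (hfd q hq) (hv q hq))]
          exact hPd'

/-- the variables of a formula -/
noncomputable def A2b_X (φ : Fm B) : Finset ℕ :=
  (((code φ).filter fun t => decide (t.1 = 2)).map fun t => t.2).toFinset

theorem A2b_mem_X (φ : Fm B) (x : ℕ) : x ∈ A2b_X φ ↔ (2, x) ∈ code φ := by
  unfold A2b_X
  simp only [List.mem_toFinset, List.mem_map, List.mem_filter, decide_eq_true_eq]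
  constructor
  · rintro ⟨⟨a, b⟩, ⟨h1, h2⟩, h3⟩
    simp only at h2 h3
    rw [← h2, ← h3]
    exact h1
  · intro h
    exact ⟨(2, x), ⟨h, rfl⟩, rfl⟩

theorem A2b_card_X (φ : Fm B) : (A2b_X φ).card ≤ flen φ := by
  unfold A2b_X flen
  refine (List.toFinset_card_le _).trans ?_
  rw [List.length_map]
  exact List.length_filter_le _ _

/-- matching environments -/
def A2b_Rel {W : Type} (D : W → Prop) (E R' : Finset W) (X : Finset ℕ)
    (env env' : List (ℕ × Option W)) : Prop :=
  (∀ x ∈ X, (lk env x = none ∧ lk env' x = none) ∨ (lk env x = some none ∧ lk env' x = some none) ∨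
    ∃ a a', lk env x = some (some a) ∧ lk env' x = some (some a') ∧ A2b_Match D E R' a a') ∧
  ∀ x ∈ X, ∀ y ∈ X, ∀ a a' b b', lk env x = some (some a) → lk env' x = some (some a') →
    lk env y = some (some b) → lk env' y = some (some b') → (a = b ↔ a' = b')

/-- matching points -/
def A2b_Pt {W : Type} (D : W → Prop) (E R' : Finset W) (X : Finset ℕ)
    (env env' : List (ℕ × Option W)) (c c' : W) : Prop :=
  A2b_Match D E R' c c' ∧ ∀ x ∈ X, ∀ a a', lk env x = some (some a) →
    lk env' x = some (some a') → (a = c ↔ a' = c')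

theorem A2b_L {W : Type} (g g' : ℕ → Option (Option W)) (X : Finset ℕ) :
    ∃ L : Finset (W × W), L.card ≤ X.card ∧
      ∀ q, q ∈ L ↔ ∃ x ∈ X, g x = some (some q.1) ∧ g' x = some (some q.2) := by
  induction X using Finset.induction_on with
  | empty => exact ⟨∅, by simp, by simp⟩
  | insert x X hx ih =>
    obtain ⟨L, hL, hL'⟩ := ih
    by_cases h : ∃ a a', g x = some (some a) ∧ g' x = some (some a')
    · obtain ⟨a, a', h1, h2⟩ := h
      refine ⟨insert (a, a') L, ?_, ?_⟩
      · rw [Finset.card_insert_of_notMem hx]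
        exact (Finset.card_insert_le _ _).trans (by omega)
      · intro q
        rw [Finset.mem_insert, hL']
        constructor
        · rintro (rfl | ⟨y, hy, h3⟩)
          · exact ⟨x, Finset.mem_insert_self _ _, h1, h2⟩
          · exact ⟨y, Finset.mem_insert_of_mem hy, h3⟩
        · rintro ⟨y, hy, h3, h4⟩
          rcases Finset.mem_insert.1 hy with rfl | hy
          · left
            rw [h1] at h3
            rw [h2] at h4
            simp only [Option.some.injEq] at h3 h4
            exact Prod.ext h3.symm h4.symm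
          · right
            exact ⟨y, hy, h3, h4⟩
    · refine ⟨L, ?_, ?_⟩
      · rw [Finset.card_insert_of_notMem hx]
        omega
      · intro q
        rw [hL']
        constructor
        · rintro ⟨y, hy, h3⟩
          exact ⟨y, Finset.mem_insert_of_mem hy, h3⟩
        · rintro ⟨y, hy, h3, h4⟩
          rcases Finset.mem_insert.1 hy with rfl | hy
          · exact absurd ⟨_, _, h3, h4⟩ h
          · exact ⟨y, hy, h3, h4⟩

theorem A2b_lk_cons {W : Type} (env : List (ℕ × Option W)) (x y : ℕ) (o : Option W) :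
    lk ((x, o) :: env) y = if x = y then some o else lk env y := by
  unfold lk
  by_cases h : x = y
  · simp [h]
  · simp [h]

theorem A2b_down {W : Type} {D : W → Prop} {E R' : Finset W} {X : Finset ℕ}
    {env env' : List (ℕ × Option W)} {c c' : W} (x : ℕ) (h : A2b_Rel D E R' X env env')
    (hp : A2b_Pt D E R' X env env' c c') :
    A2b_Rel D E R' X ((x, some c) :: env) ((x, some c') :: env') ∧
      A2b_Pt D E R' X ((x, some c) :: env) ((x, some c') :: env') c c' := by
  obtain ⟨h1, h2⟩ := h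
  obtain ⟨h3, h4⟩ := hp
  refine ⟨⟨?_, ?_⟩, h3, ?_⟩
  · intro y hy
    rw [A2b_lk_cons, A2b_lk_cons]
    by_cases hxy : x = y
    · rw [if_pos hxy, if_pos hxy]
      exact Or.inr (Or.inr ⟨c, c', rfl, rfl, h3⟩)
    · rw [if_neg hxy, if_neg hxy]
      exact h1 y hy
  · intro y hy z hz a a' b b'
    rw [A2b_lk_cons, A2b_lk_cons, A2b_lk_cons, A2b_lk_cons]
    by_cases hxy : x = y
    · by_cases hxz : x = z
      · rw [if_pos hxy, if_pos hxy, if_pos hxz, if_pos hxz]
        simp only [Option.some.injEq]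
        intro e1 e2 e3 e4
        rw [← e1, ← e2, ← e3, ← e4]
        simp
      · rw [if_pos hxy, if_pos hxy, if_neg hxz, if_neg hxz]
        simp only [Option.some.injEq]
        intro e1 e2 e3 e4
        rw [← e1, ← e2]
        have := h4 z hz b b' e3 e4
        rw [eq_comm, this, eq_comm]
    · by_cases hxz : x = z
      · rw [if_neg hxy, if_neg hxy, if_pos hxz, if_pos hxz]
        simp only [Option.some.injEq]
        intro e1 e2 e3 e4
        rw [← e3, ← e4]
        exact h4 y hy a a' e1 e2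
      · rw [if_neg hxy, if_neg hxy, if_neg hxz, if_neg hxz]
        exact h2 y hy z hz a a' b b'
  · intro y hy a a'
    rw [A2b_lk_cons, A2b_lk_cons]
    by_cases hxy : x = y
    · rw [if_pos hxy, if_pos hxy]
      simp only [Option.some.injEq]
      intro e1 e2
      rw [← e1, ← e2]
      simp
    · rw [if_neg hxy, if_neg hxy]
      exact h4 y hy a a'

theorem A2b_toZ_iff (P Q : Prop) (h : P ↔ Q) : toZ (decide P) = toZ (decide Q) := by
  simp only [h]

theorem A2b_toZ_eq {P Q : Prop} (h : toZ (decide P) = toZ (decide Q)) : P ↔ Q := by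
  by_cases hP : P <;> by_cases hQ : Q <;> simp_all [toZ]

theorem A2b_toZ_one {P : Prop} : toZ (decide P) = 1 ↔ P := by
  by_cases hP : P <;> simp_all [toZ]

theorem A2b_toZ_zero {P : Prop} : toZ (decide P) = 0 ↔ ¬ P := by
  by_cases hP : P <;> simp_all [toZ]

/-- names are preserved -/
theorem A2b_name {W : Type} {D : W → Prop} {E R' : Finset W}
    (hR' : ∀ c ∈ R', D c ∧ c ∉ E) {c c' : W} (h : A2b_Match D E R' c c') (Q : W → Prop)
    (hQ : ∀ c, D c → Q c → c ∈ E) : Q c ↔ Q c' := by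
  rcases h with ⟨_, h⟩ | ⟨h, h'⟩
  · rw [h]
  · constructor
    · intro hc
      exact absurd (hQ c h.1 hc) h.2
    · intro hc
      exact absurd (hQ c' (hR' _ h').1 hc) (hR' _ h').2

/-- invariance -/
theorem A2b_inv (hB : ∀ f ∈ B, IsAffine f) {W : Type} (S : Clus W) (φ : Fm B) (E R' : Finset W)
    (hE : ∀ c ∈ E, S.D c) (hR' : ∀ c ∈ R', S.D c ∧ c ∉ E)
    (hcl : ∀ ψ ∈ fsubs φ, ∀ b : ZMod 2,
      (∀ c, S.D c → c ∉ E → A2b_lin ψ (fun p => S.V p c) ≠ b) ∨
      flen φ + 1 ≤ (R'.filter fun c => A2b_lin ψ (fun p => S.V p c) = b).card)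
    (h1 : (∀ c, S.D c → c ∈ E) ∨ flen φ + 1 ≤ R'.card)
    (hn : ∀ i, (1, i) ∈ code φ → ∀ c, S.D c → S.nm i c → c ∈ E)
    (hf : ∀ x, (2, x) ∈ code φ → ∀ c, S.D c → S.fv x c → c ∈ E) (ψ : Fm B) :
    ψ ∈ fsubs φ → ∀ (env env' : List (ℕ × Option W)) (c c' : W) (pos : ℕ),
      A2b_Rel S.D E R' (A2b_X φ) env env' → A2b_Pt S.D E R' (A2b_X φ) env env' c c' →
      toZ (decide (Val S ψ env c pos)) + A2b_lin ψ (fun p => S.V p c)
        = toZ (decide (Val (S.res fun c => c ∈ E ∨ c ∈ R') ψ env' c' pos))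
          + A2b_lin ψ (fun p => S.V p c') := by
  -- the modal step
  have hmod : ∀ ψ : Fm B, ψ ∈ fsubs φ → (∀ (env env' : List (ℕ × Option W)) (c c' : W) (pos : ℕ),
      A2b_Rel S.D E R' (A2b_X φ) env env' → A2b_Pt S.D E R' (A2b_X φ) env env' c c' →
      toZ (decide (Val S ψ env c pos)) + A2b_lin ψ (fun p => S.V p c)
        = toZ (decide (Val (S.res fun c => c ∈ E ∨ c ∈ R') ψ env' c' pos))
          + A2b_lin ψ (fun p => S.V p c')) →
      ∀ (env env' : List (ℕ × Option W)) (pos : ℕ), A2b_Rel S.D E R' (A2b_X φ) env env' →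
      ∀ b : ZMod 2, (∃ d, S.D d ∧ toZ (decide (Val S ψ env d pos)) = b) ↔
        ∃ d', (d' ∈ E ∨ d' ∈ R') ∧
          toZ (decide (Val (S.res fun c => c ∈ E ∨ c ∈ R') ψ env' d' pos)) = b := by
    intro ψ hψ ih env env' pos hrel b
    obtain ⟨L, hL, hL'⟩ := A2b_L (lk env) (lk env') (A2b_X φ)
    refine A2b_back S.D E R' hE hR' (flen φ) (fun c => A2b_lin ψ (fun p => S.V p c)) (hcl ψ hψ) h1
      L (hL.trans (A2b_card_X φ)) ?_ ?_ (fun d => toZ (decide (Val S ψ env d pos)))
      (fun d' => toZ (decide (Val (S.res fun c => c ∈ E ∨ c ∈ R') ψ env' d' pos))) ?_ b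
    · intro q hq
      obtain ⟨x, hx, e1, e2⟩ := (hL' q).1 hq
      rcases hrel.1 x hx with h | h | ⟨a, a', h2, h3, h4⟩
      · rw [h.1] at e1; exact absurd e1 (by simp)
      · rw [h.1] at e1; exact absurd e1 (by simp)
      · rw [h2] at e1
        rw [h3] at e2
        simp only [Option.some.injEq] at e1 e2
        rw [← e1, ← e2]
        exact h4
    · intro q hq q' hq'
      obtain ⟨x, hx, e1, e2⟩ := (hL' q).1 hq
      obtain ⟨y, hy, e3, e4⟩ := (hL' q').1 hq'
      exact hrel.2 x hx y hy _ _ _ _ e1 e2 e3 e4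
    · intro d d' hm hq
      refine ih env env' d d' pos hrel ⟨hm, ?_⟩
      intro x hx a a' e1 e2
      exact hq (a, a') ((hL' (a, a')).2 ⟨x, hx, e1, e2⟩)
  induction ψ with
  | prp p =>
    intro hψ env env' c c' pos hrel hpt
    simp only [Val, A2b_lin, Clus.res]
    have key : ∀ a b : ZMod 2, a + a = b + b := by decide
    exact key _ _
  | nom i =>
    intro hψ env env' c c' pos hrel hpt
    simp only [Val, A2b_lin, Clus.res, add_zero]
    refine A2b_toZ_iff _ _ (A2b_name hR' hpt.1 (fun c => S.nm i c) (hn i ?_))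
    exact code_fsubs φ _ hψ _ (by simp [code])
  | var x =>
    intro hψ env env' c c' pos hrel hpt
    have hx : (2, x) ∈ code φ := code_fsubs φ _ hψ _ (by simp [code])
    have hxX : x ∈ A2b_X φ := (A2b_mem_X φ x).2 hx
    simp only [Val, A2b_lin, Clus.res, add_zero]
    refine A2b_toZ_iff _ _ ?_
    rcases hrel.1 x hxX with h | h | ⟨a, a', h2, h3, h4⟩
    · rw [h.1, h.2]
      exact A2b_name hR' hpt.1 (fun c => S.fv x c) (hf x hx)
    · rw [h.1, h.2]
    · rw [h2, h3]
      exact hpt.2 x hxX a a' h2 h3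
  | app i args ih =>
    intro hψ env env' c c' pos hrel hpt
    have haff : IsAffine (B.get i) := hB _ (List.get_mem _ _)
    have hsub : ∀ j, args j ∈ fsubs φ := by
      intro j
      refine fsubs_trans φ _ _ hψ ?_
      simp only [fsubs, List.mem_cons, List.mem_flatMap]
      exact Or.inr ⟨j, List.mem_finRange _, fsubs_self _⟩
    have hval : ∀ (S' : Clus W) (env : List (ℕ × Option W)) (c : W),
        toZ (decide (Val S' (.app i args) env c pos)) = toZ (c0B (B.get i)) +
          ∑ j, toZ (cB (B.get i) j) *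
            toZ (decide (Val S' (args j) env c (pos + 1 + offs args j))) := by
      intro S' env c
      rw [← affine_eq haff]
      congr 1
      simp only [Val]
      exact Bool.decide_eq_true
    rw [hval, hval]
    simp only [A2b_lin]
    rw [add_assoc, add_assoc, ← Finset.sum_add_distrib, ← Finset.sum_add_distrib]
    congr 1
    refine Finset.sum_congr rfl fun j _ => ?_
    rw [← mul_add, ← mul_add, ih j (hsub j) env env' c c' _ hrel hpt]
  | dia ψ ih =>
    intro hψ env env' c c' pos hrel hpt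
    have hsub : ψ ∈ fsubs φ := by
      refine fsubs_trans φ _ _ hψ ?_
      simp only [fsubs, List.mem_cons]
      exact Or.inr (fsubs_self _)
    simp only [A2b_lin, add_zero]
    refine A2b_toZ_iff _ _ ?_
    have := hmod ψ hsub (ih hsub) env env' (pos + 1) hrel 1
    simp only [A2b_toZ_one] at this
    simp only [Val]
    rw [this]
    rfl
  | box ψ ih =>
    intro hψ env env' c c' pos hrel hpt
    have hsub : ψ ∈ fsubs φ := by
      refine fsubs_trans φ _ _ hψ ?_
      simp only [fsubs, List.mem_cons]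
      exact Or.inr (fsubs_self _)
    simp only [A2b_lin, add_zero]
    refine A2b_toZ_iff _ _ ?_
    have := hmod ψ hsub (ih hsub) env env' (pos + 1) hrel 0
    simp only [A2b_toZ_zero] at this
    have h2 : (∀ d, S.D d → Val S ψ env d (pos + 1)) ↔
        ∀ d, (d ∈ E ∨ d ∈ R') → Val (S.res fun c => c ∈ E ∨ c ∈ R') ψ env' d (pos + 1) := by
      have := not_congr this
      push Not at this
      exact this
    simp only [Val]
    rw [h2]
    rfl
  | down x ψ ih =>
    intro hψ env env' c c' pos hrel hpt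
    have hsub : ψ ∈ fsubs φ := by
      refine fsubs_trans φ _ _ hψ ?_
      simp only [fsubs, List.mem_cons]
      exact Or.inr (fsubs_self _)
    obtain ⟨h2, h3⟩ := A2b_down x hrel hpt
    simp only [A2b_lin, Val]
    exact ih hsub _ _ c c' (pos + 1) h2 h3

/-- the points with names -/
theorem A2b_base {W : Type} (D : W → Prop) {ι : Type} (l : List ι) (nmd : ι → W → Prop)
    (h : ∀ i ∈ l, ∀ c d, D c → D d → nmd i c → nmd i d → c = d) :
    ∃ T : Finset W, T.card ≤ l.length ∧ (∀ c ∈ T, D c) ∧ ∀ i ∈ l, ∀ c, D c → nmd i c → c ∈ T := by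
  induction l with
  | nil => exact ⟨∅, by simp, by simp, by simp⟩
  | cons i l ih =>
    obtain ⟨T, hT, hTD, hTn⟩ := ih (fun j hj => h j (List.mem_cons_of_mem _ hj))
    by_cases hi : ∃ c, D c ∧ nmd i c
    · obtain ⟨c, hc, hic⟩ := hi
      refine ⟨insert c T, (Finset.card_insert_le _ _).trans (by simpa using hT), ?_, ?_⟩
      · intro d hd
        rcases Finset.mem_insert.1 hd with rfl | hd
        · exact hc
        · exact hTD d hd
      · intro j hj d hd hjd
        rcases List.mem_cons.1 hj with rfl | hj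
        · rw [h j (List.mem_cons_self) d c hd hc hjd hic]
          exact Finset.mem_insert_self _ _
        · exact Finset.mem_insert_of_mem (hTn j hj d hd hjd)
    · refine ⟨T, by simp only [List.length_cons]; omega, hTD, ?_⟩
      intro j hj d hd hjd
      rcases List.mem_cons.1 hj with rfl | hj
      · exact absurd ⟨d, hd, hjd⟩ hi
      · exact hTn j hj d hd hjd

theorem A2b_lk_mem {W : Type} (env : List (ℕ × Option W)) (x : ℕ) (o : Option W)
    (h : lk env x = some o) : ∃ p ∈ env, p.2 = o := by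
  unfold lk at h
  rw [Option.map_eq_some_iff] at h
  obtain ⟨p, hp, hpo⟩ := h
  exact ⟨p, List.mem_of_find?_eq_some hp, hpo⟩

theorem small (hB : ∀ f ∈ B, IsAffine f) {W : Type} (S : Clus W) (φ : Fm B)
    (hn : ∀ i, (1, i) ∈ code φ → ∀ c d, S.D c → S.D d → S.nm i c → S.nm i d → c = d)
    (hf : ∀ x, (2, x) ∈ code φ → ∀ c d, S.D c → S.D d → S.fv x c → S.fv x d → c = d)
    (Kp : Finset W) (hK : ∀ c ∈ Kp, S.D c) :
    ∃ D' : Finset W, Kp ⊆ D' ∧ (∀ c ∈ D', S.D c) ∧ D'.card ≤ Kp.card + 4 * (flen φ + 1) ^ 2 ∧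
      ∀ ψ ∈ fsubs φ, ∀ (env : List (ℕ × Option W)) (c : W) (pos : ℕ), c ∈ D' →
        (∀ p ∈ env, ∀ a, p.2 = some a → a ∈ D') →
        (Val (S.res fun c => c ∈ D') ψ env c pos ↔ Val S ψ env c pos) := by
  obtain ⟨T, hT, hTD, hTn⟩ := A2b_base S.D (code φ)
    (fun t c => (t.1 = 1 ∧ S.nm t.2 c) ∨ (t.1 = 2 ∧ S.fv t.2 c)) (by
      rintro ⟨k, i⟩ hi c d hc hd h1 h2
      simp only at h1 h2
      rcases h1 with ⟨h1, h1'⟩ | ⟨h1, h1'⟩
      · rcases h2 with ⟨h2, h2'⟩ | ⟨h2, h2'⟩
        · rw [h1] at hi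
          exact hn i hi c d hc hd h1' h2'
        · omega
      · rcases h2 with ⟨h2, h2'⟩ | ⟨h2, h2'⟩
        · omega
        · rw [h1] at hi
          exact hf i hi c d hc hd h1' h2')
  obtain ⟨E, R', hbE, hE, hR', hEc, hRc, hcl⟩ := small_select S.D
    ((fun _ => 1) :: (fsubs φ).map (fun ψ c => A2b_lin ψ (fun p => S.V p c))) (flen φ) (Kp ∪ T)
    (by
      intro c hc
      rcases Finset.mem_union.1 hc with hc | hc
      · exact hK c hc
      · exact hTD c hc)
  have hlen : ((fun _ => 1 : W → ZMod 2) ::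
      (fsubs φ).map (fun ψ c => A2b_lin ψ (fun p => S.V p c))).length = flen φ + 1 := by
    rw [List.length_cons, List.length_map, fsubs_length]
  rw [hlen] at hEc hRc
  have hcl2 : ∀ ψ ∈ fsubs φ, ∀ b : ZMod 2,
      (∀ c, S.D c → c ∉ E → A2b_lin ψ (fun p => S.V p c) ≠ b) ∨
      flen φ + 1 ≤ (R'.filter fun c => A2b_lin ψ (fun p => S.V p c) = b).card := by
    intro ψ hψ b
    exact hcl _ (List.mem_cons_of_mem _ (List.mem_map.2 ⟨ψ, hψ, rfl⟩)) b
  have h1 : (∀ c, S.D c → c ∈ E) ∨ flen φ + 1 ≤ R'.card := by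
    rcases hcl _ (List.mem_cons_self) 1 with h | h
    · left
      intro c hc
      by_contra hcE
      exact h c hc hcE rfl
    · right
      exact h.trans (Finset.card_filter_le _ _)
  refine ⟨E ∪ R', ?_, ?_, ?_, ?_⟩
  · exact (Finset.subset_union_left).trans (hbE.trans Finset.subset_union_left)
  · intro c hc
    rcases Finset.mem_union.1 hc with hc | hc
    · exact hE c hc
    · exact (hR' c hc).1
  · have h2 : (E ∪ R').card ≤ E.card + R'.card := Finset.card_union_le _ _
    have h3 : (Kp ∪ T).card ≤ Kp.card + T.card := Finset.card_union_le _ _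
    have h4 : T.card ≤ flen φ := hT
    have h5 : E.card + R'.card ≤ (Kp.card + flen φ) + 2 * (flen φ + 1) * flen φ
        + 2 * (flen φ + 1) * (flen φ + 1) := by omega
    refine h2.trans (h5.trans ?_)
    nlinarith
  · intro ψ hψ env c pos hc henv
    have hmatch : ∀ a ∈ E ∪ R', A2b_Match S.D E R' a a := by
      intro a ha
      rcases Finset.mem_union.1 ha with ha | ha
      · exact Or.inl ⟨ha, rfl⟩
      · exact Or.inr ⟨hR' a ha, ha⟩
    have hval : ∀ x a, lk env x = some (some a) → a ∈ E ∪ R' := by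
      intro x a hx
      obtain ⟨p, hp, hpa⟩ := A2b_lk_mem env x _ hx
      exact henv p hp a hpa
    have key := A2b_inv hB S φ E R' hE hR' hcl2 h1
      (fun i hi c hc hic => hbE (Finset.mem_union_right _
        (hTn (1, i) hi c hc (Or.inl ⟨rfl, hic⟩))))
      (fun x hx c hc hxc => hbE (Finset.mem_union_right _
        (hTn (2, x) hx c hc (Or.inr ⟨rfl, hxc⟩))))
      ψ hψ env env c c pos ⟨?_, ?_⟩ ⟨hmatch c hc, ?_⟩
    · have h2 : (S.res fun c => c ∈ E ∪ R') = S.res fun c => c ∈ E ∨ c ∈ R' := by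
        simp only [Finset.mem_union]
      rw [h2]
      exact (A2b_toZ_eq (add_right_cancel key)).symm
    · intro x _
      rcases hx : lk env x with _ | _ | a
      · exact Or.inl ⟨rfl, rfl⟩
      · exact Or.inr (Or.inl ⟨rfl, rfl⟩)
      · exact Or.inr (Or.inr ⟨a, a, rfl, rfl, hmatch a (hval x a hx)⟩)
    · intro x _ y _ a a' b b' e1 e2 e3 e4
      rw [e1] at e2
      rw [e3] at e4
      simp only [Option.some.injEq] at e2 e4
      rw [e2, e4]
    · intro x _ a a' e1 e2
      rw [e1] at e2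
      simp only [Option.some.injEq] at e2
      rw [e2]

/-- Small copy on an initial segment of `ℕ`. -/
theorem small_copy (hB : ∀ f ∈ B, IsAffine f) {W : Type} (S : Clus W) (φ : Fm B)
    (hn : ∀ i, (1, i) ∈ code φ → ∀ c d, S.D c → S.D d → S.nm i c → S.nm i d → c = d)
    (hf : ∀ x, (2, x) ∈ code φ → ∀ c d, S.D c → S.D d → S.fv x c → S.fv x d → c = d)
    (Kp : Finset W) (hne : Kp.Nonempty) (hK : ∀ c ∈ Kp, S.D c) :
    ∃ (m : ℕ) (q : ℕ → W), m ≤ Kp.card + 4 * (flen φ + 1) ^ 2 ∧
      (∀ i < m, ∀ j < m, q i = q j → i = j) ∧ (∀ j < m, S.D (q j)) ∧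
      (∀ c ∈ Kp, ∃ j < m, q j = c) ∧
      (∀ j < m, (Val (S.pull q m) φ [] j 0 ↔ Val S φ [] (q j) 0)) ∧
      ∀ e ∈ ents φ [] 0, ∀ j < m, (Val (S.pull q m) e.body (dead ℕ e.bs) j (e.pos + 1) ↔
        Val S e.body (dead W e.bs) (q j) (e.pos + 1)) := by
  obtain ⟨D', hKD, hD', hcard, hval⟩ := small hB S φ hn hf Kp hK
  obtain ⟨w, hw⟩ := hne
  -- enumeration
  let q : ℕ → W := fun j => if h : j < D'.card then (D'.equivFin.symm ⟨j, h⟩ : W) else w
  have hq : ∀ j (h : j < D'.card), q j = (D'.equivFin.symm ⟨j, h⟩ : W) := fun j h => dif_pos h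
  have hqD : ∀ j < D'.card, q j ∈ D' := by
    intro j hj
    rw [hq j hj]
    exact (D'.equivFin.symm ⟨j, hj⟩).2
  have hinj : ∀ i < D'.card, ∀ j < D'.card, q i = q j → i = j := by
    intro i hi j hj h
    rw [hq i hi, hq j hj] at h
    have h2 := D'.equivFin.symm.injective (Subtype.ext h)
    simpa using h2
  have hsurj : ∀ c ∈ D', ∃ j < D'.card, q j = c := by
    intro c hc
    refine ⟨D'.equivFin ⟨c, hc⟩, (D'.equivFin ⟨c, hc⟩).2, ?_⟩
    rw [hq _ (D'.equivFin ⟨c, hc⟩).2]
    simp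
  have hpull : ∀ ψ : Fm B, ∀ (env : List (ℕ × Option ℕ)) (j pos : ℕ), j < D'.card →
      (∀ p ∈ env, ∀ a, p.2 = some a → a < D'.card) →
      (Val (S.pull q D'.card) ψ env j pos ↔
        Val (S.res fun c => c ∈ D') ψ (env.map fun p => (p.1, p.2.map q)) (q j) pos) := by
    intro ψ
    have h := Val_pull (S.res fun c => c ∈ D') q D'.card hinj (by
      intro c
      constructor
      · intro hc
        exact hsurj c hc
      · rintro ⟨j, hj, rfl⟩
        exact hqD j hj) ψ
    exact h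
  have hcomb : ∀ ψ ∈ fsubs φ, ∀ (bs : List ℕ) (j pos : ℕ), j < D'.card →
      (Val (S.pull q D'.card) ψ (dead ℕ bs) j pos ↔ Val S ψ (dead W bs) (q j) pos) := by
    intro ψ hψ bs j pos hj
    rw [hpull ψ (dead ℕ bs) j pos hj ?_]
    · have e : (dead ℕ bs).map (fun p => (p.1, p.2.map q)) = dead W bs := by
        unfold dead
        rw [List.map_map]
        rfl
      rw [e]
      refine hval ψ hψ _ _ _ (hqD j hj) ?_
      intro p hp a ha
      unfold dead at hp
      obtain ⟨x, _, rfl⟩ := List.mem_map.1 hp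
      exact absurd ha (by simp)
    · intro p hp a ha
      unfold dead at hp
      obtain ⟨x, _, rfl⟩ := List.mem_map.1 hp
      exact absurd ha (by simp)
  refine ⟨D'.card, q, hcard, hinj, fun j hj => hD' _ (hqD j hj), fun c hc => hsurj c (hKD hc),
    ?_, ?_⟩
  · intro j hj
    exact hcomb φ (fsubs_self φ) [] j 0 hj
  · intro e he j hj
    exact hcomb e.body (ents_body φ [] 0 e he).1 e.bs j (e.pos + 1) hj

end Pool.Agent.Lib.MP_bba6cc_lc
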