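import Pool.Agent.Lib.MP_bba6cc_lc.TA0
import Pool.Agent.Lib.MP_bba6cc_lc.TA1

/-!
# Truth in a model and in its clusters
-/

namespace Pool.Agent.Lib.MP_bba6cc_lc

open Classical

variable {B : List BFun}

theorem holds_agree (M : Model) (U : M.W → Prop) (hU : ∀ v, U v → ∀ u, M.R v u → U u) (ψ : Fm B) :
    ∀ (g g' : ℕ → M.W) (v : M.W), U v → (∀ x, g x = g' x ∨ (¬ U (g x) ∧ ¬ U (g' x))) →
      (Holds M ψ g v ↔ Holds M ψ g' v) := by
  induction ψ with
  | prp p => intro g g' v _ _; exact Iff.rfl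
  | nom i => intro g g' v _ _; exact Iff.rfl
  | var x =>
    intro g g' v hv h
    show g x = v ↔ g' x = v
    rcases h x with h | ⟨h1, h2⟩
    · rw [h]
    · constructor
      · rintro rfl; exact absurd hv h1
      · rintro rfl; exact absurd hv h2
  | app i args ih =>
    intro g g' v hv h
    show ((B.get i).fn fun j => decide (Holds M (args j) g v)) = true ↔
      ((B.get i).fn fun j => decide (Holds M (args j) g' v)) = true
    have key : ∀ j, (Holds M (args j) g v ↔ Holds M (args j) g' v) := fun j => ih j g g' v hv h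
    simp only [key]
  | dia ψ ih =>
    intro g g' v hv h
    show (∃ u, M.R v u ∧ Holds M ψ g u) ↔ (∃ u, M.R v u ∧ Holds M ψ g' u)
    constructor
    · rintro ⟨u, h1, h2⟩; exact ⟨u, h1, (ih g g' u (hU v hv u h1) h).1 h2⟩
    · rintro ⟨u, h1, h2⟩; exact ⟨u, h1, (ih g g' u (hU v hv u h1) h).2 h2⟩
  | box ψ ih =>
    intro g g' v hv h
    show (∀ u, M.R v u → Holds M ψ g u) ↔ (∀ u, M.R v u → Holds M ψ g' u)
    constructor
    · intro h1 u h2; exact (ih g g' u (hU v hv u h2) h).1 (h1 u h2)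
    · intro h1 u h2; exact (ih g g' u (hU v hv u h2) h).2 (h1 u h2)
  | down x ψ ih =>
    intro g g' v hv h
    show Holds M ψ (Function.update g x v) v ↔ Holds M ψ (Function.update g' x v) v
    refine ih _ _ v hv ?_
    intro y
    by_cases hy : y = x
    · subst hy; left; simp
    · rw [Function.update_of_ne hy, Function.update_of_ne hy]; exact h y

theorem A3_lk_dead (W : Type) (bs : List ℕ) (x : ℕ) :
    lk (dead W bs) x = if x ∈ bs then some none else none := by
  induction bs with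
  | nil => simp [lk, dead]
  | cons b bs ih =>
    unfold lk dead at ih ⊢
    by_cases hb : b = x
    · subst hb; simp
    · rw [List.map_cons, List.find?_cons_of_neg (by simpa using hb), ih]
      have : (x ∈ b :: bs) ↔ x ∈ bs := by
        simp [Ne.symm (hb : b ≠ x)]
      simp only [this]

theorem A3_lk_cons {W : Type} (env : List (ℕ × Option W)) (x : ℕ) (c : Option W) (y : ℕ) :
    lk ((x, c) :: env) y = if x = y then some c else lk env y := by
  unfold lk
  by_cases h : x = y
  · subst h; simp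
  · rw [List.find?_cons_of_neg (by simpa using h)]
    simp [h]

/-- assignment and environment fit -/
def A3_Env {W : Type} (D Lt : W → Prop) (g0 : ℕ → W) (bs : List ℕ) (g : ℕ → W)
    (env : List (ℕ × Option W)) : Prop :=
  ∀ x, (lk env x = none → x ∉ bs ∧ g x = g0 x) ∧
    (lk env x = some none → x ∈ bs ∧ ¬ D (g x) ∧ ¬ Lt (g x)) ∧
    ∀ a, lk env x = some (some a) → x ∈ bs ∧ D a ∧ g x = a

theorem A3_Env_down {W : Type} (D Lt : W → Prop) (g0 : ℕ → W) {bs : List ℕ} {g : ℕ → W}
    {env : List (ℕ × Option W)} (h : A3_Env D Lt g0 bs g env) (x : ℕ) (c : W) (hc : D c) :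
    A3_Env D Lt g0 (x :: bs) (Function.update g x c) ((x, some c) :: env) := by
  intro y
  rw [A3_lk_cons]
  by_cases hxy : x = y
  · subst hxy
    rw [if_pos rfl]
    refine ⟨fun h => ?_, fun h => ?_, ?_⟩
    · exact absurd h (by simp)
    · exact absurd h (by simp)
    intro c' h
    simp only [Option.some.injEq] at h
    subst h
    exact ⟨by simp, hc, by simp⟩
  · rw [if_neg hxy]
    obtain ⟨h1, h2, h3⟩ := h y
    have hy : Function.update g x c y = g y :=
      Function.update_of_ne (fun h => hxy h.symm) _ _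
    rw [hy]
    refine ⟨?_, ?_, ?_⟩
    · intro h
      refine ⟨?_, (h1 h).2⟩
      simp only [List.mem_cons, not_or]
      exact ⟨fun h' => hxy h'.symm, (h1 h).1⟩
    · intro h
      exact ⟨List.mem_cons_of_mem _ (h2 h).1, (h2 h).2⟩
    · intro c' h
      obtain ⟨e1, e2, e3⟩ := h3 c' h
      exact ⟨List.mem_cons_of_mem _ e1, e2, e3⟩

/-- at later worlds the bound variables are dead -/
theorem A3_later {W : Type} (D Lt : W → Prop) (h3 : ∀ v, Lt v → ¬ D v) (g0 : ℕ → W) (δ : W)
    (hδ : ¬ D δ ∧ ¬ Lt δ) {bs : List ℕ} {g : ℕ → W} {env : List (ℕ × Option W)}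
    (h : A3_Env D Lt g0 bs g env) (x : ℕ) :
    g x = gd g0 δ bs x ∨ (¬ Lt (g x) ∧ ¬ Lt (gd g0 δ bs x)) := by
  obtain ⟨e1, e2, e3⟩ := h x
  rcases hlk : lk env x with _ | o
  · left
    rw [gd, if_neg (e1 hlk).1]
    exact (e1 hlk).2
  · right
    rcases o with _ | a
    · rw [gd, if_pos (e2 hlk).1]
      exact ⟨(e2 hlk).2.2, hδ.2⟩
    · rw [gd, if_pos (e3 a hlk).1, (e3 a hlk).2.2]
      exact ⟨fun h => h3 _ h (e3 a hlk).2.1, hδ.2⟩

theorem A3_main (M : Model) (S : Clus M.W) (Lt : M.W → Prop) (g0 : ℕ → M.W) (δ : M.W) (φ : Fm B)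
    (h1 : ∀ c, S.D c → ∀ v, M.R c v ↔ ((S.refl ∧ S.D v) ∨ Lt v))
    (h2 : ∀ v, Lt v → ∀ u, M.R v u → Lt u) (h3 : ∀ v, Lt v → ¬ S.D v)
    (hδ : ¬ S.D δ ∧ ¬ Lt δ)
    (hV : ∀ p c, S.D c → (S.V p c ↔ M.V p c))
    (hn : ∀ i, (1, i) ∈ code φ → ∀ c, S.D c → (S.nm i c ↔ M.N i = c))
    (hf : ∀ x, (2, x) ∈ code φ → ∀ c, S.D c → (S.fv x c ↔ g0 x = c))
    (hZ : ∀ e ∈ ents φ [] 0, (S.Z e.pos ↔
      ∃ v, Lt v ∧ (Holds M e.body (gd g0 δ e.bs) v ↔ e.neg = false))) (ψ : Fm B) :
    ∀ (bs : List ℕ) (pos : ℕ) (g : ℕ → M.W) (env : List (ℕ × Option M.W)) (c : M.W),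
      (∀ e ∈ ents ψ bs pos, e ∈ ents φ [] 0) → (∀ t ∈ code ψ, t ∈ code φ) → S.D c →
      A3_Env S.D Lt g0 bs g env → (Holds M ψ g c ↔ Val S ψ env c pos) := by
  induction ψ with
  | prp p =>
    intro bs pos g env c hE hC hc henv
    exact (hV p c hc).symm
  | nom i =>
    intro bs pos g env c hE hC hc henv
    exact (hn i (hC _ (by simp [code])) c hc).symm
  | var x =>
    intro bs pos g env c hE hC hc henv
    obtain ⟨e1, e2, e3⟩ := henv x
    show g x = c ↔ Val S (Fm.var x : Fm B) env c pos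
    rcases hlk : lk env x with _ | o
    · have hVal : Val S (Fm.var x : Fm B) env c pos = S.fv x c := by
        simp only [Val, hlk]
      rw [hVal, (e1 hlk).2]
      exact (hf x (hC _ (by simp [code])) c hc).symm
    · rcases o with _ | a
      · have hVal : Val S (Fm.var x : Fm B) env c pos = False := by
          simp only [Val, hlk]
        rw [hVal]
        constructor
        · intro h; exact (e2 hlk).2.1 (h ▸ hc)
        · intro h; exact h.elim
      · have hVal : Val S (Fm.var x : Fm B) env c pos = (a = c) := by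
          simp only [Val, hlk]
        rw [hVal, (e3 a hlk).2.2]
  | app i args ih =>
    intro bs pos g env c hE hC hc henv
    have key : ∀ j, (Holds M (args j) g c ↔ Val S (args j) env c (pos + 1 + offs args j)) := by
      intro j
      refine ih j bs _ g env c ?_ ?_ hc henv
      · intro e he
        apply hE
        simp only [ents, List.mem_flatMap]
        exact ⟨j, List.mem_finRange j, he⟩
      · intro t ht
        apply hC
        simp only [code, List.mem_cons, List.mem_flatMap]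
        exact Or.inr ⟨j, List.mem_finRange j, ht⟩
    show ((B.get i).fn fun j => decide (Holds M (args j) g c)) = true ↔
      ((B.get i).fn fun j => decide (Val S (args j) env c (pos + 1 + offs args j))) = true
    simp only [key]
  | dia ψ ih =>
    intro bs pos g env c hE hC hc henv
    have hE' : ∀ e ∈ ents ψ bs (pos + 1), e ∈ ents φ [] 0 := by
      intro e he; apply hE; simp only [ents, List.mem_cons]; exact Or.inr he
    have he0 : (⟨pos, bs, false, ψ⟩ : Ent B) ∈ ents φ [] 0 := by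
      apply hE; simp only [ents, List.mem_cons]; exact Or.inl trivial
    have hC' : ∀ t ∈ code ψ, t ∈ code φ := by
      intro t ht; apply hC; simp only [code, List.mem_cons]; exact Or.inr ht
    have hag : ∀ v, Lt v → (Holds M ψ g v ↔ Holds M ψ (gd g0 δ bs) v) := fun v hv =>
      holds_agree M Lt h2 ψ g _ v hv (A3_later S.D Lt h3 g0 δ hδ henv)
    have hz := hZ _ he0
    show (∃ v, M.R c v ∧ Holds M ψ g v) ↔
      (S.Z pos ∨ (S.refl ∧ ∃ d, S.D d ∧ Val S ψ env d (pos + 1)))
    constructor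
    · rintro ⟨v, hv, hh⟩
      rcases (h1 c hc v).1 hv with ⟨hr, hd⟩ | hlt
      · exact Or.inr ⟨hr, v, hd, (ih bs (pos + 1) g env v hE' hC' hd henv).1 hh⟩
      · left
        exact hz.2 ⟨v, hlt, by simpa using (hag v hlt).1 hh⟩
    · rintro (hZ' | ⟨hr, d, hd, hval⟩)
      · obtain ⟨v, hlt, hh⟩ := hz.1 hZ'
        have hh' : Holds M ψ (gd g0 δ bs) v := by simpa using hh
        exact ⟨v, (h1 c hc v).2 (Or.inr hlt), (hag v hlt).2 hh'⟩
      · exact ⟨d, (h1 c hc d).2 (Or.inl ⟨hr, hd⟩),
          (ih bs (pos + 1) g env d hE' hC' hd henv).2 hval⟩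
  | box ψ ih =>
    intro bs pos g env c hE hC hc henv
    have hE' : ∀ e ∈ ents ψ bs (pos + 1), e ∈ ents φ [] 0 := by
      intro e he; apply hE; simp only [ents, List.mem_cons]; exact Or.inr he
    have he0 : (⟨pos, bs, true, ψ⟩ : Ent B) ∈ ents φ [] 0 := by
      apply hE; simp only [ents, List.mem_cons]; exact Or.inl trivial
    have hC' : ∀ t ∈ code ψ, t ∈ code φ := by
      intro t ht; apply hC; simp only [code, List.mem_cons]; exact Or.inr ht
    have hag : ∀ v, Lt v → (Holds M ψ g v ↔ Holds M ψ (gd g0 δ bs) v) := fun v hv =>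
      holds_agree M Lt h2 ψ g _ v hv (A3_later S.D Lt h3 g0 δ hδ henv)
    have hz := hZ _ he0
    show (∀ v, M.R c v → Holds M ψ g v) ↔
      (¬ S.Z pos ∧ (S.refl → ∀ d, S.D d → Val S ψ env d (pos + 1)))
    constructor
    · intro hall
      refine ⟨?_, ?_⟩
      · intro hZ'
        obtain ⟨v, hlt, hh⟩ := hz.1 hZ'
        have hh' : ¬ Holds M ψ (gd g0 δ bs) v := by simpa using hh
        exact hh' ((hag v hlt).1 (hall v ((h1 c hc v).2 (Or.inr hlt))))
      · intro hr d hd
        exact (ih bs (pos + 1) g env d hE' hC' hd henv).1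
          (hall d ((h1 c hc d).2 (Or.inl ⟨hr, hd⟩)))
    · rintro ⟨hZ', hr'⟩ v hv
      rcases (h1 c hc v).1 hv with ⟨hr, hd⟩ | hlt
      · exact (ih bs (pos + 1) g env v hE' hC' hd henv).2 (hr' hr v hd)
      · by_contra hh
        apply hZ'
        refine hz.2 ⟨v, hlt, ?_⟩
        have : ¬ Holds M ψ (gd g0 δ bs) v := fun h => hh ((hag v hlt).2 h)
        simpa using this
  | down x ψ ih =>
    intro bs pos g env c hE hC hc henv
    have hC' : ∀ t ∈ code ψ, t ∈ code φ := by
      intro t ht; apply hC; simp only [code, List.mem_cons]; exact Or.inr ht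
    exact ih (x :: bs) (pos + 1) _ _ c hE hC' hc (A3_Env_down S.D Lt g0 henv x c hc)

theorem holds_val (M : Model) (S : Clus M.W) (Lt : M.W → Prop) (g0 : ℕ → M.W) (δ : M.W) (φ : Fm B)
    (h1 : ∀ c, S.D c → ∀ v, M.R c v ↔ ((S.refl ∧ S.D v) ∨ Lt v))
    (h2 : ∀ v, Lt v → ∀ u, M.R v u → Lt u) (h3 : ∀ v, Lt v → ¬ S.D v)
    (hδ : ¬ S.D δ ∧ ¬ Lt δ)
    (hV : ∀ p c, S.D c → (S.V p c ↔ M.V p c))
    (hn : ∀ i, (1, i) ∈ code φ → ∀ c, S.D c → (S.nm i c ↔ M.N i = c))
    (hf : ∀ x, (2, x) ∈ code φ → ∀ c, S.D c → (S.fv x c ↔ g0 x = c))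
    (hZ : ∀ e ∈ ents φ [] 0, (S.Z e.pos ↔
      ∃ v, Lt v ∧ (Holds M e.body (gd g0 δ e.bs) v ↔ e.neg = false))) :
    (∀ c, S.D c → (Holds M φ g0 c ↔ Val S φ [] c 0)) ∧
    ∀ e ∈ ents φ [] 0, ∀ c, S.D c →
      (Holds M e.body (gd g0 δ e.bs) c ↔ Val S e.body (dead M.W e.bs) c (e.pos + 1)) := by
  refine ⟨?_, ?_⟩
  · intro c hc
    refine A3_main M S Lt g0 δ φ h1 h2 h3 hδ hV hn hf hZ φ [] 0 g0 [] c (fun e he => he)
      (fun t ht => ht) hc ?_
    intro x
    refine ⟨fun _ => ⟨by simp, rfl⟩, fun h => ?_, fun a h => ?_⟩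
    · simp [lk] at h
    · simp [lk] at h
  · intro e he c hc
    obtain ⟨hb1, hb2⟩ := ents_body φ [] 0 e he
    refine A3_main M S Lt g0 δ φ h1 h2 h3 hδ hV hn hf hZ e.body e.bs (e.pos + 1) _ _ c hb2
      (code_fsubs φ e.body hb1) hc ?_
    intro x
    rw [A3_lk_dead]
    by_cases hx : x ∈ e.bs
    · rw [if_pos hx]
      refine ⟨fun h => ?_, fun _ => ⟨hx, ?_⟩, fun a h => ?_⟩
      · simp at h
      · rw [gd, if_pos hx]; exact hδ
      · simp at h
    · rw [if_neg hx]
      refine ⟨fun _ => ⟨hx, ?_⟩, fun h => ?_, fun a h => ?_⟩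
      · rw [gd, if_neg hx]
      · simp at h
      · simp at h

theorem A3_upd {W : Type} (g : ℕ → W) (x : ℕ) (v : W) :
    Function.update (fun x => (some (g x) : Option W)) x (some v) =
      fun y => some (Function.update g x v y) := by
  funext y
  by_cases hy : y = x
  · subst hy; simp
  · rw [Function.update_of_ne hy, Function.update_of_ne hy]

theorem holds_addPt (M : Model) (ψ : Fm B) : ∀ (g : ℕ → M.W) (v : M.W),
    (Holds (addPt M) ψ (fun x => some (g x)) (some v) ↔ Holds M ψ g v) := by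
  induction ψ with
  | prp p =>
    intro g v
    show (∃ u, some v = some u ∧ M.V p u) ↔ M.V p v
    constructor
    · rintro ⟨u, h, h'⟩
      simp only [Option.some.injEq] at h
      subst h; exact h'
    · intro h; exact ⟨v, rfl, h⟩
  | nom i =>
    intro g v
    show some (M.N i) = some v ↔ M.N i = v
    simp
  | var x =>
    intro g v
    show some (g x) = some v ↔ g x = v
    simp
  | app i args ih =>
    intro g v
    have key : ∀ j, (Holds (addPt M) (args j) (fun x => some (g x)) (some v) ↔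
        Holds M (args j) g v) := fun j => ih j g v
    show ((B.get i).fn fun j => decide (Holds (addPt M) (args j) (fun x => some (g x))
      (some v))) = true ↔ ((B.get i).fn fun j => decide (Holds M (args j) g v)) = true
    simp only [key]
  | dia ψ ih =>
    intro g v
    show (∃ u, (addPt M).R (some v) u ∧ Holds (addPt M) ψ (fun x => some (g x)) u) ↔
      ∃ u, M.R v u ∧ Holds M ψ g u
    constructor
    · rintro ⟨u, ⟨a, b, h1, h2, h3⟩, hh⟩
      subst h2
      simp only [Option.some.injEq] at h1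
      subst h1
      exact ⟨b, h3, (ih g b).1 hh⟩
    · rintro ⟨u, h, hh⟩
      exact ⟨some u, ⟨v, u, rfl, rfl, h⟩, (ih g u).2 hh⟩
  | box ψ ih =>
    intro g v
    show (∀ u, (addPt M).R (some v) u → Holds (addPt M) ψ (fun x => some (g x)) u) ↔
      ∀ u, M.R v u → Holds M ψ g u
    constructor
    · intro hall u h
      exact (ih g u).1 (hall (some u) ⟨v, u, rfl, rfl, h⟩)
    · rintro hall u ⟨a, b, h1, h2, h3⟩
      subst h2
      simp only [Option.some.injEq] at h1
      subst h1
      exact (ih g b).2 (hall b h3)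
  | down x ψ ih =>
    intro g v
    have e2 : Holds (addPt M) (Fm.down x ψ) (fun x => some (g x)) (some v) ↔
        Holds (addPt M) ψ (fun y => some (Function.update g x v y)) (some v) :=
      iff_of_eq (congrArg (fun G : ℕ → Option M.W => Holds (addPt M) ψ G (some v))
        (A3_upd g x v))
    exact e2.trans (ih _ v)

end Pool.Agent.Lib.MP_bba6cc_lc
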