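import Pool.Agent.Lib.MP_bba6cc_lc.TA3
import Pool.Agent.Lib.MP_bba6cc_lc.TA2b

/-!
# Satisfiability over equivalence relations
-/

namespace Pool.Agent.Lib.MP_bba6cc_lc

open Classical

variable {B : List BFun}

/-! ## Row A4: equivalence relations -/

theorem A4_forward (hB : ∀ f ∈ B, IsAffine f) (φ : Fm B) (h : SatIn .er φ) :
    ErData φ (msz (flen φ)) := by
  obtain ⟨M, ⟨hrefl, hsymm, htrans⟩, g, w, hw⟩ := h
  set S : Clus (addPt M).W :=
    { D := fun v => ∃ u, v = some u ∧ M.R w u
      V := (addPt M).V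
      nm := fun i c => (addPt M).N i = c
      fv := fun x c => (some (g x) : Option M.W) = c
      Z := fun _ => False
      refl := True } with hS
  have hval := holds_val (addPt M) S (fun _ => False) (fun x => (some (g x) : Option M.W))
    (none : Option M.W) φ
    (by
      intro c hc v
      obtain ⟨u, rfl, hu⟩ := hc
      constructor
      · rintro ⟨a, b, hab, rfl, hR⟩
        have hab' : u = a := Option.some.inj hab
        subst hab'
        exact Or.inl ⟨trivial, b, rfl, htrans _ _ _ hu hR⟩
      · rintro (⟨_, b, rfl, hb⟩ | h)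
        · exact ⟨u, b, rfl, rfl, htrans _ _ _ (hsymm _ _ hu) hb⟩
        · exact h.elim)
    (fun v hv => hv.elim) (fun v hv => hv.elim)
    (by
      refine ⟨?_, fun h => h⟩
      rintro ⟨u, hu, _⟩
      exact absurd hu (by simp))
    (fun p c _ => Iff.rfl) (fun i _ c _ => Iff.rfl) (fun x _ c _ => Iff.rfl)
    (by
      intro e _
      constructor
      · intro h
        exact h.elim
      · rintro ⟨v, h, _⟩
        exact h.elim)
  obtain ⟨w', hw'⟩ : ∃ w' : (addPt M).W, w' = (some w : Option M.W) := ⟨_, rfl⟩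
  have hDw : S.D w' := ⟨w, hw', hrefl w⟩
  have hVw : Val S φ [] w' 0 := by
    refine (hval.1 _ hDw).1 ?_
    rw [hw']
    exact (holds_addPt M φ g w).2 hw
  obtain ⟨m, q, hm, hinj, hqD, hqK, hqV, _⟩ := small_copy hB S φ
    (fun i _ c d _ _ hc hd => by
      have hc' : (addPt M).N i = c := hc
      have hd' : (addPt M).N i = d := hd
      rw [← hc', ← hd'])
    (fun x _ c d _ _ hc hd => by
      have hc' : (some (g x) : Option M.W) = c := hc
      have hd' : (some (g x) : Option M.W) = d := hd
      rw [← hc', ← hd'])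
    {w'} (Finset.singleton_nonempty _)
    (by
      intro c hc
      rw [Finset.mem_singleton] at hc
      rw [hc]
      exact hDw)
  have hmM : m ≤ msz (flen φ) := by
    have h1 : ({w'} : Finset (addPt M).W).card = 1 := Finset.card_singleton _
    have h2 : m ≤ 1 + 4 * (flen φ + 1) ^ 2 := by
      rw [h1] at hm
      exact hm
    unfold msz
    have h3 : 1 ≤ (flen φ + 1) ^ 2 := Nat.one_le_pow _ _ (Nat.succ_pos _)
    omega
  obtain ⟨j, hj, hjw⟩ := hqK w' (Finset.mem_singleton_self _)
  refine ⟨S.pull q m, trivial, fun e _ h => h, fun j hj => lt_of_lt_of_le hj hmM, ?_, ?_,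
    j, hj, ?_⟩
  · rintro i _ c d _ _ ⟨hc, hc'⟩ ⟨hd, hd'⟩
    apply hinj c hc d hd
    have h1 : (addPt M).N i = q c := hc'
    have h2 : (addPt M).N i = q d := hd'
    rw [← h1, ← h2]
  · rintro x _ c d _ _ ⟨hc, hc'⟩ ⟨hd, hd'⟩
    apply hinj c hc d hd
    have h1 : (some (g x) : Option M.W) = q c := hc'
    have h2 : (some (g x) : Option M.W) = q d := hd'
    rw [← h1, ← h2]
  · rw [hqV j hj, hjw]
    exact hVw

/-- the point with a given name -/
noncomputable def A4_pick (M : ℕ) (P : ℕ → Prop) : ℕ :=
  if h : ∃ c, c < M ∧ P c then Classical.choose h else M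

theorem A4_pick_iff (M : ℕ) (P : ℕ → Prop) (hP : ∀ c d, c < M → d < M → P c → P d → c = d)
    (c : ℕ) (hc : c < M) : P c ↔ A4_pick M P = c := by
  unfold A4_pick
  constructor
  · intro h
    have hex : ∃ c, c < M ∧ P c := ⟨c, hc, h⟩
    rw [dif_pos hex]
    exact hP _ _ (Classical.choose_spec hex).1 hc (Classical.choose_spec hex).2 h
  · intro h
    split_ifs at h with hex
    · rw [← h]
      exact (Classical.choose_spec hex).2
    · omega

theorem A4_backward (φ : Fm B) (M : ℕ) (h : ErData φ M) : SatIn .er φ := by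
  obtain ⟨S, hr, hZ, hD, hn, hf, c, hc, hv⟩ := h
  set M' : Model :=
    { W := ℕ
      R := fun u v => u = v ∨ (S.D u ∧ S.D v)
      V := S.V
      N := fun i => A4_pick M (S.nm i) } with hM'
  have hval := holds_val M' S (fun _ => False) (fun x => A4_pick M (S.fv x)) M φ
    (by
      intro c hc v
      constructor
      · rintro (h | h)
        · have h' : c = v := h
          subst h'
          exact Or.inl ⟨hr, hc⟩
        · exact Or.inl ⟨hr, h.2⟩
      · rintro (h | h)
        · exact Or.inr ⟨hc, h.2⟩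
        · exact h.elim)
    (fun v hv => hv.elim) (fun v hv => hv.elim)
    ⟨fun h => absurd (hD M h) (lt_irrefl M), fun h => h⟩
    (fun p c _ => Iff.rfl)
    (fun i hi c hc => A4_pick_iff M (S.nm i) (hn i hi) c (hD c hc))
    (fun x hx c hc => A4_pick_iff M (S.fv x) (hf x hx) c (hD c hc))
    (by
      intro e he
      constructor
      · intro h
        exact absurd h (hZ e he)
      · rintro ⟨v, h, _⟩
        exact h.elim)
  refine ⟨M', ?_, (fun x => A4_pick M (S.fv x)), c, (hval.1 c hc).2 hv⟩
  refine ⟨fun x => Or.inl rfl, ?_, ?_⟩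
  · rintro x y (h | h)
    · exact Or.inl h.symm
    · exact Or.inr ⟨h.2, h.1⟩
  · rintro x y z (h | h) (h' | h')
    · exact Or.inl (h.trans h')
    · right
      refine ⟨?_, h'.2⟩
      have e : x = y := h
      rw [e]
      exact h'.1
    · right
      refine ⟨h.1, ?_⟩
      have e : y = z := h'
      rw [← e]
      exact h.2
    · exact Or.inr ⟨h.1, h'.2⟩

/-- PROOF. (→) In `addPt M` apply `holds_val` to the class `D` of the world, `Lt = False`, then
`small_copy` (with `Kp` = the world; `1 + 4(n+1)^2 ≤ msz n` points). (←) model on `ℕ`: `R u v ↔ u = v ∨ (S.D u ∧ S.D v)`, a name denotes its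
point `c < M` if there is one and `M` otherwise; `holds_val` with `Lt = False` and `δ = M`. -/
theorem sat_er_iff (hB : ∀ f ∈ B, IsAffine f) (φ : Fm B) :
    SatIn .er φ ↔ ErData φ (msz (flen φ)) :=
  ⟨A4_forward hB φ, A4_backward φ _⟩

end Pool.Agent.Lib.MP_bba6cc_lc
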