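import Pool.Agent.Lib.MP_bba6cc_lc.TA0

/-!
# The game: rank argument
-/

namespace Pool.Agent.Lib.MP_bba6cc_lc

open Classical

variable {B : List BFun}

/-- the truth of `Surv` depends only on `Z` and `vis` -/
theorem Surv_congr (φ : Fm B) (nom : ℕ → XC) (K M t : ℕ) (X Y : XC)
    (hZ : ∀ e ∈ ents φ [] 0, (X.S.Z e.pos ↔ Y.S.Z e.pos)) (hv : ∀ k ≤ K, (X.vis k ↔ Y.vis k)) :
    Surv φ nom K M t X ↔ Surv φ nom K M t Y := by
  have key : ∀ X Y : XC, (∀ e ∈ ents φ [] 0, (X.S.Z e.pos ↔ Y.S.Z e.pos)) →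
      (∀ k ≤ K, (X.vis k ↔ Y.vis k)) → Surv φ nom K M t X → Surv φ nom K M t Y := by
    intro X Y hZ hv h
    cases t with
    | zero => trivial
    | succ t =>
      intro e he hz
      rcases h e he ((hZ e he).2 hz) with ⟨k, hk, h1, h2⟩ | ⟨X', ⟨h1, h2, h3, h4, h5, h6, h7⟩, h8⟩
      · exact Or.inl ⟨k, hk, (hv k hk).1 h1, h2⟩
      · refine Or.inr ⟨X', ⟨h1, h2, h3, ?_, ?_, h6, h7⟩, h8⟩
        · intro e' he'
          exact ⟨fun h => (hZ e' he').1 ((h4 e' he').1 h), fun h => (hZ e' he').1 ((h4 e' he').2 h)⟩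
        · intro k hk h
          exact (hv k hk).1 (h5 k hk h)
  exact ⟨key X Y hZ hv, key Y X (fun e he => (hZ e he).symm) (fun k hk => (hv k hk).symm)⟩

/-- only the named structures matter -/
theorem Surv_nom (φ : Fm B) (nom nom' : ℕ → XC) (K M t : ℕ) (X : XC)
    (h : ∀ k ≤ K, nom k = nom' k) : Surv φ nom K M t X ↔ Surv φ nom' K M t X := by
  have key : ∀ nom nom' : ℕ → XC, (∀ k ≤ K, nom k = nom' k) → ∀ t X,
      Surv φ nom K M t X → Surv φ nom' K M t X := by
    intro nom nom' h t
    induction t with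
    | zero => intro X _; trivial
    | succ t ih =>
      intro X hX e he hz
      rcases hX e he hz with ⟨k, hk, h1, h2⟩ | ⟨X', ⟨h1, h2, h3, h4, h5, h6, h7⟩, h8⟩
      · exact Or.inl ⟨k, hk, h1, by rw [← h k hk]; exact h2⟩
      · refine Or.inr ⟨X', ⟨h1, h2, h3, h4, h5, ?_, h7⟩, ih X' h8⟩
        intro k hk hvk
        rw [← h k hk]
        exact h6 k hk hvk
  exact ⟨key nom nom' h t X, key nom' nom (fun k hk => (h k hk).symm) t X⟩

theorem A5_mono_one (φ : Fm B) (nom : ℕ → XC) (K M : ℕ) (t : ℕ) : ∀ X : XC,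
    Surv φ nom K M (t + 1) X → Surv φ nom K M t X := by
  induction t with
  | zero => intro X _; trivial
  | succ t ih =>
    intro X h e he hz
    rcases h e he hz with h1 | ⟨X', h1, h2⟩
    · exact Or.inl h1
    · exact Or.inr ⟨X', h1, ih X' h2⟩

/-- monotone -/
theorem Surv_mono (φ : Fm B) (nom : ℕ → XC) (K M : ℕ) {t t' : ℕ} (h : t ≤ t') (X : XC) :
    Surv φ nom K M t' X → Surv φ nom K M t X := by
  induction t', h using Nat.le_induction with
  | base => exact id
  | succ n _ ih => exact fun h => ih (A5_mono_one φ nom K M n X h)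

/-- the potential -/
noncomputable def A5_mu (φ : Fm B) (K : ℕ) (X : XC) : ℕ :=
  ((((ents φ [] 0).map fun e => e.pos).toFinset).filter fun p => X.S.Z p).card +
    ((Finset.range (K + 1)).filter fun k => X.vis k).card

theorem A5_mu_le (φ : Fm B) (K : ℕ) (X : XC) : A5_mu φ K X ≤ flen φ + K + 1 := by
  have h1 : ((((ents φ [] 0).map fun e => e.pos).toFinset).filter fun p => X.S.Z p).card ≤
      flen φ := by
    refine (Finset.card_filter_le _ _).trans ((List.toFinset_card_le _).trans ?_)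
    rw [List.length_map]
    exact ents_length φ [] 0
  have h2 : ((Finset.range (K + 1)).filter fun k => X.vis k).card ≤ K + 1 := by
    refine (Finset.card_filter_le _ _).trans ?_
    rw [Finset.card_range]
  unfold A5_mu
  omega

theorem A5_mu_lt (φ : Fm B) (K : ℕ) (X X' : XC)
    (hZ : ∀ e ∈ ents φ [] 0, X'.S.Z e.pos → X.S.Z e.pos) (hv : ∀ k ≤ K, X'.vis k → X.vis k) :
    A5_mu φ K X' < A5_mu φ K X ∨ ((∀ e ∈ ents φ [] 0, (X.S.Z e.pos ↔ X'.S.Z e.pos)) ∧
      ∀ k ≤ K, (X.vis k ↔ X'.vis k)) := by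
  have s1 : ((((ents φ [] 0).map fun e => e.pos).toFinset).filter fun p => X'.S.Z p) ⊆
      ((((ents φ [] 0).map fun e => e.pos).toFinset).filter fun p => X.S.Z p) := by
    intro p hp
    rw [Finset.mem_filter, List.mem_toFinset, List.mem_map] at hp ⊢
    obtain ⟨⟨e, he, rfl⟩, h⟩ := hp
    exact ⟨⟨e, he, rfl⟩, hZ e he h⟩
  have s2 : ((Finset.range (K + 1)).filter fun k => X'.vis k) ⊆
      ((Finset.range (K + 1)).filter fun k => X.vis k) := by
    intro k hk
    rw [Finset.mem_filter, Finset.mem_range] at hk ⊢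
    exact ⟨hk.1, hv k (by omega) hk.2⟩
  have c1 := Finset.card_le_card s1
  have c2 := Finset.card_le_card s2
  by_cases h : A5_mu φ K X' < A5_mu φ K X
  · exact Or.inl h
  · right
    unfold A5_mu at h
    have e1 := Finset.eq_of_subset_of_card_le s1 (by omega)
    have e2 := Finset.eq_of_subset_of_card_le s2 (by omega)
    constructor
    · intro e he
      refine ⟨fun hz => ?_, hZ e he⟩
      have : e.pos ∈ ((((ents φ [] 0).map fun e => e.pos).toFinset).filter fun p => X.S.Z p) := by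
        rw [Finset.mem_filter, List.mem_toFinset, List.mem_map]
        exact ⟨⟨e, he, rfl⟩, hz⟩
      rw [← e1, Finset.mem_filter] at this
      exact this.2
    · intro k hk
      refine ⟨fun hz => ?_, hv k hk⟩
      have : k ∈ ((Finset.range (K + 1)).filter fun k => X.vis k) := by
        rw [Finset.mem_filter, Finset.mem_range]
        exact ⟨by omega, hz⟩
      rw [← e2, Finset.mem_filter] at this
      exact this.2

theorem A5_all (φ : Fm B) (nom : ℕ → XC) (K M : ℕ) (m : ℕ) : ∀ X : XC, A5_mu φ K X ≤ m →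
    Surv φ nom K M (m + 1) X → ∀ t, Surv φ nom K M t X := by
  induction m using Nat.strong_induction_on with
  | _ m ih =>
  intro X hX h
  by_contra hcon
  push Not at hcon
  have hspec := Nat.find_spec hcon
  have hmin := fun {n} hn => Nat.find_min hcon (m := n) hn
  generalize Nat.find hcon = t at hspec hmin
  have htm : m + 1 < t := by
    by_contra hle
    exact hspec (Surv_mono φ nom K M (by omega) X h)
  obtain ⟨r, rfl⟩ : ∃ r, t = r + 2 := ⟨t - 2, by omega⟩
  have hr : Surv φ nom K M (r + 1) X := by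
    by_contra h'
    exact hmin (by omega) h'
  apply hspec
  intro e he hz
  rcases hr e he hz with h1 | ⟨X', h1, h2⟩
  · exact Or.inl h1
  · refine Or.inr ⟨X', h1, ?_⟩
    obtain ⟨_, _, _, h4, h5, _, _⟩ := h1
    rcases A5_mu_lt φ K X X' (fun e he => (h4 e he).1) h5 with hlt | ⟨hZ, hv⟩
    · exact ih (m - 1) (by omega) X' (by omega)
        (Surv_mono φ nom K M (by omega) X' h2) (r + 1)
    · exact (Surv_congr φ nom K M (r + 1) X X' hZ hv).1 hr

/-- PROOF. `μ X` = number of positions `< flen φ` with `X.S.Z` plus the number of `k ≤ K` with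
`X.vis k`. Claim: `¬ Surv t X` for some `t` implies `¬ Surv (μ X + 1) X` (strong induction on `μ X`).
Take `t` minimal: `Surv t X`, `¬ Surv (t+1) X`. If `t = 0` done by `Surv_mono`. Otherwise let `e` be
the bad request; `Surv t X` with `t = r + 1` gives an answer `X'` with `Surv r X'`, and
`¬ Surv t X'`. `μ X' ≤ μ X` by `Later` and `vis`; if `μ X' = μ X` then `X` and `X'` have the same `Z`
(on the positions of occurrences; modify the definition of `μ` accordingly) and `vis`, so
`Surv_congr` gives `¬ Surv t X`, contradiction. So `μ X' < μ X`, the rank `t` of `X'` is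
`≤ μ X' + 1`, and `t + 1 ≤ μ X + 1`. -/
theorem Surv_all (φ : Fm B) (nom : ℕ → XC) (K M : ℕ) (X : XC)
    (h : Surv φ nom K M (flen φ + K + 2) X) : ∀ t, Surv φ nom K M t X :=
  A5_all φ nom K M (flen φ + K + 1) X (A5_mu_le φ K X) h

end Pool.Agent.Lib.MP_bba6cc_lc
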