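import Pool.Agent.Lib.MP_bba6cc_lc.TA3

/-!
# Clusters of a transitive model
-/

namespace Pool.Agent.Lib.MP_bba6cc_lc

open Classical

variable {B : List BFun}

theorem big_Z (M : Model) (g0 : ℕ → M.W) (δ : M.W) (φ : Fm B) (w : M.W) (e : Ent B)
    (he : e ∈ ents φ [] 0) : (big M g0 δ φ w).Z e.pos ↔ ∃ v, Lw M w v ∧
      (Holds M e.body (gd g0 δ e.bs) v ↔ e.neg = false) := by
  show (∃ e' ∈ ents φ [] 0, e'.pos = e.pos ∧ ∃ v, Lw M w v ∧
    (Holds M e'.body (gd g0 δ e'.bs) v ↔ e'.neg = false)) ↔ _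
  constructor
  · rintro ⟨e', he', hp, hh⟩
    have := ents_inj φ [] 0 e' he' e he hp
    subst this
    exact hh
  · intro h; exact ⟨e, he, rfl, h⟩

theorem Cl_symm (M : Model) (htr : ∀ x y z, M.R x y → M.R y z → M.R x z) {w v : M.W}
    (h : Cl M w v) : Cl M v w := by
  rcases h with rfl | ⟨h1, h2⟩
  · exact Or.inl rfl
  · exact Or.inr ⟨h2, h1⟩

theorem Cl_trans (M : Model) (htr : ∀ x y z, M.R x y → M.R y z → M.R x z) {w v u : M.W}
    (h : Cl M w v) (h' : Cl M v u) : Cl M w u := by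
  rcases h with rfl | ⟨h1, h2⟩
  · exact h'
  · rcases h' with rfl | ⟨h3, h4⟩
    · exact Or.inr ⟨h1, h2⟩
    · exact Or.inr ⟨htr _ _ _ h1 h3, htr _ _ _ h4 h2⟩

theorem Lw_trans (M : Model) (htr : ∀ x y z, M.R x y → M.R y z → M.R x z) {w v u : M.W}
    (h : Lw M w v) (h' : Lw M v u) : Lw M w u :=
  ⟨htr _ _ _ h.1 h'.1, fun h1 => h.2 (htr _ _ _ h'.1 h1)⟩

theorem Lw_irrefl (M : Model) (w : M.W) : ¬ Lw M w w := fun h => h.2 h.1

theorem Lw_Cl (M : Model) (htr : ∀ x y z, M.R x y → M.R y z → M.R x z) {w v u : M.W}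
    (h : Lw M w v) (h' : Cl M v u) : Lw M w u := by
  rcases h' with rfl | ⟨h3, h4⟩
  · exact h
  · exact ⟨htr _ _ _ h.1 h3, fun h1 => h.2 (htr _ _ _ h3 h1)⟩

theorem Cl_Lw (M : Model) (htr : ∀ x y z, M.R x y → M.R y z → M.R x z) {w v u : M.W}
    (h : Cl M w v) (h' : Lw M v u) : Lw M w u := by
  rcases h with rfl | ⟨h3, h4⟩
  · exact h'
  · exact ⟨htr _ _ _ h3 h'.1, fun h1 => h'.2 (htr _ _ _ h1 h3)⟩

theorem big_spec (M : Model) (htr : ∀ x y z, M.R x y → M.R y z → M.R x z) (g0 : ℕ → M.W)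
    (δ : M.W) (hδ : ∀ v, ¬ M.R v δ ∧ ¬ M.R δ v) (φ : Fm B) (w : M.W) (hw : w ≠ δ) :
    (∀ c, Cl M w c → (Holds M φ g0 c ↔ Val (big M g0 δ φ w) φ [] c 0)) ∧
    ∀ e ∈ ents φ [] 0, ∀ c, Cl M w c → (Holds M e.body (gd g0 δ e.bs) c ↔
      Val (big M g0 δ φ w) e.body (dead M.W e.bs) c (e.pos + 1)) := by
  refine holds_val M (big M g0 δ φ w) (Lw M w) g0 δ φ ?_ ?_ ?_ ?_ ?_ ?_ ?_ ?_
  · intro c hc v
    show M.R c v ↔ ((M.R w w ∧ Cl M w v) ∨ Lw M w v)
    have hc' : Cl M w c := hc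
    constructor
    · intro h
      have hwv : M.R w v := by
        rcases hc' with rfl | ⟨h1, h2⟩
        · exact h
        · exact htr _ _ _ h1 h
      by_cases hvw : M.R v w
      · exact Or.inl ⟨htr _ _ _ hwv hvw, Or.inr ⟨hwv, hvw⟩⟩
      · exact Or.inr ⟨hwv, hvw⟩
    · intro h
      have key : M.R w v → M.R c v := by
        intro h1
        rcases hc' with rfl | ⟨h2, h3⟩
        · exact h1
        · exact htr _ _ _ h3 h1
      rcases h with ⟨h1, h2⟩ | h1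
      · rcases h2 with rfl | ⟨h3, h4⟩
        · exact key h1
        · exact key h3
      · exact key h1.1
  · intro v hv u hu
    exact ⟨htr _ _ _ hv.1 hu, fun h => hv.2 (htr _ _ _ hu h)⟩
  · rintro v hv (rfl | ⟨h1, h2⟩)
    · exact hv.2 hv.1
    · exact hv.2 h2
  · refine ⟨?_, ?_⟩
    · rintro (h | ⟨h1, h2⟩)
      · exact hw h.symm
      · exact (hδ w).1 h1
    · intro h; exact (hδ w).1 h.1
  · intro p c hc; exact Iff.rfl
  · intro i _ c hc; exact Iff.rfl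
  · intro x _ c hc; exact Iff.rfl
  · intro e he
    exact big_Z M g0 δ φ w e he

end Pool.Agent.Lib.MP_bba6cc_lc
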