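import Pool.Agent.Lib.MP_bba6cc_lc.TA6a
import Pool.Agent.Lib.MP_bba6cc_lc.TA2b
import Pool.Agent.Lib.MP_bba6cc_lc.TA5

/-!
# Completeness of the game for transitive frames
-/

namespace Pool.Agent.Lib.MP_bba6cc_lc

open Classical

variable {B : List BFun}

/-! ## Row A6b: completeness for transitive frames -/

/-- a small copy of the cluster of `w` -/
theorem A6b_copy (hB : ∀ f ∈ B, IsAffine f) (M : Model)
    (htr : ∀ x y z, M.R x y → M.R y z → M.R x z) (g0 : ℕ → M.W) (δ : M.W)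
    (hδ : ∀ v, ¬ M.R v δ ∧ ¬ M.R δ v) (φ : Fm B) (w : M.W) (hw : w ≠ δ)
    (Kp : Finset M.W) (hne : Kp.Nonempty) (hK : ∀ c ∈ Kp, Cl M w c) :
    ∃ (m : ℕ) (q : ℕ → M.W), m ≤ Kp.card + 4 * (flen φ + 1) ^ 2 ∧
      (∀ i < m, ∀ j < m, q i = q j → i = j) ∧ (∀ j < m, Cl M w (q j)) ∧
      (∀ c ∈ Kp, ∃ j < m, q j = c) ∧
      (∀ j < m, (Val ((big M g0 δ φ w).pull q m) φ [] j 0 ↔ Holds M φ g0 (q j))) ∧
      ∀ e ∈ ents φ [] 0, ∀ j < m,
        (Val ((big M g0 δ φ w).pull q m) e.body (dead ℕ e.bs) j (e.pos + 1) ↔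
          Holds M e.body (gd g0 δ e.bs) (q j)) := by
  obtain ⟨m, q, h1, h2, h3, h4, h5, h6⟩ := small_copy hB (big M g0 δ φ w) φ
    (fun i _ c d _ _ hc hd => hc.symm.trans hd) (fun x _ c d _ _ hc hd => hc.symm.trans hd)
    Kp hne hK
  obtain ⟨s1, s2⟩ := big_spec M htr g0 δ hδ φ w hw
  exact ⟨m, q, h1, h2, h3, h4, fun j hj => (h5 j hj).trans (s1 _ (h3 j hj)).symm,
    fun e he j hj => (h6 e he j hj).trans (s2 e he _ (h3 j hj)).symm⟩

/-- the request `e` is met in the cluster of `w` -/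
def A6b_EhM (M : Model) (g0 : ℕ → M.W) (δ : M.W) (w : M.W) (e : Ent B) : Prop :=
  ∃ d, Cl M w d ∧ (Holds M e.body (gd g0 δ e.bs) d ↔ e.neg = false)

/-- a small copy which contains given points and a witness for every request that is met -/
theorem A6b_named (hB : ∀ f ∈ B, IsAffine f) (M : Model)
    (htr : ∀ x y z, M.R x y → M.R y z → M.R x z) (g0 : ℕ → M.W) (δ : M.W)
    (hδ : ∀ v, ¬ M.R v δ ∧ ¬ M.R δ v) (φ : Fm B) (w : M.W) (hw : w ≠ δ)
    (U : Finset M.W) (hU : U.card ≤ flen φ + 1) (hne : U.Nonempty) (hUc : ∀ c ∈ U, Cl M w c) :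
    ∃ (m : ℕ) (q : ℕ → M.W), m ≤ msz (flen φ) ∧
      (∀ i < m, ∀ j < m, q i = q j → i = j) ∧ (∀ j < m, Cl M w (q j)) ∧
      (∀ c ∈ U, ∃ j < m, q j = c) ∧
      (∀ j < m, (Val ((big M g0 δ φ w).pull q m) φ [] j 0 ↔ Holds M φ g0 (q j))) ∧
      (∀ e ∈ ents φ [] 0, ∀ j < m,
        (Val ((big M g0 δ φ w).pull q m) e.body (dead ℕ e.bs) j (e.pos + 1) ↔
          Holds M e.body (gd g0 δ e.bs) (q j))) ∧
      ∀ e ∈ ents φ [] 0, (Eh ((big M g0 δ φ w).pull q m) e ↔ A6b_EhM M g0 δ w e) := by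
  set pt : Ent B → M.W := fun e => if h : A6b_EhM M g0 δ w e then h.choose else w with hpt
  have hpt1 : ∀ e, Cl M w (pt e) := by
    intro e
    simp only [hpt]
    split_ifs with h
    · exact h.choose_spec.1
    · exact Or.inl rfl
  have hpt2 : ∀ e, A6b_EhM M g0 δ w e → (Holds M e.body (gd g0 δ e.bs) (pt e) ↔ e.neg = false) := by
    intro e h
    simp only [hpt, dif_pos h]
    exact h.choose_spec.2
  obtain ⟨m, q, h1, h2, h3, h4, h5, h6⟩ := A6b_copy hB M htr g0 δ hδ φ w hw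
    (U ∪ ((ents φ [] 0).map pt).toFinset)
    (hne.mono Finset.subset_union_left) (by
      intro c hc
      rcases Finset.mem_union.1 hc with hc | hc
      · exact hUc c hc
      · rw [List.mem_toFinset, List.mem_map] at hc
        obtain ⟨e, -, rfl⟩ := hc
        exact hpt1 e)
  refine ⟨m, q, ?_, h2, h3, fun c hc => h4 c (Finset.mem_union_left _ hc), h5, h6, ?_⟩
  · have hc1 : (U ∪ ((ents φ [] 0).map pt).toFinset).card ≤ (flen φ + 1) + flen φ := by
      refine (Finset.card_union_le _ _).trans (Nat.add_le_add hU ?_)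
      refine (List.toFinset_card_le _).trans ?_
      rw [List.length_map]
      exact ents_length φ [] 0
    unfold msz
    nlinarith
  · intro e he
    constructor
    · rintro ⟨j, hj, hv⟩
      have hj' : j < m := hj
      exact ⟨q j, h3 j hj', (h6 e he j hj').symm.trans hv⟩
    · intro h
      have hmem : pt e ∈ U ∪ ((ents φ [] 0).map pt).toFinset := by
        refine Finset.mem_union_right _ ?_
        rw [List.mem_toFinset, List.mem_map]
        exact ⟨e, he, rfl⟩
      obtain ⟨j, hj, hqj⟩ := h4 _ hmem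
      refine ⟨j, hj, ?_⟩
      rw [h6 e he j hj, hqj]
      exact hpt2 e h

/-- criterion for `Later` -/
theorem A6b_later (M : Model) (htr : ∀ x y z, M.R x y → M.R y z → M.R x z) (g0 : ℕ → M.W)
    (δ : M.W) (φ : Fm B) {w v : M.W} (hwv : Lw M w v) (S S' : Clus ℕ)
    (hS : ∀ e ∈ ents φ [] 0, (S.Z e.pos ↔ (big M g0 δ φ w).Z e.pos))
    (hS' : ∀ e ∈ ents φ [] 0, (S'.Z e.pos ↔ (big M g0 δ φ v).Z e.pos))
    (hE : ∀ e ∈ ents φ [] 0, Eh S' e → A6b_EhM M g0 δ v e) : Later φ S S' := by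
  intro e he
  constructor
  · intro h
    rw [hS' e he, big_Z M g0 δ φ v e he] at h
    rw [hS e he, big_Z M g0 δ φ w e he]
    obtain ⟨x, hx, hx'⟩ := h
    exact ⟨x, Lw_trans M htr hwv hx, hx'⟩
  · intro h
    rw [hS e he, big_Z M g0 δ φ w e he]
    obtain ⟨d, hd, hd'⟩ := hE e he h
    exact ⟨d, Lw_Cl M htr hwv hd, hd'⟩

theorem trans_complete (hB : ∀ f ∈ B, IsAffine f) (φ : Fm B) (h : SatIn .trans φ) (T : ℕ) :
    TData φ (flen φ) (msz (flen φ)) T := by
  obtain ⟨M0, htr0, g, w0, hw0⟩ := h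
  -- add an isolated world
  set M : Model := addPt M0 with hM
  have htr : ∀ x y z, M.R x y → M.R y z → M.R x z := by
    rintro x y z ⟨a, b, rfl, rfl, hab⟩ ⟨b', c, hb, rfl, hbc⟩
    obtain rfl := Option.some.inj hb
    exact ⟨a, c, rfl, rfl, htr0 a b c hab hbc⟩
  set δ : M.W := (none : Option M0.W) with hδdef
  have hδ : ∀ v, ¬ M.R v δ ∧ ¬ M.R δ v := by
    intro v
    constructor
    · rintro ⟨a, b, -, hb, -⟩
      exact Option.some_ne_none _ hb.symm
    · rintro ⟨a, b, ha, -, -⟩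
      exact Option.some_ne_none _ ha.symm
  set g0 : ℕ → M.W := fun x => (some (g x) : Option M0.W) with hg0
  set s0 : M.W := (some w0 : Option M0.W) with hs0
  have hstart : Holds M φ g0 s0 := (holds_addPt M0 φ g w0).2 hw0
  set n := flen φ with hn
  -- the named worlds
  set u : ℕ → M.W := fun k => match k with
    | 0 => s0
    | k + 1 => match (code φ)[k]? with
      | some (1, i) => M.N i
      | some (2, x) => g0 x
      | _ => s0 with hu
  have hu0 : u 0 = s0 := rfl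
  have huδ : ∀ k, u k ≠ δ := by
    intro k
    rcases k with _ | k
    · exact Option.some_ne_none _
    · simp only [hu]
      split
      · exact Option.some_ne_none _
      · exact Option.some_ne_none _
      · exact Option.some_ne_none _
  have huN : ∀ i, (1, i) ∈ code φ → ∃ k ≤ n, u k = M.N i := by
    intro i hi
    obtain ⟨k, hk, hk'⟩ := List.getElem_of_mem hi
    refine ⟨k + 1, hk, ?_⟩
    simp only [hu]
    rw [List.getElem?_eq_getElem hk, hk']
    rfl
  have huF : ∀ x, (2, x) ∈ code φ → ∃ k ≤ n, u k = g0 x := by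
    intro i hi
    obtain ⟨k, hk, hk'⟩ := List.getElem_of_mem hi
    refine ⟨k + 1, hk, ?_⟩
    simp only [hu]
    rw [List.getElem?_eq_getElem hk, hk']
    rfl
  -- the copies
  have hcop : ∀ w : M.W, ∃ (m : ℕ) (q : ℕ → M.W), w ≠ δ → m ≤ msz n ∧
      (∀ i < m, ∀ j < m, q i = q j → i = j) ∧ (∀ j < m, Cl M w (q j)) ∧
      (∃ j < m, q j = w) ∧
      (∀ j < m, (Val ((big M g0 δ φ w).pull q m) φ [] j 0 ↔ Holds M φ g0 (q j))) ∧
      (∀ e ∈ ents φ [] 0, ∀ j < m,
        (Val ((big M g0 δ φ w).pull q m) e.body (dead ℕ e.bs) j (e.pos + 1) ↔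
          Holds M e.body (gd g0 δ e.bs) (q j))) ∧
      ∀ e ∈ ents φ [] 0, (Eh ((big M g0 δ φ w).pull q m) e ↔ A6b_EhM M g0 δ w e) := by
    intro w
    by_cases hw : w = δ
    · exact ⟨0, fun _ => w, fun h => absurd hw h⟩
    · obtain ⟨m, q, h1, h2, h3, h4, h5, h6, h7⟩ := A6b_named hB M htr g0 δ hδ φ w hw {w}
        (by simp) (Finset.singleton_nonempty w) (by
          intro c hc
          rw [Finset.mem_singleton] at hc
          exact Or.inl hc)
      exact ⟨m, q, fun _ => ⟨h1, h2, h3, h4 w (Finset.mem_singleton_self w), h5, h6, h7⟩⟩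
  choose m q hq using hcop
  -- the structures
  set canon : ℕ → Prop := fun k => ∀ l < k, ¬ Cl M (u k) (u l) with hcanon
  have hcan_eq : ∀ k l, canon k → canon l → Cl M (u k) (u l) → k = l := by
    intro k l hk hl h
    rcases lt_trichotomy k l with h1 | h1 | h1
    · exact absurd (Cl_symm M htr h) (hl k h1)
    · exact h1
    · exact absurd h (hk l h1)
  set nom : ℕ → XC := fun k => if canon k then
      ⟨(big M g0 δ φ (u k)).pull (q (u k)) (m (u k)),
        fun l => l ≤ n ∧ canon l ∧ Lw M (u k) (u l)⟩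
    else ⟨⟨fun _ => False, fun _ _ => False, fun _ _ => False, fun _ _ => False, fun _ => False,
      False⟩, fun _ => False⟩ with hnom
  have hnomS : ∀ k, canon k → (nom k).S = (big M g0 δ φ (u k)).pull (q (u k)) (m (u k)) := by
    intro k hk
    simp only [hnom, if_pos hk]
  have hnomv : ∀ k, canon k → ∀ l, ((nom k).vis l ↔ l ≤ n ∧ canon l ∧ Lw M (u k) (u l)) := by
    intro k hk l
    simp only [hnom, if_pos hk]
  have hnomn : ∀ k, ¬ canon k → nom k = ⟨⟨fun _ => False, fun _ _ => False, fun _ _ => False,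
      fun _ _ => False, fun _ => False, False⟩, fun _ => False⟩ := by
    intro k hk
    simp only [hnom, if_neg hk]
  have hnomZ : ∀ k, canon k → ∀ e ∈ ents φ [] 0,
      ((nom k).S.Z e.pos ↔ (big M g0 δ φ (u k)).Z e.pos) := by
    intro k hk e _
    rw [hnomS k hk]
    exact Iff.rfl
  have hnomE : ∀ k, canon k → ∀ e ∈ ents φ [] 0,
      (Eh (nom k).S e ↔ A6b_EhM M g0 δ (u k) e) := by
    intro k hk e he
    rw [hnomS k hk]
    exact (hq (u k) (huδ k)).2.2.2.2.2.2 e he
  -- visibility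
  have hVis : ∀ (v : M.W) (X : XC),
      (∀ e ∈ ents φ [] 0, (X.S.Z e.pos ↔ (big M g0 δ φ v).Z e.pos)) →
      (∀ k ≤ n, (X.vis k ↔ canon k ∧ Lw M v (u k))) → VisOK φ nom n X := by
    intro v X hZ hv k hk hvk
    obtain ⟨hck, hlw⟩ := (hv k hk).1 hvk
    refine ⟨A6b_later M htr g0 δ φ hlw X.S (nom k).S hZ (hnomZ k hck)
      (fun e he => (hnomE k hck e he).1), ?_⟩
    intro l hl hl'
    obtain ⟨-, h1, h2⟩ := (hnomv k hck l).1 hl'
    exact (hv l hl).2 ⟨h1, Lw_trans M htr hlw h2⟩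
  -- survival
  have hSurv : ∀ (t : ℕ) (w : M.W) (X : XC), w ≠ δ →
      (∀ e ∈ ents φ [] 0, (X.S.Z e.pos ↔ (big M g0 δ φ w).Z e.pos)) →
      (∀ k ≤ n, (X.vis k ↔ canon k ∧ Lw M w (u k))) → Surv φ nom n (msz n) t X := by
    intro t
    induction t with
    | zero => intro w X _ _ _; trivial
    | succ t ih =>
      intro w X hw hZ hv e he hZe
      rw [hZ e he, big_Z M g0 δ φ w e he] at hZe
      obtain ⟨v, hwv, hve⟩ := hZe
      have hvδ : v ≠ δ := by
        intro h
        rw [h] at hwv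
        exact (hδ w).1 hwv.1
      by_cases hex : ∃ l, l ≤ n ∧ Cl M v (u l)
      · left
        obtain ⟨hk1, hk2⟩ := Nat.find_spec hex
        set k := Nat.find hex with hk
        have hck : canon k := by
          intro l hl hc
          exact Nat.find_min hex hl ⟨hl.le.trans hk1, Cl_trans M htr hk2 hc⟩
        refine ⟨k, hk1, (hv k hk1).2 ⟨hck, Lw_Cl M htr hwv hk2⟩, ?_⟩
        rw [hnomE k hck e he]
        exact ⟨v, Cl_symm M htr hk2, hve⟩
      · right
        obtain ⟨g1, g2, g3, g4, g5, g6, g7⟩ := hq v hvδ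
        set S0 : Clus ℕ := (big M g0 δ φ v).pull (q v) (m v) with hS0
        set S' : Clus ℕ := { S0 with nm := fun _ _ => False, fv := fun _ _ => False } with hS'
        set X' : XC := ⟨S', fun k => k ≤ n ∧ canon k ∧ Lw M v (u k)⟩ with hX'
        have hnoN : ∀ i, (1, i) ∈ code φ → ∀ c, ¬ S0.nm i c := by
          rintro i hi c ⟨hc, hc'⟩
          obtain ⟨k, hk, hk'⟩ := huN i hi
          refine hex ⟨k, hk, ?_⟩
          rw [hk', show M.N i = q v c from hc']
          exact g3 c hc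
        have hnoF : ∀ i, (2, i) ∈ code φ → ∀ c, ¬ S0.fv i c := by
          rintro i hi c ⟨hc, hc'⟩
          obtain ⟨k, hk, hk'⟩ := huF i hi
          refine hex ⟨k, hk, ?_⟩
          rw [hk', show g0 i = q v c from hc']
          exact g3 c hc
        have hEq : ∀ e ∈ ents φ [] 0, (Eh S' e ↔ A6b_EhM M g0 δ v e) := by
          intro e he
          rw [← g7 e he]
          have hbody := (ents_body φ [] 0 e he).1
          have hcode := code_fsubs φ e.body hbody
          unfold Eh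
          refine exists_congr fun c => ?_
          refine and_congr_right fun hc => ?_
          rw [Val_congr S' S0 e.body (fun _ => Iff.rfl) (fun _ _ _ _ => Iff.rfl)
            (fun i hi c _ => ⟨fun h => h.elim, fun h => (hnoN i (hcode _ hi) c h).elim⟩)
            (fun i hi c _ => ⟨fun h => h.elim, fun h => (hnoF i (hcode _ hi) c h).elim⟩)
            Iff.rfl (dead ℕ e.bs) c (e.pos + 1) hc (fun _ _ => Iff.rfl)]
        have hZ' : ∀ e ∈ ents φ [] 0, (X'.S.Z e.pos ↔ (big M g0 δ φ v).Z e.pos) :=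
          fun e _ => Iff.rfl
        have hv' : ∀ k ≤ n, (X'.vis k ↔ canon k ∧ Lw M v (u k)) := by
          intro k hk
          exact ⟨fun h => h.2, fun h => ⟨hk, h⟩⟩
        refine ⟨X', ⟨fun j hj => lt_of_lt_of_le hj g1, fun _ _ h => h, fun _ _ h => h, ?_, ?_, ?_,
          ?_⟩, ih v X' hvδ hZ' hv'⟩
        · exact A6b_later M htr g0 δ φ hwv X.S X'.S hZ hZ' (fun e he => (hEq e he).1)
        · intro k hk hvk
          obtain ⟨-, h1, h2⟩ := hvk
          exact (hv k hk).2 ⟨h1, Lw_trans M htr hwv h2⟩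
        · exact hVis v X' hZ' hv'
        · exact (hEq e he).2 ⟨v, Or.inl rfl, hve⟩
  -- uniqueness of names
  have hnames : ∀ k ≤ n, ∀ l ≤ n, ∀ c d, ∀ x : M.W,
      (canon k ∧ c < m (u k) ∧ x = q (u k) c) → (canon l ∧ d < m (u l) ∧ x = q (u l) d) →
      k = l ∧ c = d := by
    rintro k - l - c d x ⟨hk, hc, hx⟩ ⟨hl, hd, hx'⟩
    obtain ⟨-, g2, g3, -⟩ := hq (u k) (huδ k)
    obtain ⟨-, g2', g3', -⟩ := hq (u l) (huδ l)
    have h1 : Cl M (u k) x := by rw [hx]; exact g3 c hc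
    have h2 : Cl M (u l) x := by rw [hx']; exact g3' d hd
    have hkl := hcan_eq k l hk hl (Cl_trans M htr h1 (Cl_symm M htr h2))
    subst hkl
    exact ⟨rfl, g2 c hc d hd (hx.symm.trans hx')⟩
  refine ⟨nom, ?_, ?_, ?_, ?_⟩
  · intro k hk
    by_cases hck : canon k
    · refine ⟨?_, ?_, ?_, ?_⟩
      · rw [hnomS k hck]
        exact fun j hj => lt_of_lt_of_le hj (hq (u k) (huδ k)).1
      · exact hVis (u k) (nom k) (hnomZ k hck) (fun l hl => by
          rw [hnomv k hck l]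
          exact ⟨fun h => h.2, fun h => ⟨hl, h⟩⟩)
      · intro h
        exact Lw_irrefl M _ ((hnomv k hck k).1 h).2.2
      · exact hSurv T (u k) (nom k) (huδ k) (hnomZ k hck) (fun l hl => by
          rw [hnomv k hck l]
          exact ⟨fun h => h.2, fun h => ⟨hl, h⟩⟩)
    · rw [hnomn k hck]
      refine ⟨fun j hj => hj.elim, fun l _ hl => hl.elim, fun h => h, ?_⟩
      cases T with
      | zero => trivial
      | succ T => exact fun e _ hZ => hZ.elim
  · intro i hi k hk l hl c d _ _ h1 h2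
    have hck : canon k := by
      by_contra hck
      rw [hnomn k hck] at h1
      exact h1
    have hcl : canon l := by
      by_contra hcl
      rw [hnomn l hcl] at h2
      exact h2
    rw [hnomS k hck] at h1
    rw [hnomS l hcl] at h2
    exact hnames k hk l hl c d (M.N i) ⟨hck, h1.1, h1.2⟩ ⟨hcl, h2.1, h2.2⟩
  · intro i hi k hk l hl c d _ _ h1 h2
    have hck : canon k := by
      by_contra hck
      rw [hnomn k hck] at h1
      exact h1
    have hcl : canon l := by
      by_contra hcl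
      rw [hnomn l hcl] at h2
      exact h2
    rw [hnomS k hck] at h1
    rw [hnomS l hcl] at h2
    exact hnames k hk l hl c d (g0 i) ⟨hck, h1.1, h1.2⟩ ⟨hcl, h2.1, h2.2⟩
  · have hc0 : canon 0 := fun l hl => absurd hl (Nat.not_lt_zero l)
    obtain ⟨-, -, -, ⟨j, hj, hqj⟩, g5, -, -⟩ := hq (u 0) (huδ 0)
    refine ⟨j, ?_⟩
    rw [hnomS 0 hc0]
    refine ⟨hj, ?_⟩
    rw [g5 j hj, hqj]
    exact hstart

end Pool.Agent.Lib.MP_bba6cc_lc
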