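import Pool.Agent.Lib.MP_bba6cc_lc.TA5
import Pool.Agent.Lib.MP_bba6cc_lc.TA3

/-!
# Soundness of the game for transitive frames
-/

namespace Pool.Agent.Lib.MP_bba6cc_lc

open Classical

variable {B : List BFun}

theorem A7_lk_dead (bs : List ℕ) (x : ℕ) :
    lk (dead ℕ bs) x = if x ∈ bs then some none else none := by
  induction bs with
  | nil => simp [lk, dead]
  | cons b bs ih =>
    unfold lk dead at ih ⊢
    by_cases hb : b = x
    · subst hb; simp
    · rw [List.map_cons, List.find?_cons_of_neg (by simpa using hb), ih]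
      have : (x ∈ b :: bs) ↔ x ∈ bs := by
        simp [Ne.symm (hb : b ≠ x)]
      simp only [this]

theorem A7_lk_cons (env : List (ℕ × Option ℕ)) (x : ℕ) (c : Option ℕ) (y : ℕ) :
    lk ((x, c) :: env) y = if x = y then some c else lk env y := by
  unfold lk
  by_cases h : x = y
  · subst h; simp
  · rw [List.find?_cons_of_neg (by simpa using h)]
    simp [h]

/-- the model of a system of nodes -/
noncomputable def A7_model {Nd : Type} (X : Nd → Clus ℕ) (NL : Nd → Nd → Prop) : Model where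
  W := Option (Nd × ℕ)
  R := fun u v => ∃ a c b d, u = some (a, c) ∧ v = some (b, d) ∧ (X a).D c ∧ (X b).D d ∧
    ((a = b ∧ (X a).refl) ∨ NL a b)
  V := fun p u => ∃ a c, u = some (a, c) ∧ (X a).V p c
  N := fun i => if h : ∃ q : Nd × ℕ, (X q.1).D q.2 ∧ (X q.1).nm i q.2 then some (choose h)
    else none

/-- the values of the free variables -/
noncomputable def A7_g0 {Nd : Type} (X : Nd → Clus ℕ) (x : ℕ) : Option (Nd × ℕ) :=
  if h : ∃ q : Nd × ℕ, (X q.1).D q.2 ∧ (X q.1).fv x q.2 then some (choose h) else none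

/-- the world is not a world of the node and not later -/
def A7_Dead {Nd : Type} (X : Nd → Clus ℕ) (NL : Nd → Nd → Prop) (a : Nd)
    (u : Option (Nd × ℕ)) : Prop :=
  ∀ b d, u = some (b, d) → (X b).D d → b ≠ a ∧ ¬ NL a b

/-- the assignment and the environment fit -/
def A7_Env {Nd : Type} (X : Nd → Clus ℕ) (NL : Nd → Nd → Prop) (a : Nd) (bs : List ℕ)
    (g : ℕ → Option (Nd × ℕ)) (env : List (ℕ × Option ℕ)) : Prop :=
  ∀ x, (lk env x = none → x ∉ bs ∧ g x = A7_g0 X x) ∧
    (lk env x = some none → x ∈ bs ∧ A7_Dead X NL a (g x)) ∧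
    ∀ c', lk env x = some (some c') → x ∈ bs ∧ (X a).D c' ∧ g x = some (a, c')

theorem A7_env_later {Nd : Type} (X : Nd → Clus ℕ) (NL : Nd → Nd → Prop)
    (htr : ∀ a b c, NL a b → NL b c → NL a c) (hirr : ∀ a, ¬ NL a a) {a b : Nd} (hab : NL a b)
    {bs : List ℕ} {g : ℕ → Option (Nd × ℕ)} {env : List (ℕ × Option ℕ)}
    (h : A7_Env X NL a bs g env) : A7_Env X NL b bs g (dead ℕ bs) := by
  intro x
  obtain ⟨h1, h2, h3⟩ := h x
  rw [A7_lk_dead]
  have hmem : x ∈ bs → A7_Dead X NL b (g x) := by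
    intro hx
    rcases hlk : lk env x with _ | o
    · exact absurd hx (h1 hlk).1
    · rcases o with _ | c'
      · intro b' d hg hd
        obtain ⟨e1, e2⟩ := (h2 hlk).2 b' d hg hd
        refine ⟨?_, ?_⟩
        · rintro rfl; exact e2 hab
        · intro h'; exact e2 (htr _ _ _ hab h')
      · intro b' d hg hd
        have := (h3 c' hlk).2.2
        rw [hg] at this
        simp only [Option.some.injEq, Prod.mk.injEq] at this
        obtain ⟨rfl, rfl⟩ := this
        refine ⟨?_, ?_⟩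
        · rintro rfl; exact hirr _ hab
        · intro h'; exact hirr _ (htr _ _ _ hab h')
  refine ⟨?_, ?_, ?_⟩
  · intro hx
    by_cases hb : x ∈ bs
    · simp [hb] at hx
    · refine ⟨hb, ?_⟩
      rcases hlk : lk env x with _ | o
      · exact (h1 hlk).2
      · rcases o with _ | c'
        · exact absurd (h2 hlk).1 hb
        · exact absurd (h3 c' hlk).1 hb
  · intro hx
    by_cases hb : x ∈ bs
    · exact ⟨hb, hmem hb⟩
    · simp [hb] at hx
  · intro c' hx
    by_cases hb : x ∈ bs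
    · simp [hb] at hx
    · simp [hb] at hx

theorem A7_env_down {Nd : Type} (X : Nd → Clus ℕ) (NL : Nd → Nd → Prop) {a : Nd} {c : ℕ}
    (hc : (X a).D c) {bs : List ℕ} {g : ℕ → Option (Nd × ℕ)} {env : List (ℕ × Option ℕ)}
    (henv : A7_Env X NL a bs g env) (x : ℕ) :
    A7_Env X NL a (x :: bs) (Function.update g x (some (a, c))) ((x, some c) :: env) := by
  intro y
  rw [A7_lk_cons]
  by_cases hxy : x = y
  · subst hxy
    rw [if_pos rfl]
    refine ⟨fun h => ?_, fun h => ?_, ?_⟩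
    · exact absurd h (by simp)
    · exact absurd h (by simp)
    intro c' h
    simp only [Option.some.injEq] at h
    subst h
    exact ⟨by simp, hc, by simp⟩
  · rw [if_neg hxy]
    obtain ⟨h1, h2, h3⟩ := henv y
    have hy : Function.update g x (some (a, c)) y = g y :=
      Function.update_of_ne (fun h => hxy h.symm) _ _
    rw [hy]
    refine ⟨?_, ?_, ?_⟩
    · intro h
      refine ⟨?_, (h1 h).2⟩
      simp only [List.mem_cons, not_or]
      exact ⟨fun h' => hxy h'.symm, (h1 h).1⟩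
    · intro h
      exact ⟨List.mem_cons_of_mem _ (h2 h).1, (h2 h).2⟩
    · intro c' h
      obtain ⟨e1, e2, e3⟩ := h3 c' h
      exact ⟨List.mem_cons_of_mem _ e1, e2, e3⟩

theorem A7_truth (φ : Fm B) {Nd : Type} (X : Nd → Clus ℕ) (NL : Nd → Nd → Prop)
    (htr : ∀ a b c, NL a b → NL b c → NL a c) (hirr : ∀ a, ¬ NL a a)
    (hL : ∀ a b, NL a b → Later φ (X a) (X b))
    (hW : ∀ a, ∀ e ∈ ents φ [] 0, (X a).Z e.pos → ∃ b, NL a b ∧ Eh (X b) e)
    (hn : ∀ i, (1, i) ∈ code φ → ∀ a b c d, (X a).D c → (X b).D d → (X a).nm i c →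
      (X b).nm i d → a = b ∧ c = d)
    (hf : ∀ x, (2, x) ∈ code φ → ∀ a b c d, (X a).D c → (X b).D d → (X a).fv x c →
      (X b).fv x d → a = b ∧ c = d) (ψ : Fm B) :
    ∀ (bs : List ℕ) (pos : ℕ), (∀ e ∈ ents ψ bs pos, e ∈ ents φ [] 0) →
      (∀ t ∈ code ψ, t ∈ code φ) → ∀ (a : Nd) (c : ℕ), (X a).D c →
      ∀ (g : ℕ → Option (Nd × ℕ)) (env : List (ℕ × Option ℕ)), A7_Env X NL a bs g env →
        (Holds (A7_model X NL) ψ g (some (a, c)) ↔ Val (X a) ψ env c pos) := by
  induction ψ with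
  | prp p =>
    intro bs pos hE hC a c hc g env henv
    show (∃ a' c', (some (a, c) : Option (Nd × ℕ)) = some (a', c') ∧ (X a').V p c') ↔
      (X a).V p c
    constructor
    · rintro ⟨a', c', h, h'⟩
      simp only [Option.some.injEq, Prod.mk.injEq] at h
      obtain ⟨rfl, rfl⟩ := h
      exact h'
    · intro h; exact ⟨a, c, rfl, h⟩
  | nom i =>
    intro bs pos hE hC a c hc g env henv
    have hi : (1, i) ∈ code φ := hC _ (by simp [code])
    show (A7_model X NL).N i = some (a, c) ↔ (X a).nm i c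
    show (if h : ∃ q : Nd × ℕ, (X q.1).D q.2 ∧ (X q.1).nm i q.2 then some (choose h)
      else none) = some (a, c) ↔ (X a).nm i c
    constructor
    · intro h
      split_ifs at h with hq
      · have := choose_spec hq
        simp only [Option.some.injEq] at h
        rw [h] at this
        exact this.2
    · intro h
      have hq : ∃ q : Nd × ℕ, (X q.1).D q.2 ∧ (X q.1).nm i q.2 := ⟨(a, c), hc, h⟩
      rw [dif_pos hq]
      have := choose_spec hq
      obtain ⟨e1, e2⟩ := hn i hi _ a _ c this.1 hc this.2 h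
      congr 1
      exact Prod.ext e1 e2
  | var x =>
    intro bs pos hE hC a c hc g env henv
    have hi : (2, x) ∈ code φ := hC _ (by simp [code])
    obtain ⟨h1, h2, h3⟩ := henv x
    show g x = some (a, c) ↔ Val (X a) (Fm.var x : Fm B) env c pos
    rcases hlk : lk env x with _ | o
    · have hV : Val (X a) (Fm.var x : Fm B) env c pos = (X a).fv x c := by
        simp only [Val, hlk]
      rw [hV, (h1 hlk).2]
      unfold A7_g0
      constructor
      · intro h
        split_ifs at h with hq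
        · have := choose_spec hq
          simp only [Option.some.injEq] at h
          rw [h] at this
          exact this.2
      · intro h
        have hq : ∃ q : Nd × ℕ, (X q.1).D q.2 ∧ (X q.1).fv x q.2 := ⟨(a, c), hc, h⟩
        rw [dif_pos hq]
        have := choose_spec hq
        obtain ⟨e1, e2⟩ := hf x hi _ a _ c this.1 hc this.2 h
        congr 1
        exact Prod.ext e1 e2
    · rcases o with _ | c'
      · have hV : Val (X a) (Fm.var x : Fm B) env c pos = False := by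
          simp only [Val, hlk]
        rw [hV]
        constructor
        · intro h
          exact ((h2 hlk).2 a c h hc).1 rfl
        · intro h; exact h.elim
      · have hV : Val (X a) (Fm.var x : Fm B) env c pos = (c' = c) := by
          simp only [Val, hlk]
        rw [hV, (h3 c' hlk).2.2]
        simp
  | app i args ih =>
    intro bs pos hE hC a c hc g env henv
    have key : ∀ j, (Holds (A7_model X NL) (args j) g (some (a, c)) ↔
        Val (X a) (args j) env c (pos + 1 + offs args j)) := by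
      intro j
      refine ih j bs _ ?_ ?_ a c hc g env henv
      · intro e he
        apply hE
        simp only [ents, List.mem_flatMap]
        exact ⟨j, List.mem_finRange j, he⟩
      · intro t ht
        apply hC
        simp only [code, List.mem_cons, List.mem_flatMap]
        exact Or.inr ⟨j, List.mem_finRange j, ht⟩
    show ((B.get i).fn fun j => decide (Holds (A7_model X NL) (args j) g (some (a, c)))) = true ↔
      ((B.get i).fn fun j => decide (Val (X a) (args j) env c (pos + 1 + offs args j))) = true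
    simp only [key]
  | dia ψ ih =>
    intro bs pos hE hC a c hc g env henv
    have hE' : ∀ e ∈ ents ψ bs (pos + 1), e ∈ ents φ [] 0 := by
      intro e he; apply hE; simp only [ents, List.mem_cons]; exact Or.inr he
    have he0 : (⟨pos, bs, false, ψ⟩ : Ent B) ∈ ents φ [] 0 := by
      apply hE; simp only [ents, List.mem_cons]; exact Or.inl trivial
    have hC' : ∀ t ∈ code ψ, t ∈ code φ := by
      intro t ht; apply hC; simp only [code, List.mem_cons]; exact Or.inr ht
    show (∃ v, (A7_model X NL).R (some (a, c)) v ∧ Holds (A7_model X NL) ψ g v) ↔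
      ((X a).Z pos ∨ ((X a).refl ∧ ∃ d, (X a).D d ∧ Val (X a) ψ env d (pos + 1)))
    constructor
    · rintro ⟨v, ⟨a', c', b, d, h1, h2, h3, h4, h5⟩, hv⟩
      simp only [Option.some.injEq, Prod.mk.injEq] at h1
      obtain ⟨rfl, rfl⟩ := h1
      subst h2
      rcases h5 with ⟨rfl, hr⟩ | hNL
      · exact Or.inr ⟨hr, d, h4, (ih bs (pos + 1) hE' hC' a d h4 g env henv).1 hv⟩
      · left
        have hval := (ih bs (pos + 1) hE' hC' b d h4 g (dead ℕ bs)
          (A7_env_later X NL htr hirr hNL henv)).1 hv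
        exact (hL a b hNL _ he0).2 ⟨d, h4, by simpa using hval⟩
    · rintro (hZ | ⟨hr, d, hd, hval⟩)
      · obtain ⟨b, hNL, d, hd, hval⟩ := hW a _ he0 hZ
        have hval' : Val (X b) ψ (dead ℕ bs) d (pos + 1) := by simpa using hval
        refine ⟨some (b, d), ⟨a, c, b, d, rfl, rfl, hc, hd, Or.inr hNL⟩, ?_⟩
        exact (ih bs (pos + 1) hE' hC' b d hd g (dead ℕ bs)
          (A7_env_later X NL htr hirr hNL henv)).2 hval'
      · refine ⟨some (a, d), ⟨a, c, a, d, rfl, rfl, hc, hd, Or.inl ⟨rfl, hr⟩⟩, ?_⟩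
        exact (ih bs (pos + 1) hE' hC' a d hd g env henv).2 hval
  | box ψ ih =>
    intro bs pos hE hC a c hc g env henv
    have hE' : ∀ e ∈ ents ψ bs (pos + 1), e ∈ ents φ [] 0 := by
      intro e he; apply hE; simp only [ents, List.mem_cons]; exact Or.inr he
    have he0 : (⟨pos, bs, true, ψ⟩ : Ent B) ∈ ents φ [] 0 := by
      apply hE; simp only [ents, List.mem_cons]; exact Or.inl trivial
    have hC' : ∀ t ∈ code ψ, t ∈ code φ := by
      intro t ht; apply hC; simp only [code, List.mem_cons]; exact Or.inr ht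
    show (∀ v, (A7_model X NL).R (some (a, c)) v → Holds (A7_model X NL) ψ g v) ↔
      (¬ (X a).Z pos ∧ ((X a).refl → ∀ d, (X a).D d → Val (X a) ψ env d (pos + 1)))
    constructor
    · intro hall
      refine ⟨?_, ?_⟩
      · intro hZ
        obtain ⟨b, hNL, d, hd, hval⟩ := hW a _ he0 hZ
        have hval' : ¬ Val (X b) ψ (dead ℕ bs) d (pos + 1) := by simpa using hval
        apply hval'
        refine (ih bs (pos + 1) hE' hC' b d hd g (dead ℕ bs)
          (A7_env_later X NL htr hirr hNL henv)).1 ?_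
        exact hall _ ⟨a, c, b, d, rfl, rfl, hc, hd, Or.inr hNL⟩
      · intro hr d hd
        refine (ih bs (pos + 1) hE' hC' a d hd g env henv).1 ?_
        exact hall _ ⟨a, c, a, d, rfl, rfl, hc, hd, Or.inl ⟨rfl, hr⟩⟩
    · rintro ⟨hZ, hrf⟩ v ⟨a', c', b, d, h1, h2, h3, h4, h5⟩
      simp only [Option.some.injEq, Prod.mk.injEq] at h1
      obtain ⟨rfl, rfl⟩ := h1
      subst h2
      rcases h5 with ⟨rfl, hr⟩ | hNL
      · exact (ih bs (pos + 1) hE' hC' a d h4 g env henv).2 (hrf hr d h4)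
      · by_contra hv
        apply hZ
        have hval : ¬ Val (X b) ψ (dead ℕ bs) d (pos + 1) := by
          intro h
          exact hv ((ih bs (pos + 1) hE' hC' b d h4 g (dead ℕ bs)
            (A7_env_later X NL htr hirr hNL henv)).2 h)
        exact (hL a b hNL _ he0).2 ⟨d, h4, by simpa using hval⟩
  | down x ψ ih =>
    intro bs pos hE hC a c hc g env henv
    have hC' : ∀ t ∈ code ψ, t ∈ code φ := by
      intro t ht; apply hC; simp only [code, List.mem_cons]; exact Or.inr ht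
    show Holds (A7_model X NL) ψ (Function.update g x (some (a, c))) (some (a, c)) ↔
      Val (X a) ψ ((x, some c) :: env) c (pos + 1)
    exact ih (x :: bs) (pos + 1) hE hC' a c hc _ _ (A7_env_down X NL hc henv x)

theorem A7_abs (φ : Fm B) {Nd : Type} (X : Nd → Clus ℕ) (NL : Nd → Nd → Prop)
    (htr : ∀ a b c, NL a b → NL b c → NL a c) (hirr : ∀ a, ¬ NL a a)
    (hL : ∀ a b, NL a b → Later φ (X a) (X b))
    (hW : ∀ a, ∀ e ∈ ents φ [] 0, (X a).Z e.pos → ∃ b, NL a b ∧ Eh (X b) e)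
    (hn : ∀ i, (1, i) ∈ code φ → ∀ a b c d, (X a).D c → (X b).D d → (X a).nm i c →
      (X b).nm i d → a = b ∧ c = d)
    (hf : ∀ x, (2, x) ∈ code φ → ∀ a b c d, (X a).D c → (X b).D d → (X a).fv x c →
      (X b).fv x d → a = b ∧ c = d) (a0 : Nd) (c0 : ℕ) (h0 : (X a0).D c0)
    (hv : Val (X a0) φ [] c0 0) : SatIn .trans φ := by
  refine ⟨A7_model X NL, ?_, A7_g0 X, some (a0, c0), ?_⟩
  · show ∀ x y z, (A7_model X NL).R x y → (A7_model X NL).R y z → (A7_model X NL).R x z
    rintro x y z ⟨a, c, b, d, rfl, rfl, h3, h4, h5⟩ ⟨a', c', b', d', h1', rfl, h3', h4', h5'⟩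
    simp only [Option.some.injEq, Prod.mk.injEq] at h1'
    obtain ⟨rfl, rfl⟩ := h1'
    refine ⟨a, c, b', d', rfl, rfl, h3, h4', ?_⟩
    rcases h5 with ⟨rfl, hr⟩ | hNL
    · exact h5'
    · rcases h5' with ⟨rfl, hr⟩ | hNL'
      · exact Or.inr hNL
      · exact Or.inr (htr _ _ _ hNL hNL')
  · refine (A7_truth φ X NL htr hirr hL hW hn hf φ [] 0 (fun e he => he) (fun t ht => ht) a0 c0 h0
      (A7_g0 X) [] ?_).2 hv
    intro x
    refine ⟨?_, ?_, ?_⟩
    · intro _; exact ⟨by simp, rfl⟩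
    · intro h; simp [lk] at h
    · intro c' h; simp [lk] at h

/-- all rounds can be played -/
def A7_Good (φ : Fm B) (nom : ℕ → XC) (K M : ℕ) (X : XC) : Prop :=
  ∀ t, Surv φ nom K M t X

/-- answer to a request -/
noncomputable def A7_nxt (φ : Fm B) (nom : ℕ → XC) (K M : ℕ) (X : XC) (e : Ent B) : XC :=
  if h : ∃ X', Ans φ nom K M X e X' ∧ A7_Good φ nom K M X' then choose h else X

/-- the structure of a node -/
noncomputable def A7_XX (φ : Fm B) (nom : ℕ → XC) (K M : ℕ) (k : ℕ) : List (Ent B) → XC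
  | [] => nom k
  | e :: l => A7_nxt φ nom K M (A7_XX φ nom K M k l) e

/-- valid nodes -/
def A7_Valid (φ : Fm B) (nom : ℕ → XC) (K M : ℕ) (k : ℕ) : List (Ent B) → Prop
  | [] => k ≤ K
  | e :: l => A7_Valid φ nom K M k l ∧ e ∈ ents φ [] 0 ∧ (A7_XX φ nom K M k l).S.Z e.pos ∧
      ¬ ∃ k' ≤ K, (A7_XX φ nom K M k l).vis k' ∧ Eh (nom k').S e

theorem A7_nxt_spec (φ : Fm B) (nom : ℕ → XC) (K M : ℕ) (X : XC) (e : Ent B)
    (hX : A7_Good φ nom K M X) (he : e ∈ ents φ [] 0) (hZ : X.S.Z e.pos)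
    (hno : ¬ ∃ k ≤ K, X.vis k ∧ Eh (nom k).S e) :
    Ans φ nom K M X e (A7_nxt φ nom K M X e) ∧ A7_Good φ nom K M (A7_nxt φ nom K M X e) := by
  have h : ∃ X', Ans φ nom K M X e X' ∧ A7_Good φ nom K M X' := by
    have h1 := hX (flen φ + K + 2 + 1)
    rcases h1 e he hZ with h2 | ⟨X', h2, h3⟩
    · exact absurd h2 hno
    · exact ⟨X', h2, Surv_all φ nom K M X' h3⟩
  have : A7_nxt φ nom K M X e = choose h := by
    unfold A7_nxt; rw [dif_pos h]
  rw [this]
  exact choose_spec h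

theorem A7_later_trans (φ : Fm B) {S S' S'' : Clus ℕ} (h : Later φ S S') (h' : Later φ S' S'') :
    Later φ S S'' := by
  intro e he
  exact ⟨fun hz => (h e he).1 ((h' e he).1 hz), fun hz => (h e he).1 ((h' e he).2 hz)⟩

theorem A7_valid_le (φ : Fm B) (nom : ℕ → XC) (K M : ℕ) (k : ℕ) : ∀ l,
    A7_Valid φ nom K M k l → k ≤ K
  | [], h => h
  | _ :: l, h => A7_valid_le φ nom K M k l h.1

/-- properties of the valid nodes -/
theorem A7_prop (φ : Fm B) (nom : ℕ → XC) (K M : ℕ)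
    (hnom : ∀ k ≤ K, Bnd M (nom k).S ∧ VisOK φ nom K (nom k) ∧ ¬ (nom k).vis k ∧
      A7_Good φ nom K M (nom k)) (k : ℕ) : ∀ l, A7_Valid φ nom K M k l →
    A7_Good φ nom K M (A7_XX φ nom K M k l) ∧ Bnd M (A7_XX φ nom K M k l).S ∧
      VisOK φ nom K (A7_XX φ nom K M k l)
  | [], h => ⟨(hnom k h).2.2.2, (hnom k h).1, (hnom k h).2.1⟩
  | e :: l, h => by
    obtain ⟨h1, h2, h3, h4⟩ := h
    have hp := A7_prop φ nom K M hnom k l h1
    have := A7_nxt_spec φ nom K M _ e hp.1 h2 h3 h4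
    exact ⟨this.2, this.1.1, this.1.2.2.2.2.2.1⟩

theorem A7_ans (φ : Fm B) (nom : ℕ → XC) (K M : ℕ)
    (hnom : ∀ k ≤ K, Bnd M (nom k).S ∧ VisOK φ nom K (nom k) ∧ ¬ (nom k).vis k ∧
      A7_Good φ nom K M (nom k)) (k : ℕ) (e : Ent B) (l : List (Ent B))
    (h : A7_Valid φ nom K M k (e :: l)) :
    Ans φ nom K M (A7_XX φ nom K M k l) e (A7_XX φ nom K M k (e :: l)) := by
  obtain ⟨h1, h2, h3, h4⟩ := h
  exact (A7_nxt_spec φ nom K M _ e (A7_prop φ nom K M hnom k l h1).1 h2 h3 h4).1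

/-- along paths the visible nodes decrease and the structures are later -/
theorem A7_path (φ : Fm B) (nom : ℕ → XC) (K M : ℕ)
    (hnom : ∀ k ≤ K, Bnd M (nom k).S ∧ VisOK φ nom K (nom k) ∧ ¬ (nom k).vis k ∧
      A7_Good φ nom K M (nom k)) (k : ℕ) (l : List (Ent B)) : ∀ t : List (Ent B),
    A7_Valid φ nom K M k (t ++ l) →
      (∀ m ≤ K, (A7_XX φ nom K M k (t ++ l)).vis m → (A7_XX φ nom K M k l).vis m) ∧
      (t = [] ∨ Later φ (A7_XX φ nom K M k l).S (A7_XX φ nom K M k (t ++ l)).S) ∧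
      A7_Valid φ nom K M k l
  | [], h => ⟨fun _ _ hm => hm, Or.inl rfl, h⟩
  | e :: t, h => by
    have hA := A7_ans φ nom K M hnom k e (t ++ l) h
    obtain ⟨h1, h2, h3⟩ := A7_path φ nom K M hnom k l t h.1
    refine ⟨fun m hm hv => h1 m hm (hA.2.2.2.2.1 m hm hv), Or.inr ?_, h3⟩
    rcases h2 with rfl | h2
    · exact hA.2.2.2.1
    · exact A7_later_trans φ h2 hA.2.2.2.1

/-- order of the nodes -/
def A7_NL (φ : Fm B) (nom : ℕ → XC) (K M : ℕ) (a b : ℕ × List (Ent B)) : Prop :=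
  (a.1 = b.1 ∧ ∃ t, t ≠ [] ∧ b.2 = t ++ a.2) ∨ (A7_XX φ nom K M a.1 a.2).vis b.1

theorem A7_NL_trans (φ : Fm B) (nom : ℕ → XC) (K M : ℕ)
    (hnom : ∀ k ≤ K, Bnd M (nom k).S ∧ VisOK φ nom K (nom k) ∧ ¬ (nom k).vis k ∧
      A7_Good φ nom K M (nom k)) (a b c : ℕ × List (Ent B))
    (ha : A7_Valid φ nom K M a.1 a.2) (hb : A7_Valid φ nom K M b.1 b.2)
    (hc : A7_Valid φ nom K M c.1 c.2)
    (hab : A7_NL φ nom K M a b) (hbc : A7_NL φ nom K M b c) : A7_NL φ nom K M a c := by
  obtain ⟨ka, la⟩ := a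
  obtain ⟨kb, lb⟩ := b
  obtain ⟨kc, lc⟩ := c
  simp only [A7_NL] at hab hbc ⊢
  dsimp only at ha hb hc hab hbc ⊢
  have hkc := A7_valid_le φ nom K M kc lc hc
  have hkb := A7_valid_le φ nom K M kb lb hb
  rcases hab with ⟨rfl, t, ht, rfl⟩ | hab
  · rcases hbc with ⟨rfl, s, hs, rfl⟩ | hbc
    · left
      refine ⟨rfl, s ++ t, ?_, by simp⟩
      simp [hs]
    · right
      exact (A7_path φ nom K M hnom ka la t hb).1 kc hkc hbc
  · rcases hbc with ⟨rfl, s, hs, rfl⟩ | hbc
    · right; exact hab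
    · right
      have h1 : (nom kb).vis kc := by
        have := (A7_path φ nom K M hnom kb [] lb (by simpa using hb)).1 kc hkc
          (by simpa using hbc)
        simpa [A7_XX] using this
      exact ((A7_prop φ nom K M hnom ka la ha).2.2 kb hkb hab).2 kc hkc h1

theorem A7_NL_irrefl (φ : Fm B) (nom : ℕ → XC) (K M : ℕ)
    (hnom : ∀ k ≤ K, Bnd M (nom k).S ∧ VisOK φ nom K (nom k) ∧ ¬ (nom k).vis k ∧
      A7_Good φ nom K M (nom k)) (a : ℕ × List (Ent B))
    (ha : A7_Valid φ nom K M a.1 a.2) : ¬ A7_NL φ nom K M a a := by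
  obtain ⟨k, l⟩ := a
  simp only [A7_NL]
  dsimp only at ha ⊢
  have hk := A7_valid_le φ nom K M k l ha
  rintro (⟨-, t, ht, h⟩ | h)
  · have := congrArg List.length h
    rw [List.length_append] at this
    exact ht (List.eq_nil_of_length_eq_zero (by omega))
  · have h1 := (A7_path φ nom K M hnom k [] l (by simpa using ha)).1 k hk (by simpa using h)
    exact (hnom k hk).2.2.1 (by simpa [A7_XX] using h1)

theorem A7_NL_later (φ : Fm B) (nom : ℕ → XC) (K M : ℕ)
    (hnom : ∀ k ≤ K, Bnd M (nom k).S ∧ VisOK φ nom K (nom k) ∧ ¬ (nom k).vis k ∧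
      A7_Good φ nom K M (nom k)) (a b : ℕ × List (Ent B))
    (ha : A7_Valid φ nom K M a.1 a.2) (hb : A7_Valid φ nom K M b.1 b.2)
    (hab : A7_NL φ nom K M a b) :
    Later φ (A7_XX φ nom K M a.1 a.2).S (A7_XX φ nom K M b.1 b.2).S := by
  obtain ⟨ka, la⟩ := a
  obtain ⟨kb, lb⟩ := b
  simp only [A7_NL] at hab
  dsimp only at ha hb hab ⊢
  have hkb := A7_valid_le φ nom K M kb lb hb
  rcases hab with ⟨rfl, t, ht, rfl⟩ | hab
  · rcases (A7_path φ nom K M hnom ka la t hb).2.1 with h | h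
    · exact absurd h ht
    · exact h
  · have h1 := ((A7_prop φ nom K M hnom ka la ha).2.2 kb hkb hab).1
    have h2 := (A7_path φ nom K M hnom kb [] lb (by simpa using hb)).2.1
    rcases h2 with rfl | h2
    · exact h1
    · have h3 : Later φ (nom kb).S (A7_XX φ nom K M kb lb).S := by
        simpa [A7_XX] using h2
      exact A7_later_trans φ h1 h3

theorem trans_sound (φ : Fm B) (K M : ℕ) (h : TData φ K M (flen φ + K + 3)) :
    SatIn .trans φ := by
  obtain ⟨nom, h1, hnm, hfv, c0, hc0, hv0⟩ := h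
  have hnom : ∀ k ≤ K, Bnd M (nom k).S ∧ VisOK φ nom K (nom k) ∧ ¬ (nom k).vis k ∧
      A7_Good φ nom K M (nom k) := by
    intro k hk
    obtain ⟨e1, e2, e3, e4⟩ := h1 k hk
    exact ⟨e1, e2, e3, Surv_all φ nom K M _ (Surv_mono φ nom K M (by omega) _ e4)⟩
  -- the nodes
  let Nd : Type := {p : ℕ × List (Ent B) // A7_Valid φ nom K M p.1 p.2}
  let X : Nd → Clus ℕ := fun p => (A7_XX φ nom K M p.1.1 p.1.2).S
  let NL : Nd → Nd → Prop := fun a b => A7_NL φ nom K M a.1 b.1
  have hnames : ∀ (a : Nd) (c : ℕ), (X a).D c → ((∃ i, (X a).nm i c) ∨ ∃ x, (X a).fv x c) →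
      a.1.2 = [] := by
    rintro ⟨⟨k, l⟩, ha⟩ c hc hh
    rcases l with _ | ⟨e, l⟩
    · rfl
    · exfalso
      have hA := A7_ans φ nom K M hnom k e l ha
      rcases hh with ⟨i, hi⟩ | ⟨x, hx⟩
      · exact hA.2.1 i c hi
      · exact hA.2.2.1 x c hx
  refine A7_abs φ X NL ?_ ?_ ?_ ?_ ?_ ?_ ⟨(0, []), Nat.zero_le K⟩ c0 hc0 hv0
  · intro a b c hab hbc
    exact A7_NL_trans φ nom K M hnom a.1 b.1 c.1 a.2 b.2 c.2 hab hbc
  · intro a
    exact A7_NL_irrefl φ nom K M hnom a.1 a.2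
  · intro a b hab
    exact A7_NL_later φ nom K M hnom a.1 b.1 a.2 b.2 hab
  · rintro ⟨⟨k, l⟩, ha⟩ e he hZ
    by_cases hq : ∃ k' ≤ K, (A7_XX φ nom K M k l).vis k' ∧ Eh (nom k').S e
    · obtain ⟨k', hk', hv, hEh⟩ := hq
      exact ⟨⟨(k', []), hk'⟩, Or.inr hv, hEh⟩
    · have hval : A7_Valid φ nom K M k (e :: l) := ⟨ha, he, hZ, hq⟩
      refine ⟨⟨(k, e :: l), hval⟩, Or.inl ⟨rfl, [e], by simp, rfl⟩, ?_⟩
      exact (A7_ans φ nom K M hnom k e l hval).2.2.2.2.2.2
  · intro i hi a b c d hc hd hca hdb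
    have ha := hnames a c hc (Or.inl ⟨i, hca⟩)
    have hb := hnames b d hd (Or.inl ⟨i, hdb⟩)
    obtain ⟨⟨k, l⟩, hva⟩ := a
    obtain ⟨⟨k', l'⟩, hvb⟩ := b
    dsimp only at ha hb
    subst ha; subst hb
    have hk : k ≤ K := hva
    have hk' : k' ≤ K := hvb
    obtain ⟨e1, e2⟩ := hnm i hi k hk k' hk' c d ((hnom k hk).1 c hc) ((hnom k' hk').1 d hd)
      hca hdb
    subst e1
    exact ⟨rfl, e2⟩
  · intro i hi a b c d hc hd hca hdb
    have ha := hnames a c hc (Or.inr ⟨i, hca⟩)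
    have hb := hnames b d hd (Or.inr ⟨i, hdb⟩)
    obtain ⟨⟨k, l⟩, hva⟩ := a
    obtain ⟨⟨k', l'⟩, hvb⟩ := b
    dsimp only at ha hb
    subst ha; subst hb
    have hk : k ≤ K := hva
    have hk' : k' ≤ K := hvb
    obtain ⟨e1, e2⟩ := hfv i hi k hk k' hk' c d ((hnom k hk).1 c hc) ((hnom k' hk').1 d hd)
      hca hdb
    subst e1
    exact ⟨rfl, e2⟩

end Pool.Agent.Lib.MP_bba6cc_lc
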