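import Pool.Agent.Lib.MP_bba6cc_lc.Qbf

/-!
# Clusters, evaluation in a cluster, the game for transitive frames: definitions
-/

namespace Pool.Agent.Lib.MP_bba6cc_lc

open Classical

variable {B : List BFun}

/-- number of symbols in the arguments before the `j`-th one -/
def offs {n : ℕ} (args : Fin n → Fm B) (j : Fin n) : ℕ :=
  ∑ k : Fin n, if k < j then (code (args k)).length else 0

/-- A cluster, seen from inside: the set `D` of its points, the propositions, the nominals and the
free variables at the points, the later diamonds `Z pos` (`pos` = position of a `◇` or `□` in the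
word of the formula: its body - for `□` its negated body - holds at a later world), and whether
the cluster is reflexive. -/
structure Clus (W : Type) where
  D : W → Prop
  V : ℕ → W → Prop
  nm : ℕ → W → Prop
  fv : ℕ → W → Prop
  Z : ℕ → Prop
  refl : Prop

/-- value of a variable in an environment: `none` = not bound, `some none` = bound to a world that
is no longer reachable (`dead`), `some (some c)` = bound to `c` -/
def lk {W : Type} (env : List (ℕ × Option W)) (x : ℕ) : Option (Option W) :=
  (env.find? (fun e => decide (e.1 = x))).map (fun e => e.2)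

/-- truth in a cluster at the point `c`; `pos` is the position of the formula in the whole word -/
def Val {W : Type} (S : Clus W) : Fm B → List (ℕ × Option W) → W → ℕ → Prop
  | .prp p, _, c, _ => S.V p c
  | .nom i, _, c, _ => S.nm i c
  | .var x, env, c, _ => match lk env x with
    | some (some d) => d = c
    | some none => False
    | none => S.fv x c
  | .app i args, env, c, pos =>
    (B.get i).fn (fun j => decide (Val S (args j) env c (pos + 1 + offs args j))) = true
  | .dia φ, env, c, pos => S.Z pos ∨ (S.refl ∧ ∃ d, S.D d ∧ Val S φ env d (pos + 1))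
  | .box φ, env, c, pos => ¬ S.Z pos ∧ (S.refl → ∀ d, S.D d → Val S φ env d (pos + 1))
  | .down x φ, env, c, pos => Val S φ ((x, some c) :: env) c (pos + 1)

/-- an occurrence of `◇` or `□`: position, bound variables, `neg = true` for `□`, body -/
structure Ent (B : List BFun) where
  pos : ℕ
  bs : List ℕ
  neg : Bool
  body : Fm B

/-- the occurrences of `◇` and `□` -/
def ents : Fm B → List ℕ → ℕ → List (Ent B)
  | .prp _, _, _ => []
  | .nom _, _, _ => []
  | .var _, _, _ => []
  | .app _ args, bs, pos =>
    (List.finRange _).flatMap fun j => ents (args j) bs (pos + 1 + offs args j)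
  | .dia φ, bs, pos => ⟨pos, bs, false, φ⟩ :: ents φ bs (pos + 1)
  | .box φ, bs, pos => ⟨pos, bs, true, φ⟩ :: ents φ bs (pos + 1)
  | .down x φ, bs, pos => ents φ (x :: bs) (pos + 1)

/-- all variables of the list are dead -/
def dead (W : Type) (bs : List ℕ) : List (ℕ × Option W) := bs.map fun x => (x, none)

/-- the body of the occurrence `e` holds at a point of the cluster, when all variables bound above
`e` are dead (for `□`: the body fails) -/
def Eh {W : Type} (S : Clus W) (e : Ent B) : Prop :=
  ∃ d, S.D d ∧ (Val S e.body (dead W e.bs) d (e.pos + 1) ↔ e.neg = false)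

/-- restriction of the set of points -/
def Clus.res {W : Type} (S : Clus W) (D' : W → Prop) : Clus W := { S with D := D' }

/-- pull back along an enumeration of the points -/
def Clus.pull {W : Type} (S : Clus W) (e : ℕ → W) (m : ℕ) : Clus ℕ where
  D := fun j => j < m
  V := fun p j => S.V p (e j)
  nm := fun i j => j < m ∧ S.nm i (e j)
  fv := fun x j => j < m ∧ S.fv x (e j)
  Z := S.Z
  refl := S.refl

/-- the subformulas (one for each symbol) -/
def fsubs : Fm B → List (Fm B)
  | .prp p => [.prp p]
  | .nom i => [.nom i]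
  | .var x => [.var x]
  | .app i args => .app i args :: (List.finRange _).flatMap fun j => fsubs (args j)
  | .dia φ => .dia φ :: fsubs φ
  | .box φ => .box φ :: fsubs φ
  | .down x φ => .down x φ :: fsubs φ

/-- number of symbols -/
def flen (φ : Fm B) : ℕ := (code φ).length

/-- bound of the number of points of a cluster -/
def msz (n : ℕ) : ℕ := 5 * (n + 1) ^ 2

/-- satisfiability data for equivalence relations: a cluster without later worlds -/
def ErData (φ : Fm B) (M : ℕ) : Prop :=
  ∃ S : Clus ℕ, S.refl ∧ (∀ e ∈ ents φ [] 0, ¬ S.Z e.pos) ∧ (∀ j, S.D j → j < M) ∧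
    (∀ i, (1, i) ∈ code φ → ∀ c d, c < M → d < M → S.nm i c → S.nm i d → c = d) ∧
    (∀ x, (2, x) ∈ code φ → ∀ c d, c < M → d < M → S.fv x c → S.fv x d → c = d) ∧
    ∃ c, S.D c ∧ Val S φ [] c 0

/-! ### the game for transitive frames -/

/-- a cluster with the set of the visible named clusters -/
structure XC where
  S : Clus ℕ
  vis : ℕ → Prop

/-- `S'` may be later than `S` -/
def Later (φ : Fm B) (S S' : Clus ℕ) : Prop :=
  ∀ e ∈ ents φ [] 0, (S'.Z e.pos → S.Z e.pos) ∧ (Eh S' e → S.Z e.pos)

/-- the visible named clusters are later -/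
def VisOK (φ : Fm B) (nom : ℕ → XC) (K : ℕ) (X : XC) : Prop :=
  ∀ k ≤ K, X.vis k → Later φ X.S (nom k).S ∧ ∀ l ≤ K, (nom k).vis l → X.vis l

/-- there are at most `M` points -/
def Bnd (M : ℕ) (S : Clus ℕ) : Prop := ∀ j, S.D j → j < M

/-- `X'` is a legal answer to the request `e` at `X` -/
def Ans (φ : Fm B) (nom : ℕ → XC) (K M : ℕ) (X : XC) (e : Ent B) (X' : XC) : Prop :=
  Bnd M X'.S ∧ (∀ i c, ¬ X'.S.nm i c) ∧ (∀ x c, ¬ X'.S.fv x c) ∧ Later φ X.S X'.S ∧
    (∀ k ≤ K, X'.vis k → X.vis k) ∧ VisOK φ nom K X' ∧ Eh X'.S e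

/-- the requests can be answered for `t` rounds -/
def Surv (φ : Fm B) (nom : ℕ → XC) (K M : ℕ) : ℕ → XC → Prop
  | 0, _ => True
  | t + 1, X => ∀ e ∈ ents φ [] 0, X.S.Z e.pos →
      (∃ k ≤ K, X.vis k ∧ Eh (nom k).S e) ∨ ∃ X', Ans φ nom K M X e X' ∧ Surv φ nom K M t X'

/-- the data: named clusters `nom 0, …, nom K`, where `nom 0` contains the starting world -/
def TData (φ : Fm B) (K M T : ℕ) : Prop :=
  ∃ nom : ℕ → XC,
    (∀ k ≤ K, Bnd M (nom k).S ∧ VisOK φ nom K (nom k) ∧ ¬ (nom k).vis k ∧
      Surv φ nom K M T (nom k)) ∧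
    (∀ i, (1, i) ∈ code φ → ∀ k ≤ K, ∀ l ≤ K, ∀ c d, c < M → d < M →
      (nom k).S.nm i c → (nom l).S.nm i d → k = l ∧ c = d) ∧
    (∀ x, (2, x) ∈ code φ → ∀ k ≤ K, ∀ l ≤ K, ∀ c d, c < M → d < M →
      (nom k).S.fv x c → (nom l).S.fv x d → k = l ∧ c = d) ∧
    ∃ c, (nom 0).S.D c ∧ Val (nom 0).S φ [] c 0

end Pool.Agent.Lib.MP_bba6cc_lc
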