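import Pool.Agent.Lib.MP_bba6cc_lc.QDefs

/-!
# Auxiliary definitions
-/

namespace Pool.Agent.Lib.MP_bba6cc_lc

open Classical

variable {B : List BFun}

/-- assignment with dead bound variables -/
noncomputable def gd {W : Type} (g0 : ℕ → W) (δ : W) (bs : List ℕ) (x : ℕ) : W :=
  if x ∈ bs then δ else g0 x

/-- adding an isolated world -/
def addPt (M : Model) : Model where
  W := Option M.W
  R := fun a b => ∃ u v, a = some u ∧ b = some v ∧ M.R u v
  V := fun p a => ∃ u, a = some u ∧ M.V p u
  N := fun i => some (M.N i)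

/-- the cluster of a world -/
def Cl (M : Model) (w v : M.W) : Prop := v = w ∨ (M.R w v ∧ M.R v w)

/-- strictly later -/
def Lw (M : Model) (w v : M.W) : Prop := M.R w v ∧ ¬ M.R v w

/-- the cluster of `w` with the information on later worlds -/
noncomputable def big (M : Model) (g0 : ℕ → M.W) (δ : M.W) (φ : Fm B) (w : M.W) : Clus M.W where
  D := Cl M w
  V := M.V
  nm := fun i c => M.N i = c
  fv := fun x c => g0 x = c
  Z := fun pos => ∃ e ∈ ents φ [] 0, e.pos = pos ∧ ∃ v, Lw M w v ∧
    (Holds M e.body (gd g0 δ e.bs) v ↔ e.neg = false)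
  refl := M.R w w

/-- the extended structure given by an assignment; the structures `s > K` have no names -/
noncomputable def decX (M K : ℕ) (ρ : ℕ → Bool) (s : ℕ) : XC :=
  ⟨decS s M (decide (s ≤ K)) ρ, fun k => ρ (vI s k) = true⟩

end Pool.Agent.Lib.MP_bba6cc_lc
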