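import Pool.Agent.Lib.MP_bba6cc_lc.TQ2
import Pool.Agent.Lib.MP_bba6cc_lc.TA4

/-!
# The quantified formula for equivalence relations
-/

namespace Pool.Agent.Lib.MP_bba6cc_lc

open Classical

variable {B : List BFun}

/-! ## Row Q3: equivalence relations -/

theorem Q3_and (a b : QF) (ρ : ℕ → Bool) :
    (QF.and a b).eval ρ = true ↔ a.eval ρ = true ∧ b.eval ρ = true := by
  simp [QF.eval]

theorem Q3_names (φ : Fm B) (M : ℕ) (ρ : ℕ → Bool) : (qNames φ M 0).eval ρ = true ↔
    (∀ i, (1, i) ∈ code φ → ∀ c d, c < M → d < M → ρ (vN 0 c i) = true → ρ (vN 0 d i) = true →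
      c = d) ∧
    (∀ x, (2, x) ∈ code φ → ∀ c d, c < M → d < M → ρ (vF 0 c x) = true → ρ (vF 0 d x) = true →
      c = d) := by
  have h1 : ∀ (f : ℕ × ℕ → ℕ), (qam1 ((List.range (0 + 1)).product (List.range M)) f).eval ρ = true ↔
      ∀ c d, c < M → d < M → ρ (f (0, c)) = true → ρ (f (0, d)) = true → c = d := by
    intro f
    rw [qam1_eval]
    constructor
    · intro h c d hc hd h1 h2
      have := h (0, c) (by rw [List.product]; simp [hc]) (0, d) (by rw [List.product]; simp [hd]) h1 h2
      exact (Prod.mk.inj this).2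
    · rintro h ⟨a, c⟩ hc ⟨b, d⟩ hd h1 h2
      rw [List.pair_mem_product] at hc hd
      simp only [List.mem_range] at hc hd
      have ha : a = 0 := by omega
      have hb : b = 0 := by omega
      subst ha
      subst hb
      rw [h c d hc.2 hd.2 h1 h2]
  unfold qNames
  rw [qands_eval]
  constructor
  · intro h
    refine ⟨fun i hi => ?_, fun x hx => ?_⟩
    · have := h _ (List.mem_map.2 ⟨(1, i), hi, rfl⟩)
      simp only [if_true] at this
      exact (h1 _).1 this
    · have := h _ (List.mem_map.2 ⟨(2, x), hx, rfl⟩)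
      have h21 : ¬ ((2 : ℕ) = 1) := by decide
      simp only [h21, if_false, if_true] at this
      exact (h1 _).1 this
  · rintro ⟨hn, hf⟩ q hq
    obtain ⟨⟨a, b⟩, ht, rfl⟩ := List.mem_map.1 hq
    by_cases ha : a = 1
    · subst ha
      simp only [if_true]
      exact (h1 _).2 (hn b ht)
    · by_cases ha' : a = 2
      · subst ha'
        simp only [ha, if_false, if_true]
        exact (h1 _).2 (hf b ht)
      · simp only [ha, ha', if_false]
        rfl

theorem Q3_all (hB : ∀ f ∈ B, IsAffine f) (φ : Fm B) (M : ℕ) (ρ : ℕ → Bool) :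
    (qEr φ M).eval ρ = true ↔
      (∀ e ∈ ents φ [] 0, ρ (vZ 0 e.pos) ≠ true) ∧ ρ (vR 0) = true ∧
      ((∀ i, (1, i) ∈ code φ → ∀ c d, c < M → d < M → ρ (vN 0 c i) = true →
        ρ (vN 0 d i) = true → c = d) ∧
      (∀ x, (2, x) ∈ code φ → ∀ c d, c < M → d < M → ρ (vF 0 c x) = true →
        ρ (vF 0 d x) = true → c = d)) ∧
      ∃ c, (decS 0 M true ρ).D c ∧
      (∀ i < M, ρ (vC 0 i) = decide (i = c)) ∧ Val (decS 0 M true ρ) φ [] c 0 := by
  unfold qEr
  rw [Q3_and, Q3_and, Q3_and, Q3_names, qStart_eval hB, qands_eval]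
  refine and_congr ?_ (and_congr (by simp [QF.eval]) Iff.rfl)
  constructor
  · intro h e he
    have := h _ (List.mem_map.2 ⟨e, he, rfl⟩)
    rw [qnot_eval] at this
    simpa [QF.eval] using this
  · intro h q hq
    obtain ⟨e, he, rfl⟩ := List.mem_map.1 hq
    rw [qnot_eval]
    simpa [QF.eval] using h e he

/-- `(→)` decode by `decS 0 M true ρ`; `(←)` `exists_enc` (`fC 0 j = decide (j = c)`). -/
theorem qEr_spec (hB : ∀ f ∈ B, IsAffine f) (φ : Fm B) (M : ℕ) :
    (∃ ρ, (qEr φ M).eval ρ = true) ↔ ErData φ M := by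
  constructor
  · rintro ⟨ρ, h⟩
    rw [Q3_all hB] at h
    obtain ⟨h1, h2, ⟨h3, h4⟩, c, h5, h6, h7⟩ := h
    exact ⟨decS 0 M true ρ, h2, h1, fun j hj => hj.1,
      fun i hi c d hc hd hnc hnd => h3 i hi c d hc hd hnc.2 hnd.2,
      fun x hx c d hc hd hnc hnd => h4 x hx c d hc hd hnc.2 hnd.2, c, h5, h7⟩
  · rintro ⟨S, h1, h2, h3, h4, h5, c, h6, h7⟩
    obtain ⟨ρ, eV, eN, eF, eZ, eD, eR, eI, eC, eP⟩ := exists_enc
      (fun _ j p => decide (S.V p j)) (fun _ j i => decide (S.nm i j))
      (fun _ j x => decide (S.fv x j)) (fun _ p => decide (S.Z p)) (fun _ j => decide (S.D j))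
      (fun _ _ => false) (fun _ j => decide (j = c)) (fun _ _ => false) (fun _ => true)
    have hS : decS 0 M true ρ = S := by
      have e1 : (decS 0 M true ρ).D = S.D := by
        funext j
        refine propext ⟨fun h => ?_, fun h => ⟨h3 j h, ?_⟩⟩
        · have := h.2
          rw [eD] at this
          exact of_decide_eq_true this
        · rw [eD]; exact decide_eq_true h
      have e2 : (decS 0 M true ρ).V = S.V := by
        funext p j
        show (ρ (vV 0 j p) = true) = S.V p j
        rw [eV]; simp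
      have e3 : (decS 0 M true ρ).nm = S.nm := by
        funext i j
        show (true = true ∧ ρ (vN 0 j i) = true) = S.nm i j
        rw [eN]; simp
      have e4 : (decS 0 M true ρ).fv = S.fv := by
        funext i j
        show (true = true ∧ ρ (vF 0 j i) = true) = S.fv i j
        rw [eF]; simp
      have e5 : (decS 0 M true ρ).Z = S.Z := by
        funext p
        show (ρ (vZ 0 p) = true) = S.Z p
        rw [eZ]; simp
      have e6 : (decS 0 M true ρ).refl = S.refl := by
        show (ρ (vR 0) = true) = S.refl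
        rw [eR]; simp [h1]
      revert e1 e2 e3 e4 e5 e6
      generalize decS 0 M true ρ = S'
      cases S
      cases S'
      rintro rfl rfl rfl rfl rfl rfl
      rfl
    refine ⟨ρ, (Q3_all hB φ M ρ).2 ⟨fun e he => ?_, eR 0, ⟨fun i hi c d hc hd hnc hnd => ?_,
      fun x hx c d hc hd hnc hnd => ?_⟩, c, ?_, fun i _ => eC 0 i, ?_⟩⟩
    · rw [eZ]; simpa using h2 e he
    · rw [eN] at hnc hnd
      exact h4 i hi c d hc hd (of_decide_eq_true hnc) (of_decide_eq_true hnd)
    · rw [eF] at hnc hnd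
      exact h5 x hx c d hc hd (of_decide_eq_true hnc) (of_decide_eq_true hnd)
    · rw [hS]; exact h6
    · rw [hS]; exact h7

end Pool.Agent.Lib.MP_bba6cc_lc
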