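import Pool.Agent.Lib.MP_bba6cc_lc.TQ4a

/-!
# The quantified formula for transitive frames
-/

namespace Pool.Agent.Lib.MP_bba6cc_lc

open Classical

variable {B : List BFun}

theorem Q4b_names (φ : Fm B) (M K : ℕ) (ρ : ℕ → Bool) : (qNames φ M K).eval ρ = true ↔
    ((∀ i, (1, i) ∈ code φ → ∀ k ≤ K, ∀ l ≤ K, ∀ c d, c < M → d < M →
      (decX M K ρ k).S.nm i c → (decX M K ρ l).S.nm i d → k = l ∧ c = d) ∧
    (∀ x, (2, x) ∈ code φ → ∀ k ≤ K, ∀ l ≤ K, ∀ c d, c < M → d < M →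
      (decX M K ρ k).S.fv x c → (decX M K ρ l).S.fv x d → k = l ∧ c = d)) := by
  unfold qNames
  rw [qands_eval]
  constructor
  · intro h
    constructor
    · intro i hi k hk l hl c d hc hd h1 h2
      have h3 := h _ (List.mem_map.2 ⟨(1, i), hi, rfl⟩)
      rw [if_pos rfl, qam1_eval] at h3
      have h4 := h3 (k, c) (List.mem_product.2 ⟨List.mem_range.2 (by omega), List.mem_range.2 hc⟩)
        (l, d) (List.mem_product.2 ⟨List.mem_range.2 (by omega), List.mem_range.2 hd⟩) h1.2 h2.2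
      exact ⟨congrArg Prod.fst h4, congrArg Prod.snd h4⟩
    · intro i hi k hk l hl c d hc hd h1 h2
      have h3 := h _ (List.mem_map.2 ⟨(2, i), hi, rfl⟩)
      rw [if_neg (by norm_num), if_pos rfl, qam1_eval] at h3
      have h4 := h3 (k, c) (List.mem_product.2 ⟨List.mem_range.2 (by omega), List.mem_range.2 hc⟩)
        (l, d) (List.mem_product.2 ⟨List.mem_range.2 (by omega), List.mem_range.2 hd⟩) h1.2 h2.2
      exact ⟨congrArg Prod.fst h4, congrArg Prod.snd h4⟩
  · rintro ⟨hN, hF⟩ q hq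
    obtain ⟨⟨t1, t2⟩, ht, rfl⟩ := List.mem_map.1 hq
    by_cases h1 : t1 = 1
    · subst h1
      rw [if_pos rfl, qam1_eval]
      rintro ⟨k, c⟩ ha ⟨l, d⟩ hb e1 e2
      obtain ⟨ha1, ha2⟩ := List.mem_product.1 ha
      obtain ⟨hb1, hb2⟩ := List.mem_product.1 hb
      have ha1' := List.mem_range.1 ha1
      have ha2' := List.mem_range.1 ha2
      have hb1' := List.mem_range.1 hb1
      have hb2' := List.mem_range.1 hb2
      have := hN t2 ht k (by omega) l (by omega) c d ha2' hb2'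
        ⟨decide_eq_true (by omega), e1⟩ ⟨decide_eq_true (by omega), e2⟩
      exact Prod.ext this.1 this.2
    · by_cases h2 : t1 = 2
      · subst h2
        rw [if_neg (by norm_num), if_pos rfl, qam1_eval]
        rintro ⟨k, c⟩ ha ⟨l, d⟩ hb e1 e2
        obtain ⟨ha1, ha2⟩ := List.mem_product.1 ha
        obtain ⟨hb1, hb2⟩ := List.mem_product.1 hb
        have ha1' := List.mem_range.1 ha1
        have ha2' := List.mem_range.1 ha2
        have hb1' := List.mem_range.1 hb1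
        have hb2' := List.mem_range.1 hb2
        have := hF t2 ht k (by omega) l (by omega) c d ha2' hb2'
          ⟨decide_eq_true (by omega), e1⟩ ⟨decide_eq_true (by omega), e2⟩
        exact Prod.ext this.1 this.2
      · rw [if_neg h1, if_neg h2]
        rfl

theorem Q4b_dec0 (M K : ℕ) (ρ : ℕ → Bool) : (decX M K ρ 0).S = decS 0 M true ρ := by
  have : decide (0 ≤ K) = true := decide_eq_true (Nat.zero_le K)
  show decS 0 M (decide (0 ≤ K)) ρ = decS 0 M true ρ
  rw [this]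

theorem Q4b_eval (hB : ∀ f ∈ B, IsAffine f) (φ : Fm B) (M K T : ℕ) (ρ : ℕ → Bool) :
    (qTrans φ M K T).eval ρ = true ↔
      (∀ k ≤ K, VisOK φ (decX M K ρ) K (decX M K ρ k) ∧ ¬ (decX M K ρ k).vis k ∧
        Surv φ (decX M K ρ) K M T (decX M K ρ k)) ∧
      ((∀ i, (1, i) ∈ code φ → ∀ k ≤ K, ∀ l ≤ K, ∀ c d, c < M → d < M →
        (decX M K ρ k).S.nm i c → (decX M K ρ l).S.nm i d → k = l ∧ c = d) ∧
      (∀ x, (2, x) ∈ code φ → ∀ k ≤ K, ∀ l ≤ K, ∀ c d, c < M → d < M →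
        (decX M K ρ k).S.fv x c → (decX M K ρ l).S.fv x d → k = l ∧ c = d)) ∧
      ∃ c, (decX M K ρ 0).S.D c ∧ (∀ i < M, ρ (vC 0 i) = decide (i = c)) ∧
        Val (decX M K ρ 0).S φ [] c 0 := by
  rw [Q4b_dec0, ← qStart_eval hB φ M ρ, ← Q4b_names φ M K ρ]
  unfold qTrans
  simp only [QF.eval, Bool.and_eq_true, qands_eval, List.mem_map, List.mem_range]
  constructor
  · rintro ⟨h1, h2, h3⟩
    refine ⟨fun k hk => ?_, h2, h3⟩
    have h4 := h1 _ ⟨k, by omega, rfl⟩
    simp only [QF.eval, Bool.and_eq_true, qnot_eval] at h4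
    obtain ⟨h5, h6, h7⟩ := h4
    refine ⟨(qVis_eval hB φ M K k ρ).1 h5, ?_, (qSurv_eval hB φ M K T k ρ (Or.inl hk)).1 h7⟩
    intro h8
    have h9 : ρ (vI k k) = true := h8
    rw [h9] at h6
    simp at h6
  · rintro ⟨h1, h2, h3⟩
    refine ⟨?_, h2, h3⟩
    rintro q ⟨k, hk, rfl⟩
    have hk' : k ≤ K := by omega
    obtain ⟨h5, h6, h7⟩ := h1 k hk'
    simp only [QF.eval, Bool.and_eq_true, qnot_eval]
    refine ⟨(qVis_eval hB φ M K k ρ).2 h5, ?_, (qSurv_eval hB φ M K T k ρ (Or.inl hk')).2 h7⟩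
    have h9 : ¬ ρ (vI k k) = true := h6
    simpa using h9

theorem Q4b_ext {X Y : XC} (h1 : ∀ j, X.S.D j ↔ Y.S.D j) (h2 : ∀ p j, X.S.V p j ↔ Y.S.V p j)
    (h3 : ∀ p j, X.S.nm p j ↔ Y.S.nm p j) (h4 : ∀ p j, X.S.fv p j ↔ Y.S.fv p j)
    (h5 : ∀ p, X.S.Z p ↔ Y.S.Z p) (h6 : X.S.refl ↔ Y.S.refl) (h7 : ∀ k, X.vis k ↔ Y.vis k) :
    X = Y := by
  obtain ⟨⟨D, V, nm, fv, Z, r⟩, vis⟩ := X
  obtain ⟨⟨D', V', nm', fv', Z', r'⟩, vis'⟩ := Y
  have e1 : D = D' := funext fun j => propext (h1 j)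
  have e2 : V = V' := funext fun p => funext fun j => propext (h2 p j)
  have e3 : nm = nm' := funext fun p => funext fun j => propext (h3 p j)
  have e4 : fv = fv' := funext fun p => funext fun j => propext (h4 p j)
  have e5 : Z = Z' := funext fun p => propext (h5 p)
  have e6 : r = r' := propext h6
  have e7 : vis = vis' := funext fun k => propext (h7 k)
  subst e1 e2 e3 e4 e5 e6 e7
  rfl

theorem qTrans_spec (hB : ∀ f ∈ B, IsAffine f) (φ : Fm B) (M K T : ℕ) :
    (∃ ρ, (qTrans φ M K T).eval ρ = true) ↔ TData φ K M T := by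
  constructor
  · rintro ⟨ρ, h⟩
    obtain ⟨h1, ⟨h2, h3⟩, c, hc1, -, hc2⟩ := (Q4b_eval hB φ M K T ρ).1 h
    exact ⟨decX M K ρ, fun k hk => ⟨fun j hj => hj.1, h1 k hk⟩, h2, h3, c, hc1, hc2⟩
  · rintro ⟨nom, h1, h2, h3, c, hc1, hc2⟩
    obtain ⟨ρ, eV, eN, eF, eZ, eD, eR, eI, eC, -⟩ := exists_enc
      (fun s j p => decide ((nom s).S.V p j)) (fun s j i => decide ((nom s).S.nm i j))
      (fun s j x => decide ((nom s).S.fv x j)) (fun s p => decide ((nom s).S.Z p))
      (fun s j => decide ((nom s).S.D j)) (fun s k => decide ((nom s).vis k))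
      (fun _ j => decide (j = c)) (fun _ _ => true) (fun s => decide ((nom s).S.refl))
    have key : ∀ k ≤ K, decX M K ρ k = nom k := by
      intro k hk
      have hb := (h1 k hk).1
      apply Q4b_ext
      · intro j
        show (j < M ∧ ρ (vD k j) = true) ↔ _
        rw [eD, decide_eq_true_iff]
        exact ⟨fun h => h.2, fun h => ⟨hb j h, h⟩⟩
      · intro p j
        show ρ (vV k j p) = true ↔ _
        rw [eV, decide_eq_true_iff]
      · intro p j
        show (decide (k ≤ K) = true ∧ ρ (vN k j p) = true) ↔ _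
        rw [eN, decide_eq_true_iff, decide_eq_true_iff]
        exact ⟨fun h => h.2, fun h => ⟨hk, h⟩⟩
      · intro p j
        show (decide (k ≤ K) = true ∧ ρ (vF k j p) = true) ↔ _
        rw [eF, decide_eq_true_iff, decide_eq_true_iff]
        exact ⟨fun h => h.2, fun h => ⟨hk, h⟩⟩
      · intro p
        show ρ (vZ k p) = true ↔ _
        rw [eZ, decide_eq_true_iff]
      · show ρ (vR k) = true ↔ _
        rw [eR, decide_eq_true_iff]
      · intro l
        show ρ (vI k l) = true ↔ _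
        rw [eI, decide_eq_true_iff]
    refine ⟨ρ, (Q4b_eval hB φ M K T ρ).2 ⟨?_, ⟨?_, ?_⟩, c, ?_, ?_, ?_⟩⟩
    · intro k hk
      obtain ⟨h4, h5, h6, h7⟩ := h1 k hk
      refine ⟨?_, ?_, ?_⟩
      · rw [key k hk]
        intro l hl hv
        refine ⟨?_, ?_⟩
        · rw [key l hl]; exact (h5 l hl hv).1
        · rw [key l hl]; exact (h5 l hl hv).2
      · rw [key k hk]; exact h6
      · rw [Surv_nom φ (decX M K ρ) nom K M T _ key, key k hk]; exact h7
    · intro i hi k hk l hl c d hc hd e1 e2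
      rw [key k hk] at e1
      rw [key l hl] at e2
      exact h2 i hi k hk l hl c d hc hd e1 e2
    · intro i hi k hk l hl c d hc hd e1 e2
      rw [key k hk] at e1
      rw [key l hl] at e2
      exact h3 i hi k hk l hl c d hc hd e1 e2
    · rw [key 0 (Nat.zero_le K)]; exact hc1
    · intro i _
      exact eC 0 i
    · rw [key 0 (Nat.zero_le K)]; exact hc2

end Pool.Agent.Lib.MP_bba6cc_lc
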