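import Pool.Agent.Lib.MP_bba6cc_lc.UPtC
import Pool.Agent.Lib.MP_bba6cc_lc.TA4
import Pool.Agent.Lib.MP_bba6cc_lc.TA6b
import Pool.Agent.Lib.MP_bba6cc_lc.TA7
import Pool.Agent.Lib.MP_bba6cc_lc.TQ3
import Pool.Agent.Lib.MP_bba6cc_lc.TQ4b

/-!
# Satisfiability over equivalence relations and over transitive frames reduces to TQBF
-/

namespace Pool.Agent.Lib.MP_bba6cc_lc

open Pool.Agent N487b59b3 N68a2faeb N793a5b8e

variable {B : List BFun}

theorem er_le_tqbf (hB : ∀ f ∈ B, IsAffine f) : ManyOneReducible (satProblem B .er) TQBF :=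
  upper_er fun φ => (sat_er_iff hB φ).trans (qEr_spec hB φ (msz (flen φ))).symm

theorem trans_le_tqbf (hB : ∀ f ∈ B, IsAffine f) :
    ManyOneReducible (satProblem B .trans) TQBF := by
  refine upper_trans fun φ => ?_
  rw [qTrans_spec hB]
  constructor
  · intro h
    exact trans_complete hB φ h (2 * flen φ + 3)
  · intro h
    apply trans_sound φ (flen φ) (msz (flen φ))
    rw [show flen φ + flen φ + 3 = 2 * flen φ + 3 by omega]
    exact h

end Pool.Agent.Lib.MP_bba6cc_lc
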