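import Pool.Agent.Lib.MP_bba6cc_lc.TDefs2

/-!
# Evaluation of the basic quantified formulas
-/

namespace Pool.Agent.Lib.MP_bba6cc_lc

open Classical

variable {B : List BFun}

theorem Q1_toZ_xor (a b : Bool) : toZ (Bool.xor a b) = toZ a + toZ b := by
  cases a <;> cases b <;> simp [toZ]
  · decide

theorem Q1_toZ_and (a b : Bool) : toZ (a && b) = toZ a * toZ b := by
  cases a <;> cases b <;> simp [toZ]

theorem Q1_toZ_eq (b : Bool) : toZ b = 1 ↔ b = true := by
  cases b <;> simp [toZ]

theorem qnot_eval (a : QF) (ρ : ℕ → Bool) : (qnot a).eval ρ = !(a.eval ρ) := by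
  simp [qnot, QF.eval]

theorem qor_eval (a b : QF) (ρ : ℕ → Bool) : (qor a b).eval ρ = (a.eval ρ || b.eval ρ) := by
  simp [qor, qnot_eval, QF.eval]

theorem qimp_eval (a b : QF) (ρ : ℕ → Bool) :
    (qimp a b).eval ρ = true ↔ (a.eval ρ = true → b.eval ρ = true) := by
  rw [qimp, qnot_eval, QF.eval, qnot_eval]
  cases a.eval ρ <;> cases b.eval ρ <;> simp

theorem qands_eval (L : List QF) (ρ : ℕ → Bool) :
    (qands L).eval ρ = true ↔ ∀ q ∈ L, q.eval ρ = true := by
  induction L with
  | nil => simp [qands, QF.eval]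
  | cons a L ih =>
    have : (qands (a :: L)).eval ρ = (a.eval ρ && (qands L).eval ρ) := rfl
    rw [this, Bool.and_eq_true, ih, List.forall_mem_cons]

theorem qexs_eval (L : List ℕ) (q : QF) (ρ : ℕ → Bool) :
    (qexs L q).eval ρ = true ↔ ∃ ρ', (∀ n, n ∉ L → ρ' n = ρ n) ∧ q.eval ρ' = true := by
  induction L generalizing ρ with
  | nil =>
    constructor
    · intro h
      exact ⟨ρ, fun _ _ => rfl, h⟩
    · rintro ⟨ρ', h1, h2⟩
      have : ρ' = ρ := funext fun n => h1 n (by simp)
      rw [this] at h2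
      exact h2
  | cons a L ih =>
    have : (qexs (a :: L) q).eval ρ = ((qexs L q).eval (Function.update ρ a true) ||
      (qexs L q).eval (Function.update ρ a false)) := rfl
    rw [this, Bool.or_eq_true, ih, ih]
    constructor
    · rintro (⟨ρ', h1, h2⟩ | ⟨ρ', h1, h2⟩)
      · refine ⟨ρ', fun n hn => ?_, h2⟩
        rw [List.mem_cons, not_or] at hn
        rw [h1 n hn.2, Function.update_of_ne hn.1]
      · refine ⟨ρ', fun n hn => ?_, h2⟩
        rw [List.mem_cons, not_or] at hn
        rw [h1 n hn.2, Function.update_of_ne hn.1]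
    · rintro ⟨ρ', h1, h2⟩
      have key : ∀ n, n ∉ L → ρ' n = Function.update ρ a (ρ' a) n := by
        intro n hn
        by_cases hna : n = a
        · subst hna
          rw [Function.update_self]
        · rw [Function.update_of_ne hna]
          exact h1 n (by rw [List.mem_cons, not_or]; exact ⟨hna, hn⟩)
      cases hρ : ρ' a with
      | true =>
        left
        exact ⟨ρ', fun n hn => by rw [key n hn, hρ], h2⟩
      | false =>
        right
        exact ⟨ρ', fun n hn => by rw [key n hn, hρ], h2⟩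

theorem qam1_eval {ι : Type} [DecidableEq ι] (I : List ι) (f : ι → ℕ) (ρ : ℕ → Bool) :
    (qam1 I f).eval ρ = true ↔
      ∀ a ∈ I, ∀ b ∈ I, ρ (f a) = true → ρ (f b) = true → a = b := by
  rw [qam1, qands_eval]
  constructor
  · intro h a ha b hb h1 h2
    by_contra hne
    have h3 := h (qnot (.and (.var (f a)) (.var (f b)))) (by
      rw [List.mem_map]
      refine ⟨(a, b), ?_, rfl⟩
      rw [List.mem_filter]
      refine ⟨?_, by simpa using hne⟩
      exact List.mem_product.2 ⟨ha, hb⟩)
    rw [qnot_eval] at h3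
    simp [QF.eval, h1, h2] at h3
  · intro h q hq
    rw [List.mem_map] at hq
    obtain ⟨⟨a, b⟩, hab, rfl⟩ := hq
    rw [List.mem_filter] at hab
    have h4 : a ∈ I ∧ b ∈ I := List.mem_product.1 hab.1
    have h5 : a ≠ b := by simpa using hab.2
    rw [qnot_eval]
    simp only [QF.eval]
    cases h1 : ρ (f a) with
    | false => simp
    | true =>
      cases h2 : ρ (f b) with
      | false => simp
      | true => exact absurd (h a h4.1 b h4.2 h1 h2) h5

theorem qxors_eval (L : List QF) (ρ : ℕ → Bool) :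
    toZ ((qxors L).eval ρ) = (L.map fun q => toZ (q.eval ρ)).sum := by
  induction L with
  | nil => simp [qxors, qz, QF.eval, toZ]
  | cons a L ih =>
    have : (qxors (a :: L)).eval ρ = Bool.xor (a.eval ρ) ((qxors L).eval ρ) := rfl
    rw [this, Q1_toZ_xor, ih, List.map_cons, List.sum_cons]

/-- if at most one summand can be nonzero -/
theorem qdot_eval (M : ℕ) (f g : ℕ → ℕ) (ρ : ℕ → Bool)
    (h : ∀ a < M, ∀ b < M, ρ (f a) = true → ρ (f b) = true → a = b) :
    (qdot M f g).eval ρ = true ↔ ∃ j < M, ρ (f j) = true ∧ ρ (g j) = true := by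
  rw [← Q1_toZ_eq, qdot, qxors_eval, List.map_map]
  have e1 : (List.map ((fun q => toZ (q.eval ρ)) ∘ fun j => QF.and (QF.var (f j)) (QF.var (g j)))
      (List.range M)).sum = ∑ j ∈ Finset.range M, toZ (ρ (f j)) * toZ (ρ (g j)) := by
    rw [Finset.sum_range, ← List.sum_ofFn]
    congr 1
    rw [List.ofFn_eq_map]
    rw [← List.map_coe_finRange_eq_range, List.map_map]
    apply List.map_congr_left
    intro a _
    simp only [Function.comp_apply, QF.eval, Q1_toZ_and]
  rw [e1]
  constructor
  · intro h1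
    by_contra hcon
    push Not at hcon
    have : ∑ j ∈ Finset.range M, toZ (ρ (f j)) * toZ (ρ (g j)) = 0 := by
      apply Finset.sum_eq_zero
      intro j hj
      have h2 := hcon j (Finset.mem_range.1 hj)
      cases h3 : ρ (f j) with
      | false => simp [toZ]
      | true =>
        have h4 : ρ (g j) = false := by simpa using h2 h3
        simp [h4, toZ]
    rw [this] at h1
    exact absurd h1 (by decide)
  · rintro ⟨j, hj, h1, h2⟩
    rw [Finset.sum_eq_single j]
    · simp [h1, h2, toZ]
    · intro b hb hbj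
      have h3 : ρ (f b) = false := by
        by_contra h4
        have h4 : ρ (f b) = true := by simpa using h4
        exact hbj (h b (Finset.mem_range.1 hb) j hj h4 h1)
      simp [h3, toZ]
    · intro hn
      exact absurd (Finset.mem_range.2 hj) hn

theorem Q1_qc (b : Bool) (ρ : ℕ → Bool) : (qc b).eval ρ = b := by
  cases b <;> simp [qc, qz, QF.eval]

theorem qaff_eval {n : ℕ} (c0 : Bool) (c : Fin n → Bool) (f : Fin n → QF) (ρ : ℕ → Bool) :
    toZ ((qaff c0 c f).eval ρ) = toZ c0 + ∑ j, toZ (c j) * toZ ((f j).eval ρ) := by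
  have key : ∀ (L : List (Fin n)) (q : QF),
      toZ ((L.foldl (fun q j => QF.xor q (.and (qc (c j)) (f j))) q).eval ρ) =
        toZ (q.eval ρ) + (L.map fun j => toZ (c j) * toZ ((f j).eval ρ)).sum := by
    intro L
    induction L with
    | nil => intro q; simp
    | cons a L ih =>
      intro q
      rw [List.foldl_cons, ih, List.map_cons, List.sum_cons]
      simp only [QF.eval, Q1_toZ_xor, Q1_toZ_and, Q1_qc]
      ring
  rw [qaff, key, Q1_qc]
  congr 1

theorem Q1_two_pow {a b m n : ℕ} (h : 2 ^ a * (2 * m + 1) = 2 ^ b * (2 * n + 1)) :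
    a = b ∧ m = n := by
  have key : ∀ {a b m n : ℕ}, a ≤ b → 2 ^ a * (2 * m + 1) = 2 ^ b * (2 * n + 1) →
      a = b ∧ m = n := by
    intro a b m n hab h
    obtain ⟨d, rfl⟩ := Nat.exists_eq_add_of_le hab
    rw [pow_add, mul_assoc] at h
    have h2 := Nat.eq_of_mul_eq_mul_left (by positivity) h
    cases d with
    | zero =>
      simp at h2
      exact ⟨rfl, h2⟩
    | succ d =>
      exfalso
      rw [pow_succ] at h2
      have h3 : 2 ^ d * 2 * (2 * n + 1) = 2 * (2 ^ d * (2 * n + 1)) := by ring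
      omega
  rcases le_total a b with hab | hab
  · exact key hab h
  · obtain ⟨h1, h2⟩ := key hab h.symm
    exact ⟨h1.symm, h2.symm⟩

theorem vnum_inj {k a b n k' a' b' n' : ℕ} (hk : k < 9) (hk' : k' < 9)
    (h : vnum k a b n = vnum k' a' b' n') : k = k' ∧ a = a' ∧ b = b' ∧ n = n' := by
  obtain ⟨h1, h2⟩ := Q1_two_pow h
  have h3 : Nat.pair a b = Nat.pair a' b' := by omega
  have h4 : k = k' := by omega
  have h5 := Nat.pair_eq_pair.1 h3
  exact ⟨h4, h5.1, h5.2, h2⟩

/-- the level `l` denotes a point of the structure -/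
theorem qOH_eval (M s l : ℕ) (nmd : Bool) (ρ : ℕ → Bool) : (qOH M s l).eval ρ = true ↔
    ∃ j, (decS s M nmd ρ).D j ∧ ∀ i < M, ρ (vC l i) = decide (i = j) := by
  have e : (qOH M s l).eval ρ = true ↔ (qdot M (vC l) (vD s)).eval ρ = true ∧
      (qam1 (List.range M) (vC l)).eval ρ = true := by
    rw [qOH]
    simp only [QF.eval, Bool.and_eq_true]
  rw [e, qam1_eval]
  constructor
  · rintro ⟨h1, h2⟩
    have h3 : ∀ a < M, ∀ b < M, ρ (vC l a) = true → ρ (vC l b) = true → a = b :=
      fun a ha b hb => h2 a (List.mem_range.2 ha) b (List.mem_range.2 hb)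
    rw [qdot_eval M (vC l) (vD s) ρ h3] at h1
    obtain ⟨j, hj, h4, h5⟩ := h1
    refine ⟨j, ⟨hj, h5⟩, fun i hi => ?_⟩
    by_cases hij : i = j
    · subst hij
      simp [h4]
    · have : ρ (vC l i) = false := by
        by_contra h6
        have h6 : ρ (vC l i) = true := by simpa using h6
        exact hij (h3 i hi j hj h6 h4)
      simp [this, hij]
  · rintro ⟨j, ⟨hj, h5⟩, h6⟩
    have h3 : ∀ a < M, ∀ b < M, ρ (vC l a) = true → ρ (vC l b) = true → a = b := by
      intro a ha b hb h1 h2
      rw [h6 a ha] at h1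
      rw [h6 b hb] at h2
      have h1' : a = j := by simpa using h1
      have h2' : b = j := by simpa using h2
      rw [h1', h2']
    refine ⟨(qdot_eval M (vC l) (vD s) ρ h3).2 ⟨j, hj, ?_, h5⟩,
      fun a ha b hb => h3 a (List.mem_range.1 ha) b (List.mem_range.1 hb)⟩
    rw [h6 j hj]
    simp

end Pool.Agent.Lib.MP_bba6cc_lc
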