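import Pool.Agent.Lib.MP_bba6cc_lc.TQ1
import Pool.Agent.Lib.MP_bba6cc_lc.TA0
import Pool.Agent.Lib.MP_bba6cc_lc.TA1

/-!
# Evaluation of the translation
-/

namespace Pool.Agent.Lib.MP_bba6cc_lc

open Classical

variable {B : List BFun}

theorem Q2_lk_map (σ : ℕ → ℕ) (env : List (ℕ × Option ℕ)) (x : ℕ) :
    lk (env.map fun p => (p.1, p.2.map σ)) x = (lk env x).map (Option.map σ) := by
  unfold lk
  induction env with
  | nil => rfl
  | cons p env ih =>
    rw [List.map_cons, List.find?_cons, List.find?_cons]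
    by_cases h : p.1 = x
    · simp [h]
    · simp only [h, decide_false]
      exact ih

theorem Q2_lk_mem {env : List (ℕ × Option ℕ)} {x : ℕ} {o : Option ℕ} (h : lk env x = some o) :
    (x, o) ∈ env := by
  unfold lk at h
  rw [Option.map_eq_some_iff] at h
  obtain ⟨p, hp, rfl⟩ := h
  have h1 := List.mem_of_find?_eq_some hp
  have h2 := List.find?_some hp
  rw [decide_eq_true_iff] at h2
  rw [← h2]
  exact h1

/-- the level `l` denotes the point `d` -/
noncomputable def Q2_set (M l d : ℕ) (ρ : ℕ → Bool) (n : ℕ) : Bool :=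
  if n ∈ (List.range M).map (vC l) then decide (n = vC l d) else ρ n

theorem Q2_vC_inj {l l' i i' : ℕ} (h : vC l i = vC l' i') : l = l' ∧ i = i' := by
  have := vnum_inj (by norm_num) (by norm_num) h
  exact ⟨this.2.1, this.2.2.1⟩

theorem Q2_set_ne (M l d : ℕ) (ρ : ℕ → Bool) {k a b n : ℕ} (hk : k < 9) (h : k ≠ 7) :
    Q2_set M l d ρ (vnum k a b n) = ρ (vnum k a b n) := by
  unfold Q2_set
  rw [if_neg]
  intro hm
  rw [List.mem_map] at hm
  obtain ⟨i, _, hi⟩ := hm
  exact h (vnum_inj (by norm_num) hk hi).1.symm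

theorem Q2_set_other (M l d : ℕ) (ρ : ℕ → Bool) {l' i : ℕ} (h : l' ≠ l) :
    Q2_set M l d ρ (vC l' i) = ρ (vC l' i) := by
  unfold Q2_set
  rw [if_neg]
  intro hm
  rw [List.mem_map] at hm
  obtain ⟨j, _, hj⟩ := hm
  exact h (Q2_vC_inj hj).1.symm

theorem Q2_set_same (M l d : ℕ) (ρ : ℕ → Bool) {i : ℕ} (h : i < M) :
    Q2_set M l d ρ (vC l i) = decide (i = d) := by
  unfold Q2_set
  rw [if_pos (List.mem_map.mpr ⟨i, List.mem_range.mpr h, rfl⟩)]
  rw [decide_eq_decide]
  constructor
  · intro h; exact (Q2_vC_inj h).2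
  · rintro rfl; rfl

theorem Q2_decS (s M l d : ℕ) (nmd : Bool) (ρ : ℕ → Bool) :
    decS s M nmd (Q2_set M l d ρ) = decS s M nmd ρ := by
  unfold decS
  have h0 : ∀ j p, Q2_set M l d ρ (vV s j p) = ρ (vV s j p) :=
    fun j p => Q2_set_ne M l d ρ (by norm_num) (by norm_num)
  have h1 : ∀ j p, Q2_set M l d ρ (vN s j p) = ρ (vN s j p) :=
    fun j p => Q2_set_ne M l d ρ (by norm_num) (by norm_num)
  have h2 : ∀ j p, Q2_set M l d ρ (vF s j p) = ρ (vF s j p) :=
    fun j p => Q2_set_ne M l d ρ (by norm_num) (by norm_num)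
  have h3 : ∀ j, Q2_set M l d ρ (vZ s j) = ρ (vZ s j) :=
    fun j => Q2_set_ne M l d ρ (by norm_num) (by norm_num)
  have h4 : ∀ j, Q2_set M l d ρ (vD s j) = ρ (vD s j) :=
    fun j => Q2_set_ne M l d ρ (by norm_num) (by norm_num)
  have h5 : Q2_set M l d ρ (vR s) = ρ (vR s) :=
    Q2_set_ne M l d ρ (by norm_num) (by norm_num)
  simp only [h0, h1, h2, h3, h4, h5]

theorem Q2_ex (M s l : ℕ) (nmd : Bool) (q : QF) (ρ : ℕ → Bool) :
    (qexs ((List.range M).map (vC l)) (.and (qOH M s l) q)).eval ρ = true ↔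
      ∃ d, (decS s M nmd ρ).D d ∧ q.eval (Q2_set M l d ρ) = true := by
  rw [qexs_eval]
  constructor
  · rintro ⟨ρ', h1, h2⟩
    simp only [QF.eval, Bool.and_eq_true] at h2
    obtain ⟨h2, h3⟩ := h2
    obtain ⟨j, h4, h5⟩ := (qOH_eval M s l nmd ρ').mp h2
    have e : ρ' = Q2_set M l j ρ := by
      funext n
      unfold Q2_set
      by_cases hn : n ∈ (List.range M).map (vC l)
      · rw [if_pos hn]
        rw [List.mem_map] at hn
        obtain ⟨i, hi, rfl⟩ := hn
        rw [h5 i (List.mem_range.mp hi), decide_eq_decide]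
        constructor
        · rintro rfl; rfl
        · intro h; exact (Q2_vC_inj h).2
      · rw [if_neg hn, h1 n hn]
    subst e
    rw [Q2_decS] at h4
    exact ⟨j, h4, h3⟩
  · rintro ⟨d, h1, h2⟩
    refine ⟨Q2_set M l d ρ, ?_, ?_⟩
    · intro n hn
      unfold Q2_set
      rw [if_neg hn]
    · simp only [QF.eval, Bool.and_eq_true]
      refine ⟨(qOH_eval M s l nmd _).mpr ⟨d, ?_, fun i hi => Q2_set_same M l d ρ hi⟩, h2⟩
      rw [Q2_decS]
      exact h1

theorem Q2_toZ_inj {b c : Bool} (h : toZ b = toZ c) : b = c := by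
  cases b <;> cases c <;> simp [toZ] at h ⊢

/-- Induction on `ψ`. `σ l` is the point of level `l`. -/
theorem tr_eval (hB : ∀ f ∈ B, IsAffine f) (M s : ℕ) (nmd : Bool) (ψ : Fm B) :
    ∀ (ρ : ℕ → Bool) (σ : ℕ → ℕ) (lev : ℕ) (env : List (ℕ × Option ℕ)) (pos : ℕ),
      (∀ l ≤ lev, σ l < M ∧ ∀ i < M, ρ (vC l i) = decide (i = σ l)) →
      (∀ p ∈ env, ∀ l, p.2 = some l → l ≤ lev) →
      ((tr M s nmd ψ lev env pos).eval ρ = true ↔
        Val (decS s M nmd ρ) ψ (env.map fun p => (p.1, p.2.map σ)) (σ lev) pos) := by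
  have dotC : ∀ (ρ : ℕ → Bool) (σ : ℕ → ℕ) (lev : ℕ) (g : ℕ → ℕ),
      (∀ l ≤ lev, σ l < M ∧ ∀ i < M, ρ (vC l i) = decide (i = σ l)) →
      ((qdot M (vC lev) g).eval ρ = true ↔ ρ (g (σ lev)) = true) := by
    intro ρ σ lev g h
    obtain ⟨h1, h2⟩ := h lev (le_refl _)
    rw [qdot_eval]
    · constructor
      · rintro ⟨j, hj, h3, h4⟩
        rw [h2 j hj, decide_eq_true_iff] at h3
        rw [← h3]
        exact h4
      · intro h3
        exact ⟨σ lev, h1, by rw [h2 _ h1]; simp, h3⟩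
    · intro a ha b hb h3 h4
      rw [h2 a ha, decide_eq_true_iff] at h3
      rw [h2 b hb, decide_eq_true_iff] at h4
      rw [h3, h4]
  -- a point of the next level
  have step : ∀ (ρ : ℕ → Bool) (σ : ℕ → ℕ) (lev : ℕ) (env : List (ℕ × Option ℕ)) (d : ℕ),
      d < M → (∀ l ≤ lev, σ l < M ∧ ∀ i < M, ρ (vC l i) = decide (i = σ l)) →
      (∀ p ∈ env, ∀ l, p.2 = some l → l ≤ lev) →
      (∀ l ≤ lev + 1, Function.update σ (lev + 1) d l < M ∧ ∀ i < M,
        Q2_set M (lev + 1) d ρ (vC l i) = decide (i = Function.update σ (lev + 1) d l)) ∧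
      (∀ p ∈ env, ∀ l, p.2 = some l → l ≤ lev + 1) ∧
      (env.map fun p => (p.1, p.2.map (Function.update σ (lev + 1) d))) =
        env.map fun p => (p.1, p.2.map σ) := by
    intro ρ σ lev env d hd h1 h2
    refine ⟨?_, fun p hp l hl => (h2 p hp l hl).trans (Nat.le_succ _), ?_⟩
    · intro l hl
      rcases Nat.lt_or_eq_of_le hl with hl | rfl
      · have hne : l ≠ lev + 1 := by omega
        rw [Function.update_of_ne hne]
        obtain ⟨h3, h4⟩ := h1 l (by omega)
        refine ⟨h3, fun i hi => ?_⟩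
        rw [Q2_set_other M _ d ρ hne]
        exact h4 i hi
      · rw [Function.update_self]
        exact ⟨hd, fun i hi => Q2_set_same M _ d ρ hi⟩
    · apply List.map_congr_left
      intro p hp
      rw [Prod.mk.injEq]
      refine ⟨rfl, ?_⟩
      cases hq : p.2 with
      | none => rfl
      | some l =>
        have : l ≠ lev + 1 := by
          have := h2 p hp l hq
          omega
        simp [Function.update_of_ne this]
  induction ψ with
  | prp p =>
    intro ρ σ lev env pos h1 _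
    simp only [tr, Val]
    rw [dotC ρ σ lev _ h1]
    rfl
  | nom i =>
    intro ρ σ lev env pos h1 _
    simp only [tr, Val]
    cases nmd with
    | true =>
      rw [if_pos rfl, dotC ρ σ lev _ h1]
      simp [decS]
    | false => simp [decS, qz, QF.eval]
  | var x =>
    intro ρ σ lev env pos h1 h2
    simp only [tr, Val]
    rw [Q2_lk_map]
    cases hx : lk env x with
    | none =>
      simp only [Option.map_none]
      cases nmd with
      | true =>
        rw [if_pos rfl, dotC ρ σ lev _ h1]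
        simp [decS]
      | false => simp [decS, qz, QF.eval]
    | some o =>
      cases o with
      | none => simp [qz, QF.eval]
      | some l =>
        simp only [Option.map_some]
        rw [dotC ρ σ lev _ h1]
        have hl := h2 _ (Q2_lk_mem hx) l rfl
        rw [(h1 l hl).2 _ (h1 lev (le_refl _)).1, decide_eq_true_iff]
        exact ⟨fun h => h.symm, fun h => h.symm⟩
  | app i args ih =>
    intro ρ σ lev env pos h1 h2
    simp only [tr, Val]
    have e1 := qaff_eval (c0B (B.get i)) (cB (B.get i))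
      (fun j => tr M s nmd (args j) lev env (pos + 1 + offs args j)) ρ
    have e2 := affine_eq (hB _ (List.get_mem B i)) (fun j => decide (Val (decS s M nmd ρ) (args j)
      (env.map fun p => (p.1, p.2.map σ)) (σ lev) (pos + 1 + offs args j)))
    have e3 : ∀ j, (tr M s nmd (args j) lev env (pos + 1 + offs args j)).eval ρ =
        decide (Val (decS s M nmd ρ) (args j) (env.map fun p => (p.1, p.2.map σ)) (σ lev)
          (pos + 1 + offs args j)) := by
      intro j
      rw [Bool.eq_iff_iff, decide_eq_true_iff]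
      exact ih j ρ σ lev env _ h1 h2
    simp only [e3] at e1
    rw [← e2] at e1
    rw [Q2_toZ_inj e1]
  | dia φ ih =>
    intro ρ σ lev env pos h1 h2
    simp only [tr, Val]
    rw [qor_eval, Bool.or_eq_true]
    apply or_congr
    · rfl
    · simp only [QF.eval]
      rw [Bool.and_eq_true]
      apply and_congr
      · rfl
      · rw [Q2_ex M s (lev + 1) nmd]
        apply exists_congr
        intro d
        apply and_congr_right
        intro hd
        obtain ⟨g1, g2, g3⟩ := step ρ σ lev env d hd.1 h1 h2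
        rw [ih _ (Function.update σ (lev + 1) d) (lev + 1) env (pos + 1) g1 g2, g3, Q2_decS,
          Function.update_self]
  | box φ ih =>
    intro ρ σ lev env pos h1 h2
    simp only [tr, Val, QF.eval]
    rw [Bool.and_eq_true, qnot_eval, qnot_eval]
    apply and_congr
    · rw [Bool.not_eq_true', ← Bool.not_eq_true]
      rfl
    · simp only [QF.eval]
      rw [Bool.not_eq_true', ← Bool.not_eq_true, Bool.and_eq_true, not_and]
      apply imp_congr
      · rfl
      · rw [Q2_ex M s (lev + 1) nmd, not_exists]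
        apply forall_congr'
        intro d
        rw [not_and]
        apply imp_congr_right
        intro hd
        obtain ⟨g1, g2, g3⟩ := step ρ σ lev env d hd.1 h1 h2
        have := ih _ (Function.update σ (lev + 1) d) (lev + 1) env (pos + 1) g1 g2
        rw [g3, Q2_decS, Function.update_self] at this
        rw [qnot_eval, Bool.not_eq_true', Bool.not_eq_false, this]
  | down x φ ih =>
    intro ρ σ lev env pos h1 h2
    simp only [tr, Val]
    rw [ih ρ σ lev ((x, some lev) :: env) (pos + 1) h1]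
    · rfl
    · intro p hp l hl
      rcases List.mem_cons.mp hp with rfl | hp
      · simp only [Option.some.injEq] at hl
        omega
      · exact h2 p hp l hl

theorem qE_eval (hB : ∀ f ∈ B, IsAffine f) (M s : ℕ) (nmd : Bool) (e : Ent B) (ρ : ℕ → Bool) :
    (qE M s nmd e).eval ρ = true ↔ Eh (decS s M nmd ρ) e := by
  unfold qE Eh
  rw [Q2_ex M s 0 nmd]
  apply exists_congr
  intro d
  apply and_congr_right
  intro hd
  have h := tr_eval hB M s nmd e.body (Q2_set M 0 d ρ) (fun _ => d) 0 (dead ℕ e.bs) (e.pos + 1)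
    (by
      intro l hl
      have : l = 0 := by omega
      subst this
      exact ⟨hd.1, fun i hi => Q2_set_same M 0 d ρ hi⟩)
    (by
      intro p hp l hl
      unfold dead at hp
      rw [List.mem_map] at hp
      obtain ⟨x, _, rfl⟩ := hp
      simp at hl)
  have e1 : ((dead ℕ e.bs).map fun p => (p.1, p.2.map (fun _ : ℕ => d))) = dead ℕ e.bs := by
    unfold dead
    rw [List.map_map]
    rfl
  rw [e1, Q2_decS] at h
  rw [← h]
  simp only [QF.eval]
  cases e.neg with
  | true => simp [qc, QF.eval]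
  | false => simp [qc, qz, QF.eval]

theorem qLater_eval (hB : ∀ f ∈ B, IsAffine f) (φ : Fm B) (M s s' : ℕ) (nmd nmd' : Bool)
    (ρ : ℕ → Bool) : (qLater φ M s s' nmd).eval ρ = true ↔
      Later φ (decS s M nmd' ρ) (decS s' M nmd ρ) := by
  unfold qLater Later
  rw [qands_eval]
  simp only [List.mem_map, forall_exists_index, and_imp, forall_apply_eq_imp_iff₂]
  apply forall₂_congr
  intro e _
  simp only [QF.eval]
  rw [Bool.and_eq_true, qimp_eval, qimp_eval, qE_eval hB]
  rfl

theorem qStart_eval (hB : ∀ f ∈ B, IsAffine f) (φ : Fm B) (M : ℕ) (ρ : ℕ → Bool) :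
    (qStart φ M).eval ρ = true ↔ ∃ c, (decS 0 M true ρ).D c ∧
      (∀ i < M, ρ (vC 0 i) = decide (i = c)) ∧ Val (decS 0 M true ρ) φ [] c 0 := by
  unfold qStart
  simp only [QF.eval]
  rw [Bool.and_eq_true, qOH_eval M 0 0 true]
  have key : ∀ c, (decS 0 M true ρ).D c → (∀ i < M, ρ (vC 0 i) = decide (i = c)) →
      ((tr M 0 true φ 0 [] 0).eval ρ = true ↔ Val (decS 0 M true ρ) φ [] c 0) := by
    intro c hc h
    exact tr_eval hB M 0 true φ ρ (fun _ => c) 0 [] 0
      (by
        intro l hl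
        have : l = 0 := by omega
        subst this
        exact ⟨hc.1, h⟩)
      (by simp)
  constructor
  · rintro ⟨⟨c, hc, h⟩, h2⟩
    exact ⟨c, hc, h, (key c hc h).mp h2⟩
  · rintro ⟨c, hc, h, h2⟩
    exact ⟨⟨c, hc, h⟩, (key c hc h).mpr h2⟩

/-- every choice of bits for all the kinds of variables is realised by an assignment -/
theorem exists_enc (fV fN fF : ℕ → ℕ → ℕ → Bool) (fZ fD fI fC fP : ℕ → ℕ → Bool) (fR : ℕ → Bool) :
    ∃ ρ : ℕ → Bool, (∀ s j p, ρ (vV s j p) = fV s j p) ∧ (∀ s j i, ρ (vN s j i) = fN s j i) ∧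
      (∀ s j x, ρ (vF s j x) = fF s j x) ∧ (∀ s p, ρ (vZ s p) = fZ s p) ∧
      (∀ s j, ρ (vD s j) = fD s j) ∧ (∀ s, ρ (vR s) = fR s) ∧ (∀ s k, ρ (vI s k) = fI s k) ∧
      (∀ l j, ρ (vC l j) = fC l j) ∧ (∀ t p, ρ (vP t p) = fP t p) := by
  have key : ∀ g : ℕ → ℕ → ℕ → ℕ → Bool, ∃ ρ : ℕ → Bool, ∀ k < 9, ∀ a b m,
      ρ (vnum k a b m) = g k a b m := by
    intro g
    refine ⟨fun n => if h : ∃ q : ℕ × ℕ × ℕ × ℕ, q.1 < 9 ∧ vnum q.1 q.2.1 q.2.2.1 q.2.2.2 = n then
      g h.choose.1 h.choose.2.1 h.choose.2.2.1 h.choose.2.2.2 else false, ?_⟩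
    intro k hk a b m
    have h : ∃ q : ℕ × ℕ × ℕ × ℕ, q.1 < 9 ∧ vnum q.1 q.2.1 q.2.2.1 q.2.2.2 = vnum k a b m :=
      ⟨(k, a, b, m), hk, rfl⟩
    show (if h : _ then _ else _) = _
    rw [dif_pos h]
    obtain ⟨h1, h2⟩ := h.choose_spec
    obtain ⟨e1, e2, e3, e4⟩ := vnum_inj h1 hk h2
    rw [e1, e2, e3, e4]
  obtain ⟨ρ, hρ⟩ := key (fun k a b m => if k = 0 then fV a b m else if k = 1 then fN a b m
    else if k = 2 then fF a b m else if k = 3 then fZ a b else if k = 4 then fD a b
    else if k = 5 then fR a else if k = 6 then fI a b else if k = 7 then fC a b else fP a b)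
  refine ⟨ρ, ?_, ?_, ?_, ?_, ?_, ?_, ?_, ?_, ?_⟩
  · intro s j p; exact hρ 0 (by norm_num) _ _ _
  · intro s j p; exact hρ 1 (by norm_num) _ _ _
  · intro s j p; exact hρ 2 (by norm_num) _ _ _
  · intro s j; exact hρ 3 (by norm_num) _ _ _
  · intro s j; exact hρ 4 (by norm_num) _ _ _
  · intro s; exact hρ 5 (by norm_num) _ _ _
  · intro s j; exact hρ 6 (by norm_num) _ _ _
  · intro s j; exact hρ 7 (by norm_num) _ _ _
  · intro s j; exact hρ 8 (by norm_num) _ _ _

end Pool.Agent.Lib.MP_bba6cc_lc
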