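import Pool.Agent.Lib.MP_bba6cc_lc.TQ2
import Pool.Agent.Lib.MP_bba6cc_lc.TA5

/-!
# The quantified formula of the game
-/

namespace Pool.Agent.Lib.MP_bba6cc_lc

open Classical

variable {B : List BFun}

theorem Q4a_decX_congr (M K : ℕ) (ρ ρ' : ℕ → Bool) (s : ℕ)
    (h : ∀ k b m, k < 7 → ρ (vnum k s b m) = ρ' (vnum k s b m)) : decX M K ρ s = decX M K ρ' s := by
  have h0 : ∀ b m, ρ (vnum 0 s b m) = ρ' (vnum 0 s b m) := fun b m => h 0 b m (by norm_num)
  have h1 : ∀ b m, ρ (vnum 1 s b m) = ρ' (vnum 1 s b m) := fun b m => h 1 b m (by norm_num)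
  have h2 : ∀ b m, ρ (vnum 2 s b m) = ρ' (vnum 2 s b m) := fun b m => h 2 b m (by norm_num)
  have h3 : ∀ b m, ρ (vnum 3 s b m) = ρ' (vnum 3 s b m) := fun b m => h 3 b m (by norm_num)
  have h4 : ∀ b m, ρ (vnum 4 s b m) = ρ' (vnum 4 s b m) := fun b m => h 4 b m (by norm_num)
  have h5 : ∀ b m, ρ (vnum 5 s b m) = ρ' (vnum 5 s b m) := fun b m => h 5 b m (by norm_num)
  have h6 : ∀ b m, ρ (vnum 6 s b m) = ρ' (vnum 6 s b m) := fun b m => h 6 b m (by norm_num)
  simp only [decX, decS, vD, vV, vN, vF, vZ, vR, vI, h0, h1, h2, h3, h4, h5, h6]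

theorem Q4a_svars (φ : Fm B) (M K s n : ℕ) (h : n ∈ svars φ M K s) :
    ∃ k b m, k < 7 ∧ n = vnum k s b m := by
  simp only [svars, List.mem_append, List.mem_flatMap, List.mem_cons, List.mem_map] at h
  rcases h with (⟨j, _, h | ⟨p, _, h⟩⟩ | ⟨p, _, h⟩) | h | ⟨k, _, h⟩
  · exact ⟨4, j, 0, by norm_num, h⟩
  · exact ⟨0, j, p, by norm_num, h.symm⟩
  · exact ⟨3, p, 0, by norm_num, h.symm⟩
  · exact ⟨5, 0, 0, by norm_num, h⟩
  · exact ⟨6, k, 0, by norm_num, h.symm⟩

theorem Q4a_not_svars (φ : Fm B) (M K s a k b m : ℕ) (hk : k < 9) (ha : a ≠ s) :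
    vnum k a b m ∉ svars φ M K s := fun h => by
  obtain ⟨k', b', m', hk', e⟩ := Q4a_svars φ M K s _ h
  exact ha (vnum_inj hk (by omega) e).2.1

theorem Q4a_vP_not_svars (φ : Fm B) (M K s t p : ℕ) : vP t p ∉ svars φ M K s := fun h => by
  obtain ⟨k', b', m', hk', e⟩ := Q4a_svars φ M K s _ h
  have := (vnum_inj (by norm_num) (by omega) e).1
  omega

theorem Q4a_toZ_inj {b c : Bool} (h : toZ b = toZ c) : b = c := by
  cases b <;> cases c <;> simp [toZ] at h ⊢

theorem Q4a_sum_zero {α : Type} (l : List α) (g : α → ZMod 2) (h : ∀ a ∈ l, g a = 0) :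
    (l.map g).sum = 0 := by
  induction l with
  | nil => simp
  | cons a l ih =>
    rw [List.map_cons, List.sum_cons, h a List.mem_cons_self,
      ih (fun b hb => h b (List.mem_cons_of_mem _ hb)), add_zero]

theorem Q4a_sum {α : Type} (l : List α) (g : α → ZMod 2) (pos : α → ℕ) (hnd : (l.map pos).Nodup)
    (a0 : α) (h0 : a0 ∈ l) (h : ∀ a ∈ l, pos a ≠ pos a0 → g a = 0) : (l.map g).sum = g a0 := by
  induction l with
  | nil => simp at h0
  | cons a l ih =>
    rw [List.map_cons, List.nodup_cons] at hnd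
    rw [List.map_cons, List.sum_cons]
    rcases List.mem_cons.1 h0 with rfl | h0
    · rw [Q4a_sum_zero l g, add_zero]
      intro b hb
      refine h b (List.mem_cons_of_mem _ hb) (fun e => hnd.1 ?_)
      rw [← e]
      exact List.mem_map_of_mem hb
    · rw [ih hnd.2 h0 (fun b hb => h b (List.mem_cons_of_mem _ hb)), h a List.mem_cons_self,
        zero_add]
      intro e
      apply hnd.1
      rw [e]
      exact List.mem_map_of_mem h0

theorem Q4a_offs {n : ℕ} (args : Fin n → Fm B) {j j' : Fin n} (h : j < j') :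
    offs args j + flen (args j) ≤ offs args j' := by
  have h1 : flen (args j) = ∑ k : Fin n, if k = j then (code (args k)).length else 0 := by
    rw [Finset.sum_ite_eq' Finset.univ j, if_pos (Finset.mem_univ j)]
    rfl
  rw [h1, offs, offs, ← Finset.sum_add_distrib]
  refine Finset.sum_le_sum fun k _ => ?_
  by_cases hk : k < j
  · rw [if_pos hk, if_neg hk.ne, if_pos (hk.trans h), add_zero]
  · rw [if_neg hk, zero_add]
    by_cases hk' : k = j
    · rw [if_pos hk', if_pos (hk' ▸ h)]
    · rw [if_neg hk']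
      exact Nat.zero_le _

theorem Q4a_nodup (φ : Fm B) : ∀ (bs : List ℕ) (pos : ℕ),
    ((ents φ bs pos).map (fun e => e.pos)).Nodup := by
  induction φ with
  | prp p => intro bs pos; simp [ents]
  | nom i => intro bs pos; simp [ents]
  | var x => intro bs pos; simp [ents]
  | app i args ih =>
    intro bs pos
    rw [ents, List.map_flatMap, List.nodup_flatMap]
    refine ⟨fun j _ => ih j _ _, ?_⟩
    have key : ∀ j j' : Fin (B.get i).ar, j < j' → ∀ p,
        p ∈ (ents (args j) bs (pos + 1 + offs args j)).map (fun e => e.pos) →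
        p ∉ (ents (args j') bs (pos + 1 + offs args j')).map (fun e => e.pos) := by
      intro j j' hjj p h1 h2
      rw [List.mem_map] at h1 h2
      obtain ⟨e, he, rfl⟩ := h1
      obtain ⟨e', he', h3⟩ := h2
      have h4 := ents_pos _ _ _ e he
      have h5 := ents_pos _ _ _ e' he'
      have h6 := Q4a_offs args hjj
      omega
    have h7 : (List.finRange (B.get i).ar).Pairwise (· < ·) := List.pairwise_lt_finRange _
    refine h7.imp ?_
    intro j j' hjj
    exact fun p h1 h2 => key j j' hjj p h1 h2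
  | dia φ ih =>
    intro bs pos
    rw [ents, List.map_cons, List.nodup_cons]
    refine ⟨fun h => ?_, ih _ _⟩
    rw [List.mem_map] at h
    obtain ⟨e, he, h1⟩ := h
    have h2 := (ents_pos _ _ _ e he).1
    change e.pos = pos at h1
    omega
  | box φ ih =>
    intro bs pos
    rw [ents, List.map_cons, List.nodup_cons]
    refine ⟨fun h => ?_, ih _ _⟩
    rw [List.mem_map] at h
    obtain ⟨e, he, h1⟩ := h
    have h2 := (ents_pos _ _ _ e he).1
    change e.pos = pos at h1
    omega
  | down x φ ih =>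
    intro bs pos
    rw [ents]
    exact ih _ _

theorem Q4a_sel_sum (φ : Fm B) (t : ℕ) (f : Ent B → QF) (ρ : ℕ → Bool) :
    toZ ((qsel φ t f).eval ρ) =
      ((ents φ [] 0).map fun e => toZ (ρ (vP t e.pos) && (f e).eval ρ)).sum := by
  rw [qsel, qxors_eval, List.map_map]
  rfl

theorem Q4a_sel (φ : Fm B) (t : ℕ) (f : Ent B → QF) (ρ : ℕ → Bool) (e0 : Ent B)
    (h0 : e0 ∈ ents φ [] 0) (h1 : ρ (vP t e0.pos) = true)
    (h2 : ∀ e ∈ ents φ [] 0, ρ (vP t e.pos) = true → e.pos = e0.pos) :
    (qsel φ t f).eval ρ = (f e0).eval ρ := by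
  apply Q4a_toZ_inj
  rw [Q4a_sel_sum, Q4a_sum (ents φ [] 0) (fun e => toZ (ρ (vP t e.pos) && (f e).eval ρ))
    (fun e => e.pos) (Q4a_nodup φ [] 0) e0 h0]
  · rw [h1, Bool.true_and]
  · intro e he hne
    have h3 : ρ (vP t e.pos) = false := by
      rw [← Bool.not_eq_true]
      exact fun h => hne (h2 e he h)
    simp [h3, toZ]

theorem Q4a_sel_ex (φ : Fm B) (t : ℕ) (f : Ent B → QF) (ρ : ℕ → Bool)
    (h : (qsel φ t f).eval ρ = true) : ∃ e ∈ ents φ [] 0, ρ (vP t e.pos) = true := by
  by_contra hcon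
  push Not at hcon
  have h1 := Q4a_sel_sum φ t f ρ
  rw [Q4a_sum_zero] at h1
  · rw [h] at h1
    simp [toZ] at h1
  · intro e he
    have h3 : ρ (vP t e.pos) = false := by
      rw [← Bool.not_eq_true]
      exact hcon e he
    simp [h3, toZ]

theorem Q4a_code_ents (φ : Fm B) (e : Ent B) (he : e ∈ ents φ [] 0) : ∀ t ∈ code e.body,
    t ∈ code φ := code_fsubs φ e.body (ents_body φ [] 0 e he).1

theorem Q4a_pos_body (φ : Fm B) (e : Ent B) (he : e ∈ ents φ [] 0) :
    ∀ e' ∈ ents e.body [] (e.pos + 1), ∃ e'' ∈ ents φ [] 0, e''.pos = e'.pos := by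
  intro e' he'
  have h1 : e'.pos ∈ (ents e.body [] (e.pos + 1)).map (fun e => e.pos) := List.mem_map_of_mem he'
  rw [ents_bs e.body [] e.bs (e.pos + 1), List.mem_map] at h1
  obtain ⟨e'', h2, h3⟩ := h1
  exact ⟨e'', (ents_body φ [] 0 e he).2 e'' h2, h3⟩

/-- `Eh` depends only on the data which occur -/
theorem Q4a_Eh_congr (φ : Fm B) (S S' : Clus ℕ) (hD : ∀ c, S.D c ↔ S'.D c)
    (hV : ∀ p, (0, p) ∈ code φ → ∀ c, S.D c → (S.V p c ↔ S'.V p c))
    (hn : ∀ i c, S.nm i c ↔ S'.nm i c) (hf : ∀ x c, S.fv x c ↔ S'.fv x c)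
    (hr : S.refl ↔ S'.refl) (hZ : ∀ e ∈ ents φ [] 0, (S.Z e.pos ↔ S'.Z e.pos)) (e : Ent B)
    (he : e ∈ ents φ [] 0) : Eh S e ↔ Eh S' e := by
  have key : ∀ d, S.D d → (Val S e.body (dead ℕ e.bs) d (e.pos + 1) ↔
      Val S' e.body (dead ℕ e.bs) d (e.pos + 1)) := by
    intro d hd
    refine Val_congr S S' e.body hD
      (fun p hp => hV p (Q4a_code_ents φ e he _ hp)) (fun i _ c _ => hn i c)
      (fun x _ c _ => hf x c) hr _ _ _ hd (fun e' he' => ?_)
    obtain ⟨e'', h1, h2⟩ := Q4a_pos_body φ e he e' he'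
    rw [← h2]
    exact hZ e'' h1
  constructor
  · rintro ⟨d, h1, h2⟩
    exact ⟨d, (hD d).1 h1, by rw [← key d h1]; exact h2⟩
  · rintro ⟨d, h1, h2⟩
    exact ⟨d, (hD d).2 h1, by rw [key d ((hD d).2 h1)]; exact h2⟩

theorem qVis_eval (hB : ∀ f ∈ B, IsAffine f) (φ : Fm B) (M K s : ℕ) (ρ : ℕ → Bool) :
    (qVis φ M K s).eval ρ = true ↔ VisOK φ (decX M K ρ) K (decX M K ρ s) := by
  have h1 : (qVis φ M K s).eval ρ = true ↔ ∀ k < K + 1, ρ (vI s k) = true →
      (qLater φ M s k true).eval ρ = true ∧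
        ∀ l < K + 1, ρ (vI k l) = true → ρ (vI s l) = true := by
    rw [qVis, qands_eval]
    simp only [List.mem_map, List.mem_range, forall_exists_index, and_imp,
      forall_apply_eq_imp_iff₂, qimp_eval]
    simp only [QF.eval, Bool.and_eq_true, qands_eval, List.mem_map, List.mem_range,
      forall_exists_index, and_imp, forall_apply_eq_imp_iff₂, qimp_eval]
  rw [h1]
  constructor
  · intro h k hk hv
    obtain ⟨h2, h3⟩ := h k (by omega) hv
    refine ⟨?_, fun l hl hv' => h3 l (by omega) hv'⟩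
    have h4 := (qLater_eval hB φ M s k true (decide (s ≤ K)) ρ).1 h2
    change Later φ (decS s M (decide (s ≤ K)) ρ) (decS k M (decide (k ≤ K)) ρ)
    rw [decide_eq_true hk]
    exact h4
  · intro h k hk hv
    obtain ⟨h2, h3⟩ := h k (by omega) hv
    refine ⟨?_, fun l hl hv' => h3 l (by omega) hv'⟩
    rw [qLater_eval hB φ M s k true (decide (s ≤ K)) ρ]
    change Later φ (decS s M (decide (s ≤ K)) ρ) (decS k M (decide (k ≤ K)) ρ) at h2
    rwa [decide_eq_true (by omega : k ≤ K)] at h2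

theorem Q4a_VisOK_nom (φ : Fm B) (nom nom' : ℕ → XC) (K : ℕ) (X : XC)
    (h : ∀ k ≤ K, nom k = nom' k) (hv : VisOK φ nom K X) : VisOK φ nom' K X := by
  intro k hk hvk
  obtain ⟨h1, h2⟩ := hv k hk hvk
  rw [h k hk] at h1 h2
  exact ⟨h1, h2⟩

/-- the disjunction of the two kinds of answers -/
theorem Q4a_or (hB : ∀ f ∈ B, IsAffine f) (φ : Fm B) (M K t s : ℕ) (hs : s ≤ K ∨ K + 1 + (t + 1) ≤ s)
    (ih : ∀ ρ : ℕ → Bool, ((qSurv φ M K t (K + 1 + t)).eval ρ = true ↔
      Surv φ (decX M K ρ) K M t (decX M K ρ (K + 1 + t))))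
    (ρ : ℕ → Bool) (e0 : Ent B) (he0 : e0 ∈ ents φ [] 0) (h1 : ρ (vP t e0.pos) = true)
    (h2 : ∀ e ∈ ents φ [] 0, ρ (vP t e.pos) = true → e.pos = e0.pos) :
    (qor (qNom φ M K t s) (qAns φ M K t s (K + 1 + t) (qSurv φ M K t (K + 1 + t)))).eval ρ = true ↔
      ((∃ k ≤ K, (decX M K ρ s).vis k ∧ Eh (decX M K ρ k).S e0) ∨
        ∃ X', Ans φ (decX M K ρ) K M (decX M K ρ s) e0 X' ∧ Surv φ (decX M K ρ) K M t X') := by
  obtain ⟨s', hs'⟩ : ∃ s', s' = K + 1 + t := ⟨_, rfl⟩
  rw [← hs'] at ih ⊢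
  have hss : s ≠ s' := by omega
  have hs'K : ¬ s' ≤ K := by omega
  rw [qor_eval, Bool.or_eq_true]
  refine or_congr ?_ ?_
  · -- named answers
    have e1 : (qNom φ M K t s).eval ρ = true ↔ ¬ ∀ k < K + 1, ¬ (ρ (vI s k) = true ∧
        (qsel φ t fun e => qE M k true e).eval ρ = true) := by
      rw [qNom, qnot_eval, Bool.not_eq_true', ← Bool.not_eq_true, qands_eval]
      simp only [List.mem_map, List.mem_range, forall_exists_index, and_imp,
        forall_apply_eq_imp_iff₂, qnot_eval, QF.eval, Bool.not_eq_true', Bool.and_eq_false_iff]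
      simp only [← Bool.not_eq_true, not_and_or]
    rw [e1]
    push Not
    constructor
    · rintro ⟨k, hk, hv, h⟩
      rw [Q4a_sel φ t _ ρ e0 he0 h1 h2, qE_eval hB] at h
      refine ⟨k, by omega, hv, ?_⟩
      change Eh (decS k M (decide (k ≤ K)) ρ) e0
      rwa [decide_eq_true (by omega : k ≤ K)]
    · rintro ⟨k, hk, hv, h⟩
      refine ⟨k, by omega, hv, ?_⟩
      rw [Q4a_sel φ t _ ρ e0 he0 h1 h2, qE_eval hB]
      change Eh (decS k M (decide (k ≤ K)) ρ) e0 at h
      rwa [decide_eq_true (by omega : k ≤ K)] at h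
  · -- new answers
    have e1 : (qAns φ M K t s s' (qSurv φ M K t s')).eval ρ = true ↔
        ∃ ρ' : ℕ → Bool, (∀ n, n ∉ svars φ M K s' → ρ' n = ρ n) ∧
          (qLater φ M s s' false).eval ρ' = true ∧
          (∀ k < K + 1, ρ' (vI s' k) = true → ρ' (vI s k) = true) ∧
          (qVis φ M K s').eval ρ' = true ∧
          (qsel φ t fun e => qE M s' false e).eval ρ' = true ∧
          (qSurv φ M K t s').eval ρ' = true := by
      rw [qAns, qexs_eval]
      refine exists_congr fun ρ' => and_congr_right fun _ => ?_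
      rw [qands_eval]
      simp only [List.mem_cons, List.not_mem_nil, or_false, forall_eq_or_imp, forall_eq]
      rw [qands_eval]
      simp only [List.mem_map, List.mem_range, forall_exists_index, and_imp,
        forall_apply_eq_imp_iff₂, qimp_eval, QF.eval]
    rw [e1]
    have hsame : ∀ ρ' : ℕ → Bool, (∀ n, n ∉ svars φ M K s' → ρ' n = ρ n) → ∀ a, a ≠ s' →
        decX M K ρ' a = decX M K ρ a := by
      intro ρ' h a ha
      refine Q4a_decX_congr M K ρ' ρ a fun k b m hk => ?_
      exact h _ (Q4a_not_svars φ M K s' a k b m (by omega) ha)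
    constructor
    · rintro ⟨ρ', hρ', g1, g2, g3, g4, g5⟩
      have hX : ∀ k ≤ K, decX M K ρ' k = decX M K ρ k := fun k hk => hsame ρ' hρ' k (by omega)
      refine ⟨decX M K ρ' s', ⟨fun j hj => hj.1, ?_, ?_, ?_, ?_, ?_, ?_⟩, ?_⟩
      · intro i c h
        have h3 : decide (s' ≤ K) = true := h.1
        exact hs'K (of_decide_eq_true h3)
      · intro i c h
        have h3 : decide (s' ≤ K) = true := h.1
        exact hs'K (of_decide_eq_true h3)
      · rw [← hsame ρ' hρ' s hss]
        have h3 := (qLater_eval hB φ M s s' false (decide (s ≤ K)) ρ').1 g1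
        change Later φ (decS s M (decide (s ≤ K)) ρ') (decS s' M (decide (s' ≤ K)) ρ')
        rwa [decide_eq_false hs'K]
      · intro k hk hv
        rw [← hsame ρ' hρ' s hss]
        exact g2 k (by omega) hv
      · exact Q4a_VisOK_nom φ _ _ K _ hX ((qVis_eval hB φ M K s' ρ').1 g3)
      · rw [Q4a_sel φ t _ ρ' e0 he0, qE_eval hB] at g4
        · change Eh (decS s' M (decide (s' ≤ K)) ρ') e0
          rwa [decide_eq_false hs'K]
        · rw [hρ' _ (Q4a_vP_not_svars φ M K s' t e0.pos)]; exact h1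
        · intro e he h
          rw [hρ' _ (Q4a_vP_not_svars φ M K s' t e.pos)] at h
          exact h2 e he h
      · exact (Surv_nom φ _ _ K M t _ hX).1 ((ih ρ').1 g5)
    · rintro ⟨X', ⟨a1, a2, a3, a4, a5, a6, a7⟩, hX'⟩
      obtain ⟨ρ1, b1, -, -, b4, b5, b6, b7, -, -⟩ := exists_enc
        (fun _ j p => decide (X'.S.V p j)) (fun _ _ _ => false) (fun _ _ _ => false)
        (fun _ p => decide (X'.S.Z p)) (fun _ j => decide (X'.S.D j))
        (fun _ k => decide (X'.vis k)) (fun _ _ => false) (fun _ _ => false)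
        (fun _ => decide X'.S.refl)
      obtain ⟨ρ', hρ'd⟩ : ∃ ρ' : ℕ → Bool,
        ρ' = fun n => if n ∈ svars φ M K s' then ρ1 n else ρ n := ⟨_, rfl⟩
      have hin : ∀ n, n ∈ svars φ M K s' → ρ' n = ρ1 n := fun n hn => by rw [hρ'd]; exact if_pos hn
      have hρ' : ∀ n, n ∉ svars φ M K s' → ρ' n = ρ n := fun n hn => by rw [hρ'd]; exact if_neg hn
      have hX : ∀ k ≤ K, decX M K ρ' k = decX M K ρ k := fun k hk => hsame ρ' hρ' k (by omega)
      -- the decoded structure
      have c1 : ∀ j, (decX M K ρ' s').S.D j ↔ X'.S.D j := by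
        intro j
        change (j < M ∧ ρ' (vD s' j) = true) ↔ _
        by_cases hj : j < M
        · have hm : vD s' j ∈ svars φ M K s' := by
            simp only [svars, List.mem_append, List.mem_flatMap, List.mem_cons, List.mem_map,
              List.mem_range]
            exact Or.inl (Or.inl ⟨j, hj, Or.inl rfl⟩)
          rw [hin _ hm, b5]
          simp [hj]
        · constructor
          · intro h; exact absurd h.1 hj
          · intro h; exact absurd (a1 j h) hj
      have c2 : ∀ p, (0, p) ∈ code φ → ∀ c, (decX M K ρ' s').S.D c →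
          ((decX M K ρ' s').S.V p c ↔ X'.S.V p c) := by
        intro p hp c hc
        change ρ' (vV s' c p) = true ↔ _
        have hm : vV s' c p ∈ svars φ M K s' := by
          simp only [svars, List.mem_append, List.mem_flatMap, List.mem_cons, List.mem_map,
            List.mem_range]
          refine Or.inl (Or.inl ⟨c, hc.1, Or.inr ⟨p, ?_, rfl⟩⟩)
          simp only [prps, List.mem_map, List.mem_filter, decide_eq_true_eq]
          exact ⟨(0, p), ⟨hp, rfl⟩, rfl⟩
        rw [hin _ hm, b1]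
        simp
      have c3 : ∀ i c, (decX M K ρ' s').S.nm i c ↔ X'.S.nm i c := by
        intro i c
        refine iff_of_false (fun h => ?_) (a2 i c)
        have h3 : decide (s' ≤ K) = true := h.1
        exact hs'K (of_decide_eq_true h3)
      have c4 : ∀ i c, (decX M K ρ' s').S.fv i c ↔ X'.S.fv i c := by
        intro i c
        refine iff_of_false (fun h => ?_) (a3 i c)
        have h3 : decide (s' ≤ K) = true := h.1
        exact hs'K (of_decide_eq_true h3)
      have c5 : (decX M K ρ' s').S.refl ↔ X'.S.refl := by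
        change ρ' (vR s') = true ↔ _
        have hm : vR s' ∈ svars φ M K s' := by
          simp only [svars, List.mem_append, List.mem_cons]
          exact Or.inr (Or.inl trivial)
        rw [hin _ hm, b6]
        simp
      have c6 : ∀ e ∈ ents φ [] 0, ((decX M K ρ' s').S.Z e.pos ↔ X'.S.Z e.pos) := by
        intro e he
        change ρ' (vZ s' e.pos) = true ↔ _
        have hm : vZ s' e.pos ∈ svars φ M K s' := by
          simp only [svars, List.mem_append, List.mem_map, List.mem_range]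
          have := ents_pos φ [] 0 e he
          exact Or.inl (Or.inr ⟨e.pos, by omega, rfl⟩)
        rw [hin _ hm, b4]
        simp
      have c7 : ∀ k ≤ K, ((decX M K ρ' s').vis k ↔ X'.vis k) := by
        intro k hk
        change ρ' (vI s' k) = true ↔ _
        have hm : vI s' k ∈ svars φ M K s' := by
          simp only [svars, List.mem_append, List.mem_cons, List.mem_map, List.mem_range]
          exact Or.inr (Or.inr ⟨k, by omega, rfl⟩)
        rw [hin _ hm, b7]
        simp
      have c8 : ∀ e ∈ ents φ [] 0, (Eh (decX M K ρ' s').S e ↔ Eh X'.S e) :=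
        fun e he => Q4a_Eh_congr φ _ _ c1 c2 c3 c4 c5 c6 e he
      refine ⟨ρ', hρ', ?_, ?_, ?_, ?_, ?_⟩
      · rw [qLater_eval hB φ M s s' false (decide (s ≤ K)) ρ']
        have h3 : Later φ (decX M K ρ' s).S (decX M K ρ' s').S := by
          rw [hsame ρ' hρ' s hss]
          intro e he
          rw [c6 e he, c8 e he]
          exact a4 e he
        change Later φ (decS s M (decide (s ≤ K)) ρ') (decS s' M (decide (s' ≤ K)) ρ') at h3
        rwa [decide_eq_false hs'K] at h3
      · intro k hk hv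
        have h3 := a5 k (by omega) ((c7 k (by omega)).1 hv)
        rw [← hsame ρ' hρ' s hss] at h3
        exact h3
      · rw [qVis_eval hB]
        refine Q4a_VisOK_nom φ (decX M K ρ) _ K _ (fun k hk => (hX k hk).symm) ?_
        intro k hk hv
        obtain ⟨h3, h4⟩ := a6 k hk ((c7 k hk).1 hv)
        refine ⟨fun e he => ?_, fun l hl hvl => (c7 l hl).2 (h4 l hl hvl)⟩
        rw [c6 e he]
        exact h3 e he
      · rw [Q4a_sel φ t _ ρ' e0 he0, qE_eval hB]
        · have h3 := (c8 e0 he0).2 a7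
          change Eh (decS s' M (decide (s' ≤ K)) ρ') e0 at h3
          rwa [decide_eq_false hs'K] at h3
        · rw [hρ' _ (Q4a_vP_not_svars φ M K s' t e0.pos)]; exact h1
        · intro e he h
          rw [hρ' _ (Q4a_vP_not_svars φ M K s' t e.pos)] at h
          exact h2 e he h
      · rw [ih ρ', Surv_nom φ _ _ K M t _ hX, Surv_congr φ _ K M t _ X' c6 c7]
        exact hX'

/-- Induction on `t`. The choice of the request: `P_t` one-hot (`qexs_eval`, `qam1_eval`,
`qsel φ t f` is then `f e` for the chosen `e`, `ents_inj`). The answer: `(→)` the new assignment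
changes only the variables of the structure `s' = K + 1 + t`, `decX M K ρ'` is the same for
`k ≤ K` and for `s`; `(←)` given an answer `X'` change the variables of `s'` in `svars` accordingly;
`decX M K ρ' s'` agrees with `X'` on the data that occur (`Val_congr`, `Surv_congr`,
`Bnd M X'.S`). -/
theorem qSurv_eval (hB : ∀ f ∈ B, IsAffine f) (φ : Fm B) (M K : ℕ) :
    ∀ (t s : ℕ) (ρ : ℕ → Bool), (s ≤ K ∨ K + 1 + t ≤ s) →
      ((qSurv φ M K t s).eval ρ = true ↔ Surv φ (decX M K ρ) K M t (decX M K ρ s)) := by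
  intro t
  induction t with
  | zero =>
    intro s ρ _
    simp [qSurv, QF.eval, Surv]
  | succ t ih =>
    intro s ρ hs
    have hor := Q4a_or hB φ M K t s hs (fun ρ => ih (K + 1 + t) ρ (Or.inr le_rfl))
    obtain ⟨L, hL⟩ : ∃ L, L = (ents φ [] 0).map fun e => vP t e.pos := ⟨_, rfl⟩
    have hPL : ∀ n, n ∈ L → ∃ p, n = vP t p := by
      intro n hn
      rw [hL, List.mem_map] at hn
      obtain ⟨e, _, h⟩ := hn
      exact ⟨e.pos, h.symm⟩
    have hsame : ∀ ρ' : ℕ → Bool, (∀ n, n ∉ L → ρ' n = ρ n) →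
        decX M K ρ' = decX M K ρ := by
      intro ρ' h
      funext a
      refine Q4a_decX_congr M K ρ' ρ a fun k b m hk => ?_
      refine h _ (fun hmem => ?_)
      obtain ⟨p, hp⟩ := hPL _ hmem
      have := (vnum_inj (by omega) (by norm_num) hp).1
      omega
    have hev : (qSurv φ M K (t + 1) s).eval ρ = true ↔ ¬ ∃ ρ' : ℕ → Bool,
        (∀ n, n ∉ L → ρ' n = ρ n) ∧
        (∀ e ∈ ents φ [] 0, ∀ e' ∈ ents φ [] 0, ρ' (vP t e.pos) = true →
          ρ' (vP t e'.pos) = true → e.pos = e'.pos) ∧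
        (qsel φ t fun e => .var (vZ s e.pos)).eval ρ' = true ∧
        ¬ (qor (qNom φ M K t s)
          (qAns φ M K t s (K + 1 + t) (qSurv φ M K t (K + 1 + t)))).eval ρ' = true := by
      rw [qSurv, qnot_eval, Bool.not_eq_true', ← Bool.not_eq_true, ← hL, qexs_eval]
      refine not_congr (exists_congr fun ρ' => and_congr_right fun _ => ?_)
      rw [qands_eval]
      simp only [List.mem_cons, List.not_mem_nil, or_false, forall_eq_or_imp, forall_eq]
      rw [qam1_eval, qnot_eval, Bool.not_eq_true', ← Bool.not_eq_true]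
      simp only [List.mem_map, forall_exists_index, and_imp, forall_apply_eq_imp_iff₂]
    rw [hev]
    constructor
    · intro h e he hz
      by_contra hcon
      apply h
      obtain ⟨ρ', hρ'd⟩ : ∃ ρ' : ℕ → Bool,
        ρ' = fun n => if n ∈ L then decide (n = vP t e.pos) else ρ n := ⟨_, rfl⟩
      have hin : ∀ n, n ∈ L → ρ' n = decide (n = vP t e.pos) :=
        fun n hn => by rw [hρ'd]; exact if_pos hn
      have hρ' : ∀ n, n ∉ L → ρ' n = ρ n := fun n hn => by rw [hρ'd]; exact if_neg hn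
      have hmem : ∀ e ∈ ents φ [] 0, vP t e.pos ∈ L := fun e he => by
        rw [hL]; exact List.mem_map.2 ⟨e, he, rfl⟩
      have hP : ∀ e' ∈ ents φ [] 0, ρ' (vP t e'.pos) = true → e'.pos = e.pos := by
        intro e' he' h'
        rw [hin _ (hmem e' he')] at h'
        exact (vnum_inj (by norm_num) (by norm_num) (of_decide_eq_true h')).2.2.1
      have hPe : ρ' (vP t e.pos) = true := by
        rw [hin _ (hmem e he)]
        exact decide_eq_true rfl
      have hs1 := hsame ρ' hρ'
      refine ⟨ρ', hρ', ?_, ?_, ?_⟩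
      · intro e1 he1 e2 he2 h1 h2
        rw [hP e1 he1 h1, hP e2 he2 h2]
      · rw [Q4a_sel φ t _ ρ' e he hPe hP]
        have h3 : (decX M K ρ' s).S.Z e.pos := by rw [hs1]; exact hz
        exact h3
      · rw [hor ρ' e he hPe hP, hs1]
        exact hcon
    · rintro h ⟨ρ', hρ', g1, g2, g3⟩
      obtain ⟨e, he, hPe⟩ := Q4a_sel_ex φ t _ ρ' g2
      have hP : ∀ e' ∈ ents φ [] 0, ρ' (vP t e'.pos) = true → e'.pos = e.pos :=
        fun e' he' h' => g1 e' he' e he h' hPe
      have hs1 := hsame ρ' hρ'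
      rw [hor ρ' e he hPe hP, hs1] at g3
      apply g3
      apply h e he
      rw [Q4a_sel φ t _ ρ' e he hPe hP] at g2
      rw [← hs1]
      exact g2

end Pool.Agent.Lib.MP_bba6cc_lc
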