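import Pool.Agent.Lib.MP_bba6cc_lc.UWord

/-!
# Annotated words and the word of the translation
-/

namespace Pool.Agent.Lib.MP_bba6cc_lc

open Pool.Agent Pool.Agent.MSR Pool.Agent.MSR.En N487b59b3 N68a2faeb N793a5b8e

variable {B : List BFun}

/-- position, coefficient (`0` none, `1` false, `2` true), level, environment, symbol -/
abbrev Ann := ℕ × ℕ × ℕ × List (BN × ℕ) × Tok

/-- the annotated word of a formula -/
def annot : Fm B → ℕ → ℕ → List (BN × ℕ) → ℕ → List Ann
  | .prp p, pre, lev, env, pos => [(pos, pre, lev, env, tk (0, p))]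
  | .nom i, pre, lev, env, pos => [(pos, pre, lev, env, tk (1, i))]
  | .var x, pre, lev, env, pos => [(pos, pre, lev, env, tk (2, x))]
  | .app i args, pre, lev, env, pos => (pos, pre, lev, env, tk (3, i.val)) ::
      (List.finRange _).flatMap fun j => annot (args j) (if cB (B.get i) j = true then 2 else 1)
        lev env (pos + 1 + offs args j)
  | .dia φ, pre, lev, env, pos =>
      (pos, pre, lev, env, tk (4, 0)) :: annot φ 0 (lev + 1) env (pos + 1)
  | .box φ, pre, lev, env, pos =>
      (pos, pre, lev, env, tk (5, 0)) :: annot φ 0 (lev + 1) env (pos + 1)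
  | .down x φ, pre, lev, env, pos =>
      (pos, pre, lev, env, tk (6, x)) :: annot φ 0 lev ((⟨x⟩, lev) :: env) (pos + 1)

/-- the word before an argument -/
def wpre (p : ℕ) : List Tok :=
  if p = 2 then tA :: wc true else if p = 1 then tA :: wc false else []

def wvar (M s : ℕ) (nmd : Bool) (L0 lev : ℕ) (env : List (BN × ℕ)) (x : BN) : List Tok :=
  MSR.lcase (env.filter (fun e => decide (e.1 = x)))
    (bif nmd then wdot M (bC lev) (fun j => bF s j x) else Wz)
    (fun e _ => if e.2 < L0 then Wz else wdot M (bC lev) (bC (e.2 - L0)))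

def wdia (M s lev pos : ℕ) : List Tok :=
  [tX, tO, tA, tX, tO, (⟨0⟩, bZ s pos), tX, tO, tA, (⟨0⟩, bR s)] ++
    (wexs ((List.range M).map (bC (lev + 1))) ++ tA :: wOH M s (lev + 1))

def wbox (M s lev pos : ℕ) : List Tok :=
  [tA, tX, tO, (⟨0⟩, bZ s pos), tX, tO, tA, (⟨0⟩, bR s)] ++
    (wexs ((List.range M).map (bC (lev + 1))) ++ tA :: (wOH M s (lev + 1) ++ [tX, tO]))

/-- the word of a symbol -/
def wown (tab : Tab) (M s : ℕ) (nmd : Bool) (L0 : ℕ) (an : Ann) : List Tok :=
  if an.2.2.2.2.1 = ⟨0⟩ then wdot M (bC (an.2.2.1 - L0)) (fun j => bV s j an.2.2.2.2.2)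
  else if an.2.2.2.2.1 = ⟨1⟩ then
    (bif nmd then wdot M (bC (an.2.2.1 - L0)) (fun j => bN s j an.2.2.2.2.2) else Wz)
  else if an.2.2.2.2.1 = ⟨2⟩ then
    wvar M s nmd L0 (an.2.2.1 - L0) an.2.2.2.1 an.2.2.2.2.2
  else if an.2.2.2.2.1 = ⟨3⟩ then MSR.lcase (entry tab an.2.2.2.2.2) []
    (fun e _ => e.2.2.map (fun _ => tX) ++ wc e.2.1)
  else if an.2.2.2.2.1 = ⟨4⟩ then wdia M s (an.2.2.1 - L0) an.1
  else if an.2.2.2.2.1 = ⟨5⟩ then wbox M s (an.2.2.1 - L0) an.1
  else []

def wloc (tab : Tab) (M s : ℕ) (nmd : Bool) (L0 : ℕ) (an : Ann) : List Tok :=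
  wpre an.2.1 ++ wown tab M s nmd L0 an

/-- relative environment -/
def conv (L0 : ℕ) (env : List (BN × ℕ)) : List (ℕ × Option ℕ) :=
  env.map (fun e => (e.1.val, if e.2 < L0 then none else some (e.2 - L0)))

theorem lk_conv (L0 : ℕ) (env : List (BN × ℕ)) (x : ℕ) :
    lk (conv L0 env) x = MSR.lcase (env.filter (fun e => decide (e.1 = ⟨x⟩))) none
      (fun e _ => some (if e.2 < L0 then none else some (e.2 - L0))) := by
  unfold lk conv
  induction env with
  | nil => rfl
  | cons e env ih =>
    obtain ⟨⟨n⟩, l⟩ := e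
    by_cases h : n = x
    · subst h
      simp [MSR.lcase]
    · have h1 : ¬ ((⟨n⟩ : BN) = ⟨x⟩) := by simpa using h
      rw [List.filter_cons_of_neg (by simpa using h1), ← ih]
      simp [h]

theorem wpre_c (b : Bool) : wpre (if b = true then 2 else 1) = tA :: wc b := by
  cases b <;> rfl

theorem Wq_tr (M s : ℕ) (nmd : Bool) (φ : Fm B) : ∀ (pre lev : ℕ) (env : List (BN × ℕ))
    (pos L0 : ℕ), L0 ≤ lev →
    (annot φ pre lev env pos).flatMap (wloc (tabB B) M s nmd L0) =
      wpre pre ++ Wq (tr M s nmd φ (lev - L0) (conv L0 env) pos) := by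
  induction φ with
  | prp p =>
    intro pre lev env pos L0 _
    simp only [annot, List.flatMap_cons, List.flatMap_nil, List.append_nil, wloc]
    congr 1
    simp only [wown, tk, if_true]
    simp only [tr]
    rw [Wq_dot]
    rfl
  | nom i =>
    intro pre lev env pos L0 _
    simp only [annot, List.flatMap_cons, List.flatMap_nil, List.append_nil, wloc]
    congr 1
    simp only [wown, tk, BN.mk.injEq, tr]
    cases nmd with
    | true =>
      simp only [if_true, cond_true]
      rw [if_neg (by norm_num), Wq_dot]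
      rfl
    | false =>
      simp only [if_true, cond_false]
      rw [if_neg (by norm_num)]
      rfl
  | var x =>
    intro pre lev env pos L0 _
    simp only [annot, List.flatMap_cons, List.flatMap_nil, List.append_nil, wloc]
    congr 1
    have e1 : wown (tabB B) M s nmd L0 (pos, pre, lev, env, tk (2, x)) =
        wvar M s nmd L0 (lev - L0) env ⟨x⟩ := by
      simp [wown, tk]
    rw [e1]
    unfold wvar
    simp only [tr]
    rw [lk_conv]
    generalize env.filter (fun e => decide (e.1 = (⟨x⟩ : BN))) = F
    cases F with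
    | nil =>
      simp only [MSR.lcase]
      cases nmd with
      | true =>
        simp only [cond_true, if_true]
        rw [Wq_dot]
        rfl
      | false => rfl
    | cons e r =>
      simp only [MSR.lcase]
      by_cases h : e.2 < L0
      · simp only [h, if_true]
        rfl
      · simp only [h, if_false]
        rw [Wq_dot]
        rfl
  | app i args ih =>
    intro pre lev env pos L0 h
    simp only [annot, List.flatMap_cons, wloc]
    rw [List.append_assoc]
    congr 1
    have e1 : wown (tabB B) M s nmd L0 (pos, pre, lev, env, tk (3, i.val)) =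
        List.replicate (B.get i).ar tX ++ wc (c0B (B.get i)) := by
      have hl : (List.ofFn (cB (B.get i))).map (fun _ => tX) = List.replicate (B.get i).ar tX := by
        rw [List.map_const', List.length_ofFn]
      simp only [wown, tk, BN.mk.injEq]
      rw [if_neg (by norm_num), if_neg (by norm_num), if_neg (by norm_num), if_pos trivial,
        entry_val]
      simp only [MSR.lcase]
      rw [hl]
    rw [e1]
    simp only [tr]
    rw [Wq_aff, List.append_assoc]
    congr 2
    rw [List.flatMap_assoc]
    apply List.flatMap_congr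
    intro j _
    rw [ih j _ _ _ _ _ h, wpre_c]
    rfl
  | dia φ ih =>
    intro pre lev env pos L0 h
    simp only [annot, List.flatMap_cons, wloc]
    rw [List.append_assoc]
    congr 1
    have e1 : wown (tabB B) M s nmd L0 (pos, pre, lev, env, tk (4, 0)) =
        wdia M s (lev - L0) pos := by
      simp [wown, tk]
    rw [e1, ih 0 (lev + 1) env (pos + 1) L0 (by omega)]
    simp only [tr]
    rw [Wq_or, Wq_var, Wq_and, Wq_var, Wq_exs', Wq_and, Wq_OH, List.map_map,
      show lev + 1 - L0 = lev - L0 + 1 by omega]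
    simp only [wdia, List.append_assoc, List.cons_append, List.nil_append]
    rfl
  | box φ ih =>
    intro pre lev env pos L0 h
    simp only [annot, List.flatMap_cons, wloc]
    rw [List.append_assoc]
    congr 1
    have e1 : wown (tabB B) M s nmd L0 (pos, pre, lev, env, tk (5, 0)) =
        wbox M s (lev - L0) pos := by
      simp [wown, tk]
    rw [e1, ih 0 (lev + 1) env (pos + 1) L0 (by omega)]
    simp only [tr]
    rw [Wq_and, Wq_not, Wq_not, Wq_var, Wq_and, Wq_var, Wq_exs', Wq_and, Wq_OH, Wq_not,
      List.map_map, show lev + 1 - L0 = lev - L0 + 1 by omega]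
    simp only [wbox, List.append_assoc, List.cons_append, List.nil_append]
    rfl
  | down x φ ih =>
    intro pre lev env pos L0 h
    simp only [annot, List.flatMap_cons, wloc]
    rw [List.append_assoc]
    congr 1
    have e1 : wown (tabB B) M s nmd L0 (pos, pre, lev, env, tk (6, x)) = [] := by
      simp [wown, tk]
    rw [e1, ih 0 lev _ (pos + 1) L0 h]
    simp only [tr, List.nil_append]
    have e2 : conv L0 ((⟨x⟩, lev) :: env) = (x, some (lev - L0)) :: conv L0 env := by
      simp [conv, show ¬ lev < L0 by omega]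
    rw [e2]
    rfl

/-! ### occurrences -/

/-- the occurrences of `◇`, `□` with the annotated words of their bodies -/
def eAnn : Fm B → ℕ → List (BN × ℕ) → ℕ → List (Ent B × List Ann)
  | .prp _, _, _, _ => []
  | .nom _, _, _, _ => []
  | .var _, _, _, _ => []
  | .app _ args, lev, env, pos =>
    (List.finRange _).flatMap fun j => eAnn (args j) lev env (pos + 1 + offs args j)
  | .dia φ, lev, env, pos => (⟨pos, env.map (fun e => e.1.val), false, φ⟩,
      annot φ 0 (lev + 1) env (pos + 1)) :: eAnn φ (lev + 1) env (pos + 1)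
  | .box φ, lev, env, pos => (⟨pos, env.map (fun e => e.1.val), true, φ⟩,
      annot φ 0 (lev + 1) env (pos + 1)) :: eAnn φ (lev + 1) env (pos + 1)
  | .down x φ, lev, env, pos => eAnn φ lev ((⟨x⟩, lev) :: env) (pos + 1)

theorem eAnn_fst (φ : Fm B) : ∀ (lev : ℕ) (env : List (BN × ℕ)) (pos : ℕ),
    (eAnn φ lev env pos).map (fun x => x.1) = ents φ (env.map (fun e => e.1.val)) pos := by
  induction φ with
  | prp p => intros; rfl
  | nom i => intros; rfl
  | var x => intros; rfl
  | app i args ih =>
    intro lev env pos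
    simp only [eAnn, ents]
    rw [List.map_flatMap]
    apply List.flatMap_congr
    intro j _
    exact ih j _ _ _
  | dia φ ih =>
    intro lev env pos
    simp only [eAnn, ents, List.map_cons, ih]
  | box φ ih =>
    intro lev env pos
    simp only [eAnn, ents, List.map_cons, ih]
  | down x φ ih =>
    intro lev env pos
    simp only [eAnn, ents, ih, List.map_cons]

/-- the word of `qE` -/
def wE (tab : Tab) (M s : ℕ) (nmd : Bool) (x : ℕ × Bool × List Ann) (L0 : ℕ) : List Tok :=
  wexs ((List.range M).map (bC 0)) ++ tA :: (wOH M s 0 ++ tX :: (wc x.2.1 ++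
    x.2.2.flatMap (wloc tab M s nmd L0)))

/-- all levels of the environments are small -/
theorem Wq_E (M s : ℕ) (nmd : Bool) (φ : Fm B) : ∀ (lev : ℕ) (env : List (BN × ℕ)) (pos : ℕ),
    (∀ e ∈ env, e.2 ≤ lev) → ∀ x ∈ eAnn φ lev env pos, ∃ L0, (∀ a r, x.2 = a :: r → a.2.2.1 = L0) ∧
      Wq (qE M s nmd x.1) = wE (tabB B) M s nmd (x.1.pos, x.1.neg, x.2) L0 := by
  have key : ∀ (φ : Fm B) (lev : ℕ) (env : List (BN × ℕ)) (pos : ℕ) (neg : Bool),
      (∀ e ∈ env, e.2 ≤ lev) →
      ∃ L0, (∀ a r, annot φ 0 (lev + 1) env (pos + 1) = a :: r → a.2.2.1 = L0) ∧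
      Wq (qE M s nmd (⟨pos, env.map (fun e => e.1.val), neg, φ⟩ : Ent B)) =
        wE (tabB B) M s nmd (pos, neg, annot φ 0 (lev + 1) env (pos + 1)) L0 := by
    intro φ lev env pos neg h
    refine ⟨lev + 1, ?_, ?_⟩
    · intro a r har
      cases φ <;> simp only [annot, List.cons.injEq] at har <;> rw [← har.1]
    · unfold qE wE
      rw [Wq_exs', Wq_and, Wq_OH, Wq_xor, Wq_c, List.map_map,
        Wq_tr M s nmd φ 0 (lev + 1) env (pos + 1) (lev + 1) (le_refl _)]
      have e1 : conv (lev + 1) env = dead ℕ (env.map (fun e => e.1.val)) := by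
        unfold conv dead
        rw [List.map_map]
        apply List.map_congr_left
        intro e he
        have := h e he
        simp [show e.2 < lev + 1 by omega]
      rw [e1, Nat.sub_self]
      rfl
  induction φ with
  | prp p => intro _ _ _ _ x hx; simp [eAnn] at hx
  | nom i => intro _ _ _ _ x hx; simp [eAnn] at hx
  | var x => intro _ _ _ _ x hx; simp [eAnn] at hx
  | app i args ih =>
    intro lev env pos h x hx
    simp only [eAnn, List.mem_flatMap] at hx
    obtain ⟨j, _, hx⟩ := hx
    exact ih j _ _ _ h x hx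
  | dia φ ih =>
    intro lev env pos h x hx
    simp only [eAnn, List.mem_cons] at hx
    rcases hx with rfl | hx
    · exact key φ lev env pos false h
    · exact ih _ _ _ (fun e he => (h e he).trans (by omega)) x hx
  | box φ ih =>
    intro lev env pos h x hx
    simp only [eAnn, List.mem_cons] at hx
    rcases hx with rfl | hx
    · exact key φ lev env pos true h
    · exact ih _ _ _ (fun e he => (h e he).trans (by omega)) x hx
  | down y φ ih =>
    intro lev env pos h x hx
    simp only [eAnn] at hx
    refine ih lev _ _ ?_ x hx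
    intro e he
    rcases List.mem_cons.mp he with rfl | he
    · exact le_refl _
    · exact h e he

end Pool.Agent.Lib.MP_bba6cc_lc
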