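import Pool.Agent.Lib.MP_bba6cc_lc.UScan

/-!
# Polynomial time: annotated words and the words of the translation
-/

namespace Pool.Agent.Lib.MP_bba6cc_lc

open Pool.Agent Pool.Agent.MSR Pool.Agent.MSR.En N487b59b3 N68a2faeb N793a5b8e

variable {α β γ : Type} [En α] [En β] [En γ]

theorem PT.take {f : α → ℕ} {l : α → List β} (hf : PT f) (hl : PT l) :
    PT (fun a => (l a).take (f a)) := by
  have : PT (fun a => ((l a).reverse.drop ((l a).length - f a)).reverse) :=
    PT.reverse (PT.drop (PT.sub (PT.length hl) hf) (PT.reverse hl))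
  refine this.of_eq (fun a => ?_)
  rw [List.drop_reverse, List.reverse_reverse]
  rcases Nat.le_total (f a) (l a).length with h | h
  · congr 1
    omega
  · rw [List.take_of_length_le h, List.take_of_length_le (by omega)]

variable (tab : Tab)

theorem PT.newP {t : α → Tok} (ht : PT t) : PT (fun a => newP tab (t a)) := by
  unfold MP_bba6cc_lc.newP
  have hk : ∀ n : BN, PT (fun a => decide ((t a).1 = n)) := fun n => PT.eq (PT.fst ht) (PT.const n)
  apply PT.ite (hk _)
  · apply PT.lcase (PT.entry tab (PT.snd ht)) (PT.const _)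
    apply PT.map (PT.snd (PT.snd (PT.fst (PT.snd PT.id'))))
    apply PT.ite _ (PT.const _) (PT.const _)
    exact PT.eq (PT.snd PT.id') (PT.const _)
  apply PT.ite (hk _) (PT.const _)
  apply PT.ite (hk _) (PT.const _)
  exact PT.ite (hk _) (PT.const _) (PT.const _)

theorem sz_newP : ∃ e, ∀ t : Tok, sz (newP tab t) ≤ (sz t + 2) ^ e :=
  (PT.newP tab (PT.id' : PT (fun t : Tok => t))).bound

theorem PT.pfold {s : α → List Tok} {x : α → List ℕ} (hs : PT s) (hx : PT x) :
    PT (fun a => (s a).foldl (pstep tab) (x a)) := by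
  apply PT.foldl_add (g := fun _ => pstep tab) hs hx
  · unfold pstep
    apply PT.lcase (PT.fst (PT.snd PT.id')) (PT.const _)
    exact PT.append (PT.newP tab (PT.snd (PT.snd (PT.fst PT.id')))) (PT.snd (PT.snd PT.id'))
  · obtain ⟨d, hd⟩ := hs.bound
    obtain ⟨e, he⟩ := sz_newP tab
    refine ⟨fun n => ((n + 2) ^ d + 2) ^ e,
      (((PB.id.add (PB.const 2)).pow d).add (PB.const 2)).pow e, ?_⟩
    intro a c t ht
    have h1 : sz t ≤ (sz a + 2) ^ d := (sz_mem ht).trans (hd a)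
    have h2 : sz (MP_bba6cc_lc.newP tab t) ≤ ((sz a + 2) ^ d + 2) ^ e :=
      (he t).trans (Nat.pow_le_pow_left (by omega) e)
    cases c with
    | nil => simp [pstep, MSR.lcase, sz_nil]
    | cons p r =>
      rw [pstep_cons, sz_append, sz_cons]
      simp only
      omega

theorem PT.blen {s : α → List Tok} (hs : PT s) : PT (fun a => blen tab (s a)) := by
  unfold MP_bba6cc_lc.blen
  apply PT.snd
  apply PT.foldl_add (g := fun _ => bstp tab) hs (PT.const _)
  · unfold bstp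
    have hc : PT (fun p : α × (ℕ × ℕ) × Tok => p.2.1) := PT.fst (PT.snd PT.id')
    apply PT.ite (PT.eq (PT.fst hc) (PT.const _)) hc
    exact PT.pair (PT.add (PT.sub (PT.fst hc) (PT.const 1))
      (PT.length (PT.newP tab (PT.snd (PT.snd PT.id'))))) (PT.succ (PT.snd hc))
  · obtain ⟨d, hd⟩ := hs.bound
    obtain ⟨e, he⟩ := sz_newP tab
    refine ⟨fun n => 2 * ((n + 2) ^ d + 2) ^ e + 1,
      ((PB.const 2).mul ((((PB.id.add (PB.const 2)).pow d).add (PB.const 2)).pow e)).add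
        (PB.const 1), ?_⟩
    intro a c t ht
    have h1 : sz t ≤ (sz a + 2) ^ d := (sz_mem ht).trans (hd a)
    have h2 : sz (MP_bba6cc_lc.newP tab t) ≤ ((sz a + 2) ^ d + 2) ^ e :=
      (he t).trans (Nat.pow_le_pow_left (by omega) e)
    have h3 := length_le_sz (MP_bba6cc_lc.newP tab t)
    obtain ⟨m, c⟩ := c
    unfold bstp
    by_cases hm : m = 0
    · simp only [hm, if_true]
      omega
    · simp only [hm, if_false, sz_pair, sz_nat]
      omega

theorem PT.ann1 {st : α → St} {ps : α → List ℕ} {t : α → Tok} (h1 : PT st) (h2 : PT ps)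
    (h3 : PT t) : PT (fun a => ann1 (st a) (ps a) (t a)) := by
  unfold MP_bba6cc_lc.ann1
  have hf : PT (fun a => (st a).2.1.headD fr0) := PT.headD (PT.fst (PT.snd h1)) (PT.const _)
  exact PT.pair (PT.fst h1) (PT.pair (PT.headD h2 (PT.const _))
    (PT.pair (PT.fst (PT.snd (PT.snd hf))) (PT.pair (PT.snd (PT.snd (PT.snd hf))) h3)))

theorem PT.annT {s : α → List Tok} (hs : PT s) : PT (fun a => annT tab (s a)) := by
  unfold MP_bba6cc_lc.annT
  apply PT.map (PT.range (PT.length hs))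
  have hs' : PT (fun q : α × ℕ => s q.1) := hs.comp (PT.fst PT.id')
  have ht : PT (fun q : α × ℕ => (s q.1).take q.2) := PT.take (PT.snd PT.id') hs'
  exact PT.ann1 (PT.run tab ht) (PT.pfold tab ht (PT.const _))
    (PT.getD (PT.snd PT.id') hs' (PT.const _))

theorem PT.body1 {r : α → List Ann} (hr : PT r) : PT (fun a => body1 tab (r a)) := by
  unfold MP_bba6cc_lc.body1
  apply PT.take _ hr
  apply PT.blen
  exact PT.map hr (PT.snd (PT.snd (PT.snd (PT.snd (PT.snd PT.id')))))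

theorem PT.eown {x : α → Ann} {r : α → List Ann} (hx : PT x) (hr : PT r) :
    PT (fun a => eown tab (x a) (r a)) := by
  unfold MP_bba6cc_lc.eown
  have ht := PT.fst (PT.snd (PT.snd (PT.snd (PT.snd hx))))
  apply PT.ite (PT.eq ht (PT.const _))
  · exact PT.cons (PT.pair (PT.fst hx) (PT.pair (PT.const _) (PT.body1 tab hr))) (PT.const _)
  apply PT.ite (PT.eq ht (PT.const _))
  · exact PT.cons (PT.pair (PT.fst hx) (PT.pair (PT.const _) (PT.body1 tab hr))) (PT.const _)
  · exact PT.const _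

theorem PT.ELT {A : α → List Ann} (hA : PT A) : PT (fun a => ELT tab (A a)) := by
  unfold MP_bba6cc_lc.ELT
  apply PT.flatMap (PT.range (PT.length hA))
  apply PT.lcase (PT.drop (PT.snd PT.id') (hA.comp (PT.fst PT.id'))) (PT.const _)
  exact PT.eown tab (PT.fst (PT.snd PT.id')) (PT.snd (PT.snd PT.id'))

/-! ### words -/

theorem PT.up {f : α → γ} (hf : PT f) : PT (fun q : α × β => f q.1) := hf.comp (PT.fst PT.id')

theorem PT.bV {s j : α → ℕ} {p : α → BN} (hs : PT s) (hj : PT j) (hp : PT p) :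
    PT (fun a => bV (s a) (j a) (p a)) := PT.vb (PT.const 0) hs hj hp
theorem PT.bN {s j : α → ℕ} {p : α → BN} (hs : PT s) (hj : PT j) (hp : PT p) :
    PT (fun a => bN (s a) (j a) (p a)) := PT.vb (PT.const 1) hs hj hp
theorem PT.bF {s j : α → ℕ} {p : α → BN} (hs : PT s) (hj : PT j) (hp : PT p) :
    PT (fun a => bF (s a) (j a) (p a)) := PT.vb (PT.const 2) hs hj hp
theorem PT.bZ {s j : α → ℕ} (hs : PT s) (hj : PT j) :
    PT (fun a => bZ (s a) (j a)) := PT.vb (PT.const 3) hs hj (PT.const _)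
theorem PT.bD {s j : α → ℕ} (hs : PT s) (hj : PT j) :
    PT (fun a => bD (s a) (j a)) := PT.vb (PT.const 4) hs hj (PT.const _)
theorem PT.bR {s : α → ℕ} (hs : PT s) :
    PT (fun a => bR (s a)) := PT.vb (PT.const 5) hs (PT.const _) (PT.const _)
theorem PT.bI {s j : α → ℕ} (hs : PT s) (hj : PT j) :
    PT (fun a => bI (s a) (j a)) := PT.vb (PT.const 6) hs hj (PT.const _)
theorem PT.bC {s j : α → ℕ} (hs : PT s) (hj : PT j) :
    PT (fun a => bC (s a) (j a)) := PT.vb (PT.const 7) hs hj (PT.const _)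
theorem PT.bP {s j : α → ℕ} (hs : PT s) (hj : PT j) :
    PT (fun a => bP (s a) (j a)) := PT.vb (PT.const 8) hs hj (PT.const _)

theorem PT.wdot {M : α → ℕ} {f g : α → ℕ → BN} (hM : PT M) (hf : PT (fun q : α × ℕ => f q.1 q.2))
    (hg : PT (fun q : α × ℕ => g q.1 q.2)) : PT (fun a => wdot (M a) (f a) (g a)) := by
  unfold MP_bba6cc_lc.wdot
  apply PT.append _ (PT.const _)
  apply PT.flatMap (PT.range hM)
  exact PT.cons (PT.const _) (PT.cons (PT.const _) (PT.cons (PT.pair (PT.const _) hf)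
    (PT.cons (PT.pair (PT.const _) hg) (PT.const _))))

theorem PT.wam1 {ι : Type} [En ι] [DecidableEq ι] [EqPT ι] {I : α → List ι} {f : α → ι → BN}
    (hI : PT I) (hf : PT (fun q : α × ι => f q.1 q.2)) : PT (fun a => wam1 (I a) (f a)) := by
  unfold MP_bba6cc_lc.wam1
  apply PT.append _ (PT.const _)
  apply PT.flatMap
  · apply PT.filter (PT.product hI hI)
    have h1 : PT (fun q : α × (ι × ι) => decide (q.2.1 = q.2.2)) :=
      PT.eq (PT.fst (PT.snd PT.id')) (PT.snd (PT.snd PT.id'))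
    refine (PT.not h1).of_eq (fun q => ?_)
    simp
  · have h1 : PT (fun q : α × (ι × ι) => f q.1 q.2.1) :=
      hf.comp (PT.pair (PT.fst PT.id') (PT.fst (PT.snd PT.id')))
    have h2 : PT (fun q : α × (ι × ι) => f q.1 q.2.2) :=
      hf.comp (PT.pair (PT.fst PT.id') (PT.snd (PT.snd PT.id')))
    exact PT.cons (PT.const _) (PT.cons (PT.const _) (PT.cons (PT.const _) (PT.cons (PT.const _)
      (PT.cons (PT.pair (PT.const _) h1) (PT.cons (PT.pair (PT.const _) h2) (PT.const _))))))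

theorem PT.bCs {l : α → ℕ} (hl : PT l) : PT (fun q : α × ℕ => MP_bba6cc_lc.bC (l q.1) q.2) :=
  PT.bC (PT.up hl) (PT.snd PT.id')

theorem PT.wOH {M s l : α → ℕ} (hM : PT M) (hs : PT s) (hl : PT l) :
    PT (fun a => wOH (M a) (s a) (l a)) := by
  unfold MP_bba6cc_lc.wOH
  apply PT.cons (PT.const _)
  apply PT.append
  · exact PT.wdot hM (PT.bCs hl) (PT.bD (PT.up hs) (PT.snd PT.id'))
  · exact PT.wam1 (PT.range hM) (PT.bCs hl)

theorem PT.wexs {L : α → List BN} (hL : PT L) : PT (fun a => wexs (L a)) := by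
  unfold MP_bba6cc_lc.wexs
  exact PT.map hL (PT.pair (PT.const _) (PT.snd PT.id'))

theorem PT.wc {b : α → Bool} (hb : PT b) : PT (fun a => wc (b a)) := by
  unfold MP_bba6cc_lc.wc
  exact PT.cond hb (PT.const _) (PT.const _)

theorem PT.wpre {p : α → ℕ} (hp : PT p) : PT (fun a => wpre (p a)) := by
  unfold MP_bba6cc_lc.wpre
  apply PT.ite (PT.eq hp (PT.const _)) (PT.const _)
  exact PT.ite (PT.eq hp (PT.const _)) (PT.const _) (PT.const _)

/-- the numbers of a level -/
theorem PT.mC {M l : α → ℕ} (hM : PT M) (hl : PT l) :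
    PT (fun a => (List.range (M a)).map (MP_bba6cc_lc.bC (l a))) :=
  PT.map (F := fun a => MP_bba6cc_lc.bC (l a)) (PT.range hM) (PT.bCs hl)

theorem PT.wdC {M l : α → ℕ} {g : α → ℕ → BN} (hM : PT M) (hl : PT l)
    (hg : PT (fun q : α × ℕ => g q.1 q.2)) :
    PT (fun a => MP_bba6cc_lc.wdot (M a) (MP_bba6cc_lc.bC (l a)) (g a)) :=
  PT.wdot (f := fun a => MP_bba6cc_lc.bC (l a)) hM (PT.bCs hl) hg

theorem PT.wvar (nmd : Bool) {M s L0 lev : α → ℕ} {env : α → List (BN × ℕ)} {x : α → BN}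
    (hM : PT M) (hs : PT s) (hL : PT L0) (hl : PT lev) (he : PT env) (hx : PT x) :
    PT (fun a => wvar (M a) (s a) nmd (L0 a) (lev a) (env a) (x a)) := by
  unfold MP_bba6cc_lc.wvar
  apply PT.lcase
  · apply PT.filter he
    exact PT.eq (PT.fst (PT.snd PT.id')) (PT.up hx)
  · cases nmd with
    | true =>
      exact PT.wdC (g := fun a j => MP_bba6cc_lc.bF (s a) j (x a)) hM hl
        (PT.bF (PT.up hs) (PT.snd PT.id') (PT.up hx))
    | false => exact PT.const _
  · have h1 : PT (fun q : α × (BN × ℕ) × List (BN × ℕ) => q.2.1.2) :=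
      PT.snd (PT.fst (PT.snd PT.id'))
    have h2 : PT (fun q : α × (BN × ℕ) × List (BN × ℕ) => L0 q.1) := hL.comp (PT.fst PT.id')
    have h3 : PT (fun q : α × (BN × ℕ) × List (BN × ℕ) => lev q.1) := hl.comp (PT.fst PT.id')
    have h4 : PT (fun q : α × (BN × ℕ) × List (BN × ℕ) => M q.1) := hM.comp (PT.fst PT.id')
    have h5 : PT (fun q : (α × (BN × ℕ) × List (BN × ℕ)) × ℕ =>
        MP_bba6cc_lc.bC (q.1.2.1.2 - L0 q.1.1) q.2) :=
      PT.bC (PT.sub (h1.comp (PT.fst PT.id')) (h2.comp (PT.fst PT.id'))) (PT.snd PT.id')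
    apply PT.ite (PT.ltb h1 h2) (PT.const _)
    exact PT.wdC (l := fun q : α × (BN × ℕ) × List (BN × ℕ) => lev q.1)
      (g := fun q => MP_bba6cc_lc.bC (q.2.1.2 - L0 q.1)) h4 h3 h5

theorem PT.wdia {M s lev pos : α → ℕ} (hM : PT M) (hs : PT s) (hl : PT lev) (hp : PT pos) :
    PT (fun a => wdia (M a) (s a) (lev a) (pos a)) := by
  unfold MP_bba6cc_lc.wdia
  have h1 : PT (fun a => (⟨0⟩, MP_bba6cc_lc.bZ (s a) (pos a)) : α → Tok) :=
    PT.pair (PT.const _) (PT.bZ hs hp)
  have h2 : PT (fun a => (⟨0⟩, MP_bba6cc_lc.bR (s a)) : α → Tok) :=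
    PT.pair (PT.const _) (PT.bR hs)
  have h3 : PT (fun a => MP_bba6cc_lc.wOH (M a) (s a) (lev a + 1)) := PT.wOH hM hs (PT.succ hl)
  have h4 := PT.mC hM (PT.succ hl)
  apply PT.append
  · exact PT.cons (PT.const _) (PT.cons (PT.const _) (PT.cons (PT.const _) (PT.cons (PT.const _)
      (PT.cons (PT.const _) (PT.cons h1 (PT.cons (PT.const _)
        (PT.cons (PT.const _) (PT.cons (PT.const _) (PT.cons h2 (PT.const _))))))))))
  · apply PT.append (PT.wexs h4)
    exact PT.cons (PT.const _) h3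

theorem PT.wbox {M s lev pos : α → ℕ} (hM : PT M) (hs : PT s) (hl : PT lev) (hp : PT pos) :
    PT (fun a => wbox (M a) (s a) (lev a) (pos a)) := by
  unfold MP_bba6cc_lc.wbox
  have h1 : PT (fun a => (⟨0⟩, MP_bba6cc_lc.bZ (s a) (pos a)) : α → Tok) :=
    PT.pair (PT.const _) (PT.bZ hs hp)
  have h2 : PT (fun a => (⟨0⟩, MP_bba6cc_lc.bR (s a)) : α → Tok) :=
    PT.pair (PT.const _) (PT.bR hs)
  have h3 : PT (fun a => MP_bba6cc_lc.wOH (M a) (s a) (lev a + 1)) := PT.wOH hM hs (PT.succ hl)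
  have h4 := PT.mC hM (PT.succ hl)
  apply PT.append
  · exact PT.cons (PT.const _) (PT.cons (PT.const _) (PT.cons (PT.const _)
      (PT.cons h1 (PT.cons (PT.const _)
        (PT.cons (PT.const _) (PT.cons (PT.const _) (PT.cons h2 (PT.const _))))))))
  · apply PT.append (PT.wexs h4)
    exact PT.cons (PT.const _) (PT.append h3 (PT.const _))

theorem PT.wown (nmd : Bool) {M s L0 : α → ℕ} {an : α → Ann} (hM : PT M) (hs : PT s)
    (hL : PT L0) (ha : PT an) : PT (fun a => wown tab (M a) (s a) nmd (L0 a) (an a)) := by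
  unfold MP_bba6cc_lc.wown
  have h1 : PT (fun a => (an a).1) := PT.fst ha
  have h3 : PT (fun a => (an a).2.2.1) := PT.fst (PT.snd (PT.snd ha))
  have h4 : PT (fun a => (an a).2.2.2.1) := PT.fst (PT.snd (PT.snd (PT.snd ha)))
  have h5 : PT (fun a => (an a).2.2.2.2.1) := PT.fst (PT.snd (PT.snd (PT.snd (PT.snd ha))))
  have h6 : PT (fun a => (an a).2.2.2.2.2) := PT.snd (PT.snd (PT.snd (PT.snd (PT.snd ha))))
  have hk : ∀ n : BN, PT (fun a => decide ((an a).2.2.2.2.1 = n)) :=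
    fun n => PT.eq h5 (PT.const n)
  have hl : PT (fun a => (an a).2.2.1 - L0 a) := PT.sub h3 hL
  apply PT.ite (hk _)
  · exact PT.wdC (g := fun a j => MP_bba6cc_lc.bV (s a) j (an a).2.2.2.2.2) hM hl
      (PT.bV (hs.comp (PT.fst PT.id')) (PT.snd PT.id') (h6.comp (PT.fst PT.id')))
  apply PT.ite (hk _)
  · cases nmd with
    | true =>
      exact PT.wdC (g := fun a j => MP_bba6cc_lc.bN (s a) j (an a).2.2.2.2.2) hM hl
        (PT.bN (hs.comp (PT.fst PT.id')) (PT.snd PT.id') (h6.comp (PT.fst PT.id')))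
    | false => exact PT.const _
  apply PT.ite (hk _)
  · exact PT.wvar nmd hM hs hL hl h4 h6
  apply PT.ite (hk _)
  · apply PT.lcase (PT.entry tab h6) (PT.const _)
    apply PT.append
    · exact PT.map (PT.snd (PT.snd (PT.fst (PT.snd PT.id')))) (PT.const _)
    · exact PT.wc (PT.fst (PT.snd (PT.fst (PT.snd PT.id'))))
  apply PT.ite (hk _)
  · exact PT.wdia hM hs hl h1
  apply PT.ite (hk _)
  · exact PT.wbox hM hs hl h1
  exact PT.const _

theorem PT.wloc (nmd : Bool) {M s L0 : α → ℕ} {an : α → Ann} (hM : PT M) (hs : PT s)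
    (hL : PT L0) (ha : PT an) : PT (fun a => wloc tab (M a) (s a) nmd (L0 a) (an a)) := by
  unfold MP_bba6cc_lc.wloc
  exact PT.append (PT.wpre (PT.fst (PT.snd ha))) (PT.wown tab nmd hM hs hL ha)

/-- the level of the first symbol -/
def lv0 (x : EA) : ℕ := MSR.lcase x.2.2 0 (fun a _ => a.2.2.1)

theorem PT.lv0 {x : α → EA} (hx : PT x) : PT (fun a => lv0 (x a)) := by
  unfold MP_bba6cc_lc.lv0
  exact PT.lcase (PT.snd (PT.snd hx)) (PT.const _)
    (PT.fst (PT.snd (PT.snd (PT.fst (PT.snd PT.id')))))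

/-- the word of `qE` -/
def wEx (M s : ℕ) (nmd : Bool) (x : EA) : List Tok := wE tab M s nmd x (lv0 x)

theorem PT.wEx (nmd : Bool) {M s : α → ℕ} {x : α → EA} (hM : PT M) (hs : PT s) (hx : PT x) :
    PT (fun a => wEx tab (M a) (s a) nmd (x a)) := by
  unfold MP_bba6cc_lc.wEx wE
  have h1 : PT (fun a => (List.range (M a)).map (MP_bba6cc_lc.bC 0)) :=
    PT.mC hM (PT.const 0)
  have h2 : PT (fun a => MP_bba6cc_lc.wOH (M a) (s a) 0) := PT.wOH hM hs (PT.const 0)
  have h3 : PT (fun a => (x a).2.2.flatMap (MP_bba6cc_lc.wloc tab (M a) (s a) nmd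
      (MP_bba6cc_lc.lv0 (x a)))) := by
    apply PT.flatMap (F := fun a => MP_bba6cc_lc.wloc tab (M a) (s a) nmd
      (MP_bba6cc_lc.lv0 (x a))) (PT.snd (PT.snd hx))
    exact PT.wloc tab nmd (hM.comp (PT.fst PT.id')) (hs.comp (PT.fst PT.id'))
      ((PT.lv0 hx).comp (PT.fst PT.id')) (PT.snd PT.id')
  apply PT.append (PT.wexs h1)
  apply PT.cons (PT.const _)
  apply PT.append h2
  apply PT.cons (PT.const _)
  exact PT.append (PT.wc (PT.fst (PT.snd hx))) h3

end Pool.Agent.Lib.MP_bba6cc_lc
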