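import Pool.Agent.Lib.MP_bba6cc_lc.UPtA

/-!
# Words of the quantified formulas for the two frame classes
-/

namespace Pool.Agent.Lib.MP_bba6cc_lc

open Pool.Agent Pool.Agent.MSR Pool.Agent.MSR.En N487b59b3 N68a2faeb N793a5b8e

variable {B : List BFun}

abbrev vt (x : BN) : List Tok := [(⟨0⟩, x)]

def wimp (a b : List Tok) : List Tok := [tX, tO, tA] ++ (a ++ ([tX, tO] ++ b))
def wnot (a : List Tok) : List Tok := tX :: tO :: a
def wor (a b : List Tok) : List Tok := [tX, tO, tA, tX, tO] ++ (a ++ ([tX, tO] ++ b))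

/-! ### reduction to the list of occurrences -/

theorem eAnn_ne (φ : Fm B) : ∀ (lev : ℕ) (env : List (BN × ℕ)) (pos : ℕ),
    ∀ x ∈ eAnn φ lev env pos, x.2 ≠ [] := by
  have key : ∀ (φ : Fm B) pre lev env pos, annot φ pre lev env pos ≠ [] := by
    intro φ pre lev env pos h
    have := annot_length φ pre lev env pos
    rw [h] at this
    exact code_ne_nil φ (List.length_eq_zero_iff.mp this.symm)
  induction φ with
  | prp p => intro _ _ _ x hx; simp [eAnn] at hx
  | nom i => intro _ _ _ x hx; simp [eAnn] at hx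
  | var x => intro _ _ _ x hx; simp [eAnn] at hx
  | app i args ih =>
    intro lev env pos x hx
    simp only [eAnn, List.mem_flatMap] at hx
    obtain ⟨j, _, hx⟩ := hx
    exact ih j _ _ _ x hx
  | dia φ ih =>
    intro lev env pos x hx
    simp only [eAnn, List.mem_cons] at hx
    rcases hx with rfl | hx
    · exact key _ _ _ _ _
    · exact ih _ _ _ x hx
  | box φ ih =>
    intro lev env pos x hx
    simp only [eAnn, List.mem_cons] at hx
    rcases hx with rfl | hx
    · exact key _ _ _ _ _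
    · exact ih _ _ _ x hx
  | down y φ ih =>
    intro lev env pos x hx
    simp only [eAnn] at hx
    exact ih _ _ _ x hx

/-- the occurrences -/
abbrev eaF (φ : Fm B) : List EA := eaOf φ 0 [] 0

theorem Wq_E' (M s : ℕ) (nmd : Bool) (φ : Fm B) (x : Ent B × List Ann)
    (hx : x ∈ eAnn φ 0 [] 0) :
    Wq (qE M s nmd x.1) = wEx (tabB B) M s nmd (x.1.pos, x.1.neg, x.2) := by
  obtain ⟨L0, h1, h2⟩ := Wq_E M s nmd φ 0 [] 0 (by simp) x hx
  rw [h2]
  unfold wEx lv0
  congr 1
  have hne := eAnn_ne φ 0 [] 0 x hx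
  rcases hx2 : x.2 with _ | ⟨a, r⟩
  · exact absurd hx2 hne
  · exact (h1 a r hx2).symm

/-- lists of conjuncts indexed by the occurrences -/
theorem flatMap_ents {δ : Type} (φ : Fm B) (F : Ent B → List δ) (G : EA → List δ)
    (h : ∀ x ∈ eAnn φ 0 [] 0, F x.1 = G (x.1.pos, x.1.neg, x.2)) :
    (ents φ [] 0).flatMap F = (eaF φ).flatMap G := by
  have h1 : ents φ [] 0 = (eAnn φ 0 [] 0).map (fun x => x.1) := by
    rw [eAnn_fst]
    rfl
  rw [h1]
  unfold eaF eaOf
  rw [List.flatMap_map, List.flatMap_map]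
  exact List.flatMap_congr h

theorem map_pos (φ : Fm B) {δ : Type} (f : ℕ → δ) :
    (ents φ [] 0).map (fun e => f e.pos) = (eaF φ).map (fun x => f x.1) := by
  have h1 : ents φ [] 0 = (eAnn φ 0 [] 0).map (fun x => x.1) := by
    rw [eAnn_fst]
    rfl
  rw [h1]
  unfold eaF eaOf
  rw [List.map_map, List.map_map]
  rfl

variable (tab : Tab)

/-! ### Later -/

def wLater (E : List EA) (M s s' : ℕ) (nmd : Bool) : List Tok :=
  E.flatMap (fun x => tA :: tA :: (wimp (vt (bZ s' x.1)) (vt (bZ s x.1)) ++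
    wimp (wEx tab M s' nmd x) (vt (bZ s x.1)))) ++ [tO]

theorem Wq_Later (φ : Fm B) (M s s' : ℕ) (nmd : Bool) :
    Wq (qLater φ M s s' nmd) = wLater (tabB B) (eaF φ) M s s' nmd := by
  unfold qLater wLater
  rw [Wq_ands, List.flatMap_map]
  congr 1
  apply flatMap_ents
  intro x hx
  rw [Wq_and, Wq_imp, Wq_imp, Wq_E' M s' nmd φ x hx]
  rfl

/-! ### VisOK -/

def wVisIn (K s k : ℕ) : List Tok :=
  (List.range (K + 1)).flatMap (fun l => tA :: wimp (vt (bI k l)) (vt (bI s l))) ++ [tO]

def wVis (E : List EA) (M K s : ℕ) : List Tok :=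
  (List.range (K + 1)).flatMap (fun k => tA :: wimp (vt (bI s k))
    (tA :: (wLater tab E M s k true ++ wVisIn K s k))) ++ [tO]

theorem Wq_VisIn (K s k : ℕ) :
    Wq (qands ((List.range (K + 1)).map fun l => qimp (.var (vI k l)) (.var (vI s l)))) =
      wVisIn K s k := by
  unfold wVisIn
  rw [Wq_ands, List.flatMap_map]
  rfl

theorem Wq_Vis (φ : Fm B) (M K s : ℕ) : Wq (qVis φ M K s) = wVis (tabB B) (eaF φ) M K s := by
  unfold qVis wVis
  rw [Wq_ands, List.flatMap_map]
  congr 1
  apply List.flatMap_congr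
  intro k _
  rw [Wq_imp, Wq_and, Wq_Later, Wq_VisIn]
  rfl

/-! ### the variables of a structure -/

def prT (s : List Tok) : List BN := (s.filter (fun t => decide (t.1 = ⟨0⟩))).map (fun t => t.2)

theorem prT_code (φ : Fm B) : prT (tks (code φ)) = (prps φ).map BN.mk := by
  unfold prT prps tks
  rw [List.filter_map, List.map_map, List.map_map]
  have : ((fun t : Tok => decide (t.1 = ⟨0⟩)) ∘ tk) = (fun t : ℕ × ℕ => decide (t.1 = 0)) := by
    funext t
    simp [tk]
  rw [this]
  rfl

def bsv (ts : List Tok) (M K s : ℕ) : List BN :=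
  ((List.range M).flatMap fun j => bD s j :: (prT ts).map (bV s j)) ++
    ((List.range ts.length).map (bZ s)) ++ (bR s :: (List.range (K + 1)).map (bI s))

theorem bsv_code (φ : Fm B) (M K s : ℕ) :
    (svars φ M K s).map BN.mk = bsv (tks (code φ)) M K s := by
  unfold svars bsv
  rw [List.map_append, List.map_append, List.map_flatMap, prT_code]
  have h1 : (tks (code φ)).length = flen φ := by simp [tks, flen]
  rw [h1]
  congr 1
  · congr 1
    · apply List.flatMap_congr
      intro j _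
      rw [List.map_cons, List.map_map, List.map_map]
      rfl
    · rw [List.map_map]
      rfl
  · rw [List.map_cons, List.map_map]
    rfl

/-! ### selections -/

def wsel (E : List EA) (t : ℕ) (f : EA → List Tok) : List Tok :=
  E.flatMap (fun x => tX :: tA :: (⟨0⟩, bP t x.1) :: f x) ++ Wz

theorem Wq_sel (φ : Fm B) (t : ℕ) (f : Ent B → QF) (g : EA → List Tok)
    (h : ∀ x ∈ eAnn φ 0 [] 0, Wq (f x.1) = g (x.1.pos, x.1.neg, x.2)) :
    Wq (qsel φ t f) = wsel (eaF φ) t g := by
  unfold qsel wsel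
  rw [Wq_xors, List.flatMap_map]
  congr 1
  apply flatMap_ents
  intro x hx
  rw [Wq_and, Wq_var, h x hx]
  rfl

def wNom (E : List EA) (M K t s : ℕ) : List Tok :=
  wnot ((List.range (K + 1)).flatMap (fun k => tA :: wnot (tA :: (⟨0⟩, bI s k) ::
    wsel E t (fun x => wEx tab M k true x))) ++ [tO])

theorem Wq_Nom (φ : Fm B) (M K t s : ℕ) :
    Wq (qNom φ M K t s) = wNom (tabB B) (eaF φ) M K t s := by
  unfold qNom wNom
  rw [Wq_not, Wq_ands, List.flatMap_map]
  unfold wnot
  congr 4
  funext k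
  rw [Wq_not, Wq_and, Wq_var, Wq_sel φ t _ (fun x => wEx (tabB B) M k true x)
    (fun x hx => Wq_E' M k true φ x hx)]
  rfl

/-! ### answers and the game -/

/-- the word before the rest of the game -/
def wfront (E : List EA) (ts : List Tok) (M K t s : ℕ) : List Tok :=
  [tX, tO] ++ (wexs (E.map (fun x => bP t x.1)) ++ (tA :: (wam1 (E.map (fun x => x.1)) (bP t) ++
    (tA :: (wsel E t (fun x => [(⟨0⟩, bZ s x.1)]) ++ (tA :: ([tX, tO] ++ ([tX, tO, tA, tX, tO] ++
      (wNom tab E M K t s ++ ([tX, tO] ++ (wexs (bsv ts M K (K + 1 + t)) ++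
        (tA :: (wLater tab E M s (K + 1 + t) false ++ (tA :: (wVisIn K s (K + 1 + t) ++
          (tA :: (wVis tab E M K (K + 1 + t) ++ (tA :: (wsel E t
            (fun x => wEx tab M (K + 1 + t) false x) ++ [tA])))))))))))))))))))

theorem Wq_Surv_succ (φ : Fm B) (M K t s : ℕ) : Wq (qSurv φ M K (t + 1) s) =
    wfront (tabB B) (eaF φ) (tks (code φ)) M K t s ++
      (Wq (qSurv φ M K t (K + 1 + t)) ++ [tO, tO]) := by
  have e1 : ((ents φ [] 0).map fun e => vP t e.pos).map BN.mk =
      (eaF φ).map (fun x => bP t x.1) := by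
    rw [List.map_map]
    exact map_pos φ (fun p => BN.mk (vP t p))
  have e2 : ((ents φ [] 0).map fun e => e.pos) = (eaF φ).map (fun x => x.1) :=
    map_pos φ (fun p => p)
  have e3 : Wq (qsel φ t fun e => .var (vZ s e.pos)) =
      wsel (eaF φ) t (fun x => [(⟨0⟩, bZ s x.1)]) :=
    Wq_sel φ t _ _ (fun x _ => rfl)
  have e4 : Wq (qsel φ t fun e => qE M (K + 1 + t) false e) =
      wsel (eaF φ) t (fun x => wEx (tabB B) M (K + 1 + t) false x) :=
    Wq_sel φ t _ _ (fun x hx => Wq_E' M (K + 1 + t) false φ x hx)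
  have e5 := Wq_VisIn K s (K + 1 + t)
  have e6 : Wq (qAns φ M K t s (K + 1 + t) (qSurv φ M K t (K + 1 + t))) =
      wexs (bsv (tks (code φ)) M K (K + 1 + t)) ++
        (tA :: (wLater (tabB B) (eaF φ) M s (K + 1 + t) false ++ (tA :: (wVisIn K s (K + 1 + t) ++
          (tA :: (wVis (tabB B) (eaF φ) M K (K + 1 + t) ++ (tA :: (wsel (eaF φ) t
            (fun x => wEx (tabB B) M (K + 1 + t) false x) ++ (tA ::
              (Wq (qSurv φ M K t (K + 1 + t)) ++ [tO])))))))))) := by
    unfold qAns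
    rw [Wq_exs', bsv_code, Wq_ands]
    simp only [List.flatMap_cons, List.flatMap_nil, List.append_nil, List.cons_append,
      List.append_assoc, Wq_Later, e5, Wq_Vis, e4]
  show Wq (qnot (qexs _ (qands [_, _, _]))) = _
  rw [Wq_not, Wq_exs', e1, Wq_ands]
  simp only [List.flatMap_cons, List.flatMap_nil, List.append_nil, List.cons_append,
    List.append_assoc, e2, e3, Wq_am1, Wq_not, Wq_or, Wq_Nom, e6, wfront, List.nil_append]
  rfl

theorem Wq_Surv (φ : Fm B) (M K : ℕ) : ∀ T s, Wq (qSurv φ M K T s) =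
    (List.range T).flatMap (fun i => wfront (tabB B) (eaF φ) (tks (code φ)) M K (T - 1 - i)
      (if i = 0 then s else K + 1 + (T - i))) ++ (List.range (2 * T + 1)).map (fun _ => tO) := by
  intro T
  induction T with
  | zero => intro s; rfl
  | succ T ih =>
    intro s
    have hr : List.range (T + 1) = 0 :: (List.range T).map Nat.succ := List.range_succ_eq_map
    rw [Wq_Surv_succ, ih, hr, List.flatMap_cons, List.flatMap_map]
    simp only [Nat.add_sub_cancel, Nat.sub_zero, if_true, List.append_assoc]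
    congr 1
    have e1 : (List.range T).flatMap (fun i => wfront (tabB B) (eaF φ) (tks (code φ)) M K
        (T - 1 - i) (if i = 0 then K + 1 + T else K + 1 + (T - i))) =
        (List.range T).flatMap (fun i => wfront (tabB B) (eaF φ) (tks (code φ)) M K
          (T - Nat.succ i) (if Nat.succ i = 0 then s else K + 1 + (T + 1 - Nat.succ i))) := by
      apply List.flatMap_congr
      intro i _
      have h1 : T - 1 - i = T - Nat.succ i := by omega
      have h2 : (if i = 0 then K + 1 + T else K + 1 + (T - i)) =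
          (if Nat.succ i = 0 then s else K + 1 + (T + 1 - Nat.succ i)) := by
        rw [if_neg (Nat.succ_ne_zero i)]
        split_ifs with h
        · omega
        · omega
      rw [h1, h2]
    rw [e1]
    congr 1
    rw [List.map_const', List.map_const', List.length_range, List.length_range,
      show 2 * (T + 1) + 1 = 2 * T + 1 + 2 by ring, List.replicate_add (2 * T + 1) 2]
    rfl

def wSurv (E : List EA) (ts : List Tok) (M K T s : ℕ) : List Tok :=
  (List.range T).flatMap (fun i => wfront tab E ts M K (T - 1 - i)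
      (if i = 0 then s else K + 1 + (T - i))) ++ (List.range (2 * T + 1)).map (fun _ => tO)

/-! ### names, start -/

def wNames (ts : List Tok) (M K : ℕ) : List Tok :=
  ts.flatMap (fun t => tA :: (if t.1 = ⟨1⟩ then
      wam1 ((List.range (K + 1)).product (List.range M)) (fun p => bN p.1 p.2 t.2)
    else if t.1 = ⟨2⟩ then
      wam1 ((List.range (K + 1)).product (List.range M)) (fun p => bF p.1 p.2 t.2)
    else [tO])) ++ [tO]

theorem Wq_Names (φ : Fm B) (M K : ℕ) : Wq (qNames φ M K) = wNames (tks (code φ)) M K := by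
  unfold qNames wNames
  rw [Wq_ands, List.flatMap_map]
  congr 1
  unfold tks
  rw [List.flatMap_map]
  apply List.flatMap_congr
  intro t _
  have h1 : (tk t).1 = ⟨1⟩ ↔ t.1 = 1 := by simp [tk]
  have h2 : (tk t).1 = ⟨2⟩ ↔ t.1 = 2 := by simp [tk]
  simp only [h1, h2]
  congr 1
  split_ifs
  · rw [Wq_am1]
    rfl
  · rw [Wq_am1]
    rfl
  · rfl

def wStart (A : List Ann) (M : ℕ) : List Tok :=
  tA :: (wOH M 0 0 ++ A.flatMap (wloc tab M 0 true 0))

theorem Wq_Start (φ : Fm B) (M : ℕ) :
    Wq (qStart φ M) = wStart (tabB B) (annot φ 0 0 [] 0) M := by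
  unfold qStart wStart
  rw [Wq_and, Wq_OH, Wq_tr M 0 true φ 0 0 [] 0 0 (le_refl _)]
  rfl

/-! ### the two formulas -/

def wTrans (A : List Ann) (E : List EA) (ts : List Tok) (M K T : ℕ) : List Tok :=
  tA :: (((List.range (K + 1)).flatMap (fun k => tA :: tA :: (wVis tab E M K k ++
    (tA :: (wnot [(⟨0⟩, bI k k)] ++ wSurv tab E ts M K T k)))) ++ [tO]) ++
      (tA :: (wNames ts M K ++ wStart tab A M)))

theorem Wq_Trans (φ : Fm B) (M K T : ℕ) : Wq (qTrans φ M K T) =
    wTrans (tabB B) (annot φ 0 0 [] 0) (eaF φ) (tks (code φ)) M K T := by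
  unfold qTrans wTrans
  rw [Wq_and, Wq_ands, List.flatMap_map, Wq_and, Wq_Names, Wq_Start]
  congr 4
  funext k
  rw [Wq_and, Wq_and, Wq_not, Wq_var, Wq_Vis, Wq_Surv]
  rfl

def wEr (A : List Ann) (E : List EA) (ts : List Tok) (M : ℕ) : List Tok :=
  tA :: ((E.flatMap (fun x => tA :: wnot [(⟨0⟩, bZ 0 x.1)]) ++ [tO]) ++
    (tA :: (⟨0⟩, bR 0) :: tA :: (wNames ts M 0 ++ wStart tab A M)))

theorem Wq_Er (φ : Fm B) (M : ℕ) : Wq (qEr φ M) =
    wEr (tabB B) (annot φ 0 0 [] 0) (eaF φ) (tks (code φ)) M := by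
  unfold qEr wEr
  rw [Wq_and, Wq_ands, List.flatMap_map, Wq_and, Wq_and, Wq_Names, Wq_Start, Wq_var]
  have h1 : (ents φ [] 0).flatMap (fun e => tA :: Wq (qnot (.var (vZ 0 e.pos)))) =
      (eaF φ).flatMap (fun x => tA :: wnot [(⟨0⟩, bZ 0 x.1)]) := by
    apply flatMap_ents
    intro x _
    rw [Wq_not, Wq_var]
    rfl
  rw [h1]
  rfl

end Pool.Agent.Lib.MP_bba6cc_lc
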