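import Pool.Agent.Lib.MP_bba6cc_lc.UPtB

/-!
# The reductions to TQBF run in polynomial time
-/

namespace Pool.Agent.Lib.MP_bba6cc_lc

open Pool.Agent Pool.Agent.MSR Pool.Agent.MSR.En N487b59b3 N68a2faeb N793a5b8e

section

variable {α β γ : Type} [En α] [En β] [En γ]

theorem PT.vt {x : α → BN} (hx : PT x) : PT (fun a => vt (x a)) :=
  PT.cons (PT.pair (PT.const _) hx) (PT.const _)

theorem PT.wimp {a b : α → List Tok} (ha : PT a) (hb : PT b) : PT (fun c => wimp (a c) (b c)) := by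
  unfold MP_bba6cc_lc.wimp
  exact PT.append (PT.const _) (PT.append ha (PT.append (PT.const _) hb))

theorem PT.wnot {a : α → List Tok} (ha : PT a) : PT (fun c => wnot (a c)) := by
  unfold MP_bba6cc_lc.wnot
  exact PT.cons (PT.const _) (PT.cons (PT.const _) ha)

variable (tab : Tab)

theorem PT.wLater (nmd : Bool) {E : α → List EA} {M s s' : α → ℕ} (hE : PT E) (hM : PT M)
    (hs : PT s) (hs' : PT s') : PT (fun a => wLater tab (E a) (M a) (s a) (s' a) nmd) := by
  unfold MP_bba6cc_lc.wLater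
  apply PT.append _ (PT.const _)
  apply PT.flatMap hE
  have hx : PT (fun q : α × EA => q.2) := PT.snd PT.id'
  have h1 : PT (fun q : α × EA => MP_bba6cc_lc.vt (MP_bba6cc_lc.bZ (s' q.1) q.2.1)) :=
    PT.vt (PT.bZ (hs'.comp (PT.fst PT.id')) (PT.fst hx))
  have h2 : PT (fun q : α × EA => MP_bba6cc_lc.vt (MP_bba6cc_lc.bZ (s q.1) q.2.1)) :=
    PT.vt (PT.bZ (hs.comp (PT.fst PT.id')) (PT.fst hx))
  have h3 : PT (fun q : α × EA => MP_bba6cc_lc.wEx tab (M q.1) (s' q.1) nmd q.2) :=
    PT.wEx tab nmd (hM.comp (PT.fst PT.id')) (hs'.comp (PT.fst PT.id')) hx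
  exact PT.cons (PT.const _) (PT.cons (PT.const _) (PT.append (PT.wimp h1 h2) (PT.wimp h3 h2)))

theorem PT.wVisIn {K s k : α → ℕ} (hK : PT K) (hs : PT s) (hk : PT k) :
    PT (fun a => wVisIn (K a) (s a) (k a)) := by
  unfold MP_bba6cc_lc.wVisIn
  apply PT.append _ (PT.const _)
  apply PT.flatMap (PT.range (PT.succ hK))
  have h1 : PT (fun q : α × ℕ => MP_bba6cc_lc.vt (MP_bba6cc_lc.bI (k q.1) q.2)) :=
    PT.vt (PT.bI (hk.comp (PT.fst PT.id')) (PT.snd PT.id'))
  have h2 : PT (fun q : α × ℕ => MP_bba6cc_lc.vt (MP_bba6cc_lc.bI (s q.1) q.2)) :=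
    PT.vt (PT.bI (hs.comp (PT.fst PT.id')) (PT.snd PT.id'))
  exact PT.cons (PT.const _) (PT.wimp h1 h2)

theorem PT.wVis {E : α → List EA} {M K s : α → ℕ} (hE : PT E) (hM : PT M) (hK : PT K)
    (hs : PT s) : PT (fun a => wVis tab (E a) (M a) (K a) (s a)) := by
  unfold MP_bba6cc_lc.wVis
  apply PT.append _ (PT.const _)
  apply PT.flatMap (PT.range (PT.succ hK))
  have hs' : PT (fun q : α × ℕ => s q.1) := hs.comp (PT.fst PT.id')
  have h1 : PT (fun q : α × ℕ => MP_bba6cc_lc.vt (MP_bba6cc_lc.bI (s q.1) q.2)) :=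
    PT.vt (PT.bI hs' (PT.snd PT.id'))
  have h2 : PT (fun q : α × ℕ => MP_bba6cc_lc.wLater tab (E q.1) (M q.1) (s q.1) q.2 true) :=
    PT.wLater tab true (hE.comp (PT.fst PT.id')) (hM.comp (PT.fst PT.id')) hs' (PT.snd PT.id')
  have h3 : PT (fun q : α × ℕ => MP_bba6cc_lc.wVisIn (K q.1) (s q.1) q.2) :=
    PT.wVisIn (hK.comp (PT.fst PT.id')) hs' (PT.snd PT.id')
  exact PT.cons (PT.const _) (PT.wimp h1 (PT.cons (PT.const _) (PT.append h2 h3)))

theorem PT.prT {ts : α → List Tok} (h : PT ts) : PT (fun a => prT (ts a)) := by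
  unfold MP_bba6cc_lc.prT
  apply PT.map
  · apply PT.filter h
    exact PT.eq (PT.fst (PT.snd PT.id')) (PT.const _)
  · exact PT.snd (PT.snd PT.id')

theorem PT.bsv {ts : α → List Tok} {M K s : α → ℕ} (ht : PT ts) (hM : PT M) (hK : PT K)
    (hs : PT s) : PT (fun a => bsv (ts a) (M a) (K a) (s a)) := by
  unfold MP_bba6cc_lc.bsv
  have hs1 : PT (fun q : α × ℕ => s q.1) := hs.comp (PT.fst PT.id')
  have hj : PT (fun q : α × ℕ => q.2) := PT.snd PT.id'
  apply PT.append
  · apply PT.append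
    · apply PT.flatMap (PT.range hM)
      have h1 : PT (fun q : α × ℕ => MP_bba6cc_lc.bD (s q.1) q.2) := PT.bD hs1 hj
      apply PT.cons h1
      have h2 : PT (fun q : (α × ℕ) × BN => MP_bba6cc_lc.bV (s q.1.1) q.1.2 q.2) :=
        PT.bV (hs1.comp (PT.fst PT.id')) (hj.comp (PT.fst PT.id')) (PT.snd PT.id')
      exact PT.map (F := fun q : α × ℕ => MP_bba6cc_lc.bV (s q.1) q.2)
        (PT.prT (ht.comp (PT.fst PT.id'))) h2
    · exact PT.map (F := fun a => MP_bba6cc_lc.bZ (s a)) (PT.range (PT.length ht)) (PT.bZ hs1 hj)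
  · apply PT.cons (PT.bR hs)
    exact PT.map (F := fun a => MP_bba6cc_lc.bI (s a)) (PT.range (PT.succ hK)) (PT.bI hs1 hj)

theorem PT.wsel {E : α → List EA} {t : α → ℕ} {f : α → EA → List Tok} (hE : PT E) (ht : PT t)
    (hf : PT (fun q : α × EA => f q.1 q.2)) : PT (fun a => wsel (E a) (t a) (f a)) := by
  unfold MP_bba6cc_lc.wsel
  apply PT.append _ (PT.const _)
  apply PT.flatMap hE
  have h1 : PT (fun q : α × EA => MP_bba6cc_lc.bP (t q.1) q.2.1) :=
    PT.bP (ht.comp (PT.fst PT.id')) (PT.fst (PT.snd PT.id'))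
  exact PT.cons (PT.const _) (PT.cons (PT.const _) (PT.cons (PT.pair (PT.const _) h1) hf))

theorem PT.wNom {E : α → List EA} {M K t s : α → ℕ} (hE : PT E) (hM : PT M) (hK : PT K)
    (ht : PT t) (hs : PT s) : PT (fun a => wNom tab (E a) (M a) (K a) (t a) (s a)) := by
  unfold MP_bba6cc_lc.wNom
  apply PT.wnot
  apply PT.append _ (PT.const _)
  apply PT.flatMap (PT.range (PT.succ hK))
  have h1 : PT (fun q : α × ℕ => MP_bba6cc_lc.bI (s q.1) q.2) :=
    PT.bI (hs.comp (PT.fst PT.id')) (PT.snd PT.id')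
  have h2 : PT (fun q : (α × ℕ) × EA => MP_bba6cc_lc.wEx tab (M q.1.1) q.1.2 true q.2) :=
    PT.wEx tab true (hM.comp (PT.fst (PT.fst PT.id'))) (PT.snd (PT.fst PT.id')) (PT.snd PT.id')
  have h3 : PT (fun q : α × ℕ => MP_bba6cc_lc.wsel (E q.1) (t q.1)
      (fun x => MP_bba6cc_lc.wEx tab (M q.1) q.2 true x)) :=
    PT.wsel (f := fun q : α × ℕ => fun x => MP_bba6cc_lc.wEx tab (M q.1) q.2 true x)
      (hE.comp (PT.fst PT.id')) (ht.comp (PT.fst PT.id')) h2
  exact PT.cons (PT.const _) (PT.wnot (PT.cons (PT.const _)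
    (PT.cons (PT.pair (PT.const _) h1) h3)))

theorem PT.wfront {E : α → List EA} {ts : α → List Tok} {M K t s : α → ℕ} (hE : PT E)
    (hts : PT ts) (hM : PT M) (hK : PT K) (ht : PT t) (hs : PT s) :
    PT (fun a => wfront tab (E a) (ts a) (M a) (K a) (t a) (s a)) := by
  unfold MP_bba6cc_lc.wfront
  have hS : PT (fun a => K a + 1 + t a) := PT.add (PT.succ hK) ht
  have t1 : PT (fun q : α × EA => t q.1) := ht.comp (PT.fst PT.id')
  have x1 : PT (fun q : α × EA => q.2.1) := PT.fst (PT.snd PT.id')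
  have h1 : PT (fun a => (E a).map (fun x => MP_bba6cc_lc.bP (t a) x.1)) :=
    PT.map (F := fun a => fun x : EA => MP_bba6cc_lc.bP (t a) x.1) hE (PT.bP t1 x1)
  have h2 : PT (fun a => (E a).map (fun x => x.1)) := PT.map (F := fun _ x => x.1) hE x1
  have h3 : PT (fun a => MP_bba6cc_lc.wam1 ((E a).map (fun x => x.1)) (MP_bba6cc_lc.bP (t a))) :=
    PT.wam1 (f := fun a => MP_bba6cc_lc.bP (t a)) h2
      (PT.bP (ht.comp (PT.fst PT.id')) (PT.snd PT.id'))
  have h4 : PT (fun q : α × EA => MP_bba6cc_lc.bZ (s q.1) q.2.1) :=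
    PT.bZ (hs.comp (PT.fst PT.id')) x1
  have h5 : PT (fun a => MP_bba6cc_lc.wsel (E a) (t a)
      (fun x => [(⟨0⟩, MP_bba6cc_lc.bZ (s a) x.1)])) :=
    PT.wsel (f := fun a => fun x : EA => [(⟨0⟩, MP_bba6cc_lc.bZ (s a) x.1)]) hE ht
      (PT.cons (PT.pair (PT.const _) h4) (PT.const _))
  have h6 : PT (fun a => MP_bba6cc_lc.wsel (E a) (t a)
      (fun x => MP_bba6cc_lc.wEx tab (M a) (K a + 1 + t a) false x)) :=
    PT.wsel (f := fun a => fun x => MP_bba6cc_lc.wEx tab (M a) (K a + 1 + t a) false x) hE ht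
      (PT.wEx tab false (hM.comp (PT.fst PT.id')) (hS.comp (PT.fst PT.id')) (PT.snd PT.id'))
  have h7 := PT.wNom tab hE hM hK ht hs
  have h8 := PT.bsv hts hM hK hS
  have h9 := PT.wLater tab false hE hM hs hS
  have h10 := PT.wVisIn hK hs hS
  have h11 := PT.wVis tab hE hM hK hS
  apply PT.append (PT.const _)
  apply PT.append (PT.wexs h1)
  apply PT.cons (PT.const _)
  apply PT.append h3
  apply PT.cons (PT.const _)
  apply PT.append h5
  apply PT.cons (PT.const _)
  apply PT.append (PT.const _)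
  apply PT.append (PT.const _)
  apply PT.append h7
  apply PT.append (PT.const _)
  apply PT.append (PT.wexs h8)
  apply PT.cons (PT.const _)
  apply PT.append h9
  apply PT.cons (PT.const _)
  apply PT.append h10
  apply PT.cons (PT.const _)
  apply PT.append h11
  apply PT.cons (PT.const _)
  exact PT.append h6 (PT.const _)

theorem PT.wSurv {E : α → List EA} {ts : α → List Tok} {M K T s : α → ℕ} (hE : PT E)
    (hts : PT ts) (hM : PT M) (hK : PT K) (hT : PT T) (hs : PT s) :
    PT (fun a => wSurv tab (E a) (ts a) (M a) (K a) (T a) (s a)) := by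
  unfold MP_bba6cc_lc.wSurv
  apply PT.append
  · apply PT.flatMap (PT.range hT)
    have hi : PT (fun q : α × ℕ => q.2) := PT.snd PT.id'
    have hT1 : PT (fun q : α × ℕ => T q.1) := hT.comp (PT.fst PT.id')
    have hK1 : PT (fun q : α × ℕ => K q.1) := hK.comp (PT.fst PT.id')
    have h1 : PT (fun q : α × ℕ => T q.1 - 1 - q.2) := PT.sub (PT.sub hT1 (PT.const 1)) hi
    have h2 : PT (fun q : α × ℕ => if q.2 = 0 then s q.1 else K q.1 + 1 + (T q.1 - q.2)) :=
      PT.ite (PT.eq hi (PT.const 0)) (hs.comp (PT.fst PT.id'))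
        (PT.add (PT.succ hK1) (PT.sub hT1 hi))
    exact PT.wfront tab (hE.comp (PT.fst PT.id')) (hts.comp (PT.fst PT.id'))
      (hM.comp (PT.fst PT.id')) hK1 h1 h2
  · exact PT.map (PT.range (PT.succ (PT.mul (PT.const 2) hT))) (PT.const _)

theorem PT.wNames {ts : α → List Tok} {M K : α → ℕ} (hts : PT ts) (hM : PT M) (hK : PT K) :
    PT (fun a => wNames (ts a) (M a) (K a)) := by
  unfold MP_bba6cc_lc.wNames
  apply PT.append _ (PT.const _)
  apply PT.flatMap hts
  apply PT.cons (PT.const _)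
  have ht : PT (fun q : α × Tok => q.2) := PT.snd PT.id'
  have hI : PT (fun q : α × Tok => (List.range (K q.1 + 1)).product (List.range (M q.1))) :=
    PT.product (PT.range (PT.succ (hK.comp (PT.fst PT.id')))) (PT.range (hM.comp (PT.fst PT.id')))
  have hp1 : PT (fun q : (α × Tok) × (ℕ × ℕ) => q.2.1) := PT.fst (PT.snd PT.id')
  have hp2 : PT (fun q : (α × Tok) × (ℕ × ℕ) => q.2.2) := PT.snd (PT.snd PT.id')
  have ht2 : PT (fun q : (α × Tok) × (ℕ × ℕ) => q.1.2.2) := PT.snd (PT.snd (PT.fst PT.id'))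
  apply PT.ite (PT.eq (PT.fst ht) (PT.const _))
  · exact PT.wam1 (f := fun q : α × Tok => fun p : ℕ × ℕ => MP_bba6cc_lc.bN p.1 p.2 q.2.2) hI
      (PT.bN hp1 hp2 ht2)
  apply PT.ite (PT.eq (PT.fst ht) (PT.const _))
  · exact PT.wam1 (f := fun q : α × Tok => fun p : ℕ × ℕ => MP_bba6cc_lc.bF p.1 p.2 q.2.2) hI
      (PT.bF hp1 hp2 ht2)
  exact PT.const _

theorem PT.wStart {A : α → List Ann} {M : α → ℕ} (hA : PT A) (hM : PT M) :
    PT (fun a => wStart tab (A a) (M a)) := by
  unfold MP_bba6cc_lc.wStart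
  apply PT.cons (PT.const _)
  apply PT.append (PT.wOH hM (PT.const 0) (PT.const 0))
  apply PT.flatMap (F := fun a => MP_bba6cc_lc.wloc tab (M a) 0 true 0) hA
  exact PT.wloc tab true (hM.comp (PT.fst PT.id')) (PT.const 0) (PT.const 0) (PT.snd PT.id')

theorem PT.wTrans {A : α → List Ann} {E : α → List EA} {ts : α → List Tok} {M K T : α → ℕ}
    (hA : PT A) (hE : PT E) (hts : PT ts) (hM : PT M) (hK : PT K) (hT : PT T) :
    PT (fun a => wTrans tab (A a) (E a) (ts a) (M a) (K a) (T a)) := by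
  unfold MP_bba6cc_lc.wTrans
  apply PT.cons (PT.const _)
  apply PT.append
  · apply PT.append _ (PT.const _)
    apply PT.flatMap (PT.range (PT.succ hK))
    have hk : PT (fun q : α × ℕ => q.2) := PT.snd PT.id'
    have hE1 : PT (fun q : α × ℕ => E q.1) := hE.comp (PT.fst PT.id')
    have hM1 : PT (fun q : α × ℕ => M q.1) := hM.comp (PT.fst PT.id')
    have hK1 : PT (fun q : α × ℕ => K q.1) := hK.comp (PT.fst PT.id')
    have h1 := PT.wVis tab hE1 hM1 hK1 hk
    have h2 := PT.wSurv tab hE1 (hts.comp (PT.fst PT.id')) hM1 hK1 (hT.comp (PT.fst PT.id')) hk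
    have h3 : PT (fun q : α × ℕ => MP_bba6cc_lc.wnot [(⟨0⟩, MP_bba6cc_lc.bI q.2 q.2)]) :=
      PT.wnot (PT.cons (PT.pair (PT.const _) (PT.bI hk hk)) (PT.const _))
    exact PT.cons (PT.const _) (PT.cons (PT.const _) (PT.append h1 (PT.cons (PT.const _)
      (PT.append h3 h2))))
  · exact PT.cons (PT.const _) (PT.append (PT.wNames hts hM hK) (PT.wStart tab hA hM))

theorem PT.wEr {A : α → List Ann} {E : α → List EA} {ts : α → List Tok} {M : α → ℕ}
    (hA : PT A) (hE : PT E) (hts : PT ts) (hM : PT M) :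
    PT (fun a => wEr tab (A a) (E a) (ts a) (M a)) := by
  unfold MP_bba6cc_lc.wEr
  apply PT.cons (PT.const _)
  apply PT.append
  · apply PT.append _ (PT.const _)
    apply PT.flatMap hE
    have h1 : PT (fun q : α × EA => MP_bba6cc_lc.bZ 0 q.2.1) :=
      PT.bZ (PT.const 0) (PT.fst (PT.snd PT.id'))
    exact PT.cons (PT.const _) (PT.wnot (PT.cons (PT.pair (PT.const _) h1) (PT.const _)))
  · exact PT.cons (PT.const _) (PT.cons (PT.const _) (PT.cons (PT.const _)
      (PT.append (PT.wNames hts hM (PT.const 0)) (PT.wStart tab hA hM))))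

end

/-! ### the reduction -/

variable {B : List BFun}

/-- unique readability of quantified formulas -/
theorem QF.code_prefix (a : QF) : ∀ (b : QF) (r s : List (ℕ × ℕ)),
    a.code ++ r = b.code ++ s → a = b ∧ r = s := by
  induction a with
  | var n =>
    intro b r s h
    cases b <;> simp_all [QF.code]
  | one =>
    intro b r s h
    cases b <;> simp_all [QF.code]
  | and a1 a2 ih1 ih2 =>
    intro b r s h
    cases b with
    | and b1 b2 =>
      simp only [QF.code, List.cons_append, List.append_assoc, List.cons.injEq, true_and] at h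
      obtain ⟨e1, e2⟩ := ih1 _ _ _ h
      obtain ⟨e3, e4⟩ := ih2 _ _ _ e2
      exact ⟨by rw [e1, e3], e4⟩
    | _ => simp [QF.code] at h
  | xor a1 a2 ih1 ih2 =>
    intro b r s h
    cases b with
    | xor b1 b2 =>
      simp only [QF.code, List.cons_append, List.append_assoc, List.cons.injEq, true_and] at h
      obtain ⟨e1, e2⟩ := ih1 _ _ _ h
      obtain ⟨e3, e4⟩ := ih2 _ _ _ e2
      exact ⟨by rw [e1, e3], e4⟩
    | _ => simp [QF.code] at h
  | ex n a ih =>
    intro b r s h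
    cases b with
    | ex m b =>
      simp only [QF.code, List.cons_append, List.cons.injEq, Prod.mk.injEq, true_and] at h
      obtain ⟨h1, h2⟩ := h
      obtain ⟨e1, e2⟩ := ih _ _ _ h2
      exact ⟨by rw [e1, h1], e2⟩
    | _ => simp [QF.code] at h

theorem QF.code_injective : Function.Injective QF.code := by
  intro a b h
  exact (QF.code_prefix a b [] [] (by rw [h])).1

/-- the input is the word of a formula -/
def okS (tab : Tab) (s : List Bool) : Bool :=
  validS s && ((run tab (toksS s)).2.2.2 && (run tab (toksS s)).2.1.isEmpty)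

theorem PT_okS (tab : Tab) : PT (okS tab) := by
  unfold okS
  have hr := PT.run tab PT_toksS
  exact PT.and PT_validS (PT.and (PT.snd (PT.snd (PT.snd hr))) (PT.isEmpty (PT.fst (PT.snd hr))))

theorem okS_iff (s : List Bool) : okS (tabB B) s = true ↔ ∃ φ : Fm B, s = bitEncode (code φ) := by
  unfold okS
  rw [Bool.and_eq_true, Bool.and_eq_true, validS_iff, List.isEmpty_iff]
  constructor
  · rintro ⟨⟨m, rfl⟩, h⟩
    rw [toksS_bitEncode] at h
    obtain ⟨φ, rfl⟩ := (run_iff m).mp h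
    exact ⟨φ, rfl⟩
  · rintro ⟨φ, rfl⟩
    refine ⟨⟨_, rfl⟩, ?_⟩
    rw [toksS_bitEncode]
    exact (run_iff _).mpr ⟨φ, rfl⟩

/-- the reduction to `TQBF` given by a function on words -/
def red (tab : Tab) (w : List Tok → List Tok) (s : List Bool) : List Bool :=
  bif okS tab s then enc (w (toksS s)) else enc ([] : List Tok)

theorem isPolyTime_red (tab : Tab) {w : List Tok → List Tok} (hw : PT w) :
    IsPolyTime (red tab w) := by
  apply isPolyTime_of_PT
  unfold red
  exact PT.cond (PT_okS tab) (PT.encString (hw.comp PT_toksS)) (PT.const _)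

open Classical in
theorem red_spec (F : FrameClass) (w : List Tok → List Tok) (q : Fm B → QF)
    (h1 : ∀ φ : Fm B, w (tks (code φ)) = Wq (q φ))
    (h2 : ∀ φ : Fm B, SatIn F φ ↔ ∃ ρ, (q φ).eval ρ = true) (s : List Bool) :
    satProblem B F s = TQBF (red (tabB B) w s) := by
  unfold TQBF satProblem
  rw [Bool.eq_iff_iff, decide_eq_true_iff, decide_eq_true_iff]
  by_cases hs : okS (tabB B) s = true
  · obtain ⟨φ, rfl⟩ := (okS_iff s).mp hs
    have e : red (tabB B) w (bitEncode (code φ)) = bitEncode (q φ).code := by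
      unfold red
      rw [hs, cond_true, toksS_bitEncode]
      show (enc (w (tks (code φ))) : List Bool) = _
      rw [h1]
      exact enc_tks _
    rw [e]
    constructor
    · rintro ⟨ψ, hψ, hsat⟩
      have : φ = ψ := code_injective (bitEncode_inj hψ)
      subst this
      exact ⟨q φ, rfl, (h2 φ).mp hsat⟩
    · rintro ⟨a, ha, hρ⟩
      have : q φ = a := QF.code_injective (bitEncode_inj ha)
      subst this
      exact ⟨φ, rfl, (h2 φ).mpr hρ⟩
  · have e : red (tabB B) w s = enc ([] : List Tok) := by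
      unfold red
      rw [Bool.not_eq_true] at hs
      rw [hs]
      rfl
    rw [e]
    constructor
    · rintro ⟨φ, hφ, _⟩
      exact absurd ((okS_iff s).mpr ⟨φ, hφ⟩) hs
    · rintro ⟨a, ha, _⟩
      exfalso
      have h3 : (enc ([] : List Tok) : List Bool) = bitEncode ([] : List (ℕ × ℕ)) := enc_tks []
      rw [h3] at ha
      have h4 := bitEncode_inj ha
      cases a <;> simp [QF.code] at h4

theorem red_correct (F : FrameClass) {w : List Tok → List Tok} (hw : PT w) (q : Fm B → QF)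
    (h1 : ∀ φ : Fm B, w (tks (code φ)) = Wq (q φ))
    (h2 : ∀ φ : Fm B, SatIn F φ ↔ ∃ ρ, (q φ).eval ρ = true) :
    ManyOneReducible (satProblem B F) TQBF :=
  ⟨red (tabB B) w, isPolyTime_red _ hw, red_spec F w q h1 h2⟩

/-! ### the two functions on words -/

def wMsz (n : ℕ) : ℕ := 5 * ((n + 1) * (n + 1))

theorem wMsz_eq (n : ℕ) : wMsz n = msz n := by
  unfold wMsz msz
  ring

def wwEr (tab : Tab) (ts : List Tok) : List Tok :=
  wEr tab (annT tab ts) (ELT tab (annT tab ts)) ts (wMsz ts.length)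

def wwTrans (tab : Tab) (ts : List Tok) : List Tok :=
  wTrans tab (annT tab ts) (ELT tab (annT tab ts)) ts (wMsz ts.length) ts.length
    (2 * ts.length + 3)

theorem PT_wwEr (tab : Tab) : PT (wwEr tab) := by
  unfold wwEr
  have hA : PT (fun ts : List Tok => annT tab ts) := PT.annT tab PT.id'
  have hn : PT (fun ts : List Tok => ts.length) := PT.length PT.id'
  have hM : PT (fun ts : List Tok => wMsz ts.length) :=
    PT.mul (PT.const 5) (PT.mul (PT.succ hn) (PT.succ hn))
  exact PT.wEr tab hA (PT.ELT tab hA) PT.id' hM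

theorem PT_wwTrans (tab : Tab) : PT (wwTrans tab) := by
  unfold wwTrans
  have hA : PT (fun ts : List Tok => annT tab ts) := PT.annT tab PT.id'
  have hn : PT (fun ts : List Tok => ts.length) := PT.length PT.id'
  have hM : PT (fun ts : List Tok => wMsz ts.length) :=
    PT.mul (PT.const 5) (PT.mul (PT.succ hn) (PT.succ hn))
  have hT : PT (fun ts : List Tok => 2 * ts.length + 3) :=
    PT.add (PT.mul (PT.const 2) hn) (PT.const 3)
  exact PT.wTrans tab hA (PT.ELT tab hA) PT.id' hM hn hT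

theorem length_tks (φ : Fm B) : (tks (code φ)).length = flen φ := by simp [tks, flen]

theorem wwEr_spec (φ : Fm B) :
    wwEr (tabB B) (tks (code φ)) = Wq (qEr φ (msz (flen φ))) := by
  unfold wwEr
  rw [ELT_code, annT_code, length_tks, wMsz_eq, Wq_Er]

theorem wwTrans_spec (φ : Fm B) : wwTrans (tabB B) (tks (code φ)) =
    Wq (qTrans φ (msz (flen φ)) (flen φ) (2 * flen φ + 3)) := by
  unfold wwTrans
  rw [ELT_code, annT_code, length_tks, wMsz_eq, Wq_Trans]

theorem upper_er (h : ∀ φ : Fm B, SatIn .er φ ↔ ∃ ρ, (qEr φ (msz (flen φ))).eval ρ = true) :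
    ManyOneReducible (satProblem B .er) TQBF :=
  red_correct .er (PT_wwEr _) _ wwEr_spec h

theorem upper_trans (h : ∀ φ : Fm B, SatIn .trans φ ↔
    ∃ ρ, (qTrans φ (msz (flen φ)) (flen φ) (2 * flen φ + 3)).eval ρ = true) :
    ManyOneReducible (satProblem B .trans) TQBF :=
  red_correct .trans (PT_wwTrans _) _ wwTrans_spec h

end Pool.Agent.Lib.MP_bba6cc_lc
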