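import Pool.Agent.Lib.MP_bba6cc_lc.UAnn

/-!
# The annotated word is computed by the stack machine
-/

namespace Pool.Agent.Lib.MP_bba6cc_lc

open Pool.Agent Pool.Agent.MSR Pool.Agent.MSR.En N487b59b3 N68a2faeb N793a5b8e

variable {B : List BFun}

/-! ### the coefficients -/

/-- coefficients of the arguments -/
def newP (tab : Tab) (t : Tok) : List ℕ :=
  if t.1 = ⟨3⟩ then MSR.lcase (entry tab t.2) []
    (fun e _ => e.2.2.map (fun c => if c = true then 2 else 1))
  else if t.1 = ⟨4⟩ then [0]
  else if t.1 = ⟨5⟩ then [0]
  else if t.1 = ⟨6⟩ then [0]
  else []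

def pstep (tab : Tab) (ps : List ℕ) (t : Tok) : List ℕ :=
  MSR.lcase ps [] (fun _ r => newP tab t ++ r)

theorem pstep_cons (tab : Tab) (p : ℕ) (ps : List ℕ) (t : Tok) :
    pstep tab (p :: ps) t = newP tab t ++ ps := rfl

def fr0 : Frame := (0, true, 0, [])

/-- annotation of one symbol -/
def ann1 (st : St) (ps : List ℕ) (t : Tok) : Ann :=
  (st.1, ps.headD 0, (st.2.1.headD fr0).2.2.1, (st.2.1.headD fr0).2.2.2, t)

def scan (tab : Tab) : St → List ℕ → List Tok → List Ann
  | _, _, [] => []
  | st, ps, t :: s => ann1 st ps t :: scan tab (step tab st t) (pstep tab ps t) s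

theorem scan_append (tab : Tab) (s r : List Tok) : ∀ st ps,
    scan tab st ps (s ++ r) = scan tab st ps s ++
      scan tab (s.foldl (step tab) st) (s.foldl (pstep tab) ps) r := by
  induction s with
  | nil => intro st ps; rfl
  | cons t s ih => intro st ps; simp [scan, ih]

/-- the annotated word -/
def annT (tab : Tab) (s : List Tok) : List Ann :=
  (List.range s.length).map (fun k => ann1 (run tab (s.take k)) ((s.take k).foldl (pstep tab) [0])
    (s.getD k (⟨0⟩, ⟨0⟩)))

theorem annT_eq (tab : Tab) (s : List Tok) :
    annT tab s = scan tab (0, [(0, true, 0, [])], [], true) [0] s := by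
  have key : ∀ (s : List Tok) (st : St) (ps : List ℕ), (List.range s.length).map (fun k =>
      ann1 ((s.take k).foldl (step tab) st) ((s.take k).foldl (pstep tab) ps)
        (s.getD k (⟨0⟩, ⟨0⟩))) = scan tab st ps s := by
    intro s
    induction s with
    | nil => intro st ps; rfl
    | cons t s ih =>
      intro st ps
      rw [List.length_cons, List.range_succ_eq_map, List.map_cons, List.map_map]
      simp only [scan]
      congr 1
      rw [← ih]
      apply List.map_congr_left
      intro k _
      simp [Function.comp]
  exact key s _ _

theorem newP_app (i : Fin B.length) : newP (tabB B) (tk (3, i.val)) =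
    (List.finRange _).map (fun j => if cB (B.get i) j = true then 2 else 1) := by
  simp only [newP, tk, if_true, entry_val, MSR.lcase, List.ofFn_eq_map, List.map_map]
  rfl

theorem pfold_code (φ : Fm B) : ∀ (p : ℕ) (ps : List ℕ),
    (tks (code φ)).foldl (pstep (tabB B)) (p :: ps) = ps := by
  induction φ with
  | prp p => intro _ _; rfl
  | nom i => intro _ _; rfl
  | var x => intro _ _; rfl
  | app i args ih =>
    intro p ps
    have h1 : ∀ js : List (Fin (B.get i).ar), (tks (js.flatMap (fun j => code (args j)))).foldl
        (pstep (tabB B)) (js.map (fun j => if cB (B.get i) j = true then 2 else 1) ++ ps) = ps := by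
      intro js
      induction js with
      | nil => rfl
      | cons j js ihj =>
        rw [List.flatMap_cons, tks_append, List.foldl_append, List.map_cons, List.cons_append,
          ih, ihj]
    have e1 : tks (code (.app i args)) = tk (3, i.val) ::
        tks ((List.finRange _).flatMap (fun j => code (args j))) := rfl
    rw [e1, List.foldl_cons, pstep_cons, newP_app, h1]
  | dia φ ih =>
    intro p ps
    have e1 : tks (code (.dia φ)) = tk (4, 0) :: tks (code φ) := rfl
    have e2 : newP (tabB B) (tk (4, 0)) = [0] := by simp [newP, tk]
    rw [e1, List.foldl_cons, pstep_cons, e2, List.singleton_append, ih]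
  | box φ ih =>
    intro p ps
    have e1 : tks (code (.box φ)) = tk (5, 0) :: tks (code φ) := rfl
    have e2 : newP (tabB B) (tk (5, 0)) = [0] := by simp [newP, tk]
    rw [e1, List.foldl_cons, pstep_cons, e2, List.singleton_append, ih]
  | down x φ ih =>
    intro p ps
    have e1 : tks (code (.down x φ)) = tk (6, x) :: tks (code φ) := rfl
    have e2 : newP (tabB B) (tk (6, x)) = [0] := by simp [newP, tk]
    rw [e1, List.foldl_cons, pstep_cons, e2, List.singleton_append, ih]

theorem offs_split {n : ℕ} (args : Fin n → Fm B) (js1 : List (Fin n)) (j : Fin n)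
    (js2 : List (Fin n)) (h : List.finRange n = js1 ++ j :: js2) :
    offs args j = (js1.map (fun k => (code (args k)).length)).sum := by
  have h1 : offs args j = ((List.finRange n).map
      (fun k => if k < j then (code (args k)).length else 0)).sum := by
    unfold offs
    rw [← List.sum_ofFn, List.ofFn_eq_map]
  have hs := List.pairwise_lt_finRange n
  rw [h, List.pairwise_append] at hs
  obtain ⟨_, hs2, hs3⟩ := hs
  rw [h1, h, List.map_append, List.sum_append, List.map_cons, List.sum_cons]
  have e1 : js1.map (fun k => if k < j then (code (args k)).length else 0) =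
      js1.map (fun k => (code (args k)).length) := by
    apply List.map_congr_left
    intro k hk
    rw [if_pos (hs3 k hk j List.mem_cons_self)]
  have e2 : (js2.map (fun k => if k < j then (code (args k)).length else 0)).sum = 0 := by
    apply List.sum_eq_zero
    intro x hx
    rw [List.mem_map] at hx
    obtain ⟨k, hk, rfl⟩ := hx
    rw [if_neg]
    exact not_lt.mpr (le_of_lt ((List.pairwise_cons.mp hs2).1 k hk))
  rw [e1, e2, if_neg (lt_irrefl j)]
  omega

theorem scan_code (φ : Fm B) : ∀ (par : ℕ) (c : Bool) (lev : ℕ) (env : List (BN × ℕ)) (pos : ℕ)
    (stk : List Frame) (out : Out) (o : Bool) (pre : ℕ) (ps : List ℕ),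
    scan (tabB B) (pos, (par, c, lev, env) :: stk, out, o) (pre :: ps) (tks (code φ)) =
      annot φ pre lev env pos := by
  induction φ with
  | prp p => intros; rfl
  | nom i => intros; rfl
  | var x => intros; rfl
  | app i args ih =>
    intro par c lev env pos stk out o pre ps
    have e1 : tks (code (.app i args)) = tk (3, i.val) ::
        tks ((List.finRange _).flatMap (fun j => code (args j))) := rfl
    rw [e1]
    simp only [scan, annot]
    congr 1
    rw [step_cons, pstep_cons, newP_app]
    have e2 : newF (tabB B) pos (par, c, lev, env) (tk (3, i.val)) =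
        (List.finRange _).map (fun j => ((par, c && cB (B.get i) j, lev, env) : Frame)) := by
      simp only [newF, tk, if_true, entry_val, MSR.lcase, List.ofFn_eq_map, List.map_map]
      rfl
    rw [e2]
    generalize out ++ newO (tabB B) pos (par, c, lev, env) (tk (3, i.val)) = out1
    generalize (o && good (tabB B) (tk (3, i.val))) = o1
    have key : ∀ (js1 js2 : List (Fin (B.get i).ar)) (out : Out), List.finRange _ = js1 ++ js2 →
        scan (tabB B) (pos + 1 + (js1.map (fun k => (code (args k)).length)).sum,
          js2.map (fun j => ((par, c && cB (B.get i) j, lev, env) : Frame)) ++ stk, out, o1)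
          (js2.map (fun j => if cB (B.get i) j = true then 2 else 1) ++ ps)
          (tks (js2.flatMap (fun j => code (args j)))) =
        js2.flatMap (fun j => annot (args j) (if cB (B.get i) j = true then 2 else 1)
          lev env (pos + 1 + offs args j)) := by
      intro js1 js2
      induction js2 generalizing js1 with
      | nil => intro out _; rfl
      | cons j js2 ihj =>
        intro out hj
        rw [List.flatMap_cons, tks_append, scan_append, List.flatMap_cons, List.map_cons,
          List.map_cons, List.cons_append, List.cons_append, ih j,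
          offs_split args js1 j js2 hj]
        congr 1
        have h1 := run_code (args j) par (c && cB (B.get i) j) lev env
          (pos + 1 + (js1.map (fun k => (code (args k)).length)).sum)
          (js2.map (fun j => ((par, c && cB (B.get i) j, lev, env) : Frame)) ++ stk) out o1
        have h1' : (tks (code (args j))).foldl (step (tabB B)) (pos + 1 + (js1.map (fun k =>
            (code (args k)).length)).sum, (par, c && cB (B.get i) j, lev, env) ::
            (js2.map (fun j => ((par, c && cB (B.get i) j, lev, env) : Frame)) ++ stk), out, o1) =
            _ := h1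
        rw [h1', pfold_code]
        have h2 := ihj (js1 ++ [j]) (out ++ comp (args j) par (c && cB (B.get i) j) lev (unB env)
          (pos + 1 + (js1.map (fun k => (code (args k)).length)).sum)) (by rw [hj]; simp)
        rw [← h2]
        have e4 : pos + 1 + (js1.map (fun k => (code (args k)).length)).sum +
            (code (args j)).length =
            pos + 1 + ((js1 ++ [j]).map (fun k => (code (args k)).length)).sum := by
          rw [List.map_append, List.sum_append]
          simp [Nat.add_assoc]
        rw [e4]
    have := key [] (List.finRange _) out1 rfl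
    simpa using this
  | dia φ ih =>
    intro par c lev env pos stk out o pre ps
    have e1 : tks (code (.dia φ)) = tk (4, 0) :: tks (code φ) := rfl
    have e2 : newP (tabB B) (tk (4, 0)) = [0] := by simp [newP, tk]
    have e3 : newF (tabB B) pos (par, c, lev, env) (tk (4, 0)) = [(pos + 1, true, lev + 1, env)] := by
      simp [newF, tk]
    rw [e1]
    simp only [scan, annot]
    congr 1
    rw [step_cons, pstep_cons, e2, e3, List.singleton_append, List.singleton_append, ih]
  | box φ ih =>
    intro par c lev env pos stk out o pre ps
    have e1 : tks (code (.box φ)) = tk (5, 0) :: tks (code φ) := rfl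
    have e2 : newP (tabB B) (tk (5, 0)) = [0] := by simp [newP, tk]
    have e3 : newF (tabB B) pos (par, c, lev, env) (tk (5, 0)) = [(pos + 1, true, lev + 1, env)] := by
      simp [newF, tk]
    rw [e1]
    simp only [scan, annot]
    congr 1
    rw [step_cons, pstep_cons, e2, e3, List.singleton_append, List.singleton_append, ih]
  | down x φ ih =>
    intro par c lev env pos stk out o pre ps
    have e1 : tks (code (.down x φ)) = tk (6, x) :: tks (code φ) := rfl
    have e2 : newP (tabB B) (tk (6, x)) = [0] := by simp [newP, tk]
    have e3 : newF (tabB B) pos (par, c, lev, env) (tk (6, x)) =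
        [(par, c, lev, (⟨x⟩, lev) :: env)] := by
      simp [newF, tk]
    rw [e1]
    simp only [scan, annot]
    congr 1
    rw [step_cons, pstep_cons, e2, e3, List.singleton_append, List.singleton_append, ih]

theorem annT_code (φ : Fm B) : annT (tabB B) (tks (code φ)) = annot φ 0 0 [] 0 := by
  rw [annT_eq, scan_code]

/-! ### the length of the first formula -/

def bstp (tab : Tab) (c : ℕ × ℕ) (t : Tok) : ℕ × ℕ :=
  if c.1 = 0 then c else (c.1 - 1 + (newP tab t).length, c.2 + 1)

def blen (tab : Tab) (s : List Tok) : ℕ := (s.foldl (bstp tab) (1, 0)).2

theorem bfold_code (φ : Fm B) : ∀ m c : ℕ,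
    (tks (code φ)).foldl (bstp (tabB B)) (m + 1, c) = (m, c + (code φ).length) := by
  induction φ with
  | prp p => intro _ _; rfl
  | nom i => intro _ _; rfl
  | var x => intro _ _; rfl
  | app i args ih =>
    intro m c
    have h1 : ∀ (js : List (Fin (B.get i).ar)) (c : ℕ),
        (tks (js.flatMap (fun j => code (args j)))).foldl (bstp (tabB B)) (m + js.length, c) =
          (m, c + (js.flatMap (fun j => code (args j))).length) := by
      intro js
      induction js with
      | nil => intro c; rfl
      | cons j js ihj =>
        intro c
        rw [List.flatMap_cons, tks_append, List.foldl_append, List.length_cons, ← Nat.add_assoc,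
          ih, ihj, List.length_append, Nat.add_assoc]
    have e1 : tks (code (.app i args)) = tk (3, i.val) ::
        tks ((List.finRange _).flatMap (fun j => code (args j))) := rfl
    have e2 : bstp (tabB B) (m + 1, c) (tk (3, i.val)) =
        (m + (List.finRange (B.get i).ar).length, c + 1) := by
      simp only [bstp, newP_app, List.length_map]
      simp
    rw [e1, List.foldl_cons, e2, h1]
    simp only [code, List.length_cons, Prod.mk.injEq, true_and]
    omega
  | dia φ ih =>
    intro m c
    have e1 : tks (code (.dia φ)) = tk (4, 0) :: tks (code φ) := rfl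
    have e2 : bstp (tabB B) (m + 1, c) (tk (4, 0)) = (m + 1, c + 1) := by simp [bstp, newP, tk]
    rw [e1, List.foldl_cons, e2, ih]
    simp only [code, List.length_cons, Prod.mk.injEq, true_and]
    omega
  | box φ ih =>
    intro m c
    have e1 : tks (code (.box φ)) = tk (5, 0) :: tks (code φ) := rfl
    have e2 : bstp (tabB B) (m + 1, c) (tk (5, 0)) = (m + 1, c + 1) := by simp [bstp, newP, tk]
    rw [e1, List.foldl_cons, e2, ih]
    simp only [code, List.length_cons, Prod.mk.injEq, true_and]
    omega
  | down x φ ih =>
    intro m c
    have e1 : tks (code (.down x φ)) = tk (6, x) :: tks (code φ) := rfl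
    have e2 : bstp (tabB B) (m + 1, c) (tk (6, x)) = (m + 1, c + 1) := by simp [bstp, newP, tk]
    rw [e1, List.foldl_cons, e2, ih]
    simp only [code, List.length_cons, Prod.mk.injEq, true_and]
    omega

theorem bfold_zero (tab : Tab) (s : List Tok) (c : ℕ) : s.foldl (bstp tab) (0, c) = (0, c) := by
  induction s with
  | nil => rfl
  | cons t s ih => rw [List.foldl_cons]; exact ih

theorem blen_code (φ : Fm B) (r : List Tok) :
    blen (tabB B) (tks (code φ) ++ r) = (code φ).length := by
  unfold blen
  rw [List.foldl_append, bfold_code φ 0 0, bfold_zero]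
  simp

theorem annot_toks (φ : Fm B) : ∀ (pre lev : ℕ) (env : List (BN × ℕ)) (pos : ℕ),
    (annot φ pre lev env pos).map (fun a => a.2.2.2.2) = tks (code φ) := by
  induction φ with
  | prp p => intros; rfl
  | nom i => intros; rfl
  | var x => intros; rfl
  | app i args ih =>
    intro pre lev env pos
    have e1 : tks (code (.app i args)) = tk (3, i.val) ::
        tks ((List.finRange _).flatMap (fun j => code (args j))) := rfl
    rw [e1]
    simp only [annot, List.map_cons]
    congr 1
    unfold tks
    rw [List.map_flatMap, List.map_flatMap]
    apply List.flatMap_congr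
    intro j _
    exact ih j _ _ _ _
  | dia φ ih =>
    intro pre lev env pos
    simp only [annot, List.map_cons, ih]
    rfl
  | box φ ih =>
    intro pre lev env pos
    simp only [annot, List.map_cons, ih]
    rfl
  | down x φ ih =>
    intro pre lev env pos
    simp only [annot, List.map_cons, ih]
    rfl

theorem annot_length (φ : Fm B) (pre lev : ℕ) (env : List (BN × ℕ)) (pos : ℕ) :
    (annot φ pre lev env pos).length = (code φ).length := by
  have := congrArg List.length (annot_toks φ pre lev env pos)
  rw [List.length_map] at this
  rw [this]
  simp [tks]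

/-! ### the list of the occurrences -/

abbrev EA := ℕ × Bool × List Ann

def body1 (tab : Tab) (r : List Ann) : List Ann := r.take (blen tab (r.map (fun a => a.2.2.2.2)))

def eown (tab : Tab) (a : Ann) (r : List Ann) : List EA :=
  if a.2.2.2.2.1 = ⟨4⟩ then [(a.1, false, body1 tab r)]
  else if a.2.2.2.2.1 = ⟨5⟩ then [(a.1, true, body1 tab r)]
  else []

def EL (tab : Tab) : List Ann → List EA
  | [] => []
  | a :: r => eown tab a r ++ EL tab r

/-- computed version -/
def ELT (tab : Tab) (A : List Ann) : List EA :=
  (List.range A.length).flatMap (fun k => MSR.lcase (A.drop k) [] (fun a r => eown tab a r))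

theorem ELT_eq (tab : Tab) (A : List Ann) : ELT tab A = EL tab A := by
  unfold ELT
  induction A with
  | nil => rfl
  | cons a A ih =>
    rw [List.length_cons, List.range_succ_eq_map, List.flatMap_cons, List.flatMap_map]
    simp only [List.drop_zero, List.drop_succ_cons, MSR.lcase, EL]
    congr 1

/-- the list of the occurrences of a formula -/
def eaOf (φ : Fm B) (lev : ℕ) (env : List (BN × ℕ)) (pos : ℕ) : List EA :=
  (eAnn φ lev env pos).map (fun x => (x.1.pos, x.1.neg, x.2))

theorem body1_annot (φ : Fm B) (pre lev : ℕ) (env : List (BN × ℕ)) (pos : ℕ) (r : List Ann) :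
    body1 (tabB B) (annot φ pre lev env pos ++ r) = annot φ pre lev env pos := by
  unfold body1
  rw [List.map_append, annot_toks, blen_code, ← annot_length φ pre lev env pos,
    List.take_left']
  rfl

theorem EL_annot (φ : Fm B) : ∀ (pre lev : ℕ) (env : List (BN × ℕ)) (pos : ℕ) (r : List Ann),
    EL (tabB B) (annot φ pre lev env pos ++ r) = eaOf φ lev env pos ++ EL (tabB B) r := by
  induction φ with
  | prp p => intros; rfl
  | nom i => intros; rfl
  | var x => intros; rfl
  | app i args ih =>
    intro pre lev env pos r
    have h1 : ∀ js : List (Fin (B.get i).ar),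
        EL (tabB B) (js.flatMap (fun j => annot (args j) (if cB (B.get i) j = true then 2 else 1)
          lev env (pos + 1 + offs args j)) ++ r) =
        (js.flatMap fun j => eAnn (args j) lev env (pos + 1 + offs args j)).map
          (fun x => (x.1.pos, x.1.neg, x.2)) ++ EL (tabB B) r := by
      intro js
      induction js with
      | nil => rfl
      | cons j js ihj =>
        rw [List.flatMap_cons, List.append_assoc, ih j, ihj, List.flatMap_cons, List.map_append,
          List.append_assoc]
        rfl
    simp only [annot, List.cons_append, EL]
    have e2 : ∀ r', eown (tabB B) (pos, pre, lev, env, tk (3, i.val)) r' = [] := by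
      intro r'
      simp [eown, tk]
    rw [e2, List.nil_append, h1]
    rfl
  | dia φ ih =>
    intro pre lev env pos r
    simp only [annot, List.cons_append, EL]
    have e2 : eown (tabB B) (pos, pre, lev, env, tk (4, 0))
        (annot φ 0 (lev + 1) env (pos + 1) ++ r) =
        [(pos, false, annot φ 0 (lev + 1) env (pos + 1))] := by
      simp [eown, tk, body1_annot]
    rw [e2, ih]
    rfl
  | box φ ih =>
    intro pre lev env pos r
    simp only [annot, List.cons_append, EL]
    have e2 : eown (tabB B) (pos, pre, lev, env, tk (5, 0))
        (annot φ 0 (lev + 1) env (pos + 1) ++ r) =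
        [(pos, true, annot φ 0 (lev + 1) env (pos + 1))] := by
      simp [eown, tk, body1_annot]
    rw [e2, ih]
    rfl
  | down x φ ih =>
    intro pre lev env pos r
    simp only [annot, List.cons_append, EL]
    have e2 : ∀ r', eown (tabB B) (pos, pre, lev, env, tk (6, x)) r' = [] := by
      intro r'
      simp [eown, tk]
    rw [e2, List.nil_append, ih]
    rfl

/-- the occurrences are computed -/
theorem ELT_code (φ : Fm B) :
    ELT (tabB B) (annT (tabB B) (tks (code φ))) = eaOf φ 0 [] 0 := by
  rw [ELT_eq, annT_code]
  have := EL_annot φ 0 0 [] 0 []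
  rw [List.append_nil] at this
  rw [this]
  simp [EL]

end Pool.Agent.Lib.MP_bba6cc_lc
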