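import Pool.Agent.Lib.MP_bba6cc_lc.QDefs
import Pool.Agent.Lib.MP_bba6cc_lc.HardPT

/-!
# Words of the quantified Boolean formulas
-/

namespace Pool.Agent.Lib.MP_bba6cc_lc

open Pool.Agent Pool.Agent.MSR Pool.Agent.MSR.En N487b59b3 N68a2faeb N793a5b8e

variable {B : List BFun}

/-! ### words of the connectives -/

/-- the word of a quantified formula -/
def Wq (q : QF) : List Tok := tks q.code

abbrev tO : Tok := (⟨1⟩, ⟨0⟩)
abbrev tA : Tok := (⟨2⟩, ⟨0⟩)
abbrev tX : Tok := (⟨3⟩, ⟨0⟩)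

theorem Wq_one : Wq .one = [tO] := rfl
theorem Wq_var (n : ℕ) : Wq (.var n) = [(⟨0⟩, ⟨n⟩)] := rfl
theorem Wq_ex (n : ℕ) (a : QF) : Wq (.ex n a) = (⟨4⟩, ⟨n⟩) :: Wq a := rfl
theorem Wq_and (a b : QF) : Wq (.and a b) = tA :: (Wq a ++ Wq b) := by
  simp [Wq, tks, QF.code, tk]
theorem Wq_xor (a b : QF) : Wq (.xor a b) = tX :: (Wq a ++ Wq b) := by
  simp [Wq, tks, QF.code, tk]

abbrev Wz : List Tok := [tX, tO, tO]

theorem Wq_z : Wq qz = Wz := rfl

theorem Wq_not (a : QF) : Wq (qnot a) = tX :: tO :: Wq a := by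
  unfold qnot
  rw [Wq_xor, Wq_one]
  rfl

theorem Wq_or (a b : QF) :
    Wq (qor a b) = [tX, tO, tA, tX, tO] ++ (Wq a ++ ([tX, tO] ++ Wq b)) := by
  unfold qor
  rw [Wq_not, Wq_and, Wq_not, Wq_not]
  rfl

theorem Wq_imp (a b : QF) : Wq (qimp a b) = [tX, tO, tA] ++ (Wq a ++ ([tX, tO] ++ Wq b)) := by
  unfold qimp
  rw [Wq_not, Wq_and, Wq_not]
  rfl

theorem Wq_ands (L : List QF) : Wq (qands L) = L.flatMap (fun q => tA :: Wq q) ++ [tO] := by
  induction L with
  | nil => rfl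
  | cons q L ih =>
    show Wq (.and q (qands L)) = _
    rw [Wq_and, ih]
    simp

theorem Wq_xors (L : List QF) : Wq (qxors L) = L.flatMap (fun q => tX :: Wq q) ++ Wz := by
  induction L with
  | nil => rfl
  | cons q L ih =>
    show Wq (.xor q (qxors L)) = _
    rw [Wq_xor, ih]
    simp

theorem Wq_exs (L : List ℕ) (q : QF) :
    Wq (qexs L q) = L.map (fun n => ((⟨4⟩, ⟨n⟩) : Tok)) ++ Wq q := by
  induction L with
  | nil => rfl
  | cons n L ih =>
    show Wq (.ex n (qexs L q)) = _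
    rw [Wq_ex, ih]
    rfl

/-! ### numbers of variables -/

/-- numbers of variables, binary name -/
def vb (k a b : ℕ) (x : BN) : BN := ⟨vnum k a b x.val⟩

theorem enc_shift (e : ℕ) (x : BN) : (enc (⟨2 ^ e * (2 * x.val + 1)⟩ : BN) : List Bool) =
    (List.range e).map (fun _ => false) ++ (true :: enc x) := by
  induction e with
  | zero =>
    have : (⟨2 ^ 0 * (2 * x.val + 1)⟩ : BN) = od x := by simp [od]
    rw [this, enc_od]
    rfl
  | succ e ih =>
    have h1 : 2 ^ (e + 1) * (2 * x.val + 1) = 2 * (2 ^ e * (2 * x.val + 1)) := by ring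
    have h2 : 2 ^ e * (2 * x.val + 1) ≠ 0 := by positivity
    have h3 : (enc (⟨2 ^ (e + 1) * (2 * x.val + 1)⟩ : BN) : List Bool) =
        false :: enc (⟨2 ^ e * (2 * x.val + 1)⟩ : BN) := by
      show Computability.encodeNat _ = false :: Computability.encodeNat _
      rw [h1, encodeNat_even h2]
    rw [h3, ih, List.range_succ_eq_map]
    simp

section

variable {α β : Type} [En α] [En β]

theorem PT.vb {k a b : α → ℕ} {x : α → BN} (hk : PT k) (ha : PT a) (hb : PT b) (hx : PT x) :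
    PT (fun c => vb (k c) (a c) (b c) (x c)) := by
  have he : PT (fun c => 9 * Nat.pair (a c) (b c) + k c) :=
    PT.add (PT.mul (PT.const 9) (PT.natPair ha hb)) hk
  have h1 : PT (fun c => (List.range (9 * Nat.pair (a c) (b c) + k c)).map (fun _ => false) ++
      (true :: (enc (x c) : List Bool))) :=
    PT.append (PT.map (PT.range he) (PT.const _)) (PT.cons (PT.const _) (PT.encString hx))
  refine CT.congr (PT.toRaw h1) (fun _ => rfl) (fun c => ?_)
  exact enc_shift _ _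

end

/-! ### words of the basic formulas -/

def wdot (M : ℕ) (f g : ℕ → BN) : List Tok :=
  (List.range M).flatMap (fun j => [tX, tA, (⟨0⟩, f j), (⟨0⟩, g j)]) ++ Wz

theorem Wq_dot (M : ℕ) (f g : ℕ → ℕ) :
    Wq (qdot M f g) = wdot M (fun j => ⟨f j⟩) (fun j => ⟨g j⟩) := by
  unfold qdot wdot
  rw [Wq_xors, List.flatMap_map]
  rfl

def wam1 {ι : Type} [DecidableEq ι] (I : List ι) (f : ι → BN) : List Tok :=
  ((I.product I).filter fun p => decide (p.1 ≠ p.2)).flatMap
    (fun p => [tA, tX, tO, tA, (⟨0⟩, f p.1), (⟨0⟩, f p.2)]) ++ [tO]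

theorem Wq_am1 {ι : Type} [DecidableEq ι] (I : List ι) (f : ι → ℕ) :
    Wq (qam1 I f) = wam1 I (fun j => ⟨f j⟩) := by
  unfold qam1 wam1
  rw [Wq_ands, List.flatMap_map]
  rfl

def bV (s j : ℕ) (p : BN) : BN := vb 0 s j p
def bN (s j : ℕ) (i : BN) : BN := vb 1 s j i
def bF (s j : ℕ) (x : BN) : BN := vb 2 s j x
def bZ (s pos : ℕ) : BN := vb 3 s pos ⟨0⟩
def bD (s j : ℕ) : BN := vb 4 s j ⟨0⟩
def bR (s : ℕ) : BN := vb 5 s 0 ⟨0⟩
def bI (s k : ℕ) : BN := vb 6 s k ⟨0⟩
def bC (l j : ℕ) : BN := vb 7 l j ⟨0⟩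
def bP (t pos : ℕ) : BN := vb 8 t pos ⟨0⟩

def wOH (M s l : ℕ) : List Tok := tA :: (wdot M (bC l) (bD s) ++ wam1 (List.range M) (bC l))

theorem Wq_OH (M s l : ℕ) : Wq (qOH M s l) = wOH M s l := by
  unfold qOH wOH
  rw [Wq_and, Wq_dot, Wq_am1]
  rfl

def wc (b : Bool) : List Tok := bif b then [tO] else Wz

theorem Wq_c (b : Bool) : Wq (qc b) = wc b := by cases b <;> rfl

def wexs (L : List BN) : List Tok := L.map (fun n => ((⟨4⟩, n) : Tok))

theorem Wq_exs' (L : List ℕ) (q : QF) : Wq (qexs L q) = wexs (L.map BN.mk) ++ Wq q := by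
  rw [Wq_exs]
  unfold wexs
  rw [List.map_map]
  rfl

theorem Wq_aff {n : ℕ} (c0 : Bool) (c : Fin n → Bool) (f : Fin n → QF) :
    Wq (qaff c0 c f) = List.replicate n tX ++ (wc c0 ++
      (List.finRange n).flatMap (fun j => tA :: (wc (c j) ++ Wq (f j)))) := by
  have key : ∀ (L : List (Fin n)) (q : QF),
      Wq (L.foldl (fun q j => .xor q (.and (qc (c j)) (f j))) q) =
        List.replicate L.length tX ++ (Wq q ++
          L.flatMap (fun j => tA :: (wc (c j) ++ Wq (f j)))) := by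
    intro L
    induction L with
    | nil => intro q; simp
    | cons j L ih =>
      intro q
      rw [List.foldl_cons, ih, Wq_xor, Wq_and, Wq_c]
      simp only [List.length_cons, List.flatMap_cons, List.append_assoc, List.cons_append]
      rw [List.replicate_succ']
      simp
  have := key (List.finRange n) (qc c0)
  rw [List.length_finRange, Wq_c] at this
  exact this

end Pool.Agent.Lib.MP_bba6cc_lc
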